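import Mathlib

/-!
# Project HSD: the hyperbolic plane as a saddle surface (MP_1662c5_gt). Abstract definitions.

`R` is a commutative complex star algebra (in the application: the smooth functions on the plane
with coordinates `(x, s)`, `y = exp s`), `D = (1/2)(e^s d_x - i d_s)` and
`Db = (1/2)(e^s d_x + i d_s)`. `N f c` reads: the norm of `f` is at most `c`; `V v c` reads: the
norm of the vector `v` is at most `c`. `S` is a bounded right inverse of `Db - i/2`.
-/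

set_option autoImplicit false

namespace Pool.Agent.HSD

open Complex

/-- The data: two derivations, a solution operator and two norm predicates. -/
structure Dat (ι R : Type) [Fintype ι] [CommRing R] [StarRing R] [Algebra ℂ R] where
  D : Derivation ℂ R R
  Db : Derivation ℂ R R
  S : R → R
  N : R → ℝ → Prop
  V : (ι → R) → ℝ → Prop

section

variable {ι R : Type} [Fintype ι] [CommRing R] [StarRing R] [Algebra ℂ R]

/-- The constant `z` as an element of `R`. -/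
def cst (R : Type) [CommRing R] [Algebra ℂ R] (z : ℂ) : R := algebraMap ℂ R z

/-- The bilinear product of two vectors. -/
def ip (v w : ι → R) : R := ∑ r, v r * w r

/-- A derivation applied to all components of a vector. -/
def dv (δ : Derivation ℂ R R) (v : ι → R) : ι → R := fun r => δ (v r)

/-- The second solution operator, for the equation `D f = -(i/2) f + h`. -/
def Dat.S2 (d : Dat ι R) (h : R) : R := star (d.S (star h))

/-- The axioms. `CE` is the constant of the elliptic estimate, `CS` the norm of `S`. -/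
structure Ax (CE CS : ℝ) (d : Dat ι R) : Prop where
  CE_pos : 1 ≤ CE
  CS_pos : 1 ≤ CS
  star_cst : ∀ z : ℂ, star (cst R z) = cst R (starRingEnd ℂ z)
  Db_eq : ∀ f : R, d.Db f = star (d.D (star f))
  comm : ∀ f : R, d.D (d.Db f) - d.Db (d.D f) = -(cst R (I / 2)) * (d.D f + d.Db f)
  N_nonneg : ∀ {f : R} {c : ℝ}, d.N f c → 0 ≤ c
  N_mono : ∀ {f : R} {c c' : ℝ}, d.N f c → c ≤ c' → d.N f c'
  N_add : ∀ {f g : R} {c c' : ℝ}, d.N f c → d.N g c' → d.N (f + g) (c + c')
  N_mul : ∀ {f g : R} {c c' : ℝ}, d.N f c → d.N g c' → d.N (f * g) (c * c')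
  N_cst : ∀ z : ℂ, d.N (cst R z) ‖z‖
  N_star : ∀ {f : R} {c : ℝ}, d.N f c → d.N (star f) c
  N_zero : ∀ {f : R}, (∀ c : ℝ, 0 < c → d.N f c) → f = 0
  N_D : ∀ {f : R} {c c' : ℝ}, d.N f c → d.N (d.Db f) c' → d.N (d.D f) (CE * (c + c'))
  N_inv : ∀ {f : R} {c : ℝ}, d.N (1 - f) c → c < 1 → ∃ g : R, f * g = 1 ∧ d.N g (1 / (1 - c))
  V_o : d.V 0 0
  V_nonneg : ∀ {v : ι → R} {c : ℝ}, d.V v c → 0 ≤ c
  V_mono : ∀ {v : ι → R} {c c' : ℝ}, d.V v c → c ≤ c' → d.V v c'
  V_add : ∀ {v w : ι → R} {c c' : ℝ}, d.V v c → d.V w c' → d.V (v + w) (c + c')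
  V_smul : ∀ {f : R} {v : ι → R} {c c' : ℝ}, d.N f c → d.V v c' → d.V (f • v) (c * c')
  V_star : ∀ {v : ι → R} {c : ℝ}, d.V v c → d.V (star v) c
  V_ip : ∀ {v w : ι → R} {c c' : ℝ}, d.V v c → d.V w c' → d.N (ip v w) (c * c')
  V_comp : ∀ {v : ι → R} {c : ℝ} (r : ι), d.V v c → d.N (v r) c
  V_zero : ∀ {v : ι → R}, (∀ c : ℝ, 0 < c → d.V v c) → v = 0
  V_D : ∀ {v : ι → R} {c c' : ℝ}, d.V v c → d.V (dv d.Db v) c' →
    d.V (dv d.D v) (CE * (c + c'))
  S_eq : ∀ {h : R} {c : ℝ}, d.N h c → d.Db (d.S h) = cst R (I / 2) * d.S h + h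
  S_sub : ∀ {h k : R} {c c' : ℝ}, d.N h c → d.N k c' → d.S (h - k) = d.S h - d.S k
  V_S : ∀ {v : ι → R} {c : ℝ}, d.V v c → d.V (fun r => d.S (v r)) (CS * c)

/-- Completeness, for sequences with geometrically small steps. -/
structure Cpl (d : Dat ι R) : Prop where
  cplV : ∀ (v : ℕ → ι → R) (C : ℝ), (∀ k, d.V (v (k + 1) - v k) (C / 2 ^ k)) →
    ∃ w : ι → R, ∀ k, d.V (w - v k) (2 * C / 2 ^ k)
  cplD : ∀ (f : ℕ → R) (C : ℝ), (∀ k, d.N (f (k + 1) - f k) (C / 2 ^ k)) →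
    (∀ k, d.N (d.D (f (k + 1)) - d.D (f k)) (C / 2 ^ k)) →
      ∃ g : R, ∀ k, d.N (g - f k) (2 * C / 2 ^ k) ∧ d.N (d.D g - d.D (f k)) (2 * C / 2 ^ k)

/-! ## The geometric quantities -/

/-- `q` -/
def qq (u Y : ι → R) : R := ip u (star u) + ip Y (star Y)

/-- `p` -/
def pp (u Y : ι → R) : R := 2 * ip u (star Y)

/-- `Δ = q^2 - p p*` -/
def dl (u Y : ι → R) : R := qq u Y ^ 2 - pp u Y * star (pp u Y)

/-- `A` -/
def aA (d : Dat ι R) (u Y : ι → R) : R := ip (dv d.D u) (star u) + ip (dv d.D (star Y)) Y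

/-- `B` -/
def bB (d : Dat ι R) (u Y : ι → R) : R := ip (dv d.D u) (star Y) + ip (dv d.D (star Y)) u

/-- `a`; here `i` is the inverse of `Δ`. -/
def ca (d : Dat ι R) (u Y : ι → R) (i : R) : R :=
  (qq u Y * aA d u Y - star (pp u Y) * bB d u Y) * i

/-- `b` -/
def cb (d : Dat ι R) (u Y : ι → R) (i : R) : R :=
  (qq u Y * bB d u Y - pp u Y * aA d u Y) * i

/-- `ω₁` -/
def w1 (d : Dat ι R) (u Y : ι → R) (i : R) : ι → R :=
  dv d.D u - ca d u Y i • u - cb d u Y i • Y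

/-- `ω₂` -/
def w2 (d : Dat ι R) (u Y : ι → R) (i : R) : ι → R :=
  dv d.D (star Y) - ca d u Y i • star Y - cb d u Y i • star u

/-- `W` -/
def ww (d : Dat ι R) (u Y : ι → R) (i : R) : R :=
  ip (w1 d u Y i) (star (w1 d u Y i)) + ip (w2 d u Y i) (star (w2 d u Y i))

/-- The map whose fixed point gives curvature `-1`: `T = 2 W / Δ`. -/
def tt (d : Dat ι R) (u Y : ι → R) (i : R) : R := 2 * ww d u Y i * i

/-- The system for `(u, Y)` with coefficient `l`. -/
structure Sys (d : Dat ι R) (l : R) (u Y : ι → R) : Prop where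
  equ : dv d.Db u = cst R (I / 2) • u + l • Y
  eqY : dv d.D Y = -(cst R (I / 2)) • Y + star l • u

/-- The zeroth order solution. -/
def Sys0 (d : Dat ι R) (u : ι → R) : Prop := dv d.Db u = cst R (I / 2) • u

end

end Pool.Agent.HSD
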