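import Pool.Agent.HSD.Lib

/-!
# Project HSD: the concrete algebra

`RR` is the algebra of smooth functions on the plane with coordinates `(x, s)`; `y = exp s`. A
family `a : ℝ → ℂ → ℂ` stands for the function `Σ_τ a τ (e^s) exp (i τ x)`; the coefficients are
holomorphic on the sector `sec`, with weights `exp (|τ| Re y / 2)` on the shells `Sh j`.
-/

set_option autoImplicit false
set_option linter.unusedSectionVars false

namespace Pool.Agent.HSD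

open Complex

/-- The smooth complex functions on the plane. -/
def RR : StarSubalgebra ℂ (ℝ × ℝ → ℂ) where
  carrier := {f | ContDiff ℝ ((⊤ : ℕ∞) : WithTop ℕ∞) f}
  mul_mem' := by
    intro f g hf hg
    rw [Set.mem_ofPred_eq] at *
    exact hf.mul hg
  add_mem' := by
    intro f g hf hg
    rw [Set.mem_ofPred_eq] at *
    exact hf.add hg
  algebraMap_mem' := by
    intro r
    rw [Set.mem_ofPred_eq]
    exact contDiff_const (c := r)
  star_mem' := by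
    intro f hf
    rw [Set.mem_ofPred_eq] at *
    have h : star f = fun p => Complex.conjCLE (f p) := by
      funext p; simp
    rw [h]
    exact Complex.conjCLE.contDiff.comp hf

theorem mem_RR {f : ℝ × ℝ → ℂ} : f ∈ RR ↔ ContDiff ℝ ((⊤ : ℕ∞) : WithTop ℕ∞) f := Iff.rfl

theorem RR_smooth (f : RR) : ContDiff ℝ ((⊤ : ℕ∞) : WithTop ℕ∞) (f : ℝ × ℝ → ℂ) :=
  mem_RR.mp f.2

/-- The `x`-derivative. -/
noncomputable def px (f : ℝ × ℝ → ℂ) (p : ℝ × ℝ) : ℂ := fderiv ℝ f p (1, 0)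
/-- The `s`-derivative. -/
noncomputable def ps (f : ℝ × ℝ → ℂ) (p : ℝ × ℝ) : ℂ := fderiv ℝ f p (0, 1)

/-- `(1/2)(e^s d_x + σ i d_s)` -/
noncomputable def dOp (σ : ℂ) (f : ℝ × ℝ → ℂ) (p : ℝ × ℝ) : ℂ :=
  1 / 2 * ((Real.exp p.2 : ℂ) * px f p + σ * I * ps f p)

theorem px_smooth (f : RR) :
    ContDiff ℝ ((⊤ : ℕ∞) : WithTop ℕ∞) (px (f : ℝ × ℝ → ℂ)) := by
  have h1 : ContDiff ℝ ((⊤ : ℕ∞) : WithTop ℕ∞) (fderiv ℝ (f : ℝ × ℝ → ℂ)) :=
    (RR_smooth f).fderiv_right (by simp)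
  exact h1.clm_apply contDiff_const

theorem ps_smooth (f : RR) :
    ContDiff ℝ ((⊤ : ℕ∞) : WithTop ℕ∞) (ps (f : ℝ × ℝ → ℂ)) := by
  have h1 : ContDiff ℝ ((⊤ : ℕ∞) : WithTop ℕ∞) (fderiv ℝ (f : ℝ × ℝ → ℂ)) :=
    (RR_smooth f).fderiv_right (by simp)
  exact h1.clm_apply contDiff_const

theorem dOp_smooth (σ : ℂ) (f : RR) : dOp σ f ∈ RR := by
  have h3 : ContDiff ℝ ((⊤ : ℕ∞) : WithTop ℕ∞) (fun p : ℝ × ℝ => ((Real.exp p.2 : ℝ) : ℂ)) :=
    Complex.ofRealCLM.contDiff.comp (Real.contDiff_exp.comp contDiff_snd)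
  rw [mem_RR]
  exact contDiff_const.mul ((h3.mul (px_smooth f)).add (contDiff_const.mul (ps_smooth f)))

theorem RR_diff (f : RR) : Differentiable ℝ (f : ℝ × ℝ → ℂ) :=
  (RR_smooth f).differentiable (by simp)

theorem dOp_add (σ : ℂ) (f g : RR) : dOp σ ((f + g : RR) : ℝ × ℝ → ℂ) = dOp σ f + dOp σ g := by
  funext p
  have h : fderiv ℝ ((f : ℝ × ℝ → ℂ) + (g : ℝ × ℝ → ℂ)) p = _ :=
    fderiv_add (RR_diff f p) (RR_diff g p)
  simp only [dOp, px, ps, AddMemClass.coe_add, Pi.add_apply, h, add_apply]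
  ring

theorem dOp_smul (σ c : ℂ) (f : RR) : dOp σ ((c • f : RR) : ℝ × ℝ → ℂ) = c • dOp σ f := by
  funext p
  have h : fderiv ℝ (c • (f : ℝ × ℝ → ℂ)) p = _ := fderiv_const_smul (RR_diff f p) c
  simp only [dOp, px, ps, SetLike.val_smul, Pi.smul_apply, h, smul_apply, smul_eq_mul]
  ring

theorem dOp_mul (σ : ℂ) (f g : RR) : dOp σ ((f * g : RR) : ℝ × ℝ → ℂ) =
    (f : ℝ × ℝ → ℂ) * dOp σ g + (g : ℝ × ℝ → ℂ) * dOp σ f := by
  funext p
  have h : fderiv ℝ ((f : ℝ × ℝ → ℂ) * (g : ℝ × ℝ → ℂ)) p = _ :=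
    fderiv_mul (RR_diff f p) (RR_diff g p)
  simp only [dOp, px, ps, MulMemClass.coe_mul, h, add_apply, smul_apply, smul_eq_mul,
    Pi.add_apply, Pi.mul_apply]
  ring

/-- The derivation `(1/2)(e^s d_x + σ i d_s)` of `RR`. -/
noncomputable def dDer (σ : ℂ) : Derivation ℂ RR RR :=
  Derivation.mk'
    { toFun := fun f => ⟨dOp σ f, dOp_smooth σ f⟩
      map_add' := fun f g => Subtype.ext (dOp_add σ f g)
      map_smul' := fun c f => Subtype.ext (dOp_smul σ c f) }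
    (fun f g => Subtype.ext (dOp_mul σ f g))

/-- The sector. -/
def sec : Set ℂ := {y | |y.im| < y.re}

/-- The shells of the sector. -/
def Sh (j : ℤ) : Set ℂ := {y | y ∈ sec ∧ (2 : ℝ) ^ j ≤ y.re ∧ y.re ≤ (2 : ℝ) ^ (j + 1)}

/-- The weighted supremum over a shell. -/
noncomputable def sj (τ : ℝ) (g : ℂ → ℂ) (j : ℤ) : ENNReal :=
  ⨆ y ∈ Sh j, ENNReal.ofReal (Real.exp (|τ| * y.re / 2) * ‖g y‖)

/-- The norm of a family on a shell. -/
noncomputable def NN (a : ℝ → ℂ → ℂ) (j : ℤ) : ENNReal := ∑' τ : ℝ, sj τ (a τ) j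

/-- The function belonging to a family. -/
noncomputable def Ff (a : ℝ → ℂ → ℂ) (p : ℝ × ℝ) : ℂ :=
  ∑' τ : ℝ, a τ (Real.exp p.2 : ℂ) * exp (I * (τ : ℂ) * (p.1 : ℂ))

/-- Admissible families. -/
structure Fam (a : ℝ → ℂ → ℂ) : Prop where
  holo : ∀ τ : ℝ, DifferentiableOn ℂ (a τ) sec
  fin : ∀ j : ℤ, NN a j ≠ ⊤

/-- The family `a` represents the function `f`. -/
structure Rep (a : ℝ → ℂ → ℂ) (f : ℝ × ℝ → ℂ) : Prop where
  fam : Fam a
  eq : ∀ p, f p = Ff a p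

/-- The family of the derivative `(1/2)(e^s d_x + σ i d_s)`:
`(i/2) y (τ a + σ a')`. -/
noncomputable def dfam (σ : ℂ) (a : ℝ → ℂ → ℂ) : ℝ → ℂ → ℂ :=
  fun τ y => I / 2 * y * ((τ : ℂ) * a τ y + σ * deriv (a τ) y)

/-- Locally summable families: on every compact subset of the sector the sum of the suprema,
with some exponential weight, is finite. -/
structure LSm (a : ℝ → ℂ → ℂ) : Prop where
  holo : ∀ τ : ℝ, DifferentiableOn ℂ (a τ) sec
  fin : ∀ K : Set ℂ, K ⊆ sec → IsCompact K → ∃ θ : ℝ, 0 < θ ∧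
    ∑' τ : ℝ, (⨆ y ∈ K, ENNReal.ofReal (Real.exp (θ * |τ|) * ‖a τ y‖)) ≠ ⊤

/-- The norm predicate for functions. -/
def NR (f : RR) (c : ℝ) : Prop :=
  0 ≤ c ∧ ∃ a : ℝ → ℂ → ℂ, Rep a f ∧ ∀ j : ℤ, NN a j ≤ ENNReal.ofReal c

/-- The norm predicate for vectors. -/
def VR {ι : Type} [Fintype ι] (v : ι → RR) (c : ℝ) : Prop :=
  0 ≤ c ∧ ∃ a : ι → ℝ → ℂ → ℂ, (∀ r, Rep (a r) (v r)) ∧
    ∀ j : ℤ, ∑ r, (NN (a r) j) ^ 2 ≤ ENNReal.ofReal (c ^ 2)

/-- The integrand of the solution formula for `τ ≤ 0`. -/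
noncomputable def hM (τ : ℝ) (g : ℂ → ℂ) (w : ℂ) : ℂ := exp ((τ : ℂ) * w) * w⁻¹ ^ 2 * g w

/-- The first integrand of the solution formula for `τ > 0`. -/
noncomputable def hP (τ : ℝ) (g : ℂ → ℂ) (w : ℂ) : ℂ :=
  exp ((τ : ℂ) * w) * (1 - exp (-2 * ((τ : ℂ) * w)) * (1 + 2 * ((τ : ℂ) * w))) * w⁻¹ ^ 2 * g w

/-- The second integrand of the solution formula for `τ > 0`. -/
noncomputable def hQ (τ : ℝ) (g : ℂ → ℂ) (w : ℂ) : ℂ :=
  exp (-((τ : ℂ) * w)) * (1 + 2 * ((τ : ℂ) * w)) * w⁻¹ ^ 2 * g w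

/-- The bounded solution of `(i/2) y (τ f + f') = (i/2) f + g`. -/
noncomputable def sol1 (τ : ℝ) (g : ℂ → ℂ) (y : ℂ) : ℂ :=
  if τ ≤ 0 then
    2 * I * y * exp (-(τ : ℂ) * y) * ∫ t in Set.Ioi (1 : ℝ), y * hM τ g (t * y)
  else
    -2 * I * y * exp (-(τ : ℂ) * y) *
      ((∫ t in Set.Ioc (0 : ℝ) 1, y * hP τ g (t * y)) -
        ∫ t in Set.Ioi (1 : ℝ), y * hQ τ g (t * y))

/-- The solution at the level of families. -/
noncomputable def solF (h : ℝ → ℂ → ℂ) : ℝ → ℂ → ℂ := fun τ => sol1 τ (h τ)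

open Classical in
/-- The solution operator: `Db (S h) = (i/2) S h + h` for `h` of finite norm. -/
noncomputable def SR (h : RR) : RR :=
  if H : ∃ g : RR, ∃ a : ℝ → ℂ → ℂ, ∃ c : ℝ,
      Rep a h ∧ (∀ j : ℤ, NN a j ≤ ENNReal.ofReal c) ∧ Rep (solF a) g then H.choose else 0

/-- The concrete structure. -/
noncomputable def dR (ι : Type) [Fintype ι] : Dat ι RR where
  D := dDer (-1)
  Db := dDer 1
  S := SR
  N := NR
  V := VR

end Pool.Agent.HSD
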