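import Mathlib

/-!
# Project HSD: the geometric notions of the final statement

Maps `f : ℂ → E` into a real inner product space; `ℂ = ℝ^2` is the parameter plane. All notions
are expressed with the partial derivatives `fderiv ℝ f z 1` and `fderiv ℝ f z I`.
-/

set_option autoImplicit false

namespace Pool.Agent.HSD

open Complex

/-- The first partial derivative of a real function on the plane. -/
noncomputable def d1 (h : ℂ → ℝ) (z : ℂ) : ℝ := fderiv ℝ h z 1
/-- The second partial derivative of a real function on the plane. -/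
noncomputable def d2 (h : ℂ → ℝ) (z : ℂ) : ℝ := fderiv ℝ h z I

section

variable {E : Type} [NormedAddCommGroup E] [InnerProductSpace ℝ E]

/-- The coefficient `⟨f_1, f_1⟩` of the induced metric. -/
noncomputable def gE (f : ℂ → E) (z : ℂ) : ℝ := inner ℝ (fderiv ℝ f z 1) (fderiv ℝ f z 1)
/-- The coefficient `⟨f_1, f_2⟩` of the induced metric. -/
noncomputable def gF (f : ℂ → E) (z : ℂ) : ℝ := inner ℝ (fderiv ℝ f z 1) (fderiv ℝ f z I)
/-- The coefficient `⟨f_2, f_2⟩` of the induced metric. -/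
noncomputable def gG (f : ℂ → E) (z : ℂ) : ℝ := inner ℝ (fderiv ℝ f z I) (fderiv ℝ f z I)

/-- The Gauss curvature of the metric `A dx^2 + 2 B dx dy + C dy^2` (Brioschi's formula). -/
noncomputable def brio (A B C : ℂ → ℝ) (z : ℂ) : ℝ :=
  (Matrix.det !![-(1 / 2) * d2 (d2 A) z + d1 (d2 B) z - 1 / 2 * d1 (d1 C) z,
        1 / 2 * d1 A z, d1 B z - 1 / 2 * d2 A z;
      d2 B z - 1 / 2 * d1 C z, A z, B z;
      1 / 2 * d2 C z, B z, C z] -
    Matrix.det !![0, 1 / 2 * d2 A z, 1 / 2 * d1 C z;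
      1 / 2 * d2 A z, A z, B z;
      1 / 2 * d1 C z, B z, C z]) / (A z * C z - B z ^ 2) ^ 2

/-- The surface is a saddle surface: for every normal vector `ν` the second fundamental form
`⟨f_ij, ν⟩` has determinant at most `0`. -/
def Saddle (f : ℂ → E) : Prop := ∀ z : ℂ, ∀ ν : E, inner ℝ (fderiv ℝ f z 1) ν = 0 →
  inner ℝ (fderiv ℝ f z I) ν = 0 →
    inner ℝ (fderiv ℝ (fun w => fderiv ℝ f w 1) z 1) ν *
      inner ℝ (fderiv ℝ (fun w => fderiv ℝ f w I) z I) ν -
        (inner ℝ (fderiv ℝ (fun w => fderiv ℝ f w 1) z I) ν) ^ 2 ≤ 0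

/-- The induced metric is complete: every `C^1` curve `γ` on `[0, 1)` in the parameter plane that
leaves every compact set has infinite length in the induced metric. -/
def CompleteInd (f : ℂ → E) : Prop := ∀ γ : ℝ → ℂ, ContDiffOn ℝ 1 γ (Set.Ico 0 1) →
  (∀ K : Set ℂ, IsCompact K → ∃ s < (1 : ℝ), ∀ t ∈ Set.Ioo s 1, γ t ∉ K) →
    ∫⁻ t in Set.Ioo (0 : ℝ) 1, ENNReal.ofReal ‖fderiv ℝ f (γ t) (deriv γ t)‖ = ⊤

end

end Pool.Agent.HSD
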