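import Pool.Agent.HSD.Defs

/-!
# Project HSD: elementary consequences of the axioms

All lemmas about norms are stated for the predicates `d.N f c` (norm of `f` at most `c`) and
`d.V v c`.
-/

set_option autoImplicit false
set_option linter.unusedSectionVars false

namespace Pool.Agent.HSD

open Complex

section alg

variable {ι R : Type} [Fintype ι] [CommRing R] [StarRing R] [Algebra ℂ R]

/-! ## Constants -/

theorem cst_add (z w : ℂ) : cst R (z + w) = cst R z + cst R w := map_add _ _ _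
theorem cst_mul (z w : ℂ) : cst R (z * w) = cst R z * cst R w := map_mul _ _ _
theorem cst_neg (z : ℂ) : cst R (-z) = -cst R z := map_neg _ _
theorem cst_sub (z w : ℂ) : cst R (z - w) = cst R z - cst R w := map_sub _ _ _
theorem cst_zero : cst R 0 = 0 := map_zero _
theorem cst_one : cst R 1 = 1 := map_one _
theorem cst_two : cst R 2 = 2 := map_ofNat _ 2

/-- `2 * (1/2) = 1` -/
theorem two_cst_half : (2 : R) * cst R (1 / 2) = 1 := by
  rw [← cst_two, ← cst_mul]
  norm_num [cst_one]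

/-- `i/2 = i * (1/2)` -/
theorem cst_Ihalf : cst R (I / 2) = cst R I * cst R (1 / 2) := by
  rw [← cst_mul]
  congr 1
  ring

/-- `i * i = -1` -/
theorem cst_I_mul_I : cst R I * cst R I = -1 := by
  rw [← cst_mul, I_mul_I, cst_neg, cst_one]

/-- `2 * (i/2) = i` -/
theorem two_cst_Ihalf : (2 : R) * cst R (I / 2) = cst R I := by
  rw [← cst_two, ← cst_mul]
  congr 1
  ring

/-- `4 (i/2)^2 = -1` -/
theorem four_Ihalf_sq : (4 : R) * (cst R (I / 2) * cst R (I / 2)) = -1 := by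
  have h1 : (2 : R) * cst R (I / 2) = cst R I := two_cst_Ihalf
  have h2 : cst R I * cst R I = -1 := cst_I_mul_I
  rw [← h2, ← h1]
  ring

/-! ## The bilinear product -/

theorem ip_add_left (v v' w : ι → R) : ip (v + v') w = ip v w + ip v' w := by
  simp [ip, add_mul, Finset.sum_add_distrib]
theorem ip_add_right (v w w' : ι → R) : ip v (w + w') = ip v w + ip v w' := by
  simp [ip, mul_add, Finset.sum_add_distrib]
theorem ip_sub_left (v v' w : ι → R) : ip (v - v') w = ip v w - ip v' w := by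
  simp [ip, sub_mul, Finset.sum_sub_distrib]
theorem ip_sub_right (v w w' : ι → R) : ip v (w - w') = ip v w - ip v w' := by
  simp [ip, mul_sub, Finset.sum_sub_distrib]
theorem ip_neg_left (v w : ι → R) : ip (-v) w = -ip v w := by
  simp [ip]
theorem ip_neg_right (v w : ι → R) : ip v (-w) = -ip v w := by
  simp [ip]
theorem ip_smul_left (f : R) (v w : ι → R) : ip (f • v) w = f * ip v w := by
  simp [ip, Finset.mul_sum, mul_assoc]
theorem ip_smul_right (f : R) (v w : ι → R) : ip v (f • w) = f * ip v w := by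
  simp only [ip, Finset.mul_sum, Pi.smul_apply, smul_eq_mul]
  exact Finset.sum_congr rfl fun r _ => by ring
theorem ip_comm (v w : ι → R) : ip v w = ip w v := by
  simp only [ip]
  exact Finset.sum_congr rfl fun r _ => by ring
theorem ip_zero_left (w : ι → R) : ip 0 w = 0 := by simp [ip]
theorem ip_zero_right (w : ι → R) : ip w 0 = 0 := by simp [ip]
theorem star_ip (v w : ι → R) : star (ip v w) = ip (star v) (star w) := by
  simp [ip, star_sum]

theorem star_smul' (f : R) (v : ι → R) : star (f • v) = star f • star v := by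
  funext r
  simp

/-! ## Derivations on vectors -/

theorem dv_add (δ : Derivation ℂ R R) (v w : ι → R) : dv δ (v + w) = dv δ v + dv δ w := by
  funext r; simp [dv]
theorem dv_sub (δ : Derivation ℂ R R) (v w : ι → R) : dv δ (v - w) = dv δ v - dv δ w := by
  funext r; simp [dv]
theorem dv_neg (δ : Derivation ℂ R R) (v : ι → R) : dv δ (-v) = -dv δ v := by
  funext r; simp [dv]
theorem dv_zero (δ : Derivation ℂ R R) : dv δ (0 : ι → R) = 0 := by
  funext r; simp [dv]
theorem dv_smul (δ : Derivation ℂ R R) (f : R) (v : ι → R) :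
    dv δ (f • v) = f • dv δ v + δ f • v := by
  funext r
  simp [dv, mul_comm]
theorem der_ip (δ : Derivation ℂ R R) (v w : ι → R) :
    δ (ip v w) = ip (dv δ v) w + ip v (dv δ w) := by
  simp only [ip, map_sum, Derivation.leibniz, smul_eq_mul, ← Finset.sum_add_distrib, dv]
  exact Finset.sum_congr rfl fun r _ => by ring
theorem der_cst (δ : Derivation ℂ R R) (z : ℂ) : δ (cst R z) = 0 := δ.map_algebraMap z
theorem der_mul (δ : Derivation ℂ R R) (f g : R) : δ (f * g) = f * δ g + g * δ f := by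
  simp [Derivation.leibniz]
theorem der_sq (δ : Derivation ℂ R R) (f : R) : δ (f ^ 2) = 2 * f * δ f := by
  rw [sq, der_mul]
  ring
theorem der_two (δ : Derivation ℂ R R) : δ (2 : R) = 0 := by
  rw [← cst_two, der_cst]
theorem der_one (δ : Derivation ℂ R R) : δ (1 : R) = 0 := by
  rw [← cst_one, der_cst]
/-- The derivative of an inverse. -/
theorem der_inv (δ : Derivation ℂ R R) {f g : R} (h : f * g = 1) :
    δ g = -(g * g) * δ f := by
  have h1 : f * δ g + g * δ f = 0 := by rw [← der_mul, h, der_one]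
  linear_combination g * h1 - δ g * h

/-- Inverses are unique. -/
theorem inv_unique {f g g' : R} (h : f * g = 1) (h' : f * g' = 1) : g = g' := by
  linear_combination g' * h - g * h'

/-- The difference of two inverses. -/
theorem inv_sub {f g f' g' : R} (h : f * g = 1) (h' : f' * g' = 1) :
    g - g' = g * g' * (f' - f) := by
  linear_combination g' * h - g * h'

end alg

section ax

variable {ι R : Type} [Fintype ι] [CommRing R] [StarRing R] [Algebra ℂ R]
variable {CE CS : ℝ} {d : Dat ι R} (a : Ax CE CS d)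

include a

namespace Ax

theorem D_star (f : R) : d.D (star f) = star (d.Db f) := by
  rw [a.Db_eq, star_star]
theorem Db_star (f : R) : d.Db (star f) = star (d.D f) := by
  rw [a.Db_eq, star_star]
theorem dvD_star (v : ι → R) : dv d.D (star v) = star (dv d.Db v) := by
  funext r; exact a.D_star (v r)
theorem dvDb_star (v : ι → R) : dv d.Db (star v) = star (dv d.D v) := by
  funext r; exact a.Db_star (v r)
theorem star_Ihalf : star (cst R (I / 2)) = -cst R (I / 2) := by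
  rw [a.star_cst, ← cst_neg]
  congr 1
  rw [map_div₀, conj_I, map_ofNat]
  ring
theorem star_I : star (cst R I) = -cst R I := by
  rw [a.star_cst, conj_I, cst_neg]

/-! ## The norm of elements -/

theorem N_congr {f g : R} {c c' : ℝ} (h : d.N f c) (hf : f = g) (hc : c = c') : d.N g c' := by
  subst hf; subst hc; exact h
theorem N_eq {f g : R} {c : ℝ} (h : d.N f c) (hf : g = f) : d.N g c := by
  subst hf; exact h
theorem N_le {f g : R} {c c' : ℝ} (h : d.N f c) (hf : g = f) (hc : c ≤ c') : d.N g c' := by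
  subst hf; exact a.N_mono h hc
theorem N_cmul {f : R} {c : ℝ} (z : ℂ) (h : d.N f c) : d.N (cst R z * f) (‖z‖ * c) :=
  a.N_mul (a.N_cst z) h
theorem N_neg {f : R} {c : ℝ} (h : d.N f c) : d.N (-f) c :=
  a.N_congr (a.N_cmul (-1) h) (by rw [cst_neg, cst_one]; ring) (by simp)
theorem N_sub {f g : R} {c c' : ℝ} (h : d.N f c) (h' : d.N g c') : d.N (f - g) (c + c') :=
  a.N_eq (a.N_add h (a.N_neg h')) (by ring)
theorem N_sub_comm {f g : R} {c : ℝ} (h : d.N (f - g) c) : d.N (g - f) c :=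
  a.N_eq (a.N_neg h) (by ring)
theorem N_o : d.N 0 0 := a.N_congr (a.N_cst 0) cst_zero (by simp)
theorem N_one : d.N 1 1 := a.N_congr (a.N_cst 1) cst_one (by simp)
theorem N_two : d.N 2 2 := a.N_congr (a.N_cst 2) cst_two (by simp)
theorem N_zero_of {c : ℝ} (h : 0 ≤ c) : d.N 0 c := a.N_mono a.N_o h
theorem N_sq {f : R} {c : ℝ} (h : d.N f c) : d.N (f ^ 2) (c ^ 2) :=
  a.N_congr (a.N_mul h h) (by ring) (by ring)
/-- the norm of `g` from the norm of `f` and of `f - g` -/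
theorem N_of_sub {f g : R} {c c' : ℝ} (h : d.N f c) (h' : d.N (g - f) c') : d.N g (c + c') :=
  a.N_eq (a.N_add h h') (by ring)
theorem N_tri {f g k : R} {c c' : ℝ} (h : d.N (f - g) c) (h' : d.N (g - k) c') :
    d.N (f - k) (c + c') :=
  a.N_eq (a.N_add h h') (by ring)
/-- if the norm is at most `0` then the element vanishes -/
theorem N_eq_zero {f : R} (h : d.N f 0) : f = 0 := a.N_zero fun _ hc => a.N_mono h hc.le

theorem N_Db {f : R} {c c' : ℝ} (h : d.N f c) (h' : d.N (d.D f) c') :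
    d.N (d.Db f) (CE * (c + c')) := by
  have h1 : d.N (d.Db (star f)) c' := a.N_eq (a.N_star h') (a.Db_star f)
  have h2 := a.N_star (a.N_D (a.N_star h) h1)
  exact a.N_eq h2 (by rw [a.D_star, star_star])

theorem S2_eq {h : R} {c : ℝ} (hh : d.N h c) :
    d.D (d.S2 h) = -(cst R (I / 2)) * d.S2 h + h := by
  unfold Dat.S2
  rw [a.D_star, a.S_eq (a.N_star hh)]
  simp only [star_add, star_mul', star_star, a.star_Ihalf]

/-! ## The norm of vectors -/

theorem V_eq {v w : ι → R} {c : ℝ} (h : d.V v c) (hf : w = v) : d.V w c := by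
  subst hf; exact h
theorem V_congr {v w : ι → R} {c c' : ℝ} (h : d.V v c) (hf : v = w) (hc : c = c') :
    d.V w c' := by
  subst hf; subst hc; exact h
theorem V_le {v w : ι → R} {c c' : ℝ} (h : d.V v c) (hf : w = v) (hc : c ≤ c') : d.V w c' := by
  subst hf; exact a.V_mono h hc
theorem V_csmul {v : ι → R} {c : ℝ} (z : ℂ) (h : d.V v c) : d.V (cst R z • v) (‖z‖ * c) :=
  a.V_smul (a.N_cst z) h
theorem V_neg {v : ι → R} {c : ℝ} (h : d.V v c) : d.V (-v) c :=
  a.V_congr (a.V_csmul (-1) h) (by rw [cst_neg, cst_one]; simp) (by simp)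
theorem V_sub {v w : ι → R} {c c' : ℝ} (h : d.V v c) (h' : d.V w c') : d.V (v - w) (c + c') :=
  a.V_eq (a.V_add h (a.V_neg h')) (by abel)
theorem V_sub_comm {v w : ι → R} {c : ℝ} (h : d.V (v - w) c) : d.V (w - v) c :=
  a.V_eq (a.V_neg h) (by abel)
theorem V_of_sub {v w : ι → R} {c c' : ℝ} (h : d.V v c) (h' : d.V (w - v) c') :
    d.V w (c + c') :=
  a.V_eq (a.V_add h h') (by abel)
theorem V_tri {v w x : ι → R} {c c' : ℝ} (h : d.V (v - w) c) (h' : d.V (w - x) c') :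
    d.V (v - x) (c + c') :=
  a.V_eq (a.V_add h h') (by abel)
theorem V_zero_of {c : ℝ} (h : 0 ≤ c) : d.V 0 c := a.V_mono a.V_o h
theorem V_star_iff {v : ι → R} {c : ℝ} (h : d.V (star v) c) : d.V v c :=
  a.V_eq (a.V_star h) (star_star v).symm

theorem V_Db {v : ι → R} {c c' : ℝ} (h : d.V v c) (h' : d.V (dv d.D v) c') :
    d.V (dv d.Db v) (CE * (c + c')) := by
  have h1 : d.V (dv d.Db (star v)) c' := a.V_eq (a.V_star h') (a.dvDb_star v)
  have h2 := a.V_star (a.V_D (a.V_star h) h1)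
  exact a.V_eq h2 (by rw [a.dvD_star, star_star])

theorem V_S2 {v : ι → R} {c : ℝ} (h : d.V v c) : d.V (fun r => d.S2 (v r)) (CS * c) :=
  a.V_eq (a.V_star (a.V_S (a.V_star h))) (by funext r; rfl)

/-! ## A calculus of orders

`d.N f (K ^ n * ε ^ k)` where `K ≥ 2` bounds all constants and `0 ≤ ε ≤ 1`. -/

theorem S2_sub {h k : R} {c c' : ℝ} (hh : d.N h c) (hk : d.N k c') :
    d.S2 (h - k) = d.S2 h - d.S2 k := by
  unfold Dat.S2
  rw [star_sub, a.S_sub (a.N_star hh) (a.N_star hk), star_sub]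

end Ax

end ax

section cal

variable {ι R : Type} [Fintype ι] [CommRing R] [StarRing R] [Algebra ℂ R]
variable {CE CS : ℝ} {d : Dat ι R}

/-- `f` has norm at most `K^n ε^k`. -/
def Nk (d : Dat ι R) (K ε : ℝ) (n k : ℕ) (f : R) : Prop := d.N f (K ^ n * ε ^ k)

/-- `v` has norm at most `K^n ε^k`. -/
def Vk (d : Dat ι R) (K ε : ℝ) (n k : ℕ) (v : ι → R) : Prop := d.V v (K ^ n * ε ^ k)

/-- The standing assumptions of the calculus. -/
structure Ctx (CE CS K ε : ℝ) (d : Dat ι R) : Prop where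
  ax : Ax CE CS d
  hK : 2 ≤ K
  hCE : CE ≤ K
  hCS : CS ≤ K
  e0 : 0 ≤ ε
  e1 : ε ≤ 1

namespace Ctx

variable {K ε : ℝ} (x : Ctx CE CS K ε d)

include x

theorem K1 : 1 ≤ K := by linarith [x.hK]
theorem K0 : 0 ≤ K := by linarith [x.hK]

/-- monotonicity of the scale `K^n ε^k` -/
theorem le_pow {n n' k k' : ℕ} (hn : n ≤ n') (hk : k' ≤ k) :
    K ^ n * ε ^ k ≤ K ^ n' * ε ^ k' :=
  mul_le_mul (pow_le_pow_right₀ x.K1 hn) (pow_le_pow_of_le_one x.e0 x.e1 hk)
    (pow_nonneg x.e0 _) (pow_nonneg x.K0 _)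

theorem sum_pow {n n' k k' : ℕ} :
    K ^ n * ε ^ k + K ^ n' * ε ^ k' ≤ K ^ (max n n' + 1) * ε ^ (min k k') := by
  have h1 : K ^ n * ε ^ k ≤ K ^ (max n n') * ε ^ (min k k') :=
    x.le_pow (le_max_left _ _) (min_le_left _ _)
  have h2 : K ^ n' * ε ^ k' ≤ K ^ (max n n') * ε ^ (min k k') :=
    x.le_pow (le_max_right _ _) (min_le_right _ _)
  have h3 : 0 ≤ K ^ (max n n') * ε ^ (min k k') :=
    mul_nonneg (pow_nonneg x.K0 _) (pow_nonneg x.e0 _)
  have h4 : K ^ (max n n' + 1) * ε ^ (min k k') =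
      K * (K ^ (max n n') * ε ^ (min k k')) := by ring
  rw [h4]
  nlinarith [x.hK]

theorem Nmono {n n' k k' : ℕ} {f : R} (h : Nk d K ε n k f) (hn : n ≤ n') (hk : k' ≤ k) :
    Nk d K ε n' k' f := x.ax.N_mono h (x.le_pow hn hk)
theorem Neq {n k : ℕ} {f g : R} (h : Nk d K ε n k f) (e : g = f) : Nk d K ε n k g := by
  subst e; exact h
theorem Nadd {n n' k k' : ℕ} {f g : R} (h : Nk d K ε n k f) (h' : Nk d K ε n' k' g) :
    Nk d K ε (max n n' + 1) (min k k') (f + g) := x.ax.N_mono (x.ax.N_add h h') x.sum_pow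
theorem Nsub {n n' k k' : ℕ} {f g : R} (h : Nk d K ε n k f) (h' : Nk d K ε n' k' g) :
    Nk d K ε (max n n' + 1) (min k k') (f - g) := x.ax.N_mono (x.ax.N_sub h h') x.sum_pow
theorem Nneg {n k : ℕ} {f : R} (h : Nk d K ε n k f) : Nk d K ε n k (-f) := x.ax.N_neg h
theorem Nmul {n n' k k' : ℕ} {f g : R} (h : Nk d K ε n k f) (h' : Nk d K ε n' k' g) :
    Nk d K ε (n + n') (k + k') (f * g) := by
  refine x.ax.N_mono (x.ax.N_mul h h') (le_of_eq ?_)
  rw [pow_add, pow_add]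
  ring
theorem Nstar {n k : ℕ} {f : R} (h : Nk d K ε n k f) : Nk d K ε n k (star f) := x.ax.N_star h
theorem Ncst {z : ℂ} (hz : ‖z‖ ≤ 1) : Nk d K ε 0 0 (cst R z) :=
  x.ax.N_mono (x.ax.N_cst z) (by simpa using hz)
theorem Ntwo : Nk d K ε 1 0 (2 : R) := x.ax.N_mono x.ax.N_two (by simpa using x.hK)
theorem None : Nk d K ε 0 0 (1 : R) := x.ax.N_mono x.ax.N_one (by simp)
theorem Nzero {n k : ℕ} : Nk d K ε n k (0 : R) :=
  x.ax.N_zero_of (mul_nonneg (pow_nonneg x.K0 _) (pow_nonneg x.e0 _))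
theorem ND {n n' k k' : ℕ} {f : R} (h : Nk d K ε n k f) (h' : Nk d K ε n' k' (d.Db f)) :
    Nk d K ε (max n n' + 2) (min k k') (d.D f) := by
  refine x.ax.N_mono (x.ax.N_D h h') ?_
  have h1 := x.sum_pow (n := n) (n' := n') (k := k) (k' := k')
  have h2 : 0 ≤ K ^ n * ε ^ k + K ^ n' * ε ^ k' := add_nonneg
    (mul_nonneg (pow_nonneg x.K0 _) (pow_nonneg x.e0 _))
    (mul_nonneg (pow_nonneg x.K0 _) (pow_nonneg x.e0 _))
  calc CE * (K ^ n * ε ^ k + K ^ n' * ε ^ k')
      ≤ K * (K ^ (max n n' + 1) * ε ^ (min k k')) := mul_le_mul x.hCE h1 h2 x.K0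
    _ = K ^ (max n n' + 2) * ε ^ (min k k') := by ring
theorem NDb {n n' k k' : ℕ} {f : R} (h : Nk d K ε n k f) (h' : Nk d K ε n' k' (d.D f)) :
    Nk d K ε (max n n' + 2) (min k k') (d.Db f) := by
  have h1 : Nk d K ε n' k' (d.Db (star f)) := x.Neq (x.Nstar h') (x.ax.Db_star f)
  have h2 := x.Nstar (x.ND (x.Nstar h) h1)
  exact x.Neq h2 (by rw [x.ax.D_star, star_star])

theorem Vmono {n n' k k' : ℕ} {f : ι → R} (h : Vk d K ε n k f) (hn : n ≤ n') (hk : k' ≤ k) :
    Vk d K ε n' k' f := x.ax.V_mono h (x.le_pow hn hk)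
theorem Veq {n k : ℕ} {f g : ι → R} (h : Vk d K ε n k f) (e : g = f) : Vk d K ε n k g := by
  subst e; exact h
theorem Vadd {n n' k k' : ℕ} {f g : ι → R} (h : Vk d K ε n k f) (h' : Vk d K ε n' k' g) :
    Vk d K ε (max n n' + 1) (min k k') (f + g) := x.ax.V_mono (x.ax.V_add h h') x.sum_pow
theorem Vsub {n n' k k' : ℕ} {f g : ι → R} (h : Vk d K ε n k f) (h' : Vk d K ε n' k' g) :
    Vk d K ε (max n n' + 1) (min k k') (f - g) := x.ax.V_mono (x.ax.V_sub h h') x.sum_pow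
theorem Vneg {n k : ℕ} {f : ι → R} (h : Vk d K ε n k f) : Vk d K ε n k (-f) := x.ax.V_neg h
theorem Vsmul {n n' k k' : ℕ} {f : R} {v : ι → R} (h : Nk d K ε n k f)
    (h' : Vk d K ε n' k' v) : Vk d K ε (n + n') (k + k') (f • v) := by
  refine x.ax.V_mono (x.ax.V_smul h h') (le_of_eq ?_)
  rw [pow_add, pow_add]
  ring
theorem Vstar {n k : ℕ} {f : ι → R} (h : Vk d K ε n k f) : Vk d K ε n k (star f) :=
  x.ax.V_star h
theorem Vzero {n k : ℕ} : Vk d K ε n k (0 : ι → R) :=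
  x.ax.V_zero_of (mul_nonneg (pow_nonneg x.K0 _) (pow_nonneg x.e0 _))
theorem Vip {n n' k k' : ℕ} {v w : ι → R} (h : Vk d K ε n k v) (h' : Vk d K ε n' k' w) :
    Nk d K ε (n + n') (k + k') (ip v w) := by
  refine x.ax.N_mono (x.ax.V_ip h h') (le_of_eq ?_)
  rw [pow_add, pow_add]
  ring
theorem VD {n n' k k' : ℕ} {f : ι → R} (h : Vk d K ε n k f)
    (h' : Vk d K ε n' k' (dv d.Db f)) :
    Vk d K ε (max n n' + 2) (min k k') (dv d.D f) := by
  refine x.ax.V_mono (x.ax.V_D h h') ?_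
  have h1 := x.sum_pow (n := n) (n' := n') (k := k) (k' := k')
  have h2 : 0 ≤ K ^ n * ε ^ k + K ^ n' * ε ^ k' := add_nonneg
    (mul_nonneg (pow_nonneg x.K0 _) (pow_nonneg x.e0 _))
    (mul_nonneg (pow_nonneg x.K0 _) (pow_nonneg x.e0 _))
  calc CE * (K ^ n * ε ^ k + K ^ n' * ε ^ k')
      ≤ K * (K ^ (max n n' + 1) * ε ^ (min k k')) := mul_le_mul x.hCE h1 h2 x.K0
    _ = K ^ (max n n' + 2) * ε ^ (min k k') := by ring
theorem VDb {n n' k k' : ℕ} {f : ι → R} (h : Vk d K ε n k f)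
    (h' : Vk d K ε n' k' (dv d.D f)) :
    Vk d K ε (max n n' + 2) (min k k') (dv d.Db f) := by
  have h1 : Vk d K ε n' k' (dv d.Db (star f)) := x.Veq (x.Vstar h') (x.ax.dvDb_star f)
  have h2 := x.Vstar (x.VD (x.Vstar h) h1)
  exact x.Veq h2 (by rw [x.ax.dvD_star, star_star])
theorem VS {n k : ℕ} {v : ι → R} (h : Vk d K ε n k v) :
    Vk d K ε (n + 1) k (fun r => d.S (v r)) := by
  refine x.ax.V_mono (x.ax.V_S h) ?_
  have h2 : 0 ≤ K ^ n * ε ^ k := mul_nonneg (pow_nonneg x.K0 _) (pow_nonneg x.e0 _)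
  calc CS * (K ^ n * ε ^ k) ≤ K * (K ^ n * ε ^ k) := mul_le_mul_of_nonneg_right x.hCS h2
    _ = K ^ (n + 1) * ε ^ k := by ring
theorem VS2 {n k : ℕ} {v : ι → R} (h : Vk d K ε n k v) :
    Vk d K ε (n + 1) k (fun r => d.S2 (v r)) := by
  refine x.ax.V_mono (x.ax.V_S2 h) ?_
  have h2 : 0 ≤ K ^ n * ε ^ k := mul_nonneg (pow_nonneg x.K0 _) (pow_nonneg x.e0 _)
  calc CS * (K ^ n * ε ^ k) ≤ K * (K ^ n * ε ^ k) := mul_le_mul_of_nonneg_right x.hCS h2
    _ = K ^ (n + 1) * ε ^ k := by ring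

/-! Conversions from and to bounds of the form `K`, `K ε`, `K ε^2`. -/

theorem N0 {f : R} (h : d.N f K) : Nk d K ε 1 0 f := x.ax.N_mono h (by simp)
theorem N1 {f : R} (h : d.N f (K * ε)) : Nk d K ε 1 1 f := x.ax.N_mono h (by simp)
theorem N2 {f : R} (h : d.N f (K * ε ^ 2)) : Nk d K ε 1 2 f := x.ax.N_mono h (by simp)
theorem V0 {f : ι → R} (h : d.V f K) : Vk d K ε 1 0 f := x.ax.V_mono h (by simp)
theorem V1 {f : ι → R} (h : d.V f (K * ε)) : Vk d K ε 1 1 f := x.ax.V_mono h (by simp)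
theorem V2 {f : ι → R} (h : d.V f (K * ε ^ 2)) : Vk d K ε 1 2 f := x.ax.V_mono h (by simp)
/-- from the calculus to the bound `K^m`, `m` arbitrarily large -/
theorem outN0 {n k : ℕ} (m : ℕ) {f : R} (h : Nk d K ε n k f) (hn : n ≤ m) :
    d.N f (K ^ m) := x.ax.N_mono h (by simpa using x.le_pow hn (Nat.zero_le k))
theorem outN1 {n k : ℕ} (m : ℕ) {f : R} (h : Nk d K ε n k f) (hn : n ≤ m) (hk : 1 ≤ k) :
    d.N f (K ^ m * ε) := x.ax.N_mono h (by simpa using x.le_pow hn hk)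
theorem outN2 {n k : ℕ} (m : ℕ) {f : R} (h : Nk d K ε n k f) (hn : n ≤ m) (hk : 2 ≤ k) :
    d.N f (K ^ m * ε ^ 2) := x.ax.N_mono h (x.le_pow hn hk)
theorem outV0 {n k : ℕ} (m : ℕ) {f : ι → R} (h : Vk d K ε n k f) (hn : n ≤ m) :
    d.V f (K ^ m) := x.ax.V_mono h (by simpa using x.le_pow hn (Nat.zero_le k))
theorem outV1 {n k : ℕ} (m : ℕ) {f : ι → R} (h : Vk d K ε n k f) (hn : n ≤ m)
    (hk : 1 ≤ k) : d.V f (K ^ m * ε) := x.ax.V_mono h (by simpa using x.le_pow hn hk)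
theorem outV2 {n k : ℕ} (m : ℕ) {f : ι → R} (h : Vk d K ε n k f) (hn : n ≤ m)
    (hk : 2 ≤ k) : d.V f (K ^ m * ε ^ 2) := x.ax.V_mono h (x.le_pow hn hk)

end Ctx

end cal

end Pool.Agent.HSD
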