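import Pool.Agent.HSD.Targets1

set_option autoImplicit false

namespace Pool.Agent.HSD

namespace ABS_

variable {ι R : Type} [Fintype ι] [CommRing R] [StarRing R] [Algebra ℂ R]
variable {CE CS : ℝ} {d : Dat ι R}

/-- The bound for the second component. -/
theorem boundY (a : Ax CE CS d) {ε x c : ℝ} {l : R} {u0 u Y : ι → R} (hl : d.N l ε)
    (s : Sol d l u0 u Y c) (hu : d.V u x) : d.V Y (CS * (ε * x)) :=
  a.V_eq (a.V_S2 (a.V_smul (a.N_star hl) hu)) s.fY

/-- One step: from a bound `x` for `u` to the bound `A + x / 4`. -/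
theorem step (a : Ax CE CS d) {A ε x c : ℝ} {l : R} {u0 u Y : ι → R} (he : 0 ≤ ε)
    (hc : CS * ε ≤ 1 / 2) (hl : d.N l ε) (h0 : d.V u0 A)
    (s : Sol d l u0 u Y c) (hu : d.V u x) : d.V u (A + x / 4) := by
  have hY := boundY a hl s hu
  have h1 : d.V (fun r => d.S (l * Y r)) (CS * (ε * (CS * (ε * x)))) :=
    a.V_eq (a.V_S (a.V_smul hl hY)) rfl
  refine a.V_le (a.V_add h0 h1) s.fu ?_
  have hx : 0 ≤ x := a.V_nonneg hu
  have hp : 0 ≤ CS * ε := mul_nonneg (le_trans zero_le_one a.CS_pos) he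
  have h2 : (CS * ε) * (CS * ε) ≤ 1 / 2 * (1 / 2) := mul_le_mul hc hc hp (by norm_num)
  have h3 : (CS * ε) * (CS * ε) * x ≤ 1 / 2 * (1 / 2) * x := mul_le_mul_of_nonneg_right h2 hx
  have h4 : CS * (ε * (CS * (ε * x))) = (CS * ε) * (CS * ε) * x := by ring
  rw [h4]
  linarith

end ABS_

theorem p_ABS : T_ABS := by
  intro ι R _ _ _ _ CE CS A ε c d l u0 u Y a he hc hA hl h0 s
  have hc0 : 0 ≤ c := a.V_nonneg s.Vu
  have hk : ∀ k : ℕ, d.V u (4 * A / 3 + c / 4 ^ k) := by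
    intro k
    induction k with
    | zero => exact a.V_mono s.Vu (by simp only [pow_zero, div_one]; linarith)
    | succ k ih =>
      refine a.V_mono (ABS_.step a he hc hl h0 s ih) (le_of_eq ?_)
      rw [pow_succ]
      field_simp
      ring
  obtain ⟨k, hk1⟩ : ∃ k : ℕ, (1 / 4 : ℝ) ^ k < (2 * A / 3) / (c + 1) :=
    exists_pow_lt_of_lt_one (by positivity) (by norm_num)
  have hk2 : c / 4 ^ k ≤ 2 * A / 3 := by
    rw [lt_div_iff₀ (by linarith)] at hk1
    have h5 : c / 4 ^ k = (1 / 4 : ℝ) ^ k * c := by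
      rw [div_pow, one_pow]
      ring
    have h6 : 0 < (1 / 4 : ℝ) ^ k := by positivity
    rw [h5]
    nlinarith
  have hu : d.V u (2 * A) := a.V_mono (hk k) (by linarith)
  refine ⟨hu, ?_⟩
  exact a.V_mono (ABS_.boundY a hl s hu) (le_of_eq (by ring))

end Pool.Agent.HSD
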