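import Pool.Agent.HSD.Targets2

/-!
# Project HSD: the rules hold for the concrete structure (AXM, CPM)
-/

set_option autoImplicit false

namespace Pool.Agent.HSD

namespace AXM_

theorem VR_of_NR (f : RR) (c : ℝ) (h : NR f c) : VR (fun _ : Unit => f) c := by
  obtain ⟨h0, a, ha, hb⟩ := h
  refine ⟨h0, fun _ => a, fun _ => ha, fun j => ?_⟩
  rw [Finset.univ_unique, Finset.sum_singleton, ENNReal.ofReal_pow h0]
  exact pow_le_pow_left' (hb j) 2

theorem geo (C : ℝ) : Summable (fun k : ℕ => C / 2 ^ k) := by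
  have h : (fun k : ℕ => C / 2 ^ k) = fun k : ℕ => C * (1 / 2 : ℝ) ^ k := by
    funext k
    rw [one_div, inv_pow, div_eq_mul_inv]
  rw [h]
  exact summable_geometric_two.mul_left C

theorem geo_tsum (C : ℝ) (k : ℕ) : ∑' m : ℕ, C / 2 ^ (k + m) = 2 * C / 2 ^ k := by
  have h : (fun m : ℕ => C / 2 ^ (k + m)) = fun m : ℕ => (C / 2 ^ k) * (1 / 2 : ℝ) ^ m := by
    funext m
    rw [one_div, inv_pow, pow_add, div_mul_eq_div_div, div_eq_mul_inv (C / 2 ^ k)]
  rw [h, tsum_mul_left, tsum_geometric_two]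
  ring

end AXM_

open AXM_

theorem p_AXM (hDRA : T_DRA) (hNRA : T_NRA) (hVRA : T_VRA) (hVRD : T_VRD) (hSRA : T_SRA)
    (hNRI : T_NRI) : T_AXM := by
  intro ι _
  obtain ⟨d1, d2, d3⟩ := hDRA
  obtain ⟨n1, n2, n3, n4, n5, _, n7⟩ := hNRA
  obtain ⟨v1, v2, v3, v4, v5, v6, v7, v8⟩ := hVRA ι
  obtain ⟨s1, s2, s3⟩ := hSRA
  exact
    { CE_pos := by norm_num
      CS_pos := by norm_num
      star_cst := d1
      Db_eq := d2
      comm := d3
      N_nonneg := fun {f c} h => h.1
      N_mono := fun {f c c'} h h' => n1 f c c' h h'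
      N_add := fun {f g c c'} h h' => n2 f g c c' h h'
      N_mul := fun {f g c c'} h h' => n3 f g c c' h h'
      N_cst := n4
      N_star := fun {f c} h => n5 f c h
      N_zero := fun {f} h => n7 f h
      N_D := by
        intro f c c' h h'
        have h1 := hVRD Unit (fun _ => f) c c' (VR_of_NR f c h) (VR_of_NR (dDer 1 f) c' h')
        exact (hVRA Unit).2.2.2.2.2.2.1 _ _ () h1
      N_inv := fun {f c} h h' => hNRI f c h h'
      V_o := v1
      V_nonneg := fun {v c} h => h.1
      V_mono := fun {v c c'} h h' => v2 v c c' h h'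
      V_add := fun {v w c c'} h h' => v3 v w c c' h h'
      V_smul := fun {f v c c'} h h' => v4 f v c c' h h'
      V_star := fun {v c} h => v5 v c h
      V_ip := fun {v w c c'} h h' => v6 v w c c' h h'
      V_comp := fun {v c} r h => v7 v c r h
      V_zero := fun {v} h => v8 v h
      V_D := fun {v c c'} h h' => hVRD ι v c c' h h'
      S_eq := fun {h c} hh => s1 h c hh
      S_sub := fun {h k c c'} hh hk => s2 h k c c' hh hk
      V_S := fun {v c} h => s3 ι v c h }

theorem p_CPM (hCPV : T_CPV) (hCPD : T_CPD) : T_CPM := by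
  intro ι _
  refine ⟨?_, ?_⟩
  · intro v C h
    have hC : 0 ≤ C := by
      have h0 := (h 0).1
      simpa using h0
    obtain ⟨w, hw⟩ := hCPV ι v (fun k => C / 2 ^ k) (fun k => by positivity) (geo C) h
    refine ⟨w, fun k => ?_⟩
    have h1 := hw k
    rw [geo_tsum C k] at h1
    exact h1
  · intro f C h h'
    have hC : 0 ≤ C := by
      have h0 := (h 0).1
      simpa using h0
    obtain ⟨g, hg⟩ := hCPD f (fun k => C / 2 ^ k) (fun k => by positivity) (geo C) h h'
    refine ⟨g, fun k => ?_⟩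
    have h1 := hg k
    rw [geo_tsum C k] at h1
    exact h1

end Pool.Agent.HSD
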