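import Pool.Agent.HSD.Targets3

/-!
# Project HSD: the base map (target T_BAF)
-/

set_option autoImplicit false
set_option linter.unusedSectionVars false

namespace Pool.Agent.HSD

open Complex

namespace BAF_

theorem star_cst (z : ℂ) : star (cst RR z) = cst RR (starRingEnd ℂ z) := by
  unfold cst
  rw [← algebraMap_star_comm]
  rfl

theorem cst_app (z : ℂ) (p : ℝ × ℝ) : ((cst RR z : RR) : ℝ × ℝ → ℂ) p = z := rfl

theorem add_app (f g : RR) (p : ℝ × ℝ) :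
    ((f + g : RR) : ℝ × ℝ → ℂ) p = (f : ℝ × ℝ → ℂ) p + (g : ℝ × ℝ → ℂ) p := rfl

theorem sub_app (f g : RR) (p : ℝ × ℝ) :
    ((f - g : RR) : ℝ × ℝ → ℂ) p = (f : ℝ × ℝ → ℂ) p - (g : ℝ × ℝ → ℂ) p := rfl

theorem mul_app (f g : RR) (p : ℝ × ℝ) :
    ((f * g : RR) : ℝ × ℝ → ℂ) p = (f : ℝ × ℝ → ℂ) p * (g : ℝ × ℝ → ℂ) p := rfl

theorem neg_app (f : RR) (p : ℝ × ℝ) :
    ((-f : RR) : ℝ × ℝ → ℂ) p = -(f : ℝ × ℝ → ℂ) p := rfl

theorem one_app (p : ℝ × ℝ) : ((1 : RR) : ℝ × ℝ → ℂ) p = 1 := rfl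

theorem dDer_app (σ : ℂ) (f : RR) (p : ℝ × ℝ) :
    ((dDer σ f : RR) : ℝ × ℝ → ℂ) p = dOp σ f p := rfl

theorem rext {f g : RR} (h : ∀ p, (f : ℝ × ℝ → ℂ) p = (g : ℝ × ℝ → ℂ) p) : f = g :=
  Subtype.ext (funext h)

/-- six terms -/
theorem six (hNRA : T_NRA) {e : ℝ} (z1 z2 z3 z4 z5 z6 : ℂ) {x1 x2 x3 x4 x5 x6 : RR}
    (h1 : NR x1 e) (h2 : NR x2 e) (h3 : NR x3 e) (h4 : NR x4 e) (h5 : NR x5 e) (h6 : NR x6 e) :
    NR (cst RR z1 * x1 + cst RR z2 * x2 + cst RR z3 * x3 + cst RR z4 * x4 + cst RR z5 * x5 +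
      cst RR z6 * x6) ((‖z1‖ + ‖z2‖ + ‖z3‖ + ‖z4‖ + ‖z5‖ + ‖z6‖) * e) := by
  obtain ⟨a1, a2, a3, a4, -⟩ := hNRA
  have k1 := a3 _ _ _ _ (a4 z1) h1
  have k2 := a3 _ _ _ _ (a4 z2) h2
  have k3 := a3 _ _ _ _ (a4 z3) h3
  have k4 := a3 _ _ _ _ (a4 z4) h4
  have k5 := a3 _ _ _ _ (a4 z5) h5
  have k6 := a3 _ _ _ _ (a4 z6) h6
  have s := a2 _ _ _ _ (a2 _ _ _ _ (a2 _ _ _ _ (a2 _ _ _ _ (a2 _ _ _ _ k1 k2) k3) k4) k5) k6
  refine a1 _ _ _ s (le_of_eq ?_)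
  ring

theorem m11 : mab 1 1 = 1 := by norm_num [mab, Nat.factorial]
theorem m12 : mab 1 2 = 1 := by norm_num [mab, Nat.factorial]
theorem m21 : mab 2 1 = 1 := by norm_num [mab, Nat.factorial]
theorem m22 : mab 2 2 = 3 / 2 := by norm_num [mab, Nat.factorial]
theorem m31 : mab 3 1 = 3 / 2 := by norm_num [mab, Nat.factorial]
theorem m32 : mab 3 2 = 3 := by norm_num [mab, Nat.factorial]

/-- the numbers -/
theorem choice {K η : ℝ} (hK : 0 < K) (hη : 0 < η) : ∃ N : ℕ, 1 ≤ N ∧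
    5 * (K * (Real.exp (-(N : ℝ) / 2) + 1 / (N : ℝ))) ≤ η := by
  obtain ⟨N, hN⟩ := exists_nat_gt (15 * K / η)
  have hN0 : (0 : ℝ) < N := lt_of_le_of_lt (by positivity) hN
  refine ⟨N, by exact_mod_cast hN0, ?_⟩
  have h1 : Real.exp (-(N : ℝ) / 2) ≤ 2 / N := by
    have s1 : (N : ℝ) / 2 ≤ Real.exp ((N : ℝ) / 2) := by
      have := Real.add_one_le_exp ((N : ℝ) / 2)
      linarith
    have s2 : Real.exp (-(N : ℝ) / 2) * Real.exp ((N : ℝ) / 2) = 1 := by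
      rw [← Real.exp_add]
      rw [show -(N : ℝ) / 2 + (N : ℝ) / 2 = 0 by ring, Real.exp_zero]
    rw [le_div_iff₀ hN0]
    have s3 : 0 < Real.exp (-(N : ℝ) / 2) := Real.exp_pos _
    nlinarith
  have h2 : Real.exp (-(N : ℝ) / 2) + 1 / (N : ℝ) ≤ 3 / N := by
    have : (3 : ℝ) / N = 2 / N + 1 / N := by ring
    linarith
  have h3 : 5 * (K * (3 / (N : ℝ))) ≤ η := by
    have s1 : 15 * K / η * η = 15 * K := div_mul_cancel₀ _ hη.ne'
    have s2 : 15 * K ≤ N * η := by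
      rw [← s1]
      exact mul_le_mul_of_nonneg_right hN.le hη.le
    rw [show 5 * (K * (3 / (N : ℝ))) = 15 * K / N by ring, div_le_iff₀ hN0]
    linarith
  have h4 : 5 * (K * (Real.exp (-(N : ℝ) / 2) + 1 / (N : ℝ))) ≤ 5 * (K * (3 / (N : ℝ))) := by
    have := mul_le_mul_of_nonneg_left h2 hK.le
    linarith
  linarith

section alg

variable {m : ℕ} {E1 E2 E3 : Fin m → RR}

theorem du_eq (h1 : ∀ r, dDer (-1) (E1 r) = cst RR I * E2 r - cst RR (I / 2) * E1 r) :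
    dv (dDer (-1)) (cst RR I • E1) = cst RR (-1) • E2 + cst RR (1 / 2) • E1 := by
  funext r
  simp only [dv, Pi.smul_apply, Pi.add_apply, smul_eq_mul]
  rw [der_mul, der_cst, h1]
  apply rext
  intro p
  simp only [add_app, sub_app, mul_app, cst_app]
  have h0 : ((0 : RR) : ℝ × ℝ → ℂ) p = 0 := rfl
  rw [h0]
  linear_combination ((E2 r : ℝ × ℝ → ℂ) p - (E1 r : ℝ × ℝ → ℂ) p / 2) * I_sq

theorem ddu_eq (h1 : ∀ r, dDer (-1) (E1 r) = cst RR I * E2 r - cst RR (I / 2) * E1 r)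
    (h2 : ∀ r, dDer (-1) (E2 r) = cst RR I * E3 r - cst RR I * E2 r) :
    dv (dDer (-1)) (cst RR (-1) • E2 + cst RR (1 / 2) • E1) =
      cst RR (-I) • E3 + cst RR (3 * I / 2) • E2 + cst RR (-I / 4) • E1 := by
  funext r
  simp only [dv, Pi.smul_apply, Pi.add_apply, smul_eq_mul, map_add]
  rw [der_mul, der_mul, der_cst, der_cst, h1, h2]
  apply rext
  intro p
  simp only [add_app, sub_app, mul_app, cst_app]
  have h0 : ((0 : RR) : ℝ × ℝ → ℂ) p = 0 := rfl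
  rw [h0]
  ring

end alg

end BAF_

open BAF_ in
theorem p_BAF (hBVE : T_BVE) (hBDE : T_BDE) (hBIP : T_BIP) (hNRA : T_NRA) (hVRA : T_VRA) :
    T_BAF := by
  obtain ⟨A, hA, hE1⟩ := hBVE 1 (by norm_num)
  obtain ⟨_, _, hE2⟩ := hBVE 2 (by norm_num)
  obtain ⟨_, _, hE3⟩ := hBVE 3 (by norm_num)
  obtain ⟨C11, c11, H11⟩ := hBIP 1 1 (by norm_num) (by norm_num)
  obtain ⟨C12, c12, H12⟩ := hBIP 1 2 (by norm_num) (by norm_num)
  obtain ⟨C21, c21, H21⟩ := hBIP 2 1 (by norm_num) (by norm_num)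
  obtain ⟨C22, c22, H22⟩ := hBIP 2 2 (by norm_num) (by norm_num)
  obtain ⟨C31, c31, H31⟩ := hBIP 3 1 (by norm_num) (by norm_num)
  obtain ⟨C32, c32, H32⟩ := hBIP 3 2 (by norm_num) (by norm_num)
  refine ⟨A, hA, ?_⟩
  intro η hη
  set K : ℝ := C11 + C12 + C21 + C22 + C31 + C32 + 1 with hK
  have hK0 : 0 < K := by positivity
  obtain ⟨N, hN1, hN⟩ := choice hK0 hη
  have hNr : (1 : ℝ) ≤ N := by exact_mod_cast hN1
  have hN0 : (0 : ℝ) < N := by linarith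
  set δ : ℝ := 1 / (N : ℝ) with hδ
  have hδ0 : 0 < δ := by positivity
  have hδ1 : δ ≤ 1 := by
    rw [hδ, div_le_one hN0]
    exact hNr
  have hδm : δ * ((N ^ 2 : ℕ) : ℝ) = N := by
    rw [hδ]
    push_cast
    field_simp
  have hδm1 : 1 ≤ δ * ((N ^ 2 : ℕ) : ℝ) := by rw [hδm]; exact hNr
  obtain ⟨b1, b1'⟩ := hE1 δ (N ^ 2) hδ0 hδ1 hδm1
  obtain ⟨b2, b2'⟩ := hE2 δ (N ^ 2) hδ0 hδ1 hδm1
  obtain ⟨b3, b3'⟩ := hE3 δ (N ^ 2) hδ0 hδ1 hδm1
  set E1 : Fin (N ^ 2) → RR := fun r => ⟨Eb δ (N ^ 2) 1 r, b1 r⟩ with hE1d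
  set E2 : Fin (N ^ 2) → RR := fun r => ⟨Eb δ (N ^ 2) 2 r, b2 r⟩ with hE2d
  set E3 : Fin (N ^ 2) → RR := fun r => ⟨Eb δ (N ^ 2) 3 r, b3 r⟩ with hE3d
  have e1 : ∀ r, (E1 r : ℝ × ℝ → ℂ) = Eb δ (N ^ 2) 1 r := fun r => rfl
  have e2 : ∀ r, (E2 r : ℝ × ℝ → ℂ) = Eb δ (N ^ 2) 2 r := fun r => rfl
  have e3 : ∀ r, (E3 r : ℝ × ℝ → ℂ) = Eb δ (N ^ 2) 3 r := fun r => rfl
  -- derivatives
  have D1 : ∀ r, dDer (-1) (E1 r) = cst RR I * E2 r - cst RR (I / 2) * E1 r := by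
    intro r
    apply rext
    intro p
    have h := (hBDE 1 le_rfl δ (N ^ 2) hδ0 hδ1 hδm1 r p).2
    rw [dDer_app, e1, h]
    simp only [sub_app, mul_app, cst_app, e1, e2]
    push_cast
    ring
  have D2 : ∀ r, dDer (-1) (E2 r) = cst RR I * E3 r - cst RR I * E2 r := by
    intro r
    apply rext
    intro p
    have h := (hBDE 2 (by norm_num) δ (N ^ 2) hδ0 hδ1 hδm1 r p).2
    rw [dDer_app, e2, h]
    simp only [sub_app, mul_app, cst_app, e2, e3]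
    push_cast
    ring
  have Db1 : ∀ r, dDer 1 (E1 r) = cst RR (I / 2) * E1 r := by
    intro r
    apply rext
    intro p
    have h := (hBDE 1 le_rfl δ (N ^ 2) hδ0 hδ1 hδm1 r p).1
    rw [dDer_app, e1, h]
    simp only [mul_app, cst_app, e1]
    push_cast
    ring
  -- products
  set e : ℝ := K * (Real.exp (-(N : ℝ) / 2) + 1 / (N : ℝ)) with he
  have e5 : 5 * e ≤ η := hN
  have hpos : 0 ≤ Real.exp (-(N : ℝ) / 2) + 1 / (N : ℝ) := by positivity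
  have mono := hNRA.1
  have up : ∀ (f : RR) (C : ℝ), NR f (C * (Real.exp (-(δ * ((N ^ 2 : ℕ) : ℝ)) / 2) + δ)) →
      C ≤ K → NR f e := by
    intro f C hf hC
    rw [hδm] at hf
    exact mono _ _ _ hf (mul_le_mul_of_nonneg_right hC hpos)
  have M11 : NR (ip E1 (star E1) - cst RR 1) e := by
    have := H11 δ (N ^ 2) hδ0 hδ1 hδm1 E1 E1 e1 e1
    rw [m11] at this
    exact up _ _ this (by linarith)
  have M12 : NR (ip E1 (star E2) - cst RR 1) e := by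
    have := H12 δ (N ^ 2) hδ0 hδ1 hδm1 E1 E2 e1 e2
    rw [m12] at this
    exact up _ _ this (by linarith)
  have M21 : NR (ip E2 (star E1) - cst RR 1) e := by
    have := H21 δ (N ^ 2) hδ0 hδ1 hδm1 E2 E1 e2 e1
    rw [m21] at this
    exact up _ _ this (by linarith)
  have M22 : NR (ip E2 (star E2) - cst RR (3 / 2)) e := by
    have := H22 δ (N ^ 2) hδ0 hδ1 hδm1 E2 E2 e2 e2
    rw [m22] at this
    exact up _ _ this (by linarith)
  have M31 : NR (ip E3 (star E1) - cst RR (3 / 2)) e := by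
    have := H31 δ (N ^ 2) hδ0 hδ1 hδm1 E3 E1 e3 e1
    rw [m31] at this
    exact up _ _ this (by linarith)
  have M32 : NR (ip E3 (star E2) - cst RR 3) e := by
    have := H32 δ (N ^ 2) hδ0 hδ1 hδm1 E3 E2 e3 e2
    rw [m32] at this
    exact up _ _ this (by linarith)
  have he0 : 0 ≤ e := M11.1
  have du := du_eq D1
  have ddu := ddu_eq D1 D2
  have sI : star (cst RR I) = cst RR (-I) := by rw [star_cst, conj_I]
  have sm : star (cst RR (-1)) = cst RR (-1) := by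
    rw [star_cst]; simp
  have sh : star (cst RR (1 / 2)) = cst RR (1 / 2) := by
    rw [star_cst]
    congr 1
    rw [map_div₀, map_one, map_ofNat]
  have fin6 : ∀ (z1 z2 z3 z4 z5 z6 : ℂ) (f : RR),
      f = cst RR z1 * (ip E1 (star E1) - cst RR 1) + cst RR z2 * (ip E1 (star E2) - cst RR 1) +
        cst RR z3 * (ip E2 (star E1) - cst RR 1) + cst RR z4 * (ip E2 (star E2) - cst RR (3 / 2)) +
        cst RR z5 * (ip E3 (star E1) - cst RR (3 / 2)) +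
        cst RR z6 * (ip E3 (star E2) - cst RR 3) →
      ‖z1‖ + ‖z2‖ + ‖z3‖ + ‖z4‖ + ‖z5‖ + ‖z6‖ ≤ 5 → NR f η := by
    intro z1 z2 z3 z4 z5 z6 f hf hz
    rw [hf]
    refine mono _ _ _ (six hNRA z1 z2 z3 z4 z5 z6 M11 M12 M21 M22 M31 M32) ?_
    exact (mul_le_mul_of_nonneg_right hz he0).trans e5
  refine ⟨N ^ 2, cst RR I • E1, ?_, ?_, ?_, ?_, ?_, ?_, ?_⟩
  · -- zeroth order system
    show dv (dDer 1) (cst RR I • E1) = cst RR (I / 2) • (cst RR I • E1)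
    funext r
    simp only [dv, Pi.smul_apply, smul_eq_mul]
    rw [der_mul, der_cst, Db1]
    ring
  · have h1 := b1' E1 e1
    have h2 := (hVRA (Fin (N ^ 2))).2.2.2.1 _ _ _ _ (hNRA.2.2.2.1 I) h1
    rw [norm_I, one_mul] at h2
    exact h2
  · refine fin6 1 0 0 0 0 0 _ ?_ (by norm_num)
    simp only [qq, star_smul', sI, ip_smul_left, ip_smul_right, star_zero, ip_zero_left]
    apply rext
    intro p
    simp only [add_app, sub_app, mul_app, cst_app, one_app]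
    have h0 : ((0 : RR) : ℝ × ℝ → ℂ) p = 0 := rfl
    rw [h0]
    linear_combination (-((ip E1 (star E1) : RR) : ℝ × ℝ → ℂ) p) * I_sq
  · refine fin6 (-I / 2) 0 I 0 0 0 _ ?_ (by simp [norm_I]; norm_num)
    rw [du]
    simp only [star_smul', sI, ip_smul_left, ip_smul_right, ip_add_left]
    apply rext
    intro p
    simp only [add_app, sub_app, mul_app, cst_app]
    ring
  · refine fin6 (1 / 4) (-1 / 2) (-1 / 2) 1 0 0 _ ?_ (by norm_num)
    rw [du]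
    simp only [star_smul', star_add, sm, sh, ip_smul_left, ip_smul_right, ip_add_left,
      ip_add_right]
    apply rext
    intro p
    simp only [add_app, sub_app, mul_app, cst_app]
    ring
  · refine fin6 (-1 / 4) 0 (3 / 2) 0 (-1) 0 _ ?_ (by norm_num)
    rw [du, ddu]
    simp only [star_smul', sI, ip_smul_left, ip_smul_right, ip_add_left]
    apply rext
    intro p
    simp only [add_app, sub_app, mul_app, cst_app]
    linear_combination (((ip E3 (star E1) : RR) : ℝ × ℝ → ℂ) p -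
      3 / 2 * ((ip E2 (star E1) : RR) : ℝ × ℝ → ℂ) p +
      1 / 4 * ((ip E1 (star E1) : RR) : ℝ × ℝ → ℂ) p) * I_sq
  · refine fin6 (-I / 8) (I / 4) (3 * I / 4) (-3 * I / 2) (-I / 2) I _ ?_
      (by simp [norm_I]; norm_num)
    rw [du, ddu]
    simp only [star_smul', star_add, sm, sh, ip_smul_left, ip_smul_right, ip_add_left,
      ip_add_right]
    apply rext
    intro p
    simp only [add_app, sub_app, mul_app, cst_app]
    ring

end Pool.Agent.HSD
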