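import Pool.Agent.HSD.Targets1

/-!
# Project HSD: the base curvature (target T_BAS)
-/

set_option autoImplicit false
set_option linter.unusedSectionVars false

namespace Pool.Agent.HSD

open Complex

namespace BAS_

section cal

variable {ι R : Type} [Fintype ι] [CommRing R] [StarRing R] [Algebra ℂ R]

/-- The norm of `f` is at most `2^n η^k`. -/
def Q (d : Dat ι R) (η : ℝ) (n k : ℕ) (f : R) : Prop := d.N f (2 ^ n * η ^ k)

variable {CE CS η : ℝ} {d : Dat ι R}

theorem le_pow (e0 : 0 ≤ η) (e1 : η ≤ 1) {n n' k k' : ℕ} (hn : n ≤ n') (hk : k' ≤ k) :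
    (2 : ℝ) ^ n * η ^ k ≤ 2 ^ n' * η ^ k' :=
  mul_le_mul (pow_le_pow_right₀ (by norm_num) hn) (pow_le_pow_of_le_one e0 e1 hk)
    (pow_nonneg e0 _) (pow_nonneg (by norm_num) _)

theorem sum_pow (e0 : 0 ≤ η) (e1 : η ≤ 1) {n n' k k' : ℕ} :
    (2 : ℝ) ^ n * η ^ k + 2 ^ n' * η ^ k' ≤ 2 ^ (max n n' + 1) * η ^ (min k k') := by
  have h1 : (2 : ℝ) ^ n * η ^ k ≤ 2 ^ (max n n') * η ^ (min k k') :=
    le_pow e0 e1 (le_max_left _ _) (min_le_left _ _)
  have h2 : (2 : ℝ) ^ n' * η ^ k' ≤ 2 ^ (max n n') * η ^ (min k k') :=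
    le_pow e0 e1 (le_max_right _ _) (min_le_right _ _)
  have h4 : (2 : ℝ) ^ (max n n' + 1) * η ^ (min k k') =
      2 * (2 ^ (max n n') * η ^ (min k k')) := by ring
  rw [h4]
  linarith

/-- The standing assumptions. -/
structure Cx (CE CS η : ℝ) (d : Dat ι R) : Prop where
  ax : Ax CE CS d
  e0 : 0 ≤ η
  e1 : η ≤ 1

namespace Cx

variable (x : Cx CE CS η d)

include x

theorem mono {n n' k k' : ℕ} {f : R} (h : Q d η n k f) (hn : n ≤ n') (hk : k' ≤ k) :
    Q d η n' k' f := x.ax.N_mono h (le_pow x.e0 x.e1 hn hk)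
theorem eq {n k : ℕ} {f g : R} (h : Q d η n k f) (e : g = f) : Q d η n k g := by
  subst e; exact h
theorem add {n n' k k' : ℕ} {f g : R} (h : Q d η n k f) (h' : Q d η n' k' g) :
    Q d η (max n n' + 1) (min k k') (f + g) :=
  x.ax.N_mono (x.ax.N_add h h') (sum_pow x.e0 x.e1)
theorem sub {n n' k k' : ℕ} {f g : R} (h : Q d η n k f) (h' : Q d η n' k' g) :
    Q d η (max n n' + 1) (min k k') (f - g) :=
  x.ax.N_mono (x.ax.N_sub h h') (sum_pow x.e0 x.e1)
theorem neg {n k : ℕ} {f : R} (h : Q d η n k f) : Q d η n k (-f) := x.ax.N_neg h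
theorem mul {n n' k k' : ℕ} {f g : R} (h : Q d η n k f) (h' : Q d η n' k' g) :
    Q d η (n + n') (k + k') (f * g) := by
  refine x.ax.N_mono (x.ax.N_mul h h') (le_of_eq ?_)
  rw [pow_add, pow_add]
  ring
theorem st {n k : ℕ} {f : R} (h : Q d η n k f) : Q d η n k (star f) := x.ax.N_star h
theorem cs {z : ℂ} (hz : ‖z‖ ≤ 1) : Q d η 0 0 (cst R z) :=
  x.ax.N_mono (x.ax.N_cst z) (by simpa using hz)
theorem two : Q d η 1 0 (2 : R) := x.ax.N_mono x.ax.N_two (by norm_num)
theorem one : Q d η 0 0 (1 : R) := x.ax.N_mono x.ax.N_one (by norm_num)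

end Cx

end cal

section main

variable {ι R : Type} [Fintype ι] [CommRing R] [StarRing R] [Algebra ℂ R]
variable {CE CS η : ℝ} {d : Dat ι R} {u : ι → R} {j : R}

/-- `h^2 = -1/4` -/
theorem h_sq : cst R (I / 2) * cst R (I / 2) = -cst R (1 / 4) := by
  rw [← cst_mul, ← cst_neg]
  congr 1
  have h := I_mul_I
  linear_combination (1 / 4 : ℂ) * h

theorem three_quarter : cst R (3 / 4) = 3 * cst R (1 / 4) := by
  have h3 : cst R 3 = 3 := map_ofNat _ 3
  rw [← h3, ← cst_mul]
  congr 1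
  ring

theorem seven_eighth : cst R (7 * I / 8) = 7 * cst R (1 / 4) * cst R (I / 2) := by
  have h7 : cst R 7 = 7 := map_ofNat _ 7
  rw [← h7, ← cst_mul, ← cst_mul]
  congr 1
  ring

theorem four_quarter : (4 : R) * cst R (1 / 4) = 1 := by
  have h4 : cst R 4 = 4 := map_ofNat _ 4
  rw [← h4, ← cst_mul]
  have h5 : (4 * (1 / 4) : ℂ) = 1 := by norm_num
  rw [h5, cst_one]

theorem qq0 : qq u 0 = ip u (star u) := by
  unfold qq
  rw [ip_zero_left, add_zero]

theorem pp0 : pp u (0 : ι → R) = 0 := by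
  unfold pp
  rw [star_zero, ip_comm, ip_zero_left, mul_zero]

theorem dl0 : dl u (0 : ι → R) = qq u 0 ^ 2 := by
  unfold dl
  rw [pp0, zero_mul, sub_zero]

theorem aA0 : aA d u 0 = ip (dv d.D u) (star u) := by
  unfold aA
  rw [star_zero, dv_zero, ip_zero_left, add_zero]

theorem bB0 : bB d u 0 = 0 := by
  unfold bB
  rw [star_zero, dv_zero, ip_zero_left, ip_comm, ip_zero_left, add_zero]

theorem ww0 (hj : qq u 0 ^ 2 * j = 1) : ww d u 0 j =
    ip (dv d.D u) (star (dv d.D u)) -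
      qq u 0 * j * (ip (dv d.D u) (star u) * star (ip (dv d.D u) (star u))) := by
  have hca : ca d u 0 j = qq u 0 * ip (dv d.D u) (star u) * j := by
    unfold ca
    rw [aA0, bB0]
    ring
  have hcb : cb d u 0 j = 0 := by
    unfold cb
    rw [bB0, pp0]
    ring
  have hq : star (qq u 0) = qq u 0 := by
    rw [qq0, star_ip, star_star, ip_comm]
  have hjs : star j = j := by
    have h1 : qq u 0 ^ 2 * star j = 1 := by
      have h2 := congrArg star hj
      rw [star_mul', star_pow, hq, star_one] at h2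
      exact h2
    exact inv_unique h1 hj
  have hw1 : w1 d u 0 j = dv d.D u - (qq u 0 * ip (dv d.D u) (star u) * j) • u := by
    unfold w1
    rw [hca, hcb, zero_smul, sub_zero]
  have hw2 : w2 d u 0 j = 0 := by
    unfold w2
    rw [hcb, star_zero, dv_zero, smul_zero, zero_smul, sub_zero, sub_zero]
  have hz : star (ip (dv d.D u) (star u)) = ip u (star (dv d.D u)) := by
    rw [star_ip, star_star, ip_comm]
  unfold ww
  rw [hw1, hw2, ip_zero_left, add_zero, star_sub, star_smul', ip_sub_left, ip_sub_right,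
    ip_sub_right, ip_smul_left, ip_smul_left, ip_smul_right, ip_smul_right, star_mul',
    star_mul', hq, hjs, hz, ← qq0 (u := u)]
  linear_combination (j * qq u 0 * ip (dv d.D u) (star u) * ip u (star (dv d.D u))) * hj

end main

end BAS_

open BAS_ in
theorem p_BAS : T_BAS := by
  refine ⟨2 ^ 60, by norm_num, ?_⟩
  intro ι R _ _ _ _ CE CS η d u j ax hsys e0 e16 hj hq hz hn hz2 hm
  have e1 : η ≤ 1 := by linarith
  have x : Cx CE CS η d := ⟨ax, e0, e1⟩
  rw [dl0] at hj
  -- names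
  obtain ⟨h, hh⟩ : ∃ h, h = cst R (I / 2) := ⟨_, rfl⟩
  obtain ⟨c4, hc4⟩ : ∃ c4, c4 = cst R (1 / 4) := ⟨_, rfl⟩
  have hhh : h * h = -c4 := by rw [hh, hc4]; exact h_sq
  have h44 : (4 : R) * c4 = 1 := by rw [hc4]; exact four_quarter
  have hstar : star h = -h := by rw [hh]; exact ax.star_Ihalf
  obtain ⟨q, hqd⟩ : ∃ q, q = qq u 0 := ⟨_, rfl⟩
  obtain ⟨z, hzd⟩ : ∃ z, z = ip (dv d.D u) (star u) := ⟨_, rfl⟩
  obtain ⟨n, hnd⟩ : ∃ n, n = ip (dv d.D u) (star (dv d.D u)) := ⟨_, rfl⟩
  obtain ⟨z2, hz2d⟩ : ∃ z2, z2 = ip (dv d.D (dv d.D u)) (star u) := ⟨_, rfl⟩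
  obtain ⟨m, hmd⟩ : ∃ m, m = ip (dv d.D (dv d.D u)) (star (dv d.D u)) := ⟨_, rfl⟩
  have hW := ww0 (d := d) hj
  rw [← hqd] at hj hq hW
  rw [← hzd, ← hnd] at hW
  rw [← hzd, ← hh] at hz
  rw [← hnd, three_quarter, ← hc4] at hn
  rw [← hz2d, ← hc4] at hz2
  rw [← hmd, seven_eighth, ← hc4, ← hh] at hm
  have hqq : q = ip u (star u) := by rw [hqd, qq0]
  -- derivatives of the vectors
  have hsys' : dv d.Db u = h • u := by rw [hh]; exact hsys
  have Dsu : dv d.D (star u) = (-h) • star u := by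
    rw [ax.dvD_star, hsys', star_smul', hstar]
  have Dbsu : dv d.Db (star u) = star (dv d.D u) := ax.dvDb_star u
  have Dh : d.D h = 0 := by rw [hh]; exact der_cst _ _
  have DbDu : dv d.Db (dv d.D u) = (2 * h) • dv d.D u + (h * h) • u := by
    have h1 : dv d.D (dv d.Db u) = h • dv d.D u := by
      rw [hsys', dv_smul, Dh, zero_smul, add_zero]
    funext r
    have h2 := ax.comm (u r)
    have h3 : d.D (d.Db (u r)) = h * d.D (u r) := congrFun h1 r
    have h4 : d.Db (u r) = h * u r := congrFun hsys' r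
    rw [h3, h4, ← hh] at h2
    have h5 : d.D (h * u r) = h * d.D (u r) := by rw [← h4]; exact h3
    change d.Db (d.D (u r)) = (2 * h) * d.D (u r) + (h * h) * u r
    linear_combination -h2
  have DsDu : dv d.D (star (dv d.D u)) = (-(2 * h)) • star (dv d.D u) + (h * h) • star u := by
    rw [ax.dvD_star, DbDu, star_add, star_smul', star_smul']
    have h6 : star (2 * h) = -(2 * h) := by
      rw [star_mul', hstar]
      have : star (2 : R) = 2 := star_ofNat 2
      rw [this]
      ring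
    have h7 : star (h * h) = h * h := by
      rw [star_mul', hstar]
      ring
    rw [h6, h7]
  -- derivatives of the scalars
  have Dq : d.D q = z - h * q := by
    rw [hqq, der_ip, Dsu, ip_smul_right, ← hzd]
    ring
  have Dz : d.D z = z2 - h * z := by
    have h8 : d.D z = d.D (ip (dv d.D u) (star u)) := by rw [hzd]
    rw [h8, der_ip, Dsu, ip_smul_right, ← hzd, ← hz2d]
    ring
  have Dbz : d.Db z = 2 * h * z + h * h * q + n := by
    have h8 : d.Db z = d.Db (ip (dv d.D u) (star u)) := by rw [hzd]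
    rw [h8, der_ip, DbDu, Dbsu, ip_add_left, ip_smul_left, ip_smul_left, ← hzd, ← hqq, ← hnd]
  have Dn : d.D n = m - 2 * h * n + h * h * z := by
    have h8 : d.D n = d.D (ip (dv d.D u) (star (dv d.D u))) := by rw [hnd]
    rw [h8, der_ip, DsDu, ip_add_right, ip_smul_right, ip_smul_right, ← hmd, ← hnd, ← hzd]
    ring
  have Dzs : d.D (star z) = star (d.Db z) := ax.D_star z
  have Dj : d.D j = -(j * j) * (2 * q * d.D q) := by
    rw [der_inv d.D hj, der_sq]
  -- sizes
  have hn2 : ‖(I / 2 : ℂ)‖ ≤ 1 := by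
    rw [norm_div, Complex.norm_I]
    norm_num
  have sh : Q d η 0 0 h := by rw [hh]; exact x.cs hn2
  have sc : Q d η 0 0 c4 := by rw [hc4]; exact x.cs (by norm_num)
  have q1 : Q d η 0 1 (q - 1) := ax.N_mono hq (by norm_num)
  have z1 : Q d η 0 1 (z - h) := ax.N_mono hz (by norm_num)
  have n1 : Q d η 0 1 (n - 3 * c4) := ax.N_mono hn (by norm_num)
  have z21 : Q d η 0 1 (z2 + c4) := ax.N_mono hz2 (by norm_num)
  have m1 : Q d η 0 1 (m - 7 * c4 * h) := ax.N_mono hm (by norm_num)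
  have sq : Q d η 1 0 q :=
    x.mono (x.eq (x.add q1 x.one) (by ring)) (by norm_num) (by norm_num)
  have sz : Q d η 1 0 z :=
    x.mono (x.eq (x.add z1 sh) (by ring)) (by norm_num) (by norm_num)
  have szs : Q d η 1 0 (star z) := x.st sz
  have sj : Q d η 1 0 j := by
    have h9 : d.N (1 - q ^ 2) (η * (η + 2)) := by
      refine ax.N_le (ax.N_neg (ax.N_mul hq (ax.N_add hq ax.N_two))) ?_ le_rfl
      ring
    have h10 : η * (η + 2) ≤ 1 / 2 := by nlinarith
    obtain ⟨g, hg1, hg2⟩ := ax.N_inv h9 (by linarith)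
    have h11 : g = j := inv_unique hg1 hj
    rw [h11] at hg2
    refine ax.N_mono hg2 ?_
    rw [div_le_iff₀ (by linarith)]
    nlinarith
  have j1 : Q d η 3 1 (j - 1) := by
    have h12 : j - 1 = -(j * ((q - 1) * (q + 1))) := by linear_combination hj
    have h13 : Q d η 2 0 (q + 1) :=
      x.mono (x.add sq x.one) (by norm_num) (by norm_num)
    exact x.mono (x.eq (x.neg (x.mul sj (x.mul q1 h13))) h12) (by norm_num) (by norm_num)
  have Dq1 : Q d η 1 1 (d.D q) := by
    have h14 : d.D q = (z - h) - h * (q - 1) := by rw [Dq]; ring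
    exact x.mono (x.eq (x.sub z1 (x.mul sh q1)) h14) (by norm_num) (by norm_num)
  have Dz1 : Q d η 1 1 (d.D z) := by
    have h15 : d.D z = (z2 + c4) - h * (z - h) := by
      rw [Dz]
      linear_combination -hhh
    exact x.mono (x.eq (x.sub z21 (x.mul sh z1)) h15) (by norm_num) (by norm_num)
  have Dbz1 : Q d η 3 1 (d.Db z) := by
    have h16 : d.Db z = 2 * (h * (z - h)) + h * h * (q - 1) + (n - 3 * c4) := by
      rw [Dbz]
      linear_combination 3 * hhh
    exact x.mono (x.eq (x.add (x.add (x.mul x.two (x.mul sh z1))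
      (x.mul (x.mul sh sh) q1)) n1) h16) (by norm_num) (by norm_num)
  have Dzs1 : Q d η 3 1 (d.D (star z)) := by
    rw [Dzs]
    exact x.st Dbz1
  have Dn1 : Q d η 3 1 (d.D n) := by
    have h17 : d.D n = ((m - 7 * c4 * h) - 2 * (h * (n - 3 * c4))) + h * h * (z - h) := by
      rw [Dn]
      linear_combination h * hhh
    exact x.mono (x.eq (x.add (x.sub m1 (x.mul x.two (x.mul sh n1)))
      (x.mul (x.mul sh sh) z1)) h17) (by norm_num) (by norm_num)
  have Dj1 : Q d η 5 1 (d.D j) := by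
    have h18 : d.D j = -((j * j) * (2 * (q * d.D q))) := by rw [Dj]; ring
    exact x.mono (x.eq (x.neg (x.mul (x.mul sj sj) (x.mul x.two (x.mul sq Dq1)))) h18)
      (by norm_num) (by norm_num)
  -- the product z z*
  have zz1 : Q d η 5 1 (z * star z - c4) := by
    have h19 : z * star z - c4 = (z - h) * star z + h * star (z - h) := by
      rw [star_sub, hstar]
      linear_combination -hhh
    exact x.mono (x.eq (x.add (x.mul z1 szs) (x.mul sh (x.st z1))) h19)
      (by norm_num) (by norm_num)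
  have W1 : Q d η 10 1 (ww d u 0 j - 2 * c4) := by
    have h20 : ww d u 0 j - 2 * c4 =
        (n - 3 * c4) - (q * j * (z * star z - c4) + c4 * (q * (j - 1) + (q - 1))) := by
      rw [hW]
      ring
    exact x.mono (x.eq (x.sub n1 (x.add (x.mul (x.mul sq sj) zz1)
      (x.mul sc (x.add (x.mul sq j1) q1)))) h20) (by norm_num) (by norm_num)
  have sW : Q d η 12 0 (ww d u 0 j) := by
    have h21 : ww d u 0 j = (ww d u 0 j - 2 * c4) + 2 * c4 := by ring
    exact x.mono (x.eq (x.add W1 (x.mul x.two sc)) h21) (by norm_num) (by norm_num)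
  have DW1 : Q d η 20 1 (d.D (ww d u 0 j)) := by
    have h22 : d.D (ww d u 0 j) = d.D n - ((q * j) * (z * d.D (star z) + star z * d.D z) +
        (z * star z) * (q * d.D j + j * d.D q)) := by
      rw [hW, map_sub, der_mul, der_mul, der_mul]
    exact x.mono (x.eq (x.sub Dn1 (x.add (x.mul (x.mul sq sj) (x.add (x.mul sz Dzs1)
      (x.mul szs Dz1))) (x.mul (x.mul sz szs) (x.add (x.mul sq Dj1) (x.mul sj Dq1))))) h22)
      (by norm_num) (by norm_num)
  have fin : ∀ f : R, Q d η 60 1 f → d.N f (2 ^ 60 * η) := fun f hf => by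
    have h23 : (2 : ℝ) ^ 60 * η ^ 1 = 2 ^ 60 * η := by rw [pow_one]
    exact ax.N_congr hf rfl h23
  refine ⟨fin _ ?_, fin _ ?_⟩
  · have h24 : tt d u 0 j - 1 = 2 * ((ww d u 0 j - 2 * c4) * j) + (j - 1) := by
      unfold tt
      linear_combination j * h44
    exact x.mono (x.eq (x.add (x.mul x.two (x.mul W1 sj)) j1) h24) (by norm_num) (by norm_num)
  · have h25 : d.D (tt d u 0 j) = 2 * (ww d u 0 j * d.D j + j * d.D (ww d u 0 j)) := by
      unfold tt
      rw [der_mul, der_mul, der_two]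
      ring
    exact x.mono (x.eq (x.mul x.two (x.add (x.mul sW Dj1) (x.mul sj DW1))) h25)
      (by norm_num) (by norm_num)

end Pool.Agent.HSD
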