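import Pool.Agent.HSD.Targets3

set_option autoImplicit false

/-!
# HSD: target BDE, the derivatives of the base vectors
-/

namespace Pool.Agent.HSD

open Complex

namespace BDE_

theorem tb_diff (δ : ℝ) (a : ℕ) (k : ℤ) : Differentiable ℂ (tb δ a k) := by
  have h : Differentiable ℂ (fun y : ℂ => 2 * (Real.sqrt δ : ℂ) * ((xi δ k : ℂ) * y) ^ a *
      exp (-(xi δ k : ℂ) * y)) := by fun_prop
  exact h

theorem tb_succ (δ : ℝ) (a : ℕ) (k : ℤ) (y : ℂ) :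
    tb δ (a + 1) k y = (xi δ k : ℂ) * y * tb δ a k y := by
  unfold tb
  ring

theorem tb_deriv (δ : ℝ) (a : ℕ) (ha : 1 ≤ a) (k : ℤ) (y : ℂ) :
    y * deriv (tb δ a k) y = ((a : ℂ) - (xi δ k : ℂ) * y) * tb δ a k y := by
  have h1 : HasDerivAt (fun y : ℂ => (xi δ k : ℂ) * y) (xi δ k : ℂ) y := by
    simpa using (hasDerivAt_id y).const_mul (xi δ k : ℂ)
  have h2 : HasDerivAt (fun y : ℂ => -(xi δ k : ℂ) * y) (-(xi δ k : ℂ)) y := by
    simpa using (hasDerivAt_id y).const_mul (-(xi δ k : ℂ))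
  have h3 := ((h1.pow a).const_mul (2 * (Real.sqrt δ : ℂ))).mul h2.cexp
  have h4 : deriv (tb δ a k) y = _ := h3.deriv
  rw [h4]
  unfold tb
  obtain ⟨b, rfl⟩ : ∃ b, a = b + 1 := ⟨a - 1, by omega⟩
  simp only [Nat.add_sub_cancel, Pi.pow_apply]
  push_cast
  ring

theorem dm_pos {δ : ℝ} {m : ℕ} (h : 1 ≤ δ * m) : (0 : ℝ) < δ * m := by linarith

theorem arg_eq (δ : ℝ) (m r : ℕ) (j i : ℤ) : δ * (((r : ℤ) + m * i : ℤ) : ℝ) + j * Real.log 2 =
    (δ * m) * (i : ℝ) + (δ * r + j * Real.log 2) := by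
  push_cast
  ring

theorem summ_real (hBSG : T_BSG) (C : ℝ) {δ : ℝ} {m : ℕ} (r : ℕ) (h : 1 ≤ δ * m) (j : ℤ) :
    Summable (fun i : ℤ => C * Real.sqrt δ *
      Real.exp (-|δ * (((r : ℤ) + m * i : ℤ) : ℝ) + j * Real.log 2|)) := by
  have h1 := (hBSG (δ * m) (δ * r + j * Real.log 2) (dm_pos h)).1
  have h2 := h1.mul_left (C * Real.sqrt δ)
  refine h2.congr fun i => ?_
  rw [arg_eq]

theorem exists_shell (s : ℝ) : ∃ j : ℤ, (Real.exp s : ℂ) ∈ Sh j := by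
  obtain ⟨j, hj1, hj2⟩ := exists_mem_Ico_zpow (x := Real.exp s) (y := 2) (Real.exp_pos s)
    one_lt_two
  refine ⟨j, ?_, ?_, ?_⟩
  · change |((Real.exp s : ℝ) : ℂ).im| < ((Real.exp s : ℝ) : ℂ).re
    rw [Complex.ofReal_im, Complex.ofReal_re, abs_zero]
    exact Real.exp_pos s
  · rw [Complex.ofReal_re]
    exact hj1
  · rw [Complex.ofReal_re]
    exact hj2.le

theorem term_norm (z : ℂ) (x y : ℝ) : ‖z * exp (I * (x : ℂ) * (y : ℂ))‖ = ‖z‖ := by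
  rw [norm_mul]
  have : I * (x : ℂ) * (y : ℂ) = ((x * y : ℝ) : ℂ) * I := by push_cast; ring
  rw [this, Complex.norm_exp_ofReal_mul_I, mul_one]

theorem summ (hBNB : T_BNB) (hBSG : T_BSG) (a : ℕ) (ha : 1 ≤ a) {δ : ℝ} {m : ℕ} (r : ℕ)
    (h : 1 ≤ δ * m) (p : ℝ × ℝ) :
    Summable (fun i : ℤ => tb δ a ((r : ℤ) + m * i) (Real.exp p.2 : ℂ) *
      exp (I * (xi δ ((r : ℤ) + m * i) : ℂ) * (p.1 : ℂ))) := by
  obtain ⟨C, hC, hb⟩ := hBNB a ha
  obtain ⟨j, hj⟩ := exists_shell p.2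
  refine Summable.of_norm_bounded (summ_real hBSG C r h j) fun i => ?_
  rw [term_norm]
  have h1 := hb δ ((r : ℤ) + m * i) j
  have h2 : ENNReal.ofReal (Real.exp (|xi δ ((r : ℤ) + m * i)| * ((Real.exp p.2 : ℝ) : ℂ).re / 2) *
      ‖tb δ a ((r : ℤ) + m * i) (Real.exp p.2 : ℂ)‖) ≤
      sj (xi δ ((r : ℤ) + m * i)) (tb δ a ((r : ℤ) + m * i)) j :=
    le_iSup₂_of_le (f := fun (y : ℂ) (_ : y ∈ Sh j) => ENNReal.ofReal
      (Real.exp (|xi δ ((r : ℤ) + m * i)| * y.re / 2) * ‖tb δ a ((r : ℤ) + m * i) y‖)) _ hj le_rfl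
  have h3 := h2.trans h1
  have h4 : 0 ≤ C * Real.sqrt δ *
      Real.exp (-|δ * (((r : ℤ) + m * i : ℤ) : ℝ) + j * Real.log 2|) := by positivity
  have h5 := (ENNReal.ofReal_le_ofReal_iff h4).1 h3
  refine le_trans ?_ h5
  have h6 : (1 : ℝ) ≤ Real.exp (|xi δ ((r : ℤ) + m * i)| * ((Real.exp p.2 : ℝ) : ℂ).re / 2) := by
    rw [Complex.ofReal_re]
    exact Real.one_le_exp (by positivity)
  exact le_mul_of_one_le_left (norm_nonneg _) h6

theorem main_formula (hINJ : T_INJ) (hBNB : T_BNB) (hBSG : T_BSG) (hLSF : T_LSF) (hCDN : T_CDN)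
    (a : ℕ) (ha : 1 ≤ a) (δ : ℝ) (m : ℕ) (hδ : 0 < δ) (h : 1 ≤ δ * m) (r : Fin m)
    (σ : ℝ) (p : ℝ × ℝ) :
    dOp (σ : ℂ) (Eb δ m a r) p = ∑' i : ℤ, I / 2 * (Real.exp p.2 : ℂ) *
      ((xi δ ((r : ℕ) + m * i) : ℂ) * tb δ a ((r : ℕ) + m * i) (Real.exp p.2 : ℂ) +
        σ * deriv (tb δ a ((r : ℕ) + m * i)) (Real.exp p.2 : ℂ)) *
          exp (I * (xi δ ((r : ℕ) + m * i) : ℂ) * (p.1 : ℂ)) := by
  have hm : (m : ℝ) ≠ 0 := by
    intro h0
    rw [h0, mul_zero] at h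
    linarith
  have hinj : Function.Injective (fun i : ℤ => xi δ ((r : ℕ) + m * i)) := by
    intro i i' hii
    simp only [xi] at hii
    have h1 := Real.exp_injective hii
    have h2 := mul_left_cancel₀ hδ.ne' h1
    push_cast at h2
    have h3 : (m : ℝ) * i = m * i' := by linarith
    exact_mod_cast mul_left_cancel₀ hm h3
  obtain ⟨C, hC, hb⟩ := hBNB a ha
  obtain ⟨A, hA, -, hA2, hA3⟩ := hINJ ℤ (fun i => tb δ a ((r : ℕ) + m * i))
    (fun i => xi δ ((r : ℕ) + m * i)) hinj (fun i => (tb_diff _ _ _).differentiableOn) (by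
      intro j
      refine ne_top_of_le_ne_top ?_ (ENNReal.tsum_le_tsum fun i => hb δ ((r : ℕ) + m * i) j)
      exact (summ_real hBSG C (r : ℕ) h j).tsum_ofReal_ne_top)
  have hE : Eb δ m a r = Ff A := by
    funext p
    rw [hA2 p]
    rfl
  rw [hE, (hCDN A (hLSF A hA)).2 σ p, hA3 σ p]

end BDE_

open BDE_ in
theorem p_BDE (hINJ : T_INJ) (hBNB : T_BNB) (hBSG : T_BSG) (hLSF : T_LSF) (hCDN : T_CDN) :
    T_BDE := by
  intro a ha δ m hδ _ h r p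
  have s1 := summ hBNB hBSG a ha (r : ℕ) h p
  have s2 := summ hBNB hBSG (a + 1) (by omega) (r : ℕ) h p
  constructor
  · have h1 := main_formula hINJ hBNB hBSG hLSF hCDN a ha δ m hδ h r 1 p
    rw [Complex.ofReal_one] at h1
    rw [h1]
    unfold Eb
    rw [← tsum_mul_left]
    refine tsum_congr fun i => ?_
    have h2 := tb_deriv δ a ha ((r : ℕ) + m * i) (Real.exp p.2 : ℂ)
    linear_combination (I / 2 * exp (I * (xi δ ((r : ℕ) + m * i) : ℂ) * (p.1 : ℂ))) * h2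
  · have h1 := main_formula hINJ hBNB hBSG hLSF hCDN a ha δ m hδ h r (-1) p
    rw [Complex.ofReal_neg, Complex.ofReal_one] at h1
    rw [h1]
    unfold Eb
    rw [← tsum_mul_left, ← tsum_mul_left, ← (s2.mul_left I).tsum_sub (s1.mul_left (I * a / 2))]
    refine tsum_congr fun i => ?_
    have h2 := tb_deriv δ a ha ((r : ℕ) + m * i) (Real.exp p.2 : ℂ)
    rw [tb_succ]
    linear_combination (-(I / 2 * exp (I * (xi δ ((r : ℕ) + m * i) : ℂ) * (p.1 : ℂ)))) * h2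

end Pool.Agent.HSD
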