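import Pool.Agent.HSD.Targets3

/-!
# Project HSD: the products of the base vectors (target T_BIP)
-/

set_option autoImplicit false
set_option linter.unusedSectionVars false

namespace Pool.Agent.HSD

open Complex

namespace BIP_

/-- The index `r + m i`. -/
def ix (m : ℕ) (r : Fin m) (i : ℤ) : ℤ := ((r : ℕ) : ℤ) + (m : ℤ) * i

/-- All indices. -/
noncomputable def ee (m : ℕ) [NeZero m] : Fin m × ℤ ≃ ℤ :=
  (Equiv.prodComm _ _).trans (Int.divModEquiv m).symm

theorem ee_apply (m : ℕ) [NeZero m] (x : Fin m × ℤ) : ee m x = ix m x.1 x.2 := by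
  simp only [ee, Equiv.trans_apply, Equiv.prodComm_apply, Int.divModEquiv_symm_apply,
    Prod.fst_swap, Prod.snd_swap, ix]
  ring

theorem phi_inj (m : ℕ) [NeZero m] :
    Function.Injective fun z : Fin m × ℤ × ℤ => (ix m z.1 z.2.1, ix m z.1 z.2.2) := by
  rintro ⟨r, i, i'⟩ ⟨s, k, k'⟩ h
  simp only [Prod.mk.injEq] at h
  have h1 : ee m (r, i) = ee m (s, k) := by rw [ee_apply, ee_apply]; exact h.1
  have h2 : ee m (r, i') = ee m (s, k') := by rw [ee_apply, ee_apply]; exact h.2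
  have h3 := (ee m).injective h1
  have h4 := (ee m).injective h2
  simp only [Prod.mk.injEq] at h3 h4 ⊢
  exact ⟨h3.1, h3.2, h4.2⟩

theorem diag (m : ℕ) [NeZero m] (u v : ℤ → ℂ) (G : Fin m × ℤ × ℤ → ℂ)
    (hG : ∀ z, G z = u (ix m z.1 z.2.1) * v (ix m z.1 z.2.2))
    (hG1 : Summable fun z : Fin m × ℤ × ℤ => if z.2.1 = z.2.2 then G z else 0)
    (hGs : Summable G) :
    (∑' z : Fin m × ℤ × ℤ, if z.2.1 = z.2.2 then G z else 0) = ∑' k : ℤ, u k * v k := by
  have h0 : (∑' z : Fin m × ℤ × ℤ, if z.2.1 = z.2.2 then G z else 0) =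
      ∑' (r : Fin m) (w : ℤ × ℤ), if w.1 = w.2 then G (r, w) else 0 := hG1.tsum_prod
  have h1 : ∀ r : Fin m, (∑' w : ℤ × ℤ, if w.1 = w.2 then G (r, w) else 0) =
      ∑' i : ℤ, u (ix m r i) * v (ix m r i) := by
    intro r
    have hj : Function.Injective fun w : ℤ × ℤ => ((r, w) : Fin m × ℤ × ℤ) :=
      fun _ _ h => (Prod.mk.inj h).2
    have hs : Summable fun w : ℤ × ℤ => if w.1 = w.2 then G (r, w) else 0 :=
      hG1.comp_injective hj
    have h2 : (∑' w : ℤ × ℤ, if w.1 = w.2 then G (r, w) else 0) =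
        ∑' (i : ℤ) (i' : ℤ), if i = i' then G (r, (i, i')) else 0 := hs.tsum_prod
    rw [h2]
    refine tsum_congr fun i => ?_
    rw [tsum_eq_single i (fun i' hi' => if_neg (fun h => hi' h.symm)), if_pos rfl, hG]
  rw [h0, tsum_congr h1]
  have hj : Function.Injective fun x : Fin m × ℤ => ((x.1, x.2, x.2) : Fin m × ℤ × ℤ) := by
    rintro ⟨r, i⟩ ⟨s, k⟩ h
    simp only [Prod.mk.injEq] at h ⊢
    exact ⟨h.1, h.2.1⟩
  have hs0 : Summable fun x : Fin m × ℤ => G (x.1, x.2, x.2) := hGs.comp_injective hj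
  have hs : Summable fun x : Fin m × ℤ => u (ix m x.1 x.2) * v (ix m x.1 x.2) := by
    refine hs0.congr fun x => ?_
    rw [hG]
  have h3 : ∑' x : Fin m × ℤ, u (ix m x.1 x.2) * v (ix m x.1 x.2) =
      ∑' (r : Fin m) (i : ℤ), u (ix m r i) * v (ix m r i) := hs.tsum_prod
  have h4 : ∑' x : Fin m × ℤ, u (ee m x) * v (ee m x) = ∑' k : ℤ, u k * v k :=
    (ee m).tsum_eq fun k => u k * v k
  rw [← h3, ← h4]
  exact tsum_congr fun x => by rw [ee_apply]

theorem split0 (m : ℕ) [NeZero m] (u v : ℤ → ℂ) (G : Fin m × ℤ × ℤ → ℂ)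
    (hG : ∀ z, G z = u (ix m z.1 z.2.1) * v (ix m z.1 z.2.2))
    (hu : Summable fun k => ‖u k‖) (hv : Summable fun k => ‖v k‖)
    (hT : Summable fun z => ‖G z‖) :
    (Summable fun z : Fin m × ℤ × ℤ => (if z.2.1 = z.2.2 then 0 else G z)) ∧
    ∑ r : Fin m, (∑' i : ℤ, u (ix m r i)) * (∑' i : ℤ, v (ix m r i)) =
      (∑' k : ℤ, u k * v k) + ∑' z : Fin m × ℤ × ℤ, (if z.2.1 = z.2.2 then 0 else G z) := by
  have hGs : Summable G := hT.of_norm
  have hG1 : Summable fun z : Fin m × ℤ × ℤ => if z.2.1 = z.2.2 then G z else 0 := by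
    refine Summable.of_norm_bounded hT fun z => ?_
    split_ifs
    · exact le_rfl
    · rw [norm_zero]; exact norm_nonneg _
  have hG0 : Summable fun z : Fin m × ℤ × ℤ => if z.2.1 = z.2.2 then 0 else G z := by
    refine Summable.of_norm_bounded hT fun z => ?_
    split_ifs
    · rw [norm_zero]; exact norm_nonneg _
    · exact le_rfl
  refine ⟨hG0, ?_⟩
  have hsplit : ∑' z, G z = (∑' z : Fin m × ℤ × ℤ, if z.2.1 = z.2.2 then G z else 0) +
      ∑' z : Fin m × ℤ × ℤ, if z.2.1 = z.2.2 then 0 else G z := by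
    rw [← hG1.tsum_add hG0]
    refine tsum_congr fun z => ?_
    split_ifs
    · rw [add_zero]
    · rw [zero_add]
  have hinj : ∀ r : Fin m, Function.Injective (ix m r) := by
    intro r i k h
    have h1 : ee m (r, i) = ee m (r, k) := by rw [ee_apply, ee_apply]; exact h
    have h2 := (ee m).injective h1
    exact (Prod.mk.inj h2).2
  have hleft : ∑ r : Fin m, (∑' i : ℤ, u (ix m r i)) * (∑' i : ℤ, v (ix m r i)) =
      ∑' z, G z := by
    have h1 : ∑' z, G z = ∑' (r : Fin m) (w : ℤ × ℤ), G (r, w) := hGs.tsum_prod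
    rw [h1, tsum_fintype]
    refine Finset.sum_congr rfl fun r _ => ?_
    have h2 : Summable fun i : ℤ => ‖u (ix m r i)‖ := hu.comp_injective (hinj r)
    have h3 : Summable fun i : ℤ => ‖v (ix m r i)‖ := hv.comp_injective (hinj r)
    rw [tsum_mul_tsum_of_summable_norm h2 h3]
    exact tsum_congr fun w => (hG (r, w)).symm
  rw [hleft, hsplit, diag m u v G hG hG1 hGs]

theorem summ (m : ℕ) [NeZero m] (u v : ℤ → ℂ) (hu : Summable fun k => ‖u k‖)
    (hv : Summable fun k => ‖v k‖) :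
    Summable fun z : Fin m × ℤ × ℤ => ‖u (ix m z.1 z.2.1) * v (ix m z.1 z.2.2)‖ := by
  have hQ : Summable fun z : ℤ × ℤ => ‖u z.1 * v z.2‖ := hu.mul_norm hv
  have h := hQ.comp_injective (phi_inj m)
  exact h

theorem split (m : ℕ) [NeZero m] (u v : ℤ → ℂ) (hu : Summable fun k => ‖u k‖)
    (hv : Summable fun k => ‖v k‖) :
    (Summable fun z : Fin m × ℤ × ℤ => (if z.2.1 = z.2.2 then 0 else
        u (ix m z.1 z.2.1) * v (ix m z.1 z.2.2))) ∧
    ∑ r : Fin m, (∑' i : ℤ, u (ix m r i)) * (∑' i : ℤ, v (ix m r i)) =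
      (∑' k : ℤ, u k * v k) + ∑' z : Fin m × ℤ × ℤ, (if z.2.1 = z.2.2 then 0 else
        u (ix m z.1 z.2.1) * v (ix m z.1 z.2.2)) := by
  obtain ⟨G, hG⟩ : ∃ G : Fin m × ℤ × ℤ → ℂ, ∀ z, G z =
      u (ix m z.1 z.2.1) * v (ix m z.1 z.2.2) := ⟨_, fun z => rfl⟩
  have hT : Summable fun z => ‖G z‖ := (summ m u v hu hv).congr fun z => by rw [hG]
  have h := split0 m u v G hG hu hv hT
  simp only [hG] at h
  exact h

theorem sj_mul (x x' : ℝ) (f g : ℂ → ℂ) (j : ℤ) :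
    sj (x - x') (fun y => f y * g y) j ≤ sj x f j * sj x' g j := by
  refine iSup₂_le fun y hy => ?_
  have hre : 0 ≤ y.re := (zpow_nonneg (by norm_num) j).trans hy.2.1
  have h1 : Real.exp (|x - x'| * y.re / 2) * ‖f y * g y‖ ≤
      (Real.exp (|x| * y.re / 2) * ‖f y‖) * (Real.exp (|x'| * y.re / 2) * ‖g y‖) := by
    have h2 : Real.exp (|x - x'| * y.re / 2) ≤
        Real.exp (|x| * y.re / 2) * Real.exp (|x'| * y.re / 2) := by
      rw [← Real.exp_add]
      apply Real.exp_le_exp.mpr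
      have h3 : |x - x'| ≤ |x| + |x'| := abs_sub x x'
      nlinarith [mul_le_mul_of_nonneg_right h3 hre]
    rw [norm_mul]
    calc Real.exp (|x - x'| * y.re / 2) * (‖f y‖ * ‖g y‖)
        ≤ (Real.exp (|x| * y.re / 2) * Real.exp (|x'| * y.re / 2)) * (‖f y‖ * ‖g y‖) :=
          mul_le_mul_of_nonneg_right h2 (by positivity)
      _ = _ := by ring
  refine (ENNReal.ofReal_le_ofReal h1).trans ?_
  rw [ENNReal.ofReal_mul (by positivity)]
  exact mul_le_mul' (le_iSup₂ (f := fun y (_ : y ∈ Sh j) =>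
      ENNReal.ofReal (Real.exp (|x| * y.re / 2) * ‖f y‖)) y hy)
    (le_iSup₂ (f := fun y (_ : y ∈ Sh j) =>
      ENNReal.ofReal (Real.exp (|x'| * y.re / 2) * ‖g y‖)) y hy)

theorem tb_diff (δ : ℝ) (a : ℕ) (k : ℤ) : Differentiable ℂ (tb δ a k) := by
  unfold tb
  fun_prop

theorem exists_shell (s : ℝ) : ∃ j : ℤ, ((Real.exp s : ℝ) : ℂ) ∈ Sh j := by
  obtain ⟨j, h1, h2⟩ := exists_mem_Ico_zpow (Real.exp_pos s) (one_lt_two (α := ℝ))
  refine ⟨j, ?_, ?_, ?_⟩
  · show |(((Real.exp s : ℝ) : ℂ)).im| < (((Real.exp s : ℝ) : ℂ)).re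
    rw [ofReal_im, ofReal_re, abs_zero]
    exact Real.exp_pos s
  · rw [ofReal_re]; exact h1
  · rw [ofReal_re]; exact h2.le

theorem tb_bound {a : ℕ} {C : ℝ} (hC : 0 ≤ C) {δ : ℝ} {k j : ℤ}
    (h : sj (xi δ k) (tb δ a k) j ≤
      ENNReal.ofReal (C * Real.sqrt δ * Real.exp (-|δ * k + j * Real.log 2|)))
    {y : ℂ} (hy : y ∈ Sh j) :
    ‖tb δ a k y‖ ≤ C * Real.sqrt δ * Real.exp (-|δ * k + j * Real.log 2|) := by
  have h1 : ENNReal.ofReal (Real.exp (|xi δ k| * y.re / 2) * ‖tb δ a k y‖) ≤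
      sj (xi δ k) (tb δ a k) j :=
    le_iSup₂ (f := fun y (_ : y ∈ Sh j) =>
      ENNReal.ofReal (Real.exp (|xi δ k| * y.re / 2) * ‖tb δ a k y‖)) y hy
  have h2 := (ENNReal.ofReal_le_ofReal_iff (by positivity)).mp (h1.trans h)
  have hre : 0 ≤ y.re := (zpow_nonneg (by norm_num) j).trans hy.2.1
  have h3 : 1 ≤ Real.exp (|xi δ k| * y.re / 2) := Real.one_le_exp (by positivity)
  refine le_trans ?_ h2
  exact le_mul_of_one_le_left (norm_nonneg _) h3

theorem norm_exp_I (t x : ℝ) : ‖exp (I * (t : ℂ) * (x : ℂ))‖ = 1 := by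
  have h : I * (t : ℂ) * (x : ℂ) = ((t * x : ℝ) : ℂ) * I := by push_cast; ring
  rw [h, norm_exp_ofReal_mul_I]

theorem conj_tb (δ : ℝ) (b : ℕ) (k : ℤ) (t : ℝ) :
    (starRingEnd ℂ) (tb δ b k (t : ℂ)) = tb δ b k (t : ℂ) := by
  simp only [tb, map_mul, map_pow, conj_ofReal, map_ofNat, ← exp_conj, map_neg]

end BIP_

open BIP_

theorem p_BIP (hGEN : T_GEN) (hBNB : T_BNB) (hBSG : T_BSG) (hBRD : T_BRD) (hBOS : T_BOS) :
    T_BIP := by
  intro a b ha hb
  obtain ⟨Ca, hCa, hBa⟩ := hBNB a ha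
  obtain ⟨Cb, hCb, hBb⟩ := hBNB b hb
  obtain ⟨Cd, hCd, hBd⟩ := hBRD a b ha hb
  refine ⟨Cd + 40 * (Ca * Cb), by positivity, ?_⟩
  intro δ m hδ hδ1 hδm E E' hE hE'
  have hm : 0 < m := by
    rcases Nat.eq_zero_or_pos m with h | h
    · rw [h] at hδm
      norm_num at hδm
    · exact h
  have : NeZero m := ⟨hm.ne'⟩
  obtain ⟨hdd, hdb⟩ := hBd δ hδ hδ1
  let t : Unit ⊕ (Fin m × ℤ × ℤ) → ℂ → ℂ :=
    Sum.elim (fun _ y => (∑' k : ℤ, tb δ a k y * tb δ b k y) - mab a b)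
      (fun z y => if z.2.1 = z.2.2 then 0 else
        tb δ a (ix m z.1 z.2.1) y * tb δ b (ix m z.1 z.2.2) y)
  let ν : Unit ⊕ (Fin m × ℤ × ℤ) → ℝ :=
    Sum.elim (fun _ => 0) (fun z => xi δ (ix m z.1 z.2.1) - xi δ (ix m z.1 z.2.2))
  have ht : ∀ i, DifferentiableOn ℂ (t i) sec := by
    rintro (i | z)
    · exact hdd.sub_const _
    · by_cases h : z.2.1 = z.2.2
      · have : t (Sum.inr z) = fun _ => 0 := by
          funext y
          simp [t, h]
        rw [this]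
        exact differentiableOn_const 0
      · have : t (Sum.inr z) = fun y =>
            tb δ a (ix m z.1 z.2.1) y * tb δ b (ix m z.1 z.2.2) y := by
          funext y
          simp [t, h]
        rw [this]
        exact ((tb_diff _ _ _).mul (tb_diff _ _ _)).differentiableOn
  have hbound : ∀ j : ℤ, ∑' i, sj (ν i) (t i) j ≤
      ENNReal.ofReal ((Cd + 40 * (Ca * Cb)) * (Real.exp (-(δ * m) / 2) + δ)) := by
    intro j
    rw [Summable.tsum_sum (f := fun i => sj (ν i) (t i) j) ENNReal.summable ENNReal.summable]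
    have h1 : ∑' i : Unit, sj (ν (Sum.inl i)) (t (Sum.inl i)) j ≤ ENNReal.ofReal (Cd * δ) := by
      rw [tsum_fintype, Finset.univ_unique, Finset.sum_singleton]
      refine iSup₂_le fun y hy => ENNReal.ofReal_le_ofReal ?_
      have h2 := (hdb y hy.1).2
      have h3 : Real.exp (|ν (Sum.inl default)| * y.re / 2) = 1 := by
        simp [ν]
      rw [h3, one_mul]
      exact h2
    let g : Fin m × ℤ × ℤ → ENNReal := fun z => if z.2.1 = z.2.2 then 0 else
      ENNReal.ofReal (δ * Real.exp (-|δ * ((z.1 : ℕ) + m * z.2.1 : ℤ) + j * Real.log 2| -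
        |δ * ((z.1 : ℕ) + m * z.2.2 : ℤ) + j * Real.log 2|))
    have h2 : ∑' z : Fin m × ℤ × ℤ, sj (ν (Sum.inr z)) (t (Sum.inr z)) j ≤
        ENNReal.ofReal (Ca * Cb) * ∑' z, g z := by
      rw [← ENNReal.tsum_mul_left]
      refine ENNReal.tsum_le_tsum fun z => ?_
      by_cases h : z.2.1 = z.2.2
      · have h3 : t (Sum.inr z) = fun _ => 0 := by
          funext y
          simp [t, h]
        rw [h3]
        simp [sj]
      · have h3 : t (Sum.inr z) = fun y =>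
            tb δ a (ix m z.1 z.2.1) y * tb δ b (ix m z.1 z.2.2) y := by
          funext y
          simp [t, h]
        have h4 : g z = ENNReal.ofReal (δ * Real.exp (-|δ * ((z.1 : ℕ) + m * z.2.1 : ℤ) +
            j * Real.log 2| - |δ * ((z.1 : ℕ) + m * z.2.2 : ℤ) + j * Real.log 2|)) := by
          simp only [g, if_neg h]
        rw [h3, h4]
        refine (sj_mul _ _ _ _ j).trans ?_
        refine (mul_le_mul' (hBa δ (ix m z.1 z.2.1) j) (hBb δ (ix m z.1 z.2.2) j)).trans ?_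
        rw [← ENNReal.ofReal_mul (by positivity), ← ENNReal.ofReal_mul (by positivity)]
        refine ENNReal.ofReal_le_ofReal (le_of_eq ?_)
        have h5 : Real.exp (-|δ * ((z.1 : ℕ) + m * z.2.1 : ℤ) + j * Real.log 2| -
            |δ * ((z.1 : ℕ) + m * z.2.2 : ℤ) + j * Real.log 2|) =
            Real.exp (-|δ * ((z.1 : ℕ) + m * z.2.1 : ℤ) + j * Real.log 2|) *
            Real.exp (-|δ * ((z.1 : ℕ) + m * z.2.2 : ℤ) + j * Real.log 2|) := by
          rw [← Real.exp_add]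
          congr 1
        have h6 : Real.sqrt δ * Real.sqrt δ = δ := Real.mul_self_sqrt hδ.le
        rw [h5]
        calc _ = Ca * Cb * ((Real.sqrt δ * Real.sqrt δ) *
              (Real.exp (-|δ * (ix m z.1 z.2.1 : ℤ) + j * Real.log 2|) *
              Real.exp (-|δ * (ix m z.1 z.2.2 : ℤ) + j * Real.log 2|))) := by ring
          _ = _ := by rw [h6]; rfl
    have h3 : ∑' z, g z ≤ ENNReal.ofReal (40 * Real.exp (-(δ * m) / 2)) := by
      have h4 := hBOS δ (j * Real.log 2) m hδ hδ1 hδm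
      have h5 : ∑' z, g z = ∑ r : Fin m, ∑' i : ℤ, ∑' i' : ℤ, g (r, i, i') := by
        rw [ENNReal.tsum_prod', tsum_fintype]
        refine Finset.sum_congr rfl fun r _ => ?_
        exact ENNReal.tsum_prod' (f := fun w : ℤ × ℤ => g (r, w))
      rw [h5]
      exact h4
    refine (add_le_add h1 (h2.trans (mul_le_mul' le_rfl h3))).trans ?_
    rw [← ENNReal.ofReal_mul (by positivity), ← ENNReal.ofReal_add (by positivity)
      (by positivity)]
    apply ENNReal.ofReal_le_ofReal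
    have h7 : 0 < Real.exp (-(δ * m) / 2) := Real.exp_pos _
    have h8 : 0 ≤ Cd * Real.exp (-(δ * m) / 2) := by positivity
    have h9 : 0 ≤ Ca * Cb * δ := by positivity
    nlinarith
  obtain ⟨A, hA, hAN, hAF⟩ := hGEN _ t ν ht fun j =>
    ne_top_of_le_ne_top ENNReal.ofReal_ne_top (hbound j)
  refine ⟨by positivity, A, ⟨hA, fun p => ?_⟩, fun j => (hAN j).trans (hbound j)⟩
  rw [hAF p]
  obtain ⟨j, hj⟩ := exists_shell p.2
  set y : ℂ := ((Real.exp p.2 : ℝ) : ℂ) with hy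
  let u : ℤ → ℂ := fun k => tb δ a k y * exp (I * (xi δ k : ℂ) * (p.1 : ℂ))
  let v : ℤ → ℂ := fun k => (starRingEnd ℂ) (tb δ b k y * exp (I * (xi δ k : ℂ) * (p.1 : ℂ)))
  have hsg := (hBSG δ (j * Real.log 2) hδ).1
  have hu : Summable fun k => ‖u k‖ := by
    refine Summable.of_nonneg_of_le (fun k => norm_nonneg _) (fun k => ?_)
      (hsg.mul_left (Ca * Real.sqrt δ))
    rw [norm_mul, norm_exp_I, mul_one]
    exact tb_bound hCa (hBa δ k j) hj
  have hv : Summable fun k => ‖v k‖ := by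
    refine Summable.of_nonneg_of_le (fun k => norm_nonneg _) (fun k => ?_)
      (hsg.mul_left (Cb * Real.sqrt δ))
    rw [RCLike.norm_conj, norm_mul, norm_exp_I, mul_one]
    exact tb_bound hCb (hBb δ k j) hj
  have huv : ∀ k k', u k * v k' =
      tb δ a k y * tb δ b k' y * exp (I * ((xi δ k - xi δ k' : ℝ) : ℂ) * (p.1 : ℂ)) := by
    intro k k'
    have h1 : v k' = tb δ b k' y * exp (-(I * (xi δ k' : ℂ) * (p.1 : ℂ))) := by
      show (starRingEnd ℂ) (tb δ b k' y * exp (I * (xi δ k' : ℂ) * (p.1 : ℂ))) = _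
      rw [map_mul, conj_tb, ← exp_conj]
      congr 2
      simp only [map_mul, conj_I, conj_ofReal]
      ring
    have h2 : exp (I * ((xi δ k - xi δ k' : ℝ) : ℂ) * (p.1 : ℂ)) =
        exp (I * (xi δ k : ℂ) * (p.1 : ℂ)) * exp (-(I * (xi δ k' : ℂ) * (p.1 : ℂ))) := by
      rw [← exp_add]
      congr 1
      push_cast
      ring
    rw [h1, h2]
    show tb δ a k y * exp (I * (xi δ k : ℂ) * (p.1 : ℂ)) * _ = _
    ring
  obtain ⟨hs0, hsplit⟩ := split m u v hu hv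
  have hcoe : ((ip E (star E') - cst RR (mab a b) : RR) : ℝ × ℝ → ℂ) p =
      (∑ r : Fin m, (E r : ℝ × ℝ → ℂ) p * (starRingEnd ℂ) ((E' r : ℝ × ℝ → ℂ) p)) -
        mab a b := by
    have h1 : ((ip E (star E') : RR) : ℝ × ℝ → ℂ) p =
        ∑ r : Fin m, (E r : ℝ × ℝ → ℂ) p * (starRingEnd ℂ) ((E' r : ℝ × ℝ → ℂ) p) := by
      simp only [ip]
      rw [AddSubmonoidClass.coe_finsetSum, Finset.sum_apply]
      rfl
    have h2 : ((ip E (star E') - cst RR (mab a b) : RR) : ℝ × ℝ → ℂ) p =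
      ((ip E (star E') : RR) : ℝ × ℝ → ℂ) p - mab a b := rfl
    rw [h2, h1]
  rw [hcoe]
  have hE1 : ∀ r, (E r : ℝ × ℝ → ℂ) p = ∑' i : ℤ, u (ix m r i) := by
    intro r
    rw [hE r]
    rfl
  have hE2 : ∀ r, (starRingEnd ℂ) ((E' r : ℝ × ℝ → ℂ) p) = ∑' i : ℤ, v (ix m r i) := by
    intro r
    rw [hE' r]
    unfold Eb
    rw [Complex.conj_tsum]
    rfl
  simp only [hE1, hE2]
  rw [hsplit]
  have hF : (fun z : Fin m × ℤ × ℤ => t (Sum.inr z) y *
      exp (I * (ν (Sum.inr z) : ℂ) * (p.1 : ℂ))) = fun z => if z.2.1 = z.2.2 then 0 else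
        u (ix m z.1 z.2.1) * v (ix m z.1 z.2.2) := by
    funext z
    by_cases h : z.2.1 = z.2.2
    · simp [t, h]
    · rw [if_neg h, huv]
      simp only [t, ν, Sum.elim_inr, if_neg h]
  rw [Summable.tsum_sum (f := fun i => t i y * exp (I * (ν i : ℂ) * (p.1 : ℂ)))
    (Summable.of_finite) (by
      show Summable fun z : Fin m × ℤ × ℤ => t (Sum.inr z) y *
        exp (I * (ν (Sum.inr z) : ℂ) * (p.1 : ℂ))
      rw [hF]
      exact hs0)]
  have hU : ∑' i : Unit, t (Sum.inl i) y * exp (I * (ν (Sum.inl i) : ℂ) * (p.1 : ℂ)) =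
      t (Sum.inl ()) y * exp (I * (ν (Sum.inl ()) : ℂ) * (p.1 : ℂ)) :=
    tsum_eq_single () fun b hb => absurd rfl hb
  have h1 : t (Sum.inl ()) y = (∑' k : ℤ, tb δ a k y * tb δ b k y) - mab a b := rfl
  have h2 : exp (I * ((ν (Sum.inl ()) : ℝ) : ℂ) * (p.1 : ℂ)) = 1 := by
    simp [ν]
  have h3 : ∑' k : ℤ, u k * v k = ∑' k : ℤ, tb δ a k y * tb δ b k y := by
    refine tsum_congr fun k => ?_
    rw [huv]
    simp
  rw [hF, hU, h1, h2, h3]
  ring

end Pool.Agent.HSD
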