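import Pool.Agent.HSD.Targets3

/-!
# HSD: proof of BNB (the size of the coefficients)
-/

set_option autoImplicit false

namespace Pool.Agent.HSD

open Complex

namespace BNB_

/-- `T^a e^(-T/2) ≤ C min(T, 1/T)` with `T = e^L`. -/
theorem elem (a : ℕ) (ha : 1 ≤ a) (L : ℝ) :
    Real.exp L ^ a * Real.exp (-(Real.exp L / 2)) ≤
      2 ^ (a + 1) * ((a + 1).factorial : ℝ) * Real.exp (-|L|) := by
  have hT : 0 < Real.exp L := Real.exp_pos L
  have hC : (1 : ℝ) ≤ 2 ^ (a + 1) * ((a + 1).factorial : ℝ) := by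
    have h1 : (1 : ℝ) ≤ 2 ^ (a + 1) := one_le_pow₀ (by norm_num)
    have h2 : (1 : ℝ) ≤ ((a + 1).factorial : ℝ) := by
      exact_mod_cast Nat.succ_le_of_lt (Nat.factorial_pos (a + 1))
    nlinarith
  rcases le_total L 0 with hL | hL
  · rw [abs_of_nonpos hL, neg_neg]
    have h1 : Real.exp L ≤ 1 := Real.exp_le_one_iff.2 hL
    have h2 : Real.exp L ^ a ≤ Real.exp L := by
      calc Real.exp L ^ a ≤ Real.exp L ^ 1 := pow_le_pow_of_le_one hT.le h1 ha
        _ = Real.exp L := pow_one _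
    have h3 : Real.exp (-(Real.exp L / 2)) ≤ 1 := Real.exp_le_one_iff.2 (by linarith)
    calc Real.exp L ^ a * Real.exp (-(Real.exp L / 2)) ≤ Real.exp L * 1 := by gcongr
      _ = 1 * Real.exp L := by ring
      _ ≤ 2 ^ (a + 1) * ((a + 1).factorial : ℝ) * Real.exp L := by gcongr
  · rw [abs_of_nonneg hL]
    have h1 := Real.pow_div_factorial_le_exp (Real.exp L / 2) (by positivity) (a + 1)
    have hf : (0 : ℝ) < ((a + 1).factorial : ℝ) := by
      exact_mod_cast Nat.factorial_pos (a + 1)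
    rw [div_pow, div_div, div_le_iff₀ (by positivity)] at h1
    rw [Real.exp_neg, Real.exp_neg, ← div_eq_mul_inv, ← div_eq_mul_inv,
      div_le_div_iff₀ (Real.exp_pos _) hT]
    calc Real.exp L ^ a * Real.exp L = Real.exp L ^ (a + 1) := (pow_succ _ _).symm
      _ ≤ Real.exp (Real.exp L / 2) * (2 ^ (a + 1) * ((a + 1).factorial : ℝ)) := h1
      _ = 2 ^ (a + 1) * ((a + 1).factorial : ℝ) * Real.exp (Real.exp L / 2) := by ring

end BNB_

open BNB_ in
/-- Target BNB. -/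
theorem p_BNB (hSEC : T_SEC) : T_BNB := by
  intro a ha
  refine ⟨2 * 3 ^ a * (2 ^ (a + 1) * ((a + 1).factorial : ℝ)), by positivity, ?_⟩
  intro δ k j
  unfold sj
  refine iSup₂_le fun y hy => ?_
  refine ENNReal.ofReal_le_ofReal ?_
  obtain ⟨hys, hy1, hy2⟩ := hy
  obtain ⟨hre, hnorm⟩ := hSEC.2.2.1 y hys
  have hξ : 0 < xi δ k := Real.exp_pos _
  have hT : xi δ k * (2 : ℝ) ^ j = Real.exp (δ * k + j * Real.log 2) := by
    have e0 : Real.exp (j * Real.log 2) = (2 : ℝ) ^ j := by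
      rw [mul_comm, Real.exp_mul, Real.exp_log (by norm_num : (0 : ℝ) < 2), Real.rpow_intCast]
    unfold xi
    rw [Real.exp_add, e0]
  have h2j : (0 : ℝ) < (2 : ℝ) ^ j := by positivity
  have h3 : ‖y‖ ≤ 3 * (2 : ℝ) ^ j := by
    have h4 : (2 : ℝ) ^ (j + 1) = 2 * (2 : ℝ) ^ j := by
      rw [zpow_add₀ (by norm_num), zpow_one]
      ring
    rw [h4] at hy2
    linarith
  have hn : ‖tb δ a k y‖ = 2 * Real.sqrt δ * (xi δ k * ‖y‖) ^ a *
      Real.exp (-(xi δ k * y.re)) := by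
    unfold tb
    rw [norm_mul, norm_mul, norm_mul, norm_pow, norm_mul, Complex.norm_exp]
    have e1 : (-(xi δ k : ℂ) * y).re = -(xi δ k * y.re) := by
      rw [neg_mul, Complex.neg_re, Complex.re_ofReal_mul]
    rw [e1, Complex.norm_real, Complex.norm_real, Real.norm_of_nonneg (Real.sqrt_nonneg _),
      Real.norm_of_nonneg hξ.le, Complex.norm_two]
  have h5 : Real.exp (|xi δ k| * y.re / 2) * ‖tb δ a k y‖ =
      2 * Real.sqrt δ * ((xi δ k * ‖y‖) ^ a * Real.exp (-(xi δ k * y.re / 2))) := by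
    have e2 : Real.exp (xi δ k * y.re / 2) * Real.exp (-(xi δ k * y.re)) =
        Real.exp (-(xi δ k * y.re / 2)) := by
      rw [← Real.exp_add]
      congr 1
      ring
    rw [hn, abs_of_pos hξ, ← e2]
    ring
  rw [h5]
  have h6 : (xi δ k * ‖y‖) ^ a ≤ 3 ^ a * (xi δ k * (2 : ℝ) ^ j) ^ a := by
    rw [← mul_pow]
    have : xi δ k * ‖y‖ ≤ 3 * (xi δ k * (2 : ℝ) ^ j) := by
      calc xi δ k * ‖y‖ ≤ xi δ k * (3 * (2 : ℝ) ^ j) := by gcongr
        _ = 3 * (xi δ k * (2 : ℝ) ^ j) := by ring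
    gcongr
  have h7 : Real.exp (-(xi δ k * y.re / 2)) ≤ Real.exp (-(xi δ k * (2 : ℝ) ^ j / 2)) := by
    gcongr
  have h8 := elem a ha (δ * k + j * Real.log 2)
  rw [← hT] at h8
  have hs : 0 ≤ Real.sqrt δ := Real.sqrt_nonneg δ
  calc 2 * Real.sqrt δ * ((xi δ k * ‖y‖) ^ a * Real.exp (-(xi δ k * y.re / 2)))
      ≤ 2 * Real.sqrt δ * ((3 ^ a * (xi δ k * (2 : ℝ) ^ j) ^ a) *
        Real.exp (-(xi δ k * (2 : ℝ) ^ j / 2))) := by gcongr
    _ = 2 * Real.sqrt δ * 3 ^ a * ((xi δ k * (2 : ℝ) ^ j) ^ a *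
        Real.exp (-(xi δ k * (2 : ℝ) ^ j / 2))) := by ring
    _ ≤ 2 * Real.sqrt δ * 3 ^ a * (2 ^ (a + 1) * ((a + 1).factorial : ℝ) *
        Real.exp (-|δ * k + j * Real.log 2|)) := by gcongr
    _ = 2 * 3 ^ a * (2 ^ (a + 1) * ((a + 1).factorial : ℝ)) * Real.sqrt δ *
        Real.exp (-|δ * k + j * Real.log 2|) := by ring

end Pool.Agent.HSD
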