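import Pool.Agent.HSD.Targets3

/-!
# HSD, target BOS: the off-diagonal sum
-/

set_option autoImplicit false

namespace Pool.Agent.HSD

namespace BOS_

open Real

/-- The one dimensional off-diagonal sum. -/
theorem sum_offdiag (L : ℝ) (hL : 1 ≤ L) :
    ∑' n : ℤ, (if n = 0 then (0 : ENNReal) else
      ENNReal.ofReal (Real.exp (-(L * |(n : ℝ)|) / 2))) ≤
        ENNReal.ofReal (6 * Real.exp (-L / 2)) := by
  obtain ⟨q, hq⟩ : ∃ q, q = Real.exp (-L / 2) := ⟨_, rfl⟩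
  have hq0 : 0 < q := by rw [hq]; exact Real.exp_pos _
  have hq1 : q ≤ 2 / 3 := by
    have h1 : q ≤ Real.exp (-(1 / 2)) := by
      rw [hq]
      exact Real.exp_le_exp.2 (by linarith)
    have h2 : (1 / 2 : ℝ) + 1 ≤ Real.exp (1 / 2) := Real.add_one_le_exp _
    have h3 : Real.exp (-(1 / 2)) ≤ 2 / 3 := by
      rw [Real.exp_neg, inv_le_comm₀ (Real.exp_pos _) (by norm_num)]
      norm_num at h2 ⊢
      linarith
    linarith
  have hterm : ∀ j : ℕ, Real.exp (-(L * ((j : ℝ) + 1)) / 2) = q ^ (j + 1) := by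
    intro j
    rw [hq, ← Real.exp_nat_mul]
    congr 1
    push_cast
    ring
  have hQ : ∀ j : ℕ, ENNReal.ofReal (q ^ (j + 1)) =
      ENNReal.ofReal q * ENNReal.ofReal q ^ j := by
    intro j
    rw [pow_succ', ENNReal.ofReal_mul hq0.le, ENNReal.ofReal_pow hq0.le]
  have hgeo : ∑' j : ℕ, ENNReal.ofReal (q ^ (j + 1)) = ENNReal.ofReal (q / (1 - q)) := by
    simp_rw [hQ]
    rw [ENNReal.tsum_mul_left, ENNReal.tsum_geometric]
    rw [← ENNReal.ofReal_one, ← ENNReal.ofReal_sub _ hq0.le,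
      ← ENNReal.ofReal_inv_of_pos (by linarith), ← ENNReal.ofReal_mul hq0.le, div_eq_mul_inv]
  rw [tsum_of_nat_of_neg_add_one ENNReal.summable ENNReal.summable]
  have e1 : ∑' n : ℕ, (if ((n : ℕ) : ℤ) = 0 then (0 : ENNReal) else
      ENNReal.ofReal (Real.exp (-(L * |(((n : ℕ) : ℤ) : ℝ)|) / 2))) =
      ENNReal.ofReal (q / (1 - q)) := by
    rw [tsum_eq_zero_add' ENNReal.summable, ← hgeo]
    simp only [Nat.cast_zero, if_true, zero_add]
    refine tsum_congr fun j => ?_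
    have h1 : ¬ (((j + 1 : ℕ) : ℤ) = 0) := by omega
    rw [if_neg h1, ← hterm j]
    congr 3
    push_cast
    rw [abs_of_nonneg (by positivity)]
  have e2 : ∑' n : ℕ, (if (-((n : ℤ) + 1)) = 0 then (0 : ENNReal) else
      ENNReal.ofReal (Real.exp (-(L * |((-((n : ℤ) + 1) : ℤ) : ℝ)|) / 2))) =
      ENNReal.ofReal (q / (1 - q)) := by
    rw [← hgeo]
    refine tsum_congr fun j => ?_
    have h1 : ¬ ((-((j : ℤ) + 1)) = 0) := by omega
    rw [if_neg h1, ← hterm j]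
    congr 3
    push_cast
    rw [abs_of_nonpos (by
      have : (0 : ℝ) ≤ (j : ℝ) := Nat.cast_nonneg j
      linarith)]
    ring
  rw [e1, e2, ← ENNReal.ofReal_add (by
    have : 0 < 1 - q := by linarith
    positivity) (by
    have : 0 < 1 - q := by linarith
    positivity), ← hq]
  apply ENNReal.ofReal_le_ofReal
  have h4 : 0 < 1 - q := by linarith
  have h5 : q / (1 - q) ≤ 3 * q := by
    rw [div_le_iff₀ h4]
    nlinarith
  linarith

/-- The sum over all frequencies. -/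
theorem sum_diag (hBSG : T_BSG) (δ c : ℝ) (h0 : 0 < δ) (h1 : δ ≤ 1) :
    ∑' k : ℤ, ENNReal.ofReal (δ * Real.exp (-|δ * (k : ℝ) + c| / 2)) ≤ ENNReal.ofReal 6 := by
  obtain ⟨hs, hb⟩ := hBSG (δ / 2) (c / 2) (by linarith)
  have e : ∀ k : ℤ, Real.exp (-|δ * (k : ℝ) + c| / 2) =
      Real.exp (-|δ / 2 * (k : ℝ) + c / 2|) := by
    intro k
    congr 1
    have h2 : δ / 2 * (k : ℝ) + c / 2 = (δ * (k : ℝ) + c) / 2 := by ring
    rw [h2, abs_div, abs_of_pos (by norm_num : (0 : ℝ) < 2)]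
    ring
  simp_rw [e]
  rw [← ENNReal.ofReal_tsum_of_nonneg (fun k => by positivity) (hs.mul_left δ), tsum_mul_left]
  apply ENNReal.ofReal_le_ofReal
  have h3 : δ / 2 + 1 ≤ Real.exp (δ / 2) := Real.add_one_le_exp _
  have h4 : Real.exp (-(δ / 2)) ≤ 1 / (1 + δ / 2) := by
    rw [Real.exp_neg, ← one_div]
    exact one_div_le_one_div_of_le (by linarith) (by linarith)
  have h5 : (δ / 2) / (1 + δ / 2) ≤ 1 - Real.exp (-(δ / 2)) := by
    have h6 : (δ / 2) / (1 + δ / 2) = 1 - 1 / (1 + δ / 2) := by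
      field_simp
      ring
    rw [h6]
    linarith
  have h7 : 0 < (δ / 2) / (1 + δ / 2) := by positivity
  have h8 : 2 / (1 - Real.exp (-(δ / 2))) ≤ 2 / ((δ / 2) / (1 + δ / 2)) :=
    div_le_div_of_nonneg_left (by norm_num) h7 h5
  have h9 : δ * (2 / ((δ / 2) / (1 + δ / 2))) = 4 + 2 * δ := by
    field_simp
    ring
  calc δ * ∑' k : ℤ, Real.exp (-|δ / 2 * (k : ℝ) + c / 2|)
      ≤ δ * (2 / ((δ / 2) / (1 + δ / 2))) :=
        mul_le_mul_of_nonneg_left (hb.trans h8) h0.le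
    _ = 4 + 2 * δ := h9
    _ ≤ 6 := by linarith

/-- The pairs `(r, i)` enumerate the integers injectively. -/
theorem inj_pair (m : ℕ) (hm : 0 < m) :
    Function.Injective (fun p : Fin m × ℤ => (((p.1 : ℕ) : ℤ) + (m : ℤ) * p.2)) := by
  rintro ⟨r, i⟩ ⟨r', i'⟩ h
  simp only at h
  have hr : ((r : ℕ) : ℤ) < m := by exact_mod_cast r.2
  have hr' : ((r' : ℕ) : ℤ) < m := by exact_mod_cast r'.2
  have hr0 : (0 : ℤ) ≤ ((r : ℕ) : ℤ) := by positivity
  have hr0' : (0 : ℤ) ≤ ((r' : ℕ) : ℤ) := by positivity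
  have hi : i = i' := by
    have h1 : (((r : ℕ) : ℤ) + (m : ℤ) * i) / m = i := by
      rw [Int.add_mul_ediv_left _ _ (by omega), Int.ediv_eq_zero_of_lt hr0 hr, zero_add]
    have h2 : (((r' : ℕ) : ℤ) + (m : ℤ) * i') / m = i' := by
      rw [Int.add_mul_ediv_left _ _ (by omega), Int.ediv_eq_zero_of_lt hr0' hr', zero_add]
    rw [← h1, ← h2, h]
  subst hi
  have : ((r : ℕ) : ℤ) = ((r' : ℕ) : ℤ) := by linarith
  have h3 : r = r' := Fin.ext (by exact_mod_cast this)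
  rw [h3]

/-- The inner sum. -/
theorem inner (δ c : ℝ) (m : ℕ) (h0 : 0 < δ) (h1 : 1 ≤ δ * m) (r : ℕ) (i : ℤ) :
    ∑' i' : ℤ, (if i = i' then (0 : ENNReal) else
      ENNReal.ofReal (δ * Real.exp (-|δ * ((r : ℕ) + m * i : ℤ) + c| -
        |δ * ((r : ℕ) + m * i' : ℤ) + c|))) ≤
      ENNReal.ofReal (δ * Real.exp (-|δ * (((r : ℕ) + m * i : ℤ) : ℝ) + c| / 2)) *
        ENNReal.ofReal (6 * Real.exp (-(δ * m) / 2)) := by
  have hL := sum_offdiag (δ * m) h1
  have hs : ∑' i' : ℤ, (if i = i' then (0 : ENNReal) else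
      ENNReal.ofReal (Real.exp (-((δ * m) * |((i' - i : ℤ) : ℝ)|) / 2))) =
      ∑' n : ℤ, (if n = 0 then (0 : ENNReal) else
        ENNReal.ofReal (Real.exp (-((δ * m) * |(n : ℝ)|) / 2))) := by
    rw [← (Equiv.subRight i).tsum_eq (fun n : ℤ => (if n = 0 then (0 : ENNReal) else
        ENNReal.ofReal (Real.exp (-((δ * m) * |(n : ℝ)|) / 2))))]
    refine tsum_congr fun i' => ?_
    simp only [Equiv.subRight_apply]
    by_cases h : i = i'
    · rw [if_pos h, if_pos (by omega)]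
    · rw [if_neg h, if_neg (by omega)]
  refine le_trans ?_ (mul_le_mul' le_rfl hL)
  rw [← hs, ← ENNReal.tsum_mul_left]
  refine ENNReal.tsum_le_tsum fun i' => ?_
  by_cases h : i = i'
  · rw [if_pos h, if_pos h, mul_zero]
  · rw [if_neg h, if_neg h, ← ENNReal.ofReal_mul (by positivity)]
    apply ENNReal.ofReal_le_ofReal
    rw [mul_assoc, ← Real.exp_add]
    apply mul_le_mul_of_nonneg_left _ h0.le
    apply Real.exp_le_exp.2
    obtain ⟨A, hA⟩ : ∃ A : ℝ, A = δ * (((r : ℕ) + m * i : ℤ) : ℝ) + c := ⟨_, rfl⟩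
    obtain ⟨B, hB⟩ : ∃ B : ℝ, B = δ * (((r : ℕ) + m * i' : ℤ) : ℝ) + c := ⟨_, rfl⟩
    rw [← hA, ← hB]
    have hAB : (δ * m) * |((i' - i : ℤ) : ℝ)| = |B - A| := by
      have e1 : B - A = (δ * m) * ((i' - i : ℤ) : ℝ) := by
        rw [hA, hB]
        push_cast
        ring
      rw [e1, abs_mul, abs_of_nonneg (by linarith : (0 : ℝ) ≤ δ * m)]
    rw [hAB]
    have h2 : |B - A| ≤ |B| + |A| := abs_sub _ _
    have h3 : 0 ≤ |B| := abs_nonneg _
    linarith

end BOS_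

theorem p_BOS (hBSG : T_BSG) : T_BOS := by
  intro δ c m h0 h1 hm
  have hm0 : 0 < m := by
    rcases Nat.eq_zero_or_pos m with h | h
    · rw [h] at hm
      norm_num at hm
    · exact h
  calc ∑ r : Fin m, ∑' i : ℤ, ∑' i' : ℤ, (if i = i' then (0 : ENNReal) else
        ENNReal.ofReal (δ * Real.exp (-|δ * ((r : ℕ) + m * i : ℤ) + c| -
          |δ * ((r : ℕ) + m * i' : ℤ) + c|)))
      ≤ ∑ r : Fin m, ∑' i : ℤ,
          ENNReal.ofReal (δ * Real.exp (-|δ * ((((r : Fin m) : ℕ) + m * i : ℤ) : ℝ) + c| / 2)) *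
            ENNReal.ofReal (6 * Real.exp (-(δ * m) / 2)) :=
        Finset.sum_le_sum fun r _ => ENNReal.tsum_le_tsum fun i =>
          BOS_.inner δ c m h0 hm r i
    _ = (∑ r : Fin m, ∑' i : ℤ,
          ENNReal.ofReal (δ * Real.exp (-|δ * ((((r : Fin m) : ℕ) + m * i : ℤ) : ℝ) + c| / 2))) *
            ENNReal.ofReal (6 * Real.exp (-(δ * m) / 2)) := by
        rw [Finset.sum_mul]
        exact Finset.sum_congr rfl fun r _ => ENNReal.tsum_mul_right
    _ ≤ ENNReal.ofReal 6 * ENNReal.ofReal (6 * Real.exp (-(δ * m) / 2)) := by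
        refine mul_le_mul' ?_ le_rfl
        rw [← tsum_fintype (L := SummationFilter.unconditional (Fin m)), ← ENNReal.tsum_prod]
        refine le_trans ?_ (BOS_.sum_diag hBSG δ c h0 h1)
        exact ENNReal.tsum_comp_le_tsum_of_injective (BOS_.inj_pair m hm0)
          (fun k : ℤ => ENNReal.ofReal (δ * Real.exp (-|δ * (k : ℝ) + c| / 2)))
    _ ≤ ENNReal.ofReal (40 * Real.exp (-(δ * m) / 2)) := by
        rw [← ENNReal.ofReal_mul (by norm_num)]
        apply ENNReal.ofReal_le_ofReal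
        have := Real.exp_pos (-(δ * m) / 2)
        linarith

end Pool.Agent.HSD
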