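import Pool.Agent.HSD.Targets3

/-!
# Project HSD: the diagonal sum (BRD)
-/

set_option autoImplicit false

namespace Pool.Agent.HSD

open Complex

namespace BRD_

/-- The function `v^n e^{-2v}`, `v = e^θ y`. -/
noncomputable def ph (n : ℕ) (y : ℂ) (θ : ℝ) : ℂ :=
  ((Real.exp θ : ℂ) * y) ^ n * exp (-2 * ((Real.exp θ : ℂ) * y))

/-- Its derivative. -/
noncomputable def ph' (n : ℕ) (y : ℂ) (θ : ℝ) : ℂ :=
  (n - 2 * ((Real.exp θ : ℂ) * y)) * ((Real.exp θ : ℂ) * y) ^ n *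
    exp (-2 * ((Real.exp θ : ℂ) * y))

theorem hasDeriv_v (y : ℂ) (θ : ℝ) :
    HasDerivAt (fun θ : ℝ => (Real.exp θ : ℂ) * y) ((Real.exp θ : ℂ) * y) θ := by
  have h1 : HasDerivAt (fun θ : ℝ => ((Real.exp θ : ℝ) : ℂ)) ((Real.exp θ : ℝ) : ℂ) θ :=
    (Real.hasDerivAt_exp θ).ofReal_comp
  exact h1.mul_const y

theorem hasDeriv_ph (n : ℕ) (hn : 1 ≤ n) (y : ℂ) (θ : ℝ) :
    HasDerivAt (ph n y) (ph' n y θ) θ := by
  have h1 := hasDeriv_v y θ
  have h2 := (h1.pow n).mul ((h1.const_mul (-2)).cexp)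
  have h3 : HasDerivAt (ph n y) _ θ := h2
  convert h3 using 1
  unfold ph'
  obtain ⟨m, rfl⟩ : ∃ m, n = m + 1 := ⟨n - 1, by omega⟩
  simp only [Pi.pow_apply, Nat.add_sub_cancel]
  simp only [pow_succ]
  ring

theorem cont_ph' (n : ℕ) (y : ℂ) : Continuous (ph' n y) := by
  unfold ph'
  have h1 : Continuous (fun θ : ℝ => ((Real.exp θ : ℝ) : ℂ)) :=
    Complex.continuous_ofReal.comp Real.continuous_exp
  fun_prop

theorem tb_mul (δ : ℝ) (hδ : 0 < δ) (a b : ℕ) (k : ℤ) (y : ℂ) :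
    tb δ a k y * tb δ b k y = 4 * (δ : ℂ) * ph (a + b) y (δ * k) := by
  unfold tb ph xi
  have h1 : (Real.sqrt δ : ℂ) * (Real.sqrt δ : ℂ) = (δ : ℂ) := by
    rw [← Complex.ofReal_mul, Real.mul_self_sqrt hδ.le]
  have h2 : exp (-2 * ((Real.exp (δ * k) : ℂ) * y)) =
      exp (-(Real.exp (δ * k) : ℂ) * y) * exp (-(Real.exp (δ * k) : ℂ) * y) := by
    rw [← Complex.exp_add]
    congr 1
    ring
  rw [h2, pow_add, ← h1]
  ring

theorem bound (C δ : ℝ) (a : ℕ) (k j : ℤ) (hC : 0 ≤ C)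
    (h : sj (xi δ k) (tb δ a k) j ≤
      ENNReal.ofReal (C * Real.sqrt δ * Real.exp (-|δ * k + j * Real.log 2|)))
    (y : ℂ) (hy : y ∈ Sh j) (hre : 0 < y.re) :
    ‖tb δ a k y‖ ≤ C * Real.sqrt δ * Real.exp (-|δ * k + j * Real.log 2|) := by
  have h1 : ENNReal.ofReal (Real.exp (|xi δ k| * y.re / 2) * ‖tb δ a k y‖) ≤
      ENNReal.ofReal (C * Real.sqrt δ * Real.exp (-|δ * k + j * Real.log 2|)) :=
    le_trans (le_iSup₂_of_le (f := fun y (_ : y ∈ Sh j) =>
      ENNReal.ofReal (Real.exp (|xi δ k| * y.re / 2) * ‖tb δ a k y‖)) y hy le_rfl) h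
  have h2 := (ENNReal.ofReal_le_ofReal_iff (by positivity)).1 h1
  have h3 : 1 ≤ Real.exp (|xi δ k| * y.re / 2) := Real.one_le_exp (by positivity)
  nlinarith [norm_nonneg (tb δ a k y)]

theorem diff_tb (δ : ℝ) (a : ℕ) (k : ℤ) : DifferentiableOn ℂ (tb δ a k) sec := by
  unfold tb
  fun_prop

end BRD_

open BRD_

theorem p_BRD (hRIE : T_RIE) (hGIN : T_GIN) (hSEC : T_SEC) (hBNB : T_BNB) (hBSG : T_BSG) :
    T_BRD := by
  intro a b ha hb
  obtain ⟨h1, C, hC, h2⟩ := hGIN (a + b) (by omega)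
  obtain ⟨hopen, -, hre, -, -, -, -, hU, -⟩ := hSEC
  obtain ⟨Ca, hCa, hba⟩ := hBNB a ha
  obtain ⟨Cb, hCb, hbb⟩ := hBNB b hb
  refine ⟨4 * C, by linarith, ?_⟩
  intro δ hδ hδ1
  refine ⟨?_, ?_⟩
  · intro y hy
    obtain ⟨j, U, hUo, hyU, hUs, hUSh⟩ := hU y hy
    have hs1 := (hBSG δ (j * Real.log 2) hδ).1
    have hs2 := (hBSG δ ((j + 1 : ℤ) * Real.log 2) hδ).1
    have hd : DifferentiableOn ℂ (fun y => ∑' k : ℤ, tb δ a k y * tb δ b k y) U := by
      refine differentiableOn_tsum_of_summable_norm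
        (u := fun k : ℤ => Ca * Cb * δ * (Real.exp (-|δ * k + j * Real.log 2|) +
          Real.exp (-|δ * k + (j + 1 : ℤ) * Real.log 2|))) ((hs1.add hs2).mul_left _) ?_ hUo ?_
      · intro k
        exact ((diff_tb δ a k).mul (diff_tb δ b k)).mono hUs
      · intro k w hw
        have key : ∀ i : ℤ, w ∈ Sh i → ‖tb δ a k w * tb δ b k w‖ ≤
            Ca * Cb * δ * Real.exp (-|δ * k + i * Real.log 2|) := by
          intro i hi
          have e1 := bound Ca δ a k i hCa (hba δ k i) w hi (hre w (hUs hw)).1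
          have e2 := bound Cb δ b k i hCb (hbb δ k i) w hi (hre w (hUs hw)).1
          have e3 : Real.exp (-|δ * k + i * Real.log 2|) ≤ 1 :=
            Real.exp_le_one_iff.2 (by simp)
          have e4 : 0 < Real.exp (-|δ * k + i * Real.log 2|) := Real.exp_pos _
          rw [norm_mul]
          have e5 := mul_le_mul e1 e2 (norm_nonneg _) (by positivity)
          have e6 : Real.sqrt δ * Real.sqrt δ = δ := Real.mul_self_sqrt hδ.le
          calc ‖tb δ a k w‖ * ‖tb δ b k w‖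
              ≤ Ca * Real.sqrt δ * Real.exp (-|δ * k + i * Real.log 2|) *
                (Cb * Real.sqrt δ * Real.exp (-|δ * k + i * Real.log 2|)) := e5
            _ = Ca * Cb * (Real.sqrt δ * Real.sqrt δ) *
                Real.exp (-|δ * k + i * Real.log 2|) *
                  Real.exp (-|δ * k + i * Real.log 2|) := by ring
            _ ≤ Ca * Cb * (Real.sqrt δ * Real.sqrt δ) *
                Real.exp (-|δ * k + i * Real.log 2|) * 1 := by
                  apply mul_le_mul_of_nonneg_left e3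
                  positivity
            _ = _ := by rw [e6]; ring
        have hc : 0 ≤ Ca * Cb * δ := by positivity
        rcases hUSh hw with hi | hi
        · refine le_trans (key j hi) (mul_le_mul_of_nonneg_left ?_ hc)
          linarith [Real.exp_pos (-|δ * k + (j + 1 : ℤ) * Real.log 2|)]
        · refine le_trans (key (j + 1) hi) (mul_le_mul_of_nonneg_left ?_ hc)
          linarith [Real.exp_pos (-|δ * k + j * Real.log 2|)]
    exact ((hd y hyU).differentiableAt (hUo.mem_nhds hyU)).differentiableWithinAt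
  · intro y hy
    obtain ⟨i1, i2⟩ := h1 y hy
    obtain ⟨i3, i4⟩ := h2 y hy
    have j3 : MeasureTheory.Integrable (ph' (a + b) y) := by
      unfold ph'
      exact_mod_cast i3
    have j1 : MeasureTheory.Integrable (ph (a + b) y) := i1
    have hR := hRIE (ph (a + b) y) (ph' (a + b) y) δ hδ
      (fun x => hasDeriv_ph (a + b) (by omega) y x) (cont_ph' (a + b) y) j1 j3
    obtain ⟨r1, r2⟩ := hR
    have e1 : (fun k : ℤ => tb δ a k y * tb δ b k y) =
        fun k : ℤ => 4 * (δ : ℂ) * ph (a + b) y (δ * k) :=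
      funext fun k => tb_mul δ hδ a b k y
    rw [e1]
    refine ⟨r1.mul_left _, ?_⟩
    rw [tsum_mul_left]
    have e2 : ∫ θ : ℝ, ph (a + b) y θ = ((a + b - 1).factorial : ℂ) / 2 ^ (a + b) := i2
    have e3 : mab a b = 4 * ∫ θ : ℝ, ph (a + b) y θ := by
      rw [e2]
      unfold mab
      ring
    rw [e3]
    have e4 : 4 * (δ : ℂ) * ∑' k : ℤ, ph (a + b) y (δ * k) - 4 * ∫ θ : ℝ, ph (a + b) y θ =
        4 * ((δ : ℂ) * ∑' k : ℤ, ph (a + b) y (δ * k) - ∫ θ : ℝ, ph (a + b) y θ) := by ring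
    rw [e4, norm_mul]
    have e5 : ∫ θ : ℝ, ‖ph' (a + b) y θ‖ ≤ C := by
      unfold ph'
      exact_mod_cast i4
    have e6 : ‖(4 : ℂ)‖ = 4 := by norm_num
    rw [e6]
    have e7 := mul_le_mul_of_nonneg_left e5 hδ.le
    linarith

end Pool.Agent.HSD
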