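import Pool.Agent.HSD.Targets4

set_option autoImplicit false

/-!
# BRI: the Gauss equation and Brioschi's formula
-/

namespace Pool.Agent.HSD

open Complex

namespace BRI_

section
variable {F : Type} [NormedAddCommGroup F] [NormedSpace ℝ F]

theorem smooth_d {f : ℂ → F} (hf : ContDiff ℝ ((⊤ : ℕ∞) : WithTop ℕ∞) f) (v : ℂ) :
    ContDiff ℝ ((⊤ : ℕ∞) : WithTop ℕ∞) (fun w => fderiv ℝ f w v) :=
  (hf.fderiv_right (by simp)).clm_apply contDiff_const

theorem diffAt {f : ℂ → F} (hf : ContDiff ℝ ((⊤ : ℕ∞) : WithTop ℕ∞) f) (z : ℂ) :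
    DifferentiableAt ℝ f z := hf.differentiable (by simp) z

theorem second {f : ℂ → F} (hf : ContDiff ℝ ((⊤ : ℕ∞) : WithTop ℕ∞) f) (z u v : ℂ) :
    fderiv ℝ (fun w => fderiv ℝ f w u) z v = fderiv ℝ (fderiv ℝ f) z v u := by
  have h1 : ContDiff ℝ ((⊤ : ℕ∞) : WithTop ℕ∞) (fderiv ℝ f) := hf.fderiv_right (by simp)
  have h2 : DifferentiableAt ℝ (fderiv ℝ f) z := h1.differentiable (by simp) z
  have h3 := fderiv_clm_apply h2 (differentiableAt_const (c := u))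
  rw [h3]
  simp

theorem symm {f : ℂ → F} (hf : ContDiff ℝ ((⊤ : ℕ∞) : WithTop ℕ∞) f) (z u v : ℂ) :
    fderiv ℝ (fun w => fderiv ℝ f w u) z v = fderiv ℝ (fun w => fderiv ℝ f w v) z u := by
  rw [second hf, second hf]
  have h : IsSymmSndFDerivAt ℝ f z := by
    refine hf.contDiffAt.isSymmSndFDerivAt ?_
    rw [minSmoothness_of_isRCLikeNormedField]
    have h2 : ((2 : ℕ∞) : WithTop ℕ∞) ≤ ((⊤ : ℕ∞) : WithTop ℕ∞) := WithTop.coe_le_coe.mpr le_top
    exact h2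
  exact h v u

end

section
variable {E : Type} [NormedAddCommGroup E] [InnerProductSpace ℝ E]

theorem d_inner {f g : ℂ → E} (hf : ContDiff ℝ ((⊤ : ℕ∞) : WithTop ℕ∞) f)
    (hg : ContDiff ℝ ((⊤ : ℕ∞) : WithTop ℕ∞) g) (z v : ℂ) :
    fderiv ℝ (fun w => inner ℝ (f w) (g w)) z v =
      inner ℝ (f z) (fderiv ℝ g z v) + inner ℝ (fderiv ℝ f z v) (g z) :=
  fderiv_inner_apply ℝ (diffAt hf z) (diffAt hg z) v

theorem smooth_inner {f g : ℂ → E} (hf : ContDiff ℝ ((⊤ : ℕ∞) : WithTop ℕ∞) f)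
    (hg : ContDiff ℝ ((⊤ : ℕ∞) : WithTop ℕ∞) g) :
    ContDiff ℝ ((⊤ : ℕ∞) : WithTop ℕ∞) (fun w => inner ℝ (f w) (g w) : ℂ → ℝ) :=
  hf.inner ℝ hg

/-- The second derivative of an inner product. -/
theorem dd_inner {f g : ℂ → E} (hf : ContDiff ℝ ((⊤ : ℕ∞) : WithTop ℕ∞) f)
    (hg : ContDiff ℝ ((⊤ : ℕ∞) : WithTop ℕ∞) g) (z u v : ℂ) :
    fderiv ℝ (fun w => fderiv ℝ (fun t => inner ℝ (f t) (g t)) w u) z v =
      inner ℝ (f z) (fderiv ℝ (fun w => fderiv ℝ g w u) z v) +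
        inner ℝ (fderiv ℝ f z v) (fderiv ℝ g z u) +
      (inner ℝ (fderiv ℝ f z u) (fderiv ℝ g z v) +
        inner ℝ (fderiv ℝ (fun w => fderiv ℝ f w u) z v) (g z)) := by
  have h1 : (fun w => fderiv ℝ (fun t => inner ℝ (f t) (g t)) w u : ℂ → ℝ) =
      fun w => inner ℝ (f w) (fderiv ℝ g w u) + inner ℝ (fderiv ℝ f w u) (g w) := by
    funext w
    exact d_inner hf hg w u
  rw [h1]
  have h2 := diffAt (smooth_inner hf (smooth_d hg u)) z
  have h3 := diffAt (smooth_inner (smooth_d hf u) hg) z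
  have h4 : fderiv ℝ (fun w => inner ℝ (f w) (fderiv ℝ g w u) +
      inner ℝ (fderiv ℝ f w u) (g w) : ℂ → ℝ) z = _ := fderiv_add h2 h3
  rw [h4, add_apply, d_inner hf (smooth_d hg u), d_inner (smooth_d hf u) hg]

end

end BRI_

open BRI_

theorem p_BRI : T_BRI := by
  intro E _ _ f hf z a1 a2 b1 b2 c1 c2 n11 n12 n22 hD h11 h12 h22 p1 p2 p3 p4 p5 p6
  have s1 := smooth_d hf (1 : ℂ)
  have s2 := smooth_d hf I
  have s11 := smooth_d s1 (1 : ℂ)
  have s12 := smooth_d s1 I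
  have s22 := smooth_d s2 I
  have hsy : ∀ w, fderiv ℝ (fun t => fderiv ℝ f t I) w 1 = fderiv ℝ (fun t => fderiv ℝ f t 1) w I :=
    fun w => symm hf w I 1
  -- first derivatives
  have eE : gE f = fun w => inner ℝ (fderiv ℝ f w 1) (fderiv ℝ f w 1) := rfl
  have eF : gF f = fun w => inner ℝ (fderiv ℝ f w 1) (fderiv ℝ f w I) := rfl
  have eG : gG f = fun w => inner ℝ (fderiv ℝ f w I) (fderiv ℝ f w I) := rfl
  have dE1 : d1 (gE f) z =
      2 * inner ℝ (fderiv ℝ f z 1) (fderiv ℝ (fun w => fderiv ℝ f w 1) z 1) := by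
    unfold d1
    rw [eE, d_inner s1 s1, real_inner_comm]
    ring
  have dE2 : d2 (gE f) z =
      2 * inner ℝ (fderiv ℝ f z 1) (fderiv ℝ (fun w => fderiv ℝ f w 1) z I) := by
    unfold d2
    rw [eE, d_inner s1 s1, real_inner_comm]
    ring
  have dF1 : d1 (gF f) z = inner ℝ (fderiv ℝ f z 1) (fderiv ℝ (fun w => fderiv ℝ f w 1) z I) +
      inner ℝ (fderiv ℝ f z I) (fderiv ℝ (fun w => fderiv ℝ f w 1) z 1) := by
    unfold d1
    rw [eF, d_inner s1 s2, hsy, real_inner_comm (fderiv ℝ f z I)]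
  have dF2 : d2 (gF f) z = inner ℝ (fderiv ℝ f z 1) (fderiv ℝ (fun w => fderiv ℝ f w I) z I) +
      inner ℝ (fderiv ℝ f z I) (fderiv ℝ (fun w => fderiv ℝ f w 1) z I) := by
    unfold d2
    rw [eF, d_inner s1 s2, real_inner_comm (fderiv ℝ f z I)]
  have dG1 : d1 (gG f) z =
      2 * inner ℝ (fderiv ℝ f z I) (fderiv ℝ (fun w => fderiv ℝ f w 1) z I) := by
    unfold d1
    rw [eG, d_inner s2 s2, hsy, real_inner_comm]
    ring
  have dG2 : d2 (gG f) z =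
      2 * inner ℝ (fderiv ℝ f z I) (fderiv ℝ (fun w => fderiv ℝ f w I) z I) := by
    unfold d2
    rw [eG, d_inner s2 s2, real_inner_comm]
    ring
  -- second derivatives
  have ddE : d2 (d2 (gE f)) z =
      2 * inner ℝ (fderiv ℝ f z 1)
        (fderiv ℝ (fun w => fderiv ℝ (fun t => fderiv ℝ f t 1) w I) z I) +
      2 * inner ℝ (fderiv ℝ (fun w => fderiv ℝ f w 1) z I)
        (fderiv ℝ (fun w => fderiv ℝ f w 1) z I) := by
    have : d2 (d2 (gE f)) z = fderiv ℝ (fun w => fderiv ℝ (gE f) w I) z I := rfl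
    rw [this, eE, dd_inner s1 s1, real_inner_comm _ (fderiv ℝ f z 1)]
    ring
  have ddF : d1 (d2 (gF f)) z =
      inner ℝ (fderiv ℝ f z 1) (fderiv ℝ (fun w => fderiv ℝ (fun t => fderiv ℝ f t I) w I) z 1) +
      inner ℝ (fderiv ℝ (fun w => fderiv ℝ f w 1) z 1) (fderiv ℝ (fun w => fderiv ℝ f w I) z I) +
      (inner ℝ (fderiv ℝ (fun w => fderiv ℝ f w 1) z I) (fderiv ℝ (fun w => fderiv ℝ f w 1) z I) +
      inner ℝ (fderiv ℝ f z I)
        (fderiv ℝ (fun w => fderiv ℝ (fun t => fderiv ℝ f t 1) w I) z 1)) := by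
    have : d1 (d2 (gF f)) z = fderiv ℝ (fun w => fderiv ℝ (gF f) w I) z 1 := rfl
    rw [this, eF, dd_inner s1 s2, hsy, real_inner_comm (fderiv ℝ f z I)]
  have ddG : d1 (d1 (gG f)) z =
      2 * inner ℝ (fderiv ℝ f z I)
        (fderiv ℝ (fun w => fderiv ℝ (fun t => fderiv ℝ f t 1) w I) z 1) +
      2 * inner ℝ (fderiv ℝ (fun w => fderiv ℝ f w 1) z I)
        (fderiv ℝ (fun w => fderiv ℝ f w 1) z I) := by
    have : d1 (d1 (gG f)) z = fderiv ℝ (fun w => fderiv ℝ (gG f) w 1) z 1 := rfl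
    have hfun : (fun w => fderiv ℝ (fun t => fderiv ℝ f t I) w 1) =
        fun w => fderiv ℝ (fun t => fderiv ℝ f t 1) w I := funext hsy
    rw [this, eG, dd_inner s2 s2, hfun, hsy, real_inner_comm _ (fderiv ℝ f z I)]
    ring
  have third : fderiv ℝ (fun w => fderiv ℝ (fun t => fderiv ℝ f t I) w I) z 1 =
      fderiv ℝ (fun w => fderiv ℝ (fun t => fderiv ℝ f t 1) w I) z I := by
    have hfun : (fun w => fderiv ℝ (fun t => fderiv ℝ f t I) w 1) =
        fun w => fderiv ℝ (fun t => fderiv ℝ f t 1) w I := funext hsy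
    rw [symm s2 z I 1, hfun]
  have key : -(1 / 2) * d2 (d2 (gE f)) z + d1 (d2 (gF f)) z - 1 / 2 * d1 (d1 (gG f)) z =
      inner ℝ (fderiv ℝ (fun w => fderiv ℝ f w 1) z 1) (fderiv ℝ (fun w => fderiv ℝ f w I) z I) -
      inner ℝ (fderiv ℝ (fun w => fderiv ℝ f w 1) z I)
        (fderiv ℝ (fun w => fderiv ℝ f w 1) z I) := by
    rw [ddE, ddF, ddG, third]
    ring
  unfold brio
  rw [key, dE1, dE2, dF1, dF2, dG1, dG2, h11, h12, h22, Matrix.det_fin_three, Matrix.det_fin_three]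
  simp only [Matrix.of_apply, Matrix.cons_val', Matrix.cons_val_zero, Matrix.cons_val_one,
    Matrix.cons_val, inner_add_left, inner_add_right, inner_smul_left, inner_smul_right,
    RCLike.conj_to_real]
  have g1 : inner ℝ (fderiv ℝ f z 1) (fderiv ℝ f z 1) = gE f z := rfl
  have g2 : inner ℝ (fderiv ℝ f z 1) (fderiv ℝ f z I) = gF f z := rfl
  have g3 : inner ℝ (fderiv ℝ f z I) (fderiv ℝ f z I) = gG f z := rfl
  have g4 : inner ℝ (fderiv ℝ f z I) (fderiv ℝ f z 1) = gF f z := by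
    rw [real_inner_comm]; rfl
  have q1 : inner ℝ n11 (fderiv ℝ f z 1) = 0 := by rw [real_inner_comm]; exact p1
  have q2 : inner ℝ n11 (fderiv ℝ f z I) = 0 := by rw [real_inner_comm]; exact p2
  have q3 : inner ℝ n12 (fderiv ℝ f z 1) = 0 := by rw [real_inner_comm]; exact p3
  have q4 : inner ℝ n12 (fderiv ℝ f z I) = 0 := by rw [real_inner_comm]; exact p4
  have q5 : inner ℝ n22 (fderiv ℝ f z 1) = 0 := by rw [real_inner_comm]; exact p5
  have q6 : inner ℝ n22 (fderiv ℝ f z I) = 0 := by rw [real_inner_comm]; exact p6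
  rw [g1, g2, g3, g4, p1, p2, p3, p4, p5, p6, q1, q2, q3, q4]
  rw [div_eq_div_iff (pow_ne_zero 2 hD) hD]
  ring

end Pool.Agent.HSD
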