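import Pool.Agent.HSD.Targets3

/-!
# Project HSD: geometric sums
-/

set_option autoImplicit false

namespace Pool.Agent.HSD

namespace BSG_

theorem up (h c : ℝ) (hh : 0 < h) (n : ℕ) :
    Real.exp (-|h * ((⌈-c / h⌉ + (n : ℤ) : ℤ) : ℝ) + c|) ≤ Real.exp (-h) ^ n := by
  have h1 : -c / h ≤ (⌈-c / h⌉ : ℝ) := Int.le_ceil _
  have h2 : -c ≤ h * (⌈-c / h⌉ : ℝ) := by
    rw [div_le_iff₀ hh] at h1
    linarith
  have h3 : h * n ≤ h * ((⌈-c / h⌉ + (n : ℤ) : ℤ) : ℝ) + c := by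
    push_cast
    nlinarith
  have h4 : (0 : ℝ) ≤ h * n := by positivity
  rw [abs_of_nonneg (h4.trans h3), ← Real.exp_nat_mul, Real.exp_le_exp]
  linarith

theorem down (h c : ℝ) (hh : 0 < h) (n : ℕ) :
    Real.exp (-|h * ((⌈-c / h⌉ + (-((n : ℤ) + 1)) : ℤ) : ℝ) + c|) ≤ Real.exp (-h) ^ n := by
  have h1 : (⌈-c / h⌉ : ℝ) < -c / h + 1 := Int.ceil_lt_add_one _
  have h2 : h * (⌈-c / h⌉ : ℝ) < -c + h := by
    have h5 : h * (⌈-c / h⌉ : ℝ) < h * (-c / h + 1) := mul_lt_mul_of_pos_left h1 hh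
    have h6 : h * (-c / h + 1) = -c + h := by
      field_simp
    linarith
  have h3 : h * ((⌈-c / h⌉ + (-((n : ℤ) + 1)) : ℤ) : ℝ) + c ≤ -(h * n) := by
    push_cast
    nlinarith
  have h4 : (0 : ℝ) ≤ h * n := by positivity
  rw [abs_of_nonpos (by linarith), ← Real.exp_nat_mul, Real.exp_le_exp]
  linarith

end BSG_

open BSG_ in
/-- BSG. -/
theorem p_BSG : T_BSG := by
  intro h c hh
  have hr0 : 0 ≤ Real.exp (-h) := (Real.exp_pos _).le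
  have hr1 : Real.exp (-h) < 1 := by
    rw [Real.exp_lt_one_iff]
    linarith
  have hgeo := hasSum_geometric_of_lt_one hr0 hr1
  have s1 : Summable (fun n : ℕ =>
      Real.exp (-|h * ((⌈-c / h⌉ + (n : ℤ) : ℤ) : ℝ) + c|)) :=
    Summable.of_nonneg_of_le (fun _ => (Real.exp_pos _).le) (up h c hh) hgeo.summable
  have s2 : Summable (fun n : ℕ =>
      Real.exp (-|h * ((⌈-c / h⌉ + (-((n : ℤ) + 1)) : ℤ) : ℝ) + c|)) :=
    Summable.of_nonneg_of_le (fun _ => (Real.exp_pos _).le) (down h c hh) hgeo.summable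
  have t1 := (s1.tsum_le_tsum (up h c hh) hgeo.summable).trans hgeo.tsum_eq.le
  have t2 := (s2.tsum_le_tsum (down h c hh) hgeo.summable).trans hgeo.tsum_eq.le
  have key : HasSum (fun k : ℤ => Real.exp (-|h * ((⌈-c / h⌉ + k : ℤ) : ℝ) + c|))
      ((∑' n : ℕ, Real.exp (-|h * ((⌈-c / h⌉ + (n : ℤ) : ℤ) : ℝ) + c|)) +
        ∑' n : ℕ, Real.exp (-|h * ((⌈-c / h⌉ + (-((n : ℤ) + 1)) : ℤ) : ℝ) + c|)) :=
    HasSum.of_nat_of_neg_add_one (f := fun k : ℤ =>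
      Real.exp (-|h * ((⌈-c / h⌉ + k : ℤ) : ℝ) + c|)) s1.hasSum s2.hasSum
  have key2 : HasSum (fun k : ℤ => Real.exp (-|h * k + c|))
      ((∑' n : ℕ, Real.exp (-|h * ((⌈-c / h⌉ + (n : ℤ) : ℤ) : ℝ) + c|)) +
        ∑' n : ℕ, Real.exp (-|h * ((⌈-c / h⌉ + (-((n : ℤ) + 1)) : ℤ) : ℝ) + c|)) := by
    have h7 := (Equiv.addLeft ⌈-c / h⌉).hasSum_iff (f := fun k : ℤ =>
      Real.exp (-|h * (k : ℝ) + c|)) (a := (∑' n : ℕ,
        Real.exp (-|h * ((⌈-c / h⌉ + (n : ℤ) : ℤ) : ℝ) + c|)) +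
        ∑' n : ℕ, Real.exp (-|h * ((⌈-c / h⌉ + (-((n : ℤ) + 1)) : ℤ) : ℝ) + c|))
    exact h7.1 key
  refine ⟨key2.summable, ?_⟩
  rw [key2.tsum_eq]
  have h8 : 2 / (1 - Real.exp (-h)) = (1 - Real.exp (-h))⁻¹ + (1 - Real.exp (-h))⁻¹ := by
    rw [div_eq_mul_inv]
    ring
  rw [h8]
  exact add_le_add t1 t2

end Pool.Agent.HSD
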