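import Pool.Agent.HSD.Targets3

/-!
# Project HSD: the square sum, `T_BSQ`
-/

set_option autoImplicit false

namespace Pool.Agent.HSD

namespace BSQ_

/-- The elementary bound for the geometric sums with step at least one. -/
theorem geo_le_four (h : ℝ) (hh : 1 ≤ h) : 2 / (1 - Real.exp (-h)) ≤ 4 := by
  have h1 : Real.exp (-h) ≤ 1 / 2 := by
    have h2 : Real.exp (-h) ≤ Real.exp (-1) := Real.exp_le_exp.mpr (by linarith)
    have h3 : (2 : ℝ) ≤ Real.exp 1 := by
      have := Real.add_one_le_exp (1 : ℝ)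
      linarith
    have h4 : Real.exp (-1 : ℝ) ≤ 1 / 2 := by
      rw [Real.exp_neg, ← one_div]
      exact one_div_le_one_div_of_le (by norm_num) h3
    linarith
  rw [div_le_iff₀ (by linarith)]
  linarith

/-- The elementary bound for the geometric sum with a small step. -/
theorem geo_small (d : ℝ) (hd : 0 < d) (hd1 : d ≤ 1) :
    d * (2 / (1 - Real.exp (-d))) ≤ 4 := by
  have h1 : Real.exp (-d) ≤ 1 / (1 + d) := by
    rw [Real.exp_neg, ← one_div]
    apply one_div_le_one_div_of_le (by linarith)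
    have := Real.add_one_le_exp d
    linarith
  have h2 : d / (1 + d) ≤ 1 - Real.exp (-d) := by
    have h3 : d / (1 + d) = 1 - 1 / (1 + d) := by
      field_simp
      ring
    linarith
  have h0 : 0 < d / (1 + d) := by positivity
  have h4 : 0 < 1 - Real.exp (-d) := lt_of_lt_of_le h0 h2
  rw [← mul_div_assoc, div_le_iff₀ h4]
  have h5 : d ≤ 2 * (d / (1 + d)) := by
    rw [← mul_div_assoc, le_div_iff₀ (by linarith)]
    nlinarith
  linarith

/-- Reindexing of a sum over the integers by residues. -/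
theorem sum_residues (m : ℕ) (hm : m ≠ 0) (f : ℤ → ℝ) (hf : Summable f) :
    ∑ r : Fin m, ∑' i : ℤ, f ((r : ℕ) + m * i) = ∑' k : ℤ, f k := by
  have : NeZero m := ⟨hm⟩
  let e : Fin m × ℤ ≃ ℤ := (Equiv.prodComm _ _).trans (Int.divModEquiv m).symm
  have he : ∀ p : Fin m × ℤ, e p = ((p.1 : ℕ) : ℤ) + m * p.2 := by
    intro p
    have : e p = p.2 * m + ((p.1 : ℕ) : ℤ) := by
      simp [e, Int.divModEquiv]
    rw [this]
    ring
  have hs : Summable (fun p : Fin m × ℤ => f (e p)) := e.summable_iff.mpr hf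
  rw [← e.tsum_eq f, hs.tsum_prod, tsum_fintype]
  simp only [he]

end BSQ_

/-- The square sum. -/
theorem p_BSQ (hBSG : T_BSG) : T_BSQ := by
  intro δ c m hδ hδ1 hm
  have hm0 : m ≠ 0 := by
    rintro rfl
    norm_num at hm
  set f : ℤ → ℝ := fun k => Real.exp (-|δ * k + c|) with hf
  obtain ⟨hfs, hft⟩ := hBSG δ c hδ
  have hf0 : ∀ k, 0 ≤ f k := fun k => (Real.exp_pos _).le
  have hrow : ∀ r : Fin m, Summable (fun i : ℤ => f ((r : ℕ) + m * i)) ∧
      ∑' i : ℤ, f ((r : ℕ) + m * i) ≤ 4 := by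
    intro r
    obtain ⟨h1, h2⟩ := hBSG (δ * m) (δ * (r : ℕ) + c) (by linarith)
    have h3 : (fun i : ℤ => f ((r : ℕ) + m * i)) =
        fun i : ℤ => Real.exp (-|δ * m * i + (δ * (r : ℕ) + c)|) := by
      funext i
      simp only [hf]
      congr 3
      push_cast
      ring
    rw [h3]
    exact ⟨h1, h2.trans (BSQ_.geo_le_four _ hm)⟩
  have hS0 : ∀ r : Fin m, 0 ≤ ∑' i : ℤ, f ((r : ℕ) + m * i) :=
    fun r => tsum_nonneg fun i => hf0 _
  have hterm : ∀ r : Fin m, (∑' i : ℤ,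
      ENNReal.ofReal (Real.sqrt δ * Real.exp (-|δ * ((r : ℕ) + m * i : ℤ) + c|))) ^ 2 =
        ENNReal.ofReal (δ * (∑' i : ℤ, f ((r : ℕ) + m * i)) ^ 2) := by
    intro r
    have h1 : (∑' i : ℤ,
        ENNReal.ofReal (Real.sqrt δ * Real.exp (-|δ * ((r : ℕ) + m * i : ℤ) + c|))) =
          ENNReal.ofReal (∑' i : ℤ, Real.sqrt δ * f ((r : ℕ) + m * i)) := by
      rw [ENNReal.ofReal_tsum_of_nonneg]
      · intro i
        exact mul_nonneg (Real.sqrt_nonneg _) (hf0 _)
      · exact (hrow r).1.mul_left _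
    rw [h1, tsum_mul_left, ← ENNReal.ofReal_pow (mul_nonneg (Real.sqrt_nonneg _) (hS0 r)),
      mul_pow, Real.sq_sqrt hδ.le]
  rw [Finset.sum_congr rfl fun r _ => hterm r, ← ENNReal.ofReal_sum_of_nonneg
    (fun r _ => mul_nonneg hδ.le (sq_nonneg _))]
  apply ENNReal.ofReal_le_ofReal
  calc ∑ r : Fin m, δ * (∑' i : ℤ, f ((r : ℕ) + m * i)) ^ 2
      ≤ ∑ r : Fin m, 4 * δ * ∑' i : ℤ, f ((r : ℕ) + m * i) := by
        apply Finset.sum_le_sum
        intro r _
        have h1 := (hrow r).2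
        have h2 := hS0 r
        have h3 : (∑' i : ℤ, f ((r : ℕ) + m * i)) ^ 2 ≤
            4 * ∑' i : ℤ, f ((r : ℕ) + m * i) := by nlinarith
        calc δ * (∑' i : ℤ, f ((r : ℕ) + m * i)) ^ 2
            ≤ δ * (4 * ∑' i : ℤ, f ((r : ℕ) + m * i)) :=
              mul_le_mul_of_nonneg_left h3 hδ.le
          _ = 4 * δ * ∑' i : ℤ, f ((r : ℕ) + m * i) := by ring
    _ = 4 * δ * ∑' k : ℤ, f k := by
        rw [← Finset.mul_sum, BSQ_.sum_residues m hm0 f hfs]
    _ ≤ 4 * δ * (2 / (1 - Real.exp (-δ))) :=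
        mul_le_mul_of_nonneg_left hft (by linarith)
    _ = 4 * (δ * (2 / (1 - Real.exp (-δ)))) := by ring
    _ ≤ 4 * 4 := mul_le_mul_of_nonneg_left (BSQ_.geo_small δ hδ hδ1) (by norm_num)
    _ = 16 := by norm_num

end Pool.Agent.HSD
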