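import Pool.Agent.HSD.Targets3

/-!
# Project HSD: the vectors `E_a` (BVE)
-/

set_option autoImplicit false

namespace Pool.Agent.HSD

open Complex

namespace BVE_

theorem diff_tb (δ : ℝ) (a : ℕ) (k : ℤ) : DifferentiableOn ℂ (tb δ a k) sec := by
  unfold tb
  fun_prop

theorem inj_xi (δ : ℝ) (m : ℕ) (r : ℕ) (hδ : 0 < δ) (hm : 0 < m) :
    Function.Injective (fun i : ℤ => xi δ ((r : ℤ) + m * i)) := by
  intro i j h
  simp only [xi] at h
  have h1 : δ * (((r : ℤ) + m * i : ℤ) : ℝ) = δ * (((r : ℤ) + m * j : ℤ) : ℝ) :=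
    Real.exp_injective h
  have h2 : (((r : ℤ) + m * i : ℤ) : ℝ) = (((r : ℤ) + m * j : ℤ) : ℝ) :=
    mul_left_cancel₀ hδ.ne' h1
  have h3 : (r : ℤ) + m * i = (r : ℤ) + m * j := by exact_mod_cast h2
  have h4 : (m : ℤ) * i = m * j := by linarith
  exact mul_left_cancel₀ (by exact_mod_cast hm.ne') h4

end BVE_

open BVE_

theorem p_BVE (hINJ : T_INJ) (hBNB : T_BNB) (_hBSG : T_BSG) (hBSQ : T_BSQ) (hLSF : T_LSF)
    (hCDN : T_CDN) : T_BVE := by
  intro a ha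
  obtain ⟨C0, hC0, hb⟩ := hBNB a ha
  refine ⟨4 * C0 + 1, by linarith, ?_⟩
  intro δ m hδ hδ1 hm
  have hm0 : 0 < m := by
    rcases Nat.eq_zero_or_pos m with h | h
    · subst h
      norm_num at hm
    · exact h
  -- the sums of the bounds
  let S : Fin m → ℤ → ENNReal := fun r j => ∑' i : ℤ, ENNReal.ofReal (Real.sqrt δ *
    Real.exp (-|δ * ((r : ℕ) + m * i : ℤ) + j * Real.log 2|))
  have hS : ∀ j : ℤ, ∑ r : Fin m, (S r j) ^ 2 ≤ ENNReal.ofReal 16 := fun j =>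
    hBSQ δ (j * Real.log 2) m hδ hδ1 hm
  have hSr : ∀ (r : Fin m) (j : ℤ), S r j ≠ ⊤ := by
    intro r j h
    have h1 : (S r j) ^ 2 ≤ ∑ r : Fin m, (S r j) ^ 2 :=
      Finset.single_le_sum (f := fun r => (S r j) ^ 2) (fun _ _ => bot_le) (Finset.mem_univ r)
    have h2 := le_trans h1 (hS j)
    rw [h, ENNReal.top_pow (by norm_num)] at h2
    exact ENNReal.ofReal_ne_top (top_le_iff.1 h2)
  have hsum : ∀ (r : Fin m) (j : ℤ),
      ∑' i : ℤ, sj (xi δ ((r : ℕ) + m * i)) (tb δ a ((r : ℕ) + m * i)) j ≤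
        ENNReal.ofReal C0 * S r j := by
    intro r j
    rw [← ENNReal.tsum_mul_left]
    refine ENNReal.tsum_le_tsum fun i => ?_
    rw [← ENNReal.ofReal_mul hC0]
    refine le_trans (hb δ _ j) (le_of_eq ?_)
    congr 1
    ring
  have hfam : ∀ r : Fin m, ∃ b : ℝ → ℂ → ℂ, Fam b ∧ (∀ j, NN b j ≤ ENNReal.ofReal C0 * S r j) ∧
      ∀ p : ℝ × ℝ, Eb δ m a r p = Ff b p := by
    intro r
    obtain ⟨b, h1, h2, h3, _⟩ := hINJ ℤ (fun i => tb δ a ((r : ℕ) + m * i))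
      (fun i => xi δ ((r : ℕ) + m * i)) (inj_xi δ m r hδ hm0) (fun i => diff_tb δ a _)
      (fun j => by
        refine ne_top_of_le_ne_top ?_ (hsum r j)
        exact ENNReal.mul_ne_top ENNReal.ofReal_ne_top (hSr r j))
    exact ⟨b, h1, fun j => le_trans (h2 j) (hsum r j), fun p => (h3 p).symm⟩
  choose b hb1 hb2 hb3 using hfam
  refine ⟨fun r => ?_, fun E hE => ?_⟩
  · rw [mem_RR]
    have h1 : Eb δ m a r = Ff (b r) := funext (hb3 r)
    rw [h1]
    exact (hCDN (b r) (hLSF (b r) (hb1 r))).1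
  · refine ⟨by linarith, b, fun r => ⟨hb1 r, fun p => ?_⟩, fun j => ?_⟩
    · rw [hE r]
      exact hb3 r p
    · calc ∑ r, (NN (b r) j) ^ 2 ≤ ∑ r, (ENNReal.ofReal C0 * S r j) ^ 2 :=
            Finset.sum_le_sum fun r _ => pow_le_pow_left' (hb2 r j) 2
        _ = ENNReal.ofReal C0 ^ 2 * ∑ r, (S r j) ^ 2 := by
            rw [Finset.mul_sum]
            exact Finset.sum_congr rfl fun r _ => mul_pow _ _ _
        _ ≤ ENNReal.ofReal C0 ^ 2 * ENNReal.ofReal 16 := mul_le_mul_right (hS j) _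
        _ = ENNReal.ofReal (C0 ^ 2 * 16) := by
            rw [← ENNReal.ofReal_pow hC0, ← ENNReal.ofReal_mul (by positivity)]
        _ ≤ ENNReal.ofReal ((4 * C0 + 1) ^ 2) := by
            apply ENNReal.ofReal_le_ofReal
            nlinarith

end Pool.Agent.HSD
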