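import Pool.Agent.HSD.Targets2

/-!
# Project HSD, target CD1: termwise differentiation
-/

set_option autoImplicit false

namespace Pool.Agent.HSD

open Complex

namespace CD1_

/-- A summable bound on a compact set. -/
theorem bnd (b : ℝ → ℂ → ℂ) (hb : LSm b) (K : Set ℂ) (hK : K ⊆ sec) (hKc : IsCompact K) :
    ∃ u : ℝ → ℝ, Summable u ∧ ∀ τ, ∀ y ∈ K, ‖b τ y‖ ≤ u τ := by
  obtain ⟨θ, hθ, hfin⟩ := hb.fin K hK hKc
  refine ⟨fun τ => (⨆ y ∈ K, ENNReal.ofReal (Real.exp (θ * |τ|) * ‖b τ y‖)).toReal,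
    ENNReal.summable_toReal hfin, ?_⟩
  intro τ y hy
  have h1 : (⨆ y ∈ K, ENNReal.ofReal (Real.exp (θ * |τ|) * ‖b τ y‖)) ≠ ⊤ :=
    ENNReal.ne_top_of_tsum_ne_top hfin τ
  have h2 : ENNReal.ofReal (Real.exp (θ * |τ|) * ‖b τ y‖) ≤
      ⨆ y ∈ K, ENNReal.ofReal (Real.exp (θ * |τ|) * ‖b τ y‖) :=
    le_iSup₂ (f := fun y (_ : y ∈ K) => ENNReal.ofReal (Real.exp (θ * |τ|) * ‖b τ y‖)) y hy
  have h3 : Real.exp (θ * |τ|) * ‖b τ y‖ ≤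
      (⨆ y ∈ K, ENNReal.ofReal (Real.exp (θ * |τ|) * ‖b τ y‖)).toReal :=
    (ENNReal.ofReal_le_iff_le_toReal h1).1 h2
  have h4 : 1 ≤ Real.exp (θ * |τ|) :=
    Real.one_le_exp (mul_nonneg hθ.le (abs_nonneg _))
  have h5 : ‖b τ y‖ ≤ Real.exp (θ * |τ|) * ‖b τ y‖ :=
    le_mul_of_one_le_left (norm_nonneg _) h4
  exact h5.trans h3

theorem norm_e (τ x : ℝ) : ‖exp (I * (τ : ℂ) * (x : ℂ))‖ = 1 := by
  rw [Complex.norm_exp]
  simp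

/-- The term. -/
noncomputable def tm (a : ℝ → ℂ → ℂ) (τ : ℝ) (q : ℝ × ℝ) : ℂ :=
  a τ (Real.exp q.2 : ℂ) * exp (I * (τ : ℂ) * (q.1 : ℂ))

/-- The derivative of the term. -/
noncomputable def tm' (a : ℝ → ℂ → ℂ) (τ : ℝ) (q : ℝ × ℝ) : ℝ × ℝ →L[ℝ] ℂ :=
  (I * (τ : ℂ) * a τ (Real.exp q.2 : ℂ) * exp (I * (τ : ℂ) * (q.1 : ℂ))) •
      (ofRealCLM.comp (ContinuousLinearMap.fst ℝ ℝ ℝ)) +
    ((Real.exp q.2 : ℂ) * deriv (a τ) (Real.exp q.2 : ℂ) * exp (I * (τ : ℂ) * (q.1 : ℂ))) •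
      (ofRealCLM.comp (ContinuousLinearMap.snd ℝ ℝ ℝ))

theorem tm'_x (a : ℝ → ℂ → ℂ) (τ : ℝ) (q : ℝ × ℝ) : tm' a τ q (1, 0) =
    I * (τ : ℂ) * a τ (Real.exp q.2 : ℂ) * exp (I * (τ : ℂ) * (q.1 : ℂ)) := by
  simp [tm']

theorem tm'_s (a : ℝ → ℂ → ℂ) (τ : ℝ) (q : ℝ × ℝ) : tm' a τ q (0, 1) =
    (Real.exp q.2 : ℂ) * deriv (a τ) (Real.exp q.2 : ℂ) *
      exp (I * (τ : ℂ) * (q.1 : ℂ)) := by
  simp [tm']

theorem norm_tm' (a : ℝ → ℂ → ℂ) (τ : ℝ) (q : ℝ × ℝ) : ‖tm' a τ q‖ ≤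
    ‖I * (τ : ℂ) * a τ (Real.exp q.2 : ℂ)‖ +
      ‖(Real.exp q.2 : ℂ) * deriv (a τ) (Real.exp q.2 : ℂ)‖ := by
  apply ContinuousLinearMap.opNorm_le_bound _ (add_nonneg (norm_nonneg _) (norm_nonneg _))
  intro v
  have h1 : tm' a τ q v =
      I * (τ : ℂ) * a τ (Real.exp q.2 : ℂ) * exp (I * (τ : ℂ) * (q.1 : ℂ)) * (v.1 : ℂ) +
      (Real.exp q.2 : ℂ) * deriv (a τ) (Real.exp q.2 : ℂ) *
        exp (I * (τ : ℂ) * (q.1 : ℂ)) * (v.2 : ℂ) := by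
    simp [tm']
  rw [h1]
  refine (norm_add_le _ _).trans ?_
  rw [norm_mul, norm_mul (I * (τ : ℂ) * a τ (Real.exp q.2 : ℂ)), norm_e, mul_one,
    norm_mul ((Real.exp q.2 : ℂ) * deriv (a τ) (Real.exp q.2 : ℂ) *
        exp (I * (τ : ℂ) * (q.1 : ℂ))),
    norm_mul ((Real.exp q.2 : ℂ) * deriv (a τ) (Real.exp q.2 : ℂ)), norm_e, mul_one, add_mul]
  have h2 : ‖(v.1 : ℂ)‖ ≤ ‖v‖ := by
    rw [Complex.norm_real]
    exact norm_fst_le v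
  have h3 : ‖(v.2 : ℂ)‖ ≤ ‖v‖ := by
    rw [Complex.norm_real]
    exact norm_snd_le v
  exact add_le_add (mul_le_mul_of_nonneg_left h2 (norm_nonneg _))
    (mul_le_mul_of_nonneg_left h3 (norm_nonneg _))

theorem has_tm (a : ℝ → ℂ → ℂ) (τ : ℝ) (q : ℝ × ℝ)
    (h : DifferentiableAt ℂ (a τ) (Real.exp q.2 : ℂ)) :
    HasFDerivAt (tm a τ) (tm' a τ q) q := by
  have h1 : HasDerivAt (fun s : ℝ => a τ (Real.exp s : ℂ))
      (deriv (a τ) (Real.exp q.2 : ℂ) * (Real.exp q.2 : ℂ)) q.2 := by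
    have h2 : HasDerivAt (fun z : ℂ => a τ (exp z))
        (deriv (a τ) (exp (q.2 : ℂ)) * exp (q.2 : ℂ)) (q.2 : ℂ) := by
      have h3 : HasDerivAt (a τ) (deriv (a τ) (exp (q.2 : ℂ))) (exp (q.2 : ℂ)) := by
        rw [← Complex.ofReal_exp]
        exact h.hasDerivAt
      exact h3.comp (q.2 : ℂ) (Complex.hasDerivAt_exp _)
    have h4 := h2.comp_ofReal
    simp only [← Complex.ofReal_exp] at h4
    exact h4
  have h5 : HasDerivAt (fun x : ℝ => exp (I * (τ : ℂ) * (x : ℂ)))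
      (exp (I * (τ : ℂ) * (q.1 : ℂ)) * (I * (τ : ℂ))) q.1 := by
    have h6 : HasDerivAt (fun z : ℂ => exp (I * (τ : ℂ) * z))
        (exp (I * (τ : ℂ) * (q.1 : ℂ)) * (I * (τ : ℂ))) (q.1 : ℂ) := by
      have h7 : HasDerivAt (fun z : ℂ => I * (τ : ℂ) * z) (I * (τ : ℂ)) (q.1 : ℂ) := by
        simpa using (hasDerivAt_id (q.1 : ℂ)).const_mul (I * (τ : ℂ))
      exact h7.cexp
    exact h6.comp_ofReal
  have h8 : HasFDerivAt (fun r : ℝ × ℝ => a τ (Real.exp r.2 : ℂ)) _ q :=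
    h1.hasFDerivAt.comp q hasFDerivAt_snd
  have h9 : HasFDerivAt (fun r : ℝ × ℝ => exp (I * (τ : ℂ) * (r.1 : ℂ))) _ q :=
    h5.hasFDerivAt.comp q hasFDerivAt_fst
  have h10 := h8.mul h9
  refine h10.congr_fderiv ?_
  ext
  · simp [tm']
    ring
  · simp [tm']
    ring

end CD1_

open CD1_

/-- Target CD1. -/
theorem p_CD1 (hLSD : T_LSD) (hSEC : T_SEC) : T_CD1 := by
  intro a ha p
  obtain ⟨hb1, hb2, -, -⟩ := hLSD a ha
  obtain ⟨hopen, -, -, -, -, hreal, -⟩ := hSEC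
  have hexp : ∀ s : ℝ, (Real.exp s : ℂ) ∈ sec := fun s => hreal _ (Real.exp_pos s)
  obtain ⟨K, hKdef⟩ : ∃ K : Set ℂ, K = (fun s : ℝ => (Real.exp s : ℂ)) ''
      Set.Icc (p.2 - 1) (p.2 + 1) := ⟨_, rfl⟩
  have hKc : IsCompact K := by
    rw [hKdef]
    apply isCompact_Icc.image
    exact Complex.continuous_ofReal.comp Real.continuous_exp
  have hKs : K ⊆ sec := by
    rw [hKdef]
    rintro _ ⟨s, -, rfl⟩
    exact hexp s
  have hKm : ∀ s : ℝ, s ∈ Set.Ioo (p.2 - 1) (p.2 + 1) → (Real.exp s : ℂ) ∈ K := by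
    intro s hs
    rw [hKdef]
    exact ⟨s, ⟨hs.1.le, hs.2.le⟩, rfl⟩
  obtain ⟨u0, hu0, hb0⟩ := bnd a ha K hKs hKc
  obtain ⟨u1, hu1, hb1'⟩ := bnd _ hb1 K hKs hKc
  obtain ⟨u2, hu2, hb2'⟩ := bnd _ hb2 K hKs hKc
  obtain ⟨s, hsdef⟩ : ∃ s : Set (ℝ × ℝ), s = Set.univ ×ˢ Set.Ioo (p.2 - 1) (p.2 + 1) :=
    ⟨_, rfl⟩
  have hsm : ∀ q ∈ s, (Real.exp q.2 : ℂ) ∈ K := by
    intro q hq
    rw [hsdef] at hq
    exact hKm q.2 hq.2
  have hps : p ∈ s := by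
    rw [hsdef]
    exact ⟨Set.mem_univ _, by linarith, by linarith⟩
  have hso : IsOpen s := by
    rw [hsdef]
    exact isOpen_univ.prod isOpen_Ioo
  have hsc : IsPreconnected s := by
    rw [hsdef]
    exact (convex_univ.prod (convex_Ioo _ _)).isPreconnected
  have hu : Summable (fun τ => u1 τ + u2 τ) := hu1.add hu2
  have hbd : ∀ τ, ∀ q ∈ s, ‖tm' a τ q‖ ≤ u1 τ + u2 τ := by
    intro τ q hq
    exact (norm_tm' a τ q).trans (add_le_add (hb1' τ _ (hsm q hq)) (hb2' τ _ (hsm q hq)))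
  have hf0 : Summable (fun τ => tm a τ p) := by
    apply Summable.of_norm_bounded hu0
    intro τ
    unfold tm
    rw [norm_mul, norm_e, mul_one]
    exact hb0 τ _ (hsm p hps)
  have hder : HasFDerivAt (fun q => ∑' τ, tm a τ q) (∑' τ, tm' a τ p) p := by
    refine hasFDerivAt_tsum_of_isPreconnected hu hso hsc ?_ hbd hps hf0 hps
    intro τ q _
    exact has_tm a τ q ((ha.holo τ).differentiableAt (hopen.mem_nhds (hexp q.2)))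
  have hder' : HasFDerivAt (Ff a) (∑' τ, tm' a τ p) p := hder
  have hsum : Summable (fun τ => tm' a τ p) :=
    Summable.of_norm_bounded hu (fun τ => hbd τ p hps)
  have hev : ∀ v : ℝ × ℝ, (∑' τ, tm' a τ p) v = ∑' τ, tm' a τ p v := by
    intro v
    exact ((ContinuousLinearMap.apply ℝ ℂ v).map_tsum hsum)
  refine ⟨hder'.differentiableAt, ?_, ?_⟩
  · unfold px
    rw [hder'.fderiv, hev]
    unfold Ff
    exact tsum_congr fun τ => tm'_x a τ p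
  · unfold ps
    rw [hder'.fderiv, hev]
    unfold Ff
    exact tsum_congr fun τ => tm'_s a τ p

end Pool.Agent.HSD
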