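import Pool.Agent.HSD.Targets2

set_option autoImplicit false

/-!
# Project HSD: smoothness of the sums of locally summable families (target T_CDN)
-/

namespace Pool.Agent.HSD

open Complex

namespace CDN_

theorem mem_sec (s : ℝ) : ((Real.exp s : ℝ) : ℂ) ∈ sec := by
  show |((Real.exp s : ℝ) : ℂ).im| < ((Real.exp s : ℝ) : ℂ).re
  rw [Complex.ofReal_im, Complex.ofReal_re, abs_zero]
  exact Real.exp_pos s

theorem norm_e (τ x : ℝ) : ‖exp (I * (τ : ℂ) * (x : ℂ))‖ = 1 := by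
  have h : I * (τ : ℂ) * (x : ℂ) = ((τ * x : ℝ) : ℂ) * I := by push_cast; ring
  rw [h, Complex.norm_exp_ofReal_mul_I]

theorem summ (a : ℝ → ℂ → ℂ) (ha : LSm a) (p : ℝ × ℝ) :
    Summable (fun τ : ℝ => a τ (Real.exp p.2 : ℂ) * exp (I * (τ : ℂ) * (p.1 : ℂ))) := by
  obtain ⟨θ, hθ, hf⟩ := ha.fin {((Real.exp p.2 : ℝ) : ℂ)}
    (by rw [Set.singleton_subset_iff]; exact mem_sec p.2) isCompact_singleton
  simp only [Set.mem_singleton_iff, iSup_iSup_eq_left] at hf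
  have h1 := ENNReal.summable_toReal hf
  refine Summable.of_norm_bounded h1 fun τ => ?_
  rw [norm_mul, norm_e, mul_one, ENNReal.toReal_ofReal (by positivity)]
  have h2 : (1 : ℝ) ≤ Real.exp (θ * |τ|) := Real.one_le_exp (by positivity)
  nlinarith [norm_nonneg (a τ ((Real.exp p.2 : ℝ) : ℂ))]

theorem fder (hCD1 : T_CD1) (a : ℝ → ℂ → ℂ) (ha : LSm a) :
    fderiv ℝ (Ff a) = fun p =>
      (ContinuousLinearMap.fst ℝ ℝ ℝ).smulRight (Ff (fun τ y => I * (τ : ℂ) * a τ y) p) +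
      (ContinuousLinearMap.snd ℝ ℝ ℝ).smulRight (Ff (fun τ y => y * deriv (a τ) y) p) := by
  funext p
  obtain ⟨_, h2, h3⟩ := hCD1 a ha p
  apply ContinuousLinearMap.ext
  rintro ⟨x, s⟩
  have e : ((x, s) : ℝ × ℝ) = x • ((1, 0) : ℝ × ℝ) + s • ((0, 1) : ℝ × ℝ) := by simp
  rw [e, map_add, map_smul, map_smul, map_add, map_smul, map_smul]
  have e1 : fderiv ℝ (Ff a) p (1, 0) = px (Ff a) p := rfl
  have e2 : fderiv ℝ (Ff a) p (0, 1) = ps (Ff a) p := rfl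
  rw [e1, e2, h2, h3]
  simp

theorem smooth (hCD1 : T_CD1) (hLSD : T_LSD) (n : ℕ) :
    ∀ a : ℝ → ℂ → ℂ, LSm a → ContDiff ℝ (n : WithTop ℕ∞) (Ff a) := by
  induction n with
  | zero =>
    intro a ha
    have h : Differentiable ℝ (Ff a) := fun p => (hCD1 a ha p).1
    exact contDiff_zero.2 h.continuous
  | succ n ih =>
    intro a ha
    have h : Differentiable ℝ (Ff a) := fun p => (hCD1 a ha p).1
    have e : ((n + 1 : ℕ) : WithTop ℕ∞) = (n : WithTop ℕ∞) + 1 := by push_cast; rfl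
    rw [e, contDiff_succ_iff_fderiv]
    refine ⟨h, ?_, ?_⟩
    · intro hw
      exact absurd hw (by simp)
    · rw [fder hCD1 a ha]
      obtain ⟨h1, h2, _, _⟩ := hLSD a ha
      exact (contDiff_const.smulRight (ih _ h1)).add (contDiff_const.smulRight (ih _ h2))

end CDN_

open CDN_ in
/-- CDN. -/
theorem p_CDN (hCD1 : T_CD1) (hLSD : T_LSD) : T_CDN := by
  intro a ha
  refine ⟨contDiff_infty.2 fun n => smooth hCD1 hLSD n a ha, ?_⟩
  intro σ p
  obtain ⟨_, h2, h3⟩ := hCD1 a ha p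
  obtain ⟨l1, l2, _, _⟩ := hLSD a ha
  unfold dOp
  rw [h2, h3]
  unfold Ff
  have s1 := (summ _ l1 p).mul_left (1 / 2 * ((Real.exp p.2 : ℝ) : ℂ))
  have s2 := (summ _ l2 p).mul_left (1 / 2 * ((σ : ℂ) * I))
  have e : ∀ A B : ℂ, 1 / 2 * (((Real.exp p.2 : ℝ) : ℂ) * A + (σ : ℂ) * I * B) =
      (1 / 2 * ((Real.exp p.2 : ℝ) : ℂ)) * A + (1 / 2 * ((σ : ℂ) * I)) * B := by
    intro A B; ring
  rw [e, ← tsum_mul_left, ← tsum_mul_left, ← s1.tsum_add s2]
  refine tsum_congr fun τ => ?_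
  unfold dfam
  ring

end Pool.Agent.HSD
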