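import Pool.Agent.HSD.Targets2

/-!
# Project HSD: the cut-off function
-/

set_option autoImplicit false

namespace Pool.Agent.HSD

open Complex

namespace CHI_

/-- The function `r ↦ 1 - exp (-2 r z) (1 + 2 r z)` along the ray. -/
theorem deriv_ray (z : ℂ) (r : ℝ) :
    HasDerivAt (fun r : ℝ => 1 - exp (-2 * ((r : ℂ) * z)) * (1 + 2 * ((r : ℂ) * z)))
      (4 * (r : ℂ) * z ^ 2 * exp (-2 * ((r : ℂ) * z))) r := by
  have h0 : HasDerivAt (fun r : ℝ => (r : ℂ) * z) (1 * z) r :=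
    (Complex.ofRealCLM.hasDerivAt (x := r)).mul_const z
  have h1 : HasDerivAt (fun r : ℝ => -2 * ((r : ℂ) * z)) (-2 * (1 * z)) r := h0.const_mul (-2)
  have h2 : HasDerivAt (fun r : ℝ => exp (-2 * ((r : ℂ) * z)))
      (exp (-2 * ((r : ℂ) * z)) * (-2 * (1 * z))) r := h1.cexp
  have h3 : HasDerivAt (fun r : ℝ => 1 + 2 * ((r : ℂ) * z)) (2 * (1 * z)) r :=
    (h0.const_mul 2).const_add 1
  have h4 := (h2.mul h3).const_sub 1
  refine h4.congr_deriv ?_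
  ring

theorem norm_exp_le (z : ℂ) (hz : 0 < z.re) (r : ℝ) (hr : 0 ≤ r) :
    ‖exp (-2 * ((r : ℂ) * z))‖ ≤ 1 := by
  rw [Complex.norm_exp]
  refine Real.exp_le_one_iff.mpr ?_
  have h : (-2 * ((r : ℂ) * z)).re = -(2 * (r * z.re)) := by
    have h' : (-2 * ((r : ℂ) * z)) = ((-2 * r : ℝ) : ℂ) * z := by
      push_cast
      ring
    rw [h', Complex.re_ofReal_mul]
    ring
  rw [h]
  have := mul_nonneg hr hz.le
  linarith

theorem first (z : ℂ) (hz : 0 < z.re) :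
    ‖1 - exp (-2 * z) * (1 + 2 * z)‖ ≤ 2 * ‖z‖ ^ 2 := by
  have key := image_norm_le_of_norm_deriv_right_le_deriv_boundary (a := (0 : ℝ)) (b := 1)
    (f := fun r : ℝ => 1 - exp (-2 * ((r : ℂ) * z)) * (1 + 2 * ((r : ℂ) * z)))
    (f' := fun r : ℝ => 4 * (r : ℂ) * z ^ 2 * exp (-2 * ((r : ℂ) * z)))
    (B := fun r : ℝ => 2 * ‖z‖ ^ 2 * r ^ 2) (B' := fun r : ℝ => 4 * r * ‖z‖ ^ 2)
    (fun r _ => (deriv_ray z r).continuousAt.continuousWithinAt)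
    (fun r _ => (deriv_ray z r).hasDerivWithinAt) (by simp) ?_ ?_
    (x := 1) ⟨zero_le_one, le_refl _⟩
  · simpa using key
  · intro r
    have h := (hasDerivAt_pow 2 r).const_mul (2 * ‖z‖ ^ 2)
    refine h.congr_deriv ?_
    simp only [Nat.cast_ofNat, Nat.add_one_sub_one, pow_one]
    ring
  · intro r hr
    have h1 := norm_exp_le z hz r hr.1
    have h2 : ‖(4 * (r : ℂ) * z ^ 2 : ℂ)‖ = 4 * r * ‖z‖ ^ 2 := by
      rw [norm_mul, norm_mul, norm_pow, Complex.norm_real, Real.norm_of_nonneg hr.1]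
      norm_num
    have h3 : 0 ≤ 4 * r * ‖z‖ ^ 2 := by
      have := hr.1
      positivity
    rw [norm_mul, h2]
    exact mul_le_of_le_one_right h3 h1

theorem second (z : ℂ) (hz : 0 < z.re) (hn : ‖z‖ ≤ 3 / 2 * z.re) :
    ‖1 - exp (-2 * z) * (1 + 2 * z)‖ ≤ 3 := by
  have h1 : ‖exp (-2 * z)‖ = Real.exp (-(2 * z.re)) := by
    rw [Complex.norm_exp]
    congr 1
    have h' : (-2 * z) = ((-2 : ℝ) : ℂ) * z := by
      push_cast
      ring
    rw [h', Complex.re_ofReal_mul]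
    ring
  have h2 : ‖1 + 2 * z‖ ≤ 1 + 3 * z.re := by
    calc ‖1 + 2 * z‖ ≤ ‖(1 : ℂ)‖ + ‖2 * z‖ := norm_add_le _ _
      _ = 1 + 2 * ‖z‖ := by rw [norm_one, norm_mul, Complex.norm_ofNat]
      _ ≤ 1 + 3 * z.re := by linarith
  have h3 : 2 * z.re + 1 ≤ Real.exp (2 * z.re) := Real.add_one_le_exp _
  have h4 : Real.exp (-(2 * z.re)) * (1 + 3 * z.re) ≤ 2 := by
    rw [Real.exp_neg, inv_mul_le_iff₀ (Real.exp_pos _)]
    linarith
  calc ‖1 - exp (-2 * z) * (1 + 2 * z)‖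
      ≤ ‖(1 : ℂ)‖ + ‖exp (-2 * z) * (1 + 2 * z)‖ := norm_sub_le _ _
    _ = 1 + Real.exp (-(2 * z.re)) * ‖1 + 2 * z‖ := by rw [norm_one, norm_mul, h1]
    _ ≤ 1 + Real.exp (-(2 * z.re)) * (1 + 3 * z.re) := by gcongr
    _ ≤ 3 := by linarith

end CHI_

theorem p_CHI : T_CHI := fun z hz hn => ⟨CHI_.first z hz, CHI_.second z hz hn⟩

end Pool.Agent.HSD
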