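import Pool.Agent.HSD.Targets2

/-!
# Project HSD: target CNG
-/

set_option autoImplicit false

namespace Pool.Agent.HSD

open Complex MeasureTheory

namespace CNG_

theorem sh_sub {j : ℤ} {y : ℂ} (h : y ∈ Sh j) : y ∈ sec := h.1

theorem sj_congr {τ : ℝ} {f g : ℂ → ℂ} (h : ∀ y ∈ sec, f y = g y) (j : ℤ) :
    sj τ f j = sj τ g j := by
  unfold sj
  refine iSup_congr fun y => iSup_congr fun hy => ?_
  rw [h y (sh_sub hy)]

theorem NN_congr {a b : ℝ → ℂ → ℂ} (h : ∀ τ, ∀ y ∈ sec, a τ y = b τ y) (j : ℤ) :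
    NN a j = NN b j := by
  unfold NN
  exact tsum_congr fun τ => sj_congr (h τ) j

theorem sol1_congr (hdil : ∀ y ∈ sec, ∀ t : ℝ, 0 < t → (t : ℂ) * y ∈ sec) {f g : ℂ → ℂ}
    (h : ∀ y ∈ sec, f y = g y) (τ : ℝ) {y : ℂ} (hy : y ∈ sec) : sol1 τ f y = sol1 τ g y := by
  have h1 : (∫ t in Set.Ioi (1 : ℝ), y * hM τ f (t * y)) =
      ∫ t in Set.Ioi (1 : ℝ), y * hM τ g (t * y) := by
    refine setIntegral_congr_fun measurableSet_Ioi fun t ht => ?_
    have ht' : (0 : ℝ) < t := lt_trans one_pos ht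
    simp only [hM, h _ (hdil y hy t ht')]
  have h2 : (∫ t in Set.Ioc (0 : ℝ) 1, y * hP τ f (t * y)) =
      ∫ t in Set.Ioc (0 : ℝ) 1, y * hP τ g (t * y) := by
    refine setIntegral_congr_fun measurableSet_Ioc fun t ht => ?_
    simp only [hP, h _ (hdil y hy t ht.1)]
  have h3 : (∫ t in Set.Ioi (1 : ℝ), y * hQ τ f (t * y)) =
      ∫ t in Set.Ioi (1 : ℝ), y * hQ τ g (t * y) := by
    refine setIntegral_congr_fun measurableSet_Ioi fun t ht => ?_
    have ht' : (0 : ℝ) < t := lt_trans one_pos ht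
    simp only [hQ, h _ (hdil y hy t ht')]
  unfold sol1
  rw [h1, h2, h3]

end CNG_

theorem p_CNG (hSEC : T_SEC) : T_CNG := by
  intro a b hab
  obtain ⟨hopen, -, -, hdil, -, hpos, -⟩ := hSEC
  refine ⟨fun ha => ⟨fun τ => ?_, fun j => ?_⟩, CNG_.NN_congr hab, fun p => ?_,
    fun σ τ y hy => ?_, fun τ y hy => ?_⟩
  · exact (ha.holo τ).congr fun y hy => (hab τ y hy).symm
  · rw [← CNG_.NN_congr hab j]
    exact ha.fin j
  · unfold Ff
    refine tsum_congr fun τ => ?_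
    rw [hab τ _ (hpos _ (Real.exp_pos p.2))]
  · have hd : deriv (a τ) y = deriv (b τ) y := by
      refine Filter.EventuallyEq.deriv_eq ?_
      filter_upwards [hopen.mem_nhds hy] with z hz
      exact hab τ z hz
    unfold dfam
    rw [hab τ y hy, hd]
  · exact CNG_.sol1_congr hdil (hab τ) τ hy

end Pool.Agent.HSD
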