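import Pool.Agent.HSD.Targets1

set_option autoImplicit false
set_option linter.unusedSectionVars false

/-!
# Project HSD: the Codazzi equations (COD)
-/

namespace Pool.Agent.HSD

open Complex

namespace COD_

variable {ι R : Type} [Fintype ι] [CommRing R] [StarRing R] [Algebra ℂ R]

/-- `star p = 2 ip (star u) Y` -/
theorem star_pp (u Y : ι → R) : star (pp u Y) = 2 * ip (star u) Y := by
  rw [pp, star_mul', star_ip, star_star, star_ofNat]

/-- Solving the linear system for `α`, `β`. -/
theorem solve {R : Type} [CommRing R] {q p ps W α β i : R} (hi : (q ^ 2 - p * ps) * i = 1)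
    (h1 : α * q + β * ps = -W) (h2 : α * p + β * q = 0) :
    α = -(q * W * i) ∧ β = p * W * i := by
  constructor
  · linear_combination (-α) * hi + q * i * h1 - ps * i * h2
  · linear_combination (-β) * hi - p * i * h1 + q * i * h2

/-- First product: `α q + β p* = -W`. -/
theorem first {CE CS : ℝ} {d : Dat ι R} (ax : Ax CE CS d) {u Y v w : ι → R} {a b α β : R}
    (o1 : ip v (star u) + ip w Y = 0) (o2 : ip v (star Y) + ip w u = 0)
    (hu : dv d.D u = v + a • u + b • Y)
    (hY : dv d.D (star Y) = w + a • star Y + b • star u)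
    (t1 : dv d.Db v = cst R I • v - b • star w + α • u + β • Y)
    (t2 : dv d.Db w = cst R I • w - b • star v + α • star Y + β • star u) :
    α * qq u Y + β * star (pp u Y) = -(ip v (star v) + ip w (star w)) := by
  have e1 : dv d.Db (star u) = star v + star a • star u + star b • star Y := by
    rw [ax.dvDb_star, hu, star_add, star_add, star_smul', star_smul']
  have e2 : dv d.Db Y = star w + star a • Y + star b • u := by
    have h := ax.dvDb_star (star Y)
    rw [star_star] at h
    rw [h, hY, star_add, star_add, star_smul', star_smul', star_star, star_star]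
  have h0 := congrArg (fun x => d.Db x) o1
  simp only [map_add, map_zero, der_ip] at h0
  rw [e1, e2, t1, t2] at h0
  have so2 := congrArg star o2
  rw [star_add, star_ip, star_ip, star_star, star_zero] at so2
  rw [star_pp, qq]
  simp only [ip_add_left, ip_sub_left, ip_smul_left, ip_add_right, ip_smul_right] at h0
  rw [ip_comm Y (star u), ip_comm (star Y) Y] at h0
  linear_combination h0 - (cst R I + star a) * o1 - star b * o2 + b * so2

/-- Second product: `α p + β q = 0`. -/
theorem second {CE CS : ℝ} {d : Dat ι R} (ax : Ax CE CS d) {u Y v w : ι → R} {l b α β : R}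
    (o1 : ip v (star u) + ip w Y = 0) (o2 : ip v (star Y) + ip w u = 0)
    (hs : Sys d l u Y)
    (t1 : dv d.Db v = cst R I • v - b • star w + α • u + β • Y)
    (t2 : dv d.Db w = cst R I • w - b • star v + α • star Y + β • star u) :
    α * pp u Y + β * qq u Y = 0 := by
  have e1 : dv d.Db (star Y) = cst R (I / 2) • star Y + l • star u := by
    rw [ax.dvDb_star, hs.eqY, star_add, star_smul', star_smul', star_neg, ax.star_Ihalf,
      neg_neg, star_star]
  have h0 := congrArg (fun x => d.Db x) o2
  simp only [map_add, map_zero, der_ip] at h0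
  rw [e1, hs.equ, t1, t2] at h0
  have so1 := congrArg star o1
  rw [star_add, star_ip, star_ip, star_star, star_zero] at so1
  rw [pp, qq]
  simp only [ip_add_left, ip_sub_left, ip_smul_left, ip_add_right, ip_smul_right] at h0
  rw [ip_comm (star Y) u, ip_comm (star u) u] at h0
  linear_combination h0 - (cst R I + cst R (I / 2)) * o2 - l * o1 + b * so1

end COD_

theorem p_COD (hORT : T_ORT) (hTAN : T_TAN) : T_COD := by
  intro ι R _ _ _ _ CE CS d l u Y i ax hs hi
  obtain ⟨o1, o2⟩ := hORT ι R d u Y i hi
  obtain ⟨α, β, t1, t2⟩ := hTAN ι R CE CS d l u Y i ax hs hi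
  have hu : dv d.D u = w1 d u Y i + ca d u Y i • u + cb d u Y i • Y := by
    rw [w1]; abel
  have hY : dv d.D (star Y) = w2 d u Y i + ca d u Y i • star Y + cb d u Y i • star u := by
    rw [w2]; abel
  have h1 := COD_.first ax o1 o2 hu hY t1 t2
  have h2 := COD_.second ax o1 o2 hs t1 t2
  have hi' : (qq u Y ^ 2 - pp u Y * star (pp u Y)) * i = 1 := hi
  obtain ⟨ha, hb⟩ := COD_.solve hi' h1 h2
  have hW : ip (w1 d u Y i) (star (w1 d u Y i)) + ip (w2 d u Y i) (star (w2 d u Y i)) =
      ww d u Y i := rfl
  rw [hW] at ha hb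
  subst ha
  subst hb
  refine ⟨?_, ?_⟩
  · rw [t1, neg_smul, ← sub_eq_add_neg]
  · rw [t2, neg_smul, ← sub_eq_add_neg]

end Pool.Agent.HSD
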