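import Pool.Agent.HSD.Targets2

/-!
# Project HSD: completeness with the derivative `D` (target T_CPD)
-/

set_option autoImplicit false
set_option linter.unusedSectionVars false

namespace Pool.Agent.HSD

open Complex

namespace CPD_

theorem sec_open : IsOpen sec := by
  unfold sec
  exact isOpen_lt (by fun_prop) (by fun_prop)

theorem dfam_sub (σ : ℂ) (a b : ℝ → ℂ → ℂ) (ha : ∀ τ : ℝ, DifferentiableOn ℂ (a τ) sec)
    (hb : ∀ τ : ℝ, DifferentiableOn ℂ (b τ) sec) (τ : ℝ) (y : ℂ) (hy : y ∈ sec) :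
    dfam σ (fun τ y => a τ y - b τ y) τ y = dfam σ a τ y - dfam σ b τ y := by
  have h1 : DifferentiableAt ℂ (a τ) y := (ha τ).differentiableAt (sec_open.mem_nhds hy)
  have h2 : DifferentiableAt ℂ (b τ) y := (hb τ).differentiableAt (sec_open.mem_nhds hy)
  have h3 : deriv (fun y => a τ y - b τ y) y = deriv (a τ) y - deriv (b τ) y :=
    deriv_fun_sub h1 h2
  simp only [dfam, h3]
  ring

/-- Sums of the first families. -/
def par (e : ℕ → ℝ → ℂ → ℂ) : ℕ → ℝ → ℂ → ℂ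
  | 0 => fun _ _ => 0
  | n + 1 => fun τ y => par e n τ y + e n τ y

theorem fam_zero : Fam (fun _ _ => 0) := by
  refine ⟨fun τ => differentiableOn_const 0, fun j => ?_⟩
  have h : NN (fun _ _ => 0) j = 0 := by
    simp [NN, sj]
  rw [h]
  exact ENNReal.zero_ne_top

theorem Ff_zero (p : ℝ × ℝ) : Ff (fun _ _ => 0) p = 0 := by
  simp [Ff]

theorem par_rep (hFAD : T_FAD) (f : ℕ → RR) (e : ℕ → ℝ → ℂ → ℂ)
    (he : ∀ k, Rep (e k) ((f (k + 1) - f k : RR) : ℝ × ℝ → ℂ)) (k : ℕ) :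
    Rep (par e k) (fun p => (f k : ℝ × ℝ → ℂ) p - (f 0 : ℝ × ℝ → ℂ) p) := by
  induction k with
  | zero =>
    refine ⟨fam_zero, fun p => ?_⟩
    have h : Ff (par e 0) p = 0 := Ff_zero p
    rw [h]
    ring
  | succ k ih =>
    obtain ⟨⟨h1, -, h3⟩, -⟩ := hFAD.1 _ _ ih.fam (he k).fam
    refine ⟨h1, fun p => ?_⟩
    have h4 : Ff (par e (k + 1)) p = Ff (par e k) p + Ff (e k) p := h3 p
    rw [h4, ← ih.eq p, ← (he k).eq p]
    have h5 : ((f (k + 1) - f k : RR) : ℝ × ℝ → ℂ) p =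
      (f (k + 1) : ℝ × ℝ → ℂ) p - (f k : ℝ × ℝ → ℂ) p := rfl
    rw [h5]
    ring

theorem tsum_shift {c : ℕ → ℝ} (hc : ∀ k, 0 ≤ c k) (hs : Summable c) (k : ℕ) :
    ∑' m : ℕ, ENNReal.ofReal (c (k + m)) = ENNReal.ofReal (∑' m : ℕ, c (k + m)) := by
  have h : Summable fun m : ℕ => c (k + m) := hs.comp_injective (add_right_injective k)
  exact (ENNReal.ofReal_tsum_of_nonneg (fun m => hc (k + m)) h).symm

end CPD_

open CPD_

theorem p_CPD (hFAD : T_FAD) (hFCP : T_FCP) (hLSF : T_LSF) (hLSD : T_LSD) (hCDN : T_CDN)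
    (hUNI : T_UNI) (hCNG : T_CNG) : T_CPD := by
  intro f c hc hs hf hf'
  choose hc0 e he heb using fun k => hf k
  choose hc0' e' he' heb' using fun k => hf' k
  have hm : (((-1 : ℝ)) : ℂ) = -1 := by norm_num
  -- the families of the derivatives
  have hde : ∀ k τ, ∀ y ∈ sec, dfam (-1) (e k) τ y = e' k τ y := by
    intro k
    have hl := hLSF (e k) (he k).fam
    have hl2 : LSm (dfam (-1) (e k)) := by
      have h := (hLSD (e k) hl).2.2.2 (-1)
      rwa [hm] at h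
    refine hUNI _ _ hl2 (hLSF (e' k) (he' k).fam) fun p => ?_
    have h1 := (hCDN (e k) hl).2 (-1) p
    rw [hm] at h1
    rw [← h1, ← (he' k).eq p]
    have h2 : Ff (e k) = ((f (k + 1) - f k : RR) : ℝ × ℝ → ℂ) := by
      funext q
      exact ((he k).eq q).symm
    rw [h2, ← map_sub]
    rfl
  have hpar : ∀ k, Rep (par e k) (fun p => (f k : ℝ × ℝ → ℂ) p - (f 0 : ℝ × ℝ → ℂ) p) :=
    par_rep hFAD f e he
  have hstep : ∀ k, (fun τ y => par e (k + 1) τ y - par e k τ y) = e k := by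
    intro k
    funext τ y
    show par e k τ y + e k τ y - par e k τ y = e k τ y
    ring
  have hfin : ∀ j, ∑' k, NN (fun τ y => par e (k + 1) τ y - par e k τ y) j ≠ ⊤ := by
    intro j
    have h1 : ∑' k, NN (fun τ y => par e (k + 1) τ y - par e k τ y) j ≤
        ∑' k, ENNReal.ofReal (c k) := by
      refine ENNReal.tsum_le_tsum fun k => ?_
      rw [hstep]
      exact heb k j
    rw [← ENNReal.ofReal_tsum_of_nonneg hc hs] at h1
    exact ne_top_of_le_ne_top ENNReal.ofReal_ne_top h1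
  obtain ⟨b, hb, hb1, hb2⟩ := hFCP (par e) (fun k => (hpar k).fam) hfin
  have hbs : ∀ k j, NN (fun τ y => b τ y - par e k τ y) j ≤
      ENNReal.ofReal (∑' m : ℕ, c (k + m)) := by
    intro k j
    refine (hb1 k j).trans ?_
    rw [← tsum_shift hc hs]
    refine ENNReal.tsum_le_tsum fun m => ?_
    rw [hstep]
    exact heb (k + m) j
  have hlb := hLSF b hb
  let gb : RR := ⟨Ff b, mem_RR.mpr (hCDN b hlb).1⟩
  have hrep : ∀ k, Rep (fun τ y => b τ y - par e k τ y)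
      ((f 0 + gb - f k : RR) : ℝ × ℝ → ℂ) := by
    intro k
    obtain ⟨-, h1, -, h3⟩ := hFAD.1 b (par e k) hb (hpar k).fam
    refine ⟨h1, fun p => ?_⟩
    rw [h3 p, ← (hpar k).eq p]
    show (f 0 : ℝ × ℝ → ℂ) p + Ff b p - (f k : ℝ × ℝ → ℂ) p = _
    ring
  have hsum0 : ∀ k, 0 ≤ ∑' m : ℕ, c (k + m) := fun k => tsum_nonneg fun m => hc (k + m)
  refine ⟨f 0 + gb, fun k => ⟨⟨hsum0 k, _, hrep k, hbs k⟩, ?_⟩⟩
  -- the derivative
  set B : ℝ → ℂ → ℂ := fun τ y => b τ y - par e k τ y with hB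
  have hlB : LSm B := hLSF B (hrep k).fam
  have hlD : LSm (dfam (-1) B) := by
    have h := (hLSD B hlB).2.2.2 (-1)
    rwa [hm] at h
  have hbd : ∀ j, NN (dfam (-1) B) j ≤ ENNReal.ofReal (∑' m : ℕ, c (k + m)) := by
    intro j
    have h1 : NN (dfam (-1) B) j =
        NN (fun τ y => dfam (-1) b τ y - dfam (-1) (par e k) τ y) j :=
      (hCNG _ _ fun τ y hy => dfam_sub (-1) b (par e k) hb.holo (hpar k).fam.holo τ y hy).2.1 j
    have h2 := hb2 (-1) k j
    rw [hm] at h2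
    rw [h1]
    refine h2.trans ?_
    rw [← tsum_shift hc hs]
    refine ENNReal.tsum_le_tsum fun m => ?_
    have h3 : NN (fun τ y => dfam (-1) (par e (k + m + 1)) τ y -
        dfam (-1) (par e (k + m)) τ y) j = NN (e' (k + m)) j := by
      refine (hCNG _ _ fun τ y hy => ?_).2.1 j
      rw [← dfam_sub (-1) _ _ (hpar (k + m + 1)).fam.holo (hpar (k + m)).fam.holo τ y hy,
        hstep]
      exact hde (k + m) τ y hy
    rw [h3]
    exact heb' (k + m) j
  refine ⟨hsum0 k, dfam (-1) B, ⟨⟨hlD.holo, fun j =>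
    ne_top_of_le_ne_top ENNReal.ofReal_ne_top (hbd j)⟩, fun p => ?_⟩, hbd⟩
  have h1 := (hCDN B hlB).2 (-1) p
  rw [hm] at h1
  rw [← h1]
  have h2 : Ff B = ((f 0 + gb - f k : RR) : ℝ × ℝ → ℂ) := by
    funext q
    exact ((hrep k).eq q).symm
  rw [h2, ← map_sub]
  rfl

end Pool.Agent.HSD
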