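import Pool.Agent.HSD.Targets2

set_option autoImplicit false

namespace Pool.Agent.HSD

open Complex

namespace CPV_

theorem fam_zero : Fam (fun _ _ => 0) where
  holo := fun _ => differentiableOn_const _
  fin := by
    intro j
    have h : NN (fun _ _ => 0) j = 0 := by
      simp [NN, sj]
    rw [h]
    exact ENNReal.zero_ne_top

theorem Ff_zero (p : ℝ × ℝ) : Ff (fun _ _ => 0) p = 0 := by
  simp [Ff]

/-- The finite sums of a sequence of families. -/
noncomputable def ps (e : ℕ → ℝ → ℂ → ℂ) : ℕ → ℝ → ℂ → ℂ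
  | 0 => fun _ _ => 0
  | k + 1 => fun τ y => ps e k τ y + e k τ y

theorem ps_sub (e : ℕ → ℝ → ℂ → ℂ) (k : ℕ) :
    (fun τ y => ps e (k + 1) τ y - ps e k τ y) = e k := by
  funext τ y
  simp [ps]

/-- from the square sum to the single norm -/
theorem le_of_sq {x : ENNReal} {c : ℝ} (hc : 0 ≤ c) (h : x ^ 2 ≤ ENNReal.ofReal (c ^ 2)) :
    x ≤ ENNReal.ofReal c := by
  rw [ENNReal.ofReal_pow hc] at h
  by_contra hx
  exact absurd h (not_le.mpr (ENNReal.pow_lt_pow_left two_ne_zero (not_le.mp hx)))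

end CPV_

open CPV_ in
theorem p_CPV (hFAD : T_FAD) (hFCP : T_FCP) (hLSF : T_LSF) (hCDN : T_CDN) (hMIN : T_MIN) :
    T_CPV := by
  intro ι _ v c hc hs hv
  choose _ e he1 he2 using hv
  obtain ⟨hA, _, _⟩ := hFAD
  have hcs : ∀ k, Summable (fun m => c (k + m)) := fun k =>
    hs.comp_injective (add_right_injective k)
  -- the finite sums
  have hF : ∀ r k, Fam (CPV_.ps (fun k => e k r) k) := by
    intro r k
    induction k with
    | zero => exact fam_zero
    | succ k ih => exact (hA _ _ ih (he1 k r).fam).1.1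
  have hE : ∀ r k p, Ff (CPV_.ps (fun k => e k r) k) p =
      (v k r : ℝ × ℝ → ℂ) p - (v 0 r : ℝ × ℝ → ℂ) p := by
    intro r k p
    induction k with
    | zero =>
      rw [show CPV_.ps (fun k => e k r) 0 = (fun _ _ => 0) from rfl, Ff_zero]
      ring
    | succ k ih =>
      have h1 : Ff (CPV_.ps (fun k => e k r) (k + 1)) p =
          Ff (CPV_.ps (fun k => e k r) k) p + Ff (e k r) p :=
        (hA _ _ (hF r k) (he1 k r).fam).1.2.2 p
      have h2 : ((v (k + 1) - v k) r : ℝ × ℝ → ℂ) p = Ff (e k r) p := (he1 k r).eq p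
      have h3 : ((v (k + 1) - v k) r : ℝ × ℝ → ℂ) p =
          (v (k + 1) r : ℝ × ℝ → ℂ) p - (v k r : ℝ × ℝ → ℂ) p := rfl
      rw [h1, ih, ← h2, h3]
      ring
  -- the norms of the differences
  have hN : ∀ r k j, NN (e k r) j ≤ ENNReal.ofReal (c k) := by
    intro r k j
    apply le_of_sq (hc k)
    refine le_trans ?_ (he2 k j)
    exact Finset.single_le_sum (f := fun r => (NN (e k r) j) ^ 2) (fun _ _ => zero_le)
      (Finset.mem_univ r)
  have hT : ∀ r j, ∑' k, NN (fun τ y => CPV_.ps (fun k => e k r) (k + 1) τ y -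
      CPV_.ps (fun k => e k r) k τ y) j ≠ ⊤ := by
    intro r j
    have h1 : ∑' k, NN (fun τ y => CPV_.ps (fun k => e k r) (k + 1) τ y -
        CPV_.ps (fun k => e k r) k τ y) j ≤ ∑' k, ENNReal.ofReal (c k) := by
      refine ENNReal.tsum_le_tsum fun k => ?_
      rw [ps_sub]
      exact hN r k j
    refine ne_top_of_le_ne_top ?_ h1
    rw [← ENNReal.ofReal_tsum_of_nonneg hc hs]
    exact ENNReal.ofReal_ne_top
  choose b hb1 hb2 _ using fun r => hFCP _ (hF r) (hT r)
  have hsm : ∀ r, Ff (b r) ∈ RR := fun r =>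
    mem_RR.mpr (hCDN (b r) (hLSF (b r) (hb1 r))).1
  refine ⟨fun r => v 0 r + ⟨Ff (b r), hsm r⟩, fun k => ?_⟩
  refine ⟨tsum_nonneg fun m => hc _,
    fun r τ y => b r τ y - CPV_.ps (fun k => e k r) k τ y, fun r => ?_, fun j => ?_⟩
  · have h0 := (hA _ _ (hb1 r) (hF r k)).2
    refine ⟨h0.1, fun p => ?_⟩
    rw [h0.2.2 p, hE r k p]
    change (v 0 r : ℝ × ℝ → ℂ) p + Ff (b r) p - (v k r : ℝ × ℝ → ℂ) p = _
    ring
  · have h1 : ∀ m, ∑ r, (NN (e (k + m) r) j) ^ 2 ≤ ENNReal.ofReal (c (k + m) ^ 2) :=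
      fun m => he2 (k + m) j
    have h2 := hMIN ι ℕ (fun r m => NN (e (k + m) r) j) (fun m => c (k + m))
      (∑' m, c (k + m)) (fun m => hc _) (hcs k).hasSum h1
    refine le_trans (Finset.sum_le_sum fun r _ => ?_) h2
    refine pow_le_pow_left' ?_ 2
    refine le_trans (hb2 r k j) (ENNReal.tsum_le_tsum fun m => ?_)
    have h3 := ps_sub (fun k => e k r) (k + m)
    rw [h3]

end Pool.Agent.HSD
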