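import Pool.Agent.HSD.Targets4

/-!
# Project HSD: the curvature is `-1`
-/

set_option autoImplicit false

namespace Pool.Agent.HSD

open Complex

namespace CUR_

theorem vl_two (p : ℝ × ℝ) : vl (2 : RR) p = 2 := by
  rw [← cst_two]
  rfl

theorem vl_sq (f : RR) (p : ℝ × ℝ) : vl (f ^ 2) p = vl f p ^ 2 := rfl

/-- `X Δ = 2 W` -/
theorem key {m : ℕ} {χ l i g : RR} {u Y Φ : Fin m → RR} (G : Geo m χ l i g u Y Φ)
    (p : ℝ × ℝ) (X W q P Q : ℝ) (hX : vl χ p = X) (hW : vl (ww (dR (Fin m)) u Y i) p = W)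
    (hq : vl (qq u Y) p = q) (hp : vl (pp u Y) p = P + Q * I) :
    X * (q ^ 2 - P ^ 2 - Q ^ 2) = 2 * W := by
  have h1 : vl χ p = 2 * vl (ww (dR (Fin m)) u Y i) p * vl i p := by
    conv_lhs => rw [G.fix]
    unfold tt
    rw [vl_mul, vl_mul, vl_two]
  have h2 : vl (dl u Y) p * vl i p = 1 := by
    rw [← vl_mul, G.inv, vl_one]
  have h3 : vl (dl u Y) p = (q : ℂ) ^ 2 - P ^ 2 - Q ^ 2 := by
    unfold dl
    rw [vl_sub, vl_mul, vl_star, vl_sq, hq, hp]
    simp only [map_add, map_mul, conj_ofReal, conj_I]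
    ring_nf
    simp only [I_sq]
    ring
  rw [hX, hW] at h1
  rw [h3] at h2
  have h4 : (X : ℂ) * ((q : ℂ) ^ 2 - P ^ 2 - Q ^ 2) = 2 * W := by
    rw [h1]
    linear_combination (2 * (W : ℂ)) * h2
  exact_mod_cast h4

end CUR_

theorem p_CUR (hSEC2 : T_SEC2) (hBRI : T_BRI) (hMET : T_MET) (hDSU : T_DSU) : T_CUR := by
  intro m χ l i g u Y Φ G z
  obtain ⟨X, W, y, h, a1, a2, b1, b2, c1, c2, N1, N2, hX, hW, hy, hh, o1, o2, o3, o4, hN, e1, e2,
    e3⟩ := hSEC2 m χ l i g u Y Φ G z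
  obtain ⟨X', q, P, Q, y', hX', hq, hp, hy', hE, hF, hG, hpos, -⟩ :=
    hMET m χ l i g u Y Φ G z
  have hXX : X' = X := by
    have : (X' : ℂ) = X := by rw [← hX', ← hX]
    exact_mod_cast this
  subst hXX
  have hyy : y' = y := by rw [hy', hy]
  subst hyy
  have hk := CUR_.key G (z.re, z.im) X' W q P Q hX hW hq hp
  have hD : gE (surf Φ) z * gG (surf Φ) z - gF (surf Φ) z ^ 2 = 2 * (y' ^ 2 * X' * W) := by
    rw [hE, hF, hG]
    linear_combination (X' * y' ^ 2) * hk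
  have hb := hBRI _ (surf Φ) (hDSU m Φ).1 z a1 a2 b1 b2 c1 c2 ((y' ^ 2 * h) • N1)
    ((y' * h) • N2) ((-h) • N1) hpos.ne' e1 e2 e3
    (by rw [inner_smul_right, o1, mul_zero]) (by rw [inner_smul_right, o2, mul_zero])
    (by rw [inner_smul_right, o3, mul_zero]) (by rw [inner_smul_right, o4, mul_zero])
    (by rw [inner_smul_right, o1, mul_zero]) (by rw [inner_smul_right, o2, mul_zero])
  rw [hb, div_eq_iff hpos.ne', hD]
  simp only [real_inner_smul_left, real_inner_smul_right]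
  linear_combination (-(y' ^ 2 * h ^ 2)) * hN - (2 * y' ^ 2 * W) * hh

end Pool.Agent.HSD
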