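import Pool.Agent.HSD.Targets2

/-!
# Project HSD: the algebraic axioms (DRA)
-/

set_option autoImplicit false
set_option linter.unusedSectionVars false

namespace Pool.Agent.HSD

open Complex

namespace DRA_

theorem star_apply (f : RR) (p : ℝ × ℝ) :
    ((star f : RR) : ℝ × ℝ → ℂ) p = (starRingEnd ℂ) ((f : ℝ × ℝ → ℂ) p) := rfl

theorem cst_apply (z : ℂ) (p : ℝ × ℝ) : ((cst RR z : RR) : ℝ × ℝ → ℂ) p = z := rfl

theorem der_apply (σ : ℂ) (f : RR) (p : ℝ × ℝ) :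
    ((dDer σ f : RR) : ℝ × ℝ → ℂ) p = dOp σ (f : ℝ × ℝ → ℂ) p := rfl

theorem fderiv_star (f : RR) (p v : ℝ × ℝ) :
    fderiv ℝ ((star f : RR) : ℝ × ℝ → ℂ) p v =
      (starRingEnd ℂ) (fderiv ℝ (f : ℝ × ℝ → ℂ) p v) := by
  have h1 : HasFDerivAt (fun q => Complex.conjCLE ((f : ℝ × ℝ → ℂ) q))
      ((Complex.conjCLE : ℂ →L[ℝ] ℂ).comp (fderiv ℝ (f : ℝ × ℝ → ℂ) p)) p :=
    (Complex.conjCLE : ℂ →L[ℝ] ℂ).hasFDerivAt.comp p (RR_diff f p).hasFDerivAt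
  have h2 : (fun q => Complex.conjCLE ((f : ℝ × ℝ → ℂ) q)) =
      ((star f : RR) : ℝ × ℝ → ℂ) := by
    funext q
    rw [star_apply]
    simp
  rw [h2] at h1
  rw [h1.fderiv]
  simp

theorem px_star (f : RR) (p : ℝ × ℝ) :
    px ((star f : RR) : ℝ × ℝ → ℂ) p = (starRingEnd ℂ) (px (f : ℝ × ℝ → ℂ) p) :=
  fderiv_star f p _

theorem ps_star (f : RR) (p : ℝ × ℝ) :
    ps ((star f : RR) : ℝ × ℝ → ℂ) p = (starRingEnd ℂ) (ps (f : ℝ × ℝ → ℂ) p) :=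
  fderiv_star f p _

theorem diff_fderiv (f : RR) : Differentiable ℝ (fderiv ℝ (f : ℝ × ℝ → ℂ)) := by
  have h1 : ContDiff ℝ ((⊤ : ℕ∞) : WithTop ℕ∞) (fderiv ℝ (f : ℝ × ℝ → ℂ)) :=
    (RR_smooth f).fderiv_right (by simp)
  exact h1.differentiable (by simp)

theorem second (f : RR) (p v w : ℝ × ℝ) :
    fderiv ℝ (fun q => fderiv ℝ (f : ℝ × ℝ → ℂ) q v) p w =
      fderiv ℝ (fderiv ℝ (f : ℝ × ℝ → ℂ)) p w v := by
  have h1 := (diff_fderiv f p).hasFDerivAt.clm_apply (hasFDerivAt_const v p)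
  rw [h1.fderiv]
  simp

theorem symm (f : RR) (p v w : ℝ × ℝ) :
    fderiv ℝ (fderiv ℝ (f : ℝ × ℝ → ℂ)) p w v = fderiv ℝ (fderiv ℝ (f : ℝ × ℝ → ℂ)) p v w := by
  have h1 : IsSymmSndFDerivAt ℝ (f : ℝ × ℝ → ℂ) p := by
    apply ContDiffAt.isSymmSndFDerivAt (n := ((⊤ : ℕ∞) : WithTop ℕ∞))
    · exact (RR_smooth f).contDiffAt
    · rw [minSmoothness_of_isRCLikeNormedField]
      exact WithTop.coe_le_coe.mpr le_top
  exact h1 w v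

theorem mixed (f : RR) (p : ℝ × ℝ) :
    px (ps (f : ℝ × ℝ → ℂ)) p = ps (px (f : ℝ × ℝ → ℂ)) p := by
  have h1 := second f p (0, 1) (1, 0)
  have h2 := second f p (1, 0) (0, 1)
  have h3 := symm f p (0, 1) (1, 0)
  calc px (ps (f : ℝ × ℝ → ℂ)) p
      = fderiv ℝ (fun q => fderiv ℝ (f : ℝ × ℝ → ℂ) q (0, 1)) p (1, 0) := rfl
    _ = fderiv ℝ (fun q => fderiv ℝ (f : ℝ × ℝ → ℂ) q (1, 0)) p (0, 1) := by
        rw [h1, h2, h3]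
    _ = ps (px (f : ℝ × ℝ → ℂ)) p := rfl

theorem hasE (p : ℝ × ℝ) : HasFDerivAt (fun q : ℝ × ℝ => ((Real.exp q.2 : ℝ) : ℂ))
    (Complex.ofRealCLM.comp (Real.exp p.2 • ContinuousLinearMap.snd ℝ ℝ ℝ)) p := by
  have h1 : HasFDerivAt (fun q : ℝ × ℝ => Real.exp q.2)
      (Real.exp p.2 • ContinuousLinearMap.snd ℝ ℝ ℝ) p := hasFDerivAt_snd.exp
  exact Complex.ofRealCLM.hasFDerivAt.comp p h1

theorem dOp_fderiv (σ : ℂ) (f : RR) (p v : ℝ × ℝ) :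
    fderiv ℝ (dOp σ (f : ℝ × ℝ → ℂ)) p v =
      1 / 2 * ((Real.exp p.2 : ℂ) * fderiv ℝ (px (f : ℝ × ℝ → ℂ)) p v +
        (Real.exp p.2 : ℂ) * (v.2 : ℂ) * px (f : ℝ × ℝ → ℂ) p +
        σ * I * fderiv ℝ (ps (f : ℝ × ℝ → ℂ)) p v) := by
  have hx : HasFDerivAt (px (f : ℝ × ℝ → ℂ)) (fderiv ℝ (px (f : ℝ × ℝ → ℂ)) p) p :=
    ((px_smooth f).differentiable (by simp) p).hasFDerivAt
  have hs : HasFDerivAt (ps (f : ℝ × ℝ → ℂ)) (fderiv ℝ (ps (f : ℝ × ℝ → ℂ)) p) p :=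
    ((ps_smooth f).differentiable (by simp) p).hasFDerivAt
  have h1 := (((hasE p).mul hx).add (hs.const_mul (σ * I))).const_mul (1 / 2 : ℂ)
  have h2 : HasFDerivAt (dOp σ (f : ℝ × ℝ → ℂ)) _ p := h1
  rw [h2.fderiv]
  simp only [smul_apply, add_apply, ContinuousLinearMap.comp_apply, smul_eq_mul,
    ContinuousLinearMap.coe_snd', Complex.ofRealCLM_apply, Complex.ofReal_mul]
  ring

end DRA_

open DRA_ in
theorem p_DRA : T_DRA := by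
  refine ⟨?_, ?_, ?_⟩
  · intro z
    apply Subtype.ext
    funext p
    rfl
  · intro f
    apply Subtype.ext
    funext p
    rw [star_apply, der_apply, der_apply]
    simp only [dOp, px_star, ps_star, map_mul, map_add, map_neg, map_one, map_div₀, map_ofNat,
      Complex.conj_conj, Complex.conj_I, Complex.conj_ofReal]
    ring
  · intro f
    apply Subtype.ext
    funext p
    have e1 : ((dDer (-1) (dDer 1 f) - dDer 1 (dDer (-1) f) : RR) : ℝ × ℝ → ℂ) p =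
        dOp (-1) ((dDer 1 f : RR) : ℝ × ℝ → ℂ) p - dOp 1 ((dDer (-1) f : RR) : ℝ × ℝ → ℂ) p := rfl
    have e2 : ((-(cst RR (I / 2)) * (dDer (-1) f + dDer 1 f) : RR) : ℝ × ℝ → ℂ) p =
        -(I / 2) * (dOp (-1) (f : ℝ × ℝ → ℂ) p + dOp 1 (f : ℝ × ℝ → ℂ) p) := rfl
    rw [e1, e2]
    have e3 : ∀ σ : ℂ, ((dDer σ f : RR) : ℝ × ℝ → ℂ) = dOp σ (f : ℝ × ℝ → ℂ) := fun σ => rfl
    rw [e3, e3]
    have e4 : ∀ σ τ : ℂ, dOp σ (dOp τ (f : ℝ × ℝ → ℂ)) p =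
        1 / 2 * ((Real.exp p.2 : ℂ) * fderiv ℝ (dOp τ (f : ℝ × ℝ → ℂ)) p (1, 0) +
          σ * I * fderiv ℝ (dOp τ (f : ℝ × ℝ → ℂ)) p (0, 1)) := fun σ τ => rfl
    have e5 : ∀ σ : ℂ, dOp σ (f : ℝ × ℝ → ℂ) p =
        1 / 2 * ((Real.exp p.2 : ℂ) * px (f : ℝ × ℝ → ℂ) p +
          σ * I * ps (f : ℝ × ℝ → ℂ) p) := fun σ => rfl
    have hm : fderiv ℝ (ps (f : ℝ × ℝ → ℂ)) p (1, 0) =
        fderiv ℝ (px (f : ℝ × ℝ → ℂ)) p (0, 1) := mixed f p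
    rw [e4, e4, e5, e5, dOp_fderiv, dOp_fderiv, dOp_fderiv, dOp_fderiv, hm]
    simp only [Complex.ofReal_zero, Complex.ofReal_one]
    ring

end Pool.Agent.HSD
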