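import Pool.Agent.HSD.Targets1

/-!
# HSD-E1: the basic estimates for `u` and `Y`
-/

set_option autoImplicit false

namespace Pool.Agent.HSD

open Complex

theorem p_E1 (hABS : T_ABS) (hSYS : T_SYS) : T_E1 := by
  intro CE CS A hA
  have hA0 : 0 < A := by linarith
  have aCE : 0 ≤ |CE| := abs_nonneg _
  have aCS : 0 ≤ |CS| := abs_nonneg _
  have aCSA : 0 ≤ |CS| * A := mul_nonneg aCS hA0.le
  obtain ⟨K, hKdef⟩ : ∃ K : ℝ, K = 2 + |CE| + |CS| + 2 * A + 2 * (|CS| * A) := ⟨_, rfl⟩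
  have hK2 : 2 ≤ K := by linarith
  have hKCE : CE ≤ K := by linarith [le_abs_self CE]
  have hKCS : CS ≤ K := by linarith [le_abs_self CS]
  have hK2A : 2 * A ≤ K := by linarith
  have hKA : A ≤ K := by linarith
  have hKCA : 2 * CS * A ≤ K := by
    have h1 : CS * A ≤ |CS| * A := mul_le_mul_of_nonneg_right (le_abs_self CS) hA0.le
    linarith
  have hKK : K ≤ K ^ 20 := le_self_pow₀ (by linarith) (by norm_num)
  refine ⟨K ^ 20, by linarith, by linarith, by linarith, ?_⟩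
  intro ι R _ _ _ _ ε c d l u0 u Y ax e0 e1 hCSe hl hS0 hu0 hSol
  have x : Ctx CE CS K ε d := ⟨ax, hK2, hKCE, hKCS, e0, e1⟩
  obtain ⟨hu, hY⟩ := hABS ι R CE CS A ε c d l u0 u Y ax e0 hCSe hA0 hl hu0 hSol
  have hsys := hSYS ι R CE CS d l u0 u Y c ε ax hS0 hl hSol
  have bl : Nk d K ε 0 1 l := ax.N_mono hl (by simp)
  have bu : Vk d K ε 1 0 u := x.V0 (ax.V_mono hu hK2A)
  have bY : Vk d K ε 1 1 Y := x.V1 (ax.V_mono hY (mul_le_mul_of_nonneg_right hKCA e0))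
  have bu0 : Vk d K ε 1 0 u0 := x.V0 (ax.V_mono hu0 hKA)
  have hh : Nk d K ε 0 0 (cst R (I / 2)) := x.Ncst (by
    rw [norm_div, norm_I]
    norm_num)
  have blY : Vk d K ε 1 2 (l • Y) := x.Vmono (x.Vsmul bl bY) (by norm_num) (by norm_num)
  have eU : u - u0 = fun r => d.S ((l • Y) r) := by
    conv_lhs => rw [hSol.fu]
    funext r
    simp
  have bU : Vk d K ε 2 2 (u - u0) := x.Veq (x.VS blY) eU
  have eDbU : dv d.Db (u - u0) = cst R (I / 2) • (u - u0) + l • Y := by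
    rw [dv_sub, hsys.equ, hS0, smul_sub]
    abel
  have bDbU : Vk d K ε 3 2 (dv d.Db (u - u0)) :=
    x.Vmono (x.Veq (x.Vadd (x.Vsmul hh bU) blY) eDbU) (by norm_num) (by norm_num)
  have bDU : Vk d K ε 5 2 (dv d.D (u - u0)) :=
    x.Vmono (x.VD bU bDbU) (by norm_num) (by norm_num)
  have bDY : Vk d K ε 2 1 (dv d.D Y) :=
    x.Vmono (x.Veq (x.Vadd (x.Vsmul (x.Nneg hh) bY) (x.Vsmul (x.Nstar bl) bu)) hsys.eqY)
      (by norm_num) (by norm_num)
  have bDbY : Vk d K ε 4 1 (dv d.Db Y) :=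
    x.Vmono (x.VDb bY bDY) (by norm_num) (by norm_num)
  have bDbu0 : Vk d K ε 1 0 (dv d.Db u0) :=
    x.Vmono (x.Veq (x.Vsmul hh bu0) hS0) (by norm_num) (by norm_num)
  have bDu0 : Vk d K ε 3 0 (dv d.D u0) :=
    x.Vmono (x.VD bu0 bDbu0) (by norm_num) (by norm_num)
  exact ⟨x.outV0 20 bu0 (by norm_num), x.outV0 20 bDu0 (by norm_num),
    x.outV0 20 bDbu0 (by norm_num), x.outV0 20 bu (by norm_num),
    x.outV1 20 bY (by norm_num) (by norm_num), x.outV1 20 bDY (by norm_num) (by norm_num),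
    x.outV1 20 bDbY (by norm_num) (by norm_num), x.outV2 20 bU (by norm_num) (by norm_num),
    x.outV2 20 bDU (by norm_num) (by norm_num), x.outV2 20 bDbU (by norm_num) (by norm_num)⟩

end Pool.Agent.HSD
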