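import Pool.Agent.HSD.Targets1

set_option autoImplicit false

namespace Pool.Agent.HSD

namespace E2_

variable {ι R : Type} [Fintype ι] [CommRing R] [StarRing R] [Algebra ℂ R]

theorem qq0 (u0 : ι → R) : qq u0 0 = ip u0 (star u0) := by
  unfold qq
  rw [ip_zero_left, add_zero]

theorem dqq (u0 u Y : ι → R) : qq u Y - qq u0 0 =
    ip (u - u0) (star u) + ip u0 (star (u - u0)) + ip Y (star Y) := by
  rw [qq0, star_sub, ip_sub_left, ip_sub_right]
  unfold qq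
  ring

end E2_

open E2_ in
theorem p_E2 : T_E2 := by
  intro CE CS K hK hCE hCS
  refine ⟨K ^ 20, le_self_pow₀ (by linarith) (by norm_num), ?_⟩
  intro ι R _ _ _ _ ε d u0 u Y ax e0 e1 h
  have x : Ctx CE CS K ε d := ⟨ax, hK, hCE, hCS, e0, e1⟩
  have bu0 := x.V0 h.bu0
  have Du0 := x.V0 h.Du0
  have Dbu0 := x.V0 h.Dbu0
  have bu := x.V0 h.bu
  have bY := x.V1 h.bY
  have DY := x.V1 h.DY
  have DbY := x.V1 h.DbY
  have bU := x.V2 h.bU
  have DU := x.V2 h.DU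
  have DbU := x.V2 h.DbU
  have Du : Vk d K ε 2 0 (dv d.D u) :=
    x.Vmono (x.Veq (x.Vadd DU Du0) (by rw [← dv_add]; congr 1; abel)) (by norm_num) (by norm_num)
  have Dbu : Vk d K ε 2 0 (dv d.Db u) :=
    x.Vmono (x.Veq (x.Vadd DbU Dbu0) (by rw [← dv_add]; congr 1; abel)) (by norm_num)
      (by norm_num)
  have two : d.D (2 : R) = 0 := der_two _
  have twob : d.Db (2 : R) = 0 := der_two _
  refine ⟨?_, ?_, ?_, ?_, ?_, ?_, ?_⟩
  · exact x.outN0 20 (x.Neq (x.Vip bu0 (x.Vstar bu0)) (qq0 u0)) (by norm_num)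
  · have e : d.D (qq u0 0) = ip (dv d.D u0) (star u0) + ip u0 (star (dv d.Db u0)) := by
      rw [qq0, der_ip, ax.dvD_star]
    exact x.outN0 20 (x.Neq (x.Nadd (x.Vip Du0 (x.Vstar bu0)) (x.Vip bu0 (x.Vstar Dbu0))) e)
      (by norm_num)
  · exact x.outN2 20 (x.Neq (x.Nadd (x.Nadd (x.Vip bU (x.Vstar bu)) (x.Vip bu0 (x.Vstar bU)))
      (x.Vip bY (x.Vstar bY))) (dqq u0 u Y)) (by norm_num) (by norm_num)
  · have e : d.D (qq u Y - qq u0 0) =
        (ip (dv d.D (u - u0)) (star u) + ip (u - u0) (star (dv d.Db u))) +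
        (ip (dv d.D u0) (star (u - u0)) + ip u0 (star (dv d.Db (u - u0)))) +
        (ip (dv d.D Y) (star Y) + ip Y (star (dv d.Db Y))) := by
      rw [dqq, map_add, map_add, der_ip, der_ip, der_ip, ax.dvD_star, ax.dvD_star, ax.dvD_star]
    exact x.outN2 20 (x.Neq (x.Nadd (x.Nadd
      (x.Nadd (x.Vip DU (x.Vstar bu)) (x.Vip bU (x.Vstar Dbu)))
      (x.Nadd (x.Vip Du0 (x.Vstar bU)) (x.Vip bu0 (x.Vstar DbU))))
      (x.Nadd (x.Vip DY (x.Vstar bY)) (x.Vip bY (x.Vstar DbY)))) e) (by norm_num) (by norm_num)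
  · exact x.outN1 20 (x.Nmul x.Ntwo (x.Vip bu (x.Vstar bY))) (by norm_num) (by norm_num)
  · have e : d.D (pp u Y) = 2 * (ip (dv d.D u) (star Y) + ip u (star (dv d.Db Y))) := by
      unfold pp
      rw [der_mul, two, der_ip, ax.dvD_star]
      ring
    exact x.outN1 20 (x.Neq (x.Nmul x.Ntwo (x.Nadd (x.Vip Du (x.Vstar bY))
      (x.Vip bu (x.Vstar DbY)))) e) (by norm_num) (by norm_num)
  · have e : d.Db (pp u Y) = 2 * (ip (dv d.Db u) (star Y) + ip u (star (dv d.D Y))) := by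
      unfold pp
      rw [der_mul, twob, der_ip, ax.dvDb_star]
      ring
    exact x.outN1 20 (x.Neq (x.Nmul x.Ntwo (x.Nadd (x.Vip Dbu (x.Vstar bY))
      (x.Vip bu (x.Vstar DY)))) e) (by norm_num) (by norm_num)

end Pool.Agent.HSD
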