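import Pool.Agent.HSD.Targets1

set_option autoImplicit false

/-!
# HSD: E3, estimates for the inverses `i` and `j` (helper21)
-/

namespace Pool.Agent.HSD

namespace E3_

variable {ι R : Type} [Fintype ι] [CommRing R] [StarRing R] [Algebra ℂ R]

theorem dd (u0 u Y : ι → R) : dl u Y - dl u0 0 =
    (qq u Y - qq u0 0) * ((qq u Y - qq u0 0) + qq u0 0 + qq u0 0) -
      pp u Y * star (pp u Y) := by
  rw [dl_zero]
  unfold dl
  ring

/-- bound for an inverse -/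
theorem inv_bd {CE CS : ℝ} {d : Dat ι R} (ax : Ax CE CS d) {K : ℝ} (hK : 2 ≤ K) {f g : R}
    (h : d.N (1 - f) (1 / 2)) (hg : f * g = 1) : d.N g K := by
  obtain ⟨g', h1, h2⟩ := ax.N_inv h (by norm_num)
  rw [inv_unique hg h1]
  exact ax.N_mono h2 (by norm_num; exact hK)

end E3_

open E3_ in
theorem p_E3 : T_E3 := by
  intro CE CS K hK hCE hCS
  have hK5 : 0 < K ^ 5 := pow_pos (by linarith) 5
  refine ⟨K ^ 30, 1 / (4 * K ^ 5), le_self_pow₀ (by linarith) (by norm_num),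
    by positivity, ?_⟩
  intro ι R _ _ _ _ ε d u0 u Y ax e0 e1 e2 h hq
  have x : Ctx CE CS K ε d := ⟨ax, hK, hCE, hCS, e0, e1⟩
  have q0 := x.N0 h.q0
  have Dq0 := x.N0 h.Dq0
  have dq := x.N2 h.dq
  have Ddq := x.N2 h.Ddq
  have p := x.N1 h.p
  have Dp := x.N1 h.Dp
  have Dbp := x.N1 h.Dbp
  have Dsp : Nk d K ε 1 1 (d.D (star (pp u Y))) := x.Neq (x.Nstar Dbp) (ax.D_star _)
  -- `q + q0`
  have qs : Nk d K ε 3 0 ((qq u Y - qq u0 0) + qq u0 0 + qq u0 0) :=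
    x.Nmono (x.Nadd (x.Nadd dq q0) q0) (by norm_num) (by norm_num)
  have Dqs : Nk d K ε 3 0 (d.D ((qq u Y - qq u0 0) + qq u0 0 + qq u0 0)) := by
    rw [map_add, map_add]
    exact x.Nmono (x.Nadd (x.Nadd Ddq Dq0) Dq0) (by norm_num) (by norm_num)
  -- `Δ - Δ₀`
  have dD : Nk d K ε 5 2 (dl u Y - dl u0 0) :=
    x.Nmono (x.Neq (x.Nsub (x.Nmul dq qs) (x.Nmul p (x.Nstar p))) (dd u0 u Y))
      (by norm_num) (by norm_num)
  have DdD : Nk d K ε 6 2 (d.D (dl u Y - dl u0 0)) := by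
    have e : d.D (dl u Y - dl u0 0) =
        ((qq u Y - qq u0 0) * d.D ((qq u Y - qq u0 0) + qq u0 0 + qq u0 0) +
          ((qq u Y - qq u0 0) + qq u0 0 + qq u0 0) * d.D (qq u Y - qq u0 0)) -
          (pp u Y * d.D (star (pp u Y)) + star (pp u Y) * d.D (pp u Y)) := by
      rw [dd, map_sub, der_mul, der_mul]
    exact x.Nmono (x.Neq (x.Nsub (x.Nadd (x.Nmul dq Dqs) (x.Nmul qs Ddq))
      (x.Nadd (x.Nmul p Dsp) (x.Nmul (x.Nstar p) Dp))) e) (by norm_num) (by norm_num)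
  -- `1 - Δ₀`
  have n0 : d.N (1 - dl u0 0) (1 / 4) := by
    have h1 : d.N (qq u0 0 - 1 + 2) (1 / 16 + 2) := ax.N_add hq ax.N_two
    have h2 := ax.N_neg (ax.N_mul hq h1)
    refine ax.N_le h2 ?_ (by norm_num)
    rw [dl_zero]
    ring
  have n1 : d.N (1 - dl u Y) (1 / 2) := by
    have h1 : K ^ 5 * ε ^ 2 ≤ 1 / 4 := by
      have h3 : ε ^ 2 ≤ ε := by nlinarith
      calc K ^ 5 * ε ^ 2 ≤ K ^ 5 * (1 / (4 * K ^ 5)) :=
            mul_le_mul_of_nonneg_left (h3.trans e2) hK5.le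
        _ = 1 / 4 := by field_simp
    refine ax.N_le (ax.N_sub n0 dD) ?_ (by linarith)
    ring
  refine ⟨n1, ?_⟩
  intro i j hi hj
  have bi : d.N i K := inv_bd ax hK n1 hi
  have bj : d.N j K := inv_bd ax hK (ax.N_mono n0 (by norm_num)) hj
  have i0 := x.N0 bi
  have j0 := x.N0 bj
  have DD0 : Nk d K ε 3 0 (d.D (dl u0 0)) := by
    have e : d.D (dl u0 0) = 2 * qq u0 0 * d.D (qq u0 0) := by
      rw [dl_zero, der_sq]
    exact x.Nmono (x.Neq (x.Nmul (x.Nmul x.Ntwo q0) Dq0) e) (by norm_num) (by norm_num)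
  have Dj : Nk d K ε 5 0 (d.D j) :=
    x.Nmono (x.Neq (x.Nmul (x.Nneg (x.Nmul j0 j0)) DD0) (der_inv d.D hj))
      (by norm_num) (by norm_num)
  have di : Nk d K ε 7 2 (i - j) := by
    refine x.Nmono (x.Neq (x.Nneg (x.Nmul (x.Nmul i0 j0) dD)) ?_) (by norm_num) (by norm_num)
    rw [inv_sub hi hj]
    ring
  refine ⟨?_, ?_, ?_, ?_, ?_⟩
  · exact x.outN0 30 i0 (by norm_num)
  · exact x.outN0 30 j0 (by norm_num)
  · exact x.outN0 30 Dj (by norm_num)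
  · exact x.outN2 30 di (by norm_num) (by norm_num)
  · have e : d.D (i - j) = -(i * i * d.D (dl u Y - dl u0 0)) -
        (i - j) * (i + j) * d.D (dl u0 0) := by
      rw [map_sub, der_inv d.D hi, der_inv d.D hj, map_sub]
      ring
    exact x.outN2 30 (x.Neq (x.Nsub (x.Nneg (x.Nmul (x.Nmul i0 i0) DdD))
      (x.Nmul (x.Nmul di (x.Nadd i0 j0)) DD0)) e) (by norm_num) (by norm_num)

end Pool.Agent.HSD
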