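import Pool.Agent.HSD.Targets1

set_option autoImplicit false

/-!
# HSD: E4, estimates for the coefficients `a` and `b` (helper21)
-/

namespace Pool.Agent.HSD

namespace E4_

variable {ι R : Type} [Fintype ι] [CommRing R] [StarRing R] [Algebra ℂ R]

theorem dA (d : Dat ι R) (u0 u Y : ι → R) : aA d u Y - aA d u0 0 =
    ip (dv d.D (u - u0)) (star u) + ip (dv d.D u0) (star (u - u0)) +
      ip (dv d.D (star Y)) Y := by
  rw [aA_zero, star_sub, ip_sub_right, dv_sub, ip_sub_left]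
  unfold aA
  ring

end E4_

open E4_ in
theorem p_E4 : T_E4 := by
  intro CE CS K hK hCE hCS
  refine ⟨K ^ 30, le_self_pow₀ (by linarith) (by norm_num), ?_⟩
  intro ι R _ _ _ _ ε d u0 u Y i j ax e0 e1 h1 h2 h3
  have x : Ctx CE CS K ε d := ⟨ax, hK, hCE, hCS, e0, e1⟩
  have bu0 := x.V0 h1.bu0
  have Du0 := x.V0 h1.Du0
  have bu := x.V0 h1.bu
  have bY := x.V1 h1.bY
  have DbY := x.V1 h1.DbY
  have bU := x.V2 h1.bU
  have DU := x.V2 h1.DU
  have Du : Vk d K ε 2 0 (dv d.D u) :=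
    x.Vmono (x.Veq (x.Vadd DU Du0) (by rw [← dv_add]; congr 1; abel)) (by norm_num) (by norm_num)
  have DsY : Vk d K ε 1 1 (dv d.D (star Y)) := x.Veq (x.Vstar DbY) (ax.dvD_star Y)
  have q0 := x.N0 h2.q0
  have dq := x.N2 h2.dq
  have p := x.N1 h2.p
  have i0 := x.N0 h3.bi
  have j0 := x.N0 h3.bj
  have di := x.N2 h3.di
  -- `q`
  have q : Nk d K ε 2 0 (qq u Y) :=
    x.Nmono (x.Neq (x.Nadd dq q0) (by ring)) (by norm_num) (by norm_num)
  -- `A₀`, `A - A₀`, `A`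
  have A0 : Nk d K ε 2 0 (aA d u0 0) :=
    x.Nmono (x.Neq (x.Vip Du0 (x.Vstar bu0)) (aA_zero d u0)) (by norm_num) (by norm_num)
  have dA1 : Nk d K ε 4 2 (aA d u Y - aA d u0 0) :=
    x.Nmono (x.Neq (x.Nadd (x.Nadd (x.Vip DU (x.Vstar bu)) (x.Vip Du0 (x.Vstar bU)))
      (x.Vip DsY bY)) (dA d u0 u Y)) (by norm_num) (by norm_num)
  have A : Nk d K ε 5 0 (aA d u Y) :=
    x.Nmono (x.Neq (x.Nadd dA1 A0) (by ring)) (by norm_num) (by norm_num)
  -- `B`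
  have B : Nk d K ε 4 1 (bB d u Y) :=
    x.Nmono (x.Nadd (x.Vip Du (x.Vstar bY)) (x.Vip DsY bu)) (by norm_num) (by norm_num)
  refine ⟨?_, ?_, ?_⟩
  · exact x.outN0 30 (x.Neq (x.Nmul (x.Nmul q0 A0) j0) (ca_zero d u0 j)) (by norm_num)
  · have e : ca d u Y i - ca d u0 0 j =
        ((qq u Y - qq u0 0) * aA d u Y + qq u0 0 * (aA d u Y - aA d u0 0)) * i +
          qq u0 0 * aA d u0 0 * (i - j) - star (pp u Y) * bB d u Y * i := by
      rw [ca_zero]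
      unfold ca
      ring
    exact x.outN2 30 (x.Neq (x.Nsub (x.Nadd
      (x.Nmul (x.Nadd (x.Nmul dq A) (x.Nmul q0 dA1)) i0)
      (x.Nmul (x.Nmul q0 A0) di)) (x.Nmul (x.Nmul (x.Nstar p) B) i0)) e)
      (by norm_num) (by norm_num)
  · exact x.outN1 30 (x.Nmul (x.Nsub (x.Nmul q B) (x.Nmul p A)) i0) (by norm_num) (by norm_num)

end Pool.Agent.HSD
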