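import Pool.Agent.HSD.Targets1

set_option autoImplicit false

namespace Pool.Agent.HSD

theorem p_E5 : T_E5 := by
  intro CE CS K hK hCE hCS
  refine ⟨K ^ 20, le_self_pow₀ (by linarith) (by norm_num), ?_⟩
  intro ι R _ _ _ _ ε d u0 u Y i j ax e0 e1 h1 h4
  have x : Ctx CE CS K ε d := ⟨ax, hK, hCE, hCS, e0, e1⟩
  have bu0 := x.V0 h1.bu0
  have Du0 := x.V0 h1.Du0
  have bu := x.V0 h1.bu
  have bY := x.V1 h1.bY
  have DbY := x.V1 h1.DbY
  have bU := x.V2 h1.bU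
  have DU := x.V2 h1.DU
  have a0 := x.N0 h4.a0
  have da := x.N2 h4.da
  have b := x.N1 h4.b
  have w10 : Vk d K ε 3 0 (w1 d u0 0 j) :=
    x.Vmono (x.Veq (x.Vsub Du0 (x.Vsmul a0 bu0)) (w1_zero d u0 j)) (by norm_num) (by norm_num)
  have ca1 : Nk d K ε 2 0 (ca d u Y i) :=
    x.Nmono (x.Neq (x.Nadd da a0) (by ring)) (by norm_num) (by norm_num)
  have dw1e : w1 d u Y i - w1 d u0 0 j =
      dv d.D (u - u0) - (ca d u Y i - ca d u0 0 j) • u - ca d u0 0 j • (u - u0) -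
        cb d u Y i • Y := by
    rw [w1_zero, dv_sub]
    unfold w1
    funext r
    simp only [Pi.sub_apply, Pi.smul_apply, smul_eq_mul]
    ring
  have dw1 : Vk d K ε 5 2 (w1 d u Y i - w1 d u0 0 j) :=
    x.Vmono (x.Veq (x.Vsub (x.Vsub (x.Vsub DU (x.Vsmul da bu)) (x.Vsmul a0 bU))
      (x.Vsmul b bY)) dw1e) (by norm_num) (by norm_num)
  have w1b : Vk d K ε 6 0 (w1 d u Y i) :=
    x.Vmono (x.Veq (x.Vadd dw1 w10) (by abel)) (by norm_num) (by norm_num)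
  have w2b : Vk d K ε 5 1 (w2 d u Y i) := by
    refine x.Vmono (x.Veq (x.Vsub (x.Vsub (x.Vstar DbY) (x.Vsmul ca1 (x.Vstar bY)))
      (x.Vsmul b (x.Vstar bu))) ?_) (by norm_num) (by norm_num)
    unfold w2
    rw [ax.dvD_star]
  have W0 : Nk d K ε 6 0 (ww d u0 0 j) :=
    x.Nmono (x.Neq (x.Vip w10 (x.Vstar w10)) (ww_zero d u0 j)) (by norm_num) (by norm_num)
  have dWe : ww d u Y i - ww d u0 0 j =
      ip (w1 d u Y i - w1 d u0 0 j) (star (w1 d u Y i)) +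
        ip (w1 d u0 0 j) (star (w1 d u Y i - w1 d u0 0 j)) +
          ip (w2 d u Y i) (star (w2 d u Y i)) := by
    rw [ww_zero]
    unfold ww
    rw [star_sub, ip_sub_left, ip_sub_right]
    ring
  have dW : Nk d K ε 13 2 (ww d u Y i - ww d u0 0 j) :=
    x.Nmono (x.Neq (x.Nadd (x.Nadd (x.Vip dw1 (x.Vstar w1b)) (x.Vip w10 (x.Vstar dw1)))
      (x.Vip w2b (x.Vstar w2b))) dWe) (by norm_num) (by norm_num)
  exact
    { w10 := x.outV0 20 w10 (by norm_num)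
      dw1 := x.outV2 20 dw1 (by norm_num) (by norm_num)
      w2 := x.outV1 20 w2b (by norm_num) (by norm_num)
      W0 := x.outN0 20 W0 (by norm_num)
      dW := x.outN2 20 dW (by norm_num) (by norm_num) }

end Pool.Agent.HSD
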