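import Pool.Agent.HSD.Targets1

set_option autoImplicit false

namespace Pool.Agent.HSD

open Complex

namespace E6_

variable {ι R : Type} [Fintype ι] [CommRing R] [StarRing R] [Algebra ℂ R]

theorem smul_sub_smul (f f' : R) (v v' : ι → R) :
    f • v - f' • v' = (f - f') • v + f' • (v - v') := by
  funext r
  simp only [Pi.sub_apply, Pi.smul_apply, smul_eq_mul, Pi.add_apply]
  ring

theorem prod_sub (q q0 W W0 i j : R) :
    q * W * i - q0 * W0 * j = (q - q0) * W * i + q0 * (W - W0) * i + q0 * W0 * (i - j) := by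
  ring

end E6_

theorem p_E6 (hCOD : T_COD) : T_E6 := by
  intro CE CS K hK hCE hCS
  refine ⟨K ^ 40, le_self_pow₀ (by linarith) (by norm_num), ?_⟩
  intro ι R _ _ _ _ ε d l u0 u Y i j ax e0 e1 hs0 hs hi hj h1 h2 h3 h4 h5
  have x : Ctx CE CS K ε d := ⟨ax, hK, hCE, hCS, e0, e1⟩
  obtain ⟨c1, c2⟩ := hCOD ι R CE CS d l u Y i ax hs hi
  obtain ⟨c3, -⟩ := hCOD ι R CE CS d 0 u0 0 j ax (sys_zero hs0) hj
  rw [cb_zero, pp_zero] at c3
  have c3' : dv d.Db (w1 d u0 0 j) =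
      cst R I • w1 d u0 0 j - (qq u0 0 * ww d u0 0 j * j) • u0 := by
    rw [c3]
    simp
  have I0 : Nk d K ε 0 0 (cst R I) := x.Ncst (by simp)
  -- basic orders
  have bu := x.V0 h1.bu
  have bu0 := x.V0 h1.bu0
  have bY := x.V1 h1.bY
  have bU := x.V2 h1.bU
  have q0 := x.N0 h2.q0
  have dq := x.N2 h2.dq
  have p := x.N1 h2.p
  have bi := x.N0 h3.bi
  have bj := x.N0 h3.bj
  have di := x.N2 h3.di
  have b := x.N1 h4.b
  have w10 := x.V0 h5.w10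
  have dw1 := x.V2 h5.dw1
  have w2' := x.V1 h5.w2
  have W0 := x.N0 h5.W0
  have dW := x.N2 h5.dW
  have q : Nk d K ε 2 0 (qq u Y) :=
    x.Nmono (x.Neq (x.Nadd dq q0) (by ring)) (by norm_num) (by norm_num)
  have W : Nk d K ε 2 0 (ww d u Y i) :=
    x.Nmono (x.Neq (x.Nadd dW W0) (by ring)) (by norm_num) (by norm_num)
  have w1' : Vk d K ε 2 0 (w1 d u Y i) :=
    x.Vmono (x.Veq (x.Vadd dw1 w10) (by abel)) (by norm_num) (by norm_num)
  -- the derivative of the zeroth order term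
  have Dbw10 : Vk d K ε 5 0 (dv d.Db (w1 d u0 0 j)) := by
    refine x.Vmono (x.Veq (x.Vsub (x.Vsmul I0 w10)
      (x.Vsmul (x.Nmul (x.Nmul q0 W0) bj) bu0)) c3') (by norm_num) (by norm_num)
  have Dw10 : Vk d K ε 7 0 (dv d.D (w1 d u0 0 j)) :=
    x.Vmono (x.VD w10 Dbw10) (by norm_num) (by norm_num)
  -- the difference
  have dcoef : Nk d K ε 10 2 (qq u Y * ww d u Y i * i - qq u0 0 * ww d u0 0 j * j) :=
    x.Nmono (x.Neq (x.Nadd (x.Nadd (x.Nmul (x.Nmul dq W) bi) (x.Nmul (x.Nmul q0 dW) bi))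
      (x.Nmul (x.Nmul q0 W0) di)) (E6_.prod_sub _ _ _ _ _ _)) (by norm_num) (by norm_num)
  have dterm : Vk d K ε 20 2 ((qq u Y * ww d u Y i * i) • u -
      (qq u0 0 * ww d u0 0 j * j) • u0) :=
    x.Vmono (x.Veq (x.Vadd (x.Vsmul dcoef bu) (x.Vsmul (x.Nmul (x.Nmul q0 W0) bj) bU))
      (E6_.smul_sub_smul _ _ _ _)) (by norm_num) (by norm_num)
  have e1' : dv d.Db (w1 d u Y i - w1 d u0 0 j) =
      ((cst R I • (w1 d u Y i - w1 d u0 0 j) - cb d u Y i • star (w2 d u Y i)) -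
        ((qq u Y * ww d u Y i * i) • u - (qq u0 0 * ww d u0 0 j * j) • u0)) +
        (pp u Y * ww d u Y i * i) • Y := by
    rw [dv_sub, c1, c3', smul_sub]
    abel
  have Dbdw1 : Vk d K ε 25 2 (dv d.Db (w1 d u Y i - w1 d u0 0 j)) :=
    x.Vmono (x.Veq (x.Vadd (x.Vsub (x.Vsub (x.Vsmul I0 dw1) (x.Vsmul b (x.Vstar w2'))) dterm)
      (x.Vsmul (x.Nmul (x.Nmul p W) bi) bY)) e1') (by norm_num) (by norm_num)
  have Ddw1 : Vk d K ε 27 2 (dv d.D (w1 d u Y i - w1 d u0 0 j)) :=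
    x.Vmono (x.VD dw1 Dbdw1) (by norm_num) (by norm_num)
  -- the second vector
  have Dbw2 : Vk d K ε 15 1 (dv d.Db (w2 d u Y i)) :=
    x.Vmono (x.Veq (x.Vadd (x.Vsub (x.Vsub (x.Vsmul I0 w2') (x.Vsmul b (x.Vstar w1')))
      (x.Vsmul (x.Nmul (x.Nmul q W) bi) (x.Vstar bY)))
      (x.Vsmul (x.Nmul (x.Nmul p W) bi) (x.Vstar bu))) c2) (by norm_num) (by norm_num)
  have Dw2 : Vk d K ε 17 1 (dv d.D (w2 d u Y i)) :=
    x.Vmono (x.VD w2' Dbw2) (by norm_num) (by norm_num)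
  exact ⟨x.outV0 40 Dw10 (by norm_num), x.outV0 40 Dbw10 (by norm_num),
    x.outV2 40 Ddw1 (by norm_num) (by norm_num), x.outV2 40 Dbdw1 (by norm_num) (by norm_num),
    x.outV1 40 Dw2 (by norm_num) (by norm_num), x.outV1 40 Dbw2 (by norm_num) (by norm_num)⟩

end Pool.Agent.HSD
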