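import Pool.Agent.HSD.Targets1

set_option autoImplicit false

namespace Pool.Agent.HSD

theorem p_E7 : T_E7 := by
  intro CE CS K hK hCE hCS
  refine ⟨K ^ 30, le_self_pow₀ (by linarith) (by norm_num), ?_⟩
  intro ι R _ _ _ _ ε d u0 u Y i j ax e0 e1 h5 h6
  have x : Ctx CE CS K ε d := ⟨ax, hK, hCE, hCS, e0, e1⟩
  have o0 := x.V0 h5.w10
  have dl1 := x.V2 h5.dw1
  have th := x.V1 h5.w2
  have Do0 := x.V0 h6.Dw10
  have Dbo0 := x.V0 h6.Dbw10
  have Ddl1 := x.V2 h6.Ddw1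
  have Dbdl1 := x.V2 h6.Dbdw1
  have Dth := x.V1 h6.Dw2
  have Dbth := x.V1 h6.Dbw2
  have o1 : Vk d K ε 2 0 (w1 d u Y i) :=
    x.Vmono (x.Veq (x.Vadd dl1 o0) (by abel)) (by norm_num) (by norm_num)
  have Dbo1 : Vk d K ε 2 0 (dv d.Db (w1 d u Y i)) :=
    x.Vmono (x.Veq (x.Vadd Dbdl1 Dbo0) (by rw [← dv_add]; congr 1; abel))
      (by norm_num) (by norm_num)
  have e : ww d u Y i - ww d u0 0 j =
      ip (w1 d u Y i - w1 d u0 0 j) (star (w1 d u Y i)) +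
        ip (w1 d u0 0 j) (star (w1 d u Y i - w1 d u0 0 j)) +
          ip (w2 d u Y i) (star (w2 d u Y i)) := by
    rw [ww_zero]
    unfold ww
    rw [star_sub, ip_sub_left, ip_sub_right]
    ring
  refine ⟨?_, ?_⟩
  · have e' : d.D (ww d u0 0 j) =
        ip (dv d.D (w1 d u0 0 j)) (star (w1 d u0 0 j)) +
          ip (w1 d u0 0 j) (star (dv d.Db (w1 d u0 0 j))) := by
      rw [ww_zero, der_ip, ax.dvD_star]
    exact x.outN0 30 (x.Neq (x.Nadd (x.Vip Do0 (x.Vstar o0)) (x.Vip o0 (x.Vstar Dbo0))) e')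
      (by norm_num)
  · have e' : d.D (ww d u Y i - ww d u0 0 j) =
        ip (dv d.D (w1 d u Y i - w1 d u0 0 j)) (star (w1 d u Y i)) +
          ip (w1 d u Y i - w1 d u0 0 j) (star (dv d.Db (w1 d u Y i))) +
        (ip (dv d.D (w1 d u0 0 j)) (star (w1 d u Y i - w1 d u0 0 j)) +
          ip (w1 d u0 0 j) (star (dv d.Db (w1 d u Y i - w1 d u0 0 j)))) +
        (ip (dv d.D (w2 d u Y i)) (star (w2 d u Y i)) +
          ip (w2 d u Y i) (star (dv d.Db (w2 d u Y i)))) := by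
      rw [e, map_add, map_add, der_ip, der_ip, der_ip, ax.dvD_star, ax.dvD_star, ax.dvD_star]
    exact x.outN2 30 (x.Neq (x.Nadd (x.Nadd
      (x.Nadd (x.Vip Ddl1 (x.Vstar o1)) (x.Vip dl1 (x.Vstar Dbo1)))
      (x.Nadd (x.Vip Do0 (x.Vstar dl1)) (x.Vip o0 (x.Vstar Dbdl1))))
      (x.Nadd (x.Vip Dth (x.Vstar th)) (x.Vip th (x.Vstar Dbth)))) e')
      (by norm_num) (by norm_num)

end Pool.Agent.HSD
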