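import Pool.Agent.HSD.Targets1

set_option autoImplicit false

namespace Pool.Agent.HSD

theorem p_E8 : T_E8 := by
  intro CE CS K hK hCE hCS
  refine ⟨K ^ 20, le_self_pow₀ (by linarith) (by norm_num), ?_⟩
  intro ι R _ _ _ _ ε d u0 u Y i j ax e0 e1 h3 h5 h7
  have x : Ctx CE CS K ε d := ⟨ax, hK, hCE, hCS, e0, e1⟩
  have i0 := x.N0 h3.bi
  have j0 := x.N0 h3.bj
  have Dj := x.N0 h3.Dj
  have di := x.N2 h3.di
  have Ddi := x.N2 h3.Ddi
  have W0 := x.N0 h5.W0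
  have dW := x.N2 h5.dW
  have DW0 := x.N0 h7.DW0
  have DdW := x.N2 h7.DdW
  have Di : Nk d K ε 2 0 (d.D i) :=
    x.Nmono (x.Neq (x.Nadd Ddi Dj) (by rw [← map_add]; congr 1; ring))
      (by norm_num) (by norm_num)
  have e : tt d u Y i - tt d u0 0 j =
      2 * ((ww d u Y i - ww d u0 0 j) * i) + 2 * (ww d u0 0 j * (i - j)) := by
    unfold tt
    ring
  have two : d.D (2 : R) = 0 := der_two _
  refine ⟨?_, ?_⟩
  · exact x.outN2 20 (x.Neq (x.Nadd (x.Nmul x.Ntwo (x.Nmul dW i0))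
      (x.Nmul x.Ntwo (x.Nmul W0 di))) e) (by norm_num) (by norm_num)
  · have e' : d.D (tt d u Y i - tt d u0 0 j) =
        2 * ((ww d u Y i - ww d u0 0 j) * d.D i + i * d.D (ww d u Y i - ww d u0 0 j)) +
          2 * (ww d u0 0 j * d.D (i - j) + (i - j) * d.D (ww d u0 0 j)) := by
      rw [e, map_add, der_mul, der_mul, der_mul, der_mul, two]
      ring
    exact x.outN2 20 (x.Neq (x.Nadd
      (x.Nmul x.Ntwo (x.Nadd (x.Nmul dW Di) (x.Nmul i0 DdW)))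
      (x.Nmul x.Ntwo (x.Nadd (x.Nmul W0 Ddi) (x.Nmul di DW0)))) e')
      (by norm_num) (by norm_num)

end Pool.Agent.HSD
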