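import Pool.Agent.HSD.Targets2

/-!
# HSD, ELL: the elliptic estimate for one frequency
-/

set_option autoImplicit false

namespace Pool.Agent.HSD

open Complex

namespace ELL_

theorem sj_bd {τ : ℝ} {g : ℂ → ℂ} {j : ℤ} (h : sj τ g j ≠ ⊤) {y : ℂ} (hy : y ∈ Sh j) :
    Real.exp (|τ| * y.re / 2) * ‖g y‖ ≤ (sj τ g j).toReal := by
  rw [← ENNReal.ofReal_le_iff_le_toReal h]
  exact le_iSup₂ (f := fun y (_ : y ∈ Sh j) =>
    ENNReal.ofReal (Real.exp (|τ| * y.re / 2) * ‖g y‖)) y hy

/-- `x exp (-x / 4) ≤ 2` -/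
theorem xexp (x : ℝ) (hx : 0 ≤ x) : x * Real.exp (-x / 4) ≤ 2 := by
  have h1 : x / 4 + 1 ≤ Real.exp (x / 4) := Real.add_one_le_exp _
  have h2 : x / 8 + 1 ≤ Real.exp (x / 8) := Real.add_one_le_exp _
  have h3 : Real.exp (x / 4) = Real.exp (x / 8) ^ 2 := by
    rw [← Real.exp_nat_mul]
    congr 1
    push_cast
    ring
  have h4 : (x / 8 + 1) ^ 2 ≤ Real.exp (x / 4) := by
    rw [h3]
    exact pow_le_pow_left₀ (by positivity) h2 2
  have h5 : x ≤ 2 * Real.exp (x / 4) := by nlinarith [sq_nonneg (x / 8 - 1)]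
  have h6 : Real.exp (-x / 4) * Real.exp (x / 4) = 1 := by
    rw [← Real.exp_add]
    ring_nf
    exact Real.exp_zero
  calc x * Real.exp (-x / 4) ≤ 2 * Real.exp (x / 4) * Real.exp (-x / 4) :=
        mul_le_mul_of_nonneg_right h5 (Real.exp_pos _).le
    _ = 2 * (Real.exp (-x / 4) * Real.exp (x / 4)) := by ring
    _ = 2 := by rw [h6, mul_one]

/-- the derivative of `exp (τ t y) g (t y)` -/
theorem hder {g : ℂ → ℂ} (hg : DifferentiableOn ℂ g sec) (ho : IsOpen sec) (τ : ℝ) (y : ℂ)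
    (t : ℝ) (ht : (t : ℂ) * y ∈ sec) (ht0 : t ≠ 0) :
    HasDerivAt (fun t : ℝ => exp (τ * t * y) * g (t * y))
      (exp (τ * t * y) * (-(2 * I) * (I / 2 * (t * y) * ((τ : ℂ) * g (t * y) +
        deriv g (t * y))) / t)) t := by
  have h1 : HasDerivAt g (deriv g (t * y)) (t * y) :=
    (hg.differentiableAt (ho.mem_nhds ht)).hasDerivAt
  have h2 : HasDerivAt (fun x : ℂ => x * y) y (t : ℂ) := by
    simpa using (hasDerivAt_id (t : ℂ)).mul_const y
  have h3 : HasDerivAt (fun x : ℂ => g (x * y)) (deriv g (t * y) * y) (t : ℂ) :=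
    HasDerivAt.comp (t : ℂ) h1 h2
  have h4 : HasDerivAt (fun x : ℂ => exp (τ * x * y)) (exp (τ * t * y) * (τ * y)) (t : ℂ) := by
    have h5 : HasDerivAt (fun x : ℂ => (τ : ℂ) * x * y) (τ * y) (t : ℂ) := by
      simpa using ((hasDerivAt_id (t : ℂ)).const_mul (τ : ℂ)).mul_const y
    exact h5.cexp
  have h6 := (h4.mul h3).comp_ofReal
  refine h6.congr_deriv ?_
  have ht' : (t : ℂ) ≠ 0 := by exact_mod_cast ht0
  have hI : I * I = -1 := I_mul_I
  field_simp
  linear_combination (y * (τ * g (t * y) + deriv g (t * y))) * hI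

theorem nexp (τ t : ℝ) (y : ℂ) : ‖exp (τ * t * y)‖ = Real.exp (τ * t * y.re) := by
  rw [norm_exp]
  congr 1
  simp [mul_re]

end ELL_

open ELL_ in
theorem p_ELL (hSEC : T_SEC) : T_ELL := by
  intro τ g hg j
  obtain ⟨ho, -, hre, hdil, -, -, -, -, -, -, hsh⟩ := hSEC
  obtain ⟨b, hb⟩ : ∃ b : ℂ → ℂ, b = fun y => I / 2 * y * ((τ : ℂ) * g y + deriv g y) :=
    ⟨_, rfl⟩
  rw [← hb]
  by_cases htop : sj τ g (j - 1) + sj τ g (j + 1) + sj τ b (j - 1) + sj τ b j +
      sj τ b (j + 1) = ⊤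
  · rw [htop, ENNReal.mul_top (by norm_num)]
    exact le_top
  obtain ⟨hf1, hf2, hf3, hf4, hf5⟩ : sj τ g (j - 1) ≠ ⊤ ∧ sj τ g (j + 1) ≠ ⊤ ∧
      sj τ b (j - 1) ≠ ⊤ ∧ sj τ b j ≠ ⊤ ∧ sj τ b (j + 1) ≠ ⊤ := by
    simp only [ENNReal.add_eq_top, not_or] at htop
    tauto
  obtain ⟨g1, hg1⟩ : ∃ x, x = (sj τ g (j - 1)).toReal := ⟨_, rfl⟩
  obtain ⟨g2, hg2⟩ : ∃ x, x = (sj τ g (j + 1)).toReal := ⟨_, rfl⟩
  obtain ⟨b1, hb1⟩ : ∃ x, x = (sj τ b (j - 1)).toReal := ⟨_, rfl⟩
  obtain ⟨b2, hb2⟩ : ∃ x, x = (sj τ b j).toReal := ⟨_, rfl⟩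
  obtain ⟨b3, hb3⟩ : ∃ x, x = (sj τ b (j + 1)).toReal := ⟨_, rfl⟩
  have pg1 : 0 ≤ g1 := by rw [hg1]; exact ENNReal.toReal_nonneg
  have pg2 : 0 ≤ g2 := by rw [hg2]; exact ENNReal.toReal_nonneg
  have pb1 : 0 ≤ b1 := by rw [hb1]; exact ENNReal.toReal_nonneg
  have pb2 : 0 ≤ b2 := by rw [hb2]; exact ENNReal.toReal_nonneg
  have pb3 : 0 ≤ b3 := by rw [hb3]; exact ENNReal.toReal_nonneg
  have hR : 16 * (sj τ g (j - 1) + sj τ g (j + 1) + sj τ b (j - 1) + sj τ b j +
      sj τ b (j + 1)) = ENNReal.ofReal (16 * (g1 + g2 + b1 + b2 + b3)) := by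
    rw [ENNReal.ofReal_mul (by norm_num), ENNReal.ofReal_add (by positivity) pb3,
      ENNReal.ofReal_add (by positivity) pb2, ENNReal.ofReal_add (by positivity) pb1,
      ENNReal.ofReal_add pg1 pg2, hg1, hg2, hb1, hb2, hb3, ENNReal.ofReal_toReal hf1,
      ENNReal.ofReal_toReal hf2, ENNReal.ofReal_toReal hf3, ENNReal.ofReal_toReal hf4,
      ENNReal.ofReal_toReal hf5]
    norm_num
  rw [hR]
  refine iSup₂_le fun y hy => ENNReal.ofReal_le_ofReal ?_
  have hys : y ∈ sec := hy.1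
  obtain ⟨hyr, hyn⟩ := hre y hys
  have hnorm : ‖I * (τ : ℂ) * y * g y‖ = |τ| * ‖y‖ * ‖g y‖ := by
    rw [norm_mul, norm_mul, norm_mul, norm_I, norm_real, Real.norm_eq_abs, one_mul]
  rw [hnorm]
  have hgn := norm_nonneg (g y)
  rcases lt_trichotomy τ 0 with hτ | hτ | hτ
  · -- negative frequency
    obtain ⟨T, hT⟩ : ∃ T : ℝ, T = |τ| * y.re := ⟨_, rfl⟩
    have hT' : T = -(τ * y.re) := by rw [hT, abs_of_neg hτ]; ring
    have hT0 : 0 < T := by rw [hT]; exact mul_pos (abs_pos.2 hτ.ne) hyr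
    have hmem : ∀ t : ℝ, 1 ≤ t → t ≤ 2 → (t : ℂ) * y ∈ Sh j ∪ Sh (j + 1) := by
      intro t h1 h2
      have := hsh 0 j t y (by simpa using h1) (by simpa using h2) hy
      simpa using this
    have hbt : ∀ t : ℝ, 1 ≤ t → t ≤ 2 → ‖b (t * y)‖ ≤ Real.exp (-(T * t / 2)) * (b2 + b3) := by
      intro t h1 h2
      have hre' : ((t : ℂ) * y).re = t * y.re := by simp [mul_re]
      have h3 : Real.exp (T * t / 2) * ‖b (t * y)‖ ≤ b2 + b3 := by
        rcases hmem t h1 h2 with h | h
        · have h4 := sj_bd hf4 h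
          rw [hre', ← hb2] at h4
          have h5 : |τ| * (t * y.re) / 2 = T * t / 2 := by rw [hT]; ring
          rw [h5] at h4
          linarith
        · have h4 := sj_bd hf5 h
          rw [hre', ← hb3] at h4
          have h5 : |τ| * (t * y.re) / 2 = T * t / 2 := by rw [hT]; ring
          rw [h5] at h4
          linarith
      have h6 := mul_le_mul_of_nonneg_left h3 (Real.exp_pos (-(T * t / 2))).le
      rwa [← mul_assoc, ← Real.exp_add, neg_add_cancel, Real.exp_zero, one_mul] at h6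
    have hmv := image_norm_le_of_norm_deriv_right_le_deriv_boundary
      (f := fun t : ℝ => exp (τ * t * y) * g (t * y) - exp (τ * (1 : ℝ) * y) * g ((1 : ℝ) * y))
      (f' := fun t => exp (τ * t * y) * (-(2 * I) * (I / 2 * (t * y) * ((τ : ℂ) * g (t * y) +
        deriv g (t * y))) / t)) (a := 1) (b := 2)
      (B := fun t => (4 / (3 * T)) * (b2 + b3) * (Real.exp (-(3 / 2 * T)) -
        Real.exp (-(3 / 2 * T * t))))
      (B' := fun t => 2 * (b2 + b3) * Real.exp (-(3 / 2 * T * t)))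
      (fun t ht => ((hder hg ho τ y t (hdil y hys t (by linarith [ht.1]))
        (by linarith [ht.1])).sub_const _).continuousAt.continuousWithinAt)
      (fun t ht => ((hder hg ho τ y t (hdil y hys t (by linarith [ht.1]))
        (by linarith [ht.1])).sub_const _).hasDerivWithinAt)
      (by simp)
      (fun t => by
        have h1 : HasDerivAt (fun t : ℝ => -(3 / 2 * T * t)) (-(3 / 2 * T)) t := by
          simpa [neg_mul] using (hasDerivAt_id t).const_mul (-(3 / 2 * T))
        have h2 := ((h1.exp).const_sub (Real.exp (-(3 / 2 * T)))).const_mul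
          ((4 / (3 * T)) * (b2 + b3))
        refine h2.congr_deriv ?_
        field_simp
        ring)
      (fun t ht => by
        have ht1 := ht.1
        rw [norm_mul, nexp, norm_div, norm_mul, norm_neg, norm_mul, norm_I]
        have h1 : ‖I / 2 * (↑t * y) * (↑τ * g (↑t * y) + deriv g (↑t * y))‖ ≤
            Real.exp (-(T * t / 2)) * (b2 + b3) := by
          have := hbt t ht1 ht.2.le
          rw [hb] at this
          exact this
        have h2 : ‖(t : ℂ)‖ = t := by
          rw [norm_real, Real.norm_eq_abs, abs_of_pos (by linarith)]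
        rw [h2]
        have h3 : Real.exp (τ * t * y.re) = Real.exp (-(T * t)) := by
          rw [hT']
          ring_nf
        rw [h3]
        have h4 : Real.exp (-(3 / 2 * T * t)) = Real.exp (-(T * t)) *
            Real.exp (-(T * t / 2)) := by
          rw [← Real.exp_add]
          ring_nf
        rw [h4]
        have h5 : ‖(2 : ℂ)‖ * 1 * ‖I / 2 * (↑t * y) * (↑τ * g (↑t * y) + deriv g (↑t * y))‖ / t ≤
            2 * (Real.exp (-(T * t / 2)) * (b2 + b3)) := by
          rw [Complex.norm_ofNat, mul_one]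
          refine (div_le_self (by positivity) ht1).trans ?_
          exact mul_le_mul_of_nonneg_left h1 (by norm_num)
        calc _ ≤ Real.exp (-(T * t)) * (2 * (Real.exp (-(T * t / 2)) * (b2 + b3))) :=
              mul_le_mul_of_nonneg_left h5 (Real.exp_pos _).le
          _ = _ := by ring)
    have h2 := hmv (x := 2) ⟨by norm_num, le_rfl⟩
    have h2y : ((2 : ℝ) : ℂ) * y ∈ Sh (j + 1) := by
      have h3 : (2 : ℝ) ^ (j + 1) = 2 * 2 ^ j := by
        rw [zpow_add₀ (by norm_num), zpow_one]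
        ring
      have h4 : (2 : ℝ) ^ (j + 1 + 1) = 2 * 2 ^ (j + 1) := by
        rw [zpow_add₀ (by norm_num), zpow_one]
        ring
      have hre' : (((2 : ℝ) : ℂ) * y).re = 2 * y.re := by simp [mul_re]
      refine ⟨hdil y hys 2 (by norm_num), ?_, ?_⟩
      · rw [hre', h3]
        linarith [hy.2.1]
      · rw [hre', h4]
        linarith [hy.2.2]
    have hg2y : ‖g (((2 : ℝ) : ℂ) * y)‖ ≤ Real.exp (-T) * g2 := by
      have h4 := sj_bd hf2 h2y
      have hre' : (((2 : ℝ) : ℂ) * y).re = 2 * y.re := by simp [mul_re]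
      have h5 : |τ| * (2 * y.re) / 2 = T := by rw [hT]; ring
      rw [hre', h5, ← hg2] at h4
      have h6 := mul_le_mul_of_nonneg_left h4 (Real.exp_pos (-T)).le
      rwa [← mul_assoc, ← Real.exp_add, neg_add_cancel, Real.exp_zero, one_mul] at h6
    have hmain : Real.exp (-T) * ‖g y‖ ≤ Real.exp (-(2 * T)) * (Real.exp (-T) * g2) +
        4 / (3 * T) * (b2 + b3) * Real.exp (-(3 / 2 * T)) := by
      have e1 : ‖exp (τ * (1 : ℝ) * y) * g ((1 : ℝ) * y)‖ = Real.exp (-T) * ‖g y‖ := by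
        rw [norm_mul, nexp, hT']
        simp
      have e2 : ‖exp (τ * (2 : ℝ) * y) * g ((2 : ℝ) * y)‖ =
          Real.exp (-(2 * T)) * ‖g (((2 : ℝ) : ℂ) * y)‖ := by
        rw [norm_mul, nexp, hT']
        ring_nf
      rw [← e1]
      have h3 : ‖exp (τ * (1 : ℝ) * y) * g ((1 : ℝ) * y)‖ ≤
          ‖exp (τ * (2 : ℝ) * y) * g ((2 : ℝ) * y)‖ + ‖exp (τ * (2 : ℝ) * y) * g ((2 : ℝ) * y) -
            exp (τ * (1 : ℝ) * y) * g ((1 : ℝ) * y)‖ := by
        have := norm_sub_norm_le (exp (τ * (1 : ℝ) * y) * g ((1 : ℝ) * y))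
          (exp (τ * (2 : ℝ) * y) * g ((2 : ℝ) * y))
        rw [norm_sub_rev] at this
        linarith
      refine h3.trans (add_le_add ?_ (h2.trans ?_))
      · rw [e2]
        exact mul_le_mul_of_nonneg_left hg2y (Real.exp_pos _).le
      · refine mul_le_mul_of_nonneg_left ?_ (by positivity)
        linarith [Real.exp_pos (-(3 / 2 * T * 2))]
    have hm2 : Real.exp (T / 2) * ‖g y‖ ≤ Real.exp (-(3 / 2 * T)) * g2 +
        4 / (3 * T) * (b2 + b3) := by
      have h3 := mul_le_mul_of_nonneg_left hmain (Real.exp_pos (3 / 2 * T)).le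
      have e1 : Real.exp (3 / 2 * T) * (Real.exp (-T) * ‖g y‖) = Real.exp (T / 2) * ‖g y‖ := by
        rw [← mul_assoc, ← Real.exp_add]
        ring_nf
      have e2 : Real.exp (3 / 2 * T) * (Real.exp (-(2 * T)) * (Real.exp (-T) * g2) +
          4 / (3 * T) * (b2 + b3) * Real.exp (-(3 / 2 * T))) =
          Real.exp (-(3 / 2 * T)) * g2 + 4 / (3 * T) * (b2 + b3) := by
        have e3 : Real.exp (3 / 2 * T) * (Real.exp (-(2 * T)) * Real.exp (-T)) =
            Real.exp (-(3 / 2 * T)) := by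
          rw [← Real.exp_add, ← Real.exp_add]
          ring_nf
        have e4 : Real.exp (3 / 2 * T) * Real.exp (-(3 / 2 * T)) = 1 := by
          rw [← Real.exp_add, add_neg_cancel, Real.exp_zero]
        calc _ = Real.exp (3 / 2 * T) * (Real.exp (-(2 * T)) * Real.exp (-T)) * g2 +
              4 / (3 * T) * (b2 + b3) * (Real.exp (3 / 2 * T) * Real.exp (-(3 / 2 * T))) := by
                ring
          _ = _ := by rw [e3, e4, mul_one]
      rw [e1, e2] at h3
      exact h3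
    have hw : |τ| * ‖y‖ ≤ 3 / 2 * T := by
      rw [hT]
      nlinarith [abs_nonneg τ]
    have hx : T * Real.exp (-(3 / 2 * T)) ≤ 2 := by
      have h3 := xexp T hT0.le
      have h4 : Real.exp (-(3 / 2 * T)) ≤ Real.exp (-T / 4) := Real.exp_le_exp.2 (by linarith)
      exact (mul_le_mul_of_nonneg_left h4 hT0.le).trans h3
    have he : Real.exp (|τ| * y.re / 2) = Real.exp (T / 2) := by rw [hT]
    rw [he]
    calc Real.exp (T / 2) * (|τ| * ‖y‖ * ‖g y‖)
        = (|τ| * ‖y‖) * (Real.exp (T / 2) * ‖g y‖) := by ring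
      _ ≤ (3 / 2 * T) * (Real.exp (-(3 / 2 * T)) * g2 + 4 / (3 * T) * (b2 + b3)) :=
          mul_le_mul hw hm2 (by positivity) (by positivity)
      _ = 3 / 2 * (T * Real.exp (-(3 / 2 * T))) * g2 + 2 * (b2 + b3) := by
          field_simp
          ring
      _ ≤ 3 / 2 * 2 * g2 + 2 * (b2 + b3) := by gcongr
      _ ≤ _ := by nlinarith
  · rw [hτ]
    simp only [abs_zero, zero_mul, mul_zero]
    positivity
  · -- positive frequency
    obtain ⟨T, hT⟩ : ∃ T : ℝ, T = |τ| * y.re := ⟨_, rfl⟩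
    have hT' : T = τ * y.re := by rw [hT, abs_of_pos hτ]
    have hT0 : 0 < T := by rw [hT]; exact mul_pos (abs_pos.2 hτ.ne') hyr
    have hmem : ∀ t : ℝ, 1 / 2 ≤ t → t ≤ 1 → (t : ℂ) * y ∈ Sh (j - 1) ∪ Sh j := by
      intro t h1 h2
      have := hsh (-1) j t y (by rw [zpow_neg, zpow_one]; linarith) (by simpa using h2) hy
      have e1 : j + -1 + 1 = j := by ring
      have e2 : j + -1 = j - 1 := by ring
      rwa [e1, e2] at this
    have hbt : ∀ t : ℝ, 1 / 2 ≤ t → t ≤ 1 →
        ‖b (t * y)‖ ≤ Real.exp (-(T * t / 2)) * (b1 + b2) := by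
      intro t h1 h2
      have hre' : ((t : ℂ) * y).re = t * y.re := by simp [mul_re]
      have h3 : Real.exp (T * t / 2) * ‖b (t * y)‖ ≤ b1 + b2 := by
        rcases hmem t h1 h2 with h | h
        · have h4 := sj_bd hf3 h
          rw [hre', ← hb1] at h4
          have h5 : |τ| * (t * y.re) / 2 = T * t / 2 := by rw [hT]; ring
          rw [h5] at h4
          linarith
        · have h4 := sj_bd hf4 h
          rw [hre', ← hb2] at h4
          have h5 : |τ| * (t * y.re) / 2 = T * t / 2 := by rw [hT]; ring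
          rw [h5] at h4
          linarith
      have h6 := mul_le_mul_of_nonneg_left h3 (Real.exp_pos (-(T * t / 2))).le
      rwa [← mul_assoc, ← Real.exp_add, neg_add_cancel, Real.exp_zero, one_mul] at h6
    have hmv := image_norm_le_of_norm_deriv_right_le_deriv_boundary
      (f := fun t : ℝ => exp (τ * t * y) * g (t * y) -
        exp (τ * (1 / 2 : ℝ) * y) * g ((1 / 2 : ℝ) * y))
      (f' := fun t => exp (τ * t * y) * (-(2 * I) * (I / 2 * (t * y) * ((τ : ℂ) * g (t * y) +
        deriv g (t * y))) / t)) (a := 1 / 2) (b := 1)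
      (B := fun t => (8 / T) * (b1 + b2) * (Real.exp (T * t / 2) - Real.exp (T * (1 / 2) / 2)))
      (B' := fun t => 4 * (b1 + b2) * Real.exp (T * t / 2))
      (fun t ht => ((hder hg ho τ y t (hdil y hys t (by linarith [ht.1]))
        (by linarith [ht.1])).sub_const _).continuousAt.continuousWithinAt)
      (fun t ht => ((hder hg ho τ y t (hdil y hys t (by linarith [ht.1]))
        (by linarith [ht.1])).sub_const _).hasDerivWithinAt)
      (by simp)
      (fun t => by
        have h1 : HasDerivAt (fun t : ℝ => T * t / 2) (T / 2) t := by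
          simpa using ((hasDerivAt_id t).const_mul T).div_const 2
        have h2 := ((h1.exp).sub_const (Real.exp (T * (1 / 2) / 2))).const_mul
          ((8 / T) * (b1 + b2))
        refine h2.congr_deriv ?_
        field_simp
        ring)
      (fun t ht => by
        have ht1 := ht.1
        rw [norm_mul, nexp, norm_div, norm_mul, norm_neg, norm_mul, norm_I]
        have h1 : ‖I / 2 * (↑t * y) * (↑τ * g (↑t * y) + deriv g (↑t * y))‖ ≤
            Real.exp (-(T * t / 2)) * (b1 + b2) := by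
          have := hbt t ht1 ht.2.le
          rw [hb] at this
          exact this
        have h2 : ‖(t : ℂ)‖ = t := by
          rw [norm_real, Real.norm_eq_abs, abs_of_pos (by linarith)]
        rw [h2]
        have h3 : Real.exp (τ * t * y.re) = Real.exp (T * t / 2) * Real.exp (T * t / 2) := by
          rw [← Real.exp_add, hT']
          ring_nf
        rw [h3]
        have h5 : ‖(2 : ℂ)‖ * 1 * ‖I / 2 * (↑t * y) * (↑τ * g (↑t * y) + deriv g (↑t * y))‖ / t ≤
            4 * (Real.exp (-(T * t / 2)) * (b1 + b2)) := by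
          rw [Complex.norm_ofNat, mul_one, div_le_iff₀ (by linarith)]
          have h6 : 0 ≤ Real.exp (-(T * t / 2)) * (b1 + b2) := by positivity
          nlinarith
        have e4 : Real.exp (T * t / 2) * Real.exp (-(T * t / 2)) = 1 := by
          rw [← Real.exp_add, add_neg_cancel, Real.exp_zero]
        calc _ ≤ Real.exp (T * t / 2) * Real.exp (T * t / 2) *
              (4 * (Real.exp (-(T * t / 2)) * (b1 + b2))) :=
              mul_le_mul_of_nonneg_left h5 (by positivity)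
          _ = 4 * (b1 + b2) * Real.exp (T * t / 2) *
              (Real.exp (T * t / 2) * Real.exp (-(T * t / 2))) := by ring
          _ = _ := by rw [e4, mul_one])
    have h2 := hmv (x := 1) ⟨by norm_num, le_rfl⟩
    have h2y : ((1 / 2 : ℝ) : ℂ) * y ∈ Sh (j - 1) := by
      have h3 : (2 : ℝ) ^ (j - 1) = 2 ^ j / 2 := by
        rw [zpow_sub₀ (by norm_num), zpow_one]
      have h4 : (2 : ℝ) ^ (j + 1) = 2 * 2 ^ j := by
        rw [zpow_add₀ (by norm_num), zpow_one]
        ring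
      have hre' : (((1 / 2 : ℝ) : ℂ) * y).re = 1 / 2 * y.re := by
        rw [re_ofReal_mul]
      refine ⟨hdil y hys (1 / 2) (by norm_num), ?_, ?_⟩
      · rw [hre', h3]
        linarith [hy.2.1]
      · rw [hre', sub_add_cancel]
        have := hy.2.2
        rw [h4] at this
        linarith
    have hg2y : ‖g (((1 / 2 : ℝ) : ℂ) * y)‖ ≤ Real.exp (-T / 4) * g1 := by
      have h4 := sj_bd hf1 h2y
      have hre' : (((1 / 2 : ℝ) : ℂ) * y).re = 1 / 2 * y.re := by
        rw [re_ofReal_mul]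
      have h5 : |τ| * (1 / 2 * y.re) / 2 = T / 4 := by rw [hT]; ring
      rw [hre', h5, ← hg1] at h4
      have h6 := mul_le_mul_of_nonneg_left h4 (Real.exp_pos (-T / 4)).le
      have h7 : -T / 4 + T / 4 = 0 := by ring
      rwa [← mul_assoc, ← Real.exp_add, h7, Real.exp_zero, one_mul] at h6
    have hmain : Real.exp T * ‖g y‖ ≤ Real.exp (T / 2) * (Real.exp (-T / 4) * g1) +
        8 / T * (b1 + b2) * Real.exp (T / 2) := by
      have e1 : ‖exp (τ * (1 : ℝ) * y) * g ((1 : ℝ) * y)‖ = Real.exp T * ‖g y‖ := by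
        rw [norm_mul, nexp, hT']
        simp
      have e2 : ‖exp (τ * (1 / 2 : ℝ) * y) * g ((1 / 2 : ℝ) * y)‖ =
          Real.exp (T / 2) * ‖g (((1 / 2 : ℝ) : ℂ) * y)‖ := by
        rw [norm_mul, nexp, hT']
        ring_nf
      rw [← e1]
      have h3 := norm_sub_norm_le (exp (τ * (1 : ℝ) * y) * g ((1 : ℝ) * y))
          (exp (τ * (1 / 2 : ℝ) * y) * g ((1 / 2 : ℝ) * y))
      have h4 : ‖exp (τ * (1 : ℝ) * y) * g ((1 : ℝ) * y)‖ ≤
          ‖exp (τ * (1 / 2 : ℝ) * y) * g ((1 / 2 : ℝ) * y)‖ +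
          ‖exp (τ * (1 : ℝ) * y) * g ((1 : ℝ) * y) -
            exp (τ * (1 / 2 : ℝ) * y) * g ((1 / 2 : ℝ) * y)‖ := by linarith
      refine h4.trans (add_le_add ?_ (h2.trans ?_))
      · rw [e2]
        exact mul_le_mul_of_nonneg_left hg2y (Real.exp_pos _).le
      · refine mul_le_mul_of_nonneg_left ?_ (by positivity)
        rw [mul_one]
        linarith [Real.exp_pos (T * (1 / 2) / 2)]
    have hm2 : Real.exp (T / 2) * ‖g y‖ ≤ Real.exp (-T / 4) * g1 + 8 / T * (b1 + b2) := by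
      have h3 := mul_le_mul_of_nonneg_left hmain (Real.exp_pos (-(T / 2))).le
      have e1 : Real.exp (-(T / 2)) * (Real.exp T * ‖g y‖) = Real.exp (T / 2) * ‖g y‖ := by
        rw [← mul_assoc, ← Real.exp_add]
        ring_nf
      have e4 : Real.exp (-(T / 2)) * Real.exp (T / 2) = 1 := by
        rw [← Real.exp_add, neg_add_cancel, Real.exp_zero]
      have e2 : Real.exp (-(T / 2)) * (Real.exp (T / 2) * (Real.exp (-T / 4) * g1) +
          8 / T * (b1 + b2) * Real.exp (T / 2)) =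
          Real.exp (-T / 4) * g1 + 8 / T * (b1 + b2) := by
        calc _ = (Real.exp (-(T / 2)) * Real.exp (T / 2)) * (Real.exp (-T / 4) * g1 +
              8 / T * (b1 + b2)) := by ring
          _ = _ := by rw [e4, one_mul]
      rw [e1, e2] at h3
      exact h3
    have hw : |τ| * ‖y‖ ≤ 3 / 2 * T := by
      rw [hT]
      nlinarith [abs_nonneg τ]
    have hx := xexp T hT0.le
    have he : Real.exp (|τ| * y.re / 2) = Real.exp (T / 2) := by rw [hT]
    rw [he]
    calc Real.exp (T / 2) * (|τ| * ‖y‖ * ‖g y‖)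
        = (|τ| * ‖y‖) * (Real.exp (T / 2) * ‖g y‖) := by ring
      _ ≤ (3 / 2 * T) * (Real.exp (-T / 4) * g1 + 8 / T * (b1 + b2)) :=
          mul_le_mul hw hm2 (by positivity) (by positivity)
      _ = 3 / 2 * (T * Real.exp (-T / 4)) * g1 + 12 * (b1 + b2) := by
          field_simp
          ring
      _ ≤ 3 / 2 * 2 * g1 + 12 * (b1 + b2) := by gcongr
      _ ≤ _ := by nlinarith

end Pool.Agent.HSD
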