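import Pool.Agent.HSD.Targets1

set_option autoImplicit false

namespace Pool.Agent.HSD

open Complex

namespace EXI_

section

variable {ι R : Type} [Fintype ι] [CommRing R] [StarRing R] [Algebra ℂ R]

/-- the second component as a function of the first -/
def G (d : Dat ι R) (l : R) (v : ι → R) : ι → R := fun r => d.S2 (star l * v r)

/-- the map whose fixed point is wanted -/
def F (d : Dat ι R) (l : R) (u0 v : ι → R) : ι → R := u0 + fun r => d.S (l * G d l v r)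

/-- the iteration -/
def seq (d : Dat ι R) (l : R) (u0 : ι → R) : ℕ → ι → R
  | 0 => u0
  | k + 1 => F d l u0 (seq d l u0 k)

variable {CE CS ε : ℝ} {d : Dat ι R} {l : R}

theorem V_G (a : Ax CE CS d) (hl : d.N l ε) {v : ι → R} {c : ℝ} (hv : d.V v c) :
    d.V (G d l v) (CS * (ε * c)) :=
  a.V_eq (a.V_S2 (a.V_smul (a.N_star hl) hv)) (by funext r; rfl)

theorem V_G_sub (a : Ax CE CS d) (hl : d.N l ε) {v v' : ι → R} {c1 c2 c : ℝ}
    (h1 : d.V v c1) (h2 : d.V v' c2) (h : d.V (v - v') c) :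
    d.V (G d l v - G d l v') (CS * (ε * c)) := by
  refine a.V_eq (a.V_S2 (a.V_smul (a.N_star hl) h)) ?_
  funext r
  have e1 : d.N (star l * v r) (ε * c1) := a.N_mul (a.N_star hl) (a.V_comp r h1)
  have e2 : d.N (star l * v' r) (ε * c2) := a.N_mul (a.N_star hl) (a.V_comp r h2)
  have e3 := a.S2_sub e1 e2
  simp only [G, Pi.sub_apply, Pi.smul_apply, smul_eq_mul]
  rw [← e3]
  congr 1
  ring

theorem V_F_sub (a : Ax CE CS d) (hl : d.N l ε) {u0 v v' : ι → R} {c1 c2 c : ℝ}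
    (h1 : d.V v c1) (h2 : d.V v' c2) (h : d.V (v - v') c) :
    d.V (F d l u0 v - F d l u0 v') (CS * (ε * (CS * (ε * c)))) := by
  refine a.V_eq (a.V_S (a.V_smul hl (V_G_sub a hl h1 h2 h))) ?_
  funext r
  have e1 : d.N (l * G d l v r) (ε * (CS * (ε * c1))) :=
    a.N_mul hl (a.V_comp r (V_G a hl h1))
  have e2 : d.N (l * G d l v' r) (ε * (CS * (ε * c2))) :=
    a.N_mul hl (a.V_comp r (V_G a hl h2))
  have e3 := a.S_sub e1 e2
  simp only [F, Pi.sub_apply, Pi.add_apply, Pi.smul_apply, smul_eq_mul, add_sub_add_left_eq_sub]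
  rw [← e3]
  congr 1
  ring

theorem V_F (a : Ax CE CS d) (hl : d.N l ε) {u0 v : ι → R} {A c : ℝ}
    (h0 : d.V u0 A) (hv : d.V v c) :
    d.V (F d l u0 v) (A + CS * (ε * (CS * (ε * c)))) :=
  a.V_add h0 (a.V_eq (a.V_S (a.V_smul hl (V_G a hl hv))) (by funext r; rfl))

theorem theta_le {c : ℝ} (hCS : 1 ≤ CS) (he : 0 ≤ ε) (hce : CS * ε ≤ 1 / 2) (hc : 0 ≤ c) :
    CS * (ε * (CS * (ε * c))) ≤ c / 4 := by
  have h0 : 0 ≤ CS * ε := mul_nonneg (by linarith) he
  have h1 : (CS * ε) * (CS * ε) ≤ 1 / 2 * (1 / 2) := mul_le_mul hce hce h0 (by norm_num)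
  calc CS * (ε * (CS * (ε * c))) = (CS * ε) * (CS * ε) * c := by ring
    _ ≤ 1 / 2 * (1 / 2) * c := mul_le_mul_of_nonneg_right h1 hc
    _ = c / 4 := by ring

theorem seq_fin (a : Ax CE CS d) (hl : d.N l ε) {u0 : ι → R} {A : ℝ} (h0 : d.V u0 A) :
    ∀ k, ∃ c, d.V (seq d l u0 k) c
  | 0 => ⟨A, h0⟩
  | k + 1 => by
    obtain ⟨c, hc⟩ := seq_fin a hl h0 k
    exact ⟨_, V_F a hl h0 hc⟩

theorem seq_step (a : Ax CE CS d) (hl : d.N l ε) {u0 : ι → R} {A : ℝ} (he : 0 ≤ ε)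
    (hce : CS * ε ≤ 1 / 2) (hA : 0 < A) (h0 : d.V u0 A) :
    ∀ k, d.V (seq d l u0 (k + 1) - seq d l u0 k) (A / 2 ^ k)
  | 0 => by
    have h1 : d.V (seq d l u0 1 - seq d l u0 0) (CS * (ε * (CS * (ε * A)))) :=
      a.V_eq (a.V_S (a.V_smul hl (V_G a hl h0))) (by
        funext r
        simp only [seq, F, Pi.sub_apply, Pi.add_apply, Pi.smul_apply, smul_eq_mul,
          add_sub_cancel_left])
    refine a.V_mono h1 ((theta_le a.CS_pos he hce hA.le).trans ?_)
    simp only [pow_zero, div_one]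
    linarith
  | k + 1 => by
    have ih := seq_step a hl he hce hA h0 k
    obtain ⟨c1, hc1⟩ := seq_fin a hl h0 (k + 1)
    obtain ⟨c2, hc2⟩ := seq_fin a hl h0 k
    have h1 := V_F_sub (u0 := u0) a hl hc1 hc2 ih
    have hp : 0 < A / 2 ^ k := by positivity
    refine a.V_mono h1 ((theta_le a.CS_pos he hce hp.le).trans ?_)
    rw [pow_succ]
    have : A / (2 ^ k * 2) = A / 2 ^ k / 2 := by field_simp
    rw [this]
    linarith

end

end EXI_

open EXI_ in
theorem p_EXI : T_EXI := by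
  intro ι R _ _ _ _ CE CS A ε d l u0 a cp he hce hA hl h0
  obtain ⟨w, hw⟩ := cp.cplV (seq d l u0) A (seq_step a hl he hce hA h0)
  have hw0 : d.V w (3 * A) := by
    have h1 := hw 0
    have h2 := a.V_of_sub h0 h1
    refine a.V_mono h2 ?_
    simp only [pow_zero, div_one]
    linarith
  have key : w = F d l u0 w := by
    have h1 : w - F d l u0 w = 0 := by
      refine a.V_zero fun c hc => ?_
      obtain ⟨k, hk⟩ : ∃ k : ℕ, 4 * A / c < 2 ^ k :=
        pow_unbounded_of_one_lt _ (by norm_num)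
      obtain ⟨ck, hck⟩ := seq_fin a hl h0 k
      have e1 := hw (k + 1)
      have e2 : d.V (F d l u0 (seq d l u0 k) - F d l u0 w)
          (CS * (ε * (CS * (ε * (2 * A / 2 ^ k))))) :=
        V_F_sub a hl hck hw0 (a.V_sub_comm (hw k))
      have e3 := a.V_tri e1 e2
      refine a.V_mono e3 ?_
      have hp : 0 < (2 : ℝ) ^ k := by positivity
      have hq : 0 < 2 * A / 2 ^ k := by positivity
      have e4 := theta_le a.CS_pos he hce hq.le
      have e5 : 2 * A / 2 ^ (k + 1) = 2 * A / 2 ^ k / 2 := by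
        rw [pow_succ]
        field_simp
      have e6 : 2 * (2 * A / 2 ^ k) ≤ c := by
        rw [div_lt_iff₀ hc] at hk
        have : 2 * (2 * A / 2 ^ k) = 4 * A / 2 ^ k := by ring
        rw [this, div_le_iff₀ hp]
        linarith
      rw [e5]
      linarith
    exact sub_eq_zero.mp h1
  refine ⟨w, G d l w, ⟨key, rfl, hw0, ?_⟩⟩
  refine a.V_mono (V_G a hl hw0) ?_
  calc CS * (ε * (3 * A)) = (CS * ε) * (3 * A) := by ring
    _ ≤ 1 / 2 * (3 * A) := mul_le_mul_of_nonneg_right hce (by linarith)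
    _ ≤ 3 * A := by linarith

end Pool.Agent.HSD
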