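import Pool.Agent.HSD.Targets2

/-!
# HSD: proof of FAD (sums, differences, multiples and constants of families)
-/

set_option autoImplicit false

namespace Pool.Agent.HSD

open Complex

namespace FAD_

theorem le_sj (τ : ℝ) (g : ℂ → ℂ) (j : ℤ) {y : ℂ} (hy : y ∈ Sh j) :
    ENNReal.ofReal (Real.exp (|τ| * y.re / 2) * ‖g y‖) ≤ sj τ g j := by
  unfold sj
  exact le_iSup₂ (f := fun y (_ : y ∈ Sh j) =>
    ENNReal.ofReal (Real.exp (|τ| * y.re / 2) * ‖g y‖)) y hy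

theorem sj_bd (τ : ℝ) (g h k : ℂ → ℂ) (j : ℤ) (hg : ∀ y, ‖g y‖ ≤ ‖h y‖ + ‖k y‖) :
    sj τ g j ≤ sj τ h j + sj τ k j := by
  refine iSup₂_le fun y hy => ?_
  have h1 := le_sj τ h j hy
  have h2 := le_sj τ k j hy
  have e : 0 ≤ Real.exp (|τ| * y.re / 2) := (Real.exp_pos _).le
  calc ENNReal.ofReal (Real.exp (|τ| * y.re / 2) * ‖g y‖)
      ≤ ENNReal.ofReal (Real.exp (|τ| * y.re / 2) * ‖h y‖ +
          Real.exp (|τ| * y.re / 2) * ‖k y‖) := by
        refine ENNReal.ofReal_le_ofReal ?_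
        rw [← mul_add]
        exact mul_le_mul_of_nonneg_left (hg y) e
    _ = ENNReal.ofReal (Real.exp (|τ| * y.re / 2) * ‖h y‖) +
          ENNReal.ofReal (Real.exp (|τ| * y.re / 2) * ‖k y‖) :=
        ENNReal.ofReal_add (mul_nonneg e (norm_nonneg _)) (mul_nonneg e (norm_nonneg _))
    _ ≤ sj τ h j + sj τ k j := add_le_add h1 h2

theorem sj_mul (τ : ℝ) (z : ℂ) (g : ℂ → ℂ) (j : ℤ) :
    sj τ (fun y => z * g y) j ≤ ENNReal.ofReal ‖z‖ * sj τ g j := by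
  refine iSup₂_le fun y hy => ?_
  have h1 := le_sj τ g j hy
  calc ENNReal.ofReal (Real.exp (|τ| * y.re / 2) * ‖z * g y‖)
      = ENNReal.ofReal ‖z‖ * ENNReal.ofReal (Real.exp (|τ| * y.re / 2) * ‖g y‖) := by
        rw [← ENNReal.ofReal_mul (norm_nonneg _), norm_mul]
        congr 1
        ring
    _ ≤ ENNReal.ofReal ‖z‖ * sj τ g j := by gcongr

theorem NN_bd (a b c : ℝ → ℂ → ℂ) (j : ℤ) (h : ∀ τ y, ‖c τ y‖ ≤ ‖a τ y‖ + ‖b τ y‖) :
    NN c j ≤ NN a j + NN b j := by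
  unfold NN
  rw [← ENNReal.tsum_add]
  exact ENNReal.tsum_le_tsum fun τ => sj_bd τ _ _ _ j (h τ)

theorem summ (hSEC : T_SEC) (a : ℝ → ℂ → ℂ) (ha : Fam a) (p : ℝ × ℝ) :
    Summable fun τ : ℝ => a τ (Real.exp p.2 : ℂ) * exp (I * (τ : ℂ) * (p.1 : ℂ)) := by
  obtain ⟨-, -, -, -, -, hreal, hsh, -⟩ := hSEC
  obtain ⟨j, hj⟩ := hsh _ (hreal (Real.exp p.2) (Real.exp_pos _))
  have hfin : ∑' τ : ℝ, sj τ (a τ) j ≠ ⊤ := ha.fin j
  have hs : Summable fun τ : ℝ => (sj τ (a τ) j).toReal := ENNReal.summable_toReal hfin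
  refine Summable.of_norm_bounded hs fun τ => ?_
  have h1 := le_sj τ (a τ) j hj
  have h2 : sj τ (a τ) j ≠ ⊤ := ENNReal.ne_top_of_tsum_ne_top hfin τ
  have h3 := (ENNReal.ofReal_le_iff_le_toReal h2).1 h1
  have h4 : ‖exp (I * (τ : ℂ) * (p.1 : ℂ))‖ = 1 := by
    rw [Complex.norm_exp]
    simp
  rw [norm_mul, h4, mul_one]
  refine le_trans ?_ h3
  refine le_mul_of_one_le_left (norm_nonneg _) (Real.one_le_exp ?_)
  have h5 : 0 < ((Real.exp p.2 : ℝ) : ℂ).re := by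
    rw [ofReal_re]
    exact Real.exp_pos _
  have h6 := abs_nonneg τ
  positivity

end FAD_

open FAD_ in
/-- FAD -/
theorem p_FAD (hSEC : T_SEC) : T_FAD := by
  refine ⟨?_, ?_, ?_⟩
  · intro a b ha hb
    have k1 : ∀ j, NN (fun τ y => a τ y + b τ y) j ≤ NN a j + NN b j := fun j =>
      NN_bd a b _ j fun τ y => norm_add_le _ _
    have k2 : ∀ j, NN (fun τ y => a τ y - b τ y) j ≤ NN a j + NN b j := fun j =>
      NN_bd a b _ j fun τ y => norm_sub_le _ _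
    refine ⟨⟨⟨fun τ => (ha.holo τ).add (hb.holo τ), fun j => ?_⟩, k1, fun p => ?_⟩,
      ⟨⟨fun τ => (ha.holo τ).sub (hb.holo τ), fun j => ?_⟩, k2, fun p => ?_⟩⟩
    · exact ne_top_of_le_ne_top (ENNReal.add_ne_top.2 ⟨ha.fin j, hb.fin j⟩) (k1 j)
    · unfold Ff
      rw [← (summ hSEC a ha p).tsum_add (summ hSEC b hb p)]
      exact tsum_congr fun τ => by ring
    · exact ne_top_of_le_ne_top (ENNReal.add_ne_top.2 ⟨ha.fin j, hb.fin j⟩) (k2 j)
    · unfold Ff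
      rw [← (summ hSEC a ha p).tsum_sub (summ hSEC b hb p)]
      exact tsum_congr fun τ => by ring
  · intro z a ha
    have k1 : ∀ j, NN (fun τ y => z * a τ y) j ≤ ENNReal.ofReal ‖z‖ * NN a j := by
      intro j
      unfold NN
      rw [← ENNReal.tsum_mul_left]
      exact ENNReal.tsum_le_tsum fun τ => sj_mul τ z _ j
    refine ⟨⟨fun τ => (ha.holo τ).const_mul z, fun j => ?_⟩, k1, fun p => ?_⟩
    · exact ne_top_of_le_ne_top (ENNReal.mul_ne_top ENNReal.ofReal_ne_top (ha.fin j)) (k1 j)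
    · unfold Ff
      rw [← tsum_mul_left]
      exact tsum_congr fun τ => by ring
  · intro z
    have k0 : ∀ (τ : ℝ) (j : ℤ), τ ≠ 0 → sj τ (fun _ => if τ = 0 then z else 0) j = 0 := by
      intro τ j h
      unfold sj
      simp [h]
    have k1 : ∀ j, NN (fun τ (_ : ℂ) => if τ = 0 then z else 0) j ≤ ENNReal.ofReal ‖z‖ := by
      intro j
      unfold NN
      rw [tsum_eq_single (0 : ℝ) fun τ h => k0 τ j h]
      refine iSup₂_le fun y _ => ?_
      simp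
    refine ⟨fun τ _ => if τ = 0 then z else 0, ⟨⟨fun τ => ?_, fun j => ?_⟩, fun p => ?_⟩, k1⟩
    · exact differentiableOn_const _
    · exact ne_top_of_le_ne_top ENNReal.ofReal_ne_top (k1 j)
    · unfold Ff
      rw [tsum_eq_single (0 : ℝ) fun τ h => by simp [h]]
      simp

end Pool.Agent.HSD
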