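import Pool.Agent.HSD.Targets2

/-!
# Project HSD: completeness for families
-/

set_option autoImplicit false

namespace Pool.Agent.HSD

open Complex

namespace FCP_

/-- one term of the supremum -/
theorem le_sj {τ : ℝ} {g : ℂ → ℂ} {j : ℤ} {y : ℂ} (hy : y ∈ Sh j) :
    ENNReal.ofReal (Real.exp (|τ| * y.re / 2) * ‖g y‖) ≤ sj τ g j := by
  unfold sj
  exact le_iSup₂ (f := fun (y : ℂ) (_ : y ∈ Sh j) =>
    ENNReal.ofReal (Real.exp (|τ| * y.re / 2) * ‖g y‖)) y hy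

theorem ofReal_mul_norm (c : ℝ) (hc : 0 ≤ c) (z : ℂ) :
    ENNReal.ofReal (c * ‖z‖) = ENNReal.ofReal c * ‖z‖ₑ := by
  rw [ENNReal.ofReal_mul hc, ofReal_norm]

theorem enorm_le_of_hasSum {f : ℕ → ℂ} {s : ℂ} (h : HasSum f s) :
    ‖s‖ₑ ≤ ∑' m, ‖f m‖ₑ := by
  have h1 : Filter.Tendsto (fun t : Finset ℕ => ‖∑ m ∈ t, f m‖ₑ) Filter.atTop
      (nhds ‖s‖ₑ) := (continuous_enorm.tendsto s).comp h
  refine le_of_tendsto' h1 fun t => ?_
  exact (enorm_sum_le _ _).trans (ENNReal.sum_le_tsum t)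

/-- sums of families, termwise -/
theorem sj_le_of_hasSum (τ : ℝ) (g : ℂ → ℂ) (f : ℕ → ℂ → ℂ) (j : ℤ)
    (h : ∀ y ∈ Sh j, HasSum (fun m => f m y) (g y)) : sj τ g j ≤ ∑' m, sj τ (f m) j := by
  have key : ∀ y ∈ Sh j, ENNReal.ofReal (Real.exp (|τ| * y.re / 2) * ‖g y‖) ≤
      ∑' m, sj τ (f m) j := by
    intro y hy
    rw [ofReal_mul_norm _ (Real.exp_pos _).le]
    refine le_trans (mul_le_mul_right (enorm_le_of_hasSum (h y hy)) _) ?_
    rw [← ENNReal.tsum_mul_left]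
    refine ENNReal.tsum_le_tsum fun m => ?_
    rw [← ofReal_mul_norm _ (Real.exp_pos _).le]
    exact le_sj hy
  unfold sj at key ⊢
  exact iSup₂_le key

theorem NN_le_of_hasSum (g : ℝ → ℂ → ℂ) (f : ℕ → ℝ → ℂ → ℂ) (j : ℤ)
    (h : ∀ τ, ∀ y ∈ Sh j, HasSum (fun m => f m τ y) (g τ y)) :
    NN g j ≤ ∑' m, NN (f m) j := by
  unfold NN
  rw [ENNReal.tsum_comm]
  exact ENNReal.tsum_le_tsum fun τ => sj_le_of_hasSum τ (g τ) (fun m => f m τ) j (h τ)

/-- the norm of a sum from the norm of the difference -/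
theorem NN_le_add (g f : ℝ → ℂ → ℂ) (j : ℤ) :
    NN g j ≤ NN f j + NN (fun τ y => g τ y - f τ y) j := by
  unfold NN
  rw [← ENNReal.tsum_add]
  refine ENNReal.tsum_le_tsum fun τ => ?_
  have key : ∀ y ∈ Sh j, ENNReal.ofReal (Real.exp (|τ| * y.re / 2) * ‖g τ y‖) ≤
      sj τ (f τ) j + sj τ (fun y => g τ y - f τ y) j := by
    intro y hy
    refine le_trans ?_ (add_le_add (le_sj (g := f τ) hy)
      (le_sj (g := fun y => g τ y - f τ y) hy))
    rw [← ENNReal.ofReal_add (by positivity) (by positivity), ← mul_add]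
    refine ENNReal.ofReal_le_ofReal (mul_le_mul_of_nonneg_left ?_ (Real.exp_pos _).le)
    calc ‖g τ y‖ = ‖f τ y + (g τ y - f τ y)‖ := by rw [add_sub_cancel]
      _ ≤ ‖f τ y‖ + ‖g τ y - f τ y‖ := norm_add_le _ _
  change sj τ (g τ) j ≤ _
  conv_lhs => unfold sj
  exact iSup₂_le key

/-- pointwise bound by the finite supremum -/
theorem norm_le {τ : ℝ} {g : ℂ → ℂ} {j : ℤ} {y : ℂ} (hy : y ∈ Sh j) (hf : sj τ g j ≠ ⊤) :
    ‖g y‖ ≤ (sj τ g j).toReal := by
  have h1 := le_sj (τ := τ) (g := g) hy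
  have h2 : Real.exp (|τ| * y.re / 2) * ‖g y‖ ≤ (sj τ g j).toReal :=
    (ENNReal.ofReal_le_iff_le_toReal hf).1 h1
  refine le_trans ?_ h2
  have h3 : 0 ≤ y.re := by
    have h4 : (0 : ℝ) < (2 : ℝ) ^ j := by positivity
    linarith [hy.2.1]
  have h4 : 1 ≤ Real.exp (|τ| * y.re / 2) := by
    apply Real.one_le_exp
    have := abs_nonneg τ
    positivity
  calc ‖g y‖ = 1 * ‖g y‖ := (one_mul _).symm
    _ ≤ _ := mul_le_mul_of_nonneg_right h4 (norm_nonneg _)

end FCP_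

open FCP_ in
theorem p_FCP (hSEC : T_SEC) : T_FCP := by
  intro a ha hfin
  obtain ⟨hopen, -, -, -, -, -, -, hnb, -, -, -⟩ := hSEC
  -- the differences
  set e : ℕ → ℝ → ℂ → ℂ := fun m τ y => a (m + 1) τ y - a m τ y with he
  have hefin : ∀ τ j, ∑' m, sj τ (e m τ) j ≠ ⊤ := by
    intro τ j
    refine ne_top_of_le_ne_top (hfin j) ?_
    refine ENNReal.tsum_le_tsum fun m => ?_
    exact ENNReal.le_tsum (f := fun τ => sj τ (e m τ) j) τ
  have hefin1 : ∀ τ j m, sj τ (e m τ) j ≠ ⊤ := fun τ j m =>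
    ne_top_of_le_ne_top (hefin τ j) (ENNReal.le_tsum m)
  have hediff : ∀ m τ, DifferentiableOn ℂ (e m τ) sec := fun m τ =>
    ((ha (m + 1)).holo τ).sub ((ha m).holo τ)
  -- the majorant
  have hmaj : ∀ τ, ∀ y ∈ sec, ∃ U : Set ℂ, ∃ u : ℕ → ℝ, IsOpen U ∧ y ∈ U ∧ U ⊆ sec ∧
      Summable u ∧ ∀ m, ∀ w ∈ U, ‖e m τ w‖ ≤ u m := by
    intro τ y hy
    obtain ⟨j, U, hU, hyU, hUs, hUj⟩ := hnb y hy
    refine ⟨U, fun m => (sj τ (e m τ) j).toReal + (sj τ (e m τ) (j + 1)).toReal, hU, hyU, hUs,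
      (ENNReal.summable_toReal (hefin τ j)).add (ENNReal.summable_toReal (hefin τ (j + 1))), ?_⟩
    intro m w hw
    rcases hUj hw with h | h
    · exact (norm_le h (hefin1 τ j m)).trans (le_add_of_nonneg_right ENNReal.toReal_nonneg)
    · exact (norm_le h (hefin1 τ (j + 1) m)).trans
        (le_add_of_nonneg_left ENNReal.toReal_nonneg)
  have hsum : ∀ τ, ∀ y ∈ sec, Summable (fun m => e m τ y) := by
    intro τ y hy
    obtain ⟨U, u, -, hyU, -, hu, hle⟩ := hmaj τ y hy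
    exact Summable.of_norm_bounded hu fun m => hle m y hyU
  have hdsum : ∀ τ, ∀ y ∈ sec, DifferentiableAt ℂ (fun w => ∑' m, e m τ w) y ∧
      HasSum (fun m => deriv (e m τ) y) (deriv (fun w => ∑' m, e m τ w) y) := by
    intro τ y hy
    obtain ⟨U, u, hU, hyU, hUs, hu, hle⟩ := hmaj τ y hy
    refine ⟨?_, hasSum_deriv_of_summable_norm hu (fun m => (hediff m τ).mono hUs) hU hle hyU⟩
    exact (differentiableOn_tsum_of_summable_norm hu (fun m => (hediff m τ).mono hUs) hU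
      hle).differentiableAt (hU.mem_nhds hyU)
  have haat : ∀ m τ, ∀ y ∈ sec, DifferentiableAt ℂ (a m τ) y := fun m τ y hy =>
    ((ha m).holo τ).differentiableAt (hopen.mem_nhds hy)
  -- telescoping
  have htel : ∀ k τ y, a k τ y = a 0 τ y + ∑ m ∈ Finset.range k, e m τ y := by
    intro k τ y
    have := Finset.sum_range_sub (fun m => a m τ y) k
    simp only [he]
    rw [this]
    ring
  have htail : ∀ k τ, ∀ y ∈ sec, HasSum (fun m => e (k + m) τ y)
      ((a 0 τ y + ∑' m, e m τ y) - a k τ y) := by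
    intro k τ y hy
    have h1 := (hasSum_nat_add_iff' k).2 (hsum τ y hy).hasSum
    have h2 : (∑' m, e m τ y) - ∑ m ∈ Finset.range k, e m τ y =
        (a 0 τ y + ∑' m, e m τ y) - a k τ y := by
      rw [htel k τ y]
      ring
    rw [h2] at h1
    refine h1.congr_fun ?_
    intro m
    rw [add_comm]
  have hdtel : ∀ k τ, ∀ y ∈ sec, deriv (a k τ) y =
      deriv (a 0 τ) y + ∑ m ∈ Finset.range k, deriv (e m τ) y := by
    intro k τ y hy
    have h1 : ∀ m, deriv (e m τ) y = deriv (a (m + 1) τ) y - deriv (a m τ) y := fun m =>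
      deriv_sub (haat (m + 1) τ y hy) (haat m τ y hy)
    have h2 := Finset.sum_range_sub (fun m => deriv (a m τ) y) k
    simp only [h1]
    rw [h2]
    ring
  have hdb : ∀ τ, ∀ y ∈ sec, deriv (fun w => a 0 τ w + ∑' m, e m τ w) y =
      deriv (a 0 τ) y + deriv (fun w => ∑' m, e m τ w) y := fun τ y hy =>
    deriv_fun_add (haat 0 τ y hy) (hdsum τ y hy).1
  have hdtail : ∀ k τ, ∀ y ∈ sec, HasSum (fun m => deriv (e (k + m) τ) y)
      (deriv (fun w => a 0 τ w + ∑' m, e m τ w) y - deriv (a k τ) y) := by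
    intro k τ y hy
    have h1 := (hasSum_nat_add_iff' k).2 (hdsum τ y hy).2
    have h2 : deriv (fun w => ∑' m, e m τ w) y - ∑ m ∈ Finset.range k, deriv (e m τ) y =
        deriv (fun w => a 0 τ w + ∑' m, e m τ w) y - deriv (a k τ) y := by
      rw [hdtel k τ y hy, hdb τ y hy]
      ring
    rw [h2] at h1
    refine h1.congr_fun ?_
    intro m
    rw [add_comm]
  have hb : ∀ k j, NN (fun τ y => (a 0 τ y + ∑' m, e m τ y) - a k τ y) j ≤
      ∑' m : ℕ, NN (e (k + m)) j := fun k j =>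
    NN_le_of_hasSum _ _ j fun τ y hy => htail k τ y hy.1
  refine ⟨fun τ y => a 0 τ y + ∑' m, e m τ y, ⟨?_, ?_⟩, hb, ?_⟩
  · intro τ y hy
    exact ((haat 0 τ y hy).add (hdsum τ y hy).1).differentiableWithinAt
  · intro j
    refine ne_top_of_le_ne_top ?_
      (NN_le_add (fun τ y => a 0 τ y + ∑' m, e m τ y) (a 0) j)
    refine ENNReal.add_ne_top.2 ⟨(ha 0).fin j, ?_⟩
    refine ne_top_of_le_ne_top (hfin j) ((hb 0 j).trans (le_of_eq ?_))
    simp only [zero_add]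
    rfl
  · intro σ k j
    refine NN_le_of_hasSum _ _ j fun τ y hy => ?_
    have h1 := htail k τ y hy.1
    have h2 := hdtail k τ y hy.1
    have h3 := ((h1.mul_left (τ : ℂ)).add (h2.mul_left (σ : ℂ))).mul_left (I / 2 * y)
    have h4 : I / 2 * y * ((τ : ℂ) * ((a 0 τ y + ∑' m, e m τ y) - a k τ y) +
        (σ : ℂ) * (deriv (fun w => a 0 τ w + ∑' m, e m τ w) y - deriv (a k τ) y)) =
        dfam σ (fun τ y => a 0 τ y + ∑' m, e m τ y) τ y - dfam σ (a k) τ y := by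
      unfold dfam
      ring
    rw [h4] at h3
    refine h3.congr_fun ?_
    intro m
    have h5 : deriv (e (k + m) τ) y = deriv (a (k + m + 1) τ) y - deriv (a (k + m) τ) y :=
      deriv_sub (haat _ τ y hy.1) (haat _ τ y hy.1)
    rw [h5]
    simp only [he, dfam]
    ring

end Pool.Agent.HSD
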