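import Pool.Agent.HSD.Targets2

/-!
# Project HSD: target FDD, the elliptic estimate for families
-/

set_option autoImplicit false

namespace Pool.Agent.HSD

open Complex

namespace FDD_

theorem dfam_eq (a : ℝ → ℂ → ℂ) (τ : ℝ) :
    dfam (-1) a τ = fun y => I * (τ : ℂ) * y * a τ y - dfam 1 a τ y := by
  funext y
  unfold dfam
  ring

theorem sj_sub (τ : ℝ) (f g : ℂ → ℂ) (j : ℤ) :
    sj τ (fun y => f y - g y) j ≤ sj τ f j + sj τ g j := by
  unfold sj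
  refine iSup₂_le fun y hy => ?_
  have h1 : ENNReal.ofReal (Real.exp (|τ| * y.re / 2) * ‖f y‖) ≤
      ⨆ y ∈ Sh j, ENNReal.ofReal (Real.exp (|τ| * y.re / 2) * ‖f y‖) :=
    le_iSup₂ (f := fun y (_ : y ∈ Sh j) =>
      ENNReal.ofReal (Real.exp (|τ| * y.re / 2) * ‖f y‖)) y hy
  have h2 : ENNReal.ofReal (Real.exp (|τ| * y.re / 2) * ‖g y‖) ≤
      ⨆ y ∈ Sh j, ENNReal.ofReal (Real.exp (|τ| * y.re / 2) * ‖g y‖) :=
    le_iSup₂ (f := fun y (_ : y ∈ Sh j) =>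
      ENNReal.ofReal (Real.exp (|τ| * y.re / 2) * ‖g y‖)) y hy
  refine le_trans ?_ (add_le_add h1 h2)
  rw [← ENNReal.ofReal_add (by positivity) (by positivity)]
  refine ENNReal.ofReal_le_ofReal ?_
  have h3 := norm_sub_le (f y) (g y)
  have h4 := Real.exp_nonneg (|τ| * y.re / 2)
  nlinarith

end FDD_

theorem p_FDD (hELL : T_ELL) (_hSEC : T_SEC) : T_FDD := by
  intro a ha hb
  have key : ∀ (τ : ℝ) (j : ℤ), sj τ (dfam (-1) a τ) j ≤ 16 * (sj τ (a τ) (j - 1) +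
      sj τ (a τ) (j + 1) + sj τ (dfam 1 a τ) (j - 1) + sj τ (dfam 1 a τ) j +
      sj τ (dfam 1 a τ) (j + 1)) + sj τ (dfam 1 a τ) j := by
    intro τ j
    rw [FDD_.dfam_eq]
    refine le_trans (FDD_.sj_sub τ _ _ j) ?_
    refine add_le_add ?_ le_rfl
    have h := hELL τ (a τ) (ha.holo τ) j
    have e : (fun y => I / 2 * y * ((τ : ℂ) * a τ y + deriv (a τ) y)) = dfam 1 a τ := by
      funext y
      unfold dfam
      ring
    rw [e] at h
    exact h
  have bound : ∀ j, NN (dfam (-1) a) j ≤ 16 * (NN a (j - 1) + NN a (j + 1) +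
      NN (dfam 1 a) (j - 1) + NN (dfam 1 a) j + NN (dfam 1 a) (j + 1)) + NN (dfam 1 a) j := by
    intro j
    unfold NN
    refine le_trans (ENNReal.tsum_le_tsum fun τ => key τ j) ?_
    rw [ENNReal.tsum_add, ENNReal.tsum_mul_left, ENNReal.tsum_add, ENNReal.tsum_add,
      ENNReal.tsum_add, ENNReal.tsum_add]
  refine ⟨⟨fun τ => ?_, fun j => ?_⟩, bound⟩
  · rw [FDD_.dfam_eq]
    refine DifferentiableOn.sub ?_ (hb.holo τ)
    exact ((differentiableOn_const _).mul differentiableOn_id).mul (ha.holo τ)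
  · refine ne_top_of_le_ne_top ?_ (bound j)
    have h1 := ha.fin (j - 1)
    have h2 := ha.fin (j + 1)
    have h3 := hb.fin (j - 1)
    have h4 := hb.fin j
    have h5 := hb.fin (j + 1)
    refine ENNReal.add_ne_top.2 ⟨ENNReal.mul_ne_top (by norm_num) ?_, h4⟩
    exact ENNReal.add_ne_top.2 ⟨ENNReal.add_ne_top.2 ⟨ENNReal.add_ne_top.2
      ⟨ENNReal.add_ne_top.2 ⟨h1, h2⟩, h3⟩, h4⟩, h5⟩

end Pool.Agent.HSD
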