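import Pool.Agent.HSD.Targets4

set_option autoImplicit false

namespace Pool.Agent.HSD

open Complex

theorem p_FIN (hSOL : T_SOL) (hSQR : T_SQR) (hPHI : T_PHI) (hDSU : T_DSU) (hMET : T_MET)
    (hSAD : T_SAD) (hCUR : T_CUR) (hLEN : T_LEN) (hISO : T_ISO) : T_FIN := by
  obtain ⟨m, χ, l, i, u, Y, h1, h2, h3, h4, h5, h6, h7, h8⟩ := hSOL
  obtain ⟨g, g1, g2, g3, g4⟩ := hSQR χ l h1 h2 h3
  obtain ⟨Φ, f1, f2⟩ := hPHI m l g u Y h4 g3 g4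
  have G : Geo m χ l i g u Y Φ := ⟨h1, h2, h3, h4, h5, h6, h7, h8, g1, g2, g3, g4, f1, f2⟩
  have hsm := (hDSU m Φ).1
  have hmet := hMET m χ l i g u Y Φ G
  have hlen : CompleteInd (surf Φ) := by
    refine hLEN _ (surf Φ) hsm fun z a b => ?_
    obtain ⟨X, q, P, Q, y, -, -, -, hy, -, -, -, -, hb⟩ := hmet z
    rw [← hy]
    exact hb a b
  let e : EuclideanSpace ℝ (Fin m ⊕ Fin m) ≃ₗᵢ[ℝ] EuclideanSpace ℝ (Fin (m + m)) :=
    LinearIsometryEquiv.piLpCongrLeft 2 ℝ ℝ finSumFinEquiv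
  obtain ⟨k1, k2, k3, k4, k5, k6⟩ := hISO _ _ e (surf Φ) hsm
  have e1 : gE (fun z => e (surf Φ z)) = gE (surf Φ) := funext k2
  have e2 : gF (fun z => e (surf Φ z)) = gF (surf Φ) := funext k3
  have e3 : gG (fun z => e (surf Φ z)) = gG (surf Φ) := funext k4
  refine ⟨m + m, fun z => e (surf Φ z), k1, fun z => ?_, fun z => ?_, k6 hlen, k5 ?_⟩
  · rw [e1, e2, e3]
    obtain ⟨X, q, P, Q, y, -, -, -, -, -, -, -, hpos, -⟩ := hmet z
    exact hpos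
  · rw [e1, e2, e3]
    exact hCUR m χ l i g u Y Φ G z
  · exact hSAD m χ l i g u Y Φ G

end Pool.Agent.HSD
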