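import Pool.Agent.HSD.Targets2

set_option autoImplicit false

namespace Pool.Agent.HSD

theorem FIP_.aux (hFMU : T_FMU) (hFAD : T_FAD) {ι : Type}
    (a b : ι → ℝ → ℂ → ℂ) (v w : ι → ℝ × ℝ → ℂ)
    (ha : ∀ r, Rep (a r) (v r)) (hb : ∀ r, Rep (b r) (w r)) (s : Finset ι) :
    ∃ c : ℝ → ℂ → ℂ, Rep c (fun p => ∑ r ∈ s, v r p * w r p) ∧
      ∀ j, NN c j ≤ ∑ r ∈ s, NN (a r) j * NN (b r) j := by
  classical
  induction s using Finset.induction_on with
  | empty =>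
    obtain ⟨c, hc, hn⟩ := hFAD.2.2 0
    refine ⟨c, ?_, ?_⟩
    · simpa using hc
    · intro j
      simpa using hn j
  | insert r s hr ih =>
    obtain ⟨c, hc, hn⟩ := ih
    obtain ⟨c1, hc1, hn1⟩ := hFMU (a r) (b r) (v r) (w r) (ha r) (hb r)
    obtain ⟨h1, h2, h3⟩ := (hFAD.1 c1 c hc1.fam hc.fam).1
    refine ⟨fun τ y => c1 τ y + c τ y, ⟨h1, ?_⟩, ?_⟩
    · intro p
      have e1 : v r p * w r p = Ff c1 p := hc1.eq p
      have e2 : (∑ r ∈ s, v r p * w r p) = Ff c p := hc.eq p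
      rw [h3 p, ← e1, ← e2, Finset.sum_insert hr]
    · intro j
      rw [Finset.sum_insert hr]
      exact (h2 j).trans (add_le_add (hn1 j) (hn j))

theorem p_FIP (hFMU : T_FMU) (hFAD : T_FAD) : T_FIP := by
  intro ι _ a b v w ha hb
  exact FIP_.aux hFMU hFAD a b v w ha hb Finset.univ

end Pool.Agent.HSD
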