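import Pool.Agent.HSD.Targets1

/-!
# Project HSD, target FIX: the fixed point
-/

set_option autoImplicit false

namespace Pool.Agent.HSD

open Complex

namespace FIX_

section

variable {ι R : Type} [Fintype ι] [CommRing R] [StarRing R] [Algebra ℂ R]

/-- Powers of two beat constants. -/
lemma small (C c : ℝ) (hc : 0 < c) : ∃ k : ℕ, C / 2 ^ k ≤ c := by
  obtain ⟨k, hk⟩ := pow_unbounded_of_one_lt (C / c) (one_lt_two)
  refine ⟨k, ?_⟩
  rw [div_le_iff₀ (by positivity)]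
  have h1 : C / c < 2 ^ k := hk
  rw [div_lt_iff₀ hc] at h1
  linarith

lemma Good.mono {CE CS : ℝ} {d : Dat ι R} (a : Ax CE CS d) {e e' : ℝ} {χ : R}
    (h : Good d e χ) (he : e ≤ e') : Good d e' χ :=
  ⟨h.real, a.N_mono h.near he, a.N_mono h.der he⟩

/-- One step of the iteration keeps the good elements. -/
lemma good_step {CE CS : ℝ} {d : Dat ι R} (a : Ax CE CS d) (hREA : T_REA) {e K η : ℝ}
    {u Y : ι → R} {i T0 : R} (h : dl u Y * i = 1) (h1 : d.N (tt d u Y i - T0) (K * e ^ 2))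
    (h2 : d.N (d.D (tt d u Y i - T0)) (K * e ^ 2)) (h3 : d.N (T0 - 1) (K * η))
    (h4 : d.N (d.D T0) (K * η)) (h5 : K * e ^ 2 + K * η ≤ e) : Good d e (tt d u Y i) := by
  refine ⟨(hREA ι R d u Y i h).2.2, ?_, ?_⟩
  · exact a.N_le (a.N_add h1 h3) (by ring) h5
  · exact a.N_le (a.N_add h2 h4) (by rw [map_sub]; ring) h5

end

end FIX_

/-- FIX. The fixed point. -/
theorem p_FIX (hSTE : T_STE) (hLIP : T_LIP) (hPTX : T_PTX) (hBAS : T_BAS) (hREA : T_REA)
    (hSYS : T_SYS) (hLOG : T_LOG) : T_FIX := by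
  intro CE CS A hCE hCS hA
  obtain ⟨K1, e1, hK1, he1, he14, HSTE⟩ := hSTE CE CS A hCS hA
  obtain ⟨K2, e2, hK2, he2, HLIP⟩ := hLIP CE CS A hCS hA
  obtain ⟨e3, he3, HPTX⟩ := hPTX CE CS A hCS hA
  obtain ⟨K3, hK3, HBAS⟩ := hBAS
  -- the constants
  obtain ⟨K, hKdef⟩ : ∃ K : ℝ, K = max K1 (max K2 K3) := ⟨_, rfl⟩
  have hKK1 : K1 ≤ K := by rw [hKdef]; exact le_max_left _ _
  have hKK2 : K2 ≤ K := by
    rw [hKdef]; exact (le_max_left _ _).trans (le_max_right _ _)
  have hKK3 : K3 ≤ K := by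
    rw [hKdef]; exact (le_max_right _ _).trans (le_max_right _ _)
  have hK : 1 ≤ K := hK1.trans hKK1
  have hK0 : 0 < K := by linarith
  obtain ⟨e, hedef⟩ : ∃ e : ℝ, e = min (min (e1 / 5) (e2 / 5)) (min (e3 / 5) (1 / (1000 * K))) :=
    ⟨_, rfl⟩
  have he : 0 < e := by
    rw [hedef]
    refine lt_min (lt_min (by linarith) (by linarith)) (lt_min (by linarith) (by positivity))
  have hee1 : 5 * e ≤ e1 := by
    have : e ≤ e1 / 5 := by rw [hedef]; exact (min_le_left _ _).trans (min_le_left _ _)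
    linarith
  have hee2 : 5 * e ≤ e2 := by
    have : e ≤ e2 / 5 := by rw [hedef]; exact (min_le_left _ _).trans (min_le_right _ _)
    linarith
  have hee3 : 5 * e ≤ e3 := by
    have : e ≤ e3 / 5 := by rw [hedef]; exact (min_le_right _ _).trans (min_le_left _ _)
    linarith
  have hKe : K * e ≤ 1 / 1000 := by
    have h1 : e ≤ 1 / (1000 * K) := by
      rw [hedef]; exact (min_le_right _ _).trans (min_le_right _ _)
    have h2 : K * e ≤ K * (1 / (1000 * K)) := mul_le_mul_of_nonneg_left h1 hK0.le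
    have h3 : K * (1 / (1000 * K)) = 1 / 1000 := by field_simp
    linarith
  have hesmall : e ≤ 1 / 1000 := by nlinarith
  have hKe2 : K * e ^ 2 ≤ e / 1000 := by
    have : K * e ^ 2 = (K * e) * e := by ring
    rw [this]
    nlinarith
  obtain ⟨η, hηdef⟩ : ∃ η : ℝ, η = e / (2 * K) := ⟨_, rfl⟩
  have hη : 0 < η := by rw [hηdef]; positivity
  have hKη : K * η = e / 2 := by rw [hηdef]; field_simp
  have hη1 : η ≤ 1 / 2000 := by nlinarith
  refine ⟨η, hη, ?_⟩
  intro ι R _ _ _ _ d u a cpl s0 Vu b1 b2 b3 b4 b5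
  -- the inverse of `q^2`
  have q16 : d.N (qq u 0 - 1) (1 / 16) := a.N_mono b1 (by linarith)
  obtain ⟨j, hj⟩ : ∃ j : R, dl u 0 * j = 1 := by
    have h1 : d.N (1 + qq u 0) (2 + η) := a.N_eq (a.N_add a.N_two b1) (by ring)
    have h2 : d.N (1 - dl u 0) (η * (2 + η)) :=
      a.N_eq (a.N_mul (a.N_sub_comm b1) h1) (by rw [dl_zero]; ring)
    obtain ⟨g, hg, _⟩ := a.N_inv h2 (by nlinarith)
    exact ⟨g, hg⟩
  obtain ⟨t1, t2⟩ := HBAS ι R CE CS η d u j a s0 hη.le (by linarith) hj b1 b2 b3 b4 b5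
  have t1' : d.N (tt d u 0 j - 1) (K * η) :=
    a.N_mono t1 (mul_le_mul_of_nonneg_right hKK3 hη.le)
  have t2' : d.N (d.D (tt d u 0 j)) (K * η) :=
    a.N_mono t2 (mul_le_mul_of_nonneg_right hKK3 hη.le)
  have D1 : d.D 1 = 0 := der_one _
  -- the map
  have H : ∀ χ : {χ : R // Good d e χ}, ∃ χ' : {χ : R // Good d e χ},
      ∃ (l : R) (u' Y : ι → R) (i : R) (c : ℝ), Pt d u χ.1 l u' Y i c ∧
        χ'.1 = tt d u' Y i := by
    intro χ
    obtain ⟨l, u', Y, i, c, hpt⟩ := HPTX ι R d u a cpl s0 Vu q16 e χ.1 he.le (by linarith) χ.2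
    obtain ⟨r1, r2, -, -⟩ := HSTE ι R d u j a s0 Vu q16 hj e c χ.1 l u' Y i he.le (by linarith)
      χ.2 hpt
    have r1' : d.N (tt d u' Y i - tt d u 0 j) (K * e ^ 2) :=
      a.N_mono r1 (mul_le_mul_of_nonneg_right hKK1 (by positivity))
    have r2' : d.N (d.D (tt d u' Y i - tt d u 0 j)) (K * e ^ 2) :=
      a.N_mono r2 (mul_le_mul_of_nonneg_right hKK1 (by positivity))
    exact ⟨⟨tt d u' Y i, FIX_.good_step a hREA hpt.inv r1' r2' t1' t2' (by linarith)⟩,
      l, u', Y, i, c, hpt, rfl⟩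
  choose F hF using H
  have g1 : Good d e 1 :=
    ⟨star_one _, a.N_eq (a.N_zero_of he.le) (sub_self _), a.N_eq (a.N_zero_of he.le) D1⟩
  obtain ⟨x, hx0, hxs⟩ : ∃ x : ℕ → {χ : R // Good d e χ}, (x 0).1 = 1 ∧
      ∀ k, x (k + 1) = F (x k) :=
    ⟨fun k => F^[k] ⟨1, g1⟩, rfl, fun k => Function.iterate_succ_apply' F k _⟩
  -- the differences
  have dif : ∀ k : ℕ, d.N ((x (k + 1)).1 - (x k).1) (2 * e / 2 ^ k) ∧
      d.N (d.D (x (k + 1)).1 - d.D (x k).1) (2 * e / 2 ^ k) := by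
    intro k
    induction k with
    | zero =>
      have h1 := (x 1).2.near
      have h2 := (x 1).2.der
      constructor
      · refine a.N_le h1 ?_ ?_
        · rw [hx0]
        · simp only [pow_zero, div_one]
          linarith
      · refine a.N_le h2 ?_ ?_
        · rw [hx0, D1, sub_zero]
        · simp only [pow_zero, div_one]
          linarith
    | succ k ih =>
      obtain ⟨l, u1, Y1, i1, c1, p1, q1⟩ := hF (x (k + 1))
      obtain ⟨l', u2, Y2, i2, c2, p2, q2⟩ := hF (x k)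
      rw [← hxs] at q1 q2
      obtain ⟨r1, r2⟩ := HLIP ι R d u j a s0 Vu q16 hj e (2 * e / 2 ^ k) c1 c2
        (x (k + 1)).1 (x k).1 l l' u1 Y1 u2 Y2 i1 i2 he.le (by linarith) (by positivity)
        (x (k + 1)).2 (x k).2 ih.1 ih.2 p1 p2
      have hb : K2 * e * (2 * e / 2 ^ k) ≤ 2 * e / 2 ^ (k + 1) := by
        have h1 : K2 * e ≤ K * e := mul_le_mul_of_nonneg_right hKK2 he.le
        have h2 : 0 < 2 * e / 2 ^ k := by positivity
        have h3 : 2 * e / 2 ^ (k + 1) = 1 / 2 * (2 * e / 2 ^ k) := by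
          rw [pow_succ]; field_simp
        rw [h3]
        exact mul_le_mul_of_nonneg_right (by linarith) h2.le
      rw [q1, q2]
      exact ⟨a.N_mono r1 hb, a.N_mono r2 hb⟩
  obtain ⟨χ, hχ⟩ := cpl.cplD (fun k => (x k).1) (2 * e) (fun k => (dif k).1)
    (fun k => (dif k).2)
  have hχ1 : ∀ k, d.N (χ - (x k).1) (4 * e / 2 ^ k) := fun k =>
    a.N_le (hχ k).1 rfl (le_of_eq (by ring))
  have hχ2 : ∀ k, d.N (d.D χ - d.D (x k).1) (4 * e / 2 ^ k) := fun k =>
    a.N_le (hχ k).2 rfl (le_of_eq (by ring))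
  -- `χ` is good
  have near : d.N (χ - 1) (4 * e) := by
    have := hχ1 0
    rw [hx0] at this
    exact a.N_le this rfl (by simp)
  have der : d.N (d.D χ) (4 * e) := by
    have := hχ2 0
    rw [hx0, D1, sub_zero] at this
    exact a.N_le this rfl (by simp)
  have real : star χ = χ := by
    have h0 : star χ - χ = 0 := by
      apply a.N_zero
      intro c hc
      obtain ⟨k, hk⟩ := FIX_.small (8 * e) c hc
      have h1 := a.N_sub (a.N_star (hχ1 k)) (hχ1 k)
      refine a.N_le h1 ?_ ?_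
      · rw [star_sub, (x k).2.real]
        ring
      · have : 4 * e / 2 ^ k + 4 * e / 2 ^ k = 8 * e / 2 ^ k := by ring
        rw [this]
        exact hk
    exact sub_eq_zero.mp h0
  have good : Good d (5 * e) χ :=
    ⟨real, a.N_mono near (by linarith), a.N_mono der (by linarith)⟩
  obtain ⟨l, u', Y, i, c, hpt⟩ := HPTX ι R d u a cpl s0 Vu q16 (5 * e) χ (by linarith) hee3 good
  obtain ⟨-, -, r3, r4⟩ := HSTE ι R d u j a s0 Vu q16 hj (5 * e) c χ l u' Y i (by linarith) hee1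
    good hpt
  have fix : χ = tt d u' Y i := by
    have h0 : χ - tt d u' Y i = 0 := by
      apply a.N_zero
      intro b hb
      obtain ⟨k, hk⟩ := FIX_.small (K2 * (5 * e) * (4 * e) + 4 * e) b hb
      obtain ⟨l', u2, Y2, i2, c2, p2, q2⟩ := hF (x k)
      rw [← hxs] at q2
      obtain ⟨w1, -⟩ := HLIP ι R d u j a s0 Vu q16 hj (5 * e) (4 * e / 2 ^ k) c c2
        χ (x k).1 l l' u' Y u2 Y2 i i2 (by linarith) hee2 (by positivity)
        good (FIX_.Good.mono a (x k).2 (by linarith)) (hχ1 k) (hχ2 k) hpt p2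
      rw [← q2] at w1
      have h1 := a.N_sub (hχ1 (k + 1)) w1
      refine a.N_le h1 (by ring) ?_
      refine le_trans ?_ hk
      have h2 : 4 * e / 2 ^ (k + 1) ≤ 4 * e / 2 ^ k := by
        apply div_le_div_of_nonneg_left (by linarith) (by positivity)
        exact pow_le_pow_right₀ (by norm_num) (Nat.le_succ k)
      have h3 : (K2 * (5 * e) * (4 * e) + 4 * e) / 2 ^ k =
          K2 * (5 * e) * (4 * e / 2 ^ k) + 4 * e / 2 ^ k := by ring
      rw [h3]
      linarith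
    exact sub_eq_zero.mp h0
  have Nl : d.N l (5 * e) := (hLOG ι R CE CS (5 * e) d χ a (by linarith) good).2 l hpt.hl
  refine ⟨χ, l, u', Y, i, real, a.N_mono near (by linarith), hpt.hl,
    hSYS ι R CE CS d l u u' Y c (5 * e) a s0 Nl hpt.sol, hpt.inv, fix, ?_, ?_⟩
  · have h1 : K1 * (5 * e) ^ 2 ≤ K * (5 * e) ^ 2 :=
      mul_le_mul_of_nonneg_right hKK1 (by positivity)
    refine a.N_le (a.N_add r3 b1) (by ring) ?_
    nlinarith
  · have h1 : K1 * (5 * e) ≤ K * (5 * e) := mul_le_mul_of_nonneg_right hKK1 (by positivity)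
    refine a.N_mono r4 ?_
    nlinarith

end Pool.Agent.HSD
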