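import Pool.Agent.HSD.Targets2

/-!
# Project HSD: products of families (job FMU)
-/

set_option autoImplicit false

namespace Pool.Agent.HSD

open Complex

namespace FMU_

theorem sj_ge (τ : ℝ) (g : ℂ → ℂ) (j : ℤ) (y : ℂ) (hy : y ∈ Sh j) :
    ENNReal.ofReal (Real.exp (|τ| * y.re / 2) * ‖g y‖) ≤ sj τ g j :=
  le_iSup₂ (f := fun y (_ : y ∈ Sh j) => ENNReal.ofReal (Real.exp (|τ| * y.re / 2) * ‖g y‖)) y hy

theorem re_pos (j : ℤ) (y : ℂ) (hy : y ∈ Sh j) : 0 < y.re :=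
  lt_of_lt_of_le (zpow_pos (by norm_num) j) hy.2.1

theorem sj_mul (τ σ : ℝ) (f g : ℂ → ℂ) (j : ℤ) :
    sj (τ + σ) (fun y => f y * g y) j ≤ sj τ f j * sj σ g j := by
  refine iSup₂_le fun y hy => ?_
  have h0 := re_pos j y hy
  have h1 : Real.exp (|τ + σ| * y.re / 2) * ‖f y * g y‖ ≤
      (Real.exp (|τ| * y.re / 2) * ‖f y‖) * (Real.exp (|σ| * y.re / 2) * ‖g y‖) := by
    have h2 : Real.exp (|τ + σ| * y.re / 2) ≤
        Real.exp (|τ| * y.re / 2) * Real.exp (|σ| * y.re / 2) := by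
      rw [← Real.exp_add]
      apply Real.exp_le_exp.mpr
      have := mul_le_mul_of_nonneg_right (abs_add_le τ σ) h0.le
      linarith
    rw [norm_mul]
    calc Real.exp (|τ + σ| * y.re / 2) * (‖f y‖ * ‖g y‖)
        ≤ (Real.exp (|τ| * y.re / 2) * Real.exp (|σ| * y.re / 2)) * (‖f y‖ * ‖g y‖) :=
          mul_le_mul_of_nonneg_right h2 (by positivity)
      _ = _ := by ring
  calc ENNReal.ofReal (Real.exp (|τ + σ| * y.re / 2) * ‖f y * g y‖)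
      ≤ ENNReal.ofReal ((Real.exp (|τ| * y.re / 2) * ‖f y‖) *
          (Real.exp (|σ| * y.re / 2) * ‖g y‖)) := ENNReal.ofReal_le_ofReal h1
    _ = ENNReal.ofReal (Real.exp (|τ| * y.re / 2) * ‖f y‖) *
          ENNReal.ofReal (Real.exp (|σ| * y.re / 2) * ‖g y‖) :=
        ENNReal.ofReal_mul (by positivity)
    _ ≤ sj τ f j * sj σ g j := mul_le_mul' (sj_ge τ f j y hy) (sj_ge σ g j y hy)

theorem shell (s : ℝ) : ∃ j : ℤ, ((Real.exp s : ℝ) : ℂ) ∈ Sh j := by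
  obtain ⟨j, hj⟩ := exists_mem_Ico_zpow (Real.exp_pos s) (one_lt_two (α := ℝ))
  refine ⟨j, ?_, ?_, ?_⟩
  · change |((Real.exp s : ℝ) : ℂ).im| < ((Real.exp s : ℝ) : ℂ).re
    rw [ofReal_im, ofReal_re, abs_zero]
    exact Real.exp_pos s
  · rw [ofReal_re]; exact hj.1
  · rw [ofReal_re]; exact hj.2.le

theorem term_norm (z : ℂ) (τ x : ℝ) : ‖z * exp (I * (τ : ℂ) * (x : ℂ))‖ = ‖z‖ := by
  have h : I * (τ : ℂ) * (x : ℂ) = ((τ * x : ℝ) : ℂ) * I := by push_cast; ring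
  rw [norm_mul, h, norm_exp_ofReal_mul_I, mul_one]

theorem summ (a : ℝ → ℂ → ℂ) (ha : Fam a) (p : ℝ × ℝ) :
    Summable fun τ : ℝ => ‖a τ (Real.exp p.2 : ℂ) * exp (I * (τ : ℂ) * (p.1 : ℂ))‖ := by
  obtain ⟨j, hj⟩ := shell p.2
  have hS : Summable fun τ : ℝ => (sj τ (a τ) j).toReal := ENNReal.summable_toReal (ha.fin j)
  refine Summable.of_nonneg_of_le (fun _ => norm_nonneg _) (fun τ => ?_) hS
  rw [term_norm]
  have hne : sj τ (a τ) j ≠ ⊤ := ENNReal.ne_top_of_tsum_ne_top (ha.fin j) τ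
  have h1 := ENNReal.toReal_mono hne (sj_ge τ (a τ) j _ hj)
  rw [ENNReal.toReal_ofReal (by positivity)] at h1
  refine le_trans ?_ h1
  have h2 : (1 : ℝ) ≤ Real.exp (|τ| * (((Real.exp p.2 : ℝ) : ℂ)).re / 2) := by
    apply Real.one_le_exp
    have := re_pos j _ hj
    positivity
  calc ‖a τ ((Real.exp p.2 : ℝ) : ℂ)‖ = 1 * ‖a τ ((Real.exp p.2 : ℝ) : ℂ)‖ := (one_mul _).symm
    _ ≤ _ := mul_le_mul_of_nonneg_right h2 (norm_nonneg _)

end FMU_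

theorem p_FMU (hGEN : T_GEN) : T_FMU := by
  intro a b f g ha hb
  have hle : ∀ j : ℤ, ∑' i : ℝ × ℝ, sj (i.1 + i.2) (fun y => a i.1 y * b i.2 y) j ≤
      NN a j * NN b j := by
    intro j
    calc ∑' i : ℝ × ℝ, sj (i.1 + i.2) (fun y => a i.1 y * b i.2 y) j
        ≤ ∑' i : ℝ × ℝ, sj i.1 (a i.1) j * sj i.2 (b i.2) j :=
          ENNReal.tsum_le_tsum fun i => FMU_.sj_mul i.1 i.2 (a i.1) (b i.2) j
      _ = ∑' τ : ℝ, ∑' σ : ℝ, sj τ (a τ) j * sj σ (b σ) j :=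
          ENNReal.tsum_prod (f := fun τ σ => sj τ (a τ) j * sj σ (b σ) j)
      _ = NN a j * NN b j := by
          simp only [ENNReal.tsum_mul_left, ENNReal.tsum_mul_right, NN]
  obtain ⟨c, hc, hcN, hcF⟩ := hGEN (ℝ × ℝ) (fun i y => a i.1 y * b i.2 y) (fun i => i.1 + i.2)
    (fun i => (ha.fam.holo i.1).mul (hb.fam.holo i.2))
    (fun j => ne_top_of_le_ne_top (ENNReal.mul_ne_top (ha.fam.fin j) (hb.fam.fin j)) (hle j))
  refine ⟨c, ⟨hc, fun p => ?_⟩, fun j => (hcN j).trans (hle j)⟩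
  rw [hcF p, ha.eq p, hb.eq p]
  change (∑' τ : ℝ, _) * (∑' σ : ℝ, _) = _
  rw [tsum_mul_tsum_of_summable_norm (FMU_.summ a ha.fam p) (FMU_.summ b hb.fam p)]
  refine tsum_congr fun i => ?_
  have h : exp (I * ((i.1 + i.2 : ℝ) : ℂ) * (p.1 : ℂ)) =
      exp (I * (i.1 : ℂ) * (p.1 : ℂ)) * exp (I * (i.2 : ℂ) * (p.1 : ℂ)) := by
    rw [← exp_add]; congr 1; push_cast; ring
  rw [h]; ring

end Pool.Agent.HSD
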