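import Pool.Agent.HSD.Targets2

/-!
# Project HSD: the solution for families (job FSO)
-/

set_option autoImplicit false

namespace Pool.Agent.HSD

open Complex

namespace FSO_

theorem sj_ge (τ : ℝ) (g : ℂ → ℂ) (j : ℤ) (y : ℂ) (hy : y ∈ Sh j) :
    ENNReal.ofReal (Real.exp (|τ| * y.re / 2) * ‖g y‖) ≤ sj τ g j :=
  le_iSup₂ (f := fun y (_ : y ∈ Sh j) => ENNReal.ofReal (Real.exp (|τ| * y.re / 2) * ‖g y‖)) y hy

theorem bound (hSEC : T_SEC) (a : ℝ → ℂ → ℂ) (c : ℝ) (hc : ∀ j, NN a j ≤ ENNReal.ofReal c)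
    (τ : ℝ) : ∀ w ∈ sec, Real.exp (|τ| * w.re / 2) * ‖a τ w‖ ≤ |c| := by
  intro w hw
  obtain ⟨j, hj⟩ := hSEC.2.2.2.2.2.2.1 w hw
  have h1 : ENNReal.ofReal (Real.exp (|τ| * w.re / 2) * ‖a τ w‖) ≤ ENNReal.ofReal |c| :=
    calc ENNReal.ofReal (Real.exp (|τ| * w.re / 2) * ‖a τ w‖) ≤ sj τ (a τ) j := sj_ge τ _ j w hj
      _ ≤ NN a j := ENNReal.le_tsum τ
      _ ≤ ENNReal.ofReal c := hc j
      _ ≤ ENNReal.ofReal |c| := ENNReal.ofReal_le_ofReal (le_abs_self c)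
  exact (ENNReal.ofReal_le_ofReal_iff (abs_nonneg c)).mp h1

theorem summ : Summable fun i : ℤ => (300 : ℝ) / 2 ^ i.natAbs := by
  have h : Summable fun n : ℕ => (300 : ℝ) / 2 ^ n := by
    have h2 : Summable fun n : ℕ => (300 : ℝ) * (1 / 2) ^ n :=
      (summable_geometric_of_lt_one (by norm_num) (by norm_num)).mul_left 300
    refine h2.congr fun n => ?_
    rw [one_div, inv_pow]
    rfl
  refine Summable.of_nat_of_neg ?_ ?_
  · exact h.congr fun n => by simp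
  · exact h.congr fun n => by simp

theorem key (hSLB : T_SLB) (a : ℝ → ℂ → ℂ) (j : ℤ) : NN (solF a) j ≤
    ∑' i : ℤ, ENNReal.ofReal (300 / 2 ^ i.natAbs) * NN a (j + i) := by
  calc NN (solF a) j = ∑' τ : ℝ, sj τ (sol1 τ (a τ)) j := rfl
    _ ≤ ∑' τ : ℝ, ∑' i : ℤ, ENNReal.ofReal (300 / 2 ^ i.natAbs) * sj τ (a τ) (j + i) :=
        ENNReal.tsum_le_tsum fun τ => hSLB τ (a τ) j
    _ = ∑' i : ℤ, ∑' τ : ℝ, ENNReal.ofReal (300 / 2 ^ i.natAbs) * sj τ (a τ) (j + i) :=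
        ENNReal.tsum_comm
    _ = ∑' i : ℤ, ENNReal.ofReal (300 / 2 ^ i.natAbs) * NN a (j + i) := by
        refine tsum_congr fun i => ?_
        rw [ENNReal.tsum_mul_left]
        rfl

theorem finite (hSLB : T_SLB) (a : ℝ → ℂ → ℂ) (c : ℝ) (hc : ∀ j, NN a j ≤ ENNReal.ofReal c)
    (j : ℤ) : NN (solF a) j ≠ ⊤ := by
  have h1 : NN (solF a) j ≤ (∑' i : ℤ, ENNReal.ofReal (300 / 2 ^ i.natAbs)) *
      ENNReal.ofReal c := by
    refine (key hSLB a j).trans ?_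
    rw [← ENNReal.tsum_mul_right]
    exact ENNReal.tsum_le_tsum fun i => mul_le_mul_right (hc _) _
  refine ne_top_of_le_ne_top ?_ h1
  exact ENNReal.mul_ne_top summ.tsum_ofReal_ne_top ENNReal.ofReal_ne_top

end FSO_

open FSO_ in
theorem p_FSO (hSLH : T_SLH) (hSLB : T_SLB) (hSEC : T_SEC) : T_FSO := by
  intro a c ha hc
  have hH : ∀ τ : ℝ, _ := fun τ => hSLH τ |c| (a τ) (ha.holo τ) (bound hSEC a c hc τ)
  refine ⟨⟨fun τ => (hH τ).1, finite hSLB a c hc⟩, key hSLB a, ?_, ?_⟩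
  · intro τ y hy
    have h := (hH τ).2.1 y hy
    change I / 2 * y * ((τ : ℂ) * sol1 τ (a τ) y + 1 * deriv (sol1 τ (a τ)) y) =
      I / 2 * sol1 τ (a τ) y + a τ y
    rw [one_mul]
    exact h
  · intro b c' hb hc' τ y hy
    exact (hH τ).2.2 |c'| (b τ) (hb.holo τ) (bound hSEC b c' hc' τ) y hy

end Pool.Agent.HSD
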