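import Pool.Agent.HSD.Targets2

/-!
# Project HSD: conjugate families and the pointwise bound (jobs FST and PTF)
-/

set_option autoImplicit false

namespace Pool.Agent.HSD

open Complex

namespace FST_

theorem sj_ge (τ : ℝ) (g : ℂ → ℂ) (j : ℤ) (y : ℂ) (hy : y ∈ Sh j) :
    ENNReal.ofReal (Real.exp (|τ| * y.re / 2) * ‖g y‖) ≤ sj τ g j :=
  le_iSup₂ (f := fun y (_ : y ∈ Sh j) => ENNReal.ofReal (Real.exp (|τ| * y.re / 2) * ‖g y‖)) y hy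

theorem sec_conj {y : ℂ} (hy : y ∈ sec) : starRingEnd ℂ y ∈ sec := by
  change |(starRingEnd ℂ y).im| < (starRingEnd ℂ y).re
  rw [conj_im, conj_re, abs_neg]
  exact hy

theorem Sh_conj {j : ℤ} {y : ℂ} (hy : y ∈ Sh j) : starRingEnd ℂ y ∈ Sh j :=
  ⟨sec_conj hy.1, by rw [conj_re]; exact hy.2.1, by rw [conj_re]; exact hy.2.2⟩

/-- The conjugate family. -/
noncomputable def cj (a : ℝ → ℂ → ℂ) : ℝ → ℂ → ℂ :=
  fun τ y => starRingEnd ℂ (a (-τ) (starRingEnd ℂ y))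

theorem sj_cj (a : ℝ → ℂ → ℂ) (τ : ℝ) (j : ℤ) : sj τ (cj a τ) j ≤ sj (-τ) (a (-τ)) j := by
  refine iSup₂_le fun y hy => ?_
  have h := sj_ge (-τ) (a (-τ)) j _ (Sh_conj hy)
  rw [abs_neg, conj_re] at h
  refine le_trans (le_of_eq ?_) h
  congr 2
  exact norm_conj _

theorem NN_cj (a : ℝ → ℂ → ℂ) (j : ℤ) : NN (cj a) j ≤ NN a j := by
  unfold NN
  rw [← (Equiv.neg ℝ).tsum_eq (fun τ : ℝ => sj τ (a τ) j)]
  exact ENNReal.tsum_le_tsum fun τ => sj_cj a τ j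

theorem holo_cj (hSEC : T_SEC) (a : ℝ → ℂ → ℂ) (ha : Fam a) (τ : ℝ) :
    DifferentiableOn ℂ (cj a τ) sec := by
  intro y hy
  have h1 : DifferentiableAt ℂ (a (-τ)) (starRingEnd ℂ y) :=
    (ha.holo (-τ)).differentiableAt (hSEC.1.mem_nhds (sec_conj hy))
  have h2 := h1.conj_conj
  rw [conj_conj] at h2
  exact h2.differentiableWithinAt

theorem Ff_cj (a : ℝ → ℂ → ℂ) (p : ℝ × ℝ) : Ff (cj a) p = starRingEnd ℂ (Ff a p) := by
  unfold Ff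
  rw [conj_tsum, ← (Equiv.neg ℝ).tsum_eq (fun τ : ℝ => starRingEnd ℂ
    (a τ (Real.exp p.2 : ℂ) * exp (I * (τ : ℂ) * (p.1 : ℂ))))]
  refine tsum_congr fun τ => ?_
  simp only [Equiv.neg_apply, cj]
  rw [map_mul, ← exp_conj, conj_ofReal]
  congr 2
  rw [map_mul, map_mul, conj_I, conj_ofReal, conj_ofReal]
  push_cast
  ring

theorem shell (s : ℝ) : ∃ j : ℤ, ((Real.exp s : ℝ) : ℂ) ∈ Sh j := by
  obtain ⟨j, hj⟩ := exists_mem_Ico_zpow (Real.exp_pos s) (one_lt_two (α := ℝ))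
  refine ⟨j, ?_, ?_, ?_⟩
  · change |((Real.exp s : ℝ) : ℂ).im| < ((Real.exp s : ℝ) : ℂ).re
    rw [ofReal_im, ofReal_re, abs_zero]
    exact Real.exp_pos s
  · rw [ofReal_re]; exact hj.1
  · rw [ofReal_re]; exact hj.2.le

theorem term_norm (z : ℂ) (τ x : ℝ) : ‖z * exp (I * (τ : ℂ) * (x : ℂ))‖ = ‖z‖ := by
  have h : I * (τ : ℂ) * (x : ℂ) = ((τ * x : ℝ) : ℂ) * I := by push_cast; ring
  rw [norm_mul, h, norm_exp_ofReal_mul_I, mul_one]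

end FST_

theorem p_FST (hSEC : T_SEC) : T_FST := by
  intro a f ha
  refine ⟨FST_.cj a, ⟨⟨fun τ => FST_.holo_cj hSEC a ha.fam τ, fun j => ?_⟩, fun p => ?_⟩,
    FST_.NN_cj a⟩
  · exact ne_top_of_le_ne_top (ha.fam.fin j) (FST_.NN_cj a j)
  · rw [FST_.Ff_cj, ha.eq p]

theorem p_PTF (_hSEC : T_SEC) : T_PTF := by
  intro a f c hc ha hb p
  obtain ⟨j, hj⟩ := FST_.shell p.2
  have h0 : 0 < ((Real.exp p.2 : ℝ) : ℂ).re := by
    rw [ofReal_re]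
    exact Real.exp_pos _
  have h1 : ‖f p‖ₑ ≤ NN a j := by
    rw [ha.eq p]
    unfold Ff
    refine enorm_tsum_le_tsum_enorm.trans ?_
    refine ENNReal.tsum_le_tsum fun τ => ?_
    refine le_trans ?_ (FST_.sj_ge τ (a τ) j _ hj)
    rw [← ofReal_norm, FST_.term_norm]
    apply ENNReal.ofReal_le_ofReal
    have h2 : (1 : ℝ) ≤ Real.exp (|τ| * (((Real.exp p.2 : ℝ) : ℂ)).re / 2) := by
      apply Real.one_le_exp
      positivity
    calc ‖a τ ((Real.exp p.2 : ℝ) : ℂ)‖ = 1 * ‖a τ ((Real.exp p.2 : ℝ) : ℂ)‖ := (one_mul _).symm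
      _ ≤ _ := mul_le_mul_of_nonneg_right h2 (norm_nonneg _)
  have h3 := h1.trans (hb j)
  rw [← ofReal_norm] at h3
  exact (ENNReal.ofReal_le_ofReal_iff hc).1 h3

end Pool.Agent.HSD
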