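import Pool.Agent.HSD.Targets4

/-!
# Project HSD: first derivatives of the surface (FUN) and the saddle property (SAD)
-/

set_option autoImplicit false

namespace Pool.Agent.HSD

open Complex

theorem p_FUN (hOPS : T_OPS) : T_FUN := by
  intro m χ l i g u Y Φ hG
  obtain ⟨h1, h2, -⟩ := hOPS
  have hD : ∀ r, dDer (-1) (Φ r) = g * u r := fun r => by
    have := congrFun hG.DΦ r
    simpa [dv] using this
  have hDb : ∀ r, dDer 1 (Φ r) = g * Y r := fun r => by
    have := congrFun hG.DbΦ r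
    simpa [dv] using this
  constructor
  · funext r
    show pxR (Φ r) = (ies * g) * (u r + Y r)
    rw [h1, hD, hDb]
    ring
  · funext r
    show psR (Φ r) = (cst RR I * g) * (u r - Y r)
    rw [h2, hD, hDb]
    ring

theorem p_SAD (hSEC2 : T_SEC2) : T_SAD := by
  intro m χ l i g u Y Φ hG z ν hν1 hν2
  obtain ⟨X, W, y, h, a1, a2, b1, b2, c1, c2, N1, N2, -, -, -, -, -, -, -, -, -, e11, e12, e22⟩ :=
    hSEC2 m χ l i g u Y Φ hG z
  rw [e11, e12, e22]
  simp only [inner_add_left, real_inner_smul_left, hν1, hν2, mul_zero, zero_add]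
  have h1 : 0 ≤ (y * h * inner ℝ N1 ν) ^ 2 := sq_nonneg _
  have h2 : 0 ≤ (y * h * inner ℝ N2 ν) ^ 2 := sq_nonneg _
  nlinarith [h1, h2]

end Pool.Agent.HSD
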