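import Pool.Agent.HSD.Targets2

/-!
# Project HSD: general sums are represented by families (job GEN)
-/

set_option autoImplicit false

namespace Pool.Agent.HSD

open Complex

namespace GEN_

theorem sj_ge (τ : ℝ) (g : ℂ → ℂ) (j : ℤ) (y : ℂ) (hy : y ∈ Sh j) :
    ENNReal.ofReal (Real.exp (|τ| * y.re / 2) * ‖g y‖) ≤ sj τ g j :=
  le_iSup₂ (f := fun y (_ : y ∈ Sh j) => ENNReal.ofReal (Real.exp (|τ| * y.re / 2) * ‖g y‖)) y hy

theorem re_pos (j : ℤ) (y : ℂ) (hy : y ∈ Sh j) : 0 < y.re :=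
  lt_of_lt_of_le (zpow_pos (by norm_num) j) hy.2.1

theorem wt_ge (τ : ℝ) (y : ℂ) (h : 0 < y.re) : (1 : ℝ) ≤ Real.exp (|τ| * y.re / 2) := by
  apply Real.one_le_exp
  positivity

theorem norm_le (τ : ℝ) (g : ℂ → ℂ) (j : ℤ) (y : ℂ) (hy : y ∈ Sh j) (h : sj τ g j ≠ ⊤) :
    ‖g y‖ ≤ (sj τ g j).toReal := by
  have h1 := ENNReal.toReal_mono h (sj_ge τ g j y hy)
  rw [ENNReal.toReal_ofReal (by positivity)] at h1
  refine le_trans ?_ h1
  calc ‖g y‖ = 1 * ‖g y‖ := (one_mul _).symm
    _ ≤ _ := mul_le_mul_of_nonneg_right (wt_ge τ y (re_pos j y hy)) (norm_nonneg _)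

theorem shell (s : ℝ) : ∃ j : ℤ, ((Real.exp s : ℝ) : ℂ) ∈ Sh j := by
  obtain ⟨j, hj⟩ := exists_mem_Ico_zpow (Real.exp_pos s) (one_lt_two (α := ℝ))
  refine ⟨j, ?_, ?_, ?_⟩
  · change |((Real.exp s : ℝ) : ℂ).im| < ((Real.exp s : ℝ) : ℂ).re
    rw [ofReal_im, ofReal_re, abs_zero]
    exact Real.exp_pos s
  · rw [ofReal_re]; exact hj.1
  · rw [ofReal_re]; exact hj.2.le

theorem term_norm (z : ℂ) (τ x : ℝ) : ‖z * exp (I * (τ : ℂ) * (x : ℂ))‖ = ‖z‖ := by
  have h : I * (τ : ℂ) * (x : ℂ) = ((τ * x : ℝ) : ℂ) * I := by push_cast; ring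
  rw [norm_mul, h, norm_exp_ofReal_mul_I, mul_one]

end GEN_

open Classical in
theorem p_GEN (hSEC : T_SEC) : T_GEN := by
  intro J t ν hol hfin
  obtain ⟨hopen, -, -, -, -, -, -, hnb, -, -, -⟩ := hSEC
  have hfi : ∀ j i, sj (ν i) (t i) j ≠ ⊤ := fun j i => ENNReal.ne_top_of_tsum_ne_top (hfin j) i
  have hsum : ∀ j, Summable fun i => (sj (ν i) (t i) j).toReal :=
    fun j => ENNReal.summable_toReal (hfin j)
  let a : ℝ → ℂ → ℂ := fun τ y => ∑' i, if ν i = τ then t i y else 0
  have hterm : ∀ (τ : ℝ) (j : ℤ) (i : J) (y : ℂ), y ∈ Sh j →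
      ‖(if ν i = τ then t i y else 0)‖ ≤ (sj (ν i) (t i) j).toReal := by
    intro τ j i y hy
    split_ifs with h
    · exact GEN_.norm_le (ν i) (t i) j y hy (hfi j i)
    · simp
  have hNN : ∀ j, NN a j ≤ ∑' i, sj (ν i) (t i) j := by
    intro j
    have h1 : ∀ τ : ℝ, sj τ (a τ) j ≤ ∑' i, if ν i = τ then sj (ν i) (t i) j else 0 := by
      intro τ
      refine iSup₂_le fun y hy => ?_
      have hs : Summable fun i => ‖(if ν i = τ then t i y else 0)‖ :=
        Summable.of_nonneg_of_le (fun _ => norm_nonneg _) (fun i => hterm τ j i y hy) (hsum j)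
      have he : 0 ≤ Real.exp (|τ| * y.re / 2) := (Real.exp_pos _).le
      calc ENNReal.ofReal (Real.exp (|τ| * y.re / 2) * ‖a τ y‖)
          ≤ ENNReal.ofReal (∑' i, Real.exp (|τ| * y.re / 2) *
              ‖(if ν i = τ then t i y else 0)‖) := by
            apply ENNReal.ofReal_le_ofReal
            rw [tsum_mul_left]
            exact mul_le_mul_of_nonneg_left (norm_tsum_le_tsum_norm hs) he
        _ = ∑' i, ENNReal.ofReal (Real.exp (|τ| * y.re / 2) *
              ‖(if ν i = τ then t i y else 0)‖) :=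
            ENNReal.ofReal_tsum_of_nonneg (fun i => mul_nonneg he (norm_nonneg _))
              (hs.mul_left _)
        _ ≤ ∑' i, if ν i = τ then sj (ν i) (t i) j else 0 := by
            refine ENNReal.tsum_le_tsum fun i => ?_
            split_ifs with h
            · rw [← h]
              exact GEN_.sj_ge (ν i) (t i) j y hy
            · simp
    calc NN a j ≤ ∑' τ : ℝ, ∑' i, (if ν i = τ then sj (ν i) (t i) j else 0) :=
          ENNReal.tsum_le_tsum h1
      _ = ∑' i, ∑' τ : ℝ, (if ν i = τ then sj (ν i) (t i) j else 0) := ENNReal.tsum_comm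
      _ = ∑' i, sj (ν i) (t i) j := by
          refine tsum_congr fun i => ?_
          rw [tsum_eq_single (ν i)]
          · simp
          · intro τ hτ
            rw [if_neg (fun h => hτ h.symm)]
  refine ⟨a, ⟨?_, fun j => ne_top_of_le_ne_top (hfin j) (hNN j)⟩, hNN, ?_⟩
  · intro τ y0 hy0
    obtain ⟨j, U, hU, hyU, hUs, hUsh⟩ := hnb y0 hy0
    have hd : DifferentiableOn ℂ (fun y => ∑' i, if ν i = τ then t i y else 0) U := by
      refine differentiableOn_tsum_of_summable_norm
        (u := fun i => (sj (ν i) (t i) j).toReal + (sj (ν i) (t i) (j + 1)).toReal)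
        ((hsum j).add (hsum (j + 1))) (fun i => ?_) hU (fun i y hy => ?_)
      · by_cases h : ν i = τ
        · simp only [if_pos h]
          exact (hol i).mono hUs
        · simp only [if_neg h]
          exact differentiableOn_const 0
      · rcases hUsh hy with h | h
        · have := hterm τ j i y h
          have h2 : 0 ≤ (sj (ν i) (t i) (j + 1)).toReal := ENNReal.toReal_nonneg
          linarith
        · have := hterm τ (j + 1) i y h
          have h2 : 0 ≤ (sj (ν i) (t i) j).toReal := ENNReal.toReal_nonneg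
          linarith
    exact (hd.differentiableAt (hU.mem_nhds hyU)).differentiableWithinAt
  · intro p
    obtain ⟨j, hj⟩ := GEN_.shell p.2
    have hs : Summable fun i => t i (Real.exp p.2 : ℂ) *
        exp (I * (ν i : ℂ) * (p.1 : ℂ)) := by
      refine Summable.of_norm (Summable.of_nonneg_of_le (fun _ => norm_nonneg _)
        (fun i => ?_) (hsum j))
      rw [GEN_.term_norm]
      exact GEN_.norm_le (ν i) (t i) j _ hj (hfi j i)
    have h1 := (hs.hasSum.tsum_fiberwise ν).tsum_eq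
    rw [← h1]
    unfold Ff
    refine tsum_congr fun τ => ?_
    rw [tsum_subtype (ν ⁻¹' {τ}) (fun i => t i (Real.exp p.2 : ℂ) *
      exp (I * (ν i : ℂ) * (p.1 : ℂ))), ← tsum_mul_right]
    refine tsum_congr fun i => ?_
    by_cases h : ν i = τ
    · rw [Set.indicator_of_mem (by simpa using h), if_pos h, h]
    · rw [Set.indicator_of_notMem (by simpa using h), if_neg h, zero_mul]

end Pool.Agent.HSD
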