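import Pool.Agent.HSD.Targets3

/-!
# Project HSD: target GIN
-/

set_option autoImplicit false

namespace Pool.Agent.HSD

open Complex MeasureTheory Filter

namespace GIN_

/-- The majorant. -/
noncomputable def gg (r θ : ℝ) : ℝ := Real.exp θ * r * Real.exp (-(Real.exp θ * r))

theorem hasDeriv_gg (r θ : ℝ) :
    HasDerivAt (fun θ : ℝ => -Real.exp (-(Real.exp θ * r))) (gg r θ) θ := by
  have h1 : HasDerivAt (fun θ : ℝ => -(Real.exp θ * r)) (-(Real.exp θ * r)) θ :=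
    ((Real.hasDerivAt_exp θ).mul_const r).neg
  have h2 := h1.exp.neg
  refine h2.congr_deriv ?_
  unfold gg
  ring

theorem cont_gg (r : ℝ) : Continuous (gg r) := by
  unfold gg
  fun_prop

theorem gg_nonneg {r : ℝ} (hr : 0 < r) (θ : ℝ) : 0 ≤ gg r θ := by
  unfold gg
  positivity

theorem int_gg {r : ℝ} (hr : 0 < r) : Integrable (gg r) := by
  refine integrable_of_intervalIntegral_norm_bounded (ι := ℕ) (l := atTop)
    (a := fun n => -(n : ℝ)) (b := fun n => (n : ℝ)) 1 (fun n => ?_) ?_ ?_ ?_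
  · exact ((cont_gg r).integrableOn_Icc).mono_set Set.Ioc_subset_Icc_self
  · exact tendsto_neg_atTop_atBot.comp tendsto_natCast_atTop_atTop
  · exact tendsto_natCast_atTop_atTop
  · refine Eventually.of_forall fun n => ?_
    have h1 : (∫ x in (-(n : ℝ))..(n : ℝ), ‖gg r x‖) = ∫ x in (-(n : ℝ))..(n : ℝ), gg r x := by
      refine intervalIntegral.integral_congr fun x _ => ?_
      exact Real.norm_of_nonneg (gg_nonneg hr x)
    rw [h1, intervalIntegral.integral_eq_sub_of_hasDerivAt (fun x _ => hasDeriv_gg r x)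
      ((cont_gg r).intervalIntegrable _ _)]
    have h2 : Real.exp (-(Real.exp (-(n : ℝ)) * r)) ≤ 1 := by
      rw [Real.exp_le_one_iff]
      have : 0 < Real.exp (-(n : ℝ)) * r := by positivity
      linarith
    have h3 := Real.exp_pos (-(Real.exp (n : ℝ) * r))
    linarith

theorem integral_gg {r : ℝ} (hr : 0 < r) : ∫ θ, gg r θ = 1 := by
  have hb : Tendsto (fun θ : ℝ => -Real.exp (-(Real.exp θ * r))) atBot (nhds (-1)) := by
    have h1 : Tendsto (fun θ : ℝ => -(Real.exp θ * r)) atBot (nhds (-(0 * r))) :=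
      (Real.tendsto_exp_atBot.mul_const r).neg
    have h2 := ((Real.continuous_exp.tendsto _).comp h1).neg
    simpa using h2
  have ht : Tendsto (fun θ : ℝ => -Real.exp (-(Real.exp θ * r))) atTop (nhds 0) := by
    have h1 : Tendsto (fun θ : ℝ => Real.exp θ * r) atTop atTop :=
      Real.tendsto_exp_atTop.atTop_mul_const hr
    have h2 := (Real.tendsto_exp_neg_atTop_nhds_zero.comp h1).neg
    simpa using h2
  rw [integral_of_hasDerivAt_of_tendsto (fun x => hasDeriv_gg r x) (int_gg hr) hb ht]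
  norm_num

theorem pow_exp_le {ρ : ℝ} (hρ : 0 ≤ ρ) (m : ℕ) :
    ρ ^ m * Real.exp (-ρ) ≤ m.factorial := by
  have h := Real.pow_div_factorial_le_exp ρ hρ m
  rw [div_le_iff₀ (by positivity)] at h
  rw [Real.exp_neg, ← div_eq_mul_inv, div_le_iff₀ (Real.exp_pos _)]
  linarith

theorem sec_norm {y : ℂ} (hy : y ∈ sec) : 0 < y.re ∧ ‖y‖ ≤ 3 / 2 * y.re := by
  have h1 : |y.im| < y.re := hy
  have h0 : 0 < y.re := lt_of_le_of_lt (abs_nonneg _) h1
  refine ⟨h0, ?_⟩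
  have h2 : ‖y‖ ^ 2 = y.re ^ 2 + y.im ^ 2 := by
    rw [← Complex.normSq_eq_norm_sq, Complex.normSq_apply]; ring
  have h3 : y.im ^ 2 ≤ y.re ^ 2 := sq_le_sq' (by linarith [(abs_lt.mp h1).1]) (abs_lt.mp h1).2.le
  nlinarith [norm_nonneg y]

theorem norm_v {y : ℂ} (hy : y ∈ sec) (θ : ℝ) :
    ‖(Real.exp θ : ℂ) * y‖ ≤ 3 / 2 * (Real.exp θ * y.re) := by
  rw [norm_mul, Complex.norm_real, Real.norm_of_nonneg (Real.exp_pos θ).le]
  have := mul_le_mul_of_nonneg_left (sec_norm hy).2 (Real.exp_pos θ).le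
  linarith

theorem norm_e (y : ℂ) (θ : ℝ) :
    ‖exp (-2 * ((Real.exp θ : ℂ) * y))‖ = Real.exp (-2 * (Real.exp θ * y.re)) := by
  rw [Complex.norm_exp]
  congr 1
  simp only [mul_re, ofReal_re, ofReal_im, neg_re, neg_im, re_ofNat, im_ofNat, zero_mul,
    sub_zero, neg_zero]

/-- The bound for the basic integrand. -/
theorem bd {y : ℂ} (hy : y ∈ sec) (m : ℕ) (θ : ℝ) :
    ‖((Real.exp θ : ℂ) * y) ^ (m + 1) * exp (-2 * ((Real.exp θ : ℂ) * y))‖ ≤
      (3 / 2) ^ (m + 1) * m.factorial * gg y.re θ := by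
  have hr : 0 < y.re := (sec_norm hy).1
  set ρ : ℝ := Real.exp θ * y.re with hρ
  have hρ0 : 0 < ρ := by positivity
  have h1 := norm_v hy θ
  rw [norm_mul, norm_pow, norm_e]
  have h2 : ‖(Real.exp θ : ℂ) * y‖ ^ (m + 1) ≤ (3 / 2 * ρ) ^ (m + 1) :=
    pow_le_pow_left₀ (norm_nonneg _) h1 _
  have h3 : Real.exp (-2 * ρ) = Real.exp (-ρ) * Real.exp (-ρ) := by
    rw [← Real.exp_add]; congr 1; ring
  have h4 := pow_exp_le hρ0.le m
  have h5 : gg y.re θ = ρ * Real.exp (-ρ) := rfl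
  rw [h5]
  calc ‖(Real.exp θ : ℂ) * y‖ ^ (m + 1) * Real.exp (-2 * ρ)
      ≤ (3 / 2 * ρ) ^ (m + 1) * Real.exp (-2 * ρ) :=
        mul_le_mul_of_nonneg_right h2 (Real.exp_pos _).le
    _ = (3 / 2) ^ (m + 1) * (ρ * Real.exp (-ρ)) * (ρ ^ m * Real.exp (-ρ)) := by
        rw [h3]; ring
    _ ≤ (3 / 2) ^ (m + 1) * (ρ * Real.exp (-ρ)) * m.factorial :=
        mul_le_mul_of_nonneg_left h4 (by positivity)
    _ = _ := by ring

theorem cont (y : ℂ) (n : ℕ) : Continuous (fun θ : ℝ => ((Real.exp θ : ℂ) * y) ^ n *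
    exp (-2 * ((Real.exp θ : ℂ) * y))) := by
  have h : Continuous (fun θ : ℝ => ((Real.exp θ : ℝ) : ℂ)) :=
    Complex.continuous_ofReal.comp Real.continuous_exp
  fun_prop

theorem int_basic {y : ℂ} (hy : y ∈ sec) (m : ℕ) :
    Integrable (fun θ : ℝ => ((Real.exp θ : ℂ) * y) ^ (m + 1) *
      exp (-2 * ((Real.exp θ : ℂ) * y))) := by
  refine Integrable.mono' ((int_gg (sec_norm hy).1).const_mul
    ((3 / 2) ^ (m + 1) * (m.factorial : ℝ))) (cont y _).aestronglyMeasurable ?_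
  exact Eventually.of_forall fun θ => bd hy m θ

theorem deriv_v (y : ℂ) (θ : ℝ) :
    HasDerivAt (fun θ : ℝ => (Real.exp θ : ℂ) * y) ((Real.exp θ : ℂ) * y) θ := by
  have h : HasDerivAt (fun θ : ℝ => ((Real.exp θ : ℝ) : ℂ)) ((Real.exp θ : ℝ) : ℂ) θ :=
    (Real.hasDerivAt_exp θ).ofReal_comp
  exact h.mul_const y

theorem deriv_e (y : ℂ) (θ : ℝ) :
    HasDerivAt (fun θ : ℝ => exp (-2 * ((Real.exp θ : ℂ) * y)))
      (exp (-2 * ((Real.exp θ : ℂ) * y)) * (-2 * ((Real.exp θ : ℂ) * y))) θ := by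
  have h := (deriv_v y θ).const_mul (-2 : ℂ)
  exact h.cexp

theorem deriv_step (y : ℂ) (m : ℕ) (θ : ℝ) :
    HasDerivAt (fun θ : ℝ => ((Real.exp θ : ℂ) * y) ^ (m + 1) *
        exp (-2 * ((Real.exp θ : ℂ) * y)))
      ((m + 1 : ℂ) * (((Real.exp θ : ℂ) * y) ^ (m + 1) * exp (-2 * ((Real.exp θ : ℂ) * y))) -
        2 * (((Real.exp θ : ℂ) * y) ^ (m + 1 + 1) * exp (-2 * ((Real.exp θ : ℂ) * y)))) θ := by
  have h := ((deriv_v y θ).pow (m + 1)).mul (deriv_e y θ)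
  refine h.congr_deriv ?_
  simp only [Nat.add_sub_cancel, Pi.pow_apply]
  push_cast
  ring

theorem value {y : ℂ} (hy : y ∈ sec) (m : ℕ) :
    ∫ θ : ℝ, ((Real.exp θ : ℂ) * y) ^ (m + 1) * exp (-2 * ((Real.exp θ : ℂ) * y)) =
      (m.factorial : ℂ) / 2 ^ (m + 1) := by
  have hr : 0 < y.re := (sec_norm hy).1
  induction m with
  | zero =>
    have hd : ∀ θ : ℝ, HasDerivAt (fun θ : ℝ => -(1 / 2 : ℂ) * exp (-2 * ((Real.exp θ : ℂ) * y)))
        (((Real.exp θ : ℂ) * y) ^ (0 + 1) * exp (-2 * ((Real.exp θ : ℂ) * y))) θ := by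
      intro θ
      refine ((deriv_e y θ).const_mul (-(1 / 2 : ℂ))).congr_deriv ?_
      ring
    have hv : Tendsto (fun θ : ℝ => ((Real.exp θ : ℝ) : ℂ)) atBot (nhds ((0 : ℝ) : ℂ)) :=
      (Complex.continuous_ofReal.tendsto _).comp Real.tendsto_exp_atBot
    have hb : Tendsto (fun θ : ℝ => -(1 / 2 : ℂ) * exp (-2 * ((Real.exp θ : ℂ) * y))) atBot
        (nhds (-(1 / 2 : ℂ) * exp (-2 * (((0 : ℝ) : ℂ) * y)))) := by
      have h1 : Tendsto (fun θ : ℝ => -2 * ((Real.exp θ : ℂ) * y)) atBot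
          (nhds (-2 * (((0 : ℝ) : ℂ) * y))) := (hv.mul_const y).const_mul (-2)
      exact ((Complex.continuous_exp.tendsto _).comp h1).const_mul _
    have ht : Tendsto (fun θ : ℝ => -(1 / 2 : ℂ) * exp (-2 * ((Real.exp θ : ℂ) * y))) atTop
        (nhds 0) := by
      rw [tendsto_zero_iff_norm_tendsto_zero]
      have h1 : Tendsto (fun θ : ℝ => 2 * (Real.exp θ * y.re)) atTop atTop :=
        (Real.tendsto_exp_atTop.atTop_mul_const hr).const_mul_atTop (by norm_num)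
      have h2 := (Real.tendsto_exp_neg_atTop_nhds_zero.comp h1).const_mul (1 / 2 : ℝ)
      rw [mul_zero] at h2
      refine h2.congr fun θ => ?_
      rw [norm_mul, norm_e]
      simp
    rw [integral_of_hasDerivAt_of_tendsto hd (int_basic hy 0) hb ht]
    simp
  | succ m ih =>
    have h1 := int_basic hy m
    have h2 := int_basic hy (m + 1)
    have h3 := integral_eq_zero_of_hasDerivAt_of_integrable (deriv_step y m)
      ((h1.const_mul (m + 1 : ℂ)).sub (h2.const_mul 2)) h1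
    rw [integral_sub (h1.const_mul _) (h2.const_mul _), integral_const_mul,
      integral_const_mul, ih] at h3
    have h4 : (2 : ℂ) ≠ 0 := by norm_num
    have h5 : ∫ θ : ℝ, ((Real.exp θ : ℂ) * y) ^ (m + 1 + 1) *
        exp (-2 * ((Real.exp θ : ℂ) * y)) =
          ((m + 1 : ℂ) * ((m.factorial : ℂ) / 2 ^ (m + 1))) / 2 := by
      rw [eq_div_iff h4]
      linear_combination -h3
    rw [h5, Nat.factorial_succ]
    push_cast
    rw [pow_succ (2 : ℂ) (m + 1)]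
    field_simp

/-- The bound for the second integrand. -/
theorem bd2 {y : ℂ} (hy : y ∈ sec) (m : ℕ) (θ : ℝ) :
    ‖(((m + 1 : ℕ) : ℂ) - 2 * ((Real.exp θ : ℂ) * y)) *
      ((Real.exp θ : ℂ) * y) ^ (m + 1) * exp (-2 * ((Real.exp θ : ℂ) * y))‖ ≤
      (4 * (3 / 2) ^ (m + 2) * (m + 1).factorial) * gg y.re θ := by
  have e : (((m + 1 : ℕ) : ℂ) - 2 * ((Real.exp θ : ℂ) * y)) *
      ((Real.exp θ : ℂ) * y) ^ (m + 1) * exp (-2 * ((Real.exp θ : ℂ) * y)) =
      ((m + 1 : ℕ) : ℂ) * (((Real.exp θ : ℂ) * y) ^ (m + 1) *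
        exp (-2 * ((Real.exp θ : ℂ) * y))) - 2 * (((Real.exp θ : ℂ) * y) ^ (m + 1 + 1) *
          exp (-2 * ((Real.exp θ : ℂ) * y))) := by ring
  rw [e]
  refine (norm_sub_le _ _).trans ?_
  rw [norm_mul (((m + 1 : ℕ) : ℂ)), norm_mul (2 : ℂ), Complex.norm_natCast, Complex.norm_ofNat]
  have h1 := bd hy m θ
  have h2 := bd hy (m + 1) θ
  have hg := gg_nonneg (sec_norm hy).1 θ
  have hf : ((m + 1).factorial : ℝ) = (m + 1 : ℝ) * m.factorial := by
    rw [Nat.factorial_succ]; push_cast; ring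
  have h3 : ((m + 1 : ℕ) : ℝ) * ((3 / 2) ^ (m + 1) * m.factorial * gg y.re θ) =
      (3 / 2) ^ (m + 1) * ((m + 1).factorial : ℝ) * gg y.re θ := by
    rw [hf]; push_cast; ring
  have h4 : ((m + 1 : ℕ) : ℝ) * ‖((Real.exp θ : ℂ) * y) ^ (m + 1) *
      exp (-2 * ((Real.exp θ : ℂ) * y))‖ ≤
      ((m + 1 : ℕ) : ℝ) * ((3 / 2) ^ (m + 1) * m.factorial * gg y.re θ) :=
    mul_le_mul_of_nonneg_left h1 (by positivity)
  have h6 : (3 / 2 : ℝ) ^ (m + 2) = 3 / 2 * (3 / 2) ^ (m + 1) := by rw [pow_succ]; ring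
  have h7 : (0 : ℝ) ≤ (3 / 2) ^ (m + 1) * ((m + 1).factorial : ℝ) * gg y.re θ := by positivity
  rw [h6]
  rw [show m + 1 + 1 = m + 2 from rfl, h6] at h2
  rw [h3] at h4
  nlinarith

end GIN_

theorem p_GIN : T_GIN := by
  intro n hn
  obtain ⟨m, rfl⟩ : ∃ m, n = m + 1 := ⟨n - 1, by omega⟩
  refine ⟨fun y hy => ⟨GIN_.int_basic hy m, ?_⟩,
    4 * (3 / 2) ^ (m + 2) * (m + 1).factorial, by positivity, fun y hy => ?_⟩
  · rw [Nat.add_sub_cancel]
    exact GIN_.value hy m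
  · have hr : 0 < y.re := (GIN_.sec_norm hy).1
    have hc : Continuous (fun θ : ℝ => (((m + 1 : ℕ) : ℂ) - 2 * ((Real.exp θ : ℂ) * y)) *
        ((Real.exp θ : ℂ) * y) ^ (m + 1) * exp (-2 * ((Real.exp θ : ℂ) * y))) := by
      have h : Continuous (fun θ : ℝ => ((Real.exp θ : ℝ) : ℂ)) :=
        Complex.continuous_ofReal.comp Real.continuous_exp
      fun_prop
    have hi : Integrable (fun θ : ℝ => (((m + 1 : ℕ) : ℂ) - 2 * ((Real.exp θ : ℂ) * y)) *
        ((Real.exp θ : ℂ) * y) ^ (m + 1) * exp (-2 * ((Real.exp θ : ℂ) * y))) :=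
      Integrable.mono' ((GIN_.int_gg hr).const_mul _) hc.aestronglyMeasurable
        (Eventually.of_forall fun θ => GIN_.bd2 hy m θ)
    refine ⟨hi, ?_⟩
    refine (integral_mono hi.norm ((GIN_.int_gg hr).const_mul _)
      (fun θ => GIN_.bd2 hy m θ)).trans ?_
    rw [integral_const_mul, GIN_.integral_gg hr, mul_one]

end Pool.Agent.HSD
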