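import Pool.Agent.HSD.Targets3

/-!
# Project HSD: target INJ, families with injective frequencies
-/

set_option autoImplicit false

namespace Pool.Agent.HSD

open Complex

namespace INJ_

open Classical in
/-- The family with coefficient `t i` at the frequency `ν i`. -/
noncomputable def fam {J : Type} (t : J → ℂ → ℂ) (ν : J → ℝ) (τ : ℝ) : ℂ → ℂ :=
  if h : ∃ i, ν i = τ then t h.choose else fun _ => 0

theorem fam_at {J : Type} (t : J → ℂ → ℂ) (ν : J → ℝ) (hν : Function.Injective ν) (i : J) :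
    fam t ν (ν i) = t i := by
  have h : ∃ k, ν k = ν i := ⟨i, rfl⟩
  have e : h.choose = i := hν h.choose_spec
  unfold fam
  rw [dif_pos h, e]

theorem fam_off {J : Type} (t : J → ℂ → ℂ) (ν : J → ℝ) (τ : ℝ) (h : τ ∉ Set.range ν) :
    fam t ν τ = fun _ => 0 := by
  unfold fam
  rw [dif_neg]
  rintro ⟨i, hi⟩
  exact h ⟨i, hi⟩

theorem sj_o (τ : ℝ) (j : ℤ) : sj τ (fun _ => 0) j = 0 := by
  unfold sj
  simp

theorem tsum_fam {J : Type} {M : Type} [AddCommMonoid M] [TopologicalSpace M]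
    (ν : J → ℝ) (hν : Function.Injective ν) (F : ℝ → M) (hF : ∀ τ, τ ∉ Set.range ν → F τ = 0) :
    ∑' τ, F τ = ∑' i, F (ν i) := by
  refine (hν.tsum_eq ?_).symm
  intro τ hτ
  by_contra h
  exact hτ (hF τ h)

end INJ_

open INJ_ in
theorem p_INJ (_hSEC : T_SEC) : T_INJ := by
  intro J t ν hν ht hfin
  have hNN : ∀ j, NN (fam t ν) j = ∑' i, sj (ν i) (t i) j := by
    intro j
    unfold NN
    rw [tsum_fam ν hν (fun τ => sj τ (fam t ν τ) j)]
    · exact tsum_congr fun i => by rw [fam_at t ν hν]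
    · intro τ h
      rw [fam_off t ν τ h]
      exact sj_o τ j
  refine ⟨fam t ν, ⟨fun τ => ?_, fun j => ?_⟩, fun j => (hNN j).le, fun p => ?_,
    fun σ p => ?_⟩
  · by_cases h : τ ∈ Set.range ν
    · obtain ⟨i, rfl⟩ := h
      rw [fam_at t ν hν]
      exact ht i
    · rw [fam_off t ν τ h]
      exact differentiableOn_const _
  · rw [hNN]
    exact hfin j
  · unfold Ff
    rw [tsum_fam ν hν (fun τ => fam t ν τ (Real.exp p.2 : ℂ) * exp (I * (τ : ℂ) * (p.1 : ℂ)))]
    · exact tsum_congr fun i => by rw [fam_at t ν hν]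
    · intro τ h
      rw [fam_off t ν τ h, zero_mul]
  · unfold Ff
    rw [tsum_fam ν hν (fun τ => dfam σ (fam t ν) τ (Real.exp p.2 : ℂ) *
      exp (I * (τ : ℂ) * (p.1 : ℂ)))]
    · refine tsum_congr fun i => ?_
      unfold dfam
      rw [fam_at t ν hν]
    · intro τ h
      unfold dfam
      rw [fam_off t ν τ h]
      simp

end Pool.Agent.HSD
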