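import Pool.Agent.HSD.Targets4

/-!
# Project HSD: target ISO
-/

set_option autoImplicit false

namespace Pool.Agent.HSD

namespace ISO_

section

variable {E E' : Type} [NormedAddCommGroup E] [InnerProductSpace ℝ E]
  [NormedAddCommGroup E'] [InnerProductSpace ℝ E']

theorem fd (e : E ≃ₗᵢ[ℝ] E') {g : ℂ → E} {z : ℂ} (hg : DifferentiableAt ℝ g z) (v : ℂ) :
    fderiv ℝ (fun z => e (g z)) z v = e (fderiv ℝ g z v) := by
  have h := (e.toContinuousLinearEquiv : E →L[ℝ] E').hasFDerivAt.comp z hg.hasFDerivAt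
  have h2 : HasFDerivAt (fun z => e (g z))
      ((e.toContinuousLinearEquiv : E →L[ℝ] E').comp (fderiv ℝ g z)) z := h
  rw [h2.fderiv]
  rfl

theorem df {f : ℂ → E} (hf : ContDiff ℝ ((⊤ : ℕ∞) : WithTop ℕ∞) f) :
    Differentiable ℝ f := hf.differentiable (by simp)

theorem df2 {f : ℂ → E} (hf : ContDiff ℝ ((⊤ : ℕ∞) : WithTop ℕ∞) f) (v : ℂ) :
    Differentiable ℝ (fun w => fderiv ℝ f w v) := by
  have h1 : ContDiff ℝ 1 (fderiv ℝ f) := hf.fderiv_right (by norm_cast)
  have h2 : Differentiable ℝ (fderiv ℝ f) := h1.differentiable (by norm_num)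
  intro z
  exact (h2 z).clm_apply (differentiableAt_const v)

theorem fd2 (e : E ≃ₗᵢ[ℝ] E') {f : ℂ → E} (hf : ContDiff ℝ ((⊤ : ℕ∞) : WithTop ℕ∞) f)
    (z u v : ℂ) : fderiv ℝ (fun w => fderiv ℝ (fun z => e (f z)) w v) z u =
      e (fderiv ℝ (fun w => fderiv ℝ f w v) z u) := by
  have h : (fun w => fderiv ℝ (fun z => e (f z)) w v) = fun w => e (fderiv ℝ f w v) := by
    funext w
    exact fd e (df hf w) v
  rw [h]
  exact fd e (df2 hf v z) u

end

end ISO_

open ISO_ in
theorem p_ISO : T_ISO := by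
  intro E E' _ _ _ _ e f hf
  refine ⟨?_, ?_, ?_, ?_, ?_, ?_⟩
  · exact (e.toContinuousLinearEquiv : E →L[ℝ] E').contDiff.comp hf
  · intro z
    simp only [gE, fd e (df hf z), LinearIsometryEquiv.inner_map_map]
  · intro z
    simp only [gF, fd e (df hf z), LinearIsometryEquiv.inner_map_map]
  · intro z
    simp only [gG, fd e (df hf z), LinearIsometryEquiv.inner_map_map]
  · intro hs z ν h1 h2
    simp only [fd e (df hf z), fd2 e hf, LinearIsometryEquiv.inner_map_eq_flip] at h1 h2 ⊢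
    exact hs z (e.symm ν) h1 h2
  · intro hc γ hγ hK
    have h := hc γ hγ hK
    rw [← h]
    refine MeasureTheory.lintegral_congr fun t => ?_
    rw [fd e (df hf _), LinearIsometryEquiv.norm_map]

end Pool.Agent.HSD
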