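import Pool.Agent.HSD.Targets2

/-!
# Project HSD: pointwise bounds for the three kernels
-/

set_option autoImplicit false

namespace Pool.Agent.HSD

open Complex

namespace KER_

theorem normTerm {t : ℝ} {y : ℂ} (hy : y ≠ 0) (ht : 0 < t) (A E X G : ℂ) :
    ‖2 * I * y * A * (y * (E * X * ((t : ℂ) * y)⁻¹ ^ 2 * G))‖ =
      2 / t ^ 2 * (‖A‖ * ‖E‖ * ‖X‖ * ‖G‖) := by
  have h1 : ‖y‖ ≠ 0 := norm_ne_zero_iff.2 hy
  have h2 : ‖(t : ℂ)‖ = t := by rw [Complex.norm_real, Real.norm_of_nonneg ht.le]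
  simp only [norm_mul, norm_pow, norm_inv, Complex.norm_I, Complex.norm_ofNat, h2]
  field_simp

theorem re_mul (τ : ℝ) (w : ℂ) : ((τ : ℂ) * w).re = τ * w.re := by
  simp

theorem nexp (τ : ℝ) (w : ℂ) : ‖exp ((τ : ℂ) * w)‖ = Real.exp (τ * w.re) := by
  rw [Complex.norm_exp, re_mul]

theorem nexp_neg (τ : ℝ) (w : ℂ) : ‖exp (-(τ : ℂ) * w)‖ = Real.exp (-(τ * w.re)) := by
  rw [Complex.norm_exp, neg_mul, Complex.neg_re, re_mul]

theorem nexp_neg' (τ : ℝ) (w : ℂ) : ‖exp (-((τ : ℂ) * w))‖ = Real.exp (-(τ * w.re)) := by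
  rw [Complex.norm_exp, Complex.neg_re, re_mul]

/-- `9 x^2 e^{-x/4} ≤ 80` -/
theorem sq_exp {x : ℝ} (hx : 0 ≤ x) : 9 * x ^ 2 ≤ 80 * Real.exp (x / 4) := by
  have h1 : x / 8 ≤ Real.exp (x / 8 - 1) := by
    have := Real.add_one_le_exp (x / 8 - 1)
    linarith
  have h2 : Real.exp (x / 8 - 1) * Real.exp 1 = Real.exp (x / 8) := by
    rw [← Real.exp_add]; congr 1; ring
  have h3 : (2.718 : ℝ) ≤ Real.exp 1 := by
    have := Real.exp_one_gt_d9
    linarith
  have h4 : x / 8 * 2.718 ≤ Real.exp (x / 8) := by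
    rw [← h2]
    exact mul_le_mul h1 h3 (by norm_num) (Real.exp_pos _).le
  have h5 : Real.exp (x / 4) = Real.exp (x / 8) * Real.exp (x / 8) := by
    rw [← Real.exp_add]; congr 1; ring
  have h6 : (x / 8 * 2.718) * (x / 8 * 2.718) ≤ Real.exp (x / 4) := by
    rw [h5]
    exact mul_le_mul h4 h4 (by positivity) (Real.exp_pos _).le
  nlinarith [sq_nonneg x]

end KER_

open KER_ in
theorem p_KER (hCHI : T_CHI) (hSEC : T_SEC) : T_KER := by
  intro τ t g y hy ht
  obtain ⟨hre, hnorm⟩ := hSEC.2.2.1 y hy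
  have hy0 : y ≠ 0 := by
    intro h
    rw [h] at hre
    simp at hre
  have hty : ((t : ℂ) * y).re = t * y.re := re_mul t y
  have ht2 : 0 < t ^ 2 := by positivity
  refine ⟨?_, ?_, ?_⟩
  · intro hτ h1
    have habs : |τ| = -τ := abs_of_nonpos hτ
    have e : 2 * I * y * exp (-(τ : ℂ) * y) * (y * hM τ g (t * y)) =
        2 * I * y * exp (-(τ : ℂ) * y) *
          (y * (exp ((τ : ℂ) * (t * y)) * 1 * ((t : ℂ) * y)⁻¹ ^ 2 * g (t * y))) := by
      unfold hM; ring
    rw [e, normTerm hy0 ht, nexp, nexp_neg, norm_one, hty, habs]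
    have hG : 0 ≤ ‖g (t * y)‖ := norm_nonneg _
    have k1 : Real.exp (-τ * y.re / 2) * (2 / t ^ 2 *
        (Real.exp (-(τ * y.re)) * Real.exp (τ * (t * y.re)) * 1 * ‖g (t * y)‖)) =
        2 / t ^ 2 * (Real.exp (-τ * y.re / 2 + (-(τ * y.re)) + τ * (t * y.re)) *
          ‖g (t * y)‖) := by
      rw [Real.exp_add, Real.exp_add]; ring
    rw [k1]
    have k2 : Real.exp (-τ * y.re / 2 + (-(τ * y.re)) + τ * (t * y.re)) ≤
        Real.exp (-τ * (t * y.re) / 2) := by
      apply Real.exp_le_exp.2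
      have : 0 ≤ (-τ) * y.re * (t - 1) :=
        mul_nonneg (mul_nonneg (by linarith) hre.le) (by linarith)
      nlinarith
    have k3 := mul_le_mul_of_nonneg_right k2 hG
    have k4 : 0 ≤ Real.exp (-τ * (t * y.re) / 2) * ‖g (t * y)‖ :=
      mul_nonneg (Real.exp_pos _).le hG
    calc 2 / t ^ 2 * (Real.exp (-τ * y.re / 2 + (-(τ * y.re)) + τ * (t * y.re)) *
          ‖g (t * y)‖)
        ≤ 2 / t ^ 2 * (Real.exp (-τ * (t * y.re) / 2) * ‖g (t * y)‖) :=
          mul_le_mul_of_nonneg_left k3 (by positivity)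
      _ ≤ 5 / t ^ 2 * (Real.exp (-τ * (t * y.re) / 2) * ‖g (t * y)‖) := by
          apply mul_le_mul_of_nonneg_right _ k4
          exact div_le_div_of_nonneg_right (by norm_num) ht2.le
  · intro hτ h1
    have habs : |τ| = τ := abs_of_pos hτ
    set z : ℂ := (τ : ℂ) * (t * y) with hz
    have e : 2 * I * y * exp (-(τ : ℂ) * y) * (y * hP τ g (t * y)) =
        2 * I * y * exp (-(τ : ℂ) * y) *
          (y * (exp ((τ : ℂ) * (t * y)) * (1 - exp (-2 * z) * (1 + 2 * z)) *
            ((t : ℂ) * y)⁻¹ ^ 2 * g (t * y))) := by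
      unfold hP; ring
    rw [e, normTerm hy0 ht, nexp, nexp_neg, hty, habs]
    have hzre : z.re = τ * (t * y.re) := by rw [hz, re_mul, hty]
    have hzpos : 0 < z.re := by rw [hzre]; positivity
    have hznorm : ‖z‖ = τ * t * ‖y‖ := by
      rw [hz, norm_mul, norm_mul, Complex.norm_real, Complex.norm_real,
        Real.norm_of_nonneg hτ.le, Real.norm_of_nonneg ht.le]
      ring
    have hzb : ‖z‖ ≤ 3 / 2 * z.re := by
      rw [hznorm, hzre]
      have := mul_le_mul_of_nonneg_left hnorm (mul_nonneg hτ.le ht.le)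
      linarith
    obtain ⟨c1, c2⟩ := hCHI z hzpos hzb
    set c : ℝ := ‖1 - exp (-2 * z) * (1 + 2 * z)‖ with hc
    set T : ℝ := τ * y.re with hT
    have hT0 : 0 < T := mul_pos hτ hre
    have hG : 0 ≤ ‖g (t * y)‖ := norm_nonneg _
    have hc0 : 0 ≤ c := norm_nonneg _
    -- the main bound
    have key : 2 / t ^ 2 * c ≤ 80 * Real.exp (T * (1 - t) / 2) := by
      rcases le_total t (1 / 2) with h2 | h2
      · have s1 : c ≤ 9 / 2 * (t ^ 2 * T ^ 2) := by
          have s2 : ‖z‖ ≤ 3 / 2 * (t * T) := by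
            rw [hzre] at hzb
            rw [hT]
            linarith
          have s3 : ‖z‖ ^ 2 ≤ (3 / 2 * (t * T)) ^ 2 :=
            pow_le_pow_left₀ (norm_nonneg _) s2 2
          nlinarith
        have s4 : 2 / t ^ 2 * c ≤ 9 * T ^ 2 := by
          rw [div_mul_eq_mul_div, div_le_iff₀ ht2]
          nlinarith
        have s5 := sq_exp hT0.le
        have s6 : Real.exp (T / 4) ≤ Real.exp (T * (1 - t) / 2) := by
          apply Real.exp_le_exp.2
          nlinarith
        linarith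
      · have s1 : 2 / t ^ 2 * c ≤ 24 := by
          rw [div_mul_eq_mul_div, div_le_iff₀ ht2]
          nlinarith
        have s2 : 1 ≤ Real.exp (T * (1 - t) / 2) := by
          apply Real.one_le_exp
          have : 0 ≤ T * (1 - t) := mul_nonneg hT0.le (by linarith)
          linarith
        linarith
    have k1 : Real.exp (τ * y.re / 2) * (2 / t ^ 2 *
        (Real.exp (-(τ * y.re)) * Real.exp (τ * (t * y.re)) * c * ‖g (t * y)‖)) =
        (2 / t ^ 2 * c) * (Real.exp (-(T * (1 - t) / 2)) *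
          Real.exp (τ * (t * y.re) / 2) * ‖g (t * y)‖) := by
      have : Real.exp (τ * y.re / 2) * Real.exp (-(τ * y.re)) * Real.exp (τ * (t * y.re)) =
          Real.exp (-(T * (1 - t) / 2)) * Real.exp (τ * (t * y.re) / 2) := by
        rw [← Real.exp_add, ← Real.exp_add, ← Real.exp_add]
        congr 1
        rw [hT]; ring
      rw [← this]; ring
    rw [k1]
    have k2 : 0 ≤ Real.exp (-(T * (1 - t) / 2)) * Real.exp (τ * (t * y.re) / 2) *
        ‖g (t * y)‖ := by positivity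
    calc (2 / t ^ 2 * c) * (Real.exp (-(T * (1 - t) / 2)) *
          Real.exp (τ * (t * y.re) / 2) * ‖g (t * y)‖)
        ≤ (80 * Real.exp (T * (1 - t) / 2)) * (Real.exp (-(T * (1 - t) / 2)) *
          Real.exp (τ * (t * y.re) / 2) * ‖g (t * y)‖) :=
          mul_le_mul_of_nonneg_right key k2
      _ = 80 * (Real.exp (τ * (t * y.re) / 2) * ‖g (t * y)‖) := by
          have : Real.exp (T * (1 - t) / 2) * Real.exp (-(T * (1 - t) / 2)) = 1 := by
            rw [← Real.exp_add, add_neg_cancel, Real.exp_zero]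
          linear_combination (80 * (Real.exp (τ * (t * y.re) / 2) * ‖g (t * y)‖)) * this
  · intro hτ h1
    have habs : |τ| = τ := abs_of_pos hτ
    set z : ℂ := (τ : ℂ) * (t * y) with hz
    have e : 2 * I * y * exp (-(τ : ℂ) * y) * (y * hQ τ g (t * y)) =
        2 * I * y * exp (-(τ : ℂ) * y) *
          (y * (exp (-((τ : ℂ) * (t * y))) * (1 + 2 * z) *
            ((t : ℂ) * y)⁻¹ ^ 2 * g (t * y))) := by
      unfold hQ; ring
    rw [e, normTerm hy0 ht, nexp_neg, nexp_neg', hty, habs]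
    have hzre : z.re = τ * (t * y.re) := by rw [hz, re_mul, hty]
    have hznorm : ‖z‖ = τ * t * ‖y‖ := by
      rw [hz, norm_mul, norm_mul, Complex.norm_real, Complex.norm_real,
        Real.norm_of_nonneg hτ.le, Real.norm_of_nonneg ht.le]
      ring
    set x : ℝ := τ * (t * y.re) with hx
    have hx0 : 0 < x := by positivity
    have hzb : ‖z‖ ≤ 3 / 2 * x := by
      rw [hznorm, hx]
      have := mul_le_mul_of_nonneg_left hnorm (mul_nonneg hτ.le ht.le)
      linarith
    set c : ℝ := ‖1 + 2 * z‖ with hc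
    have hcb : c ≤ 1 + 3 * x := by
      have s1 : c ≤ ‖(1 : ℂ)‖ + ‖2 * z‖ := norm_add_le _ _
      rw [norm_one, norm_mul, Complex.norm_ofNat] at s1
      linarith
    have hG : 0 ≤ ‖g (t * y)‖ := norm_nonneg _
    have hc0 : 0 ≤ c := norm_nonneg _
    set T : ℝ := τ * y.re with hT
    have hT0 : 0 < T := mul_pos hτ hre
    have k1 : Real.exp (τ * y.re / 2) * (2 / t ^ 2 *
        (Real.exp (-(τ * y.re)) * Real.exp (-x) * c * ‖g (t * y)‖)) =
        2 / t ^ 2 * ((Real.exp (-T / 2 - 3 / 2 * x) * c) *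
          (Real.exp (x / 2) * ‖g (t * y)‖)) := by
      have : Real.exp (τ * y.re / 2) * Real.exp (-(τ * y.re)) * Real.exp (-x) =
          Real.exp (-T / 2 - 3 / 2 * x) * Real.exp (x / 2) := by
        rw [← Real.exp_add, ← Real.exp_add, ← Real.exp_add]
        congr 1
        rw [hT]; ring
      calc Real.exp (τ * y.re / 2) * (2 / t ^ 2 *
            (Real.exp (-(τ * y.re)) * Real.exp (-x) * c * ‖g (t * y)‖))
          = 2 / t ^ 2 * ((Real.exp (τ * y.re / 2) * Real.exp (-(τ * y.re)) *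
              Real.exp (-x)) * c * ‖g (t * y)‖) := by ring
        _ = _ := by rw [this]; ring
    rw [k1]
    have k2 : Real.exp (-T / 2 - 3 / 2 * x) * c ≤ 2 := by
      have s1 : 3 / 2 * x + 1 ≤ Real.exp (3 / 2 * x) := Real.add_one_le_exp _
      have s2 : c ≤ 2 * Real.exp (3 / 2 * x) := by linarith
      have s3 : Real.exp (-T / 2 - 3 / 2 * x) ≤ Real.exp (-(3 / 2 * x)) := by
        apply Real.exp_le_exp.2
        linarith
      have s4 : Real.exp (-(3 / 2 * x)) * Real.exp (3 / 2 * x) = 1 := by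
        rw [← Real.exp_add, neg_add_cancel, Real.exp_zero]
      calc Real.exp (-T / 2 - 3 / 2 * x) * c
          ≤ Real.exp (-(3 / 2 * x)) * (2 * Real.exp (3 / 2 * x)) :=
            mul_le_mul s3 s2 hc0 (Real.exp_pos _).le
        _ = 2 := by linear_combination 2 * s4
    have k3 : 0 ≤ Real.exp (x / 2) * ‖g (t * y)‖ := by positivity
    calc 2 / t ^ 2 * ((Real.exp (-T / 2 - 3 / 2 * x) * c) *
          (Real.exp (x / 2) * ‖g (t * y)‖))
        ≤ 2 / t ^ 2 * (2 * (Real.exp (x / 2) * ‖g (t * y)‖)) :=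
          mul_le_mul_of_nonneg_left (mul_le_mul_of_nonneg_right k2 k3) (by positivity)
      _ = 4 / t ^ 2 * (Real.exp (x / 2) * ‖g (t * y)‖) := by ring
      _ ≤ 5 / t ^ 2 * (Real.exp (x / 2) * ‖g (t * y)‖) := by
          apply mul_le_mul_of_nonneg_right _ k3
          exact div_le_div_of_nonneg_right (by norm_num) ht2.le

end Pool.Agent.HSD
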