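import Pool.Agent.HSD.Targets4

/-!
# Project HSD: completeness (LEN)
-/

set_option autoImplicit false

namespace Pool.Agent.HSD

open Complex MeasureTheory

namespace LEN_

section

variable {E : Type} [NormedAddCommGroup E] [InnerProductSpace ℝ E]

lemma nrm (f : ℂ → E) (z w : ℂ) : ‖fderiv ℝ f z w‖ ^ 2 =
    w.re ^ 2 * gE f z + 2 * w.re * w.im * gF f z + w.im ^ 2 * gG f z := by
  have hw : w = w.re • (1 : ℂ) + w.im • I := by apply Complex.ext <;> simp
  have h1 : fderiv ℝ f z w = w.re • fderiv ℝ f z 1 + w.im • fderiv ℝ f z I := by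
    conv_lhs => rw [hw, map_add, map_smul, map_smul]
  rw [h1, ← real_inner_self_eq_norm_sq, inner_add_left, inner_add_right, inner_add_right,
    inner_smul_left, inner_smul_right, inner_smul_left, inner_smul_right, inner_smul_left,
    inner_smul_right, inner_smul_left, inner_smul_right,
    real_inner_comm (fderiv ℝ f z 1) (fderiv ℝ f z I), gE, gF, gG]
  simp only [conj_trivial]
  ring

lemma bounds (f : ℂ → E)
    (H : ∀ (z : ℂ) (a b : ℝ), 1 / 4 * (Real.exp (-z.im) ^ 2 * a ^ 2 + b ^ 2) ≤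
      a ^ 2 * gE f z + 2 * a * b * gF f z + b ^ 2 * gG f z) (z w : ℂ) :
    |w.im| ≤ 2 * ‖fderiv ℝ f z w‖ ∧ |w.re| ≤ 2 * Real.exp z.im * ‖fderiv ℝ f z w‖ := by
  have h1 := H z w.re w.im
  rw [← nrm] at h1
  have h0 := norm_nonneg (fderiv ℝ f z w)
  constructor
  · apply abs_le_of_sq_le_sq _ (by positivity)
    have : 0 ≤ Real.exp (-z.im) ^ 2 * w.re ^ 2 := by positivity
    nlinarith
  · have he : Real.exp z.im * Real.exp (-z.im) = 1 := by
      rw [← Real.exp_add]; simp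
    have h2 : |Real.exp (-z.im) * w.re| ≤ 2 * ‖fderiv ℝ f z w‖ := by
      apply abs_le_of_sq_le_sq _ (by positivity)
      have : 0 ≤ w.im ^ 2 := by positivity
      nlinarith
    rw [abs_mul, abs_of_pos (Real.exp_pos _)] at h2
    have h3 := mul_le_mul_of_nonneg_left h2 (Real.exp_pos z.im).le
    calc |w.re| = Real.exp z.im * (Real.exp (-z.im) * |w.re|) := by
          rw [← mul_assoc, he, one_mul]
      _ ≤ Real.exp z.im * (2 * ‖fderiv ℝ f z w‖) := h3
      _ = 2 * Real.exp z.im * ‖fderiv ℝ f z w‖ := by ring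

/-- Estimate of the increment by an integral. -/
lemma incr (g : ℝ → ℝ) (g' k : ℝ → ℝ) (a b c : ℝ) (hab : a ≤ b) (hc : 0 ≤ c)
    (hd : ∀ t ∈ Set.Icc a b, HasDerivAt g (g' t) t)
    (hg : ContinuousOn g' (Set.Icc a b)) (hk : ContinuousOn k (Set.Icc a b))
    (hle : ∀ t ∈ Set.Icc a b, |g' t| ≤ c * k t) : |g b - g a| ≤ c * ∫ t in a..b, k t := by
  have hu : Set.uIcc a b = Set.Icc a b := Set.uIcc_of_le hab
  have h1 : IntervalIntegrable g' volume a b := by
    apply ContinuousOn.intervalIntegrable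
    rw [hu]; exact hg
  have h2 : IntervalIntegrable k volume a b := by
    apply ContinuousOn.intervalIntegrable
    rw [hu]; exact hk
  have h3 : ∫ t in a..b, g' t = g b - g a := by
    apply intervalIntegral.integral_eq_sub_of_hasDerivAt
    · intro t ht
      rw [hu] at ht
      exact hd t ht
    · exact h1
  rw [← h3, ← intervalIntegral.integral_const_mul, ← Real.norm_eq_abs]
  apply intervalIntegral.norm_integral_le_of_norm_le hab
  · refine Filter.Eventually.of_forall (fun t ht => ?_)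
    rw [Real.norm_eq_abs]
    exact hle t ⟨ht.1.le, ht.2⟩
  · exact h2.const_mul c

theorem main (f : ℂ → E) (hf : ContDiff ℝ ((⊤ : ℕ∞) : WithTop ℕ∞) f)
    (H : ∀ (z : ℂ) (a b : ℝ), 1 / 4 * (Real.exp (-z.im) ^ 2 * a ^ 2 + b ^ 2) ≤
      a ^ 2 * gE f z + 2 * a * b * gF f z + b ^ 2 * gG f z) : CompleteInd f := by
  intro γ hγ hK
  by_contra hfin
  set h : ℝ → E := fun t => fderiv ℝ f (γ t) (deriv γ t) with hh
  set L : ℝ := (∫⁻ t in Set.Ioo (0 : ℝ) 1, ENNReal.ofReal ‖h t‖).toReal with hL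
  have hL0 : 0 ≤ L := ENNReal.toReal_nonneg
  -- regularity
  have hγo : ContDiffOn ℝ 1 γ (Set.Ioo 0 1) := hγ.mono Set.Ioo_subset_Ico_self
  have hd : ∀ t ∈ Set.Ioo (0 : ℝ) 1, HasDerivAt γ (deriv γ t) t := by
    intro t ht
    have : DifferentiableAt ℝ γ t :=
      (hγo.differentiableOn (by norm_num)).differentiableAt (isOpen_Ioo.mem_nhds ht)
    exact this.hasDerivAt
  have hcd : ContinuousOn (deriv γ) (Set.Ioo 0 1) :=
    hγo.continuousOn_deriv_of_isOpen isOpen_Ioo (by norm_num)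
  have hch : ContinuousOn h (Set.Ioo 0 1) := by
    have h1 : ContinuousOn (fun t => fderiv ℝ f (γ t)) (Set.Ioo 0 1) :=
      (hf.continuous_fderiv (by simp)).comp_continuousOn hγo.continuousOn
    exact h1.clm_apply hcd
  -- the integral bound
  have hint : ∀ t ∈ Set.Ioo (0 : ℝ) 1, 1 / 2 ≤ t → ∫ τ in (1 / 2)..t, ‖h τ‖ ≤ L := by
    intro t ht htt
    have hsub : Set.Icc (1 / 2) t ⊆ Set.Ioo (0 : ℝ) 1 := by
      intro x hx
      exact ⟨by linarith [hx.1], lt_of_le_of_lt hx.2 ht.2⟩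
    have hci : ContinuousOn (fun τ => ‖h τ‖) (Set.Icc (1 / 2) t) := (hch.mono hsub).norm
    have hii : IntegrableOn (fun τ => ‖h τ‖) (Set.Ioc (1 / 2) t) volume :=
      (hci.integrableOn_Icc).mono_set Set.Ioc_subset_Icc_self
    rw [intervalIntegral.integral_of_le htt]
    have h2 := ofReal_integral_eq_lintegral_ofReal (μ := volume.restrict (Set.Ioc (1 / 2) t))
      hii (Filter.Eventually.of_forall (fun τ => norm_nonneg (h τ)))
    have h3 : ∫⁻ τ in Set.Ioc (1 / 2) t, ENNReal.ofReal ‖h τ‖ ≤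
        ∫⁻ t in Set.Ioo (0 : ℝ) 1, ENNReal.ofReal ‖h t‖ := by
      apply lintegral_mono_set
      exact fun x hx => hsub ⟨hx.1.le, hx.2⟩
    rw [← h2] at h3
    rw [hL]
    exact (ENNReal.ofReal_le_iff_le_toReal hfin).1 h3
  -- imaginary part
  have him : ∀ t ∈ Set.Ioo (0 : ℝ) 1, 1 / 2 ≤ t → |(γ t).im - (γ (1 / 2)).im| ≤ 2 * L := by
    intro t ht htt
    have hsub : Set.Icc (1 / 2) t ⊆ Set.Ioo (0 : ℝ) 1 := by
      intro x hx
      exact ⟨by linarith [hx.1], lt_of_le_of_lt hx.2 ht.2⟩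
    have h1 := incr (fun τ => (γ τ).im) (fun τ => (deriv γ τ).im) (fun τ => ‖h τ‖) (1 / 2) t 2 htt
      (by norm_num) (fun τ hτ => ?_) ?_ (hch.mono hsub).norm (fun τ hτ => ?_)
    · have h2 := hint t ht htt
      linarith
    · exact Complex.imCLM.hasFDerivAt.comp_hasDerivAt τ (hd τ (hsub hτ))
    · exact Complex.continuous_im.comp_continuousOn (hcd.mono hsub)
    · exact (bounds f H (γ τ) (deriv γ τ)).1
  -- real part
  set S : ℝ := |(γ (1 / 2)).im| + 2 * L with hS
  have hre : ∀ t ∈ Set.Ioo (0 : ℝ) 1, 1 / 2 ≤ t →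
      |(γ t).re - (γ (1 / 2)).re| ≤ 2 * Real.exp S * L := by
    intro t ht htt
    have hsub : Set.Icc (1 / 2) t ⊆ Set.Ioo (0 : ℝ) 1 := by
      intro x hx
      exact ⟨by linarith [hx.1], lt_of_le_of_lt hx.2 ht.2⟩
    have h1 := incr (fun τ => (γ τ).re) (fun τ => (deriv γ τ).re) (fun τ => ‖h τ‖) (1 / 2) t
      (2 * Real.exp S) htt (by positivity) (fun τ hτ => ?_) ?_ (hch.mono hsub).norm
      (fun τ hτ => ?_)
    · have h2 := hint t ht htt
      have h3 : 0 ≤ 2 * Real.exp S := by positivity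
      exact le_trans h1 (mul_le_mul_of_nonneg_left h2 h3)
    · exact Complex.reCLM.hasFDerivAt.comp_hasDerivAt τ (hd τ (hsub hτ))
    · exact Complex.continuous_re.comp_continuousOn (hcd.mono hsub)
    · have h4 := (bounds f H (γ τ) (deriv γ τ)).2
      have h5 := him τ (hsub hτ) hτ.1
      have h6 : (γ τ).im ≤ S := by
        have h7 := le_abs_self ((γ τ).im - (γ (1 / 2)).im)
        have h8 := le_abs_self ((γ (1 / 2)).im)
        rw [hS]; linarith
      have h9 : Real.exp (γ τ).im ≤ Real.exp S := Real.exp_le_exp.2 h6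
      have h10 : 0 ≤ ‖h τ‖ := norm_nonneg _
      calc |(deriv γ τ).re| ≤ 2 * Real.exp (γ τ).im * ‖h τ‖ := h4
        _ ≤ 2 * Real.exp S * ‖h τ‖ :=
          mul_le_mul_of_nonneg_right (by linarith) h10
  -- the compact set
  obtain ⟨s, hs1, hs2⟩ := hK (Metric.closedBall (γ (1 / 2)) (2 * Real.exp S * L + 2 * L))
    (isCompact_closedBall _ _)
  have ht : (max s (1 / 2) + 1) / 2 ∈ Set.Ioo s 1 := by
    have h1 : max s (1 / 2) < 1 := max_lt hs1 (by norm_num)
    have h2 := le_max_left s (1 / 2)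
    constructor <;> linarith
  have h3 : 1 / 2 ≤ (max s (1 / 2) + 1) / 2 := by
    have h2 := le_max_right s (1 / 2)
    linarith
  have h4 : (max s (1 / 2) + 1) / 2 ∈ Set.Ioo (0 : ℝ) 1 := ⟨by linarith, ht.2⟩
  apply hs2 _ ht
  rw [Metric.mem_closedBall, Complex.dist_eq]
  refine le_trans (Complex.norm_le_abs_re_add_abs_im _) ?_
  rw [Complex.sub_re, Complex.sub_im]
  exact add_le_add (hre _ h4 h3) (him _ h4 h3)

end

end LEN_

theorem p_LEN : T_LEN := fun E _ _ f hf H => LEN_.main f hf H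

end Pool.Agent.HSD
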