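import Pool.Agent.HSD.Targets1

set_option autoImplicit false
set_option linter.unusedSectionVars false

namespace Pool.Agent.HSD

namespace LIP_

variable {ι R R' : Type} [Fintype ι] [CommRing R] [StarRing R] [Algebra ℂ R]
  [CommRing R'] [StarRing R'] [Algebra ℂ R']

/-- a ring homomorphism applied to all components -/
def mp (φ : R →+* R') (v : ι → R) : ι → R' := fun r => φ (v r)

theorem ip_mp (φ : R →+* R') (v w : ι → R) : φ (ip v w) = ip (mp φ v) (mp φ w) := by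
  simp [ip, mp, map_sum]

theorem mp_star (φ : R →+* R') (hs : ∀ x, φ (star x) = star (φ x)) (v : ι → R) :
    mp φ (star v) = star (mp φ v) := by
  funext r
  simp [mp, hs]

theorem mp_dv (φ : R →+* R') (δ : Derivation ℂ R R) (δ' : Derivation ℂ R' R')
    (hD : ∀ x, φ (δ x) = δ' (φ x)) (v : ι → R) : mp φ (dv δ v) = dv δ' (mp φ v) := by
  funext r
  simp [mp, dv, hD]

theorem mp_sub (φ : R →+* R') (v w : ι → R) : mp φ (v - w) = mp φ v - mp φ w := by
  funext r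
  simp [mp]

theorem mp_smul (φ : R →+* R') (f : R) (v : ι → R) : mp φ (f • v) = φ f • mp φ v := by
  funext r
  simp [mp]

theorem tt_mp (φ : R →+* R') (hs : ∀ x, φ (star x) = star (φ x)) (d : Dat ι R) (d' : Dat ι R')
    (hD : ∀ x, φ (d.D x) = d'.D (φ x)) (u Y : ι → R) (i : R) :
    φ (tt d u Y i) = tt d' (mp φ u) (mp φ Y) (φ i) := by
  have hdv : ∀ v : ι → R, mp φ (dv d.D v) = dv d'.D (mp φ v) := mp_dv φ d.D d'.D hD
  have hq : φ (qq u Y) = qq (mp φ u) (mp φ Y) := by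
    simp only [qq, map_add, ip_mp, mp_star φ hs]
  have hp : φ (pp u Y) = pp (mp φ u) (mp φ Y) := by
    simp only [pp, map_mul, map_ofNat, ip_mp, mp_star φ hs]
  have hA : φ (aA d u Y) = aA d' (mp φ u) (mp φ Y) := by
    simp only [aA, map_add, ip_mp, mp_star φ hs, hdv]
  have hB : φ (bB d u Y) = bB d' (mp φ u) (mp φ Y) := by
    simp only [bB, map_add, ip_mp, mp_star φ hs, hdv]
  have ha : φ (ca d u Y i) = ca d' (mp φ u) (mp φ Y) (φ i) := by
    simp only [ca, map_mul, map_sub, hq, hp, hA, hB, hs]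
  have hb : φ (cb d u Y i) = cb d' (mp φ u) (mp φ Y) (φ i) := by
    simp only [cb, map_mul, map_sub, hq, hp, hA, hB]
  have h1 : mp φ (w1 d u Y i) = w1 d' (mp φ u) (mp φ Y) (φ i) := by
    simp only [w1, mp_sub, mp_smul, hdv, ha, hb]
  have h2 : mp φ (w2 d u Y i) = w2 d' (mp φ u) (mp φ Y) (φ i) := by
    simp only [w2, mp_sub, mp_smul, hdv, ha, hb, mp_star φ hs]
  have hW : φ (ww d u Y i) = ww d' (mp φ u) (mp φ Y) (φ i) := by
    simp only [ww, map_add, ip_mp, mp_star φ hs, h1, h2]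
  simp only [tt, map_mul, map_ofNat, hW]

theorem tt_pr (d : Dat ι R) (t : ℝ) (u Y : ι → R × R) (i : R × R) :
    tt (prD d t) u Y i = (tt d (fun r => (u r).1) (fun r => (Y r).1) i.1,
      tt d (fun r => (u r).2) (fun r => (Y r).2) i.2) := by
  ext
  · exact tt_mp (RingHom.fst R R) (fun x => rfl) (prD d t) d (fun x => rfl) u Y i
  · exact tt_mp (RingHom.snd R R) (fun x => rfl) (prD d t) d (fun x => rfl) u Y i

end LIP_

theorem p_LIP (hSTE : T_STE) (hPAX : T_PAX) (hPPT : T_PPT) : T_LIP := by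
  intro CE CS A hCS hA
  obtain ⟨K, e₀, hK, he0, -, H⟩ := hSTE CE CS A hCS hA
  refine ⟨4 * K, e₀ / 2, by linarith, by linarith, ?_⟩
  intro ι R _ _ _ _ d u0 j ax s0 Vu0 q0 dj e δ c c' χ χ' l l' u Y u' Y' i i' e0 ee δ0 g g'
    hχ hDχ P P'
  rcases e0.eq_or_lt with he | he
  · subst he
    obtain ⟨h1, h2, -, -⟩ :=
      H ι R d u0 j ax s0 Vu0 q0 dj 0 c χ l u Y i le_rfl he0.le g P
    obtain ⟨h1', h2', -, -⟩ :=
      H ι R d u0 j ax s0 Vu0 q0 dj 0 c' χ' l' u' Y' i' le_rfl he0.le g' P'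
    have a1 := ax.N_eq_zero (ax.N_congr h1 rfl (by ring))
    have a2 := ax.N_eq_zero (ax.N_congr h1' rfl (by ring))
    have b1 : tt d u Y i = tt d u' Y' i' := by
      rw [sub_eq_zero.1 a1, sub_eq_zero.1 a2]
    rw [b1, sub_self, sub_self]
    exact ⟨ax.N_congr ax.N_o rfl (by ring), ax.N_congr ax.N_o rfl (by ring)⟩
  · obtain ⟨G, ⟨c'', PP⟩, S0, V0, Q0, D0⟩ :=
      hPPT ι R CE CS A e δ c c' d u0 χ χ' l l' u Y u' Y' i i' j ax e0 δ0 g g' hχ hDχ P P'
        s0 Vu0 q0 dj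
    have hax : Ax CE CS (prD d (e / δ)) := hPAX ι R CE CS (e / δ) d (by positivity) ax
    obtain ⟨hT, hDT, -, -⟩ := H ι (R × R) (prD d (e / δ)) (fun r => (u0 r, u0 r)) (j, j) hax
      S0 V0 Q0 D0 (2 * e) c'' (χ, χ') (l, l') (fun r => (u r, u' r)) (fun r => (Y r, Y' r))
      (i, i') (by linarith) (by linarith) G PP
    have ht : 0 < e / δ := by positivity
    have key : ∀ c1 c2 : ℝ, 0 ≤ c1 → c1 + e / δ * c2 ≤ K * (2 * e) ^ 2 →
        c2 ≤ 4 * K * e * δ := by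
      intro c1 c2 h0 h
      have h1 : e / δ * c2 ≤ K * (2 * e) ^ 2 := by linarith
      have h2 : c2 = e / δ * c2 * (δ / e) := by
        field_simp
      have h3 : K * (2 * e) ^ 2 * (δ / e) = 4 * K * e * δ := by
        field_simp
        ring
      rw [h2, ← h3]
      exact mul_le_mul_of_nonneg_right h1 (by positivity)
    constructor
    · rw [LIP_.tt_pr, LIP_.tt_pr] at hT
      obtain ⟨c1, c2, n1, -, n3, hc⟩ := hT
      refine ax.N_le n3 ?_ (key c1 c2 (ax.N_nonneg n1) hc)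
      simp
    · rw [LIP_.tt_pr, LIP_.tt_pr] at hDT
      obtain ⟨c1, c2, n1, -, n3, hc⟩ := hDT
      refine ax.N_le n3 ?_ (key c1 c2 (ax.N_nonneg n1) hc)
      change _ = d.D _ - d.D _
      simp [map_sub]

end Pool.Agent.HSD
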