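import Pool.Agent.HSD.Targets1

set_option autoImplicit false

/-!
# HSD: LOG, the coefficient `l`
-/

namespace Pool.Agent.HSD

open Complex

theorem p_LOG : T_LOG := by
  intro ι R _ _ _ _ CE CS e d χ a he hg
  have e0 : 0 ≤ e := a.N_nonneg hg.near
  obtain ⟨g, hg1, hg2⟩ := a.N_inv (a.N_sub_comm hg.near) (by linarith)
  have h2 : (2 : R) * cst R (1 / 2) = 1 := two_cst_half
  refine ⟨⟨cst R (1 / 2) * d.D χ * g, ?_⟩, fun l hl => ?_⟩
  · linear_combination (2 * cst R (1 / 2) * d.D χ) * hg1 + d.D χ * h2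
  · have hl' : l = cst R (1 / 2) * d.D χ * g := by
      linear_combination (cst R (1 / 2) * g) * hl - (2 * cst R (1 / 2) * l) * hg1 - l * h2
    refine a.N_le (a.N_mul (a.N_mul (a.N_cst (1 / 2)) hg.der) hg2) hl' ?_
    have h3 : ‖(1 / 2 : ℂ)‖ = 1 / 2 := by norm_num
    rw [h3]
    have h4 : 0 < 1 - e := by linarith
    rw [mul_one_div, div_le_iff₀ h4]
    nlinarith

end Pool.Agent.HSD
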