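import Pool.Agent.HSD.Targets2

/-!
# HSD: proof of LSD (families of derivatives)
-/

set_option autoImplicit false

namespace Pool.Agent.HSD

open Complex

namespace LSD_

/-- The comparison principle for locally summable families. -/
theorem comp (a b : ℝ → ℂ → ℂ) (ha : LSm a) (hb : ∀ τ : ℝ, DifferentiableOn ℂ (b τ) sec)
    (h : ∀ K : Set ℂ, K ⊆ sec → IsCompact K → ∃ (K' : Set ℂ) (C : ℝ), K' ⊆ sec ∧
      IsCompact K' ∧ 0 ≤ C ∧ ∀ (τ : ℝ) (B : ℝ), (∀ w ∈ K', ‖a τ w‖ ≤ B) →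
        ∀ y ∈ K, ‖b τ y‖ ≤ C * (1 + |τ|) * B) : LSm b := by
  refine ⟨hb, ?_⟩
  intro K hK hKc
  obtain ⟨K', C, hK', hKc', hC, hbd⟩ := h K hK hKc
  obtain ⟨θ, hθ, hfin⟩ := ha.fin K' hK' hKc'
  refine ⟨θ / 2, by positivity, ?_⟩
  have hle : ∀ τ : ℝ, (⨆ y ∈ K, ENNReal.ofReal (Real.exp (θ / 2 * |τ|) * ‖b τ y‖)) ≤
      ENNReal.ofReal (C * (1 + 2 / θ)) *
        ⨆ y ∈ K', ENNReal.ofReal (Real.exp (θ * |τ|) * ‖a τ y‖) := by
    intro τ
    obtain ⟨s, hs⟩ : ∃ s, s = ⨆ y ∈ K', ENNReal.ofReal (Real.exp (θ * |τ|) * ‖a τ y‖) :=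
      ⟨_, rfl⟩
    rw [← hs]
    have hst : s ≠ ⊤ := by
      rw [hs]
      exact ENNReal.ne_top_of_tsum_ne_top hfin τ
    have h1 : ∀ w ∈ K', ‖a τ w‖ ≤ Real.exp (-(θ * |τ|)) * s.toReal := by
      intro w hw
      have h2 : ENNReal.ofReal (Real.exp (θ * |τ|) * ‖a τ w‖) ≤ s := by
        rw [hs]
        exact le_iSup₂ (f := fun y (_ : y ∈ K') =>
          ENNReal.ofReal (Real.exp (θ * |τ|) * ‖a τ y‖)) w hw
      have h3 : Real.exp (θ * |τ|) * ‖a τ w‖ ≤ s.toReal :=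
        (ENNReal.ofReal_le_iff_le_toReal hst).1 h2
      calc ‖a τ w‖ = Real.exp (-(θ * |τ|)) * (Real.exp (θ * |τ|) * ‖a τ w‖) := by
            rw [← mul_assoc, ← Real.exp_add, neg_add_cancel, Real.exp_zero, one_mul]
        _ ≤ Real.exp (-(θ * |τ|)) * s.toReal :=
            mul_le_mul_of_nonneg_left h3 (Real.exp_pos _).le
    refine iSup₂_le fun y hy => ?_
    have h2 := hbd τ _ h1 y hy
    have h3 : (1 + |τ|) * Real.exp (-(θ / 2 * |τ|)) ≤ 1 + 2 / θ := by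
      have h4 : 0 ≤ |τ| := abs_nonneg τ
      have h5 : θ / 2 * |τ| ≤ Real.exp (θ / 2 * |τ|) := by
        have := Real.add_one_le_exp (θ / 2 * |τ|)
        linarith
      have h6 : (1 : ℝ) ≤ Real.exp (θ / 2 * |τ|) := Real.one_le_exp (by positivity)
      have h7 : |τ| ≤ 2 / θ * Real.exp (θ / 2 * |τ|) := by
        calc |τ| = 2 / θ * (θ / 2 * |τ|) := by field_simp
          _ ≤ 2 / θ * Real.exp (θ / 2 * |τ|) := mul_le_mul_of_nonneg_left h5 (by positivity)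
      rw [Real.exp_neg, ← div_eq_mul_inv, div_le_iff₀ (Real.exp_pos _)]
      linarith
    have h4 : Real.exp (θ / 2 * |τ|) * ‖b τ y‖ ≤ C * (1 + 2 / θ) * s.toReal := by
      have e1 : Real.exp (θ / 2 * |τ|) * Real.exp (-(θ * |τ|)) =
          Real.exp (-(θ / 2 * |τ|)) := by
        rw [← Real.exp_add]
        congr 1
        ring
      calc Real.exp (θ / 2 * |τ|) * ‖b τ y‖
          ≤ Real.exp (θ / 2 * |τ|) *
            (C * (1 + |τ|) * (Real.exp (-(θ * |τ|)) * s.toReal)) :=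
            mul_le_mul_of_nonneg_left h2 (Real.exp_pos _).le
        _ = C * ((1 + |τ|) * (Real.exp (θ / 2 * |τ|) * Real.exp (-(θ * |τ|)))) *
              s.toReal := by ring
        _ ≤ C * (1 + 2 / θ) * s.toReal := by
            rw [e1]
            exact mul_le_mul_of_nonneg_right (mul_le_mul_of_nonneg_left h3 hC)
              ENNReal.toReal_nonneg
    calc ENNReal.ofReal (Real.exp (θ / 2 * |τ|) * ‖b τ y‖)
        ≤ ENNReal.ofReal (C * (1 + 2 / θ) * s.toReal) := ENNReal.ofReal_le_ofReal h4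
      _ = ENNReal.ofReal (C * (1 + 2 / θ)) * s := by
          rw [ENNReal.ofReal_mul (by positivity), ENNReal.ofReal_toReal hst]
  have hsum : ∑' τ : ℝ, (⨆ y ∈ K, ENNReal.ofReal (Real.exp (θ / 2 * |τ|) * ‖b τ y‖)) ≤
      ENNReal.ofReal (C * (1 + 2 / θ)) *
        ∑' τ : ℝ, (⨆ y ∈ K', ENNReal.ofReal (Real.exp (θ * |τ|) * ‖a τ y‖)) := by
    rw [← ENNReal.tsum_mul_left]
    exact ENNReal.tsum_le_tsum hle
  exact ne_top_of_le_ne_top (ENNReal.mul_ne_top ENNReal.ofReal_ne_top hfin) hsum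

/-- The Cauchy estimate on a compact set. -/
theorem cauchy (hSEC : T_SEC) (K : Set ℂ) (hK : K ⊆ sec) (hKc : IsCompact K) :
    ∃ (K' : Set ℂ) (r M : ℝ), K' ⊆ sec ∧ IsCompact K' ∧ 0 < r ∧ 0 ≤ M ∧ K ⊆ K' ∧
      (∀ y ∈ K, ‖y‖ ≤ M) ∧ ∀ g : ℂ → ℂ, DifferentiableOn ℂ g sec →
        ∀ B : ℝ, (∀ w ∈ K', ‖g w‖ ≤ B) → ∀ y ∈ K, ‖deriv g y‖ ≤ B / r := by
  obtain ⟨hopen, -, -, -, -, -, -, -, -, hth, -⟩ := hSEC
  obtain ⟨r, hr, hr1, hr2⟩ := hth K hK hKc
  obtain ⟨M, hM⟩ := hKc.isBounded.exists_norm_le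
  refine ⟨Metric.cthickening r K, r, max M 0, hr1, hr2, hr, le_max_right _ _,
    Metric.self_subset_cthickening K, fun y hy => (hM y hy).trans (le_max_left _ _), ?_⟩
  intro g hg B hB y hy
  have hball : Metric.closedBall y r ⊆ Metric.cthickening r K :=
    Metric.closedBall_subset_cthickening hy r
  refine Complex.norm_deriv_le_of_forall_mem_sphere_norm_le hr ?_ ?_
  · refine DifferentiableOn.diffContOnCl ?_
    rw [closure_ball y hr.ne']
    exact hg.mono (hball.trans hr1)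
  · intro w hw
    exact hB w (hball (Metric.sphere_subset_closedBall hw))

/-- The general combination. -/
theorem gen (hSEC : T_SEC) (a : ℝ → ℂ → ℂ) (ha : LSm a) (c1 c2 c3 c4 c5 : ℂ) :
    LSm (fun τ y => c1 * (τ : ℂ) * a τ y + c2 * y * ((τ : ℂ) * a τ y) +
      c3 * (y * deriv (a τ) y) + c4 * (y * a τ y) + c5 * a τ y) := by
  have hopen : IsOpen sec := hSEC.1
  refine comp a _ ha ?_ ?_
  · intro τ
    have h1 := ha.holo τ
    have h2 : DifferentiableOn ℂ (deriv (a τ)) sec := h1.deriv hopen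
    have h3 : DifferentiableOn ℂ (fun y : ℂ => y) sec := differentiableOn_id
    have k1 := h1.const_mul (c1 * (τ : ℂ))
    have k2 := (h3.const_mul c2).mul (h1.const_mul (τ : ℂ))
    have k3 := (h3.mul h2).const_mul c3
    have k4 := (h3.mul h1).const_mul c4
    have k5 := h1.const_mul c5
    exact (((k1.add k2).add k3).add k4).add k5
  · intro K hK hKc
    obtain ⟨K', r, M, hK', hKc', hr, hM0, hKK, hM, hc⟩ := cauchy hSEC K hK hKc
    refine ⟨K', ‖c1‖ + ‖c2‖ * M + ‖c3‖ * (M / r) + ‖c4‖ * M + ‖c5‖, hK', hKc',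
      by positivity, ?_⟩
    intro τ B hB y hy
    have hy1 := hB y (hKK hy)
    have hy2 := hM y hy
    have hy3 := hc (a τ) (ha.holo τ) B hB y hy
    have hB0 : 0 ≤ B := (norm_nonneg _).trans hy1
    have hτ : 0 ≤ |τ| := abs_nonneg τ
    have n1 : ‖c1 * (τ : ℂ) * a τ y‖ ≤ ‖c1‖ * (1 + |τ|) * B := by
      rw [norm_mul, norm_mul, Complex.norm_real, Real.norm_eq_abs]
      gcongr
      linarith
    have n2 : ‖c2 * y * ((τ : ℂ) * a τ y)‖ ≤ ‖c2‖ * M * ((1 + |τ|) * B) := by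
      rw [norm_mul, norm_mul, norm_mul, Complex.norm_real, Real.norm_eq_abs]
      gcongr
      linarith
    have n3 : ‖c3 * (y * deriv (a τ) y)‖ ≤ ‖c3‖ * (M / r) * ((1 + |τ|) * B) := by
      rw [norm_mul, norm_mul]
      have : ‖y‖ * ‖deriv (a τ) y‖ ≤ M * (B / r) := by gcongr
      calc ‖c3‖ * (‖y‖ * ‖deriv (a τ) y‖) ≤ ‖c3‖ * (M * (B / r)) := by gcongr
        _ = ‖c3‖ * (M / r) * (1 * B) := by ring
        _ ≤ ‖c3‖ * (M / r) * ((1 + |τ|) * B) := by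
          gcongr
          linarith
    have n4 : ‖c4 * (y * a τ y)‖ ≤ ‖c4‖ * M * ((1 + |τ|) * B) := by
      rw [norm_mul, norm_mul]
      calc ‖c4‖ * (‖y‖ * ‖a τ y‖) ≤ ‖c4‖ * (M * B) := by gcongr
        _ = ‖c4‖ * M * (1 * B) := by ring
        _ ≤ ‖c4‖ * M * ((1 + |τ|) * B) := by
          gcongr
          linarith
    have n5 : ‖c5 * a τ y‖ ≤ ‖c5‖ * ((1 + |τ|) * B) := by
      rw [norm_mul]
      calc ‖c5‖ * ‖a τ y‖ ≤ ‖c5‖ * (1 * B) := by rw [one_mul]; gcongr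
        _ ≤ ‖c5‖ * ((1 + |τ|) * B) := by
          gcongr
          linarith
    refine (norm_add_le _ _).trans ?_
    refine (add_le_add_left ((norm_add_le _ _).trans (add_le_add_left ((norm_add_le _ _).trans
      (add_le_add_left (norm_add_le _ _) _)) _)) _).trans ?_
    refine (add_le_add (add_le_add (add_le_add (add_le_add n1 n2) n3) n4) n5).trans
      (le_of_eq ?_)
    ring

end LSD_

open LSD_ in
/-- Target LSD. -/
theorem p_LSD (hSEC : T_SEC) : T_LSD := by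
  intro a ha
  refine ⟨?_, ?_, ?_, ?_⟩
  · have h := gen hSEC a ha I 0 0 0 0
    have e : (fun (τ : ℝ) (y : ℂ) => I * (τ : ℂ) * a τ y) =
        fun (τ : ℝ) (y : ℂ) => I * (τ : ℂ) * a τ y + 0 * y * ((τ : ℂ) * a τ y) +
          0 * (y * deriv (a τ) y) + 0 * (y * a τ y) + 0 * a τ y := by
      funext τ y
      ring
    rw [e]
    exact h
  · have h := gen hSEC a ha 0 0 1 0 0
    have e : (fun (τ : ℝ) (y : ℂ) => y * deriv (a τ) y) =
        fun (τ : ℝ) (y : ℂ) => 0 * (τ : ℂ) * a τ y + 0 * y * ((τ : ℂ) * a τ y) +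
          1 * (y * deriv (a τ) y) + 0 * (y * a τ y) + 0 * a τ y := by
      funext τ y
      ring
    rw [e]
    exact h
  · have h := gen hSEC a ha 0 0 0 1 0
    have e : (fun (τ : ℝ) (y : ℂ) => y * a τ y) =
        fun (τ : ℝ) (y : ℂ) => 0 * (τ : ℂ) * a τ y + 0 * y * ((τ : ℂ) * a τ y) +
          0 * (y * deriv (a τ) y) + 1 * (y * a τ y) + 0 * a τ y := by
      funext τ y
      ring
    rw [e]
    exact h
  · intro σ
    have h := gen hSEC a ha 0 (I / 2) (I / 2 * (σ : ℂ)) 0 0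
    have e : dfam σ a =
        fun (τ : ℝ) (y : ℂ) => 0 * (τ : ℂ) * a τ y + I / 2 * y * ((τ : ℂ) * a τ y) +
          I / 2 * (σ : ℂ) * (y * deriv (a τ) y) + 0 * (y * a τ y) + 0 * a τ y := by
      funext τ y
      unfold dfam
      ring
    rw [e]
    exact h

end Pool.Agent.HSD
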