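import Pool.Agent.HSD.Targets2

/-!
# Project HSD: locally summable families
-/

set_option autoImplicit false

namespace Pool.Agent.HSD

open Complex

theorem LSF_.term {a : ℝ → ℂ → ℂ} {n : ℕ} {τ : ℝ} {y : ℂ} {j : ℤ} (hj : |j| ≤ n)
    (hy : y ∈ Sh j) :
    ENNReal.ofReal (Real.exp ((2 : ℝ) ^ (-(n : ℤ)) / 2 * |τ|) * ‖a τ y‖) ≤
      ∑ i ∈ Finset.Icc (-(n : ℤ)) n, sj τ (a τ) i := by
  have h1 : ENNReal.ofReal (Real.exp (|τ| * y.re / 2) * ‖a τ y‖) ≤ sj τ (a τ) j := by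
    unfold sj
    exact le_iSup₂ (f := fun (y : ℂ) (_ : y ∈ Sh j) =>
      ENNReal.ofReal (Real.exp (|τ| * y.re / 2) * ‖a τ y‖)) y hy
  have hj' : j ∈ Finset.Icc (-(n : ℤ)) n := by
    rw [Finset.mem_Icc]
    exact abs_le.1 hj
  have h2 : sj τ (a τ) j ≤ ∑ i ∈ Finset.Icc (-(n : ℤ)) n, sj τ (a τ) i :=
    Finset.single_le_sum (f := fun i => sj τ (a τ) i) (fun _ _ => bot_le) hj'
  refine le_trans (ENNReal.ofReal_le_ofReal ?_) (h1.trans h2)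
  refine mul_le_mul_of_nonneg_right (Real.exp_le_exp.2 ?_) (norm_nonneg _)
  have h3 : (2 : ℝ) ^ (-(n : ℤ)) ≤ y.re := by
    refine le_trans (zpow_le_zpow_right₀ (by norm_num) ?_) hy.2.1
    exact (abs_le.1 hj).1
  have h4 := abs_nonneg τ
  nlinarith

theorem p_LSF (hSEC : T_SEC) : T_LSF := by
  intro a ha
  obtain ⟨-, -, -, -, -, -, -, -, hK9, -, -⟩ := hSEC
  refine ⟨ha.holo, fun K hK hc => ?_⟩
  obtain ⟨n, hn⟩ := hK9 K hK hc
  refine ⟨(2 : ℝ) ^ (-(n : ℤ)) / 2, by positivity, ?_⟩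
  have h1 : ∀ τ : ℝ, (⨆ y ∈ K, ENNReal.ofReal
      (Real.exp ((2 : ℝ) ^ (-(n : ℤ)) / 2 * |τ|) * ‖a τ y‖)) ≤
        ∑ i ∈ Finset.Icc (-(n : ℤ)) n, sj τ (a τ) i := by
    intro τ
    refine iSup₂_le fun y hy => ?_
    obtain ⟨j, hj, hyj⟩ := hn y hy
    exact LSF_.term hj hyj
  have h2 : ∑' τ : ℝ, (∑ i ∈ Finset.Icc (-(n : ℤ)) n, sj τ (a τ) i) =
      ∑ i ∈ Finset.Icc (-(n : ℤ)) n, NN a i := by
    unfold NN
    exact Summable.tsum_finsetSum (fun _ _ => ENNReal.summable)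
  refine ne_top_of_le_ne_top ?_ (ENNReal.tsum_le_tsum h1)
  rw [h2]
  exact ENNReal.sum_ne_top.2 fun i _ => ha.fin i

theorem LSF_.add {a b c : ℝ → ℂ → ℂ} (ha : LSm a) (hb : LSm b)
    (hc : ∀ τ : ℝ, DifferentiableOn ℂ (c τ) sec)
    (h : ∀ (τ : ℝ) (y : ℂ), ‖c τ y‖ ≤ ‖a τ y‖ + ‖b τ y‖) : LSm c := by
  refine ⟨hc, fun K hK hcK => ?_⟩
  obtain ⟨s, hs, hsa⟩ := ha.fin K hK hcK
  obtain ⟨t, ht, htb⟩ := hb.fin K hK hcK
  refine ⟨min s t, lt_min hs ht, ?_⟩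
  have h1 : ∀ τ : ℝ, (⨆ y ∈ K, ENNReal.ofReal (Real.exp (min s t * |τ|) * ‖c τ y‖)) ≤
      (⨆ y ∈ K, ENNReal.ofReal (Real.exp (s * |τ|) * ‖a τ y‖)) +
        (⨆ y ∈ K, ENNReal.ofReal (Real.exp (t * |τ|) * ‖b τ y‖)) := by
    intro τ
    refine iSup₂_le fun y hy => ?_
    have e1 : Real.exp (min s t * |τ|) ≤ Real.exp (s * |τ|) :=
      Real.exp_le_exp.2 (mul_le_mul_of_nonneg_right (min_le_left _ _) (abs_nonneg _))
    have e2 : Real.exp (min s t * |τ|) ≤ Real.exp (t * |τ|) :=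
      Real.exp_le_exp.2 (mul_le_mul_of_nonneg_right (min_le_right _ _) (abs_nonneg _))
    have e3 : Real.exp (min s t * |τ|) * ‖c τ y‖ ≤
        Real.exp (s * |τ|) * ‖a τ y‖ + Real.exp (t * |τ|) * ‖b τ y‖ := by
      have g1 := mul_le_mul_of_nonneg_left (h τ y) (Real.exp_pos (min s t * |τ|)).le
      have g2 := mul_le_mul_of_nonneg_right e1 (norm_nonneg (a τ y))
      have g3 := mul_le_mul_of_nonneg_right e2 (norm_nonneg (b τ y))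
      rw [mul_add] at g1
      linarith
    refine (ENNReal.ofReal_le_ofReal e3).trans ?_
    rw [ENNReal.ofReal_add (by positivity) (by positivity)]
    exact add_le_add
      (le_iSup₂ (f := fun (y : ℂ) (_ : y ∈ K) =>
        ENNReal.ofReal (Real.exp (s * |τ|) * ‖a τ y‖)) y hy)
      (le_iSup₂ (f := fun (y : ℂ) (_ : y ∈ K) =>
        ENNReal.ofReal (Real.exp (t * |τ|) * ‖b τ y‖)) y hy)
  refine ne_top_of_le_ne_top ?_ (ENNReal.tsum_le_tsum h1)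
  rw [ENNReal.tsum_add]
  exact ENNReal.add_ne_top.2 ⟨hsa, htb⟩

theorem p_LSA : T_LSA := by
  intro a b ha hb
  exact ⟨LSF_.add ha hb (fun τ => (ha.holo τ).sub (hb.holo τ)) (fun τ y => norm_sub_le _ _),
    LSF_.add ha hb (fun τ => (ha.holo τ).add (hb.holo τ)) (fun τ y => norm_add_le _ _)⟩

end Pool.Agent.HSD
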