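import Pool.Agent.HSD.Targets4

/-!
# HSD, target MET: the induced metric
-/

set_option autoImplicit false

namespace Pool.Agent.HSD

open Complex

namespace MET_

/-- The value of the bilinear product. -/
theorem vl_ip {m : ℕ} (v w : Fin m → RR) (p : ℝ × ℝ) :
    vl (ip v w) p = ∑ r, vl (v r) p * vl (w r) p := by
  unfold ip
  rw [vl_sum]
  rfl

/-- The value of the hermitian product. -/
theorem vl_ips {m : ℕ} (v w : Fin m → RR) (p : ℝ × ℝ) :
    vl (ip v (star w)) p = ∑ r, vl (v r) p * starRingEnd ℂ (vl (w r) p) := by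
  rw [vl_ip]
  rfl

/-- The four basic sums. -/
noncomputable def ss {m : ℕ} (v w : Fin m → RR) (p : ℝ × ℝ) : ℂ :=
  ∑ r, vl (v r) p * starRingEnd ℂ (vl (w r) p)

theorem ss_im {m : ℕ} (v : Fin m → RR) (p : ℝ × ℝ) : (ss v v p).im = 0 := by
  unfold ss
  rw [Complex.im_sum]
  refine Finset.sum_eq_zero fun r _ => ?_
  rw [Complex.mul_conj]
  exact Complex.ofReal_im _

theorem ss_conj {m : ℕ} (v w : Fin m → RR) (p : ℝ × ℝ) :
    ss w v p = starRingEnd ℂ (ss v w p) := by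
  unfold ss
  rw [map_sum]
  refine Finset.sum_congr rfl fun r _ => ?_
  rw [map_mul, Complex.conj_conj, mul_comm]

/-- Expansion of the hermitian product of `f (u + σ Y)` and `h (u + τ Y)`. -/
theorem ss_expand {m : ℕ} (f h : RR) (v w u Y : Fin m → RR) (σ τ : ℂ) (p : ℝ × ℝ)
    (hv : ∀ r, vl (v r) p = vl f p * (vl (u r) p + σ * vl (Y r) p))
    (hw : ∀ r, vl (w r) p = vl h p * (vl (u r) p + τ * vl (Y r) p)) :
    ss v w p = vl f p * starRingEnd ℂ (vl h p) * (ss u u p +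
      starRingEnd ℂ τ * ss u Y p + σ * ss Y u p + σ * starRingEnd ℂ τ * ss Y Y p) := by
  unfold ss
  simp only [Finset.mul_sum, ← Finset.sum_add_distrib]
  refine Finset.sum_congr rfl fun r _ => ?_
  rw [hv r, hw r]
  simp only [map_mul, map_add]
  ring

theorem real_of_conj {a : ℂ} (h : starRingEnd ℂ a = a) : a = (a.re : ℂ) :=
  (Complex.conj_eq_iff_re.1 h).symm

/-- The quadratic form. -/
theorem form (q P Q A b : ℝ) (hq : 7 / 8 ≤ q) (hp : P ^ 2 + Q ^ 2 ≤ 1 / 64) :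
    3 / 4 * (A ^ 2 + b ^ 2) ≤ (q + P) * A ^ 2 - 2 * Q * (A * b) + (q - P) * b ^ 2 := by
  have h1 : (P * (A ^ 2 - b ^ 2) - 2 * Q * (A * b)) ^ 2 ≤ (1 / 8 * (A ^ 2 + b ^ 2)) ^ 2 := by
    have e1 : (P ^ 2 + Q ^ 2) * (A ^ 2 + b ^ 2) ^ 2 -
        (P * (A ^ 2 - b ^ 2) - 2 * Q * (A * b)) ^ 2 =
        (Q * (A ^ 2 - b ^ 2) + 2 * P * (A * b)) ^ 2 := by ring
    have e2 : (P ^ 2 + Q ^ 2) * (A ^ 2 + b ^ 2) ^ 2 ≤ 1 / 64 * (A ^ 2 + b ^ 2) ^ 2 :=
      mul_le_mul_of_nonneg_right hp (sq_nonneg _)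
    have e3 := sq_nonneg (Q * (A ^ 2 - b ^ 2) + 2 * P * (A * b))
    nlinarith
  have h2 : 0 ≤ 1 / 8 * (A ^ 2 + b ^ 2) := by positivity
  have h3 := (abs_le_of_sq_le_sq' h1 h2).1
  have h4 : 7 / 8 * (A ^ 2 + b ^ 2) ≤ q * (A ^ 2 + b ^ 2) :=
    mul_le_mul_of_nonneg_right hq (by positivity)
  nlinarith

end MET_

open MET_ in
theorem p_MET (hDSU : T_DSU) (hFUN : T_FUN) (hTOR : T_TOR) (hNRA : T_NRA) : T_MET := by
  intro m χ l i g u Y Φ G z
  obtain ⟨F1, F2⟩ := hFUN m χ l i g u Y Φ G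
  obtain ⟨-, D1, D2⟩ := hDSU m Φ
  obtain ⟨p, hp⟩ : ∃ p : ℝ × ℝ, p = (z.re, z.im) := ⟨_, rfl⟩
  rw [← hp]
  have pt := hNRA.2.2.2.2.2.1
  -- real values
  have hX : vl χ p = ((vl χ p).re : ℂ) := real_of_conj (by rw [← vl_star, G.real])
  have hg : vl g p = ((vl g p).re : ℂ) := real_of_conj (by rw [← vl_star, G.gst])
  obtain ⟨X, hXd⟩ : ∃ X : ℝ, X = (vl χ p).re := ⟨_, rfl⟩
  obtain ⟨γ, hγ⟩ : ∃ γ : ℝ, γ = (vl g p).re := ⟨_, rfl⟩
  rw [← hXd] at hX
  rw [← hγ] at hg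
  have hγX : γ * γ = X := by
    have h1 : vl g p * vl g p = vl χ p := by rw [← vl_mul, G.gg]
    rw [hX, hg] at h1
    exact_mod_cast h1
  obtain ⟨y, hy⟩ : ∃ y : ℝ, y = Real.exp (-z.im) := ⟨_, rfl⟩
  have hy0 : 0 < y := by rw [hy]; exact Real.exp_pos _
  have hies : vl ies p = (y : ℂ) := by
    rw [hy, hp]
    rfl
  obtain ⟨q, hq⟩ : ∃ q : ℝ, q = (ss u u p).re + (ss Y Y p).re := ⟨_, rfl⟩
  have hqv : vl (qq u Y) p = (q : ℂ) := by
    unfold qq
    rw [vl_add, vl_ips, vl_ips]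
    change ss u u p + ss Y Y p = _
    apply Complex.ext
    · rw [Complex.add_re, Complex.ofReal_re, hq]
    · rw [Complex.add_im, Complex.ofReal_im, ss_im, ss_im, add_zero]
  obtain ⟨P, hP⟩ : ∃ P : ℝ, P = 2 * (ss u Y p).re := ⟨_, rfl⟩
  obtain ⟨Q, hQ⟩ : ∃ Q : ℝ, Q = 2 * (ss u Y p).im := ⟨_, rfl⟩
  have hpv : vl (pp u Y) p = (P : ℂ) + Q * I := by
    unfold pp
    rw [vl_mul, vl_ips]
    change vl 2 p * ss u Y p = _
    have h2 : vl (2 : RR) p = 2 := rfl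
    rw [h2, hP, hQ]
    apply Complex.ext
    · simp
    · simp
  -- bounds
  have hXb : 1 / 2 ≤ X := by
    have h1 : ‖vl (χ - 1) p‖ ≤ 1 / 2 := pt _ _ G.near p
    rw [vl_sub, vl_one, hX] at h1
    have h2 : ((X : ℂ) - 1) = ((X - 1 : ℝ) : ℂ) := by push_cast; ring
    rw [h2, Complex.norm_real, Real.norm_eq_abs] at h1
    have := (abs_le.1 h1).1
    linarith
  have hqb : 7 / 8 ≤ q := by
    have h1 : ‖vl (qq u Y - 1) p‖ ≤ 1 / 8 := pt _ _ G.hq p
    rw [vl_sub, vl_one, hqv] at h1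
    have h2 : ((q : ℂ) - 1) = ((q - 1 : ℝ) : ℂ) := by push_cast; ring
    rw [h2, Complex.norm_real, Real.norm_eq_abs] at h1
    have := (abs_le.1 h1).1
    linarith
  have hpb : P ^ 2 + Q ^ 2 ≤ 1 / 64 := by
    have h1 : ‖vl (pp u Y) p‖ ≤ 1 / 8 := pt _ _ G.hp p
    rw [hpv] at h1
    have h2 : ‖(P : ℂ) + Q * I‖ ^ 2 = P ^ 2 + Q ^ 2 := by
      rw [Complex.sq_norm, Complex.normSq_add_mul_I]
    rw [← h2]
    nlinarith [norm_nonneg ((P : ℂ) + Q * I)]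
  -- the derivatives
  have d1 : fderiv ℝ (surf Φ) z 1 = toR m (ev ((ies * g) • (u + Y)) p) := by
    rw [D1 z, F1, hp]
    rfl
  have d2 : fderiv ℝ (surf Φ) z I = toR m (ev ((cst RR I * g) • (u - Y)) p) := by
    rw [D2 z, F2, hp]
    rfl
  have v1 : ∀ r, vl (((ies * g) • (u + Y)) r) p =
      vl (ies * g) p * (vl (u r) p + 1 * vl (Y r) p) := by
    intro r
    rw [one_mul]
    rfl
  have v2 : ∀ r, vl (((cst RR I * g) • (u - Y)) r) p =
      vl (cst RR I * g) p * (vl (u r) p + (-1) * vl (Y r) p) := by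
    intro r
    rw [neg_one_mul, ← sub_eq_add_neg]
    rfl
  have w1 : vl (ies * g) p = ((y * γ : ℝ) : ℂ) := by
    rw [vl_mul, hies, hg]
    push_cast
    ring
  have w2 : vl (cst RR I * g) p = I * (γ : ℂ) := by
    rw [vl_mul, vl_cst, hg]
  have hs := ss_conj u Y p
  have hre : (ss Y u p).re = (ss u Y p).re := by rw [hs, Complex.conj_re]
  have him : (ss Y u p).im = -(ss u Y p).im := by rw [hs, Complex.conj_im]
  have iu := ss_im u p
  have iY := ss_im Y p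
  have gEv : gE (surf Φ) z = X * y ^ 2 * (q + P) := by
    unfold gE
    rw [d1, hTOR.2, vl_ips]
    change (ss _ _ p).re = _
    rw [ss_expand (ies * g) (ies * g) _ _ u Y 1 1 p v1 v1, w1, Complex.conj_ofReal, map_one,
      ← Complex.ofReal_mul, Complex.re_ofReal_mul]
    simp only [one_mul, Complex.add_re]
    rw [hre, hP, hq, ← hγX]
    ring
  have gGv : gG (surf Φ) z = X * (q - P) := by
    unfold gG
    rw [d2, hTOR.2, vl_ips]
    change (ss _ _ p).re = _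
    rw [ss_expand (cst RR I * g) (cst RR I * g) _ _ u Y (-1) (-1) p v2 v2, w2, map_mul,
      Complex.conj_I, Complex.conj_ofReal, map_neg, map_one]
    have e : I * (γ : ℂ) * (-I * (γ : ℂ)) = ((γ * γ : ℝ) : ℂ) := by
      push_cast
      linear_combination (-(γ : ℂ) ^ 2) * Complex.I_mul_I
    rw [e, Complex.re_ofReal_mul]
    simp only [neg_mul, one_mul, neg_neg, Complex.add_re, Complex.neg_re]
    rw [hre, hP, hq, ← hγX]
    ring
  have gFv : gF (surf Φ) z = -(X * y * Q) := by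
    unfold gF
    rw [d1, d2, hTOR.2, vl_ips]
    change (ss _ _ p).re = _
    rw [ss_expand (ies * g) (cst RR I * g) _ _ u Y 1 (-1) p v1 v2, w1, w2, map_mul,
      Complex.conj_I, Complex.conj_ofReal, map_neg, map_one]
    have e : ((y * γ : ℝ) : ℂ) * (-I * (γ : ℂ)) * (ss u u p + -1 * ss u Y p + 1 * ss Y u p +
        1 * -1 * ss Y Y p) = ((y * γ * γ : ℝ) : ℂ) * (-I * (ss u u p - ss u Y p + ss Y u p -
          ss Y Y p)) := by
      push_cast
      ring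
    rw [e, Complex.re_ofReal_mul]
    have e2 : (-I * (ss u u p - ss u Y p + ss Y u p - ss Y Y p)).re =
        (ss u u p - ss u Y p + ss Y u p - ss Y Y p).im := by
      rw [Complex.mul_re]
      simp
    rw [e2]
    simp only [Complex.add_im, Complex.sub_im]
    rw [him, iu, iY, hQ, ← hγX]
    ring
  refine ⟨X, q, P, Q, y, hX, hqv, hpv, hy, gEv, gFv, gGv, ?_, ?_⟩
  · rw [gEv, gFv, gGv]
    have e : X * y ^ 2 * (q + P) * (X * (q - P)) - (-(X * y * Q)) ^ 2 =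
        (X * y) ^ 2 * (q ^ 2 - (P ^ 2 + Q ^ 2)) := by ring
    rw [e]
    have hXy : 0 < X * y := mul_pos (by linarith) hy0
    have h3 : 0 < q ^ 2 - (P ^ 2 + Q ^ 2) := by nlinarith
    positivity
  · intro a b
    rw [gEv, gFv, gGv]
    have h1 := form q P Q (y * a) b hqb hpb
    have h2 : 0 ≤ (y * a) ^ 2 + b ^ 2 := by positivity
    have h3 : X * (3 / 4 * ((y * a) ^ 2 + b ^ 2)) ≤ X * ((q + P) * (y * a) ^ 2 -
        2 * Q * (y * a * b) + (q - P) * b ^ 2) := mul_le_mul_of_nonneg_left h1 (by linarith)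
    have h4 : 1 / 2 * (3 / 4 * ((y * a) ^ 2 + b ^ 2)) ≤ X * (3 / 4 * ((y * a) ^ 2 + b ^ 2)) :=
      mul_le_mul_of_nonneg_right hXb (by positivity)
    have e : a ^ 2 * (X * y ^ 2 * (q + P)) + 2 * a * b * -(X * y * Q) + b ^ 2 * (X * (q - P)) =
        X * ((q + P) * (y * a) ^ 2 - 2 * Q * (y * a * b) + (q - P) * b ^ 2) := by ring
    rw [e]
    have e2 : y ^ 2 * a ^ 2 + b ^ 2 = (y * a) ^ 2 + b ^ 2 := by ring
    rw [e2]
    linarith

end Pool.Agent.HSD
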