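import Pool.Agent.HSD.Targets2

/-!
# Project HSD: the simple rules for `NR` (target T_NRA)
-/

set_option autoImplicit false
set_option linter.unusedSectionVars false

namespace Pool.Agent.HSD

open Complex

namespace NRA_

theorem congr {a : ℝ → ℂ → ℂ} {f g : ℝ × ℝ → ℂ} (h : Rep a f) (hfg : ∀ p, g p = f p) :
    Rep a g := ⟨h.fam, fun p => (hfg p).trans (h.eq p)⟩

end NRA_

open NRA_

theorem p_NRA (hFAD : T_FAD) (hFMU : T_FMU) (hFST : T_FST) (hPTF : T_PTF) : T_NRA := by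
  obtain ⟨hA, -, hC⟩ := hFAD
  have hpt : ∀ (f : RR) (c : ℝ), NR f c → ∀ p, ‖(f : ℝ × ℝ → ℂ) p‖ ≤ c := by
    rintro f c ⟨hc, a, ha, hb⟩ p
    exact hPTF a f c hc ha hb p
  refine ⟨?_, ?_, ?_, ?_, ?_, hpt, ?_⟩
  · rintro f c c' ⟨hc, a, ha, hb⟩ hcc
    exact ⟨hc.trans hcc, a, ha, fun j => (hb j).trans (ENNReal.ofReal_le_ofReal hcc)⟩
  · rintro f g c c' ⟨hc, a, ha, hb⟩ ⟨hc', a', ha', hb'⟩
    obtain ⟨⟨h1, h2, h3⟩, -⟩ := hA a a' ha.fam ha'.fam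
    refine ⟨add_nonneg hc hc', _, ⟨h1, fun p => ?_⟩, fun j => ?_⟩
    · rw [h3, ← ha.eq, ← ha'.eq]
      rfl
    · refine (h2 j).trans ?_
      rw [ENNReal.ofReal_add hc hc']
      exact add_le_add (hb j) (hb' j)
  · rintro f g c c' ⟨hc, a, ha, hb⟩ ⟨hc', a', ha', hb'⟩
    obtain ⟨e, h1, h2⟩ := hFMU a a' f g ha ha'
    refine ⟨mul_nonneg hc hc', e, congr h1 fun p => rfl, fun j => ?_⟩
    refine (h2 j).trans ?_
    rw [ENNReal.ofReal_mul hc]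
    exact mul_le_mul' (hb j) (hb' j)
  · intro z
    obtain ⟨a, h1, h2⟩ := hC z
    exact ⟨norm_nonneg z, a, congr h1 fun p => rfl, h2⟩
  · rintro f c ⟨hc, a, ha, hb⟩
    obtain ⟨e, h1, h2⟩ := hFST a f ha
    exact ⟨hc, e, congr h1 fun p => rfl, fun j => (h2 j).trans (hb j)⟩
  · intro f hf
    apply Subtype.ext
    funext p
    have h : ‖(f : ℝ × ℝ → ℂ) p‖ ≤ 0 :=
      le_of_forall_pos_le_add fun c hc => by simpa using hpt f c (hf c hc) p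
    have h0 := norm_le_zero_iff.mp h
    simpa using h0

end Pool.Agent.HSD
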