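import Pool.Agent.HSD.Targets2

/-!
# Project HSD: inverses of functions close to `1` (target T_NRI)
-/

set_option autoImplicit false

namespace Pool.Agent.HSD

open Complex

namespace NRI_

theorem toV {f : RR} {c : ℝ} (h : NR f c) : VR (fun _ : Unit => f) c := by
  obtain ⟨hc, a, ha, hb⟩ := h
  refine ⟨hc, fun _ => a, fun _ => ha, fun j => ?_⟩
  rw [Fintype.sum_unique, ENNReal.ofReal_pow hc]
  exact pow_le_pow_left' (hb j) 2

theorem ofV {v : Unit → RR} {c : ℝ} (h : VR v c) : NR (v ()) c := by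
  obtain ⟨hc, a, ha, hb⟩ := h
  refine ⟨hc, a (), ha (), fun j => ?_⟩
  have h1 := hb j
  rw [Fintype.sum_unique, ENNReal.ofReal_pow hc] at h1
  exact (ENNReal.pow_le_pow_left_iff two_ne_zero).mp h1

end NRI_

open NRI_

theorem p_NRI (hNRA : T_NRA) (hCPV : T_CPV) : T_NRI := by
  obtain ⟨hmono, hadd, hmul, hcst, -, -, hzero⟩ := hNRA
  intro f c hf hc1
  have hc0 : 0 ≤ c := hf.1
  have h1c : 0 < 1 - c := by linarith
  have hone : NR (1 : RR) 1 := by
    have h := hcst 1
    have e : cst RR (1 : ℂ) = 1 := map_one _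
    rw [e] at h
    simpa using h
  have hneg : ∀ (g : RR) (r : ℝ), NR g r → NR (-g) r := by
    intro g r hg
    have h := hmul _ _ _ _ (hcst (-1)) hg
    have e : cst RR (-1 : ℂ) = -1 := by simp [cst]
    have e2 : (-1 : RR) * g = -g := by ring
    rw [e, e2] at h
    simpa only [norm_neg, norm_one, one_mul] using h
  have hpow : ∀ n : ℕ, NR ((1 - f) ^ n) (c ^ n) := by
    intro n
    induction n with
    | zero => simpa using hone
    | succ n ih =>
      rw [pow_succ, pow_succ]
      exact hmul _ _ _ _ ih hf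
  have hgeo : Summable fun k : ℕ => c ^ k := summable_geometric_of_lt_one hc0 hc1
  obtain ⟨w, hw⟩ := hCPV Unit (fun k _ => ∑ n ∈ Finset.range k, (1 - f) ^ n) (fun k => c ^ k)
    (fun k => pow_nonneg hc0 k) hgeo (fun k => by
      have e : ((fun _ => ∑ n ∈ Finset.range (k + 1), (1 - f) ^ n : Unit → RR) -
          fun _ => ∑ n ∈ Finset.range k, (1 - f) ^ n) = fun _ => (1 - f) ^ k := by
        funext _
        rw [Pi.sub_apply, Finset.sum_range_succ]
        ring
      rw [e]
      exact toV (hpow k))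
  have htail : ∀ k : ℕ, (∑' m : ℕ, c ^ (k + m)) = c ^ k * (1 / (1 - c)) := by
    intro k
    simp_rw [pow_add]
    rw [tsum_mul_left, tsum_geometric_of_lt_one hc0 hc1, one_div]
  have hg : ∀ k : ℕ, NR (w () - ∑ n ∈ Finset.range k, (1 - f) ^ n) (c ^ k * (1 / (1 - c))) := by
    intro k
    have h := ofV (hw k)
    rw [htail k] at h
    exact h
  refine ⟨w (), ?_, ?_⟩
  · have hF : NR f (1 + c) := by
      have h := hadd _ _ _ _ hone (hneg _ _ hf)
      have e : (1 : RR) + -(1 - f) = f := by ring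
      rwa [e] at h
    have hk : ∀ k : ℕ, NR (f * w () - 1) (((1 + c) * (1 / (1 - c)) + 1) * c ^ k) := by
      intro k
      have h1 := hadd _ _ _ _ (hmul _ _ _ _ hF (hg k)) (hneg _ _ (hpow k))
      have e2 : f * ∑ n ∈ Finset.range k, (1 - f) ^ n = 1 - (1 - f) ^ k := by
        have h2 := mul_neg_geom_sum (1 - f) k
        have e3 : (1 : RR) - (1 - f) = f := by ring
        rwa [e3] at h2
      have e1 : f * (w () - ∑ n ∈ Finset.range k, (1 - f) ^ n) + -(1 - f) ^ k
          = f * w () - 1 := by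
        rw [mul_sub, e2]
        ring
      rw [e1] at h1
      refine hmono _ _ _ h1 (le_of_eq ?_)
      ring
    have hz : f * w () - 1 = 0 := by
      apply hzero
      intro r hr
      have hlim : Filter.Tendsto (fun k : ℕ => ((1 + c) * (1 / (1 - c)) + 1) * c ^ k)
          Filter.atTop (nhds (((1 + c) * (1 / (1 - c)) + 1) * 0)) :=
        (tendsto_pow_atTop_nhds_zero_of_lt_one hc0 hc1).const_mul _
      rw [mul_zero] at hlim
      obtain ⟨k, hk2⟩ := (hlim.eventually_lt_const hr).exists
      exact hmono _ _ _ (hk k) hk2.le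
    exact sub_eq_zero.mp hz
  · have h := hg 0
    simpa using h

end Pool.Agent.HSD
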