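import Pool.Agent.HSD.Targets4
import Pool.Agent.HSD.P_DRA

/-!
# Project HSD: the operators of the plane (OPS)
-/

set_option autoImplicit false
set_option linter.unusedSectionVars false

namespace Pool.Agent.HSD

open Complex

namespace OPS_

theorem vl_pxR (f : RR) (p : ℝ × ℝ) : vl (pxR f) p = px (f : ℝ × ℝ → ℂ) p := rfl

theorem vl_psR (f : RR) (p : ℝ × ℝ) : vl (psR f) p = ps (f : ℝ × ℝ → ℂ) p := rfl

theorem vl_dDer (σ : ℂ) (f : RR) (p : ℝ × ℝ) : vl (dDer σ f) p = dOp σ (f : ℝ × ℝ → ℂ) p := rfl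

theorem vl_ies (p : ℝ × ℝ) : vl ies p = ((Real.exp (-p.2) : ℝ) : ℂ) := rfl

theorem exp_cancel (s : ℝ) : ((Real.exp (-s) : ℝ) : ℂ) * ((Real.exp s : ℝ) : ℂ) = 1 := by
  rw [← Complex.ofReal_mul, ← Real.exp_add, neg_add_cancel, Real.exp_zero, Complex.ofReal_one]

theorem hasI (p : ℝ × ℝ) : HasFDerivAt (fun q : ℝ × ℝ => ((Real.exp (-q.2) : ℝ) : ℂ))
    (Complex.ofRealCLM.comp (Real.exp (-p.2) • (-ContinuousLinearMap.snd ℝ ℝ ℝ))) p := by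
  have h1 : HasFDerivAt (fun q : ℝ × ℝ => Real.exp (-q.2))
      (Real.exp (-p.2) • (-ContinuousLinearMap.snd ℝ ℝ ℝ)) p := hasFDerivAt_snd.neg.exp
  exact Complex.ofRealCLM.hasFDerivAt.comp p h1

theorem px_ies (p : ℝ × ℝ) : px (ies : ℝ × ℝ → ℂ) p = 0 := by
  have h : HasFDerivAt (ies : ℝ × ℝ → ℂ) _ p := hasI p
  unfold px
  rw [h.fderiv]
  simp

theorem ps_ies (p : ℝ × ℝ) : ps (ies : ℝ × ℝ → ℂ) p = -((Real.exp (-p.2) : ℝ) : ℂ) := by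
  have h : HasFDerivAt (ies : ℝ × ℝ → ℂ) _ p := hasI p
  unfold ps
  rw [h.fderiv]
  simp

theorem fderiv_mulR (f g : RR) (p : ℝ × ℝ) (v : ℝ × ℝ) :
    fderiv ℝ ((f * g : RR) : ℝ × ℝ → ℂ) p v =
      (f : ℝ × ℝ → ℂ) p * fderiv ℝ (g : ℝ × ℝ → ℂ) p v +
        (g : ℝ × ℝ → ℂ) p * fderiv ℝ (f : ℝ × ℝ → ℂ) p v := by
  have h : fderiv ℝ ((f : ℝ × ℝ → ℂ) * (g : ℝ × ℝ → ℂ)) p = _ :=
    fderiv_mul (RR_diff f p) (RR_diff g p)
  simp only [MulMemClass.coe_mul, h, add_apply, smul_apply, smul_eq_mul]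

theorem fderiv_addR (f g : RR) (p : ℝ × ℝ) (v : ℝ × ℝ) :
    fderiv ℝ ((f + g : RR) : ℝ × ℝ → ℂ) p v =
      fderiv ℝ (f : ℝ × ℝ → ℂ) p v + fderiv ℝ (g : ℝ × ℝ → ℂ) p v := by
  have h : fderiv ℝ ((f : ℝ × ℝ → ℂ) + (g : ℝ × ℝ → ℂ)) p = _ :=
    fderiv_add (RR_diff f p) (RR_diff g p)
  simp only [AddMemClass.coe_add, h, add_apply]

theorem fderiv_subR (f g : RR) (p : ℝ × ℝ) (v : ℝ × ℝ) :
    fderiv ℝ ((f - g : RR) : ℝ × ℝ → ℂ) p v =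
      fderiv ℝ (f : ℝ × ℝ → ℂ) p v - fderiv ℝ (g : ℝ × ℝ → ℂ) p v := by
  have h : fderiv ℝ ((f : ℝ × ℝ → ℂ) - (g : ℝ × ℝ → ℂ)) p = _ :=
    fderiv_sub (RR_diff f p) (RR_diff g p)
  have h2 : ((f - g : RR) : ℝ × ℝ → ℂ) = (f : ℝ × ℝ → ℂ) - (g : ℝ × ℝ → ℂ) := rfl
  rw [h2, h]
  rfl

end OPS_

open OPS_ in
theorem p_OPS : T_OPS := by
  refine ⟨?_, ?_, ?_, ?_, ?_, ?_, ?_, ?_, ?_⟩
  · intro f
    apply vl_ext
    intro p
    rw [vl_mul, vl_add, vl_pxR, vl_dDer, vl_dDer, vl_ies]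
    have h := exp_cancel p.2
    unfold dOp
    linear_combination -(px (f : ℝ × ℝ → ℂ) p) * h
  · intro f
    apply vl_ext
    intro p
    rw [vl_mul, vl_sub, vl_psR, vl_dDer, vl_dDer, vl_cst]
    unfold dOp
    linear_combination (-(ps (f : ℝ × ℝ → ℂ) p)) * (-Complex.I_mul_I)
  · apply vl_ext
    intro p
    rw [vl_pxR, px_ies, vl_zero]
  · apply vl_ext
    intro p
    rw [vl_psR, ps_ies, vl_neg, vl_ies]
  · apply vl_ext
    intro p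
    rw [vl_star, vl_ies, Complex.conj_ofReal]
  · intro f g
    apply vl_ext
    intro p
    rw [vl_add, vl_mul, vl_mul, vl_pxR, vl_pxR, vl_pxR]
    exact fderiv_mulR f g p (1, 0)
  · intro f g
    apply vl_ext
    intro p
    rw [vl_add, vl_mul, vl_mul, vl_psR, vl_psR, vl_psR]
    exact fderiv_mulR f g p (0, 1)
  · intro f g
    refine ⟨?_, ?_, ?_, ?_⟩
    · apply vl_ext
      intro p
      rw [vl_add]
      exact fderiv_addR f g p (1, 0)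
    · apply vl_ext
      intro p
      rw [vl_sub]
      exact fderiv_subR f g p (1, 0)
    · apply vl_ext
      intro p
      rw [vl_add]
      exact fderiv_addR f g p (0, 1)
    · apply vl_ext
      intro p
      rw [vl_sub]
      exact fderiv_subR f g p (0, 1)
  · intro f
    apply vl_ext
    intro p
    exact DRA_.mixed f p

end Pool.Agent.HSD
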