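import Pool.Agent.HSD.Targets4

set_option autoImplicit false

namespace Pool.Agent.HSD

open Complex

namespace ORR_

variable {ι R : Type} [Fintype ι] [CommRing R] [StarRing R] [Algebra ℂ R]

/-- The algebra: `J` is the imaginary unit. -/
theorem alg (J : R) (hJ : star J = -J) (hJJ : J * J = -1) (a b u Y : ι → R)
    (o1 : ip a (star u) + ip b Y = 0) (o2 : ip a (star Y) + ip b u = 0) :
    ip (a + star b) (star (u + Y)) + star (ip (a + star b) (star (u + Y))) = 0 ∧
    ip (a + star b) (star (J • (u - Y))) + star (ip (a + star b) (star (J • (u - Y)))) = 0 ∧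
    ip (J • (a - star b)) (star (u + Y)) + star (ip (J • (a - star b)) (star (u + Y))) = 0 ∧
    ip (J • (a - star b)) (star (J • (u - Y))) +
      star (ip (J • (a - star b)) (star (J • (u - Y)))) = 0 ∧
    ip (a + star b) (star (a + star b)) + ip (J • (a - star b)) (star (J • (a - star b))) =
      2 * (ip a (star a) + ip b (star b)) := by
  have s1 : star (ip b u) = ip (star b) (star u) := star_ip b u
  have s2 : star (ip b Y) = ip (star b) (star Y) := star_ip b Y
  have t1 : ip a (star u) = -ip b Y := by linear_combination o1
  have t2 : ip a (star Y) = -ip b u := by linear_combination o2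
  have e1 : ip (a + star b) (star u) = -ip b Y + star (ip b u) := by
    rw [ip_add_left, t1, s1]
  have e2 : ip (a + star b) (star Y) = -ip b u + star (ip b Y) := by
    rw [ip_add_left, t2, s2]
  have e3 : ip (a - star b) (star u) = -ip b Y - star (ip b u) := by
    rw [ip_sub_left, t1, s1]
  have e4 : ip (a - star b) (star Y) = -ip b u - star (ip b Y) := by
    rw [ip_sub_left, t2, s2]
  have c1 : ip (star b) b = ip b (star b) := ip_comm _ _
  have c2 : ip (star b) (star a) = ip (star a) (star b) := ip_comm _ _
  refine ⟨?_, ?_, ?_, ?_, ?_⟩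
  · rw [star_add, ip_add_right, e1, e2]
    simp only [star_add, star_neg, star_star]
    ring
  · rw [star_smul', star_sub, ip_smul_right, ip_sub_right, e1, e2, hJ]
    simp only [star_add, star_neg, star_star, star_mul', star_sub, hJ]
    ring
  · rw [star_add, ip_smul_left, ip_add_right, e3, e4]
    simp only [star_add, star_neg, star_star, star_mul', star_sub, hJ]
    ring
  · rw [star_smul', star_sub, ip_smul_left, ip_smul_right, ip_sub_right, e3, e4, hJ]
    simp only [star_add, star_neg, star_star, star_mul', star_sub, hJ]
    ring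
  · rw [star_smul', star_add, star_sub, star_star, ip_smul_left, ip_smul_right, hJ,
      ip_add_left, ip_add_right, ip_add_right, ip_sub_left, ip_sub_right, ip_sub_right, c1, c2]
    linear_combination -(ip a (star a) - ip a b - (ip (star a) (star b) - ip b (star b))) * hJJ

theorem star_cst_I_RR : star (cst RR I) = -cst RR I := by
  apply vl_ext
  intro p
  rw [vl_star, vl_neg, vl_cst, conj_I]

end ORR_

open ORR_ in
theorem p_ORR (hORT : T_ORT) : T_ORR := by
  intro m u Y i hi n1 n2 h1 h2
  have ho := hORT (Fin m) RR (dR (Fin m)) u Y i hi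
  subst h1
  subst h2
  exact alg (cst RR I) star_cst_I_RR cst_I_mul_I _ _ u Y ho.1 ho.2

end Pool.Agent.HSD
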