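import Pool.Agent.HSD.Targets1

/-!
# Project HSD: orthogonality, reality of `T`, and the differential form of the system
-/

set_option autoImplicit false

namespace Pool.Agent.HSD

open Complex

namespace ORT_

section

variable {ι R : Type} [Fintype ι] [CommRing R] [StarRing R] [Algebra ℂ R]

theorem star_pp (u Y : ι → R) : star (pp u Y) = 2 * ip (star u) Y := by
  unfold pp
  rw [star_mul', star_ofNat, star_ip, star_star]

theorem star_qq (u Y : ι → R) : star (qq u Y) = qq u Y := by
  unfold qq
  rw [star_add, star_ip, star_ip, star_star, star_star, ip_comm (star u) u, ip_comm (star Y) Y]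

theorem star_dl (u Y : ι → R) : star (dl u Y) = dl u Y := by
  unfold dl
  rw [star_sub, star_pow, star_qq, star_mul', star_star, mul_comm (star (pp u Y))]

theorem star_ww (d : Dat ι R) (u Y : ι → R) (i : R) : star (ww d u Y i) = ww d u Y i := by
  unfold ww
  rw [star_add, star_ip, star_ip, star_star, star_star, ip_comm (star (w1 d u Y i)),
    ip_comm (star (w2 d u Y i))]

theorem first (d : Dat ι R) (u Y : ι → R) (i : R) :
    ip (w1 d u Y i) (star u) + ip (w2 d u Y i) Y =
      aA d u Y - ca d u Y i * qq u Y - cb d u Y i * star (pp u Y) := by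
  rw [star_pp]
  unfold w1 w2 aA qq
  rw [ip_sub_left, ip_sub_left, ip_sub_left, ip_sub_left, ip_smul_left, ip_smul_left,
    ip_smul_left, ip_smul_left, ip_comm (star Y) Y, ip_comm Y (star u)]
  ring

theorem second (d : Dat ι R) (u Y : ι → R) (i : R) :
    ip (w1 d u Y i) (star Y) + ip (w2 d u Y i) u =
      bB d u Y - ca d u Y i * pp u Y - cb d u Y i * qq u Y := by
  unfold w1 w2 bB qq pp
  rw [ip_sub_left, ip_sub_left, ip_sub_left, ip_sub_left, ip_smul_left, ip_smul_left,
    ip_smul_left, ip_smul_left, ip_comm (star Y) u, ip_comm (star u) u]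
  ring

end

end ORT_

open ORT_

/-- ORT. -/
theorem p_ORT : T_ORT := by
  intro ι R _ _ _ _ d u Y i h
  rw [first, second]
  have h' : (qq u Y ^ 2 - pp u Y * star (pp u Y)) * i = 1 := h
  unfold ca cb
  constructor
  · linear_combination -(aA d u Y) * h'
  · linear_combination -(bB d u Y) * h'

/-- REA. -/
theorem p_REA : T_REA := by
  intro ι R _ _ _ _ d u Y i h
  have h1 : star i = i := by
    have h2 : dl u Y * star i = 1 := by
      have h3 := congrArg star h
      rw [star_mul', star_one, star_dl] at h3
      exact h3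
    exact inv_unique h2 h
  refine ⟨h1, star_qq u Y, ?_⟩
  unfold tt
  rw [star_mul', star_mul', star_ofNat, star_ww, h1]

/-- SYS. -/
theorem p_SYS : T_SYS := by
  intro ι R _ _ _ _ CE CS d l u0 u Y c c' a h0 hl s
  constructor
  · funext r
    have hu : u r = u0 r + d.S (l * Y r) := congrFun s.fu r
    have h1 : d.Db (u0 r) = cst R (I / 2) * u0 r := congrFun h0 r
    have hN : d.N (l * Y r) (c' * c) := a.N_mul hl (a.V_comp r s.VY)
    change d.Db (u r) = cst R (I / 2) * u r + l * Y r
    rw [hu, map_add, a.S_eq hN, h1]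
    ring
  · funext r
    have hY : Y r = d.S2 (star l * u r) := congrFun s.fY r
    have hN : d.N (star l * u r) (c' * c) := a.N_mul (a.N_star hl) (a.V_comp r s.Vu)
    change d.D (Y r) = -(cst R (I / 2)) * Y r + star l * u r
    rw [hY, a.S2_eq hN]

end Pool.Agent.HSD
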