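import Pool.Agent.HSD.Targets1

set_option autoImplicit false
set_option linter.unusedSectionVars false

namespace Pool.Agent.HSD

open Complex

namespace PAX_

section

variable {ι R : Type} [Fintype ι] [CommRing R] [StarRing R] [Algebra ℂ R]

theorem D_fst (d : Dat ι R) (t : ℝ) (f : R × R) : ((prD d t).D f).1 = d.D f.1 := rfl
theorem D_snd (d : Dat ι R) (t : ℝ) (f : R × R) : ((prD d t).D f).2 = d.D f.2 := rfl
theorem Db_fst (d : Dat ι R) (t : ℝ) (f : R × R) : ((prD d t).Db f).1 = d.Db f.1 := rfl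
theorem Db_snd (d : Dat ι R) (t : ℝ) (f : R × R) : ((prD d t).Db f).2 = d.Db f.2 := rfl
theorem S_fst (d : Dat ι R) (t : ℝ) (f : R × R) : ((prD d t).S f).1 = d.S f.1 := rfl
theorem S_snd (d : Dat ι R) (t : ℝ) (f : R × R) : ((prD d t).S f).2 = d.S f.2 := rfl
theorem cst_fst (z : ℂ) : (cst (R × R) z).1 = cst R z := rfl
theorem cst_snd (z : ℂ) : (cst (R × R) z).2 = cst R z := rfl

theorem ip_fst (v w : ι → R × R) :
    (ip v w).1 = ip (fun r => (v r).1) (fun r => (w r).1) := by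
  simp [ip, Prod.fst_sum]
theorem ip_snd (v w : ι → R × R) :
    (ip v w).2 = ip (fun r => (v r).2) (fun r => (w r).2) := by
  simp [ip, Prod.snd_sum]

/-- the real inequality for products -/
theorem mul_le {t c1 c2 c d1 d2 c' : ℝ} (ht : 0 ≤ t) (h1 : 0 ≤ c1) (h2 : 0 ≤ c2)
    (k1 : 0 ≤ d1) (k2 : 0 ≤ d2) (h : c1 + t * c2 ≤ c) (k : d1 + t * d2 ≤ c') :
    c1 * d1 + t * (c2 * d1 + c1 * d2) ≤ c * c' := by
  have e1 : c1 * d1 + t * (c2 * d1 + c1 * d2) ≤ (c1 + t * c2) * (d1 + t * d2) := by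
    have : 0 ≤ (t * c2) * (t * d2) := by positivity
    nlinarith
  have e2 : (c1 + t * c2) * (d1 + t * d2) ≤ c * c' :=
    mul_le_mul h k (by positivity) (le_trans (by positivity) h)
  exact e1.trans e2

/-- the real inequality for inverses -/
theorem inv_le {t c1 c2 c : ℝ} (ht : 0 ≤ t) (h2 : 0 ≤ c2)
    (h : c1 + t * c2 ≤ c) (hc : c < 1) :
    1 / (1 - c1) + t * (1 / (1 - c1) * (1 / (1 - c1)) * c2) ≤ 1 / (1 - c) := by
  have hy : 0 ≤ t * c2 := by positivity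
  have hx : 0 < 1 - c1 := by linarith
  have hxy : 0 < 1 - c1 - t * c2 := by linarith
  have e1 : 1 / (1 - c1) + t * (1 / (1 - c1) * (1 / (1 - c1)) * c2) ≤
      1 / (1 - c1 - t * c2) := by
    rw [le_div_iff₀ hxy]
    have e2 : (1 / (1 - c1) + t * (1 / (1 - c1) * (1 / (1 - c1)) * c2)) *
        (1 - c1 - t * c2) = 1 - (t * c2) ^ 2 / (1 - c1) ^ 2 := by
      field_simp
      ring
    rw [e2]
    have : 0 ≤ (t * c2) ^ 2 / (1 - c1) ^ 2 := by positivity
    linarith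
  refine e1.trans ?_
  apply one_div_le_one_div_of_le (by linarith)
  linarith

end

end PAX_

open PAX_ in
theorem p_PAX : T_PAX := by
  intro ι R _ _ _ _ CE CS t d ht a
  have CE0 : 0 ≤ CE := by linarith [a.CE_pos]
  have CS0 : 0 ≤ CS := by linarith [a.CS_pos]
  refine
    { CE_pos := a.CE_pos
      CS_pos := a.CS_pos
      star_cst := ?_
      Db_eq := ?_
      comm := ?_
      N_nonneg := ?_
      N_mono := ?_
      N_add := ?_
      N_mul := ?_
      N_cst := ?_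
      N_star := ?_
      N_zero := ?_
      N_D := ?_
      N_inv := ?_
      V_o := ?_
      V_nonneg := ?_
      V_mono := ?_
      V_add := ?_
      V_smul := ?_
      V_star := ?_
      V_ip := ?_
      V_comp := ?_
      V_zero := ?_
      V_D := ?_
      S_eq := ?_
      S_sub := ?_
      V_S := ?_ }
  · intro z
    exact Prod.ext (a.star_cst z) (a.star_cst z)
  · intro f
    exact Prod.ext (a.Db_eq f.1) (a.Db_eq f.2)
  · intro f
    exact Prod.ext (a.comm f.1) (a.comm f.2)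
  · rintro f c ⟨c1, c2, h1, h2, h3, h4⟩
    have := a.N_nonneg h1
    have := a.N_nonneg h3
    have : 0 ≤ t * c2 := by positivity
    linarith
  · rintro f c c' ⟨c1, c2, h1, h2, h3, h4⟩ hc
    exact ⟨c1, c2, h1, h2, h3, h4.trans hc⟩
  · rintro f g c c' ⟨c1, c2, h1, h2, h3, h4⟩ ⟨d1, d2, k1, k2, k3, k4⟩
    refine ⟨c1 + d1, c2 + d2, a.N_add h1 k1, a.N_add h2 k2, ?_, ?_⟩
    · exact a.N_eq (a.N_add h3 k3) (by
        change (f.1 + g.1) - (f.2 + g.2) = _
        ring)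
    · nlinarith
  · rintro f g c c' ⟨c1, c2, h1, h2, h3, h4⟩ ⟨d1, d2, k1, k2, k3, k4⟩
    refine ⟨c1 * d1, c2 * d1 + c1 * d2, a.N_mul h1 k1, a.N_mul h2 k2, ?_, ?_⟩
    · exact a.N_eq (a.N_add (a.N_mul h3 k1) (a.N_mul h2 k3)) (by
        change f.1 * g.1 - f.2 * g.2 = _
        ring)
    · exact mul_le ht (a.N_nonneg h1) (a.N_nonneg h3) (a.N_nonneg k1) (a.N_nonneg k3) h4 k4
  · intro z
    refine ⟨‖z‖, 0, a.N_cst z, a.N_cst z, ?_, by simp⟩
    exact a.N_eq a.N_o (sub_self _)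
  · rintro f c ⟨c1, c2, h1, h2, h3, h4⟩
    refine ⟨c1, c2, a.N_star h1, a.N_star h2, ?_, h4⟩
    exact a.N_eq (a.N_star h3) (by
      change star f.1 - star f.2 = _
      rw [star_sub])
  · intro f hf
    refine Prod.ext (a.N_zero fun c hc => ?_) (a.N_zero fun c hc => ?_)
    · obtain ⟨c1, c2, h1, h2, h3, h4⟩ := hf c hc
      have := a.N_nonneg h3
      have : 0 ≤ t * c2 := by positivity
      exact a.N_mono h1 (by linarith)
    · obtain ⟨c1, c2, h1, h2, h3, h4⟩ := hf c hc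
      have := a.N_nonneg h3
      have : 0 ≤ t * c2 := by positivity
      exact a.N_mono h2 (by linarith)
  · rintro f c c' ⟨c1, c2, h1, h2, h3, h4⟩ ⟨d1, d2, k1, k2, k3, k4⟩
    refine ⟨CE * (c1 + d1), CE * (c2 + d2), a.N_D h1 k1, a.N_D h2 k2, ?_, ?_⟩
    · have k3' : d.N (d.Db (f.1 - f.2)) d2 := a.N_eq k3 (by rw [map_sub]; rfl)
      exact a.N_eq (a.N_D h3 k3') (by rw [map_sub]; rfl)
    · have e : CE * (c1 + d1) + t * (CE * (c2 + d2)) =
          CE * ((c1 + t * c2) + (d1 + t * d2)) := by ring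
      rw [e]
      exact mul_le_mul_of_nonneg_left (by linarith) CE0
  · rintro f c ⟨c1, c2, h1, h2, h3, h4⟩ hc
    have c20 := a.N_nonneg h3
    have : 0 ≤ t * c2 := by positivity
    have c11 : c1 < 1 := by linarith
    obtain ⟨g1, e1, n1⟩ := a.N_inv h1 c11
    obtain ⟨g2, e2, n2⟩ := a.N_inv h2 c11
    refine ⟨(g1, g2), Prod.ext e1 e2, 1 / (1 - c1), 1 / (1 - c1) * (1 / (1 - c1)) * c2,
      n1, n2, ?_, inv_le ht c20 h4 hc⟩
    have h3' : d.N (f.2 - f.1) c2 := a.N_eq h3 (by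
      change f.2 - f.1 = (1 - f.1) - (1 - f.2)
      ring)
    exact a.N_eq (a.N_mul (a.N_mul n1 n2) h3') (inv_sub e1 e2)
  · refine ⟨0, 0, a.V_o, a.V_o, ?_, by simp⟩
    exact a.V_eq a.V_o (by funext r; simp)
  · rintro v c ⟨c1, c2, h1, h2, h3, h4⟩
    have := a.V_nonneg h1
    have := a.V_nonneg h3
    have : 0 ≤ t * c2 := by positivity
    linarith
  · rintro v c c' ⟨c1, c2, h1, h2, h3, h4⟩ hc
    exact ⟨c1, c2, h1, h2, h3, h4.trans hc⟩
  · rintro v w c c' ⟨c1, c2, h1, h2, h3, h4⟩ ⟨d1, d2, k1, k2, k3, k4⟩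
    refine ⟨c1 + d1, c2 + d2, a.V_add h1 k1, a.V_add h2 k2, ?_, ?_⟩
    · exact a.V_eq (a.V_add h3 k3) (by
        funext r
        change ((v r).1 + (w r).1) - ((v r).2 + (w r).2) =
          ((v r).1 - (v r).2) + ((w r).1 - (w r).2)
        ring)
    · nlinarith
  · rintro f v c c' ⟨c1, c2, h1, h2, h3, h4⟩ ⟨d1, d2, k1, k2, k3, k4⟩
    refine ⟨c1 * d1, c2 * d1 + c1 * d2, ?_, ?_, ?_, ?_⟩
    · exact a.V_eq (a.V_smul h1 k1) rfl
    · exact a.V_eq (a.V_smul h2 k2) rfl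
    · exact a.V_eq (a.V_add (a.V_smul h3 k1) (a.V_smul h2 k3)) (by
        funext r
        change f.1 * (v r).1 - f.2 * (v r).2 =
          (f.1 - f.2) * (v r).1 + f.2 * ((v r).1 - (v r).2)
        ring)
    · exact mul_le ht (a.N_nonneg h1) (a.N_nonneg h3) (a.V_nonneg k1) (a.V_nonneg k3) h4 k4
  · rintro v c ⟨c1, c2, h1, h2, h3, h4⟩
    refine ⟨c1, c2, a.V_eq (a.V_star h1) rfl, a.V_eq (a.V_star h2) rfl, ?_, h4⟩
    exact a.V_eq (a.V_star h3) (by
      funext r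
      change star (v r).1 - star (v r).2 = star ((v r).1 - (v r).2)
      rw [star_sub])
  · rintro v w c c' ⟨c1, c2, h1, h2, h3, h4⟩ ⟨d1, d2, k1, k2, k3, k4⟩
    refine ⟨c1 * d1, c2 * d1 + c1 * d2, ?_, ?_, ?_, ?_⟩
    · exact a.N_eq (a.V_ip h1 k1) (ip_fst v w)
    · exact a.N_eq (a.V_ip h2 k2) (ip_snd v w)
    · refine a.N_eq (a.N_add (a.V_ip h3 k1) (a.V_ip h2 k3)) ?_
      rw [ip_fst, ip_snd]
      have e1 : ip (fun r => (v r).1 - (v r).2) (fun r => (w r).1) =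
          ip (fun r => (v r).1) (fun r => (w r).1) -
            ip (fun r => (v r).2) (fun r => (w r).1) := ip_sub_left _ _ _
      have e2 : ip (fun r => (v r).2) (fun r => (w r).1 - (w r).2) =
          ip (fun r => (v r).2) (fun r => (w r).1) -
            ip (fun r => (v r).2) (fun r => (w r).2) := ip_sub_right _ _ _
      rw [e1, e2]
      ring
    · exact mul_le ht (a.V_nonneg h1) (a.V_nonneg h3) (a.V_nonneg k1) (a.V_nonneg k3) h4 k4
  · rintro v c r ⟨c1, c2, h1, h2, h3, h4⟩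
    exact ⟨c1, c2, a.V_comp r h1, a.V_comp r h2, a.V_comp r h3, h4⟩
  · intro v hv
    have e1 : (fun r => (v r).1) = 0 := a.V_zero fun c hc => by
      obtain ⟨c1, c2, h1, h2, h3, h4⟩ := hv c hc
      have := a.V_nonneg h3
      have : 0 ≤ t * c2 := by positivity
      exact a.V_mono h1 (by linarith)
    have e2 : (fun r => (v r).2) = 0 := a.V_zero fun c hc => by
      obtain ⟨c1, c2, h1, h2, h3, h4⟩ := hv c hc
      have := a.V_nonneg h3
      have : 0 ≤ t * c2 := by positivity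
      exact a.V_mono h2 (by linarith)
    funext r
    exact Prod.ext (congrFun e1 r) (congrFun e2 r)
  · rintro v c c' ⟨c1, c2, h1, h2, h3, h4⟩ ⟨d1, d2, k1, k2, k3, k4⟩
    refine ⟨CE * (c1 + d1), CE * (c2 + d2), ?_, ?_, ?_, ?_⟩
    · exact a.V_eq (a.V_D h1 (a.V_eq k1 rfl)) rfl
    · exact a.V_eq (a.V_D h2 (a.V_eq k2 rfl)) rfl
    · have k3' : d.V (dv d.Db (fun r => (v r).1 - (v r).2)) d2 := a.V_eq k3 (by
        funext r
        change d.Db ((v r).1 - (v r).2) = d.Db (v r).1 - d.Db (v r).2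
        rw [map_sub])
      exact a.V_eq (a.V_D h3 k3') (by
        funext r
        change d.D (v r).1 - d.D (v r).2 = d.D ((v r).1 - (v r).2)
        rw [map_sub])
    · have e : CE * (c1 + d1) + t * (CE * (c2 + d2)) =
          CE * ((c1 + t * c2) + (d1 + t * d2)) := by ring
      rw [e]
      exact mul_le_mul_of_nonneg_left (by linarith) CE0
  · rintro h c ⟨c1, c2, h1, h2, h3, h4⟩
    exact Prod.ext (a.S_eq h1) (a.S_eq h2)
  · rintro h k c c' ⟨c1, c2, h1, h2, h3, h4⟩ ⟨d1, d2, k1, k2, k3, k4⟩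
    exact Prod.ext (a.S_sub h1 k1) (a.S_sub h2 k2)
  · rintro v c ⟨c1, c2, h1, h2, h3, h4⟩
    refine ⟨CS * c1, CS * c2, ?_, ?_, ?_, ?_⟩
    · exact a.V_eq (a.V_S h1) rfl
    · exact a.V_eq (a.V_S h2) rfl
    · exact a.V_eq (a.V_S h3) (by
        funext r
        exact (a.S_sub (a.V_comp r h1) (a.V_comp r h2)).symm)
    · have e : CS * c1 + t * (CS * c2) = CS * (c1 + t * c2) := by ring
      rw [e]
      exact mul_le_mul_of_nonneg_left h4 CS0

end Pool.Agent.HSD
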