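import Pool.Agent.HSD.Targets4

set_option autoImplicit false

/-!
# HSD: target PHI, the potential
-/

namespace Pool.Agent.HSD

open Complex

namespace PHI_

theorem der_cst_mul (σ z : ℂ) (f : RR) : dDer σ (cst RR z * f) = cst RR z * dDer σ f := by
  have h0 : dDer σ (cst RR z) = 0 := (dDer σ).map_algebraMap z
  rw [Derivation.leibniz, h0]
  simp

theorem der_mul (σ : ℂ) (f g : RR) : dDer σ (f * g) = f * dDer σ g + g * dDer σ f := by
  rw [Derivation.leibniz]
  simp

/-- the inverse of `ies` -/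
theorem ies_inv : ∃ e : RR, e * ies = 1 := by
  refine ⟨⟨fun p => ((Real.exp p.2 : ℝ) : ℂ), mem_RR.mpr
    (Complex.ofRealCLM.contDiff.comp (Real.contDiff_exp.comp contDiff_snd))⟩, ?_⟩
  refine vl_ext fun p => ?_
  rw [vl_mul, vl_one]
  change ((Real.exp p.2 : ℝ) : ℂ) * ((Real.exp (-p.2) : ℝ) : ℂ) = 1
  rw [← Complex.ofReal_mul, ← Real.exp_add]
  simp

theorem ies_cancel {f g : RR} (h : ies * f = ies * g) : f = g := by
  obtain ⟨e, he⟩ := ies_inv
  have h1 : e * (ies * f) = e * (ies * g) := by rw [h]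
  rw [← mul_assoc, ← mul_assoc, he, one_mul, one_mul] at h1
  exact h1

theorem two_cancel {f g : RR} (h : 2 * f = 2 * g) : f = g := by
  have h1 : cst RR (1 / 2) * (2 * f) = cst RR (1 / 2) * (2 * g) := by rw [h]
  have h2 : (2 : RR) * cst RR (1 / 2) = 1 := two_cst_half
  calc f = (2 * cst RR (1 / 2)) * f := by rw [h2, one_mul]
    _ = cst RR (1 / 2) * (2 * f) := by ring
    _ = cst RR (1 / 2) * (2 * g) := h1
    _ = (2 * cst RR (1 / 2)) * g := by ring
    _ = g := by rw [h2, one_mul]

end PHI_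

open PHI_ in
theorem p_PHI (hOPS : T_OPS) (hPOT : T_POT) : T_PHI := by
  intro m l g u Y hs hDg hDbg
  obtain ⟨hpx, hps, -, hies, -, -, hpsm, -, -⟩ := hOPS
  have hI2 : (2 : RR) * cst RR (I / 2) = cst RR I := two_cst_Ihalf
  have hII : cst RR I * cst RR I = -1 := cst_I_mul_I
  -- the components
  have e1 : ∀ r, dDer 1 (u r) = cst RR (I / 2) * u r + l * Y r := fun r => by
    have := congrFun hs.equ r
    simpa [dv, dR] using this
  have e2 : ∀ r, dDer (-1) (Y r) = -(cst RR (I / 2)) * Y r + star l * u r := fun r => by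
    have := congrFun hs.eqY r
    simpa [dv, dR] using this
  have key : ∀ r, ∃ Φ : RR, pxR Φ = ies * (g * (u r + Y r)) ∧
      psR Φ = cst RR I * (g * (u r - Y r)) := by
    intro r
    refine hPOT _ _ ?_
    rw [hpsm, hies, hps, hpx, der_cst_mul, der_cst_mul]
    have d1 : dDer (-1) (g * (u r + Y r)) = g * dDer (-1) (u r) +
        g * (-(cst RR (I / 2)) * Y r + star l * u r) + (u r + Y r) * (l * g) := by
      rw [der_mul, map_add, e2, hDg]
      ring
    have d2 : dDer 1 (g * (u r + Y r)) = g * (cst RR (I / 2) * u r + l * Y r) +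
        g * dDer 1 (Y r) + (u r + Y r) * (star l * g) := by
      rw [der_mul, map_add, e1, hDbg]
      ring
    have d3 : dDer (-1) (g * (u r - Y r)) = g * dDer (-1) (u r) -
        g * (-(cst RR (I / 2)) * Y r + star l * u r) + (u r - Y r) * (l * g) := by
      rw [der_mul, map_sub, e2, hDg]
      ring
    have d4 : dDer 1 (g * (u r - Y r)) = g * (cst RR (I / 2) * u r + l * Y r) -
        g * dDer 1 (Y r) + (u r - Y r) * (star l * g) := by
      rw [der_mul, map_sub, e1, hDbg]
      ring
    rw [d1, d2, d3, d4]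
    linear_combination (-(ies * cst RR I * g * (u r + Y r))) * hI2 -
      (ies * g * (u r + Y r)) * hII
  choose Φ hΦ using key
  have h1 : ∀ r, dDer (-1) (Φ r) + dDer 1 (Φ r) = g * (u r + Y r) := fun r => by
    have := (hΦ r).1
    rw [hpx] at this
    exact ies_cancel this
  have h2 : ∀ r, dDer (-1) (Φ r) - dDer 1 (Φ r) = g * (u r - Y r) := fun r => by
    have := (hΦ r).2
    rw [hps] at this
    linear_combination (-(cst RR I)) * this +
      (dDer (-1) (Φ r) - dDer 1 (Φ r) - g * (u r - Y r)) * hII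
  refine ⟨Φ, ?_, ?_⟩
  · funext r
    change dDer (-1) (Φ r) = g * u r
    exact two_cancel (by linear_combination h1 r + h2 r)
  · funext r
    change dDer 1 (Φ r) = g * Y r
    exact two_cancel (by linear_combination h1 r - h2 r)

end Pool.Agent.HSD
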