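import Pool.Agent.HSD.Targets1

/-!
# Project HSD: pairs of points
-/

set_option autoImplicit false
set_option linter.unusedSectionVars false

namespace Pool.Agent.HSD

open Complex

namespace PPT_

variable {ι R : Type} [Fintype ι] [CommRing R] [StarRing R] [Algebra ℂ R]

theorem ip_pair (v v' w w' : ι → R) :
    ip (fun r => (v r, v' r)) (fun r => (w r, w' r)) = (ip v w, ip v' w') := by
  unfold ip
  ext
  · simp [Prod.fst_sum]
  · simp [Prod.snd_sum]

theorem star_pair (v v' : ι → R) :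
    star (fun r => (v r, v' r)) = fun r => ((star v) r, (star v') r) := rfl

theorem zero_pair : (0 : ι → R × R) = fun r => ((0 : ι → R) r, (0 : ι → R) r) := rfl

theorem qq_pair (u u' Y Y' : ι → R) :
    qq (fun r => (u r, u' r)) (fun r => (Y r, Y' r)) = (qq u Y, qq u' Y') := by
  unfold qq
  rw [star_pair, star_pair, ip_pair, ip_pair]
  rfl

theorem pp_pair (u u' Y Y' : ι → R) :
    pp (fun r => (u r, u' r)) (fun r => (Y r, Y' r)) = (pp u Y, pp u' Y') := by
  unfold pp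
  rw [star_pair, ip_pair]
  rfl

theorem dl_pair (u u' Y Y' : ι → R) :
    dl (fun r => (u r, u' r)) (fun r => (Y r, Y' r)) = (dl u Y, dl u' Y') := by
  unfold dl
  rw [qq_pair, pp_pair]
  rfl

theorem mul_self_div {e δ : ℝ} (h : 0 < δ) : e + e / δ * δ = 2 * e := by
  rw [div_mul_cancel₀ e h.ne']
  ring

end PPT_

theorem p_PPT : T_PPT := by
  intro ι R _ _ _ _ CE CS A e δ c c' d u0 χ χ' l l' u Y u' Y' i i' j
  intro a e0 δ0 g g' hχ hDχ p p' s0 hA hq hj
  have ed : e + e / δ * δ ≤ 2 * e := (PPT_.mul_self_div δ0).le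
  have hqj : dl u0 0 * j = 1 := hj
  refine ⟨⟨?_, ?_, ?_⟩, ⟨max c c' + e / δ * (c + c'), ?_, ⟨?_, ?_, ?_, ?_⟩, ?_⟩, ?_, ?_, ?_, ?_⟩
  · exact Prod.ext g.real g'.real
  · refine ⟨e, δ, g.near, g'.near, ?_, ed⟩
    refine a.N_eq hχ ?_
    show (χ - 1) - (χ' - 1) = χ - χ'
    ring
  · exact ⟨e, δ, g.der, g'.der, hDχ, ed⟩
  · exact Prod.ext p.hl p'.hl
  · funext r
    exact Prod.ext (congrFun p.sol.fu r) (congrFun p'.sol.fu r)
  · funext r
    exact Prod.ext (congrFun p.sol.fY r) (congrFun p'.sol.fY r)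
  · exact ⟨max c c', c + c', a.V_mono p.sol.Vu (le_max_left _ _),
      a.V_mono p'.sol.Vu (le_max_right _ _), a.V_sub p.sol.Vu p'.sol.Vu, le_refl _⟩
  · exact ⟨max c c', c + c', a.V_mono p.sol.VY (le_max_left _ _),
      a.V_mono p'.sol.VY (le_max_right _ _), a.V_sub p.sol.VY p'.sol.VY, le_refl _⟩
  · rw [PPT_.dl_pair]
    exact Prod.ext p.inv p'.inv
  · funext r
    exact Prod.ext (congrFun s0 r) (congrFun s0 r)
  · refine ⟨A, 0, hA, hA, ?_, by simp⟩
    exact a.V_eq a.V_o (by funext r; simp)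
  · rw [PPT_.zero_pair, PPT_.qq_pair]
    refine ⟨1 / 16, 0, hq, hq, ?_, by simp⟩
    exact a.N_eq a.N_o (by simp)
  · rw [PPT_.zero_pair, PPT_.dl_pair]
    exact Prod.ext hqj hqj

end Pool.Agent.HSD
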