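import Pool.Agent.HSD.Targets1

set_option autoImplicit false

namespace Pool.Agent.HSD

theorem p_PTX (hLOG : T_LOG) (hEXI : T_EXI) (hE1 : T_E1) (hE2 : T_E2) (hE3 : T_E3) :
    T_PTX := by
  intro CE CS A hCS hA
  obtain ⟨K, hK2, hCEK, hCSK, h1⟩ := hE1 CE CS A hA
  obtain ⟨K', hKK', h2⟩ := hE2 CE CS K hK2 hCEK hCSK
  obtain ⟨K'', ε₀, -, hε₀, h3⟩ := hE3 CE CS K' (hK2.trans hKK') (hCEK.trans hKK')
    (hCSK.trans hKK')
  have hCS0 : 0 < CS := by linarith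
  have hp : 0 < 1 / (2 * CS) := by positivity
  refine ⟨min (1 / 4) (min (1 / (2 * CS)) ε₀), lt_min (by norm_num) (lt_min hp hε₀), ?_⟩
  intro ι R _ _ _ _ d u0 ax cpl hsys hV hq e χ he0 he hgood
  have e14 : e ≤ 1 / 4 := he.trans (min_le_left _ _)
  have eCS : e ≤ 1 / (2 * CS) := he.trans ((min_le_right _ _).trans (min_le_left _ _))
  have eε : e ≤ ε₀ := he.trans ((min_le_right _ _).trans (min_le_right _ _))
  have hCSe : CS * e ≤ 1 / 2 := by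
    calc CS * e ≤ CS * (1 / (2 * CS)) := mul_le_mul_of_nonneg_left eCS hCS0.le
      _ = 1 / 2 := by field_simp
  have e1 : e ≤ 1 := by linarith
  have hA0 : 0 < A := by linarith
  obtain ⟨⟨l, hl⟩, hlN⟩ := hLOG ι R CE CS e d χ ax e14 hgood
  have hNl : d.N l e := hlN l hl
  obtain ⟨u, Y, hsol⟩ := hEXI ι R CE CS A e d l u0 ax cpl he0 hCSe hA0 hNl hV
  have g1 := h1 ι R e (3 * A) d l u0 u Y ax he0 e1 hCSe hNl hsys hV hsol
  have g2 := h2 ι R e d u0 u Y ax he0 e1 g1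
  obtain ⟨g3, -⟩ := h3 ι R e d u0 u Y ax he0 e1 eε g2 hq
  obtain ⟨i, hi, -⟩ := ax.N_inv g3 (by norm_num)
  exact ⟨l, u, Y, i, 3 * A, ⟨hl, hsol, hi⟩⟩

end Pool.Agent.HSD
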