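import Pool.Agent.HSD.Targets2

set_option autoImplicit false

namespace Pool.Agent.HSD

open Filter Topology MeasureTheory Set

theorem p_RAI (hSEC : T_SEC) : T_RAI := by
  obtain ⟨hopen, hconv, hre, hmul, -⟩ := hSEC
  intro H C hH hC y hy
  obtain ⟨P, hP'⟩ := hconv.exists_forall_hasDerivWithinAt (𝕜 := ℂ) hH
  have hP : ∀ z ∈ sec, HasDerivAt P (H z) z := fun z hz =>
    (hP' z hz).hasDerivAt (hopen.mem_nhds hz)
  have hnorm : ∀ w ∈ sec, 0 < ‖w‖ := by
    intro w hw
    exact lt_of_lt_of_le (hre w hw).1 (Complex.re_le_norm w)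
  have hC0 : 0 ≤ C := by
    have h := hC y hy
    have h2 : 0 < ‖y‖ ^ 2 := pow_pos (hnorm y hy) 2
    have h3 : 0 ≤ C / ‖y‖ ^ 2 := le_trans (norm_nonneg _) h
    by_contra hneg
    have h4 : C / ‖y‖ ^ 2 < 0 := div_neg_of_neg_of_pos (not_le.1 hneg) h2
    linarith
  have hray : ∀ w ∈ sec, ∀ t : ℝ, 0 < t →
      HasDerivAt (fun t : ℝ => P ((t : ℂ) * w)) (w * H ((t : ℂ) * w)) t := by
    intro w hw t ht
    have h1 : HasDerivAt (fun z : ℂ => z * w) w (t : ℂ) := by
      simpa using (hasDerivAt_id (t : ℂ)).mul_const w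
    have h2 : HasDerivAt (P ∘ fun z : ℂ => z * w) (H ((t : ℂ) * w) * w) (t : ℂ) :=
      HasDerivAt.comp (t : ℂ) (hP _ (hmul w hw t ht)) h1
    have h3 := h2.comp_ofReal
    rw [mul_comm w]
    exact h3
  have hint : ∀ w ∈ sec, IntegrableOn (fun t : ℝ => w * H (t * w)) (Ioi (1 : ℝ)) := by
    intro w hw
    refine Integrable.mono' (g := fun t : ℝ => (C / ‖w‖) * t ^ (-2 : ℝ)) ?_ ?_ ?_
    · exact (integrableOn_Ioi_rpow_of_lt (by norm_num) one_pos).const_mul _
    · refine ContinuousOn.aestronglyMeasurable ?_ measurableSet_Ioi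
      refine continuousOn_const.mul ?_
      refine hH.continuousOn.comp ?_ ?_
      · exact (Complex.continuous_ofReal.mul continuous_const).continuousOn
      · intro t ht
        exact hmul w hw t (lt_trans one_pos ht)
    · refine (ae_restrict_iff' measurableSet_Ioi).2 (Eventually.of_forall fun t ht => ?_)
      have ht0 : 0 < t := lt_trans one_pos ht
      have h1 := hC _ (hmul w hw t ht0)
      have hw0 := hnorm w hw
      rw [norm_mul, Complex.norm_real, Real.norm_of_nonneg ht0.le] at h1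
      rw [norm_mul]
      calc ‖w‖ * ‖H (t * w)‖ ≤ ‖w‖ * (C / (t * ‖w‖) ^ 2) :=
            mul_le_mul_of_nonneg_left h1 hw0.le
        _ = C / ‖w‖ * t ^ (-2 : ℝ) := by
            rw [Real.rpow_neg ht0.le, Real.rpow_two]
            field_simp
  have hlim : ∀ w ∈ sec, Tendsto (fun t : ℝ => P (t * w)) atTop
      (𝓝 (limUnder atTop fun t : ℝ => P (t * w))) := fun w hw =>
    tendsto_limUnder_of_hasDerivAt_of_integrableOn_Ioi (a := 1)
      (fun t ht => hray w hw t (lt_trans one_pos ht)) (hint w hw)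
  obtain ⟨L, hLy⟩ : ∃ L, Tendsto (fun t : ℝ => P (t * y)) atTop (𝓝 L) := ⟨_, hlim y hy⟩
  have hL : ∀ w ∈ sec, Tendsto (fun t : ℝ => P (t * w)) atTop (𝓝 L) := by
    intro w hw
    have hm : 0 < min w.re y.re := lt_min (hre w hw).1 (hre y hy).1
    set m : ℝ := min w.re y.re with hmdef
    have hd : Tendsto (fun t : ℝ => P (t * w) - P (t * y)) atTop (𝓝 0) := by
      refine squeeze_zero_norm' (a := fun t : ℝ => C / m ^ 2 * ‖w - y‖ * t⁻¹) ?_ ?_
      · filter_upwards [eventually_gt_atTop (0 : ℝ)] with t ht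
        have hs : Convex ℝ (sec ∩ {z : ℂ | t * m ≤ z.re}) :=
          hconv.inter (convex_halfSpace_re_ge (t * m))
        have hmem : ∀ z ∈ sec, m ≤ z.re → (t : ℂ) * z ∈ sec ∩ {z : ℂ | t * m ≤ z.re} := by
          intro z hz hzm
          refine ⟨hmul z hz t ht, ?_⟩
          change t * m ≤ ((t : ℂ) * z).re
          rw [Complex.re_ofReal_mul]
          exact mul_le_mul_of_nonneg_left hzm ht.le
        have h1 := hs.norm_image_sub_le_of_norm_hasDerivWithin_le (f := P) (f' := H)
          (C := C / (t * m) ^ 2) (fun z hz => (hP z hz.1).hasDerivWithinAt)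
          (fun z hz => by
            refine (hC z hz.1).trans ?_
            have h2 : t * m ≤ ‖z‖ := le_trans hz.2 (Complex.re_le_norm z)
            have h3 : 0 < t * m := mul_pos ht hm
            gcongr)
          (hmem y hy (min_le_right _ _)) (hmem w hw (min_le_left _ _))
        refine h1.trans (le_of_eq ?_)
        rw [← mul_sub, norm_mul, Complex.norm_real, Real.norm_of_nonneg ht.le]
        field_simp
      · have h := (tendsto_inv_atTop_zero (𝕜 := ℝ)).const_mul (C / m ^ 2 * ‖w - y‖)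
        simpa using h
    have h := hd.add hLy
    simpa using h
  have hF : ∀ w ∈ sec, ∫ t in Ioi (1 : ℝ), w * H (t * w) = L - P w := by
    intro w hw
    have h := integral_Ioi_of_hasDerivAt_of_tendsto' (f := fun t : ℝ => P (t * w)) (a := 1)
      (fun t ht => hray w hw t (lt_of_lt_of_le one_pos ht)) (hint w hw) (hL w hw)
    simpa using h
  refine ⟨hint y hy, ?_⟩
  have h1 : HasDerivAt (fun w => L - P w) (-H y) y := by
    simpa using (hP y hy).const_sub L
  exact h1.congr_of_eventuallyEq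
    (by filter_upwards [hopen.mem_nhds hy] with w hw using hF w hw)

end Pool.Agent.HSD
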