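import Pool.Agent.HSD.Targets2

/-!
# Project HSD, target RAZ: integrals along rays from the origin

The integrand `w H(t w)` is differentiated under the integral sign; its derivative in `w` is the
`t`-derivative of `t H(t w)`, and `t H(t w)` tends to zero with `t`.
-/

set_option autoImplicit false

namespace Pool.Agent.HSD

open Complex MeasureTheory

namespace RAZ_

/-- The derivative of `w ↦ w H(t w)`. -/
lemma hasDeriv_w {H : ℂ → ℂ} {t : ℝ} {w : ℂ} (h : DifferentiableAt ℂ H ((t : ℂ) * w)) :
    HasDerivAt (fun w : ℂ => w * H (t * w))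
      (H (t * w) + t * (w * deriv H (t * w))) w := by
  have h1 : HasDerivAt (fun w : ℂ => (t : ℂ) * w) (t : ℂ) w := by
    simpa using (hasDerivAt_id w).const_mul (t : ℂ)
  have h2 : HasDerivAt (fun w : ℂ => H (t * w)) (deriv H (t * w) * t) w :=
    h.hasDerivAt.comp w h1
  have h3 := (hasDerivAt_id w).mul h2
  refine (h3.congr_deriv ?_)
  simp only [id]
  ring

/-- The derivative of `t ↦ t H(t w)`. -/
lemma hasDeriv_t {H : ℂ → ℂ} {t : ℝ} {w : ℂ} (h : DifferentiableAt ℂ H ((t : ℂ) * w)) :
    HasDerivAt (fun t : ℝ => (t : ℂ) * H (t * w))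
      (H (t * w) + t * (w * deriv H (t * w))) t := by
  have h0 : HasDerivAt (fun t : ℝ => (t : ℂ)) 1 t := Complex.ofRealCLM.hasDerivAt
  have h1 : HasDerivAt (fun t : ℝ => (t : ℂ) * w) w t := by
    simpa using h0.mul_const w
  have h2 : HasDerivAt (fun t : ℝ => H (t * w)) (deriv H (t * w) * w) t :=
    h.hasDerivAt.comp_of_eq t h1 rfl
  have h3 := h0.mul h2
  refine (h3.congr_deriv ?_)
  ring

end RAZ_

/-- The target `T_RAZ`. -/
theorem p_RAZ (hSEC : T_SEC) : T_RAZ := by
  intro H hH hbd y hy
  obtain ⟨hopen, -, -, hdil, -⟩ := hSEC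
  obtain ⟨r0, hr0, hball⟩ := Metric.isOpen_iff.1 hopen y hy
  set r := r0 / 4 with hr
  have hrpos : 0 < r := by positivity
  have hcb : Metric.closedBall y (2 * r) ⊆ sec := by
    refine (Metric.closedBall_subset_ball ?_).trans hball
    rw [hr]; linarith
  obtain ⟨C0, hC0⟩ := hbd (‖y‖ + 2 * r) (by positivity)
  set C := max C0 0 with hCdef
  have hCnn : 0 ≤ C := le_max_right _ _
  -- the basic bounds
  have hin : ∀ w ∈ Metric.ball y r, ∀ z ∈ Metric.closedBall w r,
      z ∈ Metric.closedBall y (2 * r) := by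
    intro w hw z hz
    rw [Metric.mem_ball] at hw
    rw [Metric.mem_closedBall] at hz ⊢
    have := dist_triangle z w y
    linarith
  have hsc : ∀ z ∈ Metric.closedBall y (2 * r), ∀ t : ℝ, 0 < t → t ≤ 1 →
      (t : ℂ) * z ∈ sec ∧ ‖H (t * z)‖ ≤ C := by
    intro z hz t ht ht1
    have h1 : (t : ℂ) * z ∈ sec := hdil z (hcb hz) t ht
    refine ⟨h1, (hC0 _ h1 ?_).trans (le_max_left _ _)⟩
    have h2 : ‖z‖ ≤ ‖y‖ + 2 * r := by
      rw [Metric.mem_closedBall, dist_eq_norm] at hz
      have := norm_le_norm_add_norm_sub' z y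
      linarith
    rw [norm_mul, Complex.norm_real, Real.norm_of_nonneg ht.le]
    have h3 : t * ‖z‖ ≤ 1 * ‖z‖ := mul_le_mul_of_nonneg_right ht1 (norm_nonneg z)
    linarith
  have hdiff : ∀ z ∈ sec, DifferentiableAt ℂ H z := fun z hz =>
    hH.differentiableAt (hopen.mem_nhds hz)
  have hder : ∀ w ∈ Metric.ball y r, ∀ t : ℝ, 0 < t → t ≤ 1 →
      ‖deriv H (t * w)‖ ≤ C / (t * r) := by
    intro w hw t ht ht1
    have hsub : Metric.closedBall ((t : ℂ) * w) (t * r) ⊆ sec ∩ {z | ‖H z‖ ≤ C} := by
      intro z hz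
      have htc : (t : ℂ) ≠ 0 := by exact_mod_cast ht.ne'
      have hz' : z = (t : ℂ) * (z / t) := by field_simp
      have h1 : z / t ∈ Metric.closedBall w r := by
        rw [Metric.mem_closedBall, dist_eq_norm] at hz ⊢
        have h2 : z / t - w = (z - t * w) / t := by field_simp
        rw [h2, norm_div, Complex.norm_real, Real.norm_of_nonneg ht.le, div_le_iff₀ ht]
        linarith
      have h3 := hsc _ (hin w hw _ h1) t ht ht1
      rw [← hz'] at h3
      exact h3
    refine Complex.norm_deriv_le_of_forall_mem_sphere_norm_le (mul_pos ht hrpos) ?_ ?_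
    · exact hH.diffContOnCl_ball fun z hz => (hsub hz).1
    · exact fun z hz => (hsub (Metric.sphere_subset_closedBall hz)).2
  have hyb : y ∈ Metric.ball y r := Metric.mem_ball_self hrpos
  have hwsec : ∀ w ∈ Metric.ball y r, w ∈ Metric.closedBall y (2 * r) := fun w hw =>
    hin w hw w (Metric.mem_closedBall_self hrpos.le)
  have hwn : ∀ w ∈ Metric.ball y r, ‖w‖ ≤ ‖y‖ + r := by
    intro w hw
    rw [Metric.mem_ball, dist_eq_norm] at hw
    have := norm_le_norm_add_norm_sub' w y
    linarith
  -- continuity in `t`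
  have hcont : ∀ w ∈ Metric.ball y r,
      ContinuousOn (fun t : ℝ => H (t * w)) (Set.Ioc (0 : ℝ) 1) := by
    intro w hw
    refine hH.continuousOn.comp (by fun_prop) ?_
    intro t ht
    exact (hsc w (hwsec w hw) t ht.1 ht.2).1
  have hcont' : ContinuousOn (fun t : ℝ => deriv H (t * y)) (Set.Ioc (0 : ℝ) 1) := by
    refine (hH.deriv hopen).continuousOn.comp (by fun_prop) ?_
    intro t ht
    exact (hsc y (hwsec y hyb) t ht.1 ht.2).1
  have hFm : ∀ w ∈ Metric.ball y r, AEStronglyMeasurable (fun t : ℝ => w * H (t * w))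
      (volume.restrict (Set.Ioc (0 : ℝ) 1)) := by
    intro w hw
    exact (continuousOn_const.mul (hcont w hw)).aestronglyMeasurable measurableSet_Ioc
  have hFint : Integrable (fun t : ℝ => y * H (t * y)) (volume.restrict (Set.Ioc (0 : ℝ) 1)) := by
    refine Integrable.mono' (g := fun _ => ‖y‖ * C) (integrable_const _) (hFm y hyb) ?_
    rw [ae_restrict_iff' measurableSet_Ioc]
    refine Filter.Eventually.of_forall fun t ht => ?_
    rw [norm_mul]
    exact mul_le_mul_of_nonneg_left (hsc y (hwsec y hyb) t ht.1 ht.2).2 (norm_nonneg _)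
  refine ⟨hFint, ?_⟩
  have hkey := hasDerivAt_integral_of_dominated_loc_of_deriv_le
    (μ := volume.restrict (Set.Ioc (0 : ℝ) 1)) (s := Metric.ball y r) (x₀ := y)
    (F := fun (w : ℂ) (t : ℝ) => w * H (t * w))
    (F' := fun (w : ℂ) (t : ℝ) => H (t * w) + t * (w * deriv H (t * w)))
    (bound := fun _ => C + (‖y‖ + r) * (C / r))
    (Metric.ball_mem_nhds y hrpos)
    (by
      filter_upwards [Metric.ball_mem_nhds y hrpos] with w hw
      exact hFm w hw)
    hFint
    (by
      refine ContinuousOn.aestronglyMeasurable ?_ measurableSet_Ioc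
      exact (hcont y hyb).add ((by fun_prop : Continuous fun t : ℝ => (t : ℂ)).continuousOn.mul
        (continuousOn_const.mul hcont')))
    (by
      rw [ae_restrict_iff' measurableSet_Ioc]
      refine Filter.Eventually.of_forall fun t ht w hw => ?_
      have h1 := (hsc w (hwsec w hw) t ht.1 ht.2).2
      have h2 := hder w hw t ht.1 ht.2
      have h3 : ‖(t : ℂ) * (w * deriv H (t * w))‖ ≤ (‖y‖ + r) * (C / r) := by
        rw [norm_mul, norm_mul, Complex.norm_real, Real.norm_of_nonneg ht.1.le]
        have h4 : t * ‖deriv H (t * w)‖ ≤ C / r := by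
          have h5 : t * ‖deriv H (t * w)‖ ≤ t * (C / (t * r)) :=
            mul_le_mul_of_nonneg_left h2 ht.1.le
          have h6 : t * (C / (t * r)) = C / r := by
            have := ht.1.ne'
            field_simp
          rwa [h6] at h5
        calc t * (‖w‖ * ‖deriv H (t * w)‖) = ‖w‖ * (t * ‖deriv H (t * w)‖) := by ring
          _ ≤ (‖y‖ + r) * (C / r) := mul_le_mul (hwn w hw) h4
            (mul_nonneg ht.1.le (norm_nonneg _)) (by positivity)
      exact (norm_add_le _ _).trans (add_le_add h1 h3))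
    (integrable_const _)
    (by
      rw [ae_restrict_iff' measurableSet_Ioc]
      refine Filter.Eventually.of_forall fun t ht w hw => ?_
      exact RAZ_.hasDeriv_w (hdiff _ (hsc w (hwsec w hw) t ht.1 ht.2).1))
  obtain ⟨hI, hD⟩ := hkey
  have hval : ∫ t in Set.Ioc (0 : ℝ) 1, (H (t * y) + t * (y * deriv H (t * y))) = H y := by
    rw [← intervalIntegral.integral_of_le zero_le_one]
    have hφ : ContinuousOn (fun t : ℝ => (t : ℂ) * H (t * y)) (Set.Icc (0 : ℝ) 1) := by
      intro t ht
      rcases eq_or_lt_of_le ht.1 with h0 | h0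
      · subst h0
        have hlim : Filter.Tendsto (fun t : ℝ => (t : ℂ) * H (t * y))
            (nhdsWithin 0 (Set.Icc (0 : ℝ) 1)) (nhds 0) := by
          refine squeeze_zero_norm' (a := fun t : ℝ => t * C) ?_ ?_
          · filter_upwards [self_mem_nhdsWithin] with t ht
            rw [norm_mul, Complex.norm_real, Real.norm_of_nonneg ht.1]
            rcases eq_or_lt_of_le ht.1 with h1 | h1
            · rw [← h1]; simp
            · exact mul_le_mul_of_nonneg_left (hsc y (hwsec y hyb) t h1 ht.2).2 ht.1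
          · have : Filter.Tendsto (fun t : ℝ => t * C) (nhds 0) (nhds (0 * C)) :=
              (continuous_id.mul continuous_const).tendsto 0
            rw [zero_mul] at this
            exact this.mono_left nhdsWithin_le_nhds
        unfold ContinuousWithinAt
        simpa using hlim
      · have hd := RAZ_.hasDeriv_t (H := H) (t := t) (w := y)
          (hdiff _ (hsc y (hwsec y hyb) t h0 ht.2).1)
        exact hd.continuousAt.continuousWithinAt
    have hFTC := intervalIntegral.integral_eq_sub_of_hasDerivAt_of_le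
      (f := fun t : ℝ => (t : ℂ) * H (t * y))
      (f' := fun t : ℝ => H (t * y) + t * (y * deriv H (t * y))) zero_le_one hφ
      (fun t ht => RAZ_.hasDeriv_t (hdiff _ (hsc y (hwsec y hyb) t ht.1 ht.2.le).1))
      ((intervalIntegrable_iff_integrableOn_Ioc_of_le zero_le_one).2 hI)
    rw [hFTC]
    simp
  rw [hval] at hD
  exact hD

end Pool.Agent.HSD
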