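import Pool.Agent.HSD.Targets3

/-!
# Project HSD, target RIE: Riemann sums
-/

set_option autoImplicit false

namespace Pool.Agent.HSD

open Complex MeasureTheory

namespace RIE_

theorem one (φ φ' : ℝ → ℂ) (δ : ℝ) (hδ : 0 < δ) (hd : ∀ x, HasDerivAt φ (φ' x) x)
    (hc : Continuous φ') (hi' : Integrable φ') (a : ℝ) :
    ‖(δ : ℂ) * φ a - ∫ x in Set.Ioc a (a + δ), φ x‖ ≤ δ * ∫ x in Set.Ioc a (a + δ), ‖φ' x‖ := by
  have hφc : Continuous φ := continuous_iff_continuousAt.2 fun x => (hd x).continuousAt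
  have h1 : ∀ x ∈ Set.Ioc a (a + δ), ‖φ a - φ x‖ ≤ ∫ x in Set.Ioc a (a + δ), ‖φ' x‖ := by
    intro x hx
    have e1 : ∫ t in a..x, φ' t = φ x - φ a :=
      intervalIntegral.integral_eq_sub_of_hasDerivAt (fun t _ => hd t)
        (hc.intervalIntegrable _ _)
    rw [norm_sub_rev, ← e1]
    refine (intervalIntegral.norm_integral_le_integral_norm hx.1.le).trans ?_
    rw [intervalIntegral.integral_of_le hx.1.le]
    refine setIntegral_mono_set hi'.norm.integrableOn ?_ ?_
    · exact Filter.Eventually.of_forall fun t => norm_nonneg _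
    · exact (Set.Ioc_subset_Ioc_right hx.2).eventuallyLE
  have hint : IntegrableOn φ (Set.Ioc a (a + δ)) :=
    (hφc.integrableOn_Icc (a := a) (b := a + δ)).mono_set Set.Ioc_subset_Icc_self
  have hvol : volume.real (Set.Ioc a (a + δ)) = δ := by
    rw [Real.volume_real_Ioc_of_le (by linarith)]; ring
  have hfin : volume (Set.Ioc a (a + δ)) < ⊤ := by
    rw [Real.volume_Ioc]; exact ENNReal.ofReal_lt_top
  have hconst : IntegrableOn (fun _ : ℝ => φ a) (Set.Ioc a (a + δ)) :=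
    (continuous_const.integrableOn_Icc (a := a) (b := a + δ)).mono_set Set.Ioc_subset_Icc_self
  have h2 : (δ : ℂ) * φ a - ∫ x in Set.Ioc a (a + δ), φ x =
      ∫ x in Set.Ioc a (a + δ), (φ a - φ x) := by
    rw [integral_sub hconst hint, setIntegral_const, hvol]
    rw [Complex.real_smul]
  rw [h2]
  refine (norm_setIntegral_le_of_norm_le_const hfin h1).trans ?_
  rw [hvol, mul_comm]

end RIE_

open RIE_

theorem p_RIE : T_RIE := by
  intro φ φ' δ hδ hd hc hi hi'
  set s : ℤ → Set ℝ := fun k => Set.Ioc (k • δ) ((k + 1) • δ) with hs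
  have hU : ⋃ k, s k = Set.univ := iUnion_Ioc_zsmul hδ
  have hD : Pairwise (Function.onFun Disjoint s) := Set.pairwise_disjoint_Ioc_zsmul δ
  have hm : ∀ k, MeasurableSet (s k) := fun k => measurableSet_Ioc
  have hS1 : HasSum (fun k => ∫ x in s k, φ x) (∫ x, φ x) := by
    have := hasSum_integral_iUnion hm hD (f := φ) (μ := volume) (by
      rw [hU]; exact hi.integrableOn)
    rw [hU, setIntegral_univ] at this
    exact this
  have hS2 : HasSum (fun k => ∫ x in s k, ‖φ' x‖) (∫ x, ‖φ' x‖) := by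
    have := hasSum_integral_iUnion hm hD (f := fun x => ‖φ' x‖) (μ := volume) (by
      rw [hU]; exact hi'.norm.integrableOn)
    rw [hU, setIntegral_univ] at this
    exact this
  have hsk : ∀ k : ℤ, s k = Set.Ioc (δ * k) (δ * k + δ) := by
    intro k
    simp only [hs, zsmul_eq_mul]
    push_cast
    congr 1 <;> ring
  have hb : ∀ k : ℤ, ‖(δ : ℂ) * φ (δ * k) - ∫ x in s k, φ x‖ ≤ δ * ∫ x in s k, ‖φ' x‖ := by
    intro k
    rw [hsk k]
    exact one φ φ' δ hδ hd hc hi' (δ * k)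
  have hS3 : HasSum (fun k => δ * ∫ x in s k, ‖φ' x‖) (δ * ∫ x, ‖φ' x‖) := hS2.mul_left δ
  have hsum1 : Summable (fun k : ℤ => (δ : ℂ) * φ (δ * k) - ∫ x in s k, φ x) :=
    Summable.of_norm_bounded hS3.summable hb
  have hδ' : (δ : ℂ) ≠ 0 := by exact_mod_cast hδ.ne'
  have hsum2 : Summable (fun k : ℤ => (δ : ℂ) * φ (δ * k)) := by
    have := hsum1.add hS1.summable
    simpa using this
  have hsum : Summable (fun k : ℤ => φ (δ * k)) := (summable_mul_left_iff hδ').1 hsum2
  refine ⟨hsum, ?_⟩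
  have h3 : (δ : ℂ) * ∑' k : ℤ, φ (δ * k) - ∫ x, φ x =
      ∑' k : ℤ, ((δ : ℂ) * φ (δ * k) - ∫ x in s k, φ x) := by
    rw [hsum2.tsum_sub hS1.summable, tsum_mul_left, hS1.tsum_eq]
  rw [h3]
  exact tsum_of_norm_bounded hS3 hb

end Pool.Agent.HSD
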