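import Pool.Agent.HSD.Targets2

set_option autoImplicit false

namespace Pool.Agent.HSD

open Complex

namespace SEC_

theorem isOpen_sec : IsOpen sec := by
  unfold sec
  exact isOpen_lt (continuous_abs.comp continuous_im) continuous_re

theorem re_pos {y : ℂ} (hy : y ∈ sec) : 0 < y.re := lt_of_le_of_lt (abs_nonneg _) hy

theorem convex_sec : Convex ℝ sec := by
  intro x hx y hy a b ha hb hab
  have hx' : |x.im| < x.re := hx
  have hy' : |y.im| < y.re := hy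
  change |(a • x + b • y).im| < (a • x + b • y).re
  simp only [add_im, add_re, real_smul, mul_im, mul_re, ofReal_re, ofReal_im, zero_mul,
    add_zero, sub_zero]
  have h1 : |a * x.im + b * y.im| ≤ a * |x.im| + b * |y.im| := by
    refine (abs_add_le _ _).trans ?_
    rw [abs_mul, abs_mul, abs_of_nonneg ha, abs_of_nonneg hb]
  rcases eq_or_lt_of_le ha with h | h
  · have hb1 : b = 1 := by linarith
    subst hb1
    rw [← h] at h1 ⊢
    nlinarith
  · have h2 : a * |x.im| < a * x.re := mul_lt_mul_of_pos_left hx' h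
    have h3 : b * |y.im| ≤ b * y.re := mul_le_mul_of_nonneg_left hy'.le hb
    linarith

theorem norm_le {y : ℂ} (hy : y ∈ sec) : ‖y‖ ≤ 3 / 2 * y.re := by
  have h0 := re_pos hy
  have hy' : |y.im| < y.re := hy
  have h1 : y.im ^ 2 ≤ y.re ^ 2 := by
    rw [sq_le_sq, abs_of_pos h0]
    exact hy'.le
  have h2 : ‖y‖ ^ 2 = y.re ^ 2 + y.im ^ 2 := by
    rw [← normSq_eq_norm_sq, normSq_apply]
    ring
  refine abs_le_of_sq_le_sq' ?_ (by positivity) |>.2
  rw [h2]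
  nlinarith

theorem mul_mem {y : ℂ} (hy : y ∈ sec) {t : ℝ} (ht : 0 < t) : (t : ℂ) * y ∈ sec := by
  have hy' : |y.im| < y.re := hy
  change |((t : ℂ) * y).im| < ((t : ℂ) * y).re
  simp only [mul_im, mul_re, ofReal_re, ofReal_im, zero_mul, add_zero, sub_zero]
  rw [abs_mul, abs_of_pos ht]
  exact mul_lt_mul_of_pos_left hy' ht

theorem conj_mem {y : ℂ} (hy : y ∈ sec) : starRingEnd ℂ y ∈ sec := by
  have hy' : |y.im| < y.re := hy
  change |(starRingEnd ℂ y).im| < (starRingEnd ℂ y).re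
  simpa using hy'

theorem real_mem {t : ℝ} (ht : 0 < t) : (t : ℂ) ∈ sec := by
  change |(t : ℂ).im| < (t : ℂ).re
  simpa using ht

/-- the shell of a point, half open -/
theorem exists_shell {y : ℂ} (hy : y ∈ sec) :
    ∃ j : ℤ, (2 : ℝ) ^ j ≤ y.re ∧ y.re < (2 : ℝ) ^ (j + 1) := by
  obtain ⟨n, hn⟩ := exists_mem_Ico_zpow (re_pos hy) (one_lt_two : (1 : ℝ) < 2)
  exact ⟨n, hn.1, hn.2⟩

theorem exists_nhd {y : ℂ} (hy : y ∈ sec) :
    ∃ j : ℤ, ∃ U : Set ℂ, IsOpen U ∧ y ∈ U ∧ U ⊆ sec ∧ U ⊆ Sh j ∪ Sh (j + 1) := by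
  obtain ⟨j, h1, h2⟩ := exists_shell hy
  refine ⟨j - 1, sec ∩ {z | (2 : ℝ) ^ (j - 1) < z.re ∧ z.re < (2 : ℝ) ^ (j + 1)}, ?_,
    ⟨hy, ?_, h2⟩, Set.inter_subset_left, ?_⟩
  · exact isOpen_sec.inter ((isOpen_lt continuous_const continuous_re).inter
      (isOpen_lt continuous_re continuous_const))
  · exact lt_of_lt_of_le (zpow_lt_zpow_right₀ one_lt_two (by lia)) h1
  · rintro z ⟨hz, h3, h4⟩
    have e : j - 1 + 1 = j := by ring
    rcases le_total z.re ((2 : ℝ) ^ j) with h | h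
    · exact Or.inl ⟨hz, h3.le, by rw [e]; exact h⟩
    · exact Or.inr ⟨hz, by rw [e]; exact h, by rw [e]; exact h4.le⟩

theorem compact_shells (K : Set ℂ) (hKs : K ⊆ sec) (hK : IsCompact K) :
    ∃ n : ℕ, ∀ y ∈ K, ∃ j : ℤ, |j| ≤ n ∧ y ∈ Sh j := by
  refine hK.induction_on (p := fun K => ∃ n : ℕ, ∀ y ∈ K, ∃ j : ℤ, |j| ≤ n ∧ y ∈ Sh j)
    ⟨0, fun y hy => absurd hy (Set.notMem_empty y)⟩ ?_ ?_ ?_
  · rintro s t hst ⟨n, hn⟩
    exact ⟨n, fun y hy => hn y (hst hy)⟩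
  · rintro s t ⟨n, hn⟩ ⟨m, hm⟩
    refine ⟨max n m, ?_⟩
    rintro y (hy | hy)
    · obtain ⟨j, h1, h2⟩ := hn y hy
      exact ⟨j, h1.trans (by exact_mod_cast le_max_left n m), h2⟩
    · obtain ⟨j, h1, h2⟩ := hm y hy
      exact ⟨j, h1.trans (by exact_mod_cast le_max_right n m), h2⟩
  · intro x hx
    obtain ⟨j, U, hU, hxU, -, hUs⟩ := exists_nhd (hKs hx)
    refine ⟨U, mem_nhdsWithin_of_mem_nhds (hU.mem_nhds hxU), (|j| + 1).toNat, ?_⟩
    intro y hy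
    have h0 : (0 : ℤ) ≤ |j| := abs_nonneg j
    have h1 : (((|j| + 1).toNat : ℕ) : ℤ) = |j| + 1 := Int.toNat_of_nonneg (by linarith)
    rcases hUs hy with h | h
    · exact ⟨j, by rw [h1]; linarith, h⟩
    · exact ⟨j + 1, by rw [h1]; exact (abs_add_le j 1).trans (by simp), h⟩

theorem shell_mul (i j : ℤ) (t : ℝ) (y : ℂ) (h1 : (2 : ℝ) ^ i ≤ t)
    (h2 : t ≤ (2 : ℝ) ^ (i + 1)) (hy : y ∈ Sh j) :
    (t : ℂ) * y ∈ Sh (j + i) ∪ Sh (j + i + 1) := by
  obtain ⟨hs, h3, h4⟩ := hy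
  have ht : 0 < t := lt_of_lt_of_le (by positivity) h1
  have hre : ((t : ℂ) * y).re = t * y.re := by
    simp [mul_re]
  have ha : (2 : ℝ) ^ (j + i) ≤ t * y.re := by
    rw [zpow_add₀ (two_ne_zero), mul_comm]
    exact mul_le_mul h1 h3 (by positivity) ht.le
  have hb : t * y.re ≤ (2 : ℝ) ^ (j + i + 1 + 1) := by
    have e : (2 : ℝ) ^ (j + i + 1 + 1) = (2 : ℝ) ^ (i + 1) * (2 : ℝ) ^ (j + 1) := by
      rw [← zpow_add₀ (two_ne_zero)]
      congr 1
      ring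
    rw [e]
    exact mul_le_mul h2 h4 (re_pos hs).le (by positivity)
  rcases le_total (t * y.re) ((2 : ℝ) ^ (j + i + 1)) with h | h
  · exact Or.inl ⟨mul_mem hs ht, by rw [hre]; exact ha, by rw [hre]; exact h⟩
  · exact Or.inr ⟨mul_mem hs ht, by rw [hre]; exact h, by rw [hre]; exact hb⟩

end SEC_

open SEC_ in
theorem p_SEC : T_SEC := by
  refine ⟨isOpen_sec, convex_sec, fun y hy => ⟨re_pos hy, norm_le hy⟩,
    fun y hy t ht => mul_mem hy ht, fun y hy => conj_mem hy, fun t ht => real_mem ht, ?_,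
    fun y hy => exists_nhd hy, compact_shells, ?_, shell_mul⟩
  · intro y hy
    obtain ⟨j, h1, h2⟩ := exists_shell hy
    exact ⟨j, hy, h1, h2.le⟩
  · intro K hKs hK
    obtain ⟨r, hr, h⟩ := hK.exists_cthickening_subset_open isOpen_sec hKs
    exact ⟨r, hr, h, hK.cthickening⟩

end Pool.Agent.HSD
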