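import Pool.Agent.HSD.Targets4

/-!
# HSD, target SEC2: the second derivatives of the surface
-/

set_option autoImplicit false

namespace Pool.Agent.HSD

open Complex

namespace SEC2_

/-- The hermitian square of a vector of functions has real values. -/
theorem ips_im {m : ℕ} (v : Fin m → RR) (p : ℝ × ℝ) : (vl (ip v (star v)) p).im = 0 := by
  unfold ip
  rw [vl_sum, Complex.im_sum]
  refine Finset.sum_eq_zero fun r _ => ?_
  have h : vl (v r * (star v) r) p = vl (v r) p * starRingEnd ℂ (vl (v r) p) := rfl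
  rw [h, Complex.mul_conj]
  exact Complex.ofReal_im _

theorem real_of_conj {a : ℂ} (h : starRingEnd ℂ a = a) : a = (a.re : ℂ) :=
  (Complex.conj_eq_iff_re.1 h).symm

/-- A vector `ρ U + ρ* V + n` as a real combination. -/
theorem comb {m : ℕ} (ρ : ℂ) (U V n : Fin m → ℂ) :
    toR m (fun r => ρ * U r + starRingEnd ℂ ρ * V r + n r) =
      ρ.re • toR m (fun r => U r + V r) + ρ.im • toR m (fun r => I * (U r - V r)) +
        toR m n := by
  rw [← map_smul, ← map_smul, ← map_add, ← map_add]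
  congr 1
  funext r
  simp only [Pi.add_apply, Pi.smul_apply, real_smul]
  apply Complex.ext
  · simp
    ring
  · simp
    ring

/-- Multiplication of all components by a real number. -/
theorem toR_real {m : ℕ} (c : ℝ) (n : Fin m → ℂ) :
    toR m (fun r => (c : ℂ) * n r) = c • toR m n := by
  rw [← map_smul]
  congr 1

/-- If `h + star h = 0` then the real part of the value vanishes. -/
theorem re_zero {h : RR} (H : h + star h = 0) (p : ℝ × ℝ) : (vl h p).re = 0 := by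
  have h1 : vl (h + star h) p = 0 := by rw [H, vl_zero]
  rw [vl_add, vl_star] at h1
  have h2 := congrArg Complex.re h1
  rw [Complex.add_re, Complex.conj_re, Complex.zero_re] at h2
  linarith

end SEC2_

open SEC2_ in
theorem p_SEC2 (hDSU : T_DSU) (hFUN : T_FUN) (hSFF : T_SFF) (hTOR : T_TOR) (hORR : T_ORR)
    (_hNRA : T_NRA) : T_SEC2 := by
  intro m χ l i g u Y Φ G z
  obtain ⟨F1, F2⟩ := hFUN m χ l i g u Y Φ G
  obtain ⟨ρ1, ρ2, ρ3, -, S1, S2, S3⟩ := hSFF m χ l i g u Y Φ G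
  obtain ⟨n1, hn1⟩ : ∃ n1 : Fin m → RR,
    n1 = w1 (dR (Fin m)) u Y i + star (w2 (dR (Fin m)) u Y i) := ⟨_, rfl⟩
  obtain ⟨n2, hn2⟩ : ∃ n2 : Fin m → RR,
    n2 = cst RR I • (w1 (dR (Fin m)) u Y i - star (w2 (dR (Fin m)) u Y i)) := ⟨_, rfl⟩
  obtain ⟨o11, o12, o21, o22, oo⟩ := hORR m u Y i G.inv n1 n2 hn1 hn2
  rw [← hn1] at S1 S3
  rw [← hn2] at S2
  obtain ⟨p, hp⟩ : ∃ p : ℝ × ℝ, p = (z.re, z.im) := ⟨_, rfl⟩
  rw [← hp]
  -- real values
  have hX : vl χ p = ((vl χ p).re : ℂ) := real_of_conj (by rw [← vl_star, G.real])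
  have hg : vl g p = ((vl g p).re : ℂ) := real_of_conj (by rw [← vl_star, G.gst])
  obtain ⟨X, hXd⟩ : ∃ X : ℝ, X = (vl χ p).re := ⟨_, rfl⟩
  obtain ⟨h, hh⟩ : ∃ h : ℝ, h = (vl g p).re := ⟨_, rfl⟩
  rw [← hXd] at hX
  rw [← hh] at hg
  have hhX : h ^ 2 = X := by
    have h1 : vl g p * vl g p = vl χ p := by rw [← vl_mul, G.gg]
    rw [hX, hg] at h1
    have h2 : h * h = X := by exact_mod_cast h1
    rw [sq, h2]
  obtain ⟨y, hy⟩ : ∃ y : ℝ, y = Real.exp (-z.im) := ⟨_, rfl⟩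
  have hy0 : y ≠ 0 := by rw [hy]; exact (Real.exp_pos _).ne'
  have hies : vl ies p = (y : ℂ) := by
    rw [hy, hp]
    rfl
  have hW : vl (ww (dR (Fin m)) u Y i) p =
      ((vl (ww (dR (Fin m)) u Y i) p).re : ℂ) := by
    apply Complex.ext
    · rw [Complex.ofReal_re]
    · rw [Complex.ofReal_im]
      unfold ww
      rw [vl_add, Complex.add_im, ips_im, ips_im, add_zero]
  obtain ⟨W, hWd⟩ : ∃ W : ℝ, W = (vl (ww (dR (Fin m)) u Y i) p).re := ⟨_, rfl⟩
  rw [← hWd] at hW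
  -- the basic vectors
  obtain ⟨A, hA⟩ : ∃ A : EuclideanSpace ℝ (Fin m ⊕ Fin m),
    A = toR m (fun r => vl (u r) p + vl (Y r) p) := ⟨_, rfl⟩
  obtain ⟨B, hB⟩ : ∃ B : EuclideanSpace ℝ (Fin m ⊕ Fin m),
    B = toR m (fun r => I * (vl (u r) p - vl (Y r) p)) := ⟨_, rfl⟩
  obtain ⟨N1, hN1⟩ : ∃ N1 : EuclideanSpace ℝ (Fin m ⊕ Fin m), N1 = toR m (ev n1 p) := ⟨_, rfl⟩
  obtain ⟨N2, hN2⟩ : ∃ N2 : EuclideanSpace ℝ (Fin m ⊕ Fin m), N2 = toR m (ev n2 p) := ⟨_, rfl⟩
  have hA' : A = toR m (ev (u + Y) p) := hA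
  have hB' : B = toR m (ev (cst RR I • (u - Y)) p) := hB
  have iA1 : inner ℝ A N1 = 0 := by
    rw [hA', hN1, real_inner_comm, hTOR.2]
    exact re_zero o11 p
  have iB1 : inner ℝ B N1 = 0 := by
    rw [hB', hN1, real_inner_comm, hTOR.2]
    exact re_zero o12 p
  have iA2 : inner ℝ A N2 = 0 := by
    rw [hA', hN2, real_inner_comm, hTOR.2]
    exact re_zero o21 p
  have iB2 : inner ℝ B N2 = 0 := by
    rw [hB', hN2, real_inner_comm, hTOR.2]
    exact re_zero o22 p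
  have iNN : inner ℝ N1 N1 + inner ℝ N2 N2 = 2 * W := by
    rw [hN1, hN2, hTOR.2, hTOR.2, ← Complex.add_re, ← vl_add, oo, vl_mul, hW]
    have h2 : vl (2 : RR) p = ((2 : ℝ) : ℂ) := by
      rw [Complex.ofReal_ofNat]
      rfl
    rw [h2, ← Complex.ofReal_mul, Complex.ofReal_re]
  -- first derivatives
  obtain ⟨-, D1, D2⟩ := hDSU m Φ
  have f1 : fderiv ℝ (surf Φ) z 1 = (y * h) • A := by
    rw [D1 z, F1, hA, ← toR_real]
    change toR m (ev _ (z.re, z.im)) = _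
    rw [← hp]
    congr 1
    funext r
    change vl ies p * vl g p * (vl (u r) p + vl (Y r) p) = _
    rw [hies, hg]
    push_cast
    ring
  have f2 : fderiv ℝ (surf Φ) z I = h • B := by
    rw [D2 z, F2, hB, ← toR_real]
    change toR m (ev _ (z.re, z.im)) = _
    rw [← hp]
    congr 1
    funext r
    change I * vl g p * (vl (u r) p - vl (Y r) p) = _
    rw [hg]
    ring
  -- second derivatives
  have e1 : (fun w => fderiv ℝ (surf Φ) w 1) = surf (fun r => pxR (Φ r)) := funext D1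
  have e2 : (fun w => fderiv ℝ (surf Φ) w I) = surf (fun r => psR (Φ r)) := funext D2
  have f11 : fderiv ℝ (fun w => fderiv ℝ (surf Φ) w 1) z 1 =
      (y ^ 2 * h) • ((vl ρ1 p).re • A + (vl ρ1 p).im • B + N1) := by
    rw [e1, (hDSU m (fun r => pxR (Φ r))).2.1 z, S1, hA, hB, hN1, ← comb, ← toR_real]
    change toR m (ev _ (z.re, z.im)) = _
    rw [← hp]
    congr 1
    funext r
    change vl ies p * vl ies p * vl g p * (vl ρ1 p * vl (u r) p +
      starRingEnd ℂ (vl ρ1 p) * vl (Y r) p + vl (n1 r) p) = _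
    rw [hies, hg]
    push_cast
    rw [← sq]
    rfl
  have f12 : fderiv ℝ (fun w => fderiv ℝ (surf Φ) w 1) z I =
      (y * h) • ((vl ρ2 p).re • A + (vl ρ2 p).im • B + N2) := by
    rw [e1, (hDSU m (fun r => pxR (Φ r))).2.2 z, S2, hA, hB, hN2, ← comb, ← toR_real]
    change toR m (ev _ (z.re, z.im)) = _
    rw [← hp]
    congr 1
    funext r
    change vl ies p * vl g p * (vl ρ2 p * vl (u r) p +
      starRingEnd ℂ (vl ρ2 p) * vl (Y r) p + vl (n2 r) p) = _
    rw [hies, hg]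
    push_cast
    rfl
  have f22 : fderiv ℝ (fun w => fderiv ℝ (surf Φ) w I) z I =
      h • ((vl ρ3 p).re • A + (vl ρ3 p).im • B + (-1 : ℝ) • N1) := by
    rw [e2, (hDSU m (fun r => psR (Φ r))).2.2 z, S3, hA, hB, hN1, ← toR_real (-1), ← comb,
      ← toR_real]
    change toR m (ev _ (z.re, z.im)) = _
    rw [← hp]
    congr 1
    funext r
    change vl g p * (vl ρ3 p * vl (u r) p +
      starRingEnd ℂ (vl ρ3 p) * vl (Y r) p - vl (n1 r) p) = _
    rw [hg]
    have e : ((-1 : ℝ) : ℂ) * ev n1 p r = -vl (n1 r) p := by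
      push_cast
      rw [neg_one_mul]
      rfl
    rw [e, ← sub_eq_add_neg]
  refine ⟨X, W, y, h, y * (vl ρ1 p).re, y ^ 2 * (vl ρ1 p).im, (vl ρ2 p).re,
    y * (vl ρ2 p).im, (vl ρ3 p).re / y, (vl ρ3 p).im, N1, N2, hX, hW, hy, hhX,
    ?_, ?_, ?_, ?_, iNN, ?_, ?_, ?_⟩
  · rw [f1, real_inner_smul_left, iA1, mul_zero]
  · rw [f2, real_inner_smul_left, iB1, mul_zero]
  · rw [f1, real_inner_smul_left, iA2, mul_zero]
  · rw [f2, real_inner_smul_left, iB2, mul_zero]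
  · rw [f11, f1, f2]
    module
  · rw [f12, f1, f2]
    module
  · rw [f22, f1, f2, smul_smul]
    have e : (vl ρ3 p).re / y * (y * h) = h * (vl ρ3 p).re := by
      field_simp
    rw [e]
    module

end Pool.Agent.HSD
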