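import Pool.Agent.HSD.Targets4

set_option autoImplicit false

/-!
# HSD: SFF, the second derivatives of the potential
-/

namespace Pool.Agent.HSD

open Complex

namespace SFF_

/-- Product rule for a derivation of `RR`. -/
theorem lei (δ : Derivation ℂ RR RR) (f g : RR) : δ (f * g) = f * δ g + g * δ f := by
  rw [δ.leibniz, smul_eq_mul, smul_eq_mul]

/-- The derivatives of `g u` and `g Y`, one component. -/
theorem comp (l ls g U W a b as bs o1 o2 h : RR) (Dg : dDer (-1) g = l * g)
    (Dbg : dDer 1 g = ls * g) (DU : dDer (-1) U = o1 + a * U + b * W)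
    (DbU : dDer 1 U = h * U + l * W) (DW : dDer (-1) W = -h * W + ls * U)
    (DbW : dDer 1 W = o2 + as * W + bs * U) :
    dDer (-1) (g * (U + W)) + dDer 1 (g * (U + W)) =
        g * ((l + 2 * ls + h + a + bs) * U + (2 * l + ls - h + b + as) * W + (o1 + o2)) ∧
      dDer (-1) (g * (U + W)) - dDer 1 (g * (U + W)) =
        g * ((l + a - h - bs) * U + (b - h - ls - as) * W + (o1 - o2)) ∧
      dDer (-1) (g * (U - W)) - dDer 1 (g * (U - W)) =
        g * ((l + a - 2 * ls - h + bs) * U + (b - 2 * l + h + ls + as) * W + (o1 + o2)) := by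
  have e1 : dDer (-1) (U + W) = dDer (-1) U + dDer (-1) W := map_add _ _ _
  have e2 : dDer 1 (U + W) = dDer 1 U + dDer 1 W := map_add _ _ _
  have e3 : dDer (-1) (U - W) = dDer (-1) U - dDer (-1) W := map_sub _ _ _
  have e4 : dDer 1 (U - W) = dDer 1 U - dDer 1 W := map_sub _ _ _
  rw [lei, lei, lei, lei, e1, e2, e3, e4, Dg, Dbg, DU, DbU, DW, DbW]
  refine ⟨by ring, by ring, by ring⟩

end SFF_

open SFF_ in
theorem p_SFF (hOPS : T_OPS) (hFUN : T_FUN) (hDRA : T_DRA) : T_SFF := by
  intro m χ l i g u Y Φ hG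
  obtain ⟨hx, hs, hix, his, hist, hmx, hms, -, -⟩ := hOPS
  obtain ⟨hsc, hDb, -⟩ := hDRA
  obtain ⟨hF1, hF2⟩ := hFUN m χ l i g u Y Φ hG
  have hF1' : ∀ r, pxR (Φ r) = ies * (g * (u r + Y r)) := fun r => by
    have := congrFun hF1 r
    simp only [Pi.smul_apply, Pi.add_apply, smul_eq_mul] at this
    rw [this, mul_assoc]
  have hF2' : ∀ r, psR (Φ r) = cst RR I * (g * (u r - Y r)) := fun r => by
    have := congrFun hF2 r
    simp only [Pi.smul_apply, Pi.sub_apply, smul_eq_mul] at this
    rw [this, mul_assoc]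
  set a : RR := ca (dR (Fin m)) u Y i with ha
  set b : RR := cb (dR (Fin m)) u Y i with hb
  set h : RR := cst RR (I / 2) with hh
  have hIh : cst RR I = 2 * h := two_cst_Ihalf.symm
  have hII : cst RR I * cst RR I = -1 := cst_I_mul_I
  have hsh : star h = -h := by
    rw [hh, hsc, ← cst_neg]
    congr 1
    simp only [map_div₀, conj_I, map_ofNat]
    ring
  have hsI : star (cst RR I) = -cst RR I := by
    rw [hsc, conj_I, cst_neg]
  have hc : ∀ r, dDer (-1) (g * (u r + Y r)) + dDer 1 (g * (u r + Y r)) =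
        g * ((l + 2 * star l + h + a + star b) * u r +
          (2 * l + star l - h + b + star a) * Y r +
          (w1 (dR (Fin m)) u Y i r + star (w2 (dR (Fin m)) u Y i r))) ∧
      dDer (-1) (g * (u r + Y r)) - dDer 1 (g * (u r + Y r)) =
        g * ((l + a - h - star b) * u r + (b - h - star l - star a) * Y r +
          (w1 (dR (Fin m)) u Y i r - star (w2 (dR (Fin m)) u Y i r))) ∧
      dDer (-1) (g * (u r - Y r)) - dDer 1 (g * (u r - Y r)) =
        g * ((l + a - 2 * star l - h + star b) * u r +
          (b - 2 * l + h + star l + star a) * Y r +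
          (w1 (dR (Fin m)) u Y i r + star (w2 (dR (Fin m)) u Y i r))) := by
    intro r
    refine comp l (star l) g (u r) (Y r) a b (star a) (star b) _ _ h hG.Dg hG.Dbg ?_ ?_ ?_ ?_
    · have : w1 (dR (Fin m)) u Y i r = dDer (-1) (u r) - a * u r - b * Y r := rfl
      rw [this]
      ring
    · exact congrFun hG.sys.equ r
    · exact congrFun hG.sys.eqY r
    · have : w2 (dR (Fin m)) u Y i r =
          dDer (-1) (star (Y r)) - a * star (Y r) - b * star (u r) := rfl
      rw [this, hDb]
      simp only [star_sub, star_mul', star_star]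
      ring
  refine ⟨l + 2 * star l + h + a + star b, cst RR I * (l + a - star b) - cst RR (1 / 2),
    -l + 2 * star l + h - a - star b, by rw [hIh]; ring, ?_, ?_, ?_⟩
  · funext r
    have e1 : pxR (pxR (Φ r)) = ies * (ies * (dDer (-1) (g * (u r + Y r)) +
        dDer 1 (g * (u r + Y r)))) := by
      rw [hF1', hmx, hix, hx]
      ring
    rw [e1, (hc r).1]
    simp only [Pi.smul_apply, Pi.add_apply, smul_eq_mul, Pi.star_apply, star_add, star_mul',
      star_star, hsh, star_ofNat]
    ring
  · funext r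
    have e1 : psR (pxR (Φ r)) = ies * (cst RR I * (dDer (-1) (g * (u r + Y r)) -
        dDer 1 (g * (u r + Y r)))) - ies * (g * (u r + Y r)) := by
      rw [hF1', hms, his, hs]
      ring
    rw [e1, (hc r).2.1]
    have hhalf : (2 : RR) * cst RR (1 / 2) = 1 := two_cst_half
    have hsh2 : star (cst RR (1 / 2)) = cst RR (1 / 2) := by
      rw [hsc]
      congr 1
      rw [map_div₀, map_one, map_ofNat]
    have hIh2 : cst RR I * h = -cst RR (1 / 2) := by
      have : (I * (I / 2) : ℂ) = -(1 / 2) := by
        rw [← mul_div_assoc, I_mul_I]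
        norm_num
      rw [hh, ← cst_mul, this, cst_neg]
    simp only [Pi.smul_apply, Pi.add_apply, Pi.sub_apply, smul_eq_mul, Pi.star_apply, star_add,
      star_sub, star_mul', star_star, hsI, hsh2]
    linear_combination (-(ies * g * u r) - ies * g * Y r) * hIh2 +
      (ies * g * u r + ies * g * Y r) * hhalf
  · funext r
    have e1 : psR (psR (Φ r)) = -(dDer (-1) (g * (u r - Y r)) -
        dDer 1 (g * (u r - Y r))) := by
      have hsI0 : ∀ f : RR, psR (cst RR I * f) = cst RR I * psR f := by
        intro f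
        rw [hms, hs (cst RR I), der_cst, der_cst]
        ring
      rw [hF2', hsI0, hs, ← mul_assoc, hII]
      ring
    rw [e1, (hc r).2.2]
    simp only [Pi.smul_apply, Pi.add_apply, Pi.sub_apply, smul_eq_mul, Pi.star_apply, star_add,
      star_sub, star_neg, star_mul', star_star, hsh, star_ofNat]
    ring

end Pool.Agent.HSD
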