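import Pool.Agent.HSD.Targets2

/-!
# Project HSD, target SLB: the bound for the solution of one frequency
-/

set_option autoImplicit false

namespace Pool.Agent.HSD

open Complex MeasureTheory

namespace SLB_

/-- The weighted norm along the ray. -/
noncomputable def Wt (τ : ℝ) (g : ℂ → ℂ) (y : ℂ) (t : ℝ) : ENNReal :=
  ENNReal.ofReal (Real.exp (|τ| * ((t : ℂ) * y).re / 2) * ‖g ((t : ℂ) * y)‖)

/-- The majorant. -/
noncomputable def Ph (τ : ℝ) (g : ℂ → ℂ) (y : ℂ) (t : ℝ) : ENNReal :=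
  (if t ≤ 1 then ENNReal.ofReal 80 else ENNReal.ofReal (5 / t ^ 2)) * Wt τ g y t

theorem int_le (E : ℝ) (hE : 0 ≤ E) (c : ℂ) (F : ℝ → ℂ) (s : Set ℝ) :
    ENNReal.ofReal (E * (‖c‖ * ‖∫ t in s, F t‖)) ≤ ∫⁻ t in s, ENNReal.ofReal (E * ‖c * F t‖) := by
  have h0 : 0 ≤ E * ‖c‖ := mul_nonneg hE (norm_nonneg _)
  have h1 : ENNReal.ofReal (E * (‖c‖ * ‖∫ t in s, F t‖)) =
      ENNReal.ofReal (E * ‖c‖) * ‖∫ t in s, F t‖ₑ := by
    rw [← mul_assoc, ENNReal.ofReal_mul h0, ofReal_norm]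
  have h2 : ∫⁻ t in s, ENNReal.ofReal (E * ‖c * F t‖) =
      ENNReal.ofReal (E * ‖c‖) * ∫⁻ t in s, ‖F t‖ₑ := by
    rw [← lintegral_const_mul' _ _ ENNReal.ofReal_ne_top]
    refine lintegral_congr fun t => ?_
    rw [norm_mul, ← mul_assoc, ENNReal.ofReal_mul h0, ofReal_norm]
  rw [h1, h2]
  gcongr
  exact enorm_integral_le_lintegral_enorm _

theorem ker_le (hKER : T_KER) (τ : ℝ) (g : ℂ → ℂ) (y : ℂ) (hy : y ∈ sec) (t : ℝ) :
    (τ ≤ 0 → 1 < t → ENNReal.ofReal (Real.exp (|τ| * y.re / 2) *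
      ‖2 * I * y * exp (-(τ : ℂ) * y) * (y * hM τ g (t * y))‖) ≤ Ph τ g y t) ∧
    (0 < τ → 0 < t → t ≤ 1 → ENNReal.ofReal (Real.exp (|τ| * y.re / 2) *
      ‖2 * I * y * exp (-(τ : ℂ) * y) * (y * hP τ g (t * y))‖) ≤ Ph τ g y t) ∧
    (0 < τ → 1 < t → ENNReal.ofReal (Real.exp (|τ| * y.re / 2) *
      ‖2 * I * y * exp (-(τ : ℂ) * y) * (y * hQ τ g (t * y))‖) ≤ Ph τ g y t) := by
  refine ⟨fun h1 h2 => ?_, fun h1 h2 h3 => ?_, fun h1 h2 => ?_⟩
  · have h := (hKER τ t g y hy (by linarith)).1 h1 h2.le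
    unfold Ph Wt
    rw [if_neg (not_le.2 h2), ← ENNReal.ofReal_mul (by positivity)]
    exact ENNReal.ofReal_le_ofReal h
  · have h := (hKER τ t g y hy h2).2.1 h1 h3
    unfold Ph Wt
    rw [if_pos h3, ← ENNReal.ofReal_mul (by positivity)]
    exact ENNReal.ofReal_le_ofReal h
  · have h := (hKER τ t g y hy (by linarith)).2.2 h1 h2.le
    unfold Ph Wt
    rw [if_neg (not_le.2 h2), ← ENNReal.ofReal_mul (by positivity)]
    exact ENNReal.ofReal_le_ofReal h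

theorem sol_le (hKER : T_KER) (τ : ℝ) (g : ℂ → ℂ) (y : ℂ) (hy : y ∈ sec) :
    ENNReal.ofReal (Real.exp (|τ| * y.re / 2) * ‖sol1 τ g y‖) ≤
      ∫⁻ t in Set.Ioi (0 : ℝ), Ph τ g y t := by
  have hE : 0 ≤ Real.exp (|τ| * y.re / 2) := (Real.exp_pos _).le
  by_cases hτ : τ ≤ 0
  · unfold sol1
    rw [if_pos hτ, norm_mul]
    refine (int_le _ hE _ _ _).trans ?_
    calc ∫⁻ t in Set.Ioi (1 : ℝ), ENNReal.ofReal (Real.exp (|τ| * y.re / 2) *
          ‖2 * I * y * exp (-(τ : ℂ) * y) * (y * hM τ g (t * y))‖)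
        ≤ ∫⁻ t in Set.Ioi (1 : ℝ), Ph τ g y t :=
          setLIntegral_mono' measurableSet_Ioi fun t ht => (ker_le hKER τ g y hy t).1 hτ ht
      _ ≤ ∫⁻ t in Set.Ioi (0 : ℝ), Ph τ g y t :=
          lintegral_mono_set (Set.Ioi_subset_Ioi zero_le_one)
  · have hτ' : 0 < τ := not_le.1 hτ
    unfold sol1
    rw [if_neg hτ]
    set A : ℂ := ∫ t in Set.Ioc (0 : ℝ) 1, y * hP τ g (t * y) with hA
    set B : ℂ := ∫ t in Set.Ioi (1 : ℝ), y * hQ τ g (t * y) with hB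
    set c : ℂ := 2 * I * y * exp (-(τ : ℂ) * y) with hc
    have e1 : -2 * I * y * exp (-(τ : ℂ) * y) * (A - B) = -(c * (A - B)) := by
      rw [hc]; ring
    rw [e1, norm_neg, norm_mul]
    have e2 : Real.exp (|τ| * y.re / 2) * (‖c‖ * ‖A - B‖) ≤
        Real.exp (|τ| * y.re / 2) * (‖c‖ * ‖A‖) + Real.exp (|τ| * y.re / 2) * (‖c‖ * ‖B‖) := by
      rw [← mul_add, ← mul_add]
      gcongr
      exact norm_sub_le _ _
    refine (ENNReal.ofReal_le_ofReal e2).trans (ENNReal.ofReal_add_le.trans ?_)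
    rw [← Set.Ioc_union_Ioi_eq_Ioi (zero_le_one' ℝ), lintegral_union measurableSet_Ioi
      (Set.disjoint_left.2 fun t ht ht' => absurd ht.2 (not_le.2 ht'))]
    refine add_le_add ?_ ?_
    · refine (int_le _ hE _ _ _).trans ?_
      exact setLIntegral_mono' measurableSet_Ioc fun t ht =>
        (ker_le hKER τ g y hy t).2.1 hτ' ht.1 ht.2
    · refine (int_le _ hE _ _ _).trans ?_
      exact setLIntegral_mono' measurableSet_Ioi fun t ht =>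
        (ker_le hKER τ g y hy t).2.2 hτ' ht

theorem piece (hSEC : T_SEC) (τ : ℝ) (g : ℂ → ℂ) (j : ℤ) (y : ℂ) (hy : y ∈ Sh j) (i : ℤ) :
    ∫⁻ t in Set.Ioc ((2 : ℝ) ^ i) ((2 : ℝ) ^ (i + 1)), Ph τ g y t ≤
      ENNReal.ofReal (80 / 2 ^ i.natAbs) * (sj τ g (j + i) + sj τ g (j + i + 1)) := by
  obtain ⟨-, -, -, -, -, -, -, -, -, -, hdil⟩ := hSEC
  have h2i : (0 : ℝ) < (2 : ℝ) ^ i := zpow_pos (by norm_num) _
  set S : ENNReal := sj τ g (j + i) + sj τ g (j + i + 1) with hS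
  set κ : ℝ := if i < 0 then 80 else 5 / ((2 : ℝ) ^ i) ^ 2 with hκ
  have hκ0 : 0 ≤ κ := by
    rw [hκ]; split_ifs <;> positivity
  have hW : ∀ t ∈ Set.Ioc ((2 : ℝ) ^ i) ((2 : ℝ) ^ (i + 1)), Wt τ g y t ≤ S := by
    intro t ht
    rcases hdil i j t y ht.1.le ht.2 hy with h | h
    · have : Wt τ g y t ≤ sj τ g (j + i) :=
        le_iSup₂ (f := fun (w : ℂ) (_ : w ∈ Sh (j + i)) =>
          ENNReal.ofReal (Real.exp (|τ| * w.re / 2) * ‖g w‖)) _ h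
      exact this.trans le_self_add
    · have : Wt τ g y t ≤ sj τ g (j + i + 1) :=
        le_iSup₂ (f := fun (w : ℂ) (_ : w ∈ Sh (j + i + 1)) =>
          ENNReal.ofReal (Real.exp (|τ| * w.re / 2) * ‖g w‖)) _ h
      exact this.trans le_add_self
  have hK : ∀ t ∈ Set.Ioc ((2 : ℝ) ^ i) ((2 : ℝ) ^ (i + 1)),
      (if t ≤ 1 then ENNReal.ofReal 80 else ENNReal.ofReal (5 / t ^ 2)) ≤ ENNReal.ofReal κ := by
    intro t ht
    have ht0 : 0 < t := h2i.trans ht.1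
    by_cases hi : i < 0
    · have h1 : (2 : ℝ) ^ (i + 1) ≤ 1 := zpow_le_one_of_nonpos₀ (by norm_num) (by omega)
      rw [if_pos (ht.2.trans h1), hκ, if_pos hi]
    · have h1 : (1 : ℝ) ≤ (2 : ℝ) ^ i := one_le_zpow₀ (by norm_num) (by omega)
      rw [if_neg (not_le.2 (h1.trans_lt ht.1)), hκ, if_neg hi]
      apply ENNReal.ofReal_le_ofReal
      apply div_le_div_of_nonneg_left (by norm_num) (by positivity)
      exact pow_le_pow_left₀ h2i.le ht.1.le 2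
  calc ∫⁻ t in Set.Ioc ((2 : ℝ) ^ i) ((2 : ℝ) ^ (i + 1)), Ph τ g y t
      ≤ ∫⁻ _ in Set.Ioc ((2 : ℝ) ^ i) ((2 : ℝ) ^ (i + 1)), ENNReal.ofReal κ * S :=
        setLIntegral_mono' measurableSet_Ioc fun t ht => mul_le_mul' (hK t ht) (hW t ht)
    _ = ENNReal.ofReal κ * S * ENNReal.ofReal ((2 : ℝ) ^ (i + 1) - (2 : ℝ) ^ i) := by
        rw [setLIntegral_const, Real.volume_Ioc]
    _ = ENNReal.ofReal (κ * (2 : ℝ) ^ i) * S := by
        have e : (2 : ℝ) ^ (i + 1) - (2 : ℝ) ^ i = (2 : ℝ) ^ i := by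
          rw [zpow_add_one₀ (by norm_num)]; ring
        rw [e, ENNReal.ofReal_mul hκ0]
        ring
    _ ≤ ENNReal.ofReal (80 / 2 ^ i.natAbs) * S := by
        gcongr
        rw [hκ]
        by_cases hi : i < 0
        · rw [if_pos hi]
          obtain ⟨n, hn⟩ : ∃ n : ℕ, i = -(n : ℤ) := ⟨i.natAbs, by omega⟩
          subst hn
          rw [Int.natAbs_neg, Int.natAbs_natCast, zpow_neg, zpow_natCast]
          exact le_of_eq (by rw [div_eq_mul_inv])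
        · rw [if_neg hi]
          obtain ⟨n, hn⟩ : ∃ n : ℕ, i = (n : ℤ) := ⟨i.natAbs, by omega⟩
          subst hn
          rw [Int.natAbs_natCast, zpow_natCast]
          have hp : (0 : ℝ) < (2 : ℝ) ^ n := by positivity
          have e : 5 / ((2 : ℝ) ^ n) ^ 2 * (2 : ℝ) ^ n = 5 / (2 : ℝ) ^ n := by
            field_simp
          rw [e]
          gcongr
          norm_num

theorem total (hKER : T_KER) (hSEC : T_SEC) (τ : ℝ) (g : ℂ → ℂ) (j : ℤ) (y : ℂ)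
    (hy : y ∈ Sh j) :
    ENNReal.ofReal (Real.exp (|τ| * y.re / 2) * ‖sol1 τ g y‖) ≤
      ∑' i : ℤ, ENNReal.ofReal (80 / 2 ^ i.natAbs) * (sj τ g (j + i) + sj τ g (j + i + 1)) := by
  refine (sol_le hKER τ g y hy.1).trans ?_
  have hcov : Set.Ioi (0 : ℝ) ⊆ ⋃ i : ℤ, Set.Ioc ((2 : ℝ) ^ i) ((2 : ℝ) ^ (i + 1)) := by
    intro t ht
    obtain ⟨n, hn⟩ := exists_mem_Ioc_zpow (Set.mem_Ioi.1 ht) (one_lt_two (α := ℝ))
    exact Set.mem_iUnion.2 ⟨n, hn⟩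
  refine (lintegral_mono_set hcov).trans ((lintegral_iUnion_le _ _).trans ?_)
  exact ENNReal.tsum_le_tsum fun i => piece hSEC τ g j y hy i

end SLB_

open SLB_

theorem p_SLB (hKER : T_KER) (hSEC : T_SEC) : T_SLB := by
  intro τ g j
  unfold sj
  refine iSup₂_le fun y hy => ?_
  refine (total hKER hSEC τ g j y hy).trans ?_
  change ∑' i : ℤ, ENNReal.ofReal (80 / 2 ^ i.natAbs) * (sj τ g (j + i) + sj τ g (j + i + 1)) ≤
    ∑' i : ℤ, ENNReal.ofReal (300 / 2 ^ i.natAbs) * sj τ g (j + i)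
  have h1 : ∑' i : ℤ, ENNReal.ofReal (80 / 2 ^ i.natAbs) *
      (sj τ g (j + i) + sj τ g (j + i + 1)) =
      ∑' i : ℤ, ENNReal.ofReal (80 / 2 ^ i.natAbs) * sj τ g (j + i) +
        ∑' i : ℤ, ENNReal.ofReal (80 / 2 ^ i.natAbs) * sj τ g (j + i + 1) := by
    rw [← ENNReal.tsum_add]
    exact tsum_congr fun i => mul_add _ _ _
  have h2 : ∑' i : ℤ, ENNReal.ofReal (80 / 2 ^ i.natAbs) * sj τ g (j + i + 1) =
      ∑' i : ℤ, ENNReal.ofReal (80 / 2 ^ (i - 1).natAbs) * sj τ g (j + i) := by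
    rw [← (Equiv.addRight (1 : ℤ)).tsum_eq
      (fun i : ℤ => ENNReal.ofReal (80 / 2 ^ (i - 1).natAbs) * sj τ g (j + i))]
    refine tsum_congr fun i => ?_
    rw [Equiv.coe_addRight]
    have e1 : i + 1 - 1 = i := by ring
    have e2 : j + (i + 1) = j + i + 1 := by ring
    rw [e1, e2]
  rw [h1, h2, ← ENNReal.tsum_add]
  refine ENNReal.tsum_le_tsum fun i => ?_
  rw [← add_mul, ← ENNReal.ofReal_add (by positivity) (by positivity)]
  gcongr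
  have hp : (0 : ℝ) < 2 ^ i.natAbs := by positivity
  have hq : (0 : ℝ) < 2 ^ (i - 1).natAbs := by positivity
  have h3 : (2 : ℝ) ^ i.natAbs ≤ 2 * 2 ^ (i - 1).natAbs := by
    rw [← pow_succ']
    exact pow_le_pow_right₀ (by norm_num) (by omega)
  have h4 : (80 : ℝ) / 2 ^ (i - 1).natAbs ≤ 160 / 2 ^ i.natAbs := by
    rw [div_le_div_iff₀ hq hp]
    linarith
  have h5 : (300 : ℝ) / 2 ^ i.natAbs = 80 / 2 ^ i.natAbs + 160 / 2 ^ i.natAbs +
      60 / 2 ^ i.natAbs := by ring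
  have h6 : (0 : ℝ) ≤ 60 / 2 ^ i.natAbs := by positivity
  linarith

end Pool.Agent.HSD
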