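import Pool.Agent.HSD.Targets2

/-!
# Project HSD, target SLH: the solution for one frequency
-/

set_option autoImplicit false
set_option linter.unusedSectionVars false

namespace Pool.Agent.HSD

open Complex MeasureTheory

namespace SLH_

theorem sec_re {w : ℂ} (hw : w ∈ sec) : 0 < w.re := lt_of_le_of_lt (abs_nonneg _) hw

theorem sec_ne {w : ℂ} (hw : w ∈ sec) : w ≠ 0 := by
  rintro rfl
  have h := sec_re hw
  simp at h

theorem cexp_norm (τ : ℝ) (w : ℂ) : ‖exp ((τ : ℂ) * w)‖ = Real.exp (τ * w.re) := by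
  rw [Complex.norm_exp, Complex.re_ofReal_mul]

theorem C_nonneg {τ C : ℝ} {g : ℂ → ℂ}
    (hC : ∀ w ∈ sec, Real.exp (|τ| * w.re / 2) * ‖g w‖ ≤ C) : 0 ≤ C := by
  have h1 : (1 : ℂ) ∈ sec := by simp [sec]
  exact le_trans (by positivity) (hC 1 h1)

theorem g_le {τ C : ℝ} {g : ℂ → ℂ}
    (hC : ∀ w ∈ sec, Real.exp (|τ| * w.re / 2) * ‖g w‖ ≤ C) {w : ℂ} (hw : w ∈ sec) :
    ‖g w‖ ≤ C := by
  have hx := sec_re hw
  have h1 : 1 ≤ Real.exp (|τ| * w.re / 2) := Real.one_le_exp (by positivity)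
  have h2 := hC w hw
  nlinarith [norm_nonneg (g w)]

theorem bM {τ C : ℝ} {g : ℂ → ℂ} (hτ : τ ≤ 0)
    (hC : ∀ w ∈ sec, Real.exp (|τ| * w.re / 2) * ‖g w‖ ≤ C) {w : ℂ} (hw : w ∈ sec) :
    ‖hM τ g w‖ ≤ C / ‖w‖ ^ 2 := by
  have h0 := C_nonneg hC
  have h4 := g_le hC hw
  have hx := sec_re hw
  rw [hM, norm_mul, norm_mul, norm_pow, norm_inv, cexp_norm]
  have h2 : Real.exp (τ * w.re) ≤ 1 := Real.exp_le_one_iff.mpr
    (mul_nonpos_of_nonpos_of_nonneg hτ hx.le)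
  calc Real.exp (τ * w.re) * (‖w‖⁻¹) ^ 2 * ‖g w‖ ≤ 1 * (‖w‖⁻¹) ^ 2 * C := by gcongr
    _ = C / ‖w‖ ^ 2 := by rw [one_mul, inv_pow, div_eq_mul_inv, mul_comm]

theorem bQ {τ C : ℝ} {g : ℂ → ℂ} (hSEC : T_SEC) (hτ : 0 < τ)
    (hC : ∀ w ∈ sec, Real.exp (|τ| * w.re / 2) * ‖g w‖ ≤ C) {w : ℂ} (hw : w ∈ sec) :
    ‖hQ τ g w‖ ≤ 2 * C / ‖w‖ ^ 2 := by
  have h0 := C_nonneg hC
  have h4 := g_le hC hw
  have hx := sec_re hw
  have hn := (hSEC.2.2.1 w hw).2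
  have hu : 0 < τ * w.re := mul_pos hτ hx
  have h1 : ‖exp (-((τ : ℂ) * w))‖ = Real.exp (-(τ * w.re)) := by
    rw [Complex.norm_exp, Complex.neg_re, Complex.re_ofReal_mul]
  have h2 : ‖1 + 2 * ((τ : ℂ) * w)‖ ≤ 1 + 3 * (τ * w.re) := by
    calc ‖1 + 2 * ((τ : ℂ) * w)‖ ≤ ‖(1 : ℂ)‖ + ‖2 * ((τ : ℂ) * w)‖ := norm_add_le _ _
      _ = 1 + 2 * (τ * ‖w‖) := by
          rw [norm_one, norm_mul, norm_mul, Complex.norm_real, Real.norm_of_nonneg hτ.le,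
            Complex.norm_ofNat]
      _ ≤ 1 + 2 * (τ * (3 / 2 * w.re)) := by gcongr
      _ = 1 + 3 * (τ * w.re) := by ring
  have h3 : ‖exp (-((τ : ℂ) * w))‖ * ‖1 + 2 * ((τ : ℂ) * w)‖ ≤ 2 := by
    rw [h1]
    calc Real.exp (-(τ * w.re)) * ‖1 + 2 * ((τ : ℂ) * w)‖
        ≤ Real.exp (-(τ * w.re)) * (1 + 3 * (τ * w.re)) := by gcongr
      _ ≤ 2 := by
          rw [Real.exp_neg, inv_mul_le_iff₀ (Real.exp_pos _)]
          have h5 := Real.quadratic_le_exp_of_nonneg hu.le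
          nlinarith [sq_nonneg (τ * w.re - 1)]
  rw [hQ, norm_mul, norm_mul, norm_mul, norm_pow, norm_inv]
  calc ‖exp (-((τ : ℂ) * w))‖ * ‖1 + 2 * ((τ : ℂ) * w)‖ * (‖w‖⁻¹) ^ 2 * ‖g w‖
      ≤ 2 * (‖w‖⁻¹) ^ 2 * C := by gcongr
    _ = 2 * C / ‖w‖ ^ 2 := by rw [inv_pow, div_eq_mul_inv]; ring

theorem bP {τ C : ℝ} {g : ℂ → ℂ} (hSEC : T_SEC) (hCHI : T_CHI) (hτ : 0 < τ)
    (hC : ∀ w ∈ sec, Real.exp (|τ| * w.re / 2) * ‖g w‖ ≤ C) {ρ : ℝ} {w : ℂ} (hw : w ∈ sec)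
    (hρ : ‖w‖ ≤ ρ) : ‖hP τ g w‖ ≤ Real.exp (τ * ρ) * (2 * τ ^ 2) * C := by
  have h0 := C_nonneg hC
  have h4 := g_le hC hw
  have hx := sec_re hw
  have hn := (hSEC.2.2.1 w hw).2
  have hw0 : 0 < ‖w‖ := norm_pos_iff.mpr (sec_ne hw)
  have e1 : ((τ : ℂ) * w).re = τ * w.re := Complex.re_ofReal_mul _ _
  have e2 : ‖(τ : ℂ) * w‖ = τ * ‖w‖ := by
    rw [norm_mul, Complex.norm_real, Real.norm_of_nonneg hτ.le]
  have h1 := (hCHI ((τ : ℂ) * w) (by rw [e1]; positivity) (by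
    rw [e1, e2]
    calc τ * ‖w‖ ≤ τ * (3 / 2 * w.re) := by gcongr
      _ = 3 / 2 * (τ * w.re) := by ring)).1
  rw [e2] at h1
  have h2 : ‖exp ((τ : ℂ) * w)‖ ≤ Real.exp (τ * ρ) := by
    rw [cexp_norm]
    apply Real.exp_le_exp.mpr
    have h5 : w.re ≤ ρ := (Complex.re_le_norm w).trans hρ
    gcongr
  rw [hP, norm_mul, norm_mul, norm_mul, norm_pow, norm_inv]
  calc ‖exp ((τ : ℂ) * w)‖ * ‖1 - exp (-2 * ((τ : ℂ) * w)) * (1 + 2 * ((τ : ℂ) * w))‖ *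
        (‖w‖⁻¹) ^ 2 * ‖g w‖
      ≤ Real.exp (τ * ρ) * (2 * (τ * ‖w‖) ^ 2) * (‖w‖⁻¹) ^ 2 * C := by gcongr
    _ = Real.exp (τ * ρ) * (2 * τ ^ 2) * C := by
        field_simp

theorem dM {g : ℂ → ℂ} (τ : ℝ) (hg : DifferentiableOn ℂ g sec) :
    DifferentiableOn ℂ (hM τ g) sec := by
  have hi : DifferentiableOn ℂ (fun w : ℂ => w⁻¹) sec :=
    differentiableOn_inv.mono fun w hw => sec_ne hw
  have he : DifferentiableOn ℂ (fun w : ℂ => exp ((τ : ℂ) * w)) sec :=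
    ((differentiable_const _).mul differentiable_id).cexp.differentiableOn
  exact (he.mul (hi.pow 2)).mul hg

theorem dQ {g : ℂ → ℂ} (τ : ℝ) (hg : DifferentiableOn ℂ g sec) :
    DifferentiableOn ℂ (hQ τ g) sec := by
  have hi : DifferentiableOn ℂ (fun w : ℂ => w⁻¹) sec :=
    differentiableOn_inv.mono fun w hw => sec_ne hw
  have he : DifferentiableOn ℂ
      (fun w : ℂ => exp (-((τ : ℂ) * w)) * (1 + 2 * ((τ : ℂ) * w))) sec := by
    apply Differentiable.differentiableOn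
    fun_prop
  exact (he.mul (hi.pow 2)).mul hg

theorem dP {g : ℂ → ℂ} (τ : ℝ) (hg : DifferentiableOn ℂ g sec) :
    DifferentiableOn ℂ (hP τ g) sec := by
  have hi : DifferentiableOn ℂ (fun w : ℂ => w⁻¹) sec :=
    differentiableOn_inv.mono fun w hw => sec_ne hw
  have he : DifferentiableOn ℂ (fun w : ℂ => exp ((τ : ℂ) * w) *
      (1 - exp (-2 * ((τ : ℂ) * w)) * (1 + 2 * ((τ : ℂ) * w)))) sec := by
    apply Differentiable.differentiableOn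
    fun_prop
  exact (he.mul (hi.pow 2)).mul hg

/-- The derivative of `c y e^{-τ y} G(y)`. -/
theorem der_form {τ : ℝ} {c y : ℂ} {G : ℂ → ℂ} {G' : ℂ} (hG : HasDerivAt G G' y) :
    HasDerivAt (fun y : ℂ => c * y * exp (-(τ : ℂ) * y) * G y)
      (c * exp (-(τ : ℂ) * y) * G y - (τ : ℂ) * (c * y * exp (-(τ : ℂ) * y) * G y) +
        c * y * exp (-(τ : ℂ) * y) * G') y := by
  have h1 : HasDerivAt (fun y : ℂ => c * y) (c * 1) y := (hasDerivAt_id y).const_mul c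
  have h2 : HasDerivAt (fun y : ℂ => exp (-(τ : ℂ) * y))
      (exp (-(τ : ℂ) * y) * (-(τ : ℂ) * 1)) y := ((hasDerivAt_id y).const_mul (-(τ : ℂ))).cexp
  have h3 := (h1.mul h2).mul hG
  refine h3.congr_deriv ?_
  simp only [Pi.mul_apply]
  ring

/-- The formula for nonpositive frequencies. -/
theorem sol_neg {τ : ℝ} (hτ : τ ≤ 0) (g : ℂ → ℂ) : sol1 τ g = fun y : ℂ =>
    2 * I * y * exp (-(τ : ℂ) * y) * ∫ t in Set.Ioi (1 : ℝ), y * hM τ g (t * y) := by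
  funext y
  rw [sol1, if_pos hτ]

/-- The formula for positive frequencies. -/
theorem sol_pos {τ : ℝ} (hτ : 0 < τ) (g : ℂ → ℂ) : sol1 τ g = fun y : ℂ =>
    -2 * I * y * exp (-(τ : ℂ) * y) *
      ((∫ t in Set.Ioc (0 : ℝ) 1, y * hP τ g (t * y)) -
        ∫ t in Set.Ioi (1 : ℝ), y * hQ τ g (t * y)) := by
  funext y
  rw [sol1, if_neg (not_le.mpr hτ)]

/-- The derivative of the solution. -/
theorem sol_der (hRAI : T_RAI) (hRAZ : T_RAZ) (hCHI : T_CHI) (hSEC : T_SEC) {τ C : ℝ}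
    {g : ℂ → ℂ} (hg : DifferentiableOn ℂ g sec)
    (hC : ∀ w ∈ sec, Real.exp (|τ| * w.re / 2) * ‖g w‖ ≤ C) {y : ℂ} (hy : y ∈ sec) :
    ∃ f' : ℂ, HasDerivAt (sol1 τ g) f' y ∧
      I / 2 * y * ((τ : ℂ) * sol1 τ g y + f') = I / 2 * sol1 τ g y + g y := by
  have hy0 : y ≠ 0 := sec_ne hy
  have hI : I * I = -1 := I_mul_I
  by_cases hτ : τ ≤ 0
  · have hG := (hRAI (hM τ g) C (dM τ hg) (fun w hw => bM hτ hC hw) y hy).2
    rw [sol_neg hτ]
    refine ⟨_, der_form hG, ?_⟩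
    set G : ℂ := ∫ t in Set.Ioi (1 : ℝ), y * hM τ g (t * y)
    have e1 : exp (-(τ : ℂ) * y) * exp ((τ : ℂ) * y) = 1 := by
      rw [← exp_add]
      simp
    have e2 : y ^ 2 * (exp (-(τ : ℂ) * y) * hM τ g y) = g y := by
      have e3 : y ^ 2 * (y⁻¹) ^ 2 = 1 := by
        rw [← mul_pow, mul_inv_cancel₀ hy0, one_pow]
      rw [hM]
      linear_combination (y ^ 2 * (y⁻¹) ^ 2 * g y) * e1 + g y * e3
    linear_combination (y * exp (-(τ : ℂ) * y) * G - y ^ 2 * exp (-(τ : ℂ) * y) * hM τ g y -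
      I / 2 * 0) * hI + e2 - (y * exp (-(τ : ℂ) * y) * G) * hI
  · have hτ' : 0 < τ := not_le.mp hτ
    have hG1 := (hRAZ (hP τ g) (dP τ hg) (fun ρ _ =>
      ⟨_, fun w hw hwρ => bP hSEC hCHI hτ' hC hw hwρ⟩) y hy).2
    have hG2 := (hRAI (hQ τ g) (2 * C) (dQ τ hg) (fun w hw => bQ hSEC hτ' hC hw) y hy).2
    rw [sol_pos hτ']
    refine ⟨_, der_form (hG1.sub hG2), ?_⟩
    simp only
    set G1 : ℂ := ∫ t in Set.Ioc (0 : ℝ) 1, y * hP τ g (t * y)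
    set G2 : ℂ := ∫ t in Set.Ioi (1 : ℝ), y * hQ τ g (t * y)
    have e1 : exp (-(τ : ℂ) * y) * exp ((τ : ℂ) * y) = 1 := by
      rw [← exp_add]
      simp
    have e4 : exp ((τ : ℂ) * y) * exp (-2 * ((τ : ℂ) * y)) = exp (-((τ : ℂ) * y)) := by
      rw [← exp_add]
      congr 1
      ring
    have e2 : y ^ 2 * (exp (-(τ : ℂ) * y) * (hP τ g y + hQ τ g y)) = g y := by
      have e3 : y ^ 2 * (y⁻¹) ^ 2 = 1 := by
        rw [← mul_pow, mul_inv_cancel₀ hy0, one_pow]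
      have e5 : hP τ g y + hQ τ g y = exp ((τ : ℂ) * y) * (y⁻¹) ^ 2 * g y := by
        rw [hP, hQ]
        linear_combination (-(1 + 2 * ((τ : ℂ) * y)) * (y⁻¹) ^ 2 * g y) * e4
      rw [e5]
      linear_combination (y ^ 2 * (y⁻¹) ^ 2 * g y) * e1 + g y * e3
    linear_combination e2 - (y ^ 2 * exp (-(τ : ℂ) * y) * (hP τ g y + hQ τ g y)) * hI

end SLH_

open SLH_

theorem p_SLH (hRAI : T_RAI) (hRAZ : T_RAZ) (hCHI : T_CHI) (hSEC : T_SEC) : T_SLH := by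
  intro τ C g hg hC
  refine ⟨?_, ?_, ?_⟩
  · intro y hy
    obtain ⟨f', h1, -⟩ := sol_der hRAI hRAZ hCHI hSEC hg hC hy
    exact h1.differentiableAt.differentiableWithinAt
  · intro y hy
    obtain ⟨f', h1, h2⟩ := sol_der hRAI hRAZ hCHI hSEC hg hC hy
    rw [h1.deriv]
    exact h2
  · intro C' g' hg' hC' y hy
    by_cases hτ : τ ≤ 0
    · have i1 := (hRAI (hM τ g) C (dM τ hg) (fun w hw => bM hτ hC hw) y hy).1
      have i2 := (hRAI (hM τ g') C' (dM τ hg') (fun w hw => bM hτ hC' hw) y hy).1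
      rw [sol_neg hτ, sol_neg hτ, sol_neg hτ]
      have e1 : (fun t : ℝ => y * hM τ (fun w => g w - g' w) (t * y)) =
          fun t : ℝ => y * hM τ g (t * y) - y * hM τ g' (t * y) := by
        funext t
        simp only [hM]
        ring
      simp only [e1]
      rw [integral_sub i1 i2]
      ring
    · have hτ' : 0 < τ := not_le.mp hτ
      have i1 := (hRAZ (hP τ g) (dP τ hg) (fun ρ _ =>
        ⟨_, fun w hw hwρ => bP hSEC hCHI hτ' hC hw hwρ⟩) y hy).1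
      have i2 := (hRAZ (hP τ g') (dP τ hg') (fun ρ _ =>
        ⟨_, fun w hw hwρ => bP hSEC hCHI hτ' hC' hw hwρ⟩) y hy).1
      have j1 := (hRAI (hQ τ g) (2 * C) (dQ τ hg) (fun w hw => bQ hSEC hτ' hC hw) y hy).1
      have j2 := (hRAI (hQ τ g') (2 * C') (dQ τ hg') (fun w hw => bQ hSEC hτ' hC' hw) y hy).1
      rw [sol_pos hτ', sol_pos hτ', sol_pos hτ']
      have e1 : (fun t : ℝ => y * hP τ (fun w => g w - g' w) (t * y)) =
          fun t : ℝ => y * hP τ g (t * y) - y * hP τ g' (t * y) := by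
        funext t
        simp only [hP]
        ring
      have e2 : (fun t : ℝ => y * hQ τ (fun w => g w - g' w) (t * y)) =
          fun t : ℝ => y * hQ τ g (t * y) - y * hQ τ g' (t * y) := by
        funext t
        simp only [hQ]
        ring
      simp only [e1, e2]
      rw [integral_sub i1 i2, integral_sub j1 j2]
      ring

end Pool.Agent.HSD
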