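import Pool.Agent.HSD.Targets4

/-!
# Project HSD: the square root (SQR)
-/

set_option autoImplicit false

namespace Pool.Agent.HSD

open Complex

namespace SQR_

theorem real_of_star {χ : RR} (h : star χ = χ) (p : ℝ × ℝ) :
    (((vl χ p).re : ℝ) : ℂ) = vl χ p := by
  have h1 : starRingEnd ℂ (vl χ p) = vl χ p := by
    rw [← vl_star, h]
  exact Complex.conj_eq_iff_re.mp h1

theorem re_ge {χ : RR} (hNRA : T_NRA) (h : NR (χ - 1) (1 / 2)) (p : ℝ × ℝ) :
    1 / 2 ≤ (vl χ p).re := by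
  have h1 : ‖vl (χ - 1) p‖ ≤ 1 / 2 := hNRA.2.2.2.2.2.1 _ _ h p
  rw [vl_sub, vl_one] at h1
  have h2 := (Complex.abs_re_le_norm _).trans h1
  rw [Complex.sub_re, Complex.one_re] at h2
  have h3 := (abs_le.mp h2).1
  linarith

/-- The square root. -/
noncomputable def sq (χ : RR) (h : ∀ p, 1 / 2 ≤ (vl χ p).re) : RR :=
  ⟨fun p => ((Real.sqrt (vl χ p).re : ℝ) : ℂ), mem_RR.mpr (by
    have h1 : ContDiff ℝ ((⊤ : ℕ∞) : WithTop ℕ∞) (fun p => (vl χ p).re) :=
      Complex.reCLM.contDiff.comp (RR_smooth χ)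
    have h2 : ContDiff ℝ ((⊤ : ℕ∞) : WithTop ℕ∞) (fun p => Real.sqrt (vl χ p).re) :=
      h1.sqrt (fun p => by linarith [h p] |> fun (hp : 0 < (vl χ p).re) => hp.ne')
    exact Complex.ofRealCLM.contDiff.comp h2)⟩

theorem vl_sq (χ : RR) (h : ∀ p, 1 / 2 ≤ (vl χ p).re) (p : ℝ × ℝ) :
    vl (sq χ h) p = ((Real.sqrt (vl χ p).re : ℝ) : ℂ) := rfl

end SQR_

open SQR_ in
theorem p_SQR (hNRA : T_NRA) (hDRA : T_DRA) : T_SQR := by
  intro χ l hst hN hl
  have hre := re_ge hNRA hN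
  have hgg : sq χ hre * sq χ hre = χ := by
    apply vl_ext
    intro p
    rw [vl_mul, vl_sq, ← Complex.ofReal_mul, Real.mul_self_sqrt (by linarith [hre p])]
    exact real_of_star hst p
  have hgs : star (sq χ hre) = sq χ hre := by
    apply vl_ext
    intro p
    rw [vl_star, vl_sq, Complex.conj_ofReal]
  have hD : dDer (-1) (sq χ hre) = l * sq χ hre := by
    have h1 : dDer (-1) χ = sq χ hre * dDer (-1) (sq χ hre) + sq χ hre * dDer (-1) (sq χ hre) := by
      conv_lhs => rw [← hgg]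
      exact der_mul _ _ _
    rw [← hl] at h1
    apply vl_ext
    intro p
    have h2 := congrArg (fun f => vl f p) h1
    simp only [vl_mul, vl_add] at h2
    have h3 : vl (2 : RR) p = 2 := rfl
    have h4 : vl χ p = vl (sq χ hre) p * vl (sq χ hre) p := by
      rw [← vl_mul, hgg]
    rw [h3, h4] at h2
    have h5 : vl (sq χ hre) p ≠ 0 := by
      rw [vl_sq, Ne, Complex.ofReal_eq_zero, Real.sqrt_eq_zero']
      linarith [hre p]
    rw [vl_mul]
    have h6 : (2 * vl (sq χ hre) p) * vl (dDer (-1) (sq χ hre)) p =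
        (2 * vl (sq χ hre) p) * (vl l p * vl (sq χ hre) p) := by
      linear_combination -h2
    exact mul_left_cancel₀ (mul_ne_zero two_ne_zero h5) h6
  refine ⟨sq χ hre, hgg, hgs, hD, ?_⟩
  rw [hDRA.2.1, hgs, hD, star_mul', hgs]

end Pool.Agent.HSD
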