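import Pool.Agent.HSD.Targets2

/-!
# Project HSD: the axioms for the solution operator (target T_SRA)
-/

set_option autoImplicit false

namespace Pool.Agent.HSD

open Complex

namespace SRA_

theorem geo (c : ℝ) : HasSum (fun i : ℤ => 300 / 2 ^ i.natAbs * c) (900 * c) := by
  have h0 : HasSum (fun n : ℕ => ((1 : ℝ) / 2) ^ n) 2 := hasSum_geometric_two
  have h1 : HasSum (fun n : ℕ => 300 / 2 ^ (n : ℤ).natAbs * c) (300 * c * 2) := by
    have e : (fun n : ℕ => 300 / 2 ^ (n : ℤ).natAbs * c) =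
        fun n : ℕ => 300 * c * ((1 : ℝ) / 2) ^ n := by
      funext n
      rw [Int.natAbs_natCast, div_pow, one_pow]
      ring
    rw [e]
    exact h0.mul_left (300 * c)
  have h2 : HasSum (fun n : ℕ => 300 / 2 ^ (-((n : ℤ) + 1)).natAbs * c) (150 * c * 2) := by
    have e : (fun n : ℕ => 300 / 2 ^ (-((n : ℤ) + 1)).natAbs * c) =
        fun n : ℕ => 150 * c * ((1 : ℝ) / 2) ^ n := by
      funext n
      have e1 : (-((n : ℤ) + 1)).natAbs = n + 1 := by omega
      rw [e1, div_pow, one_pow, pow_succ]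
      have h2n : (2 : ℝ) ^ n ≠ 0 := by positivity
      field_simp
      ring
    rw [e]
    exact h0.mul_left (150 * c)
  have h3 := HasSum.of_nat_of_neg_add_one (f := fun i : ℤ => 300 / 2 ^ i.natAbs * c) h1 h2
  have e3 : 300 * c * 2 + 150 * c * 2 = 900 * c := by ring
  rw [e3] at h3
  exact h3

theorem le_of_sq {x : ENNReal} {c : ℝ} (hc : 0 ≤ c) (h : x ^ 2 ≤ ENNReal.ofReal (c ^ 2)) :
    x ≤ ENNReal.ofReal c := by
  rw [ENNReal.ofReal_pow hc] at h
  by_contra hlt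
  push Not at hlt
  exact absurd h (not_le.mpr (ENNReal.pow_lt_pow_left two_ne_zero hlt))

end SRA_

open SRA_

theorem p_SRA (hSRS : T_SRS) (hFSO : T_FSO) (hCDN : T_CDN) (hLSF : T_LSF) (hCNG : T_CNG)
    (hFAD : T_FAD) (hMIN : T_MIN) : T_SRA := by
  obtain ⟨hA, hB, -⟩ := hFAD
  refine ⟨?_, ?_, ?_⟩
  · rintro h c ⟨hc, a, ha, hb⟩
    have hS := hSRS h a c ha hb
    obtain ⟨f1, -, f3, -⟩ := hFSO a c ha.fam hb
    have e0 : (SR h : ℝ × ℝ → ℂ) = Ff (solF a) := funext hS.eq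
    have e1 : ∀ p, dOp 1 (Ff (solF a)) p = Ff (dfam 1 (solF a)) p := by
      intro p
      have := (hCDN _ (hLSF _ f1)).2 1 p
      rwa [ofReal_one] at this
    have e2 : ∀ p, Ff (dfam 1 (solF a)) p = Ff (fun τ y => I / 2 * solF a τ y + a τ y) p :=
      (hCNG _ _ f3).2.2.1
    have e3 : ∀ p, Ff (fun τ y => I / 2 * solF a τ y + a τ y) p =
        I / 2 * Ff (solF a) p + Ff a p := by
      intro p
      obtain ⟨g1, -, g3⟩ := hB (I / 2) (solF a) f1
      obtain ⟨⟨-, -, k3⟩, -⟩ := hA (fun τ y => I / 2 * solF a τ y) a g1 ha.fam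
      rw [k3, g3]
    apply Subtype.ext
    funext p
    have e4 : ((dDer 1 (SR h) : RR) : ℝ × ℝ → ℂ) p = dOp 1 (SR h : ℝ × ℝ → ℂ) p := rfl
    have e5 : ((cst RR (I / 2) * SR h + h : RR) : ℝ × ℝ → ℂ) p =
        I / 2 * (SR h : ℝ × ℝ → ℂ) p + (h : ℝ × ℝ → ℂ) p := rfl
    rw [e4, e5, e0, e1, e2, e3, ha.eq p]
  · rintro h k c c' ⟨hc, a, ha, hb⟩ ⟨hc', a', ha', hb'⟩
    obtain ⟨-, m1, m2, m3⟩ := hA a a' ha.fam ha'.fam
    have hrep : Rep (fun τ y => a τ y - a' τ y) ((h - k : RR) : ℝ × ℝ → ℂ) := by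
      refine ⟨m1, fun p => ?_⟩
      rw [m3, ← ha.eq, ← ha'.eq]
      rfl
    have hN : ∀ j, NN (fun τ y => a τ y - a' τ y) j ≤ ENNReal.ofReal (c + c') := by
      intro j
      refine (m2 j).trans ?_
      rw [ENNReal.ofReal_add hc hc']
      exact add_le_add (hb j) (hb' j)
    have hS := hSRS (h - k) _ _ hrep hN
    have hS1 := hSRS h a c ha hb
    have hS2 := hSRS k a' c' ha' hb'
    obtain ⟨f1, -, -, f4⟩ := hFSO a c ha.fam hb
    obtain ⟨f1', -, -, -⟩ := hFSO a' c' ha'.fam hb'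
    have e1 := f4 a' c' ha'.fam hb'
    have e2 : ∀ p, Ff (solF fun τ y => a τ y - a' τ y) p =
        Ff (fun τ y => solF a τ y - solF a' τ y) p := (hCNG _ _ e1).2.2.1
    obtain ⟨-, -, -, n3⟩ := hA (solF a) (solF a') f1 f1'
    apply Subtype.ext
    funext p
    have e5 : ((SR h - SR k : RR) : ℝ × ℝ → ℂ) p =
        (SR h : ℝ × ℝ → ℂ) p - (SR k : ℝ × ℝ → ℂ) p := rfl
    rw [e5, hS.eq p, hS1.eq p, hS2.eq p, e2, n3]
  · rintro ι _ v c ⟨hc, a, ha, hb⟩
    have hle : ∀ r j, NN (a r) j ≤ ENNReal.ofReal c := by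
      intro r j
      apply le_of_sq hc
      refine le_trans ?_ (hb j)
      exact Finset.single_le_sum (f := fun r => (NN (a r) j) ^ 2) (fun _ _ => zero_le)
        (Finset.mem_univ r)
    refine ⟨by positivity, fun r => solF (a r), fun r => hSRS (v r) (a r) c (ha r) (hle r), ?_⟩
    intro j
    have h1 : ∀ r, NN (solF (a r)) j ≤
        ∑' i : ℤ, ENNReal.ofReal (300 / 2 ^ i.natAbs) * NN (a r) (j + i) :=
      fun r => (hFSO (a r) c (ha r).fam (hle r)).2.1 j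
    have h2 := hMIN ι ℤ (fun r i => ENNReal.ofReal (300 / 2 ^ i.natAbs) * NN (a r) (j + i))
      (fun i => 300 / 2 ^ i.natAbs * c) (900 * c) (fun i => by positivity) (geo c) ?_
    · calc ∑ r, (NN (solF (a r)) j) ^ 2
          ≤ ∑ r, (∑' i : ℤ, ENNReal.ofReal (300 / 2 ^ i.natAbs) * NN (a r) (j + i)) ^ 2 :=
            Finset.sum_le_sum fun r _ => pow_le_pow_left' (h1 r) 2
        _ ≤ ENNReal.ofReal ((900 * c) ^ 2) := h2
        _ ≤ ENNReal.ofReal ((1000 * c) ^ 2) := by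
            apply ENNReal.ofReal_le_ofReal
            nlinarith [sq_nonneg c]
    · intro i
      have h3 : ∀ r, (ENNReal.ofReal (300 / 2 ^ i.natAbs) * NN (a r) (j + i)) ^ 2 =
          ENNReal.ofReal (300 / 2 ^ i.natAbs) ^ 2 * (NN (a r) (j + i)) ^ 2 :=
        fun r => mul_pow _ _ _
      simp only [h3]
      rw [← Finset.mul_sum, mul_pow, ENNReal.ofReal_mul (by positivity),
        ENNReal.ofReal_pow (by positivity)]
      exact mul_le_mul' le_rfl (hb (j + i))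

end Pool.Agent.HSD
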