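import Pool.Agent.HSD.Targets2

set_option autoImplicit false

namespace Pool.Agent.HSD

theorem p_SRS (hFSO : T_FSO) (hLSF : T_LSF) (hCDN : T_CDN) (hUNI : T_UNI) (hCNG : T_CNG) :
    T_SRS := by
  intro h a c hrep hN
  have hF := hFSO a c hrep.fam hN
  have hsm : ContDiff ℝ ((⊤ : ℕ∞) : WithTop ℕ∞) (Ff (solF a)) := (hCDN _ (hLSF _ hF.1)).1
  have H : ∃ g : RR, ∃ a : ℝ → ℂ → ℂ, ∃ c : ℝ,
      Rep a h ∧ (∀ j : ℤ, NN a j ≤ ENNReal.ofReal c) ∧ Rep (solF a) g :=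
    ⟨⟨Ff (solF a), mem_RR.mpr hsm⟩, a, c, hrep, hN, ⟨hF.1, fun _ => rfl⟩⟩
  have e1 : SR h = H.choose := by
    unfold SR
    rw [dif_pos H]
  obtain ⟨b, c', hb, hbN, hbS⟩ := H.choose_spec
  have e2 : ∀ p, Ff a p = Ff b p := fun p => by rw [← hrep.eq p, ← hb.eq p]
  have e3 := hUNI a b (hLSF _ hrep.fam) (hLSF _ hb.fam) e2
  have e4 : ∀ τ, ∀ y ∈ sec, solF a τ y = solF b τ y := (hCNG a b e3).2.2.2.2
  have e5 : ∀ p, Ff (solF a) p = Ff (solF b) p := (hCNG _ _ e4).2.2.1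
  refine ⟨hF.1, fun p => ?_⟩
  rw [e1, hbS.eq p, e5 p]

end Pool.Agent.HSD
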