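import Pool.Agent.HSD.Targets1

/-!
# Project HSD: the estimates for `T`, assembled (target T_STE)
-/

set_option autoImplicit false
set_option linter.unusedSectionVars false

namespace Pool.Agent.HSD

open Complex

namespace STE_

variable {ι R : Type} [Fintype ι] [CommRing R] [StarRing R] [Algebra ℂ R]
variable {CE CS : ℝ} {d : Dat ι R} {K K' ε : ℝ} {u0 u Y : ι → R} {i j : R}

theorem mono1 (a : Ax CE CS d) (hK : K ≤ K') (he : 0 ≤ ε) (h : E1 d K ε u0 u Y) :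
    E1 d K' ε u0 u Y := by
  have h1 : K * ε ≤ K' * ε := mul_le_mul_of_nonneg_right hK he
  have h2 : K * ε ^ 2 ≤ K' * ε ^ 2 := mul_le_mul_of_nonneg_right hK (pow_nonneg he 2)
  exact ⟨a.V_mono h.bu0 hK, a.V_mono h.Du0 hK, a.V_mono h.Dbu0 hK, a.V_mono h.bu hK,
    a.V_mono h.bY h1, a.V_mono h.DY h1, a.V_mono h.DbY h1, a.V_mono h.bU h2,
    a.V_mono h.DU h2, a.V_mono h.DbU h2⟩

theorem mono2 (a : Ax CE CS d) (hK : K ≤ K') (he : 0 ≤ ε) (h : E2 d K ε u0 u Y) :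
    E2 d K' ε u0 u Y := by
  have h1 : K * ε ≤ K' * ε := mul_le_mul_of_nonneg_right hK he
  have h2 : K * ε ^ 2 ≤ K' * ε ^ 2 := mul_le_mul_of_nonneg_right hK (pow_nonneg he 2)
  exact ⟨a.N_mono h.q0 hK, a.N_mono h.Dq0 hK, a.N_mono h.dq h2, a.N_mono h.Ddq h2,
    a.N_mono h.p h1, a.N_mono h.Dp h1, a.N_mono h.Dbp h1⟩

theorem mono3 (a : Ax CE CS d) (hK : K ≤ K') (he : 0 ≤ ε) (h : E3 d K ε i j) :
    E3 d K' ε i j := by
  have h2 : K * ε ^ 2 ≤ K' * ε ^ 2 := mul_le_mul_of_nonneg_right hK (pow_nonneg he 2)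
  exact ⟨a.N_mono h.bi hK, a.N_mono h.bj hK, a.N_mono h.Dj hK, a.N_mono h.di h2,
    a.N_mono h.Ddi h2⟩

theorem mono4 (a : Ax CE CS d) (hK : K ≤ K') (he : 0 ≤ ε) (h : E4 d K ε u0 u Y i j) :
    E4 d K' ε u0 u Y i j := by
  have h1 : K * ε ≤ K' * ε := mul_le_mul_of_nonneg_right hK he
  have h2 : K * ε ^ 2 ≤ K' * ε ^ 2 := mul_le_mul_of_nonneg_right hK (pow_nonneg he 2)
  exact ⟨a.N_mono h.a0 hK, a.N_mono h.da h2, a.N_mono h.b h1⟩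

theorem mono5 (a : Ax CE CS d) (hK : K ≤ K') (he : 0 ≤ ε) (h : E5 d K ε u0 u Y i j) :
    E5 d K' ε u0 u Y i j := by
  have h1 : K * ε ≤ K' * ε := mul_le_mul_of_nonneg_right hK he
  have h2 : K * ε ^ 2 ≤ K' * ε ^ 2 := mul_le_mul_of_nonneg_right hK (pow_nonneg he 2)
  exact ⟨a.V_mono h.w10 hK, a.V_mono h.dw1 h2, a.V_mono h.w2 h1, a.N_mono h.W0 hK,
    a.N_mono h.dW h2⟩

theorem mono7 (a : Ax CE CS d) (hK : K ≤ K') (he : 0 ≤ ε) (h : E7 d K ε u0 u Y i j) :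
    E7 d K' ε u0 u Y i j := by
  have h2 : K * ε ^ 2 ≤ K' * ε ^ 2 := mul_le_mul_of_nonneg_right hK (pow_nonneg he 2)
  exact ⟨a.N_mono h.DW0 hK, a.N_mono h.DdW h2⟩

end STE_

open STE_

set_option linter.unusedVariables false in
theorem p_STE (hLOG : T_LOG) (hSYS : T_SYS) (hCOD : T_COD) (hE1 : T_E1) (hE2 : T_E2)
    (hE3 : T_E3) (hE4 : T_E4) (hE5 : T_E5) (hE6 : T_E6) (hE7 : T_E7) (hE8 : T_E8) :
    T_STE := by
  intro CE CS A hCS hA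
  obtain ⟨K1, hK1, hCE1, hCS1, h1⟩ := hE1 CE CS A hA
  obtain ⟨K2, hK12, h2⟩ := hE2 CE CS K1 hK1 hCE1 hCS1
  obtain ⟨K3, ε₀, hK23, hε₀, h3⟩ := hE3 CE CS K2 (hK1.trans hK12) (hCE1.trans hK12)
    (hCS1.trans hK12)
  have k3 : K1 ≤ K3 := hK12.trans hK23
  obtain ⟨K4, hK34, h4⟩ := hE4 CE CS K3 (hK1.trans k3) (hCE1.trans k3) (hCS1.trans k3)
  have k4 : K1 ≤ K4 := k3.trans hK34
  obtain ⟨K5, hK45, h5⟩ := hE5 CE CS K4 (hK1.trans k4) (hCE1.trans k4) (hCS1.trans k4)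
  have k5 : K1 ≤ K5 := k4.trans hK45
  obtain ⟨K6, hK56, h6⟩ := hE6 CE CS K5 (hK1.trans k5) (hCE1.trans k5) (hCS1.trans k5)
  have k6 : K1 ≤ K6 := k5.trans hK56
  obtain ⟨K7, hK67, h7⟩ := hE7 CE CS K6 (hK1.trans k6) (hCE1.trans k6) (hCS1.trans k6)
  have k7 : K1 ≤ K7 := k6.trans hK67
  obtain ⟨K8, hK78, h8⟩ := hE8 CE CS K7 (hK1.trans k7) (hCE1.trans k7) (hCS1.trans k7)
  have k8 : K1 ≤ K8 := k7.trans hK78
  have hCS0 : 0 < CS := by linarith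
  refine ⟨K8, min (1 / 4) (min (1 / (2 * CS)) ε₀), by linarith, ?_, min_le_left _ _, ?_⟩
  · exact lt_min (by norm_num) (lt_min (by positivity) hε₀)
  intro ι R _ _ _ _ d u0 j ax sys0 hVA hq hj e c χ l u Y i he0 he hgood pt
  have e1 : e ≤ 1 / 4 := he.trans (min_le_left _ _)
  have e2 : e ≤ 1 / (2 * CS) := he.trans ((min_le_right _ _).trans (min_le_left _ _))
  have e3 : e ≤ ε₀ := he.trans ((min_le_right _ _).trans (min_le_right _ _))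
  have e4 : e ≤ 1 := by linarith
  have e5 : CS * e ≤ 1 / 2 := by
    have h := mul_le_mul_of_nonneg_left e2 hCS0.le
    have h' : CS * (1 / (2 * CS)) = 1 / 2 := by
      field_simp
    linarith
  have hl : d.N l e := (hLOG ι R CE CS e d χ ax e1 hgood).2 l pt.hl
  have hsys : Sys d l u Y := hSYS ι R CE CS d l u0 u Y c e ax sys0 hl pt.sol
  have f1 := h1 ι R e c d l u0 u Y ax he0 e4 e5 hl sys0 hVA pt.sol
  have f2 := h2 ι R e d u0 u Y ax he0 e4 f1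
  have f3 := (h3 ι R e d u0 u Y ax he0 e4 e3 f2 hq).2 i j pt.inv hj
  have f4 := h4 ι R e d u0 u Y i j ax he0 e4 (mono1 ax k3 he0 f1) (mono2 ax hK23 he0 f2) f3
  have f5 := h5 ι R e d u0 u Y i j ax he0 e4 (mono1 ax k4 he0 f1) f4
  have g2 : K2 ≤ K5 := hK23.trans (hK34.trans hK45)
  have g3 : K3 ≤ K5 := hK34.trans hK45
  have f6 := h6 ι R e d l u0 u Y i j ax he0 e4 sys0 hsys pt.inv hj (mono1 ax k5 he0 f1)
    (mono2 ax g2 he0 f2) (mono3 ax g3 he0 f3) (mono4 ax hK45 he0 f4) f5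
  have f7 := h7 ι R e d u0 u Y i j ax he0 e4 (mono5 ax hK56 he0 f5) f6
  have g37 : K3 ≤ K7 := g3.trans (hK56.trans hK67)
  have f8 := h8 ι R e d u0 u Y i j ax he0 e4 (mono3 ax g37 he0 f3)
    (mono5 ax (hK56.trans hK67) he0 f5) f7
  have g28 : K2 ≤ K8 := g2.trans (hK56.trans (hK67.trans hK78))
  have f2' := mono2 ax g28 he0 f2
  exact ⟨f8.dT, f8.DdT, f2'.dq, f2'.p⟩

end Pool.Agent.HSD
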