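import Pool.Agent.HSD.Targets1

set_option autoImplicit false

namespace Pool.Agent.HSD

open Complex

theorem p_TAN : T_TAN := by
  intro ι R _ _ _ _ CE CS d l u Y i ax hs _
  set a : R := ca d u Y i with ha
  set b : R := cb d u Y i with hb
  set h : R := cst R (I / 2) with hh
  have hI : cst R I = 2 * h := two_cst_Ihalf.symm
  have sh : star h = -h := ax.star_Ihalf
  have Dh : d.D h = 0 := der_cst d.D (I / 2)
  have eu : ∀ r : ι, d.Db (u r) = h * u r + l * Y r := fun r => by
    have h1 := congrFun hs.equ r
    simpa [dv, hh] using h1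
  have eY : ∀ r : ι, d.D (Y r) = -h * Y r + star l * u r := fun r => by
    have h1 := congrFun hs.eqY r
    simpa [dv, hh] using h1
  have bYs : ∀ r : ι, d.Db (star (Y r)) = h * star (Y r) + l * star (u r) := fun r => by
    rw [ax.Db_star, eY, star_add, star_mul', star_mul', star_neg, sh, star_star]
    ring
  have dus : ∀ r : ι, d.D (star (u r)) = -h * star (u r) + star l * star (Y r) := fun r => by
    rw [ax.D_star, eu, star_add, star_mul', star_mul', sh]
  have cm : ∀ f : R, d.Db (d.D f) = d.D (d.Db f) + h * (d.D f + d.Db f) := fun f => by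
    linear_combination -(ax.comm f)
  have e1 : ∀ r : ι, w1 d u Y i r = d.D (u r) - a * u r - b * Y r := fun r => by
    simp [w1, dv, ha, hb]
  have e2 : ∀ r : ι, w2 d u Y i r = d.D (star (Y r)) - a * star (Y r) - b * star (u r) :=
    fun r => by simp [w2, dv, ha, hb]
  refine ⟨h * a + l * star l + h * h - d.Db a - b * star b,
    2 * h * b + d.D l - a * l - d.Db b - b * star a, ?_, ?_⟩
  · funext r
    have g1 : d.Db (w1 d u Y i r) = d.Db (d.D (u r)) - (a * d.Db (u r) + u r * d.Db a) -
        (b * d.Db (Y r) + Y r * d.Db b) := by
      rw [e1, map_sub, map_sub, der_mul, der_mul]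
    have g2 : d.Db (Y r) = star (w2 d u Y i r) + star a * Y r + star b * u r := by
      have h2 : d.Db (Y r) = star (d.D (star (Y r))) := ax.Db_eq (Y r)
      rw [e2, star_sub, star_sub, star_mul', star_mul', star_star, star_star, ← h2]
      ring
    have g3 : d.Db (d.D (u r)) =
        2 * h * d.D (u r) + (l * star l + h * h) * u r + d.D l * Y r := by
      rw [cm, eu, map_add, der_mul, der_mul, Dh, eY]
      ring
    have goal : d.Db (w1 d u Y i r) = cst R I * w1 d u Y i r - b * star (w2 d u Y i r) +
        (h * a + l * star l + h * h - d.Db a - b * star b) * u r +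
          (2 * h * b + d.D l - a * l - d.Db b - b * star a) * Y r := by
      rw [g1, g3, g2, eu, hI, e1]
      ring
    simpa [dv] using goal
  · funext r
    have g1 : d.Db (w2 d u Y i r) =
        d.Db (d.D (star (Y r))) - (a * d.Db (star (Y r)) + star (Y r) * d.Db a) -
        (b * d.Db (star (u r)) + star (u r) * d.Db b) := by
      rw [e2, map_sub, map_sub, der_mul, der_mul]
    have g2 : d.Db (star (u r)) =
        star (w1 d u Y i r) + star a * star (u r) + star b * star (Y r) := by
      rw [e1, star_sub, star_sub, star_mul', star_mul', ax.Db_star]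
      ring
    have g3 : d.Db (d.D (star (Y r))) =
        2 * h * d.D (star (Y r)) + (l * star l + h * h) * star (Y r) +
          d.D l * star (u r) := by
      rw [cm, bYs, map_add, der_mul, der_mul, Dh, dus]
      ring
    have goal : d.Db (w2 d u Y i r) = cst R I * w2 d u Y i r - b * star (w1 d u Y i r) +
        (h * a + l * star l + h * h - d.Db a - b * star b) * star (Y r) +
          (2 * h * b + d.D l - a * l - d.Db b - b * star a) * star (u r) := by
      rw [g1, g3, g2, bYs, hI, e2]
      ring
    simpa [dv] using goal

end Pool.Agent.HSD
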