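import Pool.Agent.HSD.Targets4

/-!
# Project HSD: the real form and the derivatives of the surface
-/

set_option autoImplicit false

namespace Pool.Agent.HSD

open Complex

theorem TOR_inner (m : ℕ) (v w : Fin m → ℂ) :
    inner ℝ (toR m v) (toR m w) = (∑ r, v r * starRingEnd ℂ (w r)).re := by
  rw [PiLp.inner_apply, Fintype.sum_sum_type, Complex.re_sum, ← Finset.sum_add_distrib]
  refine Finset.sum_congr rfl fun r _ => ?_
  simp only [toR, LinearMap.coe_mk, AddHom.coe_mk, Sum.elim_inl, Sum.elim_inr, Complex.mul_re,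
    Complex.conj_re, Complex.conj_im, RCLike.inner_apply, conj_trivial]
  ring

theorem TOR_ip {m : ℕ} (v w : Fin m → RR) (p : ℝ × ℝ) :
    vl (ip v (star w)) p = ∑ r, ev v p r * starRingEnd ℂ (ev w p r) := by
  unfold ip
  rw [vl_sum]
  rfl

theorem p_TOR : T_TOR := by
  refine ⟨TOR_inner, fun m v w p => ?_⟩
  rw [TOR_inner, TOR_ip]

/-- The linear map `z ↦ (z.re, z.im)`. -/
noncomputable def TOR_c : ℂ →L[ℝ] ℝ × ℝ := Complex.reCLM.prod Complex.imCLM

theorem TOR_c_apply (z : ℂ) : TOR_c z = (z.re, z.im) := rfl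

/-- The real form as a continuous linear map. -/
noncomputable def TOR_L (m : ℕ) : (Fin m → ℂ) →L[ℝ] EuclideanSpace ℝ (Fin m ⊕ Fin m) :=
  LinearMap.toContinuousLinearMap (toR m)

theorem TOR_L_apply (m : ℕ) (v : Fin m → ℂ) : TOR_L m v = toR m v := rfl

theorem TOR_fd {m : ℕ} (Φ : Fin m → RR) (z : ℂ) : HasFDerivAt (surf Φ)
    ((TOR_L m).comp ((ContinuousLinearMap.pi fun r =>
      fderiv ℝ (Φ r : ℝ × ℝ → ℂ) (z.re, z.im)).comp TOR_c)) z := by
  have h1 : HasFDerivAt (fun p : ℝ × ℝ => ev Φ p) (ContinuousLinearMap.pi fun r =>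
      fderiv ℝ (Φ r : ℝ × ℝ → ℂ) (z.re, z.im)) (TOR_c z) :=
    hasFDerivAt_pi.2 fun r => (RR_diff (Φ r) _).hasFDerivAt
  have h2 := (TOR_L m).hasFDerivAt.comp z (h1.comp z TOR_c.hasFDerivAt)
  exact h2

theorem p_DSU : T_DSU := by
  intro m Φ
  refine ⟨?_, ?_, ?_⟩
  · have h1 : ContDiff ℝ ((⊤ : ℕ∞) : WithTop ℕ∞) (fun p : ℝ × ℝ => ev Φ p) :=
      contDiff_pi.2 fun r => RR_smooth (Φ r)
    exact (TOR_L m).contDiff.comp (h1.comp TOR_c.contDiff)
  · intro z
    rw [(TOR_fd Φ z).fderiv]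
    have e : TOR_c 1 = (1, 0) := by
      rw [TOR_c_apply, Complex.one_re, Complex.one_im]
    rw [ContinuousLinearMap.comp_apply, ContinuousLinearMap.comp_apply, e]
    rfl
  · intro z
    rw [(TOR_fd Φ z).fderiv]
    have e : TOR_c I = (0, 1) := by
      rw [TOR_c_apply, Complex.I_re, Complex.I_im]
    rw [ContinuousLinearMap.comp_apply, ContinuousLinearMap.comp_apply, e]
    rfl

end Pool.Agent.HSD
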