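import Pool.Agent.HSD.Targets2
import Pool.Agent.HSP.P_INJ

/-!
# HSD: proof of UNI (uniqueness of coefficients)
-/

set_option autoImplicit false

namespace Pool.Agent.HSD

open Complex Topology

namespace UNI_

theorem summ {a : ℝ → ℂ → ℂ} (ha : LSm a) {y : ℂ} (hy : y ∈ sec) :
    Summable (fun τ : ℝ => ‖a τ y‖) := by
  obtain ⟨θ, hθ, hfin⟩ := ha.fin {y} (Set.singleton_subset_iff.2 hy) isCompact_singleton
  have h1 : ∑' τ : ℝ, ENNReal.ofReal ‖a τ y‖ ≠ ⊤ := by
    refine ne_top_of_le_ne_top hfin (ENNReal.tsum_le_tsum fun τ => ?_)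
    refine le_trans ?_ (le_iSup₂ (f := fun y' (_ : y' ∈ ({y} : Set ℂ)) =>
      ENNReal.ofReal (Real.exp (θ * |τ|) * ‖a τ y'‖)) y rfl)
    apply ENNReal.ofReal_le_ofReal
    have h2 : (1 : ℝ) ≤ Real.exp (θ * |τ|) := Real.one_le_exp (by positivity)
    nlinarith [norm_nonneg (a τ y)]
  have h3 := ENNReal.summable_toReal h1
  refine h3.congr fun τ => ?_
  rw [ENNReal.toReal_ofReal (norm_nonneg _)]

theorem summ' {a : ℝ → ℂ → ℂ} (ha : LSm a) {y : ℂ} (hy : y ∈ sec) (x : ℝ) :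
    Summable (fun τ : ℝ => a τ y * exp (I * (τ : ℂ) * (x : ℂ))) := by
  apply Summable.of_norm
  refine (summ ha hy).congr fun τ => ?_
  rw [norm_mul]
  have h : ‖exp (I * (τ : ℂ) * (x : ℂ))‖ = 1 := by
    have h1 : I * (τ : ℂ) * (x : ℂ) = ((τ * x : ℝ) : ℂ) * I := by
      push_cast
      ring
    rw [h1, norm_exp_ofReal_mul_I]
  rw [h, mul_one]

end UNI_

open UNI_ in
theorem p_UNI (hLSA : T_LSA) (hSEC : T_SEC) : T_UNI := by
  intro a b ha hb hab τ
  obtain ⟨hopen, hconv, -, -, -, hpos, -⟩ := hSEC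
  have hc : LSm (fun τ y => a τ y - b τ y) := (hLSA a b ha hb).1
  have hzero : ∀ (σ y : ℝ), 0 < y → a σ (y : ℂ) - b σ (y : ℂ) = 0 := by
    intro σ y hy
    have hys : (y : ℂ) ∈ sec := hpos y hy
    refine Pool.Agent.HSP.p_INJ (fun t => a t (y : ℂ) - b t (y : ℂ)) (summ hc hys) ?_ σ
    intro x
    have h1 := hab (x, Real.log y)
    unfold Ff at h1
    simp only [Real.exp_log hy] at h1
    have h2 := (summ' ha hys x).tsum_sub (summ' hb hys x)
    rw [h1, sub_self] at h2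
    rw [← h2]
    apply tsum_congr
    intro t
    unfold Pool.Agent.HSP.ex
    have h3 : I * (t : ℂ) * (x : ℂ) = ((t * x : ℝ) : ℂ) * I := by
      push_cast
      ring
    rw [h3]
    ring
  have hd : DifferentiableOn ℂ (fun y => a τ y - b τ y) sec := hc.holo τ
  have han : AnalyticOnNhd ℂ (fun y => a τ y - b τ y) sec := hd.analyticOnNhd hopen
  have h1s : (1 : ℂ) ∈ sec := by simpa using hpos 1 one_pos
  have hfr : ∃ᶠ z in 𝓝[≠] (1 : ℂ), a τ z - b τ z = 0 := by
    have ht : Filter.Tendsto (fun t : ℝ => (t : ℂ)) (𝓝[≠] (1 : ℝ)) (𝓝[≠] (1 : ℂ)) := by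
      apply tendsto_nhdsWithin_of_tendsto_nhds_of_eventually_within
      · have h := (continuous_ofReal.tendsto (1 : ℝ)).mono_left
          (nhdsWithin_le_nhds (s := {(1 : ℝ)}ᶜ))
        simpa using h
      · filter_upwards [self_mem_nhdsWithin] with t ht
        intro h
        apply ht
        have h' : (t : ℂ) = ((1 : ℝ) : ℂ) := by simpa using h
        exact ofReal_injective h'
    apply ht.frequently (p := fun z => a τ z - b τ z = 0)
    apply Filter.Eventually.frequently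
    have h0 : Set.Ioi (0 : ℝ) ∈ 𝓝[≠] (1 : ℝ) := nhdsWithin_le_nhds (Ioi_mem_nhds one_pos)
    filter_upwards [h0] with t ht
    exact hzero τ t ht
  have hE := han.eqOn_zero_of_preconnected_of_frequently_eq_zero hconv.isPreconnected h1s hfr
  intro y hy
  exact sub_eq_zero.1 (hE hy)

end Pool.Agent.HSD
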