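import Pool.Agent.HSD.Targets2

/-!
# Project HSD: the simple rules for the norm of vectors
-/

set_option autoImplicit false

namespace Pool.Agent.HSD

open Complex

namespace VRA_

theorem sq_le_iff {x : ENNReal} {c : ℝ} (hc : 0 ≤ c) :
    x ^ 2 ≤ ENNReal.ofReal (c ^ 2) ↔ x ≤ ENNReal.ofReal c := by
  rw [ENNReal.ofReal_pow hc]
  exact (ENNReal.pow_right_strictMono two_ne_zero).le_iff_le

theorem cs {ι : Type} [Fintype ι] (f g : ι → ENNReal) (c c' : ℝ) (hc : 0 ≤ c) (hc' : 0 ≤ c')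
    (hf : ∑ r, f r ^ 2 ≤ ENNReal.ofReal (c ^ 2)) (hg : ∑ r, g r ^ 2 ≤ ENNReal.ofReal (c' ^ 2)) :
    ∑ r, f r * g r ≤ ENNReal.ofReal (c * c') := by
  have h2 : Real.HolderConjugate 2 2 := Real.HolderConjugate.two_two
  have h := ENNReal.inner_le_Lp_mul_Lq (Finset.univ : Finset ι) f g h2
  refine h.trans ?_
  have e : ∀ (f : ι → ENNReal) (c : ℝ), 0 ≤ c → ∑ r, f r ^ 2 ≤ ENNReal.ofReal (c ^ 2) →
      (∑ r, f r ^ (2 : ℝ)) ^ (1 / (2 : ℝ)) ≤ ENNReal.ofReal c := by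
    intro f c hc hf
    have h3 : (∑ r, f r ^ (2 : ℝ)) = ∑ r, f r ^ 2 :=
      Finset.sum_congr rfl fun r _ => ENNReal.rpow_two (f r)
    rw [h3]
    have h4 : ENNReal.ofReal c = (ENNReal.ofReal (c ^ 2)) ^ (1 / (2 : ℝ)) := by
      rw [ENNReal.ofReal_rpow_of_nonneg (sq_nonneg c) (by norm_num), ← Real.sqrt_eq_rpow,
        Real.sqrt_sq hc]
    rw [h4]
    exact ENNReal.rpow_le_rpow hf (by norm_num)
  rw [ENNReal.ofReal_mul hc]
  exact mul_le_mul' (e f c hc hf) (e g c' hc' hg)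

theorem coe_ip {ι : Type} [Fintype ι] (v w : ι → RR) :
    ((ip v w : RR) : ℝ × ℝ → ℂ) =
      fun p => ∑ r, (v r : ℝ × ℝ → ℂ) p * (w r : ℝ × ℝ → ℂ) p := by
  funext p
  simp [ip]

theorem coe_smul {ι : Type} [Fintype ι] (f : RR) (v : ι → RR) (r : ι) :
    (((f • v) r : RR) : ℝ × ℝ → ℂ) =
      fun p => (f : ℝ × ℝ → ℂ) p * (v r : ℝ × ℝ → ℂ) p := rfl

theorem coe_star {ι : Type} [Fintype ι] (v : ι → RR) (r : ι) :
    (((star v) r : RR) : ℝ × ℝ → ℂ) =
      fun p => starRingEnd ℂ ((v r : ℝ × ℝ → ℂ) p) := rfl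

theorem coe_add {ι : Type} [Fintype ι] (v w : ι → RR) (r : ι) :
    (((v + w) r : RR) : ℝ × ℝ → ℂ) =
      fun p => (v r : ℝ × ℝ → ℂ) p + (w r : ℝ × ℝ → ℂ) p := rfl

theorem comp {ι : Type} [Fintype ι] (v : ι → RR) (c : ℝ) (r : ι) (h : VR v c) :
    NR (v r) c := by
  obtain ⟨hc, a, ha, hN⟩ := h
  refine ⟨hc, a r, ha r, fun j => ?_⟩
  rw [← sq_le_iff hc]
  refine le_trans ?_ (hN j)
  exact Finset.single_le_sum (f := fun r => NN (a r) j ^ 2) (fun _ _ => zero_le)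
    (Finset.mem_univ r)

end VRA_

open VRA_

theorem p_VRA (hFAD : T_FAD) (hFMU : T_FMU) (hFIP : T_FIP) (hFST : T_FST) (hMIN : T_MIN)
    (hPTF : T_PTF) : T_VRA := by
  intro ι _
  refine ⟨?_, ?_, ?_, ?_, ?_, ?_, ?_, ?_⟩
  · obtain ⟨a, ha, hN⟩ := hFAD.2.2 0
    refine ⟨le_refl _, fun _ => a, fun r => ha, fun j => ?_⟩
    have h0 : NN a j = 0 := by
      have := hN j
      simpa using this
    simp [h0]
  · rintro v c c' ⟨hc, a, ha, hN⟩ hcc
    refine ⟨hc.trans hcc, a, ha, fun j => (hN j).trans ?_⟩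
    exact ENNReal.ofReal_le_ofReal (pow_le_pow_left₀ hc hcc 2)
  · rintro v w c c' ⟨hc, a, ha, hN⟩ ⟨hc', b, hb, hN'⟩
    refine ⟨add_nonneg hc hc', fun r τ y => a r τ y + b r τ y, fun r => ?_, fun j => ?_⟩
    · have h1 := (hFAD.1 (a r) (b r) (ha r).fam (hb r).fam).1
      refine ⟨h1.1, fun p => ?_⟩
      rw [coe_add, h1.2.2 p, ← (ha r).eq p, ← (hb r).eq p]
    · have h2 := hMIN ι Bool (fun r m => if m = true then NN (a r) j else NN (b r) j)
        (fun m => if m = true then c else c') (c + c')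
        (by intro m; cases m <;> simp [hc, hc'])
        (by
          have := hasSum_fintype (fun m : Bool => if m = true then c else c')
          simpa using this)
        (by
          intro m
          cases m
          · simpa using hN' j
          · simpa using hN j)
      refine le_trans (Finset.sum_le_sum fun r _ => ?_) h2
      have h3 := (hFAD.1 (a r) (b r) (ha r).fam (hb r).fam).1.2.1 j
      rw [tsum_fintype, Fintype.sum_bool]
      simp only [if_true, Bool.false_eq_true, if_false]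
      exact pow_le_pow_left' h3 2
  · rintro f v c c' ⟨hc, a, ha, hN⟩ ⟨hc', b, hb, hN'⟩
    choose e he hNe using fun r => hFMU a (b r) f (v r) ha (hb r)
    refine ⟨mul_nonneg hc hc', e, fun r => ?_, fun j => ?_⟩
    · rw [VRA_.coe_smul]
      exact he r
    · calc ∑ r, NN (e r) j ^ 2 ≤ ∑ r, (ENNReal.ofReal c) ^ 2 * NN (b r) j ^ 2 := by
            refine Finset.sum_le_sum fun r _ => ?_
            rw [← mul_pow]
            exact pow_le_pow_left' ((hNe r j).trans (mul_le_mul' (hN j) le_rfl)) 2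
        _ = (ENNReal.ofReal c) ^ 2 * ∑ r, NN (b r) j ^ 2 := by rw [Finset.mul_sum]
        _ ≤ (ENNReal.ofReal c) ^ 2 * ENNReal.ofReal (c' ^ 2) := mul_le_mul' le_rfl (hN' j)
        _ = ENNReal.ofReal ((c * c') ^ 2) := by
            rw [mul_pow, ENNReal.ofReal_mul (sq_nonneg c), ENNReal.ofReal_pow hc]
  · rintro v c ⟨hc, a, ha, hN⟩
    choose e he hNe using fun r => hFST (a r) (v r) (ha r)
    refine ⟨hc, e, fun r => ?_, fun j => ?_⟩
    · rw [coe_star]
      exact he r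
    · refine le_trans (Finset.sum_le_sum fun r _ => ?_) (hN j)
      exact pow_le_pow_left' (hNe r j) 2
  · rintro v w c c' ⟨hc, a, ha, hN⟩ ⟨hc', b, hb, hN'⟩
    obtain ⟨e, he, hNe⟩ := hFIP ι a b (fun r => v r) (fun r => w r) ha hb
    refine ⟨mul_nonneg hc hc', e, ?_, fun j => ?_⟩
    · rw [coe_ip]
      exact he
    · exact (hNe j).trans (cs _ _ c c' hc hc' (hN j) (hN' j))
  · intro v c r h
    exact comp v c r h
  · intro v h
    funext r
    apply Subtype.ext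
    funext p
    have h1 : ∀ c : ℝ, 0 < c → ‖(v r : ℝ × ℝ → ℂ) p‖ ≤ c := by
      intro c hc
      obtain ⟨hc', a, ha, hN⟩ := comp v c r (h c hc)
      exact hPTF a (v r) c hc' ha hN p
    have h2 : ‖(v r : ℝ × ℝ → ℂ) p‖ ≤ 0 := le_of_forall_gt_imp_ge_of_dense h1
    simpa using h2

end Pool.Agent.HSD
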