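import Pool.Agent.HSD.Targets2

set_option autoImplicit false

namespace Pool.Agent.HSD

open Complex

namespace VRD_

theorem sq_mul {ι : Type} [Fintype ι] (f : ι → ENNReal) (k c : ℝ) (hk : 0 ≤ k)
    (h : ∑ r, (f r) ^ 2 ≤ ENNReal.ofReal (c ^ 2)) :
    ∑ r, (ENNReal.ofReal k * f r) ^ 2 ≤ ENNReal.ofReal ((k * c) ^ 2) := by
  have h1 : ∀ r, (ENNReal.ofReal k * f r) ^ 2 = ENNReal.ofReal (k ^ 2) * f r ^ 2 := by
    intro r
    rw [mul_pow, ENNReal.ofReal_pow hk]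
  rw [Finset.sum_congr rfl fun r _ => h1 r, ← Finset.mul_sum, mul_pow,
    ENNReal.ofReal_mul (by positivity)]
  exact mul_le_mul_right h _

/-- the function of the derived vector -/
theorem dv_coe {ι : Type} (σ : ℂ) (v : ι → RR) (r : ι) (p : ℝ × ℝ) :
    ((dv (dDer σ) v r : RR) : ℝ × ℝ → ℂ) p = dOp σ (v r : ℝ × ℝ → ℂ) p := rfl

end VRD_

open VRD_ in
theorem p_VRD (hLSF : T_LSF) (hLSD : T_LSD) (hCDN : T_CDN) (hUNI : T_UNI) (hCNG : T_CNG)
    (hFDD : T_FDD) (hMIN : T_MIN) : T_VRD := by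
  intro ι _ v c c' hv hw
  obtain ⟨hc, a, ha1, ha2⟩ := hv
  obtain ⟨hc', b, hb1, hb2⟩ := hw
  have hLa : ∀ r, LSm (a r) := fun r => hLSF _ (ha1 r).fam
  have hLb : ∀ r, LSm (b r) := fun r => hLSF _ (hb1 r).fam
  -- the derivative of the function of `a r`
  have hD : ∀ (σ : ℝ) (r : ι) (p : ℝ × ℝ),
      ((dv (dDer σ) v r : RR) : ℝ × ℝ → ℂ) p = Ff (dfam σ (a r)) p := by
    intro σ r p
    have h1 : (v r : ℝ × ℝ → ℂ) = Ff (a r) := funext (ha1 r).eq
    rw [dv_coe, h1]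
    exact (hCDN (a r) (hLa r)).2 σ p
  have hD1 : ∀ (r : ι) (p : ℝ × ℝ),
      ((dv (dDer 1) v r : RR) : ℝ × ℝ → ℂ) p = Ff (dfam 1 (a r)) p := by
    intro r p
    have h := hD 1 r p
    simpa using h
  have hDm : ∀ (r : ι) (p : ℝ × ℝ),
      ((dv (dDer (-1)) v r : RR) : ℝ × ℝ → ℂ) p = Ff (dfam (-1) (a r)) p := by
    intro r p
    have h := hD (-1) r p
    simpa using h
  have hL1 : ∀ r, LSm (dfam 1 (a r)) := by
    intro r
    have h := (hLSD (a r) (hLa r)).2.2.2 1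
    simpa using h
  -- the coefficients agree
  have hE : ∀ r τ, ∀ y ∈ sec, b r τ y = dfam 1 (a r) τ y := fun r =>
    hUNI (b r) (dfam 1 (a r)) (hLb r) (hL1 r) fun p => by
      rw [← hD1 r p]
      exact ((hb1 r).eq p).symm
  have hF1 : ∀ r, Fam (dfam 1 (a r)) := fun r =>
    (hCNG (b r) (dfam 1 (a r)) (hE r)).1 (hb1 r).fam
  have hN1 : ∀ r j, NN (b r) j = NN (dfam 1 (a r)) j := fun r =>
    (hCNG (b r) (dfam 1 (a r)) (hE r)).2.1
  have hF : ∀ r, Fam (dfam (-1) (a r)) := fun r => (hFDD (a r) (ha1 r).fam (hF1 r)).1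
  refine ⟨by positivity, fun r => dfam (-1) (a r), fun r => ⟨hF r, hDm r⟩, fun j => ?_⟩
  -- Minkowski with six terms
  have h16 : (0 : ℝ) ≤ 16 := by norm_num
  have hs := hMIN ι (Fin 6)
    (fun r => ![ENNReal.ofReal 16 * NN (a r) (j - 1), ENNReal.ofReal 16 * NN (a r) (j + 1),
      ENNReal.ofReal 16 * NN (b r) (j - 1), ENNReal.ofReal 16 * NN (b r) j,
      ENNReal.ofReal 16 * NN (b r) (j + 1), ENNReal.ofReal 1 * NN (b r) j])
    ![16 * c, 16 * c, 16 * c', 16 * c', 16 * c', 1 * c']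
    (16 * c + 16 * c + 16 * c' + 16 * c' + 16 * c' + 1 * c')
    (by intro m; fin_cases m <;> simp <;> positivity)
    (by
      have h := hasSum_fintype ![16 * c, 16 * c, 16 * c', 16 * c', 16 * c', 1 * c']
      simpa [Fin.sum_univ_succ, add_assoc] using h)
    (by
      intro m
      fin_cases m
      · exact sq_mul (fun r => NN (a r) (j - 1)) 16 c h16 (ha2 _)
      · exact sq_mul (fun r => NN (a r) (j + 1)) 16 c h16 (ha2 _)
      · exact sq_mul (fun r => NN (b r) (j - 1)) 16 c' h16 (hb2 _)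
      · exact sq_mul (fun r => NN (b r) j) 16 c' h16 (hb2 _)
      · exact sq_mul (fun r => NN (b r) (j + 1)) 16 c' h16 (hb2 _)
      · exact sq_mul (fun r => NN (b r) j) 1 c' zero_le_one (hb2 _))
  refine le_trans (Finset.sum_le_sum fun r _ => pow_le_pow_left' ?_ 2) (le_trans hs ?_)
  · refine le_trans ((hFDD (a r) (ha1 r).fam (hF1 r)).2 j) (le_of_eq ?_)
    rw [← hN1 r, ← hN1 r, ← hN1 r, tsum_fintype]
    simp [Fin.sum_univ_succ]
    ring
  · refine ENNReal.ofReal_le_ofReal (pow_le_pow_left₀ (by positivity) ?_ 2)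
    linarith

end Pool.Agent.HSD
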