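import Pool.Agent.HSD.Lib

/-!
# Project HSD: targets of the abstract part

Everything here is commutative algebra with norm predicates; `Lib.lean` contains the rules
(`Ax.N_add`, `Ax.V_ip`, ..., and the calculus `Ctx.Nadd`, `Ctx.Vip`, ... of orders `K^n ε^k`).
Each target is a `def T_xxx : Prop`; the docstring contains the proof.
-/

set_option autoImplicit false

namespace Pool.Agent.HSD

open Complex

/-! ## Structures -/

section

variable {ι R : Type} [Fintype ι] [CommRing R] [StarRing R] [Algebra ℂ R]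

/-- `(u, Y)` solves the integral form of the system, with finite norms. -/
structure Sol (d : Dat ι R) (l : R) (u0 u Y : ι → R) (c : ℝ) : Prop where
  fu : u = u0 + fun r => d.S (l * Y r)
  fY : Y = fun r => d.S2 (star l * u r)
  Vu : d.V u c
  VY : d.V Y c

/-- `χ` is real and close to `1`, with derivative. -/
structure Good (d : Dat ι R) (e : ℝ) (χ : R) : Prop where
  real : star χ = χ
  near : d.N (χ - 1) e
  der : d.N (d.D χ) e

/-- All objects belonging to `χ`: `l`, the solution `(u, Y)` and the inverse `i` of `Δ`. -/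
structure Pt (d : Dat ι R) (u0 : ι → R) (χ l : R) (u Y : ι → R) (i : R) (c : ℝ) : Prop where
  hl : 2 * l * χ = d.D χ
  sol : Sol d l u0 u Y c
  inv : dl u Y * i = 1

/-- The basic estimates for `u` and `Y`. -/
structure E1 (d : Dat ι R) (K ε : ℝ) (u0 u Y : ι → R) : Prop where
  bu0 : d.V u0 K
  Du0 : d.V (dv d.D u0) K
  Dbu0 : d.V (dv d.Db u0) K
  bu : d.V u K
  bY : d.V Y (K * ε)
  DY : d.V (dv d.D Y) (K * ε)
  DbY : d.V (dv d.Db Y) (K * ε)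
  bU : d.V (u - u0) (K * ε ^ 2)
  DU : d.V (dv d.D (u - u0)) (K * ε ^ 2)
  DbU : d.V (dv d.Db (u - u0)) (K * ε ^ 2)

/-- Estimates for `q` and `p`. -/
structure E2 (d : Dat ι R) (K ε : ℝ) (u0 u Y : ι → R) : Prop where
  q0 : d.N (qq u0 0) K
  Dq0 : d.N (d.D (qq u0 0)) K
  dq : d.N (qq u Y - qq u0 0) (K * ε ^ 2)
  Ddq : d.N (d.D (qq u Y - qq u0 0)) (K * ε ^ 2)
  p : d.N (pp u Y) (K * ε)
  Dp : d.N (d.D (pp u Y)) (K * ε)
  Dbp : d.N (d.Db (pp u Y)) (K * ε)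

/-- Estimates for the inverse `i` of `Δ` and the inverse `j` of `Δ₀ = q₀^2`. -/
structure E3 (d : Dat ι R) (K ε : ℝ) (i j : R) : Prop where
  bi : d.N i K
  bj : d.N j K
  Dj : d.N (d.D j) K
  di : d.N (i - j) (K * ε ^ 2)
  Ddi : d.N (d.D (i - j)) (K * ε ^ 2)

/-- Estimates for the coefficients `a` and `b`. -/
structure E4 (d : Dat ι R) (K ε : ℝ) (u0 u Y : ι → R) (i j : R) : Prop where
  a0 : d.N (ca d u0 0 j) K
  da : d.N (ca d u Y i - ca d u0 0 j) (K * ε ^ 2)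
  b : d.N (cb d u Y i) (K * ε)

/-- Estimates for `ω₁`, `ω₂` and `W`. -/
structure E5 (d : Dat ι R) (K ε : ℝ) (u0 u Y : ι → R) (i j : R) : Prop where
  w10 : d.V (w1 d u0 0 j) K
  dw1 : d.V (w1 d u Y i - w1 d u0 0 j) (K * ε ^ 2)
  w2 : d.V (w2 d u Y i) (K * ε)
  W0 : d.N (ww d u0 0 j) K
  dW : d.N (ww d u Y i - ww d u0 0 j) (K * ε ^ 2)

/-- Estimates for the derivatives of `ω₁`, `ω₂`. -/
structure E6 (d : Dat ι R) (K ε : ℝ) (u0 u Y : ι → R) (i j : R) : Prop where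
  Dw10 : d.V (dv d.D (w1 d u0 0 j)) K
  Dbw10 : d.V (dv d.Db (w1 d u0 0 j)) K
  Ddw1 : d.V (dv d.D (w1 d u Y i - w1 d u0 0 j)) (K * ε ^ 2)
  Dbdw1 : d.V (dv d.Db (w1 d u Y i - w1 d u0 0 j)) (K * ε ^ 2)
  Dw2 : d.V (dv d.D (w2 d u Y i)) (K * ε)
  Dbw2 : d.V (dv d.Db (w2 d u Y i)) (K * ε)

/-- Estimates for `D W`. -/
structure E7 (d : Dat ι R) (K ε : ℝ) (u0 u Y : ι → R) (i j : R) : Prop where
  DW0 : d.N (d.D (ww d u0 0 j)) K
  DdW : d.N (d.D (ww d u Y i - ww d u0 0 j)) (K * ε ^ 2)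

/-- Estimates for `T - T₀`. -/
structure E8 (d : Dat ι R) (K ε : ℝ) (u0 u Y : ι → R) (i j : R) : Prop where
  dT : d.N (tt d u Y i - tt d u0 0 j) (K * ε ^ 2)
  DdT : d.N (d.D (tt d u Y i - tt d u0 0 j)) (K * ε ^ 2)

/-! ### The case `Y = 0` -/

theorem qq_zero (u : ι → R) : qq u 0 = ip u (star u) := by
  simp [qq, ip_zero_left]
theorem pp_zero (u : ι → R) : pp u 0 = 0 := by
  simp [pp, ip_zero_right]
theorem dl_zero (u : ι → R) : dl u 0 = qq u 0 ^ 2 := by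
  simp [dl, pp_zero]
theorem aA_zero (d : Dat ι R) (u : ι → R) : aA d u 0 = ip (dv d.D u) (star u) := by
  simp [aA, ip_zero_right]
theorem bB_zero (d : Dat ι R) (u : ι → R) : bB d u 0 = 0 := by
  simp [bB, ip_zero_right, ip_zero_left, dv_zero]
theorem ca_zero (d : Dat ι R) (u : ι → R) (j : R) :
    ca d u 0 j = qq u 0 * aA d u 0 * j := by
  simp [ca, bB_zero]
theorem cb_zero (d : Dat ι R) (u : ι → R) (j : R) : cb d u 0 j = 0 := by
  simp [cb, bB_zero, pp_zero]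
theorem w1_zero (d : Dat ι R) (u : ι → R) (j : R) :
    w1 d u 0 j = dv d.D u - ca d u 0 j • u := by
  simp [w1, cb_zero]
theorem w2_zero (d : Dat ι R) (u : ι → R) (j : R) : w2 d u 0 j = 0 := by
  simp [w2, cb_zero, dv_zero]
theorem ww_zero (d : Dat ι R) (u : ι → R) (j : R) :
    ww d u 0 j = ip (w1 d u 0 j) (star (w1 d u 0 j)) := by
  simp [ww, w2_zero, ip_zero_left]
theorem sys_zero {d : Dat ι R} {u : ι → R} (h : Sys0 d u) : Sys d 0 u 0 :=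
  ⟨by rw [h]; simp, by simp [dv_zero]⟩

end

/-! ## Part A: algebra -/

/-- ORT. The vectors `ω = (ω₁, ω₂)` are orthogonal to `e₁ = (u, Y*)` and `e₂ = (Y, u*)`.
Proof: `ip (w1) (star u) + ip (w2) Y = A - a q - b p*` and
`ip (w1) (star Y) + ip (w2) u = B - a p - b q` by bilinearity (`ip_sub_left`, `ip_smul_left`,
`ip_comm`; note `p = 2 ip u (star Y)`, `p* = 2 ip (star u) Y`), and with
`a = (q A - p* B) i`, `b = (q B - p A) i`, `(q^2 - p p*) i = 1` both vanish (linear_combination). -/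
def T_ORT : Prop := ∀ (ι R : Type) [Fintype ι] [CommRing R] [StarRing R] [Algebra ℂ R]
  (d : Dat ι R) (u Y : ι → R) (i : R), dl u Y * i = 1 →
    ip (w1 d u Y i) (star u) + ip (w2 d u Y i) Y = 0 ∧
      ip (w1 d u Y i) (star Y) + ip (w2 d u Y i) u = 0

/-- TAN. Up to tangential terms, `Db ω = i ω - b J ω`. Write `e₁ = (u, Y*)`, `e₂ = (Y, u*)`,
`J (v, v') = (v'*, v*)`, so `D e₁ = ω + a e₁ + b e₂`, `Db e₁ = (i/2) e₁ + l e₂`,
`Db e₂ = J (D e₁) = J ω + a* e₂ + b* e₁`, `D e₂ = J (Db e₁) = -(i/2) e₂ + l* e₁`, and by `comm`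
`Db D e₁ = D Db e₁ + (i/2) (D e₁ + Db e₁) = i D e₁ + (D l) e₂ + (l l* - 1/4) e₁`. Hence
`Db ω = Db D e₁ - (Db a) e₁ - a Db e₁ - (Db b) e₂ - b Db e₂ = i ω - b J ω + α e₁ + β e₂` with
`α = (i/2) a + l l* - 1/4 - Db a - b b*`, `β = i b + D l - a l - Db b - b a*`
(`1/4` is `-(cst (I/2))^2`). Work componentwise with `linear_combination`; the equations for
`D (Y*)`, `Db (Y*)`, `D (u*)`, `Db (u*)` come from `Ax.D_star`, `Ax.Db_star` and `star_Ihalf`. -/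
def T_TAN : Prop := ∀ (ι R : Type) [Fintype ι] [CommRing R] [StarRing R] [Algebra ℂ R]
  (CE CS : ℝ) (d : Dat ι R) (l : R) (u Y : ι → R) (i : R),
  Ax CE CS d → Sys d l u Y → dl u Y * i = 1 → ∃ α β : R,
    dv d.Db (w1 d u Y i) = cst R I • w1 d u Y i - cb d u Y i • star (w2 d u Y i) +
      α • u + β • Y ∧
    dv d.Db (w2 d u Y i) = cst R I • w2 d u Y i - cb d u Y i • star (w1 d u Y i) +
      α • star Y + β • star u

/-- COD, the Codazzi equations. Proof: take `α`, `β` from TAN. The product with `e₁*`: since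
`ip (w1) (star u) + ip (w2) Y = 0` (ORT), applying `Db` gives
`<Db ω, e₁> = -(ip (w1) (star (D u)) + ip (w2) (D (Y*))*) = -<ω, D e₁> = -W` by ORT again
(`D e₁ = ω + a e₁ + b e₂`), while `<i ω - b J ω, e₁> = 0` (the products
`ip (star w2) (star u) + ip (star w1) Y` is the star of `ip (w1) (star Y) + ip (w2) u`). So
`α q + β p* = -W`; similarly (`D e₂` is a combination of `e₁`, `e₂`) `α p + β q = 0`.
Multiply by `i`, `(q^2 - p p*) i = 1`: `α = -q W i`, `β = p W i`. Take T_ORT, T_TAN as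
hypotheses. -/
def T_COD : Prop := ∀ (ι R : Type) [Fintype ι] [CommRing R] [StarRing R] [Algebra ℂ R]
  (CE CS : ℝ) (d : Dat ι R) (l : R) (u Y : ι → R) (i : R),
  Ax CE CS d → Sys d l u Y → dl u Y * i = 1 →
    dv d.Db (w1 d u Y i) = cst R I • w1 d u Y i - cb d u Y i • star (w2 d u Y i) -
      (qq u Y * ww d u Y i * i) • u + (pp u Y * ww d u Y i * i) • Y ∧
    dv d.Db (w2 d u Y i) = cst R I • w2 d u Y i - cb d u Y i • star (w1 d u Y i) -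
      (qq u Y * ww d u Y i * i) • star Y + (pp u Y * ww d u Y i * i) • star u

/-- REA. `T` is real. Proof: `star q = q`, `star Δ = Δ`, `star W = W` (by `star_ip`, `ip_comm`),
and `star i = i` by uniqueness of inverses. -/
def T_REA : Prop := ∀ (ι R : Type) [Fintype ι] [CommRing R] [StarRing R] [Algebra ℂ R]
  (d : Dat ι R) (u Y : ι → R) (i : R), dl u Y * i = 1 →
    star i = i ∧ star (qq u Y) = qq u Y ∧ star (tt d u Y i) = tt d u Y i

/-- SYS. The integral form implies the differential form: `Db u = Db u0 + Db (S (l Y)) =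
(i/2) u0 + (i/2) S (l Y) + l Y`, and `D Y = -(i/2) Y + l* u` by `Ax.S2_eq`. -/
def T_SYS : Prop := ∀ (ι R : Type) [Fintype ι] [CommRing R] [StarRing R] [Algebra ℂ R]
  (CE CS : ℝ) (d : Dat ι R) (l : R) (u0 u Y : ι → R) (c c' : ℝ),
  Ax CE CS d → Sys0 d u0 → d.N l c' → Sol d l u0 u Y c → Sys d l u Y

/-! ## Part B: estimates -/

/-- ABS. Absorbing. Proof: if `V u c` and `V Y c` then `V Y (CS ε c)`, `V u (A + CS ε c)`; so
from `V u x` one gets `V Y (CS ε x)` and `V u (A + (CS ε)^2 x)` with `(CS ε)^2 ≤ 1/4`. By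
induction `V u (4 A / 3 + c / 4^k)` for all `k`; take `k` with `c / 4^k ≤ 2 A / 3`. Then
`V Y (CS ε (2 A))`. (`fun r => l * Y r` is `l • Y`.) -/
def T_ABS : Prop := ∀ (ι R : Type) [Fintype ι] [CommRing R] [StarRing R] [Algebra ℂ R]
  (CE CS A ε c : ℝ) (d : Dat ι R) (l : R) (u0 u Y : ι → R),
  Ax CE CS d → 0 ≤ ε → CS * ε ≤ 1 / 2 → 0 < A → d.N l ε → d.V u0 A → Sol d l u0 u Y c →
    d.V u (2 * A) ∧ d.V Y (2 * CS * A * ε)

/-- EXI. Existence for the system. Proof: `F u = u0 + S (l S2 (l* u))` satisfies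
`V (F u - F u') (θ c)` if `V (u - u') c` with `θ = (CS ε)^2 ≤ 1/4` (for `u`, `u'` of finite norm,
by `S_sub`, `S2_sub`). Put `v 0 = u0`, `v (k+1) = F (v k)`; `V (v (k+1) - v k) (A / 2^k)`, so
`cplV` gives `w` with `V (w - v k) (2 A / 2^k)`. Then `w - F w = (w - v (k+1)) + (F (v k) - F w)`
has norm at most `4 A / 2^k` for all `k`, so `w = F w` by `V_zero`. Take `u = w`,
`Y = S2 (l* w)`; `V u (3 A)`, `V Y (3 A / 2)`. -/
def T_EXI : Prop := ∀ (ι R : Type) [Fintype ι] [CommRing R] [StarRing R] [Algebra ℂ R]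
  (CE CS A ε : ℝ) (d : Dat ι R) (l : R) (u0 : ι → R),
  Ax CE CS d → Cpl d → 0 ≤ ε → CS * ε ≤ 1 / 2 → 0 < A → d.N l ε → d.V u0 A →
    ∃ u Y : ι → R, Sol d l u0 u Y (3 * A)

/-- LOG. The coefficient `l = (1/2) (D χ) / χ`. Proof: `N (1 - χ) e`, so `χ g = 1` with
`N g (1 / (1 - e))`; `l = cst (1/2) * D χ * g` satisfies `2 l χ = D χ` and
`N l ((1/2) e / (1 - e))`, which is at most `e`. If `2 l χ = D χ` then `l = cst (1/2) * D χ * g`.
-/
def T_LOG : Prop := ∀ (ι R : Type) [Fintype ι] [CommRing R] [StarRing R] [Algebra ℂ R]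
  (CE CS e : ℝ) (d : Dat ι R) (χ : R), Ax CE CS d → e ≤ 1 / 4 → Good d e χ →
    (∃ l : R, 2 * l * χ = d.D χ) ∧ ∀ l : R, 2 * l * χ = d.D χ → d.N l e

/-- E1. Proof: ABS gives `V u (2A)`, `V Y (2 CS A ε)`. `u - u0 = S (l Y)` has norm
`≤ CS ε 2 CS A ε`; by the system `Db (u - u0) = (i/2) (u - u0) + l Y`, so `V (Db (u - u0))`
is `O(ε²)`, and `V_D` gives `D (u - u0)`. `D Y = -(i/2) Y + l* u` is `O(ε)` and `V_Db` gives
`Db Y`. Finally `Db u0 = (i/2) u0`, `V_D`. Take T_ABS, T_SYS as hypotheses. -/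
def T_E1 : Prop := ∀ CE CS A : ℝ, 1 ≤ A → ∃ K : ℝ, 2 ≤ K ∧ CE ≤ K ∧ CS ≤ K ∧
  ∀ (ι R : Type) [Fintype ι] [CommRing R] [StarRing R] [Algebra ℂ R]
    (ε c : ℝ) (d : Dat ι R) (l : R) (u0 u Y : ι → R),
    Ax CE CS d → 0 ≤ ε → ε ≤ 1 → CS * ε ≤ 1 / 2 → d.N l ε → Sys0 d u0 → d.V u0 A →
      Sol d l u0 u Y c → E1 d K ε u0 u Y

/-- E2. Proof: with `U = u - u0`: `q - q0 = ip U (star u) + ip u0 (star U) + ip Y (star Y)`,
`p = 2 ip u (star Y)`; differentiate by `der_ip`, `dvD_star`, `dvDb_star` (`Db u = Db u0 + Db U`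
etc.). All is in the calculus `Ctx`: take `K' = K ^ m` with a large explicit `m`. -/
def T_E2 : Prop := ∀ CE CS K : ℝ, 2 ≤ K → CE ≤ K → CS ≤ K → ∃ K' : ℝ, K ≤ K' ∧
  ∀ (ι R : Type) [Fintype ι] [CommRing R] [StarRing R] [Algebra ℂ R]
    (ε : ℝ) (d : Dat ι R) (u0 u Y : ι → R),
    Ax CE CS d → 0 ≤ ε → ε ≤ 1 → E1 d K ε u0 u Y → E2 d K' ε u0 u Y

/-- E3. Proof: `Δ₀ - 1 = (q0 - 1)(q0 + 1)` has norm at most `(1/16)(2 + 1/16) ≤ 1/7`;
`Δ - Δ₀ = (q - q0)(q + q0) - p p*` and its `D`-derivative are `O(ε²)`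
(`D (p*) = (Db p)*`). For `ε ≤ ε₀` we get `N (1 - Δ) (1/2)`: this is the first conclusion, and
by `N_inv` and `inv_unique` the inverses `i`, `j` have norms at most `2`.
`i - j = i j (Δ₀ - Δ)` (`inv_sub`), `D j = -j² D Δ₀`,
`D (i - j) = -i² D (Δ - Δ₀) - (i - j)(i + j) D Δ₀` (`der_inv`). -/
def T_E3 : Prop := ∀ CE CS K : ℝ, 2 ≤ K → CE ≤ K → CS ≤ K → ∃ K' ε₀ : ℝ, K ≤ K' ∧ 0 < ε₀ ∧
  ∀ (ι R : Type) [Fintype ι] [CommRing R] [StarRing R] [Algebra ℂ R]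
    (ε : ℝ) (d : Dat ι R) (u0 u Y : ι → R),
    Ax CE CS d → 0 ≤ ε → ε ≤ 1 → ε ≤ ε₀ → E2 d K ε u0 u Y → d.N (qq u0 0 - 1) (1 / 16) →
      d.N (1 - dl u Y) (1 / 2) ∧
        ∀ i j : R, dl u Y * i = 1 → dl u0 0 * j = 1 → E3 d K' ε i j

/-- E4. Proof: `A - A₀ = ip (D U) (star u) + ip (D u0) (star U) + ip (D (Y*)) Y` (with
`U = u - u0`, `D (Y*) = (Db Y)*`) is `O(ε²)`, `A₀` is bounded, `B` is `O(ε)` (and `B = 0` for
`(u0, 0)`); `a - a₀ = (q A - q0 A₀) i + q0 A₀ (i - j) - p* B i`, `b = (q B - p A) i`. -/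
def T_E4 : Prop := ∀ CE CS K : ℝ, 2 ≤ K → CE ≤ K → CS ≤ K → ∃ K' : ℝ, K ≤ K' ∧
  ∀ (ι R : Type) [Fintype ι] [CommRing R] [StarRing R] [Algebra ℂ R]
    (ε : ℝ) (d : Dat ι R) (u0 u Y : ι → R) (i j : R),
    Ax CE CS d → 0 ≤ ε → ε ≤ 1 → E1 d K ε u0 u Y → E2 d K ε u0 u Y → E3 d K ε i j →
      E4 d K' ε u0 u Y i j

/-- E5. Proof: `ω₁⁰ = D u0 - a₀ u0`, `ω₁ - ω₁⁰ = D U - (a - a₀) u - a₀ U - b Y`,
`ω₂ = (Db Y)* - a Y* - b u*`; for `(u0, 0)` one has `b = 0` and `ω₂ = 0` (use `cb d u0 0 j = 0`).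
`W - W₀ = ip (ω₁ - ω₁⁰) ω₁* + ip ω₁⁰ (ω₁ - ω₁⁰)* + ip ω₂ ω₂*`. (See `ca_zero`, `cb_zero`,
`w1_zero`, `w2_zero`, `ww_zero` above.) -/
def T_E5 : Prop := ∀ CE CS K : ℝ, 2 ≤ K → CE ≤ K → CS ≤ K → ∃ K' : ℝ, K ≤ K' ∧
  ∀ (ι R : Type) [Fintype ι] [CommRing R] [StarRing R] [Algebra ℂ R]
    (ε : ℝ) (d : Dat ι R) (u0 u Y : ι → R) (i j : R),
    Ax CE CS d → 0 ≤ ε → ε ≤ 1 → E1 d K ε u0 u Y → E4 d K ε u0 u Y i j →
      E5 d K' ε u0 u Y i j

/-- E6. Proof: COD (hypothesis T_COD) for `(l, u, Y, i)` and for `(0, u0, 0, j)`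
(`Sys d 0 u0 0` holds by `sys_zero`). The difference of the equations for `Db ω₁`:
`Db (ω₁ - ω₁⁰) = i (ω₁ - ω₁⁰) - b ω₂* - (q W i u - q0 W₀ j u0) + p W i Y` is `O(ε²)`;
`Db ω₂ = i ω₂ - b ω₁* - q W i Y* + p W i u*` is `O(ε)`; then `V_D`. -/
def T_E6 : Prop := ∀ CE CS K : ℝ, 2 ≤ K → CE ≤ K → CS ≤ K → ∃ K' : ℝ, K ≤ K' ∧
  ∀ (ι R : Type) [Fintype ι] [CommRing R] [StarRing R] [Algebra ℂ R]
    (ε : ℝ) (d : Dat ι R) (l : R) (u0 u Y : ι → R) (i j : R),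
    Ax CE CS d → 0 ≤ ε → ε ≤ 1 → Sys0 d u0 → Sys d l u Y → dl u Y * i = 1 →
      dl u0 0 * j = 1 → E1 d K ε u0 u Y → E2 d K ε u0 u Y → E3 d K ε i j →
        E4 d K ε u0 u Y i j → E5 d K ε u0 u Y i j → E6 d K' ε u0 u Y i j

/-- E7. Proof: `W - W₀` as in E5; differentiate by `der_ip` and `D (v*) = (Db v)*`. -/
def T_E7 : Prop := ∀ CE CS K : ℝ, 2 ≤ K → CE ≤ K → CS ≤ K → ∃ K' : ℝ, K ≤ K' ∧
  ∀ (ι R : Type) [Fintype ι] [CommRing R] [StarRing R] [Algebra ℂ R]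
    (ε : ℝ) (d : Dat ι R) (u0 u Y : ι → R) (i j : R),
    Ax CE CS d → 0 ≤ ε → ε ≤ 1 → E5 d K ε u0 u Y i j → E6 d K ε u0 u Y i j →
      E7 d K' ε u0 u Y i j

/-- E8. Proof: `T - T₀ = 2 (W - W₀) i + 2 W₀ (i - j)` and the Leibniz rule
(`D i = D (i - j) + D j`). -/
def T_E8 : Prop := ∀ CE CS K : ℝ, 2 ≤ K → CE ≤ K → CS ≤ K → ∃ K' : ℝ, K ≤ K' ∧
  ∀ (ι R : Type) [Fintype ι] [CommRing R] [StarRing R] [Algebra ℂ R]
    (ε : ℝ) (d : Dat ι R) (u0 u Y : ι → R) (i j : R),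
    Ax CE CS d → 0 ≤ ε → ε ≤ 1 → E3 d K ε i j → E5 d K ε u0 u Y i j →
      E7 d K ε u0 u Y i j → E8 d K' ε u0 u Y i j

/-- STE. Assembly of E1-E8. Hypotheses T_LOG, T_SYS, T_COD, T_E1, ..., T_E8. Choose the
constants one after the other; all structures `E1, ..., E7` are monotone in `K`
(prove `E1.mono` etc. with `N_mono`, `V_mono`, `mul_le_mul_of_nonneg_right`), so they can be
lifted to the current constant. `ε = e`; `N l e` by T_LOG; `Sys d l u Y` by T_SYS. The last two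
conclusions are `E2.dq`, `E2.p`. `e₀` is the minimum of `1/4`, `1 / (2 CS)` and the `ε₀`
of E3. -/
def T_STE : Prop := ∀ CE CS A : ℝ, 1 ≤ CS → 1 ≤ A → ∃ K e₀ : ℝ, 1 ≤ K ∧ 0 < e₀ ∧ e₀ ≤ 1 / 4 ∧
  ∀ (ι R : Type) [Fintype ι] [CommRing R] [StarRing R] [Algebra ℂ R]
    (d : Dat ι R) (u0 : ι → R) (j : R), Ax CE CS d → Sys0 d u0 → d.V u0 A →
    d.N (qq u0 0 - 1) (1 / 16) → dl u0 0 * j = 1 →
      ∀ (e c : ℝ) (χ l : R) (u Y : ι → R) (i : R), 0 ≤ e → e ≤ e₀ → Good d e χ →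
        Pt d u0 χ l u Y i c →
          d.N (tt d u Y i - tt d u0 0 j) (K * e ^ 2) ∧
          d.N (d.D (tt d u Y i - tt d u0 0 j)) (K * e ^ 2) ∧
          d.N (qq u Y - qq u0 0) (K * e ^ 2) ∧ d.N (pp u Y) (K * e)

/-- PTX. Existence of all objects for a given `χ`. Proof: T_LOG gives `l` with `N l e`; T_EXI
gives `(u, Y)`; T_E1, T_E2, T_E3 (with `ε = e`, lifted constants) give `N (1 - Δ) (1/2)`, and
`N_inv` the inverse `i`. Hypotheses: T_LOG, T_EXI, T_E1, T_E2, T_E3. -/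
def T_PTX : Prop := ∀ CE CS A : ℝ, 1 ≤ CS → 1 ≤ A → ∃ e₀ : ℝ, 0 < e₀ ∧
  ∀ (ι R : Type) [Fintype ι] [CommRing R] [StarRing R] [Algebra ℂ R]
    (d : Dat ι R) (u0 : ι → R), Ax CE CS d → Cpl d → Sys0 d u0 → d.V u0 A →
    d.N (qq u0 0 - 1) (1 / 16) →
      ∀ (e : ℝ) (χ : R), 0 ≤ e → e ≤ e₀ → Good d e χ →
        ∃ (l : R) (u Y : ι → R) (i : R) (c : ℝ), Pt d u0 χ l u Y i c

/-- BAS. The base curvature. Here `u = u0`, `q = qq u 0 = ip u (star u)`,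
`z = ip (dv D u) (star u)`, `n = ip (dv D u) (star (dv D u))`, `z2 = ip (dv D (dv D u)) (star u)`,
`n1 = ip (dv D (dv D u)) (star (dv D u))`; `h = cst (I/2)`. Proof: `Db u = h u` and
`Db D u = D Db u + h (D u + Db u) = 2 h D u + h^2 u` (`= i D u - u/4`). With `j q^2 = 1`:
`a = q z j`, `b = 0`, `w2 = 0`, `W = n - q j z z*`, `T = 2 W j`. Derivatives:
`D q = z - h q`, `D z = z2 - h z`, `D (z*) = (Db z)*` with `Db z = 2 h z + h^2 q + n`,
`D n = n1 + ip (D u) (star (2 h D u + h^2 u)) = n1 - 2 h n + h^2 z`.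
The elements `q - 1`, `z - i/2`, `n - 3/4`, `j - 1`, and therefore `W - 1/2`, `T - 1` are `O(η)`
(`j - 1 = j (1 - q^2)`, `N j 2` from `N_inv` and uniqueness); so are
`D q = (z - i/2) - h (q - 1)`, `D z = (z2 + 1/4) - h (z - i/2)`,
`Db z = 2 h (z - i/2) + h^2 (q - 1) + (n - 3/4)`,
`D n = (n1 - 7i/8) - 2 h (n - 3/4) + h^2 (z - i/2)`, `D j = -j^2 2 q D q` and `D T`. Any
absolute constant (for instance `10^6`) is fine. -/
def T_BAS : Prop := ∃ K : ℝ, 1 ≤ K ∧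
  ∀ (ι R : Type) [Fintype ι] [CommRing R] [StarRing R] [Algebra ℂ R]
    (CE CS η : ℝ) (d : Dat ι R) (u : ι → R) (j : R), Ax CE CS d → Sys0 d u → 0 ≤ η →
    η ≤ 1 / 16 → dl u 0 * j = 1 →
    d.N (qq u 0 - 1) η → d.N (ip (dv d.D u) (star u) - cst R (I / 2)) η →
    d.N (ip (dv d.D u) (star (dv d.D u)) - cst R (3 / 4)) η →
    d.N (ip (dv d.D (dv d.D u)) (star u) + cst R (1 / 4)) η →
    d.N (ip (dv d.D (dv d.D u)) (star (dv d.D u)) - cst R (7 * I / 8)) η →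
      d.N (tt d u 0 j - 1) (K * η) ∧ d.N (d.D (tt d u 0 j)) (K * η)

/-! ## Part C: the pair structure and the fixed point -/

section

variable {ι R : Type} [Fintype ι] [CommRing R] [StarRing R] [Algebra ℂ R]

/-- A derivation acting on pairs. -/
def prDer (δ : Derivation ℂ R R) : Derivation ℂ (R × R) (R × R) :=
  Derivation.mk' ((δ : R →ₗ[ℂ] R).prodMap (δ : R →ₗ[ℂ] R)) (by
    intro a b
    ext <;> simp)

/-- The structure on pairs, with the norm `max (N f) (N f') + t N (f - f')`. -/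
def prD (d : Dat ι R) (t : ℝ) : Dat ι (R × R) where
  D := prDer d.D
  Db := prDer d.Db
  S := fun h => (d.S h.1, d.S h.2)
  N := fun f c => ∃ c1 c2 : ℝ, d.N f.1 c1 ∧ d.N f.2 c1 ∧ d.N (f.1 - f.2) c2 ∧ c1 + t * c2 ≤ c
  V := fun v c => ∃ c1 c2 : ℝ, d.V (fun r => (v r).1) c1 ∧ d.V (fun r => (v r).2) c1 ∧
    d.V (fun r => (v r).1 - (v r).2) c2 ∧ c1 + t * c2 ≤ c

end

/-- PAX. The pair structure satisfies the axioms with the same constants. Proof: every field is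
checked on both components and on the difference. Products:
`f g - f' g' = (f - f') g + f' (g - g')` has norm `≤ c2 d1 + c1 d2`, and
`c1 d1 + t (c2 d1 + c1 d2) ≤ (c1 + t c2) (d1 + t d2)`. Inverses: `c1 + t c2 ≤ c < 1` for
`1 - f`; `g`, `g'` with norms `≤ 1 / (1 - c1)`, `g - g' = g g' (f' - f)` has norm
`≤ c2 / (1 - c1)^2` and `1 / (1 - c1) + t c2 / (1 - c1)^2 ≤ 1 / (1 - c1 - t c2)`. For `S` use
`S_sub`. (`N_cst`: difference `0`, `N_zero_of`.) -/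
def T_PAX : Prop := ∀ (ι R : Type) [Fintype ι] [CommRing R] [StarRing R] [Algebra ℂ R]
  (CE CS t : ℝ) (d : Dat ι R), 0 ≤ t → Ax CE CS d → Ax CE CS (prD d t)

/-- PPT. Pairs of points. `(χ, χ')` is good with constant `2 e` in the pair structure with
`t = e / δ` and the pairs of all objects form a point. Proof: the equations hold
componentwise (`S2` on pairs is componentwise); the norms: `c1 = e`, `c2 = δ`, and
`e + (e / δ) δ = 2 e`; finite norms of pairs: `c1 = max c c'`, `c2 = c + c'`. The last three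
conclusions are `c1 = A`, `c2 = 0`. -/
def T_PPT : Prop := ∀ (ι R : Type) [Fintype ι] [CommRing R] [StarRing R] [Algebra ℂ R]
  (CE CS A e δ c c' : ℝ) (d : Dat ι R) (u0 : ι → R) (χ χ' l l' : R) (u Y u' Y' : ι → R)
  (i i' j : R),
  Ax CE CS d → 0 ≤ e → 0 < δ → Good d e χ → Good d e χ' → d.N (χ - χ') δ →
    d.N (d.D χ - d.D χ') δ → Pt d u0 χ l u Y i c → Pt d u0 χ' l' u' Y' i' c' →
    Sys0 d u0 → d.V u0 A → d.N (qq u0 0 - 1) (1 / 16) → dl u0 0 * j = 1 →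
      Good (prD d (e / δ)) (2 * e) (χ, χ') ∧
      (∃ c'' : ℝ, Pt (prD d (e / δ)) (fun r => (u0 r, u0 r)) (χ, χ') (l, l')
        (fun r => (u r, u' r)) (fun r => (Y r, Y' r)) (i, i') c'') ∧
      Sys0 (prD d (e / δ)) (fun r => (u0 r, u0 r)) ∧
      (prD d (e / δ)).V (fun r => (u0 r, u0 r)) A ∧
      (prD d (e / δ)).N (qq (fun r => (u0 r, u0 r)) (0 : ι → R × R) - 1) (1 / 16) ∧
      dl (fun r => (u0 r, u0 r)) (0 : ι → R × R) * (j, j) = 1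

/-- LIP. Lipschitz estimate. Proof: if `e = 0` then `T = T₀ = T'` by T_STE (norm zero) and
the claim is clear, also `D T = D T'`; let `e > 0`. Apply T_STE in the pair structure
`prD d (e / δ)` (T_PAX, T_PPT) with `2 e`: the third component of the norm of
`(T - T₀, T' - T₀)` gives `(e / δ) N (T - T') ≤ K (2 e)^2`, i.e. `N (T - T') (4 K e δ)`; the
same for `D`. (`tt` of the pair is the pair of the `tt`: componentwise.) Use the constant
`4 K` and `e₀ / 2`. Hypotheses: T_STE, T_PAX, T_PPT. -/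
def T_LIP : Prop := ∀ CE CS A : ℝ, 1 ≤ CS → 1 ≤ A → ∃ K e₀ : ℝ, 1 ≤ K ∧ 0 < e₀ ∧
  ∀ (ι R : Type) [Fintype ι] [CommRing R] [StarRing R] [Algebra ℂ R]
    (d : Dat ι R) (u0 : ι → R) (j : R), Ax CE CS d → Sys0 d u0 → d.V u0 A →
    d.N (qq u0 0 - 1) (1 / 16) → dl u0 0 * j = 1 →
      ∀ (e δ c c' : ℝ) (χ χ' l l' : R) (u Y u' Y' : ι → R) (i i' : R),
        0 ≤ e → e ≤ e₀ → 0 < δ → Good d e χ → Good d e χ' → d.N (χ - χ') δ →
        d.N (d.D χ - d.D χ') δ → Pt d u0 χ l u Y i c → Pt d u0 χ' l' u' Y' i' c' →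
          d.N (tt d u Y i - tt d u' Y' i') (K * e * δ) ∧
          d.N (d.D (tt d u Y i) - d.D (tt d u' Y' i')) (K * e * δ)

/-- FIX. The fixed point. Constants: `K` the maximum of the constants of T_STE, T_LIP, T_BAS;
choose `e > 0` with `5 e` below the `e₀`s of T_STE, T_LIP, T_PTX, `5 K e ≤ 1/2`, `10 e ≤ 1/2`,
`25 K e^2 ≤ 1/16`, `5 K e ≤ 1/8`, and `η ≤ 1/16` with `K η ≤ e / 2`.
`j`: `N (1 - dl u0 0)` is small, so `N_inv`. For each `χ` with `Good d e χ` choose by T_PTX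
a point and put `F χ = tt d u Y i`. `Good d e (F χ)`: real by T_REA, and
`N (F χ - 1) (K e^2 + K η)`, `≤ e`; the same for `D` (`D T = D (T - T₀) + D T₀`). Iterate:
`χ 0 = 1`, `χ (k+1) = F (χ k)`; by T_LIP (`K e ≤ 1/2`) the differences and their `D` are bounded
by `2 e / 2^k` (induction; `N (χ 1 - χ 0) (2 e)`). `cplD` gives `χ` with
`N (χ - χ k) (4 e / 2^k)`, also for `D`; hence `N (χ - 1) (4 e)`, `N (D χ) (4 e)`, and
`star χ = χ` by `N_zero` applied to `star χ - χ`. So `Good d (5 e) χ`; choose its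
point by T_PTX; T_LIP with `χ`, `χ k`
(both good for `5 e`): `N (T χ - χ (k+1)) (K 5 e 4 e / 2^k)`; so `T χ - χ` has norm
`O(2^{-k})` for all `k` and `T χ = χ`. The last conclusions by T_STE, T_SYS and T_LOG.
Hypotheses: T_STE, T_LIP, T_PTX, T_BAS, T_REA, T_SYS, T_LOG. -/
def T_FIX : Prop := ∀ CE CS A : ℝ, 1 ≤ CE → 1 ≤ CS → 1 ≤ A → ∃ η : ℝ, 0 < η ∧
  ∀ (ι R : Type) [Fintype ι] [CommRing R] [StarRing R] [Algebra ℂ R]
    (d : Dat ι R) (u : ι → R), Ax CE CS d → Cpl d → Sys0 d u → d.V u A →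
    d.N (qq u 0 - 1) η → d.N (ip (dv d.D u) (star u) - cst R (I / 2)) η →
    d.N (ip (dv d.D u) (star (dv d.D u)) - cst R (3 / 4)) η →
    d.N (ip (dv d.D (dv d.D u)) (star u) + cst R (1 / 4)) η →
    d.N (ip (dv d.D (dv d.D u)) (star (dv d.D u)) - cst R (7 * I / 8)) η →
      ∃ (χ l : R) (u' Y : ι → R) (i : R), star χ = χ ∧ d.N (χ - 1) (1 / 2) ∧
        2 * l * χ = d.D χ ∧ Sys d l u' Y ∧ dl u' Y * i = 1 ∧ χ = tt d u' Y i ∧
        d.N (qq u' Y - 1) (1 / 8) ∧ d.N (pp u' Y) (1 / 8)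

end Pool.Agent.HSD
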