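import Pool.Agent.HSD.Defs2

/-!
# Project HSD: targets of the analytic part

Families of holomorphic coefficients, the solution operator, completeness, and the verification
of the axioms `Ax`, `Cpl` for the concrete structure `dR ι`.

Useful facts in Mathlib: `differentiableOn_tsum_of_summable_norm`,
`hasSum_deriv_of_summable_norm`, `ENNReal.tsum_comm`, `Convex.exists_forall_hasDerivWithinAt`
(a holomorphic function on the convex open set `sec` has a primitive),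
`hasFDerivAt_tsum_of_isPreconnected`, `enorm_integral_le_lintegral_enorm`.
-/

set_option autoImplicit false

namespace Pool.Agent.HSD

open Complex

/-! ## Part D: families -/

/-- SEC. Elementary facts on the sector. It is open and convex, `y ∈ sec` implies `0 < y.re` and
`‖y‖ ≤ √2 y.re ≤ (3/2) y.re`; it is invariant under multiplication by `t > 0` and under
conjugation; every `y ∈ sec` lies in some shell, and each point of `sec` has an open neighbourhood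
(in `sec`) contained in the union of two shells; a compact subset of `sec` is contained in
finitely many shells `Sh j`, `|j| ≤ n`, and has a closed neighbourhood inside `sec`; dilations
move shells. -/
def T_SEC : Prop :=
  IsOpen sec ∧ Convex ℝ sec ∧ (∀ y ∈ sec, 0 < y.re ∧ ‖y‖ ≤ 3 / 2 * y.re) ∧
  (∀ y ∈ sec, ∀ t : ℝ, 0 < t → (t : ℂ) * y ∈ sec) ∧ (∀ y ∈ sec, starRingEnd ℂ y ∈ sec) ∧
  (∀ t : ℝ, 0 < t → (t : ℂ) ∈ sec) ∧ (∀ y ∈ sec, ∃ j : ℤ, y ∈ Sh j) ∧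
  (∀ y ∈ sec, ∃ j : ℤ, ∃ U : Set ℂ, IsOpen U ∧ y ∈ U ∧ U ⊆ sec ∧ U ⊆ Sh j ∪ Sh (j + 1)) ∧
  (∀ K : Set ℂ, K ⊆ sec → IsCompact K → ∃ n : ℕ, ∀ y ∈ K, ∃ j : ℤ, |j| ≤ n ∧ y ∈ Sh j) ∧
  (∀ K : Set ℂ, K ⊆ sec → IsCompact K → ∃ r : ℝ, 0 < r ∧ Metric.cthickening r K ⊆ sec ∧
    IsCompact (Metric.cthickening r K)) ∧
  (∀ (i j : ℤ) (t : ℝ) (y : ℂ), (2 : ℝ) ^ i ≤ t → t ≤ (2 : ℝ) ^ (i + 1) → y ∈ Sh j →
    (t : ℂ) * y ∈ Sh (j + i) ∪ Sh (j + i + 1))

/-- GEN. A sum `Σ_i t_i(y) e^{i ν_i x}` over any index set (repetitions of frequencies allowed)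
is represented by a family. Proof: `a τ y = Σ'_i if ν i = τ then t i y else 0`. By T_SEC each
point of `sec` has a neighbourhood `U` in the union of two shells; there
`‖t i y‖ ≤ (sj (ν i) (t i) j + sj (ν i) (t i) (j+1)).toReal`, summable, so `a τ` is holomorphic.
`sj τ (a τ) j ≤ Σ'_i if ν i = τ then sj (ν i) (t i) j else 0`; sum over `τ` and exchange
(`ENNReal.tsum_comm`, `tsum_ite_eq`). The formula for `Ff a` by exchanging the sums in `ℂ`
(`Summable.tsum_comm'` or a summable double family bounded by the finite `sj`'s). -/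
def T_GEN : Prop := ∀ (J : Type) (t : J → ℂ → ℂ) (ν : J → ℝ),
  (∀ i, DifferentiableOn ℂ (t i) sec) → (∀ j : ℤ, ∑' i, sj (ν i) (t i) j ≠ ⊤) →
    ∃ a : ℝ → ℂ → ℂ, Fam a ∧ (∀ j, NN a j ≤ ∑' i, sj (ν i) (t i) j) ∧
      ∀ p : ℝ × ℝ, Ff a p = ∑' i, t i (Real.exp p.2 : ℂ) * exp (I * (ν i : ℂ) * (p.1 : ℂ))

/-- CNG. Congruence: everything depends only on the values on `sec`. (`deriv` on the open set
`sec`; `solF` at `y ∈ sec` uses values at `t y`, `t > 0`; `Ff` at positive reals.) -/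
def T_CNG : Prop := ∀ a b : ℝ → ℂ → ℂ, (∀ τ, ∀ y ∈ sec, a τ y = b τ y) →
  (Fam a → Fam b) ∧ (∀ j, NN a j = NN b j) ∧ (∀ p, Ff a p = Ff b p) ∧
    (∀ σ τ : ℝ, ∀ y ∈ sec, dfam σ a τ y = dfam σ b τ y) ∧
    ∀ τ, ∀ y ∈ sec, solF a τ y = solF b τ y

/-- LSF. Admissible families are locally summable. Proof: `K` lies in finitely many shells;
let `2 θ` be a positive lower bound of `y.re` on `K`; then `e^{θ|τ|} ≤ e^{|τ| y.re / 2}` and the
supremum over `K` is at most the sum of the `sj τ (a τ) j`, `|j| ≤ n`. -/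
def T_LSF : Prop := ∀ a : ℝ → ℂ → ℂ, Fam a → LSm a

/-- LSA. Differences, sums. -/
def T_LSA : Prop := ∀ a b : ℝ → ℂ → ℂ, LSm a → LSm b →
  LSm (fun τ y => a τ y - b τ y) ∧ LSm (fun τ y => a τ y + b τ y)

/-- LSD. Families of derivatives. Proof: `|τ| e^{θ|τ|/2} ≤ C e^{θ|τ|}` for the first one; for
`y a'`: `K'` = closed `r`-thickening of `K` in `sec` (T_SEC), Cauchy estimate
`‖deriv (a τ) y‖ ≤ (1/r) sup_{K'} ‖a τ‖` for `y ∈ K`
(`Complex.norm_deriv_le_of_forall_mem_sphere_norm_le`); `y` is bounded on `K`. -/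
def T_LSD : Prop := ∀ a : ℝ → ℂ → ℂ, LSm a →
  LSm (fun τ y => I * (τ : ℂ) * a τ y) ∧ LSm (fun τ y => y * deriv (a τ) y) ∧
    LSm (fun τ y => y * a τ y) ∧ ∀ σ : ℝ, LSm (dfam σ a)

/-- CD1. Termwise differentiation. Proof: `hasFDerivAt_tsum_of_isPreconnected` on the open convex
set `{q | |q.2 - p.2| < 1}`; there `e^{q.2}` lies in a compact `K ⊆ sec`; the derivative of the
term `a τ (e^s) e^{iτx}` is `(dx, ds) ↦ (iτ a τ (e^s) dx + e^s a τ'(e^s) ds) e^{iτx}`, bounded by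
the suprema over `K` of the LSD families. -/
def T_CD1 : Prop := ∀ a : ℝ → ℂ → ℂ, LSm a → ∀ p : ℝ × ℝ,
  DifferentiableAt ℝ (Ff a) p ∧ px (Ff a) p = Ff (fun τ y => I * (τ : ℂ) * a τ y) p ∧
    ps (Ff a) p = Ff (fun τ y => y * deriv (a τ) y) p

/-- CDN. Smoothness. Proof: by induction on `n`: `ContDiff ℝ n (Ff a)` for all locally summable
`a` (`contDiff_succ_iff_fderiv`; `fderiv (Ff a) p (dx, ds) = px dx + ps ds`, both `Ff` of
locally summable families by T_CD1, T_LSD); then `contDiff_infty`. The formula for `dOp` from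
T_CD1 and linearity of `Ff` (summability). Hypotheses: T_CD1, T_LSD. -/
def T_CDN : Prop := ∀ a : ℝ → ℂ → ℂ, LSm a →
  ContDiff ℝ ((⊤ : ℕ∞) : WithTop ℕ∞) (Ff a) ∧
    ∀ (σ : ℝ) (p : ℝ × ℝ), dOp σ (Ff a) p = Ff (dfam σ a) p

/-- UNI. Uniqueness of coefficients. Proof: let `c = a - b` (T_LSA); fix `y > 0`;
`Σ_τ c τ y e^{iτx} = 0` for all `x`, absolutely summable. Multiply by `e^{-iσx}` and average over
`x ∈ [0, T]`: the average of `e^{i(τ-σ)x}` is at most `1` in modulus and tends to `0` as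
`T → ∞` if `τ ≠ σ` and is `1` if `τ = σ`; `tendsto_tsum_of_dominated_convergence` gives
`c σ y = 0`. So `c σ` vanishes on the positive reals, hence on `sec` by the identity theorem
(`AnalyticOnNhd.eqOn_zero_of_preconnected_of_frequently_eq_zero`). Hypothesis T_LSA. -/
def T_UNI : Prop := ∀ a b : ℝ → ℂ → ℂ, LSm a → LSm b → (∀ p, Ff a p = Ff b p) →
  ∀ τ, ∀ y ∈ sec, a τ y = b τ y

/-- FAD. Sums, differences, multiples and constants. (`sj` is subadditive; for constants take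
`a τ y = if τ = 0 then z else 0`.) -/
def T_FAD : Prop :=
  (∀ a b : ℝ → ℂ → ℂ, Fam a → Fam b →
    (Fam (fun τ y => a τ y + b τ y) ∧ (∀ j, NN (fun τ y => a τ y + b τ y) j ≤ NN a j + NN b j) ∧
      ∀ p, Ff (fun τ y => a τ y + b τ y) p = Ff a p + Ff b p) ∧
    (Fam (fun τ y => a τ y - b τ y) ∧ (∀ j, NN (fun τ y => a τ y - b τ y) j ≤ NN a j + NN b j) ∧
      ∀ p, Ff (fun τ y => a τ y - b τ y) p = Ff a p - Ff b p)) ∧
  (∀ (z : ℂ) (a : ℝ → ℂ → ℂ), Fam a → Fam (fun τ y => z * a τ y) ∧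
    (∀ j, NN (fun τ y => z * a τ y) j ≤ ENNReal.ofReal ‖z‖ * NN a j) ∧
      ∀ p, Ff (fun τ y => z * a τ y) p = z * Ff a p) ∧
  ∀ z : ℂ, ∃ a : ℝ → ℂ → ℂ, Rep a (fun _ => z) ∧ ∀ j, NN a j ≤ ENNReal.ofReal ‖z‖

/-- FMU. Products. Proof: T_GEN with `J = ℝ × ℝ`, `t (τ, σ) = a τ * b σ`, `ν = τ + σ`;
`sj (τ + σ) (a τ * b σ) j ≤ sj τ (a τ) j * sj σ (b σ) j` and the double sum factors
(`ENNReal.tsum_prod`, `ENNReal.tsum_mul_left`); the product of the two series is the double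
series (`tsum_mul_tsum_of_summable_norm`). -/
def T_FMU : Prop := ∀ (a b : ℝ → ℂ → ℂ) (f g : ℝ × ℝ → ℂ), Rep a f → Rep b g →
  ∃ c : ℝ → ℂ → ℂ, Rep c (fun p => f p * g p) ∧ ∀ j, NN c j ≤ NN a j * NN b j

/-- FIP. Finite sums of products (T_FMU, T_FAD, induction over the finite set). -/
def T_FIP : Prop := ∀ (ι : Type) [Fintype ι] (a b : ι → ℝ → ℂ → ℂ) (v w : ι → ℝ × ℝ → ℂ),
  (∀ r, Rep (a r) (v r)) → (∀ r, Rep (b r) (w r)) →
    ∃ c : ℝ → ℂ → ℂ, Rep c (fun p => ∑ r, v r p * w r p) ∧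
      ∀ j, NN c j ≤ ∑ r, NN (a r) j * NN (b r) j

/-- FST. Conjugates: the family `τ ↦ (y ↦ conj (a (-τ) (conj y)))`; `Sh j` is invariant under
conjugation, `τ ↦ -τ` is a bijection. -/
def T_FST : Prop := ∀ (a : ℝ → ℂ → ℂ) (f : ℝ × ℝ → ℂ), Rep a f →
  ∃ c : ℝ → ℂ → ℂ, Rep c (fun p => starRingEnd ℂ (f p)) ∧ ∀ j, NN c j ≤ NN a j

/-- PTF. Pointwise bound: `e^{p.2}` lies in a shell and each term of `Ff a p` is bounded by
`sj`. -/
def T_PTF : Prop := ∀ (a : ℝ → ℂ → ℂ) (f : ℝ × ℝ → ℂ) (c : ℝ), 0 ≤ c → Rep a f →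
  (∀ j, NN a j ≤ ENNReal.ofReal c) → ∀ p, ‖f p‖ ≤ c

/-- ELL. The elliptic estimate for one frequency. Here `b y = (i/2) y (τ g + g')`. Proof: for
`τ = 0` trivial. Let `φ(t) = e^{τ t y} g(t y)`, `φ' (t) = e^{τ t y} (-2 i b(t y)) / t`. If
`τ > 0`: `g(y) = e^{-τ y / 2} g(y/2) + ∫_{1/2}^1 e^{-τ y (1 - t)} (-2 i b(t y)) / t dt`. With
`T = τ y.re`, weight `e^{T/2}`, `‖y‖ ≤ (3/2) y.re`: the first term contributes
`τ ‖y‖ e^{-T/4} sj g (j-1) ≤ (3/2) T e^{-T/4} (..) ≤ 3 (..)`; in the integral the weights leave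
`e^{-T (1 - t) / 2}` and `2 / t ≤ 4`, so it contributes at most
`(3/2) T * 4 * (2 / T) = 12` times the larger of the `sj b` on the shells `j-1`, `j`. If
`τ < 0`, `T = |τ| y.re`: `g(y) = e^{τ y} g(2 y) - ∫_1^2 e^{τ y (t - 1)} (-2 i b(t y)) / t dt`;
the weights leave `e^{-T/2} e^{-T}` and `e^{-(3/2) T (t - 1)}`. -/
def T_ELL : Prop := ∀ (τ : ℝ) (g : ℂ → ℂ), DifferentiableOn ℂ g sec → ∀ j : ℤ,
  sj τ (fun y => I * (τ : ℂ) * y * g y) j ≤ 16 * (sj τ g (j - 1) + sj τ g (j + 1) +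
    sj τ (fun y => I / 2 * y * ((τ : ℂ) * g y + deriv g y)) (j - 1) +
    sj τ (fun y => I / 2 * y * ((τ : ℂ) * g y + deriv g y)) j +
    sj τ (fun y => I / 2 * y * ((τ : ℂ) * g y + deriv g y)) (j + 1))

/-- FDD. The elliptic estimate for families: `dfam (-1) a = i τ y a - dfam 1 a`. Sum T_ELL over
`τ`. -/
def T_FDD : Prop := ∀ a : ℝ → ℂ → ℂ, Fam a → Fam (dfam 1 a) →
  Fam (dfam (-1) a) ∧ ∀ j, NN (dfam (-1) a) j ≤ 16 * (NN a (j - 1) + NN a (j + 1) +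
    NN (dfam 1 a) (j - 1) + NN (dfam 1 a) j + NN (dfam 1 a) (j + 1)) + NN (dfam 1 a) j

/-- MIN. Minkowski's inequality for `ℓ²`-sums. Proof: by Cauchy-Schwarz
`(Σ_m x_m)^2 ≤ C Σ_{m : c_m > 0} x_m^2 / c_m` (if `c_m = 0` then `x_m = 0`), so the sum over `r`
is at most `C Σ_m c_m^2 / c_m = C^2`. (All `x r m` are finite. Alternatively use
`ENNReal.lintegral_Lp_add_le`-type results.) -/
def T_MIN : Prop := ∀ (ι κ : Type) [Fintype ι] (x : ι → κ → ENNReal) (c : κ → ℝ) (C : ℝ),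
  (∀ m, 0 ≤ c m) → HasSum c C → (∀ m, ∑ r, (x r m) ^ 2 ≤ ENNReal.ofReal (c m ^ 2)) →
    ∑ r, (∑' m, x r m) ^ 2 ≤ ENNReal.ofReal (C ^ 2)

/-! ## Part E: the solution operator -/

/-- RAI. Integrals along rays to infinity. Proof: let `P` be a primitive of `H` on `sec`. Then
`∫_1^n y H(t y) dt = P(n y) - P(y)`; the left side converges to the improper integral, so
`P(n y)` converges, and the limit does not depend on `y`:
`|P(n y) - P(n y')| ≤ n |y - y'| sup |H| ≤ C' / n` on the segment. Hence the function is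
`const - P`. -/
def T_RAI : Prop := ∀ (H : ℂ → ℂ) (C : ℝ), DifferentiableOn ℂ H sec →
  (∀ y ∈ sec, ‖H y‖ ≤ C / ‖y‖ ^ 2) → ∀ y ∈ sec,
    MeasureTheory.IntegrableOn (fun t : ℝ => y * H (t * y)) (Set.Ioi (1 : ℝ)) ∧
      HasDerivAt (fun w : ℂ => ∫ t in Set.Ioi (1 : ℝ), w * H (t * w)) (-H y) y

/-- RAZ. Integrals along rays from the origin. Proof: as T_RAI, with
`∫_{1/n}^1 y H(t y) dt = P(y) - P(y/n)` and the limit of `P(y/n)` independent of `y`. -/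
def T_RAZ : Prop := ∀ H : ℂ → ℂ, DifferentiableOn ℂ H sec →
  (∀ ρ : ℝ, 0 < ρ → ∃ C : ℝ, ∀ y ∈ sec, ‖y‖ ≤ ρ → ‖H y‖ ≤ C) → ∀ y ∈ sec,
    MeasureTheory.IntegrableOn (fun t : ℝ => y * H (t * y)) (Set.Ioc (0 : ℝ) 1) ∧
      HasDerivAt (fun w : ℂ => ∫ t in Set.Ioc (0 : ℝ) 1, w * H (t * w)) (H y) y

/-- CHI. The cut-off `χ₀(z) = e^{-2z} (1 + 2z)`. Proof: `χ₀' = -4 z e^{-2z}`, so
`1 - χ₀(z) = ∫_0^1 4 r z^2 e^{-2 r z} dr`, at most `2 |z|^2`; and
`|χ₀(z)| ≤ e^{-2x} (1 + 3 x) ≤ 2` with `x = Re z`, `|z| ≤ (3/2) x`. -/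
def T_CHI : Prop := ∀ z : ℂ, 0 < z.re → ‖z‖ ≤ 3 / 2 * z.re →
  ‖1 - exp (-2 * z) * (1 + 2 * z)‖ ≤ 2 * ‖z‖ ^ 2 ∧ ‖1 - exp (-2 * z) * (1 + 2 * z)‖ ≤ 3

/-- KER. Pointwise bounds for the three kernels, with `W w = e^{|τ| w.re / 2} ‖g w‖`. Proof:
`‖y * y * ((t y)⁻¹)^2‖ = t^{-2}`. Let `T = |τ| y.re`. (1) `τ ≤ 0`, `t ≥ 1`: the exponentials
leave `e^{-(3/2) T (t - 1)}`. (2) `τ > 0`, `t ≤ 1`: they leave `e^{-T (1 - t) / 2}`, and by T_CHI
`2 t^{-2} |1 - χ₀(τ t y)| ≤ 2 t^{-2} min (3, 2 (3/2)^2 t^2 T^2)`; for `t ≥ 1/2` this is at most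
`24`, for `t ≤ 1/2` the product is at most `9 T^2 e^{-T/4} ≤ 80`. (3) `τ > 0`, `t ≥ 1`: they leave
`e^{-T/2 - (3/2) t T}` and `|1 + 2 τ t y| ≤ 1 + 3 t T`, product at most `5/2`. -/
def T_KER : Prop := ∀ (τ t : ℝ) (g : ℂ → ℂ) (y : ℂ), y ∈ sec → 0 < t →
  (τ ≤ 0 → 1 ≤ t → Real.exp (|τ| * y.re / 2) *
    ‖2 * I * y * exp (-(τ : ℂ) * y) * (y * hM τ g (t * y))‖ ≤
      5 / t ^ 2 * (Real.exp (|τ| * (t * y).re / 2) * ‖g (t * y)‖)) ∧
  (0 < τ → t ≤ 1 → Real.exp (|τ| * y.re / 2) *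
    ‖2 * I * y * exp (-(τ : ℂ) * y) * (y * hP τ g (t * y))‖ ≤
      80 * (Real.exp (|τ| * (t * y).re / 2) * ‖g (t * y)‖)) ∧
  (0 < τ → 1 ≤ t → Real.exp (|τ| * y.re / 2) *
    ‖2 * I * y * exp (-(τ : ℂ) * y) * (y * hQ τ g (t * y))‖ ≤
      5 / t ^ 2 * (Real.exp (|τ| * (t * y).re / 2) * ‖g (t * y)‖))

/-- SLH. The solution for one frequency: integrability, holomorphy, the equation and linearity.
Proof: if `W w ≤ C` (`W` as in T_KER) then `hM τ g` (for `τ ≤ 0`) and `hQ τ g` (for `τ > 0`) are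
bounded by `C' / ‖w‖^2` and `hP τ g` is bounded on bounded sets (T_CHI:
`|1 - χ₀(τ w)| ≤ 2 τ^2 ‖w‖^2`, for `τ w` in the sector). By T_RAI, T_RAZ, for `τ ≤ 0`,
`f = 2 i y e^{-τy} G` with `G' = -hM`, so `y f' = f - τ y f + 2 i y^2 e^{-τ y} G'` and
`y^2 e^{-τ y} hM τ g y = g y`; hence `y (τ f + f') = f - 2 i g`. For `τ > 0` the same with
`G₁' = hP`, `G₂' = -hQ`, `hP + hQ = e^{τ w} w^{-2} g`. Linearity from integrability.
Hypotheses: T_RAI, T_RAZ, T_CHI, T_SEC. -/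
def T_SLH : Prop := ∀ (τ C : ℝ) (g : ℂ → ℂ), DifferentiableOn ℂ g sec →
  (∀ w ∈ sec, Real.exp (|τ| * w.re / 2) * ‖g w‖ ≤ C) →
    DifferentiableOn ℂ (sol1 τ g) sec ∧
    (∀ y ∈ sec, I / 2 * y * ((τ : ℂ) * sol1 τ g y + deriv (sol1 τ g) y) =
      I / 2 * sol1 τ g y + g y) ∧
    ∀ (C' : ℝ) (g' : ℂ → ℂ), DifferentiableOn ℂ g' sec →
      (∀ w ∈ sec, Real.exp (|τ| * w.re / 2) * ‖g' w‖ ≤ C') →
        ∀ y ∈ sec, sol1 τ (fun w => g w - g' w) y = sol1 τ g y - sol1 τ g' y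

/-- SLB. The bound for one frequency, in `[0, ∞]` (no finiteness assumed). Proof: for `y ∈ Sh j`
write the weighted norm of `sol1 τ g y` as at most the lower integral over `t > 0` of the
weighted norms of the integrands (`enorm_integral_le_lintegral_enorm`), bounded by T_KER by
`K(t) W(t y)` with `K = 80` for `t ≤ 1`, `K = 5 / t^2` for `t > 1`. Cut `(0, ∞)` into the
intervals `(2^i, 2^{i+1}]`; there `K(t) ≤ 80` (`i < 0`), `≤ 5 · 4^{-i}` (`i ≥ 0`), the length is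
`2^i`, and `W(t y) ≤ sj τ g (j + i) + sj τ g (j + i + 1)` by T_SEC. So the bound is
`Σ_i 80 · 2^{-|i|} (sj τ g (j+i) + sj τ g (j+i+1))`, and the coefficient of `sj τ g (j + i)` is at
most `80 (1 + 2) 2^{-|i|}`. Hypotheses: T_KER, T_SEC. -/
def T_SLB : Prop := ∀ (τ : ℝ) (g : ℂ → ℂ) (j : ℤ),
  sj τ (sol1 τ g) j ≤ ∑' i : ℤ, ENNReal.ofReal (300 / 2 ^ i.natAbs) * sj τ g (j + i)

/-- FSO. The solution for families: T_SLH, T_SLB summed over `τ` (exchange of sums); the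
boundedness hypothesis of T_SLH holds since `sj τ (a τ) j ≤ NN a j ≤ c` for all `j`.
Finiteness: `Σ_i 300 / 2^|i| * c` is finite. -/
def T_FSO : Prop := ∀ (a : ℝ → ℂ → ℂ) (c : ℝ), Fam a →
  (∀ j, NN a j ≤ ENNReal.ofReal c) →
    Fam (solF a) ∧
    (∀ j, NN (solF a) j ≤ ∑' i : ℤ, ENNReal.ofReal (300 / 2 ^ i.natAbs) * NN a (j + i)) ∧
    (∀ τ, ∀ y ∈ sec, dfam 1 (solF a) τ y = I / 2 * solF a τ y + a τ y) ∧
    ∀ (b : ℝ → ℂ → ℂ) (c' : ℝ), Fam b → (∀ j, NN b j ≤ ENNReal.ofReal c') →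
      ∀ τ, ∀ y ∈ sec, solF (fun τ y => a τ y - b τ y) τ y = solF a τ y - solF b τ y

/-! ## Part F: completeness -/

/-- FCP. Completeness for families. Proof: `b τ y = a 0 τ y + Σ'_m (a (m+1) τ y - a m τ y)`.
Near each point of `sec` (two shells, T_SEC) the terms are bounded by the summable
`(sj τ (..) j + sj τ (..) (j+1)).toReal`, so `b τ` is holomorphic and its derivative is the sum
of the derivatives (`hasSum_deriv_of_summable_norm`). `b τ y - a k τ y` is the sum of the tail,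
so `sj τ (b τ - a k τ) j ≤ Σ'_m sj τ (..) j`; sum over `τ` and exchange. For `dfam` the same
with the termwise formula. -/
def T_FCP : Prop := ∀ a : ℕ → ℝ → ℂ → ℂ, (∀ k, Fam (a k)) →
  (∀ j, ∑' k, NN (fun τ y => a (k + 1) τ y - a k τ y) j ≠ ⊤) →
    ∃ b : ℝ → ℂ → ℂ, Fam b ∧
      (∀ k j, NN (fun τ y => b τ y - a k τ y) j ≤
        ∑' m : ℕ, NN (fun τ y => a (k + m + 1) τ y - a (k + m) τ y) j) ∧
      ∀ (σ : ℝ) (k : ℕ) (j : ℤ), NN (fun τ y => dfam σ b τ y - dfam σ (a k) τ y) j ≤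
        ∑' m : ℕ, NN (fun τ y => dfam σ (a (k + m + 1)) τ y - dfam σ (a (k + m)) τ y) j

/-- CPV. Completeness for vectors. Proof: choose families for the differences
`v (k+1) - v k`; their partial sums `a k r` (`a 0 r = 0`) represent `v k r - v 0 r`
(T_FAD). T_FCP for each `r` (`NN (..) j ≤ c k` from the square sum) gives `b r`; put
`w r = v 0 r + Ff (b r)`, smooth by T_LSF, T_CDN; the bound by T_MIN with `κ = ℕ`.
Hypotheses: T_FAD, T_FCP, T_LSF, T_CDN, T_MIN. -/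
def T_CPV : Prop := ∀ (ι : Type) [Fintype ι] (v : ℕ → ι → RR) (c : ℕ → ℝ),
  (∀ k, 0 ≤ c k) → Summable c → (∀ k, VR (v (k + 1) - v k) (c k)) →
    ∃ w : ι → RR, ∀ k, VR (w - v k) (∑' m : ℕ, c (k + m))

/-- CPD. Completeness with the derivative `D`. As T_CPV (with one component); the families of the
`D`-differences are by T_UNI and T_CDN equal on `sec` to `dfam (-1)` of the families of the
differences (`dfam` is additive on `sec`), so the last part of T_FCP applies.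
Hypotheses: T_FAD, T_FCP, T_LSF, T_LSD, T_CDN, T_UNI, T_CNG. -/
def T_CPD : Prop := ∀ (f : ℕ → RR) (c : ℕ → ℝ), (∀ k, 0 ≤ c k) → Summable c →
  (∀ k, NR (f (k + 1) - f k) (c k)) →
  (∀ k, NR (dDer (-1) (f (k + 1)) - dDer (-1) (f k)) (c k)) →
    ∃ g : RR, ∀ k, NR (g - f k) (∑' m : ℕ, c (k + m)) ∧
      NR (dDer (-1) g - dDer (-1) (f k)) (∑' m : ℕ, c (k + m))

/-! ## Part G: the axioms for the concrete structure -/

/-- DRA. The algebraic axioms. Proof: `px (star f) = star (px f)` etc.; for the commutator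
compute `px`, `ps` of `dOp σ f` by the product rule and use the symmetry of the second
derivative (`second_derivative_symmetric` or `ContDiffAt.isSymmSndFDerivAt`):
`[D, Db] = -(i/2) e^s d_x` and `D + Db = e^s d_x`. -/
def T_DRA : Prop := (∀ z : ℂ, star (cst RR z) = cst RR (starRingEnd ℂ z)) ∧
  (∀ f : RR, dDer 1 f = star (dDer (-1) (star f))) ∧
  ∀ f : RR, dDer (-1) (dDer 1 f) - dDer 1 (dDer (-1) f) =
    -(cst RR (I / 2)) * (dDer (-1) f + dDer 1 f)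

/-- NRA. The simple rules for `NR`. From T_FAD, T_FMU, T_FST and (for the last one) T_PTF. -/
def T_NRA : Prop :=
  (∀ (f : RR) (c c' : ℝ), NR f c → c ≤ c' → NR f c') ∧
  (∀ (f g : RR) (c c' : ℝ), NR f c → NR g c' → NR (f + g) (c + c')) ∧
  (∀ (f g : RR) (c c' : ℝ), NR f c → NR g c' → NR (f * g) (c * c')) ∧
  (∀ z : ℂ, NR (cst RR z) ‖z‖) ∧
  (∀ (f : RR) (c : ℝ), NR f c → NR (star f) c) ∧
  (∀ (f : RR) (c : ℝ), NR f c → ∀ p, ‖(f : ℝ × ℝ → ℂ) p‖ ≤ c) ∧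
  ∀ f : RR, (∀ c : ℝ, 0 < c → NR f c) → f = 0

/-- VRA. The simple rules for `VR`. `V_add` by T_MIN with two terms (`κ = Bool`); `V_smul`:
`NN (c r) j ≤ NN a j * NN (b r) j` by T_FMU; `V_ip` by T_FIP and the Cauchy-Schwarz inequality
(`ENNReal.inner_le_Lp_mul_Lq` with exponents 2, or convert the finite values to reals).
Hypotheses: T_FAD, T_FMU, T_FIP, T_FST, T_MIN, T_PTF. -/
def T_VRA : Prop := ∀ (ι : Type) [Fintype ι],
  VR (0 : ι → RR) 0 ∧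
  (∀ (v : ι → RR) (c c' : ℝ), VR v c → c ≤ c' → VR v c') ∧
  (∀ (v w : ι → RR) (c c' : ℝ), VR v c → VR w c' → VR (v + w) (c + c')) ∧
  (∀ (f : RR) (v : ι → RR) (c c' : ℝ), NR f c → VR v c' → VR (f • v) (c * c')) ∧
  (∀ (v : ι → RR) (c : ℝ), VR v c → VR (star v) c) ∧
  (∀ (v w : ι → RR) (c c' : ℝ), VR v c → VR w c' → NR (ip v w) (c * c')) ∧
  (∀ (v : ι → RR) (c : ℝ) (r : ι), VR v c → NR (v r) c) ∧
  ∀ v : ι → RR, (∀ c : ℝ, 0 < c → VR v c) → v = 0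

/-- VRD. The elliptic estimate for vectors (and, with one component, for functions). Proof: let
`a r`, `b r` be families of `v r`, `Db (v r)`. By T_LSF, T_CDN, T_UNI `b r = dfam 1 (a r)` on
`sec`, so `Fam (dfam 1 (a r))` and `NN (dfam 1 (a r)) j = NN (b r) j` (T_CNG). By T_FDD and T_CDN
`dfam (-1) (a r)` represents `D (v r)`; the norm by T_MIN with 6 terms:
`16 (2 c + 3 c') + c' ≤ 100 (c + c')`. Hypotheses: T_LSF, T_LSD, T_CDN, T_UNI, T_CNG, T_FDD,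
T_MIN. -/
def T_VRD : Prop := ∀ (ι : Type) [Fintype ι] (v : ι → RR) (c c' : ℝ), VR v c →
  VR (dv (dDer 1) v) c' → VR (dv (dDer (-1)) v) (100 * (c + c'))

/-- SRS. The solution operator applied to a function with family `a` has family `solF a`. Proof:
the condition in the definition of `SR` holds with `g = Ff (solF a)` (T_FSO, T_LSF, T_CDN); the
chosen function has family `solF b` where `b` is a family of `h`; by T_UNI `a = b` on `sec`, so
`solF a = solF b` on `sec` (T_CNG). Hypotheses: T_FSO, T_LSF, T_CDN, T_UNI, T_CNG. -/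
def T_SRS : Prop := ∀ (h : RR) (a : ℝ → ℂ → ℂ) (c : ℝ), Rep a h →
  (∀ j, NN a j ≤ ENNReal.ofReal c) → Rep (solF a) (SR h)

/-- SRA. The axioms for `S`. Proof: T_SRS. The equation: `Db` of `Ff (solF a)` is
`Ff (dfam 1 (solF a))` (T_CDN, T_LSF) and `dfam 1 (solF a) = (i/2) solF a + a` on `sec` (T_FSO,
T_CNG, T_FAD). Differences by T_FSO (last part), T_FAD. The norm of vectors by T_FSO and T_MIN
with `κ = ℤ`, `c i = 300 / 2^|i| * c`, `Σ = 900 c ≤ 1000 c`.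
Hypotheses: T_SRS, T_FSO, T_CDN, T_LSF, T_CNG, T_FAD, T_MIN. -/
def T_SRA : Prop :=
  (∀ (h : RR) (c : ℝ), NR h c → dDer 1 (SR h) = cst RR (I / 2) * SR h + h) ∧
  (∀ (h k : RR) (c c' : ℝ), NR h c → NR k c' → SR (h - k) = SR h - SR k) ∧
  ∀ (ι : Type) [Fintype ι] (v : ι → RR) (c : ℝ), VR v c → VR (fun r => SR (v r)) (1000 * c)

/-- NRI. Inverses. Proof: `g k = Σ_{n < k} (1 - f)^n`, `NR ((1 - f)^n) (c^n)` (T_NRA); T_CPV with
one component (`ι = Unit`; `VR (fun _ => f) c ↔ NR f c`) gives `g` with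
`NR (g - g k) (Σ'_m c^(k+m))`; `f g k = 1 - (1 - f)^k`, so `f g - 1` has norm at most
`C c^k` for all `k` and vanishes; `NR g (1 / (1 - c))` from `k = 0`.
Hypotheses: T_NRA, T_CPV. -/
def T_NRI : Prop := ∀ (f : RR) (c : ℝ), NR (1 - f) c → c < 1 →
  ∃ g : RR, f * g = 1 ∧ NR g (1 / (1 - c))

/-- AXM. The concrete structure satisfies the axioms with constants `100` and `1000`.
Hypotheses: T_DRA, T_NRA, T_VRA, T_VRD, T_SRA, T_NRI (`N_D` from T_VRD with `ι = Unit`). -/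
def T_AXM : Prop := ∀ (ι : Type) [Fintype ι], Ax 100 1000 (dR ι)

/-- CPM. Completeness of the concrete structure: T_CPV, T_CPD with `c k = C / 2^k` (`C ≥ 0` since
`VR _ (C / 2^0)` has a nonnegative constant), `Σ'_m C / 2^(k+m) = 2 C / 2^k`. -/
def T_CPM : Prop := ∀ (ι : Type) [Fintype ι], Cpl (dR ι)

end Pool.Agent.HSD
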