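import Pool.Agent.HSD.Targets1
import Pool.Agent.HSD.Targets2

/-!
# Project HSD: the base map

The lacunary sums `E_a`, `a ≥ 1`, with components
`E_{a,r}(x, s) = Σ_{i ∈ ℤ} 2 √δ (ξ y)^a e^{-ξ y} e^{i ξ x}`, `ξ = exp(δ (r + m i))`, `y = e^s`.
They satisfy `Db E_a = (i a / 2) E_a` and `D E_a = i E_{a+1} - (i a / 2) E_a`, and
`<E_a, E_b>` is nearly the constant `4 (a + b - 1)! / 2^(a + b)`. The base map is `u = i E_1`.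
-/

set_option autoImplicit false

namespace Pool.Agent.HSD

open Complex

/-- The frequencies. -/
noncomputable def xi (δ : ℝ) (k : ℤ) : ℝ := Real.exp (δ * k)

/-- The coefficient functions `2 √δ (ξ y)^a e^{-ξ y}`. -/
noncomputable def tb (δ : ℝ) (a : ℕ) (k : ℤ) (y : ℂ) : ℂ :=
  2 * (Real.sqrt δ : ℂ) * ((xi δ k : ℂ) * y) ^ a * exp (-(xi δ k : ℂ) * y)

/-- The component `r` of the vector `E_a`. -/
noncomputable def Eb (δ : ℝ) (m a : ℕ) (r : Fin m) (p : ℝ × ℝ) : ℂ :=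
  ∑' i : ℤ, tb δ a ((r : ℕ) + m * i) (Real.exp p.2 : ℂ) *
    exp (I * (xi δ ((r : ℕ) + m * i) : ℂ) * (p.1 : ℂ))

/-- The constants `4 (a + b - 1)! / 2^(a + b)`. -/
noncomputable def mab (a b : ℕ) : ℂ := 4 * ((a + b - 1).factorial : ℂ) / 2 ^ (a + b)

/-- INJ. Families with injective frequencies. Proof: `a τ y = t i y` if `τ = ν i` and `0` if `τ`
is not a frequency. Then `NN a j` is the sum over `i` (`Function.Injective.tsum_eq`), the same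
for `Ff a` and `Ff (dfam σ a)` (`dfam σ a (ν i) y = (i/2) y (ν i t i y + σ t i' y)`). -/
def T_INJ : Prop := ∀ (J : Type) (t : J → ℂ → ℂ) (ν : J → ℝ), Function.Injective ν →
  (∀ i, DifferentiableOn ℂ (t i) sec) → (∀ j : ℤ, ∑' i, sj (ν i) (t i) j ≠ ⊤) →
    ∃ a : ℝ → ℂ → ℂ, Fam a ∧ (∀ j, NN a j ≤ ∑' i, sj (ν i) (t i) j) ∧
      (∀ p : ℝ × ℝ, Ff a p = ∑' i, t i (Real.exp p.2 : ℂ) *
        exp (I * (ν i : ℂ) * (p.1 : ℂ))) ∧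
      ∀ (σ : ℝ) (p : ℝ × ℝ), Ff (dfam σ a) p = ∑' i, I / 2 * (Real.exp p.2 : ℂ) *
        ((ν i : ℂ) * t i (Real.exp p.2 : ℂ) + σ * deriv (t i) (Real.exp p.2 : ℂ)) *
          exp (I * (ν i : ℂ) * (p.1 : ℂ))

/-- BNB. The size of the coefficients. Proof: for `y ∈ Sh j` put `T = ξ 2^j`; `ξ y.re ∈ [T, 2T]`,
`‖ξ y‖ ≤ (3/2) ξ y.re ≤ 3 T`, so the weighted coefficient is at most
`2 √δ (3T)^a e^{-T/2}`, and `T^a e^{-T/2} ≤ C min(T, 1/T) = C e^{-|log T|}` as `a ≥ 1`. -/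
def T_BNB : Prop := ∀ a : ℕ, 1 ≤ a → ∃ C : ℝ, 0 ≤ C ∧ ∀ (δ : ℝ) (k j : ℤ),
  sj (xi δ k) (tb δ a k) j ≤
    ENNReal.ofReal (C * Real.sqrt δ * Real.exp (-|δ * k + j * Real.log 2|))

/-- BSG. Geometric sums: the `k` with `h k + c ≥ 0`, in increasing order, give at most
`1 + e^{-h} + ...`, the same for the others. -/
def T_BSG : Prop := ∀ h c : ℝ, 0 < h →
  Summable (fun k : ℤ => Real.exp (-|h * k + c|)) ∧
    ∑' k : ℤ, Real.exp (-|h * k + c|) ≤ 2 / (1 - Real.exp (-h))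

/-- BSQ. The square sum. Let `S_r = Σ_i e^{-|δ (r + m i) + c|}`; by BSG with `h = δ m ≥ 1`
`S_r ≤ 4`, so `δ Σ_r S_r^2 ≤ 4 δ Σ_r S_r = 4 δ Σ_{k ∈ ℤ} e^{-|δ k + c|}`
(`Int.divModEquiv`), at most `4 δ 2 / (1 - e^{-δ}) ≤ 8 (1 + δ) ≤ 16`. Hypothesis T_BSG. -/
def T_BSQ : Prop := ∀ (δ c : ℝ) (m : ℕ), 0 < δ → δ ≤ 1 → 1 ≤ δ * m →
  ∑ r : Fin m, (∑' i : ℤ,
    ENNReal.ofReal (Real.sqrt δ * Real.exp (-|δ * ((r : ℕ) + m * i : ℤ) + c|))) ^ 2 ≤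
      ENNReal.ofReal 16

/-- BVE. `E_a` is smooth and has norm bounded by a constant depending only on `a`. Proof:
T_INJ for each component (`ν i = ξ`, injective since `δ m > 0`), T_BNB and T_BSQ; smoothness from
T_LSF, T_CDN. (The first part: the function is `Ff` of a family.) Hypotheses: T_INJ, T_BNB,
T_BSG, T_BSQ, T_LSF, T_CDN. -/
def T_BVE : Prop := ∀ a : ℕ, 1 ≤ a → ∃ C : ℝ, 1 ≤ C ∧ ∀ (δ : ℝ) (m : ℕ), 0 < δ → δ ≤ 1 →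
  1 ≤ δ * m → (∀ r : Fin m, Eb δ m a r ∈ RR) ∧
    ∀ E : Fin m → RR, (∀ r, (E r : ℝ × ℝ → ℂ) = Eb δ m a r) → VR E C

/-- BDE. The derivatives. Proof: T_INJ, T_CDN; with `t = tb δ a k` one has
`y t' = (a - ξ y) t` and `ξ y t = tb δ (a + 1) k`. Hypotheses: T_INJ, T_BNB, T_BSG, T_LSF, T_CDN. -/
def T_BDE : Prop := ∀ (a : ℕ), 1 ≤ a → ∀ (δ : ℝ) (m : ℕ), 0 < δ → δ ≤ 1 → 1 ≤ δ * m →
  ∀ (r : Fin m) (p : ℝ × ℝ),
    dOp 1 (Eb δ m a r) p = I * a / 2 * Eb δ m a r p ∧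
    dOp (-1) (Eb δ m a r) p = I * Eb δ m (a + 1) r p - I * a / 2 * Eb δ m a r p

/-- RIE. Riemann sums. Proof: on each interval
`‖δ φ(δ k) - ∫_{δ k}^{δ (k+1)} φ‖ ≤ δ ∫_{δ k}^{δ (k+1)} ‖φ'‖`; sum over `k`
(`hasSum_integral_iUnion`-type lemmas for the intervals `(δ k, δ (k+1)]`). -/
def T_RIE : Prop := ∀ (φ φ' : ℝ → ℂ) (δ : ℝ), 0 < δ → (∀ x, HasDerivAt φ (φ' x) x) →
  Continuous φ' → MeasureTheory.Integrable φ → MeasureTheory.Integrable φ' →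
    Summable (fun k : ℤ => φ (δ * k)) ∧
      ‖(δ : ℂ) * ∑' k : ℤ, φ (δ * k) - ∫ x, φ x‖ ≤ δ * ∫ x, ‖φ' x‖

/-- GIN. The integrals `∫ v^n e^{-2v} dθ`, `v = e^θ y`. Proof: integrability by
`‖v‖ ≤ (3/2) Re v` and `Re v = e^θ y.re`; `d/dθ (-(1/2) e^{-2v}) = v e^{-2v}` gives the case
`n = 1`; `d/dθ (v^n e^{-2v}) = n v^n e^{-2v} - 2 v^(n+1) e^{-2v}` integrates to `0`, whence the
case `n + 1` (`MeasureTheory.integral_of_hasDerivAt_of_tendsto`). The last part: by translation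
in `θ` one may take `y.re = 1` in the bound
`(n + 3 ρ) ((3/2) ρ)^n e^{-2ρ}`, `ρ = e^θ y.re`. -/
def T_GIN : Prop := ∀ n : ℕ, 1 ≤ n →
  (∀ y ∈ sec, MeasureTheory.Integrable (fun θ : ℝ => ((Real.exp θ : ℂ) * y) ^ n *
      exp (-2 * ((Real.exp θ : ℂ) * y))) ∧
    ∫ θ : ℝ, ((Real.exp θ : ℂ) * y) ^ n * exp (-2 * ((Real.exp θ : ℂ) * y)) =
      ((n - 1).factorial : ℂ) / 2 ^ n) ∧
  ∃ C : ℝ, 0 ≤ C ∧ ∀ y ∈ sec,
    MeasureTheory.Integrable (fun θ : ℝ => (n - 2 * ((Real.exp θ : ℂ) * y)) *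
      ((Real.exp θ : ℂ) * y) ^ n * exp (-2 * ((Real.exp θ : ℂ) * y))) ∧
    ∫ θ : ℝ, ‖(n - 2 * ((Real.exp θ : ℂ) * y)) *
      ((Real.exp θ : ℂ) * y) ^ n * exp (-2 * ((Real.exp θ : ℂ) * y))‖ ≤ C

/-- BRD. The diagonal sum is nearly constant. Proof: `tb δ a k y * tb δ b k y =
4 δ v^(a+b) e^{-2v}` with `v = e^{δ k} y`; T_RIE and T_GIN with `n = a + b`. Holomorphy: the
integrand is dominated on the shells (`differentiableOn_tsum_of_summable_norm`, the bound of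
T_BNB type `‖tb δ a k y‖ ≤ C √δ e^{-|δ k + j log 2|}` on `Sh j`, T_BSG).
Hypotheses: T_RIE, T_GIN, T_SEC, T_BNB, T_BSG. -/
def T_BRD : Prop := ∀ a b : ℕ, 1 ≤ a → 1 ≤ b → ∃ C : ℝ, 0 ≤ C ∧ ∀ δ : ℝ, 0 < δ → δ ≤ 1 →
  DifferentiableOn ℂ (fun y => ∑' k : ℤ, tb δ a k y * tb δ b k y) sec ∧
    ∀ y ∈ sec, Summable (fun k : ℤ => tb δ a k y * tb δ b k y) ∧
      ‖∑' k : ℤ, tb δ a k y * tb δ b k y - mab a b‖ ≤ C * δ

/-- BOS. The off-diagonal sum. With `θ_k = δ k + c`, `k = r + m i`, `k' = r + m i'`: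
`|θ_k| + |θ_k'| ≥ L |i - i'|`, `L = δ m`, so the term is at most
`δ e^{-L |i - i'| / 2} e^{-|θ_k| / 2}`; `Σ_{n ≠ 0} e^{-L |n| / 2} ≤ 2 e^{-L/2} / (1 - e^{-1/2})`,
at most `6 e^{-L/2}`, and `δ Σ_k e^{-|θ_k| / 2} ≤ 6` by BSG with `h = δ / 2`. Hypothesis T_BSG. -/
def T_BOS : Prop := ∀ (δ c : ℝ) (m : ℕ), 0 < δ → δ ≤ 1 → 1 ≤ δ * m →
  ∑ r : Fin m, ∑' i : ℤ, ∑' i' : ℤ, (if i = i' then (0 : ENNReal) else
    ENNReal.ofReal (δ * Real.exp (-|δ * ((r : ℕ) + m * i : ℤ) + c| -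
      |δ * ((r : ℕ) + m * i' : ℤ) + c|))) ≤ ENNReal.ofReal (40 * Real.exp (-(δ * m) / 2))

/-- BIP. The products `<E_a, E_b>`. Proof: the function
`Σ_r E_{a,r} conj(E_{b,r}) - c` (`c = mab a b`) is
`(Σ_k tb_a k y tb_b k y - c) + Σ_{r, i ≠ i'} tb_a k y tb_b k' y e^{i (ξ_k - ξ_k') x}`
(`y = e^s` real, so `conj (tb δ b k' y) = tb δ b k' y`; product of absolutely convergent series;
`Int.divModEquiv` for the diagonal). Apply T_GEN with the index set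
`Unit ⊕ {(r, i, i') | i ≠ i'}`; the first term has frequency `0` and norm at most `C δ` (T_BRD);
for the others `sj (ξ - ξ') (t t') j ≤ sj ξ t j * sj ξ' t' j` since `|ξ - ξ'| ≤ |ξ| + |ξ'|`, then
T_BNB, T_BOS. Hypotheses: T_GEN, T_BNB, T_BSG, T_BRD, T_BOS. -/
def T_BIP : Prop := ∀ a b : ℕ, 1 ≤ a → 1 ≤ b → ∃ C : ℝ, 0 ≤ C ∧ ∀ (δ : ℝ) (m : ℕ), 0 < δ →
  δ ≤ 1 → 1 ≤ δ * m → ∀ E E' : Fin m → RR, (∀ r, (E r : ℝ × ℝ → ℂ) = Eb δ m a r) →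
    (∀ r, (E' r : ℝ × ℝ → ℂ) = Eb δ m b r) →
      NR (ip E (star E') - cst RR (mab a b)) (C * (Real.exp (-(δ * m) / 2) + δ))

/-- BAF. The base map. Proof: `u = cst I • E_1` with `δ = 1 / N`, `m = N^2`, `N` large. By T_BDE
`D u = -E_2 + (1/2) E_1`, `D D u = -i E_3 + (3i/2) E_2 - (i/4) E_1`. By bilinearity all five
quantities are combinations of `ip E_a (star E_b)`, `1 ≤ a, b ≤ 3`, and the constants are
`mab 1 1 = 1`, `mab 1 2 = 1`, `mab 1 3 = mab 2 2 = 3/2`, `mab 2 3 = 3`: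
`<u,u> = 1`, `<Du,u> = -i (-1 + 1/2) = i/2`, `<Du,Du> = 3/2 - 1 + 1/4 = 3/4`,
`<DDu,u> = -i * i (-3/2 + 3/2 - 1/4) = -1/4`,
`<DDu,Du> = -(-3i + 9i/4 - i/4) + (1/2)(-3i/2 + 3i/2 - i/4) = 7i/8`. The errors are at most
`C (e^{-N/2} + 1/N)` (rules T_NRA). Hypotheses: T_BVE, T_BDE, T_BIP, T_NRA, T_VRA. -/
def T_BAF : Prop := ∃ A : ℝ, 1 ≤ A ∧ ∀ η : ℝ, 0 < η → ∃ (m : ℕ) (u : Fin m → RR),
  Sys0 (dR (Fin m)) u ∧ VR u A ∧ NR (qq u 0 - 1) η ∧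
    NR (ip (dv (dDer (-1)) u) (star u) - cst RR (I / 2)) η ∧
    NR (ip (dv (dDer (-1)) u) (star (dv (dDer (-1)) u)) - cst RR (3 / 4)) η ∧
    NR (ip (dv (dDer (-1)) (dv (dDer (-1)) u)) (star u) + cst RR (1 / 4)) η ∧
    NR (ip (dv (dDer (-1)) (dv (dDer (-1)) u)) (star (dv (dDer (-1)) u)) -
      cst RR (7 * I / 8)) η

/-- SOL. The solution of the analytic problem in the concrete structure: T_FIX with
`CE = 100`, `CS = 1000`, the base map of T_BAF, T_AXM, T_CPM. -/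
def T_SOL : Prop := ∃ (m : ℕ) (χ l i : RR) (u Y : Fin m → RR), star χ = χ ∧
  NR (χ - 1) (1 / 2) ∧ 2 * l * χ = dDer (-1) χ ∧ Sys (dR (Fin m)) l u Y ∧
    dl u Y * i = 1 ∧ χ = tt (dR (Fin m)) u Y i ∧ NR (qq u Y - 1) (1 / 8) ∧
      NR (pp u Y) (1 / 8)

end Pool.Agent.HSD
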