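import Pool.Agent.HSD.Targets3
import Pool.Agent.HSD.DefsG

/-!
# Project HSD: geometry

From the solution `(χ, l, u, Y, i)` of `T_SOL` to the surface. Coordinates `(x, s)` on the plane;
`z = x + i s` in the final statement.
-/

set_option autoImplicit false

namespace Pool.Agent.HSD

open Complex

/-- The `x`-derivative as an operator of `RR`. -/
noncomputable def pxR (f : RR) : RR := ⟨px f, mem_RR.mpr (px_smooth f)⟩
/-- The `s`-derivative as an operator of `RR`. -/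
noncomputable def psR (f : RR) : RR := ⟨ps f, mem_RR.mpr (ps_smooth f)⟩

/-- The function `e^{-s}`. -/
noncomputable def ies : RR := ⟨fun p => ((Real.exp (-p.2) : ℝ) : ℂ), mem_RR.mpr
  (Complex.ofRealCLM.contDiff.comp (Real.contDiff_exp.comp contDiff_snd.neg))⟩

/-- The value of an element of `RR` at a point. -/
def vl (f : RR) (p : ℝ × ℝ) : ℂ := (f : ℝ × ℝ → ℂ) p

theorem vl_add (f g : RR) (p : ℝ × ℝ) : vl (f + g) p = vl f p + vl g p := rfl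
theorem vl_sub (f g : RR) (p : ℝ × ℝ) : vl (f - g) p = vl f p - vl g p := rfl
theorem vl_neg (f : RR) (p : ℝ × ℝ) : vl (-f) p = -vl f p := rfl
theorem vl_mul (f g : RR) (p : ℝ × ℝ) : vl (f * g) p = vl f p * vl g p := rfl
theorem vl_star (f : RR) (p : ℝ × ℝ) : vl (star f) p = starRingEnd ℂ (vl f p) := rfl
theorem vl_cst (z : ℂ) (p : ℝ × ℝ) : vl (cst RR z) p = z := rfl
theorem vl_one (p : ℝ × ℝ) : vl 1 p = 1 := rfl
theorem vl_zero (p : ℝ × ℝ) : vl 0 p = 0 := rfl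
theorem vl_sum {m : ℕ} (v : Fin m → RR) (p : ℝ × ℝ) : vl (∑ r, v r) p = ∑ r, vl (v r) p :=
  map_sum (AddMonoidHom.mk' (fun f : RR => vl f p) (fun _ _ => rfl)) _ _
theorem vl_ext {f g : RR} (h : ∀ p, vl f p = vl g p) : f = g := Subtype.ext (funext h)

/-- The value of a vector of functions at a point. -/
def ev {m : ℕ} (v : Fin m → RR) (p : ℝ × ℝ) : Fin m → ℂ := fun r => vl (v r) p

/-- The real form `ℂ^m = ℝ^{2m}`. -/
noncomputable def toR (m : ℕ) : (Fin m → ℂ) →ₗ[ℝ] EuclideanSpace ℝ (Fin m ⊕ Fin m) where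
  toFun a := WithLp.toLp 2 (Sum.elim (fun r => (a r).re) (fun r => (a r).im))
  map_add' a b := by
    ext k
    rcases k with k | k <;> simp
  map_smul' c a := by
    ext k
    rcases k with k | k <;> simp

/-- The surface with complex components `Φ`. -/
noncomputable def surf {m : ℕ} (Φ : Fin m → RR) (z : ℂ) : EuclideanSpace ℝ (Fin m ⊕ Fin m) :=
  toR m (ev Φ (z.re, z.im))

/-- The data of the geometric part (conclusion of T_SOL, with `g = √χ` and the potential `Φ`). -/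
structure Geo (m : ℕ) (χ l i g : RR) (u Y Φ : Fin m → RR) : Prop where
  real : star χ = χ
  near : NR (χ - 1) (1 / 2)
  hl : 2 * l * χ = dDer (-1) χ
  sys : Sys (dR (Fin m)) l u Y
  inv : dl u Y * i = 1
  fix : χ = tt (dR (Fin m)) u Y i
  hq : NR (qq u Y - 1) (1 / 8)
  hp : NR (pp u Y) (1 / 8)
  gg : g * g = χ
  gst : star g = g
  Dg : dDer (-1) g = l * g
  Dbg : dDer 1 g = star l * g
  DΦ : dv (dDer (-1)) Φ = g • u
  DbΦ : dv (dDer 1) Φ = g • Y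

/-- OPS. The derivatives in terms of `D` and `Db`; rules for `ies`; evaluation of products. -/
def T_OPS : Prop :=
  (∀ f : RR, pxR f = ies * (dDer (-1) f + dDer 1 f)) ∧
  (∀ f : RR, psR f = cst RR I * (dDer (-1) f - dDer 1 f)) ∧
  pxR ies = 0 ∧ psR ies = -ies ∧ star ies = ies ∧
  (∀ f g : RR, pxR (f * g) = f * pxR g + g * pxR f) ∧
  (∀ f g : RR, psR (f * g) = f * psR g + g * psR f) ∧
  (∀ f g : RR, pxR (f + g) = pxR f + pxR g ∧ pxR (f - g) = pxR f - pxR g ∧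
    psR (f + g) = psR f + psR g ∧ psR (f - g) = psR f - psR g) ∧
  ∀ f : RR, pxR (psR f) = psR (pxR f)

/-- SQR. The square root. Proof: at each point `χ p` is real and `‖χ p - 1‖ ≤ 1/2` (T_NRA), so
`(χ p).re ≥ 1/2`; `g p = √((χ p).re)` is smooth. From `g g = χ`: `2 g D g = D χ = 2 l g g`, and `g`
has no zeros. `Db g = star (D g)` as `star g = g` (T_DRA). Hypotheses: T_NRA, T_DRA. -/
def T_SQR : Prop := ∀ χ l : RR, star χ = χ → NR (χ - 1) (1 / 2) → 2 * l * χ = dDer (-1) χ →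
  ∃ g : RR, g * g = χ ∧ star g = g ∧ dDer (-1) g = l * g ∧ dDer 1 g = star l * g

/-- POT. The Poincare lemma in the plane, from
`Convex.exists_forall_hasFDerivAt_of_fderiv_symmetric` applied to the 1-form
`P dx + Q ds`; the primitive is smooth since its derivative is. -/
def T_POT : Prop := ∀ P Q : RR, psR P = pxR Q → ∃ Φ : RR, pxR Φ = P ∧ psR Φ = Q

/-- PHI. The potential. Proof: `P = ies g (u + Y)`, `Q = cst I g (u - Y)` (componentwise). By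
T_OPS `psR P = pxR Q` is equivalent to `D (g Y) - Db (g u) = -(i/2) g (u + Y)`, which
follows from `D (g Y) = g (l Y - (i/2) Y + l* u)`, `Db (g u) = g (l* u + (i/2) u + l Y)`. Then
`D Φ`, `Db Φ` are recovered from `pxR Φ = ies (D Φ + Db Φ)`, `psR Φ = i (D Φ - Db Φ)` (`ies` is
invertible). Hypotheses: T_OPS, T_POT. -/
def T_PHI : Prop := ∀ (m : ℕ) (l g : RR) (u Y : Fin m → RR), Sys (dR (Fin m)) l u Y →
  dDer (-1) g = l * g → dDer 1 g = star l * g →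
    ∃ Φ : Fin m → RR, dv (dDer (-1)) Φ = g • u ∧ dv (dDer 1) Φ = g • Y

/-- FUN. First derivatives: `Φ_x = ies g (u + Y)`, `Φ_s = i g (u - Y)`. (T_OPS) -/
def T_FUN : Prop := ∀ (m : ℕ) (χ l i g : RR) (u Y Φ : Fin m → RR), Geo m χ l i g u Y Φ →
  (fun r => pxR (Φ r)) = (ies * g) • (u + Y) ∧
    (fun r => psR (Φ r)) = (cst RR I * g) • (u - Y)

/-- SFF. Second derivatives. With `a = ca`, `b = cb`, `ω₁ = w1`, `ω₂ = w2`:
`D (g u) = g (l u + ω₁ + a u + b Y)`, `D (g Y) = g (l Y - (i/2) Y + l* u)`,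
`Db (g u) = g (l* u + (i/2) u + l Y)`, `Db (g Y) = g (l* Y + ω₂* + a* Y + b* u)` (the last one is
the star of `D (Y*) = ω₂ + a Y* + b u*`). Hypotheses: T_OPS, T_FUN, T_DRA. -/
def T_SFF : Prop := ∀ (m : ℕ) (χ l i g : RR) (u Y Φ : Fin m → RR), Geo m χ l i g u Y Φ →
  ∃ ρ1 ρ2 ρ3 : RR, ρ1 + ρ3 = 4 * star l + cst RR I ∧
    (fun r => pxR (pxR (Φ r))) = (ies * ies * g) • (ρ1 • u + star ρ1 • Y +
      (w1 (dR (Fin m)) u Y i + star (w2 (dR (Fin m)) u Y i))) ∧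
    (fun r => psR (pxR (Φ r))) = (ies * g) • (ρ2 • u + star ρ2 • Y +
      cst RR I • (w1 (dR (Fin m)) u Y i - star (w2 (dR (Fin m)) u Y i))) ∧
    (fun r => psR (psR (Φ r))) = g • (ρ3 • u + star ρ3 • Y -
      (w1 (dR (Fin m)) u Y i + star (w2 (dR (Fin m)) u Y i)))

/-- TOR. The inner product of the real form: `⟨toR v, toR w⟩ = Re Σ v_r conj(w_r)`; on values of
vectors of functions it is `Re (ip v (star w))`. -/
def T_TOR : Prop := (∀ (m : ℕ) (v w : Fin m → ℂ),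
    inner ℝ (toR m v) (toR m w) = (∑ r, v r * starRingEnd ℂ (w r)).re) ∧
  ∀ (m : ℕ) (v w : Fin m → RR) (p : ℝ × ℝ),
    inner ℝ (toR m (ev v p)) (toR m (ev w p)) = (vl (ip v (star w)) p).re

/-- DSU. The derivatives of the surface. (`surf Φ` is the composition of a continuous linear map,
of the smooth functions `Φ r` and of `z ↦ (z.re, z.im)`.) -/
def T_DSU : Prop := ∀ (m : ℕ) (Φ : Fin m → RR),
  ContDiff ℝ ((⊤ : ℕ∞) : WithTop ℕ∞) (surf Φ) ∧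
    (∀ z, fderiv ℝ (surf Φ) z 1 = surf (fun r => pxR (Φ r)) z) ∧
    ∀ z, fderiv ℝ (surf Φ) z I = surf (fun r => psR (Φ r)) z

/-- MET. The metric. With `y = e^{-s}` and `q`, `p` the values of `qq u Y`, `pp u Y`:
`E = χ y² (q + Re p)`, `F = -χ y Im p`, `G = χ (q - Re p)`, `E G - F² = χ² y² (q² - |p|²)`.
Proof: T_DSU, T_FUN, T_TOR; `ip (u + Y) (star (u + Y)) = q + (p + p*) / 2` etc. (`2 cst (1/2)` ),
`g` real with `g g = χ`. The last conclusion: `‖p‖ ≤ 1/8`, `|q - 1| ≤ 1/8`, `χ ≥ 1/2`, so the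
quadratic form is at least `χ (q - |p|) (y² a² + b²) ≥ (3/8) (y² a² + b²)`.
Hypotheses: T_DSU, T_FUN, T_TOR, T_NRA. -/
def T_MET : Prop := ∀ (m : ℕ) (χ l i g : RR) (u Y Φ : Fin m → RR), Geo m χ l i g u Y Φ →
  ∀ z : ℂ, ∃ X q P Q y : ℝ, vl χ (z.re, z.im) = X ∧ vl (qq u Y) (z.re, z.im) = q ∧
    vl (pp u Y) (z.re, z.im) = P + Q * I ∧ y = Real.exp (-z.im) ∧
    gE (surf Φ) z = X * y ^ 2 * (q + P) ∧ gF (surf Φ) z = -(X * y * Q) ∧
    gG (surf Φ) z = X * (q - P) ∧ 0 < gE (surf Φ) z * gG (surf Φ) z - gF (surf Φ) z ^ 2 ∧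
    ∀ a b : ℝ, 1 / 4 * (y ^ 2 * a ^ 2 + b ^ 2) ≤
      a ^ 2 * gE (surf Φ) z + 2 * a * b * gF (surf Φ) z + b ^ 2 * gG (surf Φ) z

/-- ORR. The vectors `n₁ = ω₁ + ω₂*` and `n₂ = i (ω₁ - ω₂*)` are normal in the real sense, and
their norms add up to `2 W`. Proof: with ORT, `ip n₁ (star (u + Y)) = (X* - X) + (Z* - Z)` where
`X = ip w2 Y`, `Z = ip w2 u`: a purely imaginary function; the others are similar;
`ip n₁ (star n₁) + ip n₂ (star n₂) = 2 W`. Stated as identities `h + star h = 0` (the real part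
of `h` vanishes). Hypothesis T_ORT. -/
def T_ORR : Prop := ∀ (m : ℕ) (u Y : Fin m → RR) (i : RR), dl u Y * i = 1 →
  ∀ n1 n2 : Fin m → RR, n1 = w1 (dR (Fin m)) u Y i + star (w2 (dR (Fin m)) u Y i) →
    n2 = cst RR I • (w1 (dR (Fin m)) u Y i - star (w2 (dR (Fin m)) u Y i)) →
      ip n1 (star (u + Y)) + star (ip n1 (star (u + Y))) = 0 ∧
      ip n1 (star (cst RR I • (u - Y))) + star (ip n1 (star (cst RR I • (u - Y)))) = 0 ∧
      ip n2 (star (u + Y)) + star (ip n2 (star (u + Y))) = 0 ∧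
      ip n2 (star (cst RR I • (u - Y))) + star (ip n2 (star (cst RR I • (u - Y)))) = 0 ∧
      ip n1 (star n1) + ip n2 (star n2) = 2 * ww (dR (Fin m)) u Y i

/-- SEC2. The second derivatives of the surface at a point: tangential part plus normal part.
With `y = e^{-s}` and `h` the (real) value of `g`, `h² = χ`: `f_11 = (tangent) + y² h N1`,
`f_12 = (tangent) + y h N2`, `f_22 = (tangent) - h N1` where `N1`, `N2` are the real forms
`toR m (ev n p)` of the values of `n₁`, `n₂` of T_ORR, orthogonal to `f_1`, `f_2`, and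
`‖N1‖² + ‖N2‖² = 2 W`. A vector `ρ u + ρ* Y` is the real combination
`Re ρ (u + Y) + Im ρ (i (u - Y))`, that is a real combination of `f_1`, `f_2` (T_FUN; `h ≠ 0`).
Hypotheses: T_DSU, T_FUN, T_SFF, T_TOR, T_ORR, T_NRA. -/
def T_SEC2 : Prop := ∀ (m : ℕ) (χ l i g : RR) (u Y Φ : Fin m → RR), Geo m χ l i g u Y Φ →
  ∀ z : ℂ, ∃ (X W y h a1 a2 b1 b2 c1 c2 : ℝ) (N1 N2 : EuclideanSpace ℝ (Fin m ⊕ Fin m)),
    vl χ (z.re, z.im) = X ∧ vl (ww (dR (Fin m)) u Y i) (z.re, z.im) = W ∧ y = Real.exp (-z.im) ∧ h ^ 2 = X ∧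
    inner ℝ (fderiv ℝ (surf Φ) z 1) N1 = 0 ∧ inner ℝ (fderiv ℝ (surf Φ) z I) N1 = 0 ∧
    inner ℝ (fderiv ℝ (surf Φ) z 1) N2 = 0 ∧ inner ℝ (fderiv ℝ (surf Φ) z I) N2 = 0 ∧
    inner ℝ N1 N1 + inner ℝ N2 N2 = 2 * W ∧
    fderiv ℝ (fun w => fderiv ℝ (surf Φ) w 1) z 1 = a1 • fderiv ℝ (surf Φ) z 1 +
      a2 • fderiv ℝ (surf Φ) z I + (y ^ 2 * h) • N1 ∧
    fderiv ℝ (fun w => fderiv ℝ (surf Φ) w 1) z I = b1 • fderiv ℝ (surf Φ) z 1 +
      b2 • fderiv ℝ (surf Φ) z I + (y * h) • N2 ∧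
    fderiv ℝ (fun w => fderiv ℝ (surf Φ) w I) z I = c1 • fderiv ℝ (surf Φ) z 1 +
      c2 • fderiv ℝ (surf Φ) z I + (-h) • N1

/-- SAD. The surface is saddle: for a normal `ν`, `⟨f_11, ν⟩ = y² h ⟨N1, ν⟩` and
`⟨f_22, ν⟩ = -h ⟨N1, ν⟩`. Hypothesis T_SEC2. -/
def T_SAD : Prop := ∀ (m : ℕ) (χ l i g : RR) (u Y Φ : Fin m → RR), Geo m χ l i g u Y Φ →
  Saddle (surf Φ)

/-- BRI. The Gauss equation. Proof: differentiate `E = ⟨f_1, f_1⟩` etc.:
`⟨f_11, f_1⟩ = E_1 / 2`, `⟨f_11, f_2⟩ = F_1 - E_2 / 2`, `⟨f_22, f_1⟩ = F_2 - G_1 / 2`,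
`⟨f_22, f_2⟩ = G_2 / 2`, `⟨f_12, f_1⟩ = E_2 / 2`, `⟨f_12, f_2⟩ = G_1 / 2` and
`-E_22 / 2 + F_12 - G_11 / 2 = ⟨f_11, f_22⟩ - ⟨f_12, f_12⟩` (third derivatives cancel by
symmetry). Insert the decompositions; the two determinants give
`(E G - F²) (⟨n11, n22⟩ - ⟨n12, n12⟩)` (`Matrix.det_fin_three`, `ring`). -/
def T_BRI : Prop := ∀ (E : Type) [NormedAddCommGroup E] [InnerProductSpace ℝ E] (f : ℂ → E),
  ContDiff ℝ ((⊤ : ℕ∞) : WithTop ℕ∞) f → ∀ (z : ℂ) (a1 a2 b1 b2 c1 c2 : ℝ) (n11 n12 n22 : E),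
    gE f z * gG f z - gF f z ^ 2 ≠ 0 →
    fderiv ℝ (fun w => fderiv ℝ f w 1) z 1 = a1 • fderiv ℝ f z 1 + a2 • fderiv ℝ f z I + n11 →
    fderiv ℝ (fun w => fderiv ℝ f w 1) z I = b1 • fderiv ℝ f z 1 + b2 • fderiv ℝ f z I + n12 →
    fderiv ℝ (fun w => fderiv ℝ f w I) z I = c1 • fderiv ℝ f z 1 + c2 • fderiv ℝ f z I + n22 →
    inner ℝ (fderiv ℝ f z 1) n11 = 0 → inner ℝ (fderiv ℝ f z I) n11 = 0 →
    inner ℝ (fderiv ℝ f z 1) n12 = 0 → inner ℝ (fderiv ℝ f z I) n12 = 0 →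
    inner ℝ (fderiv ℝ f z 1) n22 = 0 → inner ℝ (fderiv ℝ f z I) n22 = 0 →
      brio (gE f) (gF f) (gG f) z =
        (inner ℝ n11 n22 - inner ℝ n12 n12) / (gE f z * gG f z - gF f z ^ 2)

/-- CUR. The curvature is `-1`. Proof: by T_BRI and T_SEC2 the curvature is
`-(y² h² (‖N1‖² + ‖N2‖²)) / (E G - F²) = -2 y² X W / (X² y² Δ)` with `Δ = q² - |p|²` (T_MET), and
`X = 2 W i`, `Δ i = 1` give `X Δ = 2 W`. Hypotheses: T_SEC2, T_BRI, T_MET, T_DSU. -/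
def T_CUR : Prop := ∀ (m : ℕ) (χ l i g : RR) (u Y Φ : Fin m → RR), Geo m χ l i g u Y Φ →
  ∀ z : ℂ, brio (gE (surf Φ)) (gF (surf Φ)) (gG (surf Φ)) z = -1

/-- LEN. Completeness. Proof: let `γ = x + i s` have finite length `L`; then
`|s'| ≤ 2 ‖f(γ)'‖`, so `|s(t) - s(0)| ≤ 2 L`, and `|x'| ≤ 2 e^{s} ‖f(γ)'‖` gives
`|x(t) - x(0)| ≤ 2 e^{|s(0)| + 2 L} L`. So `γ` stays in a compact set, a contradiction. (Use
`‖fderiv f z w‖² = a² E + 2 a b F + b² G` with `w = a + i b`, and the fundamental theorem on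
`[0, t]`.) -/
def T_LEN : Prop := ∀ (E : Type) [NormedAddCommGroup E] [InnerProductSpace ℝ E] (f : ℂ → E),
  ContDiff ℝ ((⊤ : ℕ∞) : WithTop ℕ∞) f →
  (∀ (z : ℂ) (a b : ℝ), 1 / 4 * (Real.exp (-z.im) ^ 2 * a ^ 2 + b ^ 2) ≤
    a ^ 2 * gE f z + 2 * a * b * gF f z + b ^ 2 * gG f z) → CompleteInd f

/-- ISO. Transport by a linear isometry: if `f` has all the properties then so has `e ∘ f`
(`fderiv (e ∘ f) z v = e (fderiv f z v)`, inner products and norms are preserved;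
a normal vector `ν` of `e ∘ f` is `e` of a normal vector). -/
def T_ISO : Prop := ∀ (E E' : Type) [NormedAddCommGroup E] [InnerProductSpace ℝ E]
  [NormedAddCommGroup E'] [InnerProductSpace ℝ E'] (e : E ≃ₗᵢ[ℝ] E') (f : ℂ → E),
  ContDiff ℝ ((⊤ : ℕ∞) : WithTop ℕ∞) f →
    ContDiff ℝ ((⊤ : ℕ∞) : WithTop ℕ∞) (fun z => e (f z)) ∧
    (∀ z, gE (fun z => e (f z)) z = gE f z) ∧ (∀ z, gF (fun z => e (f z)) z = gF f z) ∧
    (∀ z, gG (fun z => e (f z)) z = gG f z) ∧ (Saddle f → Saddle (fun z => e (f z))) ∧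
    (CompleteInd f → CompleteInd (fun z => e (f z)))

/-- FIN. The theorem. Proof: T_SOL, T_SQR, T_PHI give `Geo`; `f = surf Φ`, transported by
`LinearIsometryEquiv.piLpCongrLeft 2 ℝ ℝ finSumFinEquiv` (T_ISO). Hypotheses: T_SOL, T_SQR,
T_PHI, T_DSU, T_MET, T_SAD, T_CUR, T_LEN, T_ISO. -/
def T_FIN : Prop := ∃ (n : ℕ) (f : ℂ → EuclideanSpace ℝ (Fin n)),
  ContDiff ℝ ((⊤ : ℕ∞) : WithTop ℕ∞) f ∧ (∀ z, 0 < gE f z * gG f z - gF f z ^ 2) ∧
    (∀ z, brio (gE f) (gF f) (gG f) z = -1) ∧ CompleteInd f ∧ Saddle f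

end Pool.Agent.HSD
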